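import Pool.Agent.MUG.Leib
import Pool.Agent.MUE79.Three
import Pool.Agent.MUE79.Ind

/-!
# Rows E0, E1, E2, E2', E3 (helper79): `Ext` and exact functors
-/

open CategoryTheory MonoidalCategory Limits Abelian

universe w w' v v' u u'

set_option linter.unusedSectionVars false

namespace Pool.Agent.MUG

section ExtRows

variable {A : Type u} [Category.{v} A] [Abelian A] [HasExt.{w} A]
  {B : Type u'} [Category.{v'} B] [Abelian B] [HasExt.{w'} B]

/-- Row E0. -/
theorem ext_factor [EnoughProjectives A] {X Y : A} (n : ℕ) (x : Ext X Y (n + 1)) :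
    ∃ (K P : A) (i : K ⟶ P) (p : P ⟶ X) (w : i ≫ p = 0)
      (hS : (ShortComplex.mk i p w).ShortExact) (_ : Projective P) (y : Ext K Y n),
      x = hS.extClass.comp y (add_comm 1 n) := by
  obtain ⟨K, P, hP, i, p, w, hS, y, hy⟩ := MUE79.exists_fac x
  exact ⟨K, P, i, p, w, hS, hP, y, hy.symm⟩

/-- Row E1 (NAT). -/
theorem ext_nat [EnoughProjectives A] (F G : A ⥤ B) [F.Additive] [G.Additive]
    [PreservesFiniteLimits F] [PreservesFiniteColimits F]
    [PreservesFiniteLimits G] [PreservesFiniteColimits G] (θ : F ⟶ G)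
    {X Y : A} (n : ℕ) (x : Ext X Y n) :
    (x.mapExactFunctor F).comp (Ext.mk₀ (θ.app Y)) (add_zero n) =
      (Ext.mk₀ (θ.app X)).comp (x.mapExactFunctor G) (zero_add n) :=
  MUE79.map_nat θ x

/-- Row E2 (COMPF). -/
theorem ext_map_comp [EnoughProjectives A] {D : Type*} [Category D] [Abelian D]
    [HasExt.{w} D] (F : A ⥤ B) (G : B ⥤ D) [F.Additive] [G.Additive]
    [PreservesFiniteLimits F] [PreservesFiniteColimits F]
    [PreservesFiniteLimits G] [PreservesFiniteColimits G]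
    [(F ⋙ G).Additive] [PreservesFiniteLimits (F ⋙ G)] [PreservesFiniteColimits (F ⋙ G)]
    {X Y : A} (n : ℕ) (x : Ext X Y n) :
    x.mapExactFunctor (F ⋙ G) = (x.mapExactFunctor F).mapExactFunctor G :=
  MUE79.map_comp F G x

/-- Row E2'. -/
theorem ext_map_id [EnoughProjectives A] {X Y : A} (n : ℕ) (x : Ext X Y n) :
    x.mapExactFunctor (𝟭 A) = x :=
  MUE79.map_id x

/-- Row E3 (SIGN). A short exact sequence of exact functors `0 ⟶ F₁ ⟶ F₂ ⟶ F₃ ⟶ 0`. -/
theorem ext_sign [EnoughProjectives A] (F₁ F₂ F₃ : A ⥤ B)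
    [F₁.Additive] [F₂.Additive] [F₃.Additive]
    [PreservesFiniteLimits F₁] [PreservesFiniteColimits F₁]
    [PreservesFiniteLimits F₂] [PreservesFiniteColimits F₂]
    [PreservesFiniteLimits F₃] [PreservesFiniteColimits F₃]
    (f : F₁ ⟶ F₂) (g : F₂ ⟶ F₃) (w : ∀ X, f.app X ≫ g.app X = 0)
    (hS : ∀ X, (ShortComplex.mk (f.app X) (g.app X) (w X)).ShortExact)
    {X Y : A} (n : ℕ) (x : Ext X Y n) :
    (x.mapExactFunctor F₃).comp (hS Y).extClass rfl =
      ((-1 : ℤ) ^ n) • (hS X).extClass.comp (x.mapExactFunctor F₁) (add_comm 1 n) := by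
  refine MUE79.ext_ind (motive := fun X Y n x =>
    (x.mapExactFunctor F₃).comp (hS Y).extClass rfl =
      ((-1 : ℤ) ^ n) • (hS X).extClass.comp (x.mapExactFunctor F₁) (add_comm 1 n))
    ?_ ?_ ?_ X Y n x
  · intro X Y h
    rw [Ext.mapExactFunctor_mk₀, Ext.mapExactFunctor_mk₀, pow_zero, one_smul]
    let φ : ShortComplex.mk (f.app X) (g.app X) (w X) ⟶
        ShortComplex.mk (f.app Y) (g.app Y) (w Y) :=
      { τ₁ := F₁.map h, τ₂ := F₂.map h, τ₃ := F₃.map h
        comm₁₂ := f.naturality h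
        comm₂₃ := g.naturality h }
    exact (ShortComplex.ShortExact.extClass_naturality (hS X) (hS Y) φ).symm
  · intro S hS'
    rw [pow_one, neg_smul, one_smul]
    let T₁ : ShortComplex B := ShortComplex.mk (f.app S.X₁) (g.app S.X₁) (w S.X₁)
    let T₂ : ShortComplex B := ShortComplex.mk (f.app S.X₂) (g.app S.X₂) (w S.X₂)
    let T₃ : ShortComplex B := ShortComplex.mk (f.app S.X₃) (g.app S.X₃) (w S.X₃)
    let a : T₁ ⟶ T₂ :=
      { τ₁ := F₁.map S.f, τ₂ := F₂.map S.f, τ₃ := F₃.map S.f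
        comm₁₂ := f.naturality S.f
        comm₂₃ := g.naturality S.f }
    let b : T₂ ⟶ T₃ :=
      { τ₁ := F₁.map S.g, τ₂ := F₂.map S.g, τ₃ := F₃.map S.g
        comm₁₂ := f.naturality S.g
        comm₂₃ := g.naturality S.g }
    have key := MUE79.three_by_three a b (S.map F₁).zero (S.map F₂).zero (S.map F₃).zero
      (hS S.X₁) (hS S.X₂) (hS S.X₃) (hS'.map_of_exact F₁) (hS'.map_of_exact F₂)
      (hS'.map_of_exact F₃)
    have e1 := Ext.mapExactFunctor_extClass F₁ hS'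
    have e3 := Ext.mapExactFunctor_extClass F₃ hS'
    have e5 : (hS'.extClass.mapExactFunctor F₃).comp (hS S.X₁).extClass (rfl : 1 + 1 = 1 + 1) =
        (hS'.map_of_exact F₃).extClass.comp (hS S.X₁).extClass (rfl : 1 + 1 = 2) :=
      congrArg (fun y => Ext.comp y (hS S.X₁).extClass (rfl : 1 + 1 = 2)) e3
    have e6 : (hS S.X₃).extClass.comp (hS'.extClass.mapExactFunctor F₁) (rfl : 1 + 1 = 1 + 1) =
        (hS S.X₃).extClass.comp (hS'.map_of_exact F₁).extClass (rfl : 1 + 1 = 2) :=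
      congrArg (fun y => Ext.comp (hS S.X₃).extClass y (rfl : 1 + 1 = 2)) e1
    refine eq_neg_of_add_eq_zero_right ?_
    exact (congrArg₂ (fun x y => x + y) e6 e5).trans key
  · intro X Y Z a b c h α β hα hβ
    rw [Ext.mapExactFunctor_comp, Ext.mapExactFunctor_comp,
      Ext.comp_assoc (a₁₂ := c) (a₂₃ := b + 1) _ _ _ h rfl (by omega), hβ, MUE79.comp_zsmul,
      ← Ext.comp_assoc (a₁₂ := a + 1) (a₂₃ := b + 1) _ _ _ rfl (by omega) (by omega), hα,
      MUE79.zsmul_comp, smul_smul,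
      Ext.comp_assoc (a₁₂ := a + 1) (a₂₃ := c) _ _ _ (by omega) h (by omega), ← pow_add]
    congr 2
    omega

end ExtRows

end Pool.Agent.MUG
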