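import Pool.Agent.MUG.Leib

open CategoryTheory MonoidalCategory Limits Abelian

universe w w' v v' u u'

namespace Pool.Agent.MUG

section

variable {A : Type u} [Category.{v} A] [Abelian A]

/-- Pushout of a short exact sequence along a map out of its first term. -/
theorem pushout_shortExact {K P N M : A} (i : K ⟶ P) (p : P ⟶ N) (w : i ≫ p = 0)
    (hS : (ShortComplex.mk i p w).ShortExact) (f : K ⟶ M) :
    ∃ (Y : A) (j : M ⟶ Y) (q : Y ⟶ N) (w' : j ≫ q = 0) (g : P ⟶ Y),
      (ShortComplex.mk j q w').ShortExact ∧ i ≫ g = f ≫ j ∧ g ≫ q = p := by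
  have : Mono i := hS.mono_f
  have : Epi p := hS.epi_g
  obtain ⟨q, hq1, hq2⟩ : ∃ q : pushout f i ⟶ N, pushout.inl f i ≫ q = 0 ∧
      pushout.inr f i ≫ q = p :=
    ⟨pushout.desc 0 p (by simp [w]), pushout.inl_desc _ _ _, pushout.inr_desc _ _ _⟩
  refine ⟨pushout f i, pushout.inl f i, q, hq1, pushout.inr f i, ?_, ?_, hq2⟩
  · refine ShortComplex.ShortExact.mk' ?_ inferInstance ?_
    · refine ShortComplex.exact_of_g_is_cokernel _ ?_
      refine CokernelCofork.IsColimit.ofπ _ _ (fun g' hg' => ?_) ?_ ?_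
      · exact hS.exact.desc (pushout.inr f i ≫ g') (by
          dsimp
          rw [← Category.assoc, ← pushout.condition, Category.assoc, hg', comp_zero])
      · intro Z g' hg'
        apply pushout.hom_ext
        · rw [← Category.assoc, hq1, zero_comp, hg']
        · rw [← Category.assoc, hq2]
          exact hS.exact.g_desc _ _
      · intro Z g' hg' m hm
        have e1 : p ≫ m = pushout.inr f i ≫ g' := by
          rw [← hq2, Category.assoc]; exact congrArg _ hm
        rw [← cancel_epi p, e1]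
        exact (hS.exact.g_desc _ _).symm
    · exact epi_of_epi_fac hq2
  · exact pushout.condition.symm

variable [HasExt.{w} A]

/-- Every degree one class is the class of a short exact sequence. -/
theorem exists_ses
    (h0 : ∀ (X Y : A) (x : Ext X Y 1),
      ∃ (K P : A) (i : K ⟶ P) (p : P ⟶ X) (w : i ≫ p = 0)
      (hS : (ShortComplex.mk i p w).ShortExact) (_ : Projective P) (y : Ext K Y 0),
      x = hS.extClass.comp y (add_comm 1 0))
    {N M : A} (x : Ext N M 1) :
    ∃ (Y : A) (j : M ⟶ Y) (q : Y ⟶ N) (w : j ≫ q = 0)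
      (hS : (ShortComplex.mk j q w).ShortExact), x = hS.extClass := by
  obtain ⟨K, P, i, p, w, hS, -, y, rfl⟩ := h0 N M x
  obtain ⟨f, rfl⟩ := (Ext.mk₀_bijective _ _).2 y
  obtain ⟨Y, j, q, w', g, hS', h1, h2⟩ := pushout_shortExact i p w hS f
  refine ⟨Y, j, q, w', hS', ?_⟩
  have := ShortComplex.ShortExact.extClass_naturality hS hS'
    { τ₁ := f, τ₂ := g, τ₃ := 𝟙 _, comm₁₂ := h1.symm, comm₂₃ := by simp [h2] }
  simpa using this

end

end Pool.Agent.MUG
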