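import Pool.Agent.MUG.Leib

open CategoryTheory MonoidalCategory Limits Abelian

universe w v u

namespace Pool.Agent.MUG

section Aux

variable {C : Type u} [Category.{v} C] [Abelian C] [MonoidalCategory C]
  [MonoidalPreadditive C] [RigidCategory C]

/-- A map into a right dual is zero if its evaluation is zero. -/
theorem eq_zero_of_rdual {X Z : C} (f : Z ⟶ Xᘁ) (h : (f ▷ X) ≫ ε_ X (Xᘁ) = 0) : f = 0 := by
  have h3 : (tensorRightHomEquiv Z X (Xᘁ) (𝟙_ C)).symm (f ≫ (λ_ (Xᘁ)).inv) =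
      (tensorRightHomEquiv Z X (Xᘁ) (𝟙_ C)).symm 0 := by
    simp only [tensorRightHomEquiv, Equiv.coe_fn_symm_mk]
    simp only [MonoidalPreadditive.zero_whiskerRight, zero_comp, comp_whiskerRight,
      Category.assoc]
    have e : (λ_ (Xᘁ)).inv ▷ X ≫ (α_ (𝟙_ C) (Xᘁ) X).hom = (λ_ (Xᘁ ⊗ X)).inv := by simp
    rw [reassoc_of% e, ← leftUnitor_inv_naturality_assoc, reassoc_of% h, zero_comp]
  have h4 := (tensorRightHomEquiv Z X (Xᘁ) (𝟙_ C)).symm.injective h3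
  rw [← cancel_mono (λ_ (Xᘁ)).inv, h4, zero_comp]

/-- A map into a left dual is zero if its evaluation is zero. -/
theorem eq_zero_of_ldual {X Z : C} (f : Z ⟶ ᘁX) (h : (X ◁ f) ≫ ε_ (ᘁX) X = 0) : f = 0 := by
  have h3 : (tensorLeftHomEquiv Z (ᘁX) X (𝟙_ C)).symm (f ≫ (ρ_ (ᘁX)).inv) =
      (tensorLeftHomEquiv Z (ᘁX) X (𝟙_ C)).symm 0 := by
    simp only [tensorLeftHomEquiv, Equiv.coe_fn_symm_mk]
    simp only [MonoidalPreadditive.whiskerLeft_zero, zero_comp, whiskerLeft_comp,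
      Category.assoc]
    have e : X ◁ (ρ_ (ᘁX)).inv ≫ (α_ X (ᘁX) (𝟙_ C)).inv = (ρ_ (X ⊗ ᘁX)).inv := by simp
    rw [reassoc_of% e, ← rightUnitor_inv_naturality_assoc, reassoc_of% h, zero_comp]
  have h4 := (tensorLeftHomEquiv Z (ᘁX) X (𝟙_ C)).symm.injective h3
  rw [← cancel_mono (ρ_ (ᘁX)).inv, h4, zero_comp]

end Aux

section Braided

variable {k : Type*} [Field k] {C : Type u} [Category.{v} C] [Abelian C] [Linear k C]
  [MonoidalCategory C] [MonoidalPreadditive C] [MonoidalLinear k C] [RigidCategory C]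
  [BraidedCategory C]

/-- Row B2, first part. -/
theorem leib_unit {b : C} (L : Leib b) : L.d (𝟙_ C) = 0 := by
  have h1 := L.nat (λ_ (𝟙_ C)).hom
  rw [L.leib] at h1
  have e0 : (α_ b (𝟙_ C) (𝟙_ C)).inv ≫ (ρ_ (b ⊗ 𝟙_ C)).hom = b ◁ (λ_ (𝟙_ C)).hom := by
    rw [unitors_equal]
    simp
  have e1 : ((α_ b (𝟙_ C) (𝟙_ C)).inv ≫ (L.d (𝟙_ C) ▷ 𝟙_ C)) ≫ (λ_ (𝟙_ C)).hom =
      (b ◁ (λ_ (𝟙_ C)).hom) ≫ L.d (𝟙_ C) := by
    rw [← e0]
    rw [unitors_equal, Category.assoc, rightUnitor_naturality, Category.assoc]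
  have e2 : ((α_ b (𝟙_ C) (𝟙_ C)).inv ≫ ((β_ b (𝟙_ C)).hom ▷ 𝟙_ C) ≫
      (α_ (𝟙_ C) b (𝟙_ C)).hom ≫ (𝟙_ C ◁ L.d (𝟙_ C))) ≫ (λ_ (𝟙_ C)).hom =
      (b ◁ (λ_ (𝟙_ C)).hom) ≫ L.d (𝟙_ C) := by
    simp only [Category.assoc]
    rw [leftUnitor_naturality, leftUnitor_tensor_hom]
    simp only [Category.assoc, Iso.hom_inv_id_assoc]
    rw [← comp_whiskerRight_assoc, braiding_leftUnitor]
    simp
    rw [← e0, Category.assoc]
  rw [Preadditive.add_comp, e1, e2] at h1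
  have h2 : (b ◁ (λ_ (𝟙_ C)).hom) ≫ L.d (𝟙_ C) = 0 := by
    have h3 : (b ◁ (λ_ (𝟙_ C)).hom) ≫ L.d (𝟙_ C) + 0 =
      (b ◁ (λ_ (𝟙_ C)).hom) ≫ L.d (𝟙_ C) + (b ◁ (λ_ (𝟙_ C)).hom) ≫ L.d (𝟙_ C) := by
      rw [add_zero]; exact h1
    exact (add_left_cancel h3).symm
  have : IsIso (b ◁ (λ_ (𝟙_ C)).hom) := inferInstance
  rw [← cancel_epi (b ◁ (λ_ (𝟙_ C)).hom), h2, comp_zero]

theorem leib_tensor {b : C} (L : Leib b) {X Y : C} (hX : L.d X = 0) (hY : L.d Y = 0) :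
    L.d (X ⊗ Y) = 0 := by
  rw [L.leib, hX, hY]
  simp

theorem leib_rdual {b : C} (L : Leib b) {X : C} (hX : L.d X = 0) : L.d (Xᘁ) = 0 := by
  have h1 := L.nat (ε_ X (Xᘁ))
  rw [leib_unit, comp_zero, L.leib, hX] at h1
  simp only [MonoidalPreadditive.whiskerLeft_zero, comp_zero, add_zero, Category.assoc] at h1
  refine eq_zero_of_rdual _ ?_
  rw [← cancel_epi (α_ b (Xᘁ) X).inv, comp_zero]
  exact h1.symm

theorem leib_ldual {b : C} (L : Leib b) {X : C} (hX : L.d X = 0) : L.d (ᘁX) = 0 := by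
  have h1 := L.nat (ε_ (ᘁX) X)
  rw [leib_unit, comp_zero, L.leib, hX] at h1
  simp only [MonoidalPreadditive.zero_whiskerRight, comp_zero, zero_add, Category.assoc] at h1
  refine eq_zero_of_ldual _ ?_
  rw [← cancel_epi (α_ X b (ᘁX)).hom, ← cancel_epi ((β_ b X).hom ▷ (ᘁX)),
    ← cancel_epi (α_ b X (ᘁX)).inv, comp_zero, comp_zero, comp_zero]
  exact h1.symm

/-- Row B1. -/
theorem tensorSub_T {b : C} (hb : Invertible b) (L : Leib b) : TensorSub L.T where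
  unit := leib_unit L
  tensor h1 h2 := leib_tensor L h1 h2
  rdual h := leib_rdual L h
  ldual h := leib_ldual L h
  sub := by
    intro X Y f _ h
    have h' : L.d Y = 0 := h
    show L.d X = 0
    rw [← cancel_mono f, ← L.nat, h', comp_zero, zero_comp]
  quot := by
    intro X Y f _ h
    have h' : L.d X = 0 := h
    show L.d Y = 0
    have : Epi (b ◁ f) := inferInstanceAs (Epi ((tensorLeft b).map f))
    rw [← cancel_epi (b ◁ f), L.nat, h', comp_zero, zero_comp]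
  biprod := by
    intro X Y h1 h2
    have h1' : L.d X = 0 := h1
    have h2' : L.d Y = 0 := h2
    show L.d (X ⊞ Y) = 0
    ext
    · rw [← L.nat, h1', comp_zero, zero_comp]
    · rw [← L.nat, h2', comp_zero, zero_comp]

end Braided

end Pool.Agent.MUG
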