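import Pool.Agent.MUG.Sub
import Pool.Agent.MUE64.Base

open CategoryTheory MonoidalCategory Limits Abelian

universe w v u

set_option linter.unusedSectionVars false

namespace Pool.Agent.MUG

section Join

variable {C : Type u} [Category.{v} C] [Abelian C] [MonoidalCategory C] [MonoidalPreadditive C]
  [RigidCategory C]

/-- `X` is projective in the tensor subcategory `P`: it belongs to `P` and lifts along all
epimorphisms of `C` between objects of `P`. -/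
def ProjIn (P : ObjectProperty C) (X : C) : Prop :=
  P X ∧ ∀ {Y Y' : C} (f : Y ⟶ Y'), Epi f → P Y → P Y' → ∀ g : X ⟶ Y', ∃ h : X ⟶ Y, h ≫ f = g

/-- The objects generated by `D` and `D'`: all subquotients of `X ⊗ X'`, `X` in `D`, `X'` in
`D'`. -/
def join (D D' : ObjectProperty C) : ObjectProperty C :=
  fun M => ∃ X X' : C, D X ∧ D' X' ∧ IsSubquotient M (X ⊗ X')

theorem projIn_iff (P : ObjectProperty C) (X : C) : ProjIn P X ↔ MUE64.ProjIn P X := by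
  constructor
  · rintro ⟨h1, h2⟩
    exact ⟨h1, fun hA hB p hp f => h2 p hp hA hB f⟩
  · rintro ⟨h1, h2⟩
    exact ⟨h1, fun f hf hY hY' g => h2 hY hY' f hf g⟩

theorem tsub (P : ObjectProperty C) [hP : TensorSub P] : MUE64.TSub P where
  unit := hP.unit
  tensor := hP.tensor
  sub i _ h := hP.sub i h
  quo p _ h := hP.quot p h
  rdual := hP.rdual
  ldual := hP.ldual
  biprod := hP.biprod

/-! ### Subquotients -/

theorem IsSubquotient.refl (X : C) : IsSubquotient X X :=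
  ⟨X, 𝟙 X, 𝟙 X, inferInstance, inferInstance⟩

theorem IsSubquotient.of_mono {X Y : C} (i : X ⟶ Y) [Mono i] : IsSubquotient X Y :=
  ⟨X, i, 𝟙 X, inferInstance, inferInstance⟩

theorem IsSubquotient.of_epi {X Y : C} (p : Y ⟶ X) [Epi p] : IsSubquotient X Y :=
  ⟨Y, 𝟙 Y, p, inferInstance, inferInstance⟩

theorem IsSubquotient.trans {X Y W : C} (h : IsSubquotient X Y) (h' : IsSubquotient Y W) :
    IsSubquotient X W := by
  obtain ⟨K, i, p, hi, hp⟩ := h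
  obtain ⟨L, j, q, hj, hq⟩ := h'
  -- pull back `q : L ⟶ Y` along `i : K ⟶ Y`
  refine ⟨pullback q i, pullback.fst q i ≫ j, pullback.snd q i ≫ p, ?_, ?_⟩
  · exact mono_comp _ _
  · exact epi_comp _ _

theorem IsSubquotient.map_exact {D : Type*} [Category D] [Abelian D] (F : C ⥤ D)
    [F.PreservesMonomorphisms] [F.PreservesEpimorphisms] {X Y : C} (h : IsSubquotient X Y) :
    IsSubquotient (F.obj X) (F.obj Y) := by
  obtain ⟨K, i, p, hi, hp⟩ := h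
  exact ⟨F.obj K, F.map i, F.map p, inferInstance, inferInstance⟩

theorem IsSubquotient.tensor {X Y X' Y' : C} (h : IsSubquotient X Y)
    (h' : IsSubquotient X' Y') : IsSubquotient (X ⊗ X') (Y ⊗ Y') := by
  obtain ⟨K, i, p, hi, hp⟩ := h
  obtain ⟨L, j, q, hj, hq⟩ := h'
  refine ⟨K ⊗ L, i ⊗ₘ j, p ⊗ₘ q, ?_, ?_⟩
  · rw [MonoidalCategory.tensorHom_def]
    exact mono_comp _ _
  · rw [MonoidalCategory.tensorHom_def]
    exact epi_comp _ _

/-- The dual of an epimorphism is a monomorphism. -/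
theorem mono_rightAdjointMate {X Y : C} (f : X ⟶ Y) [Epi f] : Mono (fᘁ) := by
  refine ⟨fun {T} g h e => ?_⟩
  have key : ∀ g : T ⟶ Yᘁ, (g ≫ fᘁ) ▷ X ≫ ε_ X (Xᘁ) = (T ◁ f) ≫ (g ▷ Y) ≫ ε_ Y (Yᘁ) := by
    intro g
    have h1 : (fᘁ) ▷ X ≫ ε_ X (Xᘁ) = (Yᘁ) ◁ f ≫ ε_ Y (Yᘁ) := by
      exact rightAdjointMate_comp_evaluation f
    rw [comp_whiskerRight, Category.assoc, h1, whisker_exchange_assoc]
  have h2 : (T ◁ f) ≫ (g ▷ Y) ≫ ε_ Y (Yᘁ) = (T ◁ f) ≫ (h ▷ Y) ≫ ε_ Y (Yᘁ) := by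
    rw [← key, ← key, e]
  rw [cancel_epi] at h2
  -- now use the adjunction
  have h3 : ∀ g : T ⟶ Yᘁ, (tensorRightHomEquiv T Y (Yᘁ) (𝟙_ C)) ((g ▷ Y) ≫ ε_ Y (Yᘁ)) =
      g ≫ (λ_ (Yᘁ)).inv := by
    intro g
    rw [← Equiv.eq_symm_apply]
    simp only [tensorRightHomEquiv, Equiv.coe_fn_symm_mk, comp_whiskerRight, Category.assoc]
    have h5 : (λ_ (Yᘁ)).inv ▷ Y ≫ (α_ (𝟙_ C) (Yᘁ) Y).hom = (λ_ (Yᘁ ⊗ Y)).inv := by
      monoidal
    rw [reassoc_of% h5]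
    have h6 : (λ_ (Yᘁ ⊗ Y)).inv ≫ 𝟙_ C ◁ ε_ Y (Yᘁ) = ε_ Y (Yᘁ) ≫ (λ_ (𝟙_ C)).inv := by
      rw [leftUnitor_inv_naturality]
    rw [reassoc_of% h6, ← unitors_equal, Iso.inv_hom_id, Category.comp_id]
  have h4 : g ≫ (λ_ (Yᘁ)).inv = h ≫ (λ_ (Yᘁ)).inv := by rw [← h3, ← h3, h2]
  exact (cancel_mono _).1 h4

/-- The dual of a monomorphism is an epimorphism. -/
theorem epi_rightAdjointMate {X Y : C} (f : X ⟶ Y) [Mono f] : Epi (fᘁ) := by
  refine ⟨fun {T} g h e => ?_⟩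
  have key : ∀ g : Xᘁ ⟶ T, η_ Y (Yᘁ) ≫ (Y ◁ (fᘁ ≫ g)) = η_ X (Xᘁ) ≫ (X ◁ g) ≫ (f ▷ T) := by
    intro g
    have h1 : η_ Y (Yᘁ) ≫ (Y ◁ fᘁ) = η_ X (Xᘁ) ≫ (f ▷ Xᘁ) := by
      exact coevaluation_comp_rightAdjointMate f
    rw [whiskerLeft_comp, reassoc_of% h1, whisker_exchange]
  have h2 : (η_ X (Xᘁ) ≫ (X ◁ g)) ≫ (f ▷ T) = (η_ X (Xᘁ) ≫ (X ◁ h)) ≫ (f ▷ T) := by
    rw [Category.assoc, Category.assoc, ← key, ← key, e]
  rw [cancel_mono] at h2
  have h3 := congrArg (tensorLeftHomEquiv (𝟙_ C) X (Xᘁ) T).symm h2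
  rw [tensorLeftHomEquiv_symm_coevaluation_comp_whiskerLeft,
    tensorLeftHomEquiv_symm_coevaluation_comp_whiskerLeft] at h3
  exact (cancel_epi _).1 h3

theorem IsSubquotient.rdual {X Y : C} (h : IsSubquotient X Y) : IsSubquotient (Xᘁ) (Yᘁ) := by
  obtain ⟨K, i, p, hi, hp⟩ := h
  have h1 : IsSubquotient (Xᘁ) (Kᘁ) := by
    have := mono_rightAdjointMate p
    exact IsSubquotient.of_mono (pᘁ)
  have h2 : IsSubquotient (Kᘁ) (Yᘁ) := by
    have := epi_rightAdjointMate i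
    exact IsSubquotient.of_epi (iᘁ)
  exact h1.trans h2

theorem TensorSub.iso {P : ObjectProperty C} [hP : TensorSub P] {X Y : C} (e : X ≅ Y)
    (h : P X) : P Y := hP.quot e.hom h

section Braided

variable [BraidedCategory C]

/-- In a braided category left and right duals agree. -/
noncomputable def dualIso (X : C) : (ᘁX : C) ≅ Xᘁ :=
  leftDualIso (HasLeftDual.exact : ExactPairing (ᘁX) X)
    (BraidedCategory.exactPairing_swap X (Xᘁ))

/-- The exchange isomorphism. -/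
def muIso (X Y X' Y' : C) : (X ⊗ Y) ⊗ (X' ⊗ Y') ≅ (X ⊗ X') ⊗ (Y ⊗ Y') where
  hom := tensorμ X Y X' Y'
  inv := tensorδ X Y X' Y'

theorem IsSubquotient.of_iso {X Y : C} (e : X ≅ Y) : IsSubquotient X Y :=
  IsSubquotient.of_mono e.hom

/-- The join of two tensor subcategories is a tensor subcategory. -/
theorem tensorSub_join (D D' : ObjectProperty C) [hD : TensorSub D] [hD' : TensorSub D'] :
    TensorSub (join D D') where
  unit := ⟨𝟙_ C, 𝟙_ C, hD.unit, hD'.unit, IsSubquotient.of_iso (λ_ (𝟙_ C)).symm⟩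
  tensor := by
    rintro X Y ⟨A, A', hA, hA', h⟩ ⟨B, B', hB, hB', h'⟩
    exact ⟨A ⊗ B, A' ⊗ B', hD.tensor hA hB, hD'.tensor hA' hB',
      (h.tensor h').trans (IsSubquotient.of_iso (muIso A A' B B'))⟩
  rdual := by
    rintro X ⟨A, A', hA, hA', h⟩
    refine ⟨Aᘁ, A'ᘁ, hD.rdual hA, hD'.rdual hA', h.rdual.trans ?_⟩
    exact IsSubquotient.of_iso (rightDualTensorIso A A' ≪≫ β_ (A'ᘁ) (Aᘁ))
  ldual := by
    rintro X ⟨A, A', hA, hA', h⟩
    refine ⟨Aᘁ, A'ᘁ, hD.rdual hA, hD'.rdual hA', ?_⟩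
    exact (IsSubquotient.of_iso (dualIso X)).trans
      (h.rdual.trans (IsSubquotient.of_iso (rightDualTensorIso A A' ≪≫ β_ (A'ᘁ) (Aᘁ))))
  sub := by
    rintro X Y f hf ⟨A, A', hA, hA', h⟩
    exact ⟨A, A', hA, hA', (IsSubquotient.of_mono f).trans h⟩
  quot := by
    rintro X Y f hf ⟨A, A', hA, hA', h⟩
    exact ⟨A, A', hA, hA', (IsSubquotient.of_epi f).trans h⟩
  biprod := by
    rintro X Y ⟨A, A', hA, hA', h⟩ ⟨B, B', hB, hB', h'⟩
    refine ⟨A ⊞ B, A' ⊞ B', hD.biprod hA hB, hD'.biprod hA' hB', ?_⟩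
    -- the direct sum of subquotients
    obtain ⟨K, i, p, hi, hp⟩ := h
    obtain ⟨L, j, q, hj, hq⟩ := h'
    have h1 : IsSubquotient (X ⊞ Y) ((A ⊗ A') ⊞ (B ⊗ B')) :=
      ⟨K ⊞ L, biprod.map i j, biprod.map p q, inferInstance, inferInstance⟩
    let u : (A ⊗ A') ⊞ (B ⊗ B') ⟶ (A ⊞ B) ⊗ (A' ⊞ B') :=
      biprod.desc (biprod.inl ⊗ₘ biprod.inl) (biprod.inr ⊗ₘ biprod.inr)
    let v : (A ⊞ B) ⊗ (A' ⊞ B') ⟶ (A ⊗ A') ⊞ (B ⊗ B') :=
      biprod.lift (biprod.fst ⊗ₘ biprod.fst) (biprod.snd ⊗ₘ biprod.snd)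
    have huv : u ≫ v = 𝟙 _ := by
      ext <;> simp [u, v]
    have hu : Mono u := by
      have : Mono (u ≫ v) := by rw [huv]; infer_instance
      exact mono_of_mono u v
    exact h1.trans (IsSubquotient.of_mono u)

theorem le_join_left (D D' : ObjectProperty C) [hD' : TensorSub D'] : D ≤ join D D' :=
  fun X hX => ⟨X, 𝟙_ C, hX, hD'.unit, IsSubquotient.of_iso (ρ_ X).symm⟩

theorem le_join_right (D D' : ObjectProperty C) [hD : TensorSub D] : D' ≤ join D D' :=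
  fun X hX => ⟨𝟙_ C, X, hD.unit, hX, IsSubquotient.of_iso (λ_ X).symm⟩

end Braided

end Join

end Pool.Agent.MUG
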