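import Pool.Agent.MUG.Mult
import Pool.Agent.MUG.Join
import Pool.Agent.MUG.B1

/-!
# Decomposition of projective and injective objects

`Fam.proj_dec`: an additive (on biproducts) function on a projective object `X` is
`∑ i, dim Hom(X, T i) * ψ (P i)`. `Fam.inj_dec`: the dual statement with injective hulls.
`IsHull`, `finrank_hull`: `dim Hom(X, I i) = m i X`. `hull_of_cov`: the dual of a projective cover
is an injective hull.
-/

set_option autoImplicit false
set_option linter.unusedSectionVars false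

open CategoryTheory MonoidalCategory Limits Abelian

universe w w' v v' u u'

namespace Pool.Agent.MUG

/-- `e : T ⟶ I` is an injective hull of `T`. -/
structure IsHull {C : Type u} [Category.{v} C] (T I : C) (e : T ⟶ I) : Prop where
  inj : Injective I
  mono : Mono e
  iso : ∀ g : I ⟶ I, e ≫ g = e → IsIso g

section Abel

variable {k : Type*} [Field k] {C : Type u} [Category.{v} C] [Abelian C] [Linear k C]

/-- A projective object with a nonzero map to `T i` has the cover `P i` as a direct summand. -/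
theorem Fam.splitting_proj (F : Fam C) {X : C} [Projective X] (i : Fin F.n) (f : X ⟶ F.T i)
    (hf : f ≠ 0) : ∃ (a : X ⟶ F.P i), Epi a ∧
      Nonempty (X ≅ kernel a ⊞ F.P i) ∧ Projective (kernel a) := by
  have := F.simple i
  have := (F.cov i).proj
  have := (F.cov i).epi
  have : Epi f := epi_of_nonzero_to_simple hf
  let a : X ⟶ F.P i := Projective.factorThru f (F.e i)
  let b : F.P i ⟶ X := Projective.factorThru (F.e i) f
  have ha : a ≫ F.e i = f := Projective.factorThru_comp _ _
  have hb : b ≫ f = F.e i := Projective.factorThru_comp _ _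
  have h1 : IsIso (b ≫ a) := (F.cov i).iso _ (by rw [Category.assoc, ha, hb])
  have h2 : Epi a := epi_of_epi b a
  let s : F.P i ⟶ X := inv (b ≫ a) ≫ b
  have hs : s ≫ a = 𝟙 _ := by
    show (inv (b ≫ a) ≫ b) ≫ a = 𝟙 _
    rw [Category.assoc, IsIso.inv_hom_id]
  let S := ShortComplex.mk (kernel.ι a) a (kernel.condition a)
  have hS : S.Exact := ShortComplex.exact_kernel a
  let sp : S.Splitting := ShortComplex.Splitting.ofExactOfSection S hS s hs
    (inferInstanceAs (Mono (kernel.ι a)))
  refine ⟨a, h2, ⟨sp.isoBinaryBiproduct⟩, ?_⟩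
  refine ⟨fun {E Y} u v hv => ?_⟩
  have hr : kernel.ι a ≫ sp.r = 𝟙 (kernel a) := sp.f_r
  refine ⟨kernel.ι a ≫ Projective.factorThru (sp.r ≫ u) v, ?_⟩
  rw [Category.assoc, Projective.factorThru_comp, ← Category.assoc]
  erw [hr]
  rw [Category.id_comp]

/-- dimension of Hom out of a biproduct -/
theorem finrank_biprod_left (hfin : ∀ X Y : C, Module.Finite k (X ⟶ Y)) (X Y Z : C) :
    Module.finrank k (X ⊞ Y ⟶ Z) = Module.finrank k (X ⟶ Z) + Module.finrank k (Y ⟶ Z) := by
  have := hfin X Z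
  have := hfin Y Z
  let φ : (X ⊞ Y ⟶ Z) ≃ₗ[k] (X ⟶ Z) × (Y ⟶ Z) :=
    { toFun := fun f => (biprod.inl ≫ f, biprod.inr ≫ f)
      map_add' := fun f g => by simp
      map_smul' := fun c f => by simp
      invFun := fun p => biprod.desc p.1 p.2
      left_inv := fun f => by
        apply biprod.hom_ext' <;> simp
      right_inv := fun p => by simp }
  rw [φ.finrank_eq, Module.finrank_prod]

/-- dimension of Hom into a biproduct -/
theorem finrank_biprod_right (hfin : ∀ X Y : C, Module.Finite k (X ⟶ Y)) (X Y Z : C) :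
    Module.finrank k (Z ⟶ X ⊞ Y) = Module.finrank k (Z ⟶ X) + Module.finrank k (Z ⟶ Y) := by
  have := hfin Z X
  have := hfin Z Y
  let φ : (Z ⟶ X ⊞ Y) ≃ₗ[k] (Z ⟶ X) × (Z ⟶ Y) :=
    { toFun := fun f => (f ≫ biprod.fst, f ≫ biprod.snd)
      map_add' := fun f g => by simp
      map_smul' := fun c f => by simp
      invFun := fun p => biprod.lift p.1 p.2
      left_inv := fun f => by
        apply biprod.hom_ext <;> simp
      right_inv := fun p => by simp }
  rw [φ.finrank_eq, Module.finrank_prod]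

theorem ses_biprod (X Y : C) :
    (ShortComplex.mk (biprod.inl : X ⟶ X ⊞ Y) biprod.snd (by simp)).ShortExact :=
  (ShortComplex.Splitting.ofHasBinaryBiproduct X Y).shortExact

/-- A function additive on biproducts vanishes on zero objects. -/
theorem add_zero_obj (ψ : C → ℝ) (hiso : ∀ X Y : C, Nonempty (X ≅ Y) → ψ X = ψ Y)
    (hadd : ∀ X Y : C, ψ (X ⊞ Y) = ψ X + ψ Y) {X : C} (hX : IsZero X) : ψ X = 0 := by
  have h1 := hadd X X
  have h2 : IsZero (X ⊞ X) := by
    rw [IsZero.iff_id_eq_zero]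
    apply biprod.hom_ext
    · exact hX.eq_of_tgt _ _
    · exact hX.eq_of_tgt _ _
  rw [hiso _ _ ⟨h2.iso hX⟩] at h1
  linarith

/-- (A4) additive functions on projective objects -/
theorem Fam.proj_dec (F : Fam C) [IsAlgClosed k] (hC : FinCat k C) (ψ : C → ℝ)
    (hiso : ∀ X Y : C, Nonempty (X ≅ Y) → ψ X = ψ Y)
    (hadd : ∀ X Y : C, ψ (X ⊞ Y) = ψ X + ψ Y) (X : C) (hX : Projective X) :
    ψ X = ∑ i, (Module.finrank k (X ⟶ F.T i) : ℝ) * ψ (F.P i) := by
  classical
  induction hn : F.len k X using Nat.strong_induction_on generalizing X with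
  | _ n ih =>
    by_cases hz : IsZero X
    · rw [add_zero_obj ψ hiso hadd hz]
      refine (Finset.sum_eq_zero fun i _ => ?_).symm
      have : Subsingleton (X ⟶ F.T i) := ⟨fun f g => hz.eq_of_src f g⟩
      rw [Module.finrank_zero_of_subsingleton, Nat.cast_zero, zero_mul]
    · obtain ⟨U, p, hU, hp⟩ := (F.exists_simple_quot hC X).resolve_left hz
      obtain ⟨j, ⟨g⟩⟩ := F.all U hU
      have := F.simple j
      have hf : p ≫ g.hom ≠ 0 := by
        intro h0
        have : (𝟙 (F.T j)) = 0 := by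
          rw [← cancel_epi (p ≫ g.hom), h0, zero_comp, comp_zero]
        exact id_nonzero (F.T j) this
      obtain ⟨a, ha, ⟨t⟩, hK⟩ := F.splitting_proj j (p ≫ g.hom) hf
      have h1 := F.len_add hC (Fam.ses_epi a)
      have h2 : 0 < F.len k (F.P j) := by
        apply F.len_pos hC
        intro h0
        have := (F.cov j).epi
        have h3 : F.e j = 0 := h0.eq_of_src _ _
        have : (𝟙 (F.T j)) = 0 := by
          rw [← cancel_epi (F.e j), h3, zero_comp, comp_zero]
        exact id_nonzero (F.T j) this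
      simp only at h1
      have h3 := ih (F.len k (kernel a)) (by omega) (kernel a) hK rfl
      rw [hiso _ _ ⟨t⟩, hadd, h3]
      have h4 : ∀ i, (Module.finrank k (X ⟶ F.T i) : ℝ) =
          Module.finrank k (kernel a ⟶ F.T i) + (if j = i then 1 else 0) := by
        intro i
        have := F.simple i
        rw [Fam.finrank_congr_left (k := k) (F.T i) t, finrank_biprod_left hC.hom_finite,
          Nat.cast_add]
        congr 1
        have h5 := F.m_simple hC j i
        rw [Fam.m] at h5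
        rw [h5]
        split_ifs <;> simp
      simp only [h4, add_mul, Finset.sum_add_distrib, ite_mul, one_mul, zero_mul,
        Finset.sum_ite_eq, Finset.mem_univ, if_true]


/-- Every object has an injective hull. -/
theorem exists_hull [EnoughInjectives C] (hfin : ∀ X Y : C, Module.Finite k (X ⟶ Y)) (T : C) :
    ∃ (I : C) (e : T ⟶ I), IsHull T I e := by
  classical
  have hex : ∃ n : ℕ, ∃ (I : C) (e : T ⟶ I), Injective I ∧ Mono e ∧
      Module.finrank k (I ⟶ I) = n :=
    ⟨_, Injective.under T, Injective.ι T, inferInstance, inferInstance, rfl⟩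
  obtain ⟨P, e, hP, he, hn⟩ := Nat.find_spec hex
  refine ⟨P, e, hP, he, fun g hg => ?_⟩
  have := hfin P P
  obtain ⟨n₁, h₁⟩ := C1aux.stab_left (k := k) g
  obtain ⟨n₂, h₂⟩ := C1aux.stab_right (k := k) g
  set n := n₁ + n₂ + 1 with hndef
  obtain ⟨h', hh'⟩ := h₁ n (by omega) n
  obtain ⟨h, hh⟩ := h₂ n (by omega) n
  set a := C1aux.pw g n with ha
  have h2 : C1aux.pw g (n + n) = a ≫ a := C1aux.pw_add g n n
  rw [h2] at hh hh'
  have e1 : a ≫ a ≫ h' = a := by rw [← Category.assoc]; exact hh'.symm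
  have e2 : h ≫ a ≫ a = a := hh.symm
  set f := a ≫ h' with hf
  have f1 : f = h ≫ a := by
    calc f = (h ≫ a ≫ a) ≫ h' := by rw [e2]
      _ = h ≫ (a ≫ a ≫ h') := by simp only [Category.assoc]
      _ = h ≫ a := by rw [e1]
  have f2 : f ≫ f = f := by
    calc f ≫ f = (h ≫ a) ≫ (a ≫ h') := by rw [← f1]
      _ = (h ≫ a ≫ a) ≫ h' := by simp only [Category.assoc]
      _ = f := by rw [e2]
  have af : a ≫ f = a := by rw [hf, e1]
  have ae : ∀ m, e ≫ C1aux.pw g m = e := by
    intro m
    induction m with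
    | zero => simp [C1aux.pw]
    | succ m ih => rw [C1aux.pw, ← Category.assoc, hg, ih]
  have fe : e ≫ f = e := by
    have hae : e ≫ a = e := ae n
    calc e ≫ f = (e ≫ a) ≫ f := by rw [hae]
      _ = e ≫ a ≫ f := Category.assoc e a f
      _ = e := by rw [af, hae]
  let Q := Limits.image f
  let i : Q ⟶ P := Limits.image.ι f
  let p : P ⟶ Q := Limits.factorThruImage f
  have hpi : p ≫ i = f := Limits.image.fac f
  have hip : i ≫ p = 𝟙 Q := by
    rw [← cancel_epi p, ← cancel_mono i]
    simp only [Category.assoc, hpi, Category.comp_id]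
    rw [← Category.assoc, hpi, f2]
  have : Injective Q := by
    refine ⟨fun {X E} u v hv => ?_⟩
    refine ⟨Injective.factorThru (u ≫ i) v ≫ p, ?_⟩
    rw [← Category.assoc, Injective.comp_factorThru, Category.assoc, hip, Category.comp_id]
  have : Mono (e ≫ p) := by
    have : (e ≫ p) ≫ i = e := by rw [Category.assoc, hpi, fe]
    have : Mono ((e ≫ p) ≫ i) := by rw [this]; exact he
    exact mono_of_mono (e ≫ p) i
  let Φ : (Q ⟶ Q) →ₗ[k] (P ⟶ P) :=
    (Linear.leftComp k P p).comp (Linear.rightComp k Q i)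
  have hΦ : ∀ u, Φ u = p ≫ u ≫ i := fun u => rfl
  have hinj : Function.Injective Φ := by
    intro u v huv
    rw [hΦ, hΦ, cancel_epi, cancel_mono] at huv
    exact huv
  have := hfin Q Q
  have hle : Module.finrank k (Q ⟶ Q) ≤ Module.finrank k (P ⟶ P) :=
    LinearMap.finrank_le_finrank_of_injective hinj
  have hge : Module.finrank k (P ⟶ P) ≤ Module.finrank k (Q ⟶ Q) := by
    rw [hn]
    exact Nat.find_min' hex ⟨Q, e ≫ p, inferInstance, inferInstance, rfl⟩
  have hsurj : Function.Surjective Φ :=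
    (LinearMap.injective_iff_surjective_of_finrank_eq_finrank (le_antisymm hle hge)).1 hinj
  obtain ⟨u, hu⟩ := hsurj (𝟙 P)
  have f3 : f = 𝟙 P := by
    calc f = f ≫ 𝟙 P := by rw [Category.comp_id]
      _ = f ≫ p ≫ u ≫ i := by rw [← hΦ, hu]
      _ = (p ≫ i) ≫ p ≫ u ≫ i := by rw [hpi]
      _ = p ≫ (i ≫ p) ≫ u ≫ i := by simp only [Category.assoc]
      _ = p ≫ u ≫ i := by rw [hip, Category.id_comp]
      _ = 𝟙 P := by rw [← hΦ, hu]
  have g1 : g ≫ (C1aux.pw g (n₁ + n₂) ≫ h') = 𝟙 P := by
    rw [← Category.assoc]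
    exact f3
  have g2 : (h ≫ C1aux.pw g (n₁ + n₂)) ≫ g = 𝟙 P := by
    rw [Category.assoc, C1aux.pw_comm]
    exact f1.symm.trans f3
  refine ⟨C1aux.pw g (n₁ + n₂) ≫ h', g1, ?_⟩
  have g3 : C1aux.pw g (n₁ + n₂) ≫ h' = h ≫ C1aux.pw g (n₁ + n₂) := by
    calc C1aux.pw g (n₁ + n₂) ≫ h' =
        ((h ≫ C1aux.pw g (n₁ + n₂)) ≫ g) ≫ C1aux.pw g (n₁ + n₂) ≫ h' := by
          rw [g2, Category.id_comp]
      _ = (h ≫ C1aux.pw g (n₁ + n₂)) ≫ (g ≫ C1aux.pw g (n₁ + n₂) ≫ h') := by
          simp only [Category.assoc]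
      _ = h ≫ C1aux.pw g (n₁ + n₂) := by rw [g1, Category.comp_id]
  rw [g3]
  exact g2

/-- A quotient of a hull of a simple object which does not kill it is everything. -/
theorem IsHull.quot {T I : C} {e : T ⟶ I} (h : IsHull T I e) [Simple T] {K : C}
    (q : I ⟶ K) [Epi q] (hq : e ≫ q ≠ 0) : IsIso q := by
  have := h.inj
  have : Mono (e ≫ q) := mono_of_nonzero_from_simple hq
  have h1 : e ≫ q ≫ Injective.factorThru e (e ≫ q) = e := by
    rw [← Category.assoc, Injective.comp_factorThru]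
  have := h.iso _ h1
  have : Mono q := mono_of_mono q (Injective.factorThru e (e ≫ q))
  exact isIso_of_mono_of_epi q

/-- A map `f : I ⟶ X` from a hull of a simple object with `e ≫ f ≠ 0` is mono. -/
theorem IsHull.mono_of {T I : C} {e : T ⟶ I} (h : IsHull T I e) [Simple T] {X : C}
    (f : I ⟶ X) (hf : e ≫ f ≠ 0) : Mono f := by
  have h1 : e ≫ Abelian.factorThruImage f ≠ 0 := by
    intro h0
    apply hf
    rw [← Abelian.image.fac f, ← Category.assoc, h0, zero_comp]
  have := h.quot (Abelian.factorThruImage f) h1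
  rw [← Abelian.image.fac f]
  exact mono_comp _ _

/-- A nonzero map from a simple object `S` to the hull of `T` is `e` up to an isomorphism
`S ≅ T`. -/
theorem IsHull.hom {T I : C} {e : T ⟶ I} (h : IsHull T I e) [Simple T] {S : C}
    [Simple S] (f : S ⟶ I) (hf : f ≠ 0) : ∃ g : S ≅ T, f = g.hom ≫ e := by
  have : Mono f := mono_of_nonzero_from_simple hf
  have h1 : e ≫ cokernel.π f = 0 := by
    by_contra hne
    have := h.quot (cokernel.π f) hne
    apply hf
    rw [← cancel_mono (cokernel.π f), cokernel.condition, zero_comp]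
  have := h.mono
  have h2 : Abelian.monoLift f e h1 ≫ f = e := Abelian.monoLift_comp f e h1
  have h3 : Abelian.monoLift f e h1 ≠ 0 := by
    intro h0
    rw [h0, zero_comp] at h2
    have : (𝟙 T) = 0 := by
      rw [← cancel_mono e, ← h2]
      simp
    exact id_nonzero T this
  have : IsIso (Abelian.monoLift f e h1) := isIso_of_hom_simple h3
  refine ⟨(asIso (Abelian.monoLift f e h1)).symm, ?_⟩
  rw [Iso.symm_hom, asIso_inv, IsIso.eq_inv_comp, h2]

/-- Two hulls of isomorphic objects are isomorphic. -/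
theorem IsHull.uniq {T T' I I' : C} {e : T ⟶ I} {e' : T' ⟶ I'} (h : IsHull T I e)
    (h' : IsHull T' I' e') (g : T ≅ T') : ∃ i : I ≅ I', e ≫ i.hom = g.hom ≫ e' := by
  have := h.inj
  have := h'.inj
  have := h.mono
  have := h'.mono
  let a : I ⟶ I' := Injective.factorThru (g.hom ≫ e') e
  let b : I' ⟶ I := Injective.factorThru (g.inv ≫ e) e'
  have ha : e ≫ a = g.hom ≫ e' := Injective.comp_factorThru _ _
  have hb : e' ≫ b = g.inv ≫ e := Injective.comp_factorThru _ _
  have h1 : IsIso (a ≫ b) := h.iso _ (by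
    rw [← Category.assoc, ha, Category.assoc, hb, ← Category.assoc, g.hom_inv_id,
      Category.id_comp])
  have h2 : IsIso (b ≫ a) := h'.iso _ (by
    rw [← Category.assoc, hb, Category.assoc, ha, ← Category.assoc, g.inv_hom_id,
      Category.id_comp])
  have : Mono a := mono_of_mono a b
  have : Epi a := epi_of_epi b a
  have : IsIso a := isIso_of_mono_of_epi a
  exact ⟨asIso a, ha⟩

/-- `dim Hom(S, I)` for the hull `I` of a simple object `T` and `S` simple. -/
theorem IsHull.finrank_simple [IsAlgClosed k] (hfin : ∀ X Y : C, Module.Finite k (X ⟶ Y))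
    {T I : C} {e : T ⟶ I} (h : IsHull T I e) [Simple T] {S : C} [Simple S]
    [Decidable (Nonempty (S ≅ T))] :
    Module.finrank k (S ⟶ I) = if Nonempty (S ≅ T) then 1 else 0 := by
  have := h.mono
  have := hfin S S
  have := hfin S T
  have := hfin S I
  have key : Module.finrank k (S ⟶ I) = Module.finrank k (S ⟶ T) := by
    apply le_antisymm
    · have hs : Function.Surjective (Linear.rightComp k S e) := by
        intro f
        by_cases hf : f = 0
        · exact ⟨0, by rw [map_zero, hf]⟩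
        · obtain ⟨g, hg⟩ := h.hom f hf
          exact ⟨g.hom, hg.symm⟩
      exact LinearMap.finrank_le_finrank_of_surjective hs
    · have hi : Function.Injective (Linear.rightComp k S e) := by
        intro u v huv
        have : u ≫ e = v ≫ e := huv
        exact (cancel_mono e).1 this
      exact LinearMap.finrank_le_finrank_of_injective hi
  rw [key]
  split_ifs with hi
  · exact (finrank_hom_simple_simple_eq_one_iff k S T).2 hi
  · have h1 := finrank_hom_simple_simple_eq_one_iff k S T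
    have h2 := finrank_hom_simple_simple_le_one k S T
    have h3 : Module.finrank k (S ⟶ T) ≠ 1 := fun h => hi (h1.1 h)
    omega

/-- `dim Hom(-, I)` is additive on short exact sequences for `I` injective. -/
theorem finrank_hom_injective (hfin : ∀ X Y : C, Module.Finite k (X ⟶ Y)) {I : C} [Injective I]
    {S : ShortComplex C} (hS : S.ShortExact) :
    Module.finrank k (S.X₂ ⟶ I) = Module.finrank k (S.X₁ ⟶ I) + Module.finrank k (S.X₃ ⟶ I) := by
  have := hS.mono_f
  have := hS.epi_g
  have := hfin S.X₂ I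
  have := hfin S.X₁ I
  have := hfin S.X₃ I
  have hsurj : Function.Surjective (Linear.leftComp k I S.f) := fun u =>
    ⟨Injective.factorThru u S.f, Injective.comp_factorThru u S.f⟩
  have hinj : Function.Injective (Linear.leftComp k I S.g) := by
    intro u v huv
    have : S.g ≫ u = S.g ≫ v := huv
    exact (cancel_epi S.g).1 this
  have h1 := LinearMap.finrank_range_add_finrank_ker (Linear.leftComp k I S.f)
  rw [LinearMap.range_eq_top.2 hsurj, finrank_top] at h1
  have hker : LinearMap.ker (Linear.leftComp k I S.f) =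
      LinearMap.range (Linear.leftComp k I S.g) := by
    ext u
    constructor
    · intro hu
      have hu' : S.f ≫ u = 0 := hu
      exact ⟨hS.exact.desc u hu', hS.exact.g_desc u hu'⟩
    · rintro ⟨w, rfl⟩
      show S.f ≫ S.g ≫ w = 0
      rw [← Category.assoc, S.zero, zero_comp]
  rw [hker, LinearMap.finrank_range_of_inj hinj] at h1
  omega

/-- `dim Hom(X, I) = m i X` for a hull `I` of `T i`. -/
theorem Fam.finrank_hull (F : Fam C) [IsAlgClosed k] (hC : FinCat k C) (i : Fin F.n) {I : C}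
    {j : F.T i ⟶ I} (h : IsHull (F.T i) I j) (X : C) :
    Module.finrank k (X ⟶ I) = F.m k i X := by
  classical
  have := h.inj
  have := F.simple i
  have h1 := F.additive_eq hC (fun X => (Module.finrank k (X ⟶ I) : ℝ))
    (fun X Y ⟨f⟩ => by
      rw [Fam.finrank_congr_left (k := k) I f])
    (fun S hS => by
      rw [finrank_hom_injective hC.hom_finite hS, Nat.cast_add]) X
  rw [Finset.sum_eq_single i] at h1
  · rw [h.finrank_simple (S := F.T i) hC.hom_finite, if_pos ⟨Iso.refl (F.T i)⟩, Nat.cast_one,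
      mul_one] at h1
    exact_mod_cast h1
  · intro l _ hl
    have := F.simple l
    rw [h.finrank_simple (S := F.T l) hC.hom_finite, if_neg (fun h' => hl (F.inj l i h')),
      Nat.cast_zero, mul_zero]
  · intro h'
    exact absurd (Finset.mem_univ i) h'

/-- An injective object with a nonzero map from `T` simple has the hull of `T` as a direct
summand. -/
theorem splitting_inj {X : C} [Injective X] {T I : C} {j : T ⟶ I} (h : IsHull T I j) [Simple T]
    (f : T ⟶ X) (hf : f ≠ 0) : ∃ (a : I ⟶ X), Mono a ∧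
      Nonempty (X ≅ I ⊞ cokernel a) ∧ Injective (cokernel a) := by
  have := h.inj
  have := h.mono
  have : Mono f := mono_of_nonzero_from_simple hf
  let a : I ⟶ X := Injective.factorThru f j
  let b : X ⟶ I := Injective.factorThru j f
  have ha : j ≫ a = f := Injective.comp_factorThru _ _
  have hb : f ≫ b = j := Injective.comp_factorThru _ _
  have h1 : IsIso (a ≫ b) := h.iso _ (by rw [← Category.assoc, ha, hb])
  have h2 : Mono a := mono_of_mono a b
  let s : X ⟶ I := b ≫ inv (a ≫ b)
  have hs : a ≫ s = 𝟙 _ := by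
    show a ≫ b ≫ inv (a ≫ b) = 𝟙 _
    rw [← Category.assoc, IsIso.hom_inv_id]
  let S := ShortComplex.mk a (cokernel.π a) (cokernel.condition a)
  have hS : S.Exact := ShortComplex.exact_cokernel a
  let sp : S.Splitting := ShortComplex.Splitting.ofExactOfRetraction S hS s hs
    (inferInstanceAs (Epi (cokernel.π a)))
  refine ⟨a, h2, ⟨sp.isoBinaryBiproduct⟩, ?_⟩
  refine ⟨fun {Y E} u v hv => ?_⟩
  have hr : sp.s ≫ cokernel.π a = 𝟙 (cokernel a) := sp.s_g
  refine ⟨Injective.factorThru (u ≫ sp.s) v ≫ cokernel.π a, ?_⟩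
  rw [← Category.assoc, Injective.comp_factorThru, Category.assoc]
  erw [hr]
  rw [Category.comp_id]

/-- (A4), injective version: additive functions on injective objects. -/
theorem Fam.inj_dec (F : Fam C) [IsAlgClosed k] (hC : FinCat k C) (I : Fin F.n → C)
    (j : ∀ i, F.T i ⟶ I i) (hI : ∀ i, IsHull (F.T i) (I i) (j i)) (ψ : C → ℝ)
    (hiso : ∀ X Y : C, Nonempty (X ≅ Y) → ψ X = ψ Y)
    (hadd : ∀ X Y : C, ψ (X ⊞ Y) = ψ X + ψ Y) (X : C) (hX : Injective X) :
    ψ X = ∑ i, (Module.finrank k (F.T i ⟶ X) : ℝ) * ψ (I i) := by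
  classical
  induction hn : F.len k X using Nat.strong_induction_on generalizing X with
  | _ n ih =>
    by_cases hz : IsZero X
    · rw [add_zero_obj ψ hiso hadd hz]
      refine (Finset.sum_eq_zero fun i _ => ?_).symm
      have : Subsingleton (F.T i ⟶ X) := ⟨fun f g => hz.eq_of_tgt f g⟩
      rw [Module.finrank_zero_of_subsingleton, Nat.cast_zero, zero_mul]
    · have := hC.artinian X
      obtain ⟨l, ⟨g⟩⟩ := F.all (simpleSubobject hz) inferInstance
      have := F.simple l
      have hf : g.inv ≫ simpleSubobjectArrow hz ≠ 0 := by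
        intro h0
        have : (𝟙 (F.T l)) = 0 := by
          rw [← cancel_mono (g.inv ≫ simpleSubobjectArrow hz), h0, comp_zero, comp_zero]
        exact id_nonzero (F.T l) this
      obtain ⟨a, ha, ⟨t⟩, hK⟩ := splitting_inj (hI l) (g.inv ≫ simpleSubobjectArrow hz) hf
      have h1 := F.len_add hC (Fam.ses_mono a)
      have h2 : 0 < F.len k (I l) := by
        apply F.len_pos hC
        intro h0
        have := (hI l).mono
        have h3 : j l = 0 := h0.eq_of_tgt _ _
        have : (𝟙 (F.T l)) = 0 := by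
          rw [← cancel_mono (j l), h3, comp_zero, comp_zero]
        exact id_nonzero (F.T l) this
      simp only at h1
      have h3 := ih (F.len k (cokernel a)) (by omega) (cokernel a) hK rfl
      rw [hiso _ _ ⟨t⟩, hadd, h3]
      have h4 : ∀ i, (Module.finrank k (F.T i ⟶ X) : ℝ) =
          (if i = l then 1 else 0) + Module.finrank k (F.T i ⟶ cokernel a) := by
        intro i
        have := F.simple i
        rw [Fam.finrank_congr_right (k := k) (F.T i) t, finrank_biprod_right hC.hom_finite,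
          Nat.cast_add]
        congr 1
        rw [F.finrank_hull hC l (hI l), F.m_simple hC l i]
        by_cases hil : l = i
        · rw [if_pos hil, if_pos hil.symm, Nat.cast_one]
        · rw [if_neg hil, if_neg (fun h' => hil h'.symm), Nat.cast_zero]
      simp only [h4, add_mul, Finset.sum_add_distrib, ite_mul, one_mul, zero_mul,
        Finset.sum_ite_eq', Finset.mem_univ, if_true]

end Abel

section Rigid

variable {C : Type u} [Category.{v} C] [Abelian C] [MonoidalCategory C] [MonoidalPreadditive C]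
  [RigidCategory C]

/-- A map into `X` is zero if its evaluation against `Xᘁ` is zero. -/
theorem eq_zero_of_ev {X Z : C} (f : Z ⟶ X) (h : ((Xᘁ) ◁ f) ≫ ε_ X (Xᘁ) = 0) : f = 0 := by
  have h3 : (tensorLeftHomEquiv Z X (Xᘁ) (𝟙_ C)).symm (f ≫ (ρ_ X).inv) =
      (tensorLeftHomEquiv Z X (Xᘁ) (𝟙_ C)).symm 0 := by
    simp only [tensorLeftHomEquiv, Equiv.coe_fn_symm_mk]
    simp only [MonoidalPreadditive.whiskerLeft_zero, zero_comp, whiskerLeft_comp,
      Category.assoc]
    have e : (Xᘁ) ◁ (ρ_ X).inv ≫ (α_ (Xᘁ) X (𝟙_ C)).inv = (ρ_ (Xᘁ ⊗ X)).inv := by simp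
    rw [reassoc_of% e, ← rightUnitor_inv_naturality_assoc, reassoc_of% h, zero_comp]
  have h4 := (tensorLeftHomEquiv Z X (Xᘁ) (𝟙_ C)).symm.injective h3
  rw [← cancel_mono (ρ_ X).inv, h4, zero_comp]

/-- The left dual of a projective object is injective. -/
theorem injective_ldual {P : C} [Projective P] : Injective (ᘁP : C) := by
  refine ⟨fun {X Y} g f hf => ?_⟩
  -- `Hom(X, ᘁP) = Hom(P ⊗ X, 1) = Hom(P, Xᘁ)`
  have := epi_rightAdjointMate f
  let u : P ⊗ X ⟶ 𝟙_ C := (tensorLeftHomEquiv X (ᘁP) P (𝟙_ C)).symm (g ≫ (ρ_ _).inv)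
  let w : P ⟶ Xᘁ := tensorRightHomEquiv P X (Xᘁ) (𝟙_ C) u ≫ (λ_ _).hom
  have hw : (w ▷ X) ≫ ε_ X (Xᘁ) = u := by
    have h1 : (tensorRightHomEquiv P X (Xᘁ) (𝟙_ C)).symm
        (tensorRightHomEquiv P X (Xᘁ) (𝟙_ C) u) = u := Equiv.symm_apply_apply _ _
    have h2 : (w ▷ X) ≫ ε_ X (Xᘁ) = (tensorRightHomEquiv P X (Xᘁ) (𝟙_ C)).symm
        (tensorRightHomEquiv P X (Xᘁ) (𝟙_ C) u) := by
      show ((tensorRightHomEquiv P X (Xᘁ) (𝟙_ C) u ≫ (λ_ _).hom) ▷ X) ≫ ε_ X (Xᘁ) = _
      generalize tensorRightHomEquiv P X (Xᘁ) (𝟙_ C) u = z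
      simp only [tensorRightHomEquiv, Equiv.coe_fn_symm_mk]
      rw [comp_whiskerRight, Category.assoc]
      congr 1
      simp [unitors_inv_equal]
    rw [h2, h1]
  obtain ⟨w', hw'⟩ := Projective.factors w (fᘁ)
  have hu : (P ◁ f) ≫ (w' ▷ Y) ≫ ε_ Y (Yᘁ) = u := by
    rw [← hw, ← hw', comp_whiskerRight, Category.assoc, rightAdjointMate_comp_evaluation,
      ← Category.assoc, ← Category.assoc, whisker_exchange]
  refine ⟨tensorLeftHomEquiv Y (ᘁP) P (𝟙_ C) ((w' ▷ Y) ≫ ε_ Y (Yᘁ)) ≫ (ρ_ _).hom, ?_⟩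
  rw [← Category.assoc]
  have h3 : f ≫ tensorLeftHomEquiv Y (ᘁP) P (𝟙_ C) ((w' ▷ Y) ≫ ε_ Y (Yᘁ)) =
      tensorLeftHomEquiv X (ᘁP) P (𝟙_ C) ((P ◁ f) ≫ (w' ▷ Y) ≫ ε_ Y (Yᘁ)) := by
    apply (tensorLeftHomEquiv X (ᘁP) P (𝟙_ C)).symm.injective
    rw [tensorLeftHomEquiv_symm_naturality, Equiv.symm_apply_apply, Equiv.symm_apply_apply]
  rw [h3, hu]
  simp [u]

/-- A rigid abelian category with enough projectives has enough injectives. -/
theorem enoughInjectives_of_rigid [EnoughProjectives C] : EnoughInjectives C := by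
  refine ⟨fun X => ?_⟩
  let P := Projective.over (Xᘁ)
  let p : P ⟶ Xᘁ := Projective.π _
  -- `X = ᘁ(Xᘁ) ⟶ ᘁP`
  let z : P ⊗ X ⟶ 𝟙_ C := (p ▷ X) ≫ ε_ X (Xᘁ)
  let i : X ⟶ ᘁP := tensorLeftHomEquiv X (ᘁP) P (𝟙_ C) z ≫ (ρ_ _).hom
  have hi : Mono i := by
    rw [Preadditive.mono_iff_cancel_zero]
    intro W w hw
    have h1 : w ≫ tensorLeftHomEquiv X (ᘁP) P (𝟙_ C) z = 0 := by
      rw [← cancel_mono (ρ_ (ᘁP : C)).hom, Category.assoc, zero_comp]
      exact hw
    have h2 : (P ◁ w) ≫ z = 0 := by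
      apply (tensorLeftHomEquiv W (ᘁP) P (𝟙_ C)).injective
      have h3 : w ≫ tensorLeftHomEquiv X (ᘁP) P (𝟙_ C) z =
          tensorLeftHomEquiv W (ᘁP) P (𝟙_ C) ((P ◁ w) ≫ z) := by
        apply (tensorLeftHomEquiv W (ᘁP) P (𝟙_ C)).symm.injective
        rw [tensorLeftHomEquiv_symm_naturality, Equiv.symm_apply_apply,
          Equiv.symm_apply_apply]
      rw [← h3, h1]
      simp [tensorLeftHomEquiv]
    have h4 : ((p ≫ (wᘁ)) ▷ W) ≫ ε_ W (Wᘁ) = 0 := by
      rw [comp_whiskerRight, Category.assoc, rightAdjointMate_comp_evaluation,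
        ← Category.assoc, ← whisker_exchange, Category.assoc]
      exact h2
    have h5 : p ≫ (wᘁ) = 0 := eq_zero_of_rdual _ h4
    have h6 : (wᘁ) = 0 := by rw [← cancel_epi p, h5, comp_zero]
    have h7 : ((Xᘁ) ◁ w) ≫ ε_ X (Xᘁ) = 0 := by
      rw [← rightAdjointMate_comp_evaluation, h6, MonoidalPreadditive.zero_whiskerRight,
        zero_comp]
    exact eq_zero_of_ev w h7
  exact ⟨⟨_, injective_ldual, i, hi⟩⟩

end Rigid

end Pool.Agent.MUG
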