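import Pool.Agent.MUG.CenRig

/-! Row CF1: finiteness of the Drinfeld center, the part which follows from the forgetful
functor (helper27). -/

open CategoryTheory MonoidalCategory Limits Abelian

universe w w' v v' u u'

namespace Pool.Agent.MUG

set_option linter.unusedSectionVars false
set_option backward.isDefEq.respectTransparency.types false

variable {k : Type*} [Field k] {C : Type u} [Category.{v} C] [Abelian C] [Linear k C]
  [MonoidalCategory C] [MonoidalPreadditive C] [MonoidalLinear k C] [RigidCategory C]

theorem cen_hom_finite (hC : IsFinite k C) (X Y : Center C) : Module.Finite k (X ⟶ Y) := by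
  haveI : Module.Finite k (X.1 ⟶ Y.1) := hC.hom_finite X.1 Y.1
  let φ : (X ⟶ Y) →ₗ[k] (X.1 ⟶ Y.1) :=
    { toFun := fun f => f.f
      map_add' := fun _ _ => rfl
      map_smul' := fun _ _ => rfl }
  have hφ : Function.Injective φ := fun f g h => Center.ext _ _ h
  exact Module.Finite.of_injective φ hφ

/-- The map of subobject lattices. -/
noncomputable def cenSubMap (X : Center C) (Y : Subobject X) : Subobject X.1 :=
  haveI := cen_mono_f Y.arrow
  Subobject.mk Y.arrow.f

theorem cenSub_le (X : Center C) (Y Y' : Subobject X) :
    cenSubMap X Y ≤ cenSubMap X Y' ↔ Y ≤ Y' := by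
  haveI := cen_mono_f Y.arrow
  haveI := cen_mono_f Y'.arrow
  constructor
  · intro h
    have h1 : Subobject.mk Y.arrow.f ≤ Subobject.mk Y'.arrow.f := h
    have h2 : Subobject.ofMkLEMk _ _ h1 ≫ Y'.arrow.f = Y.arrow.f := Subobject.ofMkLEMk_comp h1
    let g : (Y : Center C) ⟶ (Y' : Center C) :=
      ⟨Subobject.ofMkLEMk _ _ h1,
        cenMono_comm (X := X) (W := (Y : Center C)) Y'.arrow.f
          (fun U => ((Y' : Center C).2.β U).hom) (fun U => (Y'.arrow.comm U).symm)
          Y.arrow.f Y.arrow.comm _ h2⟩
    exact Subobject.le_of_comm g (Center.ext _ _ h2)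
  · intro h
    change Subobject.mk Y.arrow.f ≤ Subobject.mk Y'.arrow.f
    refine Subobject.mk_le_mk_of_comm (Subobject.ofLE Y Y' h).f ?_
    exact congrArg Center.Hom.f (Subobject.ofLE_arrow h)

theorem cenSub_strictMono (X : Center C) : StrictMono (cenSubMap X) := by
  intro Y Y' h
  rw [lt_iff_le_not_ge] at h ⊢
  rw [cenSub_le, cenSub_le]
  exact h

theorem cen_artinian (hC : IsFinite k C) (X : Center C) : IsArtinianObject X := by
  haveI : IsArtinianObject X.1 := hC.artinian X.1
  have h : WellFoundedLT (Subobject X) := (cenSub_strictMono X).wellFoundedLT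
  rw [isArtinianObject_iff_not_strictAnti]
  exact fun f => not_strictAnti_of_wellFoundedLT f

theorem cen_noetherian (hC : IsFinite k C) (X : Center C) : IsNoetherianObject X := by
  haveI : IsNoetherianObject X.1 := hC.noetherian X.1
  have h : WellFoundedGT (Subobject X) := (cenSub_strictMono X).wellFoundedGT
  rw [isNoetherianObject_iff_not_strictMono]
  exact fun f => not_strictMono_of_wellFoundedGT f

theorem cen_isIso_iff {X Y : Center C} (f : X ⟶ Y) : IsIso f ↔ IsIso f.f := by
  constructor
  · intro _
    exact inferInstanceAs (IsIso ((Center.forget C).map f))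
  · intro _
    infer_instance

/-- An object of the center whose underlying object is simple is simple. -/
theorem cen_simple_of {X : Center C} (hX : Simple X.1) : Simple X := by
  refine ⟨fun {Y} f hf => ?_⟩
  haveI := cen_mono_f f
  have h1 := hX.mono_isIso_iff_nonzero f.f
  rw [cen_isIso_iff, h1, not_iff_not]
  constructor
  · intro h
    exact Center.ext _ _ h
  · intro h
    rw [h]
    rfl

theorem cen_simple_unit (hC : IsFinite k C) : Simple (𝟙_ (Center C)) :=
  cen_simple_of hC.unit

/-- Row CF1: the center is finite as soon as it has enough projectives and finitely many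
simple objects. -/
theorem cen_isFinite_of (hC : IsFinite k C) (h1 : EnoughProjectives (Center C))
    (h2 : ∃ (n : ℕ) (S : Fin n → Center C), ∀ T : Center C, Simple T → ∃ i, Nonempty (T ≅ S i)) :
    IsFinite k (Center C) where
  hom_finite := cen_hom_finite hC
  artinian := cen_artinian hC
  noetherian := cen_noetherian hC
  enough := h1
  simples := h2
  unit := cen_simple_unit hC

end Pool.Agent.MUG
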