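import Pool.Agent.MUG.Leib

open CategoryTheory MonoidalCategory Limits Abelian

universe w w' v v' u u'

namespace Pool.Agent.MUG

/-- The cokernel of a maximal proper subobject is simple. -/
theorem simple_cokernel_of_maximal {C : Type u} [Category.{v} C] [Abelian C] {Y : C}
    (M : Subobject Y) (hM : M ≠ ⊤) (hmax : ∀ K : Subobject Y, K ≠ ⊤ → ¬ M < K) :
    Simple (cokernel M.arrow) := by
  refine simple_of_cosimple _ ?_
  intro Z f hf
  constructor
  · intro hi h0
    apply hM
    have hπ : cokernel.π M.arrow = 0 := by
      have h1 : cokernel.π M.arrow ≫ f = 0 := by rw [h0, comp_zero]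
      rw [← cancel_mono f, h1, zero_comp]
    have : Epi M.arrow := Preadditive.epi_of_cokernel_zero hπ
    have : IsIso M.arrow := isIso_of_mono_of_epi _
    exact (Subobject.isIso_arrow_iff_eq_top M).1 inferInstance
  · intro hne
    have hker : kernelSubobject (cokernel.π M.arrow ≫ f) = M := by
      by_contra hcon
      have hle : M ≤ kernelSubobject (cokernel.π M.arrow ≫ f) :=
        le_kernelSubobject _ _ (by rw [cokernel.condition_assoc, zero_comp])
      have htop : kernelSubobject (cokernel.π M.arrow ≫ f) ≠ ⊤ := by
        intro ht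
        apply hne
        have h1 : (kernelSubobject (cokernel.π M.arrow ≫ f)).arrow ≫
            (cokernel.π M.arrow ≫ f) = 0 := kernelSubobject_arrow_comp _
        have : IsIso (kernelSubobject (cokernel.π M.arrow ≫ f)).arrow :=
          (Subobject.isIso_arrow_iff_eq_top _).2 ht
        have h2 : cokernel.π M.arrow ≫ f = 0 := by
          rw [← cancel_epi (kernelSubobject (cokernel.π M.arrow ≫ f)).arrow, h1, comp_zero]
        rw [← cancel_epi (cokernel.π M.arrow), h2, comp_zero]
      exact hmax _ htop (lt_of_le_of_ne hle (Ne.symm hcon))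
    have : Mono f := by
      apply Preadditive.mono_of_cancel_zero
      intro A g hg
      obtain ⟨A', p, hp, x, hx⟩ :=
        surjective_up_to_refinements_of_epi (cokernel.π M.arrow) g
      have h1 : x ≫ (cokernel.π M.arrow ≫ f) = 0 := by
        rw [← Category.assoc, ← hx, Category.assoc, hg, comp_zero]
      have h2 : (kernelSubobject (cokernel.π M.arrow ≫ f)).Factors x :=
        (kernelSubobject_factors_iff _ _).2 h1
      rw [hker] at h2
      have h3 : x ≫ cokernel.π M.arrow = 0 := by
        rw [← Subobject.factorThru_arrow M x h2, Category.assoc, cokernel.condition, comp_zero]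
      rw [← cancel_epi p, hx, h3, comp_zero]
    exact isIso_of_mono_of_epi f

/-- Row C0 (finite length induction). -/
theorem fl_induction {C : Type u} [Category.{v} C] [Abelian C]
    (hA : ∀ X : C, IsArtinianObject X) (hN : ∀ X : C, IsNoetherianObject X)
    (Q : C → Prop) (h0 : ∀ X, IsZero X → Q X)
    (hext : ∀ S : ShortComplex C, S.ShortExact → Q S.X₁ → Simple S.X₃ → Q S.X₂) (X : C) :
    Q X := by
  classical
  have := hA X
  have key : ∀ K : Subobject X, ∀ Y : C, Nonempty (Y ≅ (K : C)) → Q Y := by
    intro K
    induction K using WellFoundedLT.induction with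
    | ind K ih =>
      rintro Y ⟨e⟩
      by_cases hz : IsZero Y
      · exact h0 Y hz
      have := hN Y
      have hbot : (⊥ : Subobject Y) ≠ ⊤ := by
        intro h
        apply hz
        have : IsIso (⊥ : Subobject Y).arrow := (Subobject.isIso_arrow_iff_eq_top _).2 h
        have h1 : (⊥ : Subobject Y).arrow = 0 := Subobject.bot_arrow
        rw [IsZero.iff_id_eq_zero, ← cancel_epi (⊥ : Subobject Y).arrow, h1, zero_comp,
          zero_comp]
      obtain ⟨M, hM, hmax⟩ := (wellFounded_gt (α := Subobject Y)).has_min
        {K' | K' ≠ ⊤} ⟨⊥, hbot⟩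
      have hS : (ShortComplex.mk M.arrow (cokernel.π M.arrow)
          (cokernel.condition _)).ShortExact :=
        { exact := ShortComplex.exact_cokernel M.arrow
          mono_f := inferInstanceAs (Mono M.arrow)
          epi_g := inferInstanceAs (Epi (cokernel.π M.arrow)) }
      refine hext _ hS ?_ (simple_cokernel_of_maximal M hM hmax)
      have hmono : Mono (e.hom ≫ K.arrow) := inferInstance
      have hK : (Subobject.map (e.hom ≫ K.arrow)).obj ⊤ = K := by
        rw [Subobject.map_top]
        exact (Subobject.eq_mk_of_comm _ e.symm (by simp)).symm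
      refine ih ((Subobject.map (e.hom ≫ K.arrow)).obj M) ?_ _ ?_
      · refine lt_of_le_of_ne ?_ ?_
        · conv_rhs => rw [← hK]
          exact (Subobject.map (e.hom ≫ K.arrow)).monotone le_top
        · intro h
          apply hM
          exact Subobject.map_obj_injective (e.hom ≫ K.arrow) (h.trans hK.symm)
      · have h1 : (Subobject.map (e.hom ≫ K.arrow)).obj M =
            Subobject.mk (M.arrow ≫ (e.hom ≫ K.arrow)) := by
          conv_lhs => rw [← Subobject.mk_arrow M]
          rw [Subobject.map_mk]
        rw [h1]
        exact ⟨(Subobject.underlyingIso _).symm⟩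
  exact key ⊤ X ⟨(asIso (⊤ : Subobject X).arrow).symm⟩

end Pool.Agent.MUG
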