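import Pool.Agent.MUG.CenAbel

/-! The Drinfeld center of an abelian rigid monoidal category is abelian (helper27). -/

open CategoryTheory MonoidalCategory Limits Abelian

universe w w' v v' u u'

namespace Pool.Agent.MUG

set_option linter.unusedSectionVars false
set_option backward.isDefEq.respectTransparency.types false

noncomputable section

section Ab

variable {C : Type u} [Category.{v} C] [Abelian C] [MonoidalCategory C] [MonoidalPreadditive C]
  [RigidCategory C]

instance cenForgetPFL : PreservesFiniteLimits (Center.forget C) :=
  (Center.forget C).preservesFiniteLimits_of_preservesKernels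

instance cenForgetPFC : PreservesFiniteColimits (Center.forget C) :=
  (Center.forget C).preservesFiniteColimits_of_preservesCokernels

/-- The underlying morphism of a monomorphism. -/
theorem cen_mono_f {X Y : Center C} (f : X ⟶ Y) [Mono f] : Mono f.f :=
  inferInstanceAs (Mono ((Center.forget C).map f))

theorem cen_epi_f {X Y : Center C} (f : X ⟶ Y) [Epi f] : Epi f.f :=
  inferInstanceAs (Epi ((Center.forget C).map f))

theorem cen_mono_of {X Y : Center C} (f : X ⟶ Y) (h : Mono f.f) : Mono f :=
  (Center.forget C).mono_of_mono_map h

theorem cen_epi_of {X Y : Center C} (f : X ⟶ Y) (h : Epi f.f) : Epi f :=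
  (Center.forget C).epi_of_epi_map h

theorem cen_isZero_iff (X : Center C) : IsZero X ↔ IsZero X.1 := by
  constructor
  · intro h
    exact (Center.forget C).map_isZero h
  · intro h
    rw [IsZero.iff_id_eq_zero]
    exact Center.ext _ _ (h.eq_of_src _ _)

end Ab

end

end Pool.Agent.MUG
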