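import Pool.Agent.MUG.GenN
import Pool.Agent.MUG.CF1
import Pool.Agent.MUG.CF2

/-! Row CF without a braiding: the centre of a finite tensor category is a finite tensor
category (helper21, after helper45's braided version). -/

open CategoryTheory MonoidalCategory Limits

universe v u

namespace Pool.Agent.MUG

set_option backward.isDefEq.respectTransparency.types false

namespace GenN

attribute [local instance] Abelian.hasFiniteBiproducts

section CF2

variable {C : Type u} [Category.{v} C] [Abelian C] [MonoidalCategory C] [MonoidalPreadditive C]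
  [RigidCategory C] {k : Type*} [Field k] [Linear k C]

/-- Row CF2, part 1: the universal object generated by `Y`. -/
theorem exists_max (hC : FinCat k C) {Q : C}
    (hQ : ∀ {V W : C} (g : V ⟶ W), (∀ f : Q ⟶ V, f ≫ g = 0) → g = 0) (Y : C) :
    ∃ (P : Center C) (y : Y ⟶ P.1), Epi (bN Q P y) ∧
      ∀ (M : Center C) (x : Y ⟶ M.1), ∃ t : P ⟶ M, y ≫ t.f = x := by
  classical
  obtain ⟨F⟩ := exists_fam hC
  let S : Set ℕ := {n | ∃ (G : Center C) (y : Y ⟶ G.1), Epi (bN Q G y) ∧ F.len k G.1 = n}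
  have hbdd : ∀ n ∈ S, n ≤ F.len k (Qᘁ ⊗ (Y ⊗ Q)) := by
    rintro n ⟨G, y, hG, rfl⟩
    exact F.len_epi hC (bN Q G y)
  have hne : S.Nonempty := by
    obtain ⟨G, i, y', -, -, hG⟩ := exists_gen hQ (𝟙_ (Center C)) (0 : Y ⟶ (𝟙_ (Center C)).1)
    exact ⟨_, G, y', hG, rfl⟩
  have hB : BddAbove S := ⟨_, fun n hn => hbdd n hn⟩
  obtain ⟨P, y, hP, hlen⟩ : sSup S ∈ S := Nat.sSup_mem hne hB
  refine ⟨P, y, hP, fun M x => ?_⟩
  let z : Y ⟶ (P ⊞ M).1 := y ≫ (biprod.inl : P ⟶ P ⊞ M).f + x ≫ (biprod.inr : M ⟶ P ⊞ M).f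
  obtain ⟨G, i, y', hi, hy', hG⟩ := exists_gen hQ (P ⊞ M) z
  have e1 : (biprod.inl : P ⟶ P ⊞ M).f ≫ (biprod.fst : P ⊞ M ⟶ P).f = 𝟙 _ :=
    congrArg (fun g => g.f) (biprod.inl_fst (X := P) (Y := M))
  have e2 : (biprod.inr : M ⟶ P ⊞ M).f ≫ (biprod.fst : P ⊞ M ⟶ P).f = 0 :=
    congrArg (fun g => g.f) (biprod.inr_fst (X := P) (Y := M))
  have e3 : (biprod.inl : P ⟶ P ⊞ M).f ≫ (biprod.snd : P ⊞ M ⟶ M).f = 0 :=
    congrArg (fun g => g.f) (biprod.inl_snd (X := P) (Y := M))
  have e4 : (biprod.inr : M ⟶ P ⊞ M).f ≫ (biprod.snd : P ⊞ M ⟶ M).f = 𝟙 _ :=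
    congrArg (fun g => g.f) (biprod.inr_snd (X := P) (Y := M))
  have z1 : z ≫ (biprod.fst : P ⊞ M ⟶ P).f = y := by
    simp only [z, Preadditive.add_comp, Category.assoc]
    rw [e1, e2, comp_zero, add_zero, Category.comp_id]
  have z2 : z ≫ (biprod.snd : P ⊞ M ⟶ M).f = x := by
    simp only [z, Preadditive.add_comp, Category.assoc]
    rw [e3, e4, comp_zero, zero_add, Category.comp_id]
  let f : G ⟶ P := i ≫ biprod.fst
  have hf : y' ≫ f.f = y := by
    calc y' ≫ f.f = (y' ≫ i.f) ≫ (biprod.fst : P ⊞ M ⟶ P).f := (Category.assoc _ _ _).symm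
      _ = y := by rw [hy', z1]
  have hfe : Epi f.f := by
    have h1 := bN_comp (Q := Q) y' f
    rw [hf] at h1
    have : Epi (bN Q G y' ≫ f.f) := by rw [h1]; exact hP
    exact epi_of_epi (bN Q G y') f.f
  have hlen2 : F.len k G.1 ≤ F.len k P.1 := by
    rw [hlen]
    exact le_csSup hB ⟨G, y', hG, rfl⟩
  have hfm : Mono f.f := by
    have h1 := F.len_add hC (Fam.ses_epi f.f)
    simp only at h1
    have h3 : F.len k (kernel f.f) = 0 := by omega
    exact Preadditive.mono_of_isZero_kernel _ ((F.len_eq_zero_iff hC _).1 h3)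
  have hfi : IsIso f.f := isIso_of_mono_of_epi _
  have hfi' : IsIso f := inferInstance
  refine ⟨inv f ≫ i ≫ biprod.snd, ?_⟩
  have h5 : y ≫ (inv f).f = y' := by
    rw [← hf, Category.assoc]
    have h6 : f.f ≫ (inv f).f = 𝟙 _ := congrArg (fun g => g.f) (IsIso.hom_inv_id f)
    rw [h6, Category.comp_id]
  calc y ≫ (inv f ≫ i ≫ biprod.snd).f = ((y ≫ (inv f).f) ≫ i.f) ≫
        (biprod.snd : P ⊞ M ⟶ M).f := by
          rw [Category.assoc, Category.assoc]; rfl
    _ = x := by rw [h5, hy', z2]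

/-- Row CF2, part 2. -/
theorem projective_of_max {Q : C} {Y : C} [Projective Y] {P : Center C} {y : Y ⟶ P.1}
    (hP : Epi (bN Q P y)) (hu : ∀ (M : Center C) (x : Y ⟶ M.1), ∃ t : P ⟶ M, y ≫ t.f = x) :
    Projective P where
  factors {E X} f e he := by
    have : Epi e.f := cen_epi_f e
    obtain ⟨t, ht⟩ := hu E (Projective.factorThru (y ≫ f.f) e.f)
    refine ⟨t, ?_⟩
    have h1 : (t ≫ e - f).f = 0 := by
      apply gen_ext hP
      have h2 : (t ≫ e - f).f = t.f ≫ e.f - f.f := by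
        change (t ≫ e).f + -(f.f) = _
        rw [← sub_eq_add_neg]
        rfl
      rw [h2, Preadditive.comp_sub, ← Category.assoc, ht, Projective.factorThru_comp, sub_self]
    have h3 : t ≫ e - f = 0 := Center.ext _ _ h1
    exact sub_eq_zero.1 h3

/-- Row CF2: enough projectives. -/
theorem center_enough (hC : FinCat k C) : EnoughProjectives (Center C) where
  presentation M := by
    have := hC.enough
    obtain ⟨Q, -, hQ⟩ := Gen.exists_separator hC
    obtain ⟨P, y, hP, hu⟩ := exists_max hC hQ (Projective.over M.1)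
    obtain ⟨t, ht⟩ := hu M (Projective.π M.1)
    have : Epi t.f := by
      have : Epi (y ≫ t.f) := by rw [ht]; infer_instance
      exact epi_of_epi y t.f
    exact ⟨{ p := P, projective := projective_of_max hP hu, f := t, epi := cen_epi_of t this }⟩

/-- Row CF2: finitely many simple objects. -/
theorem center_simples (hC : FinCat k C) (hA : ∀ X : Center C, IsArtinianObject X)
    (hN : ∀ X : Center C, IsNoetherianObject X) :
    ∃ (n : ℕ) (S : Fin n → Center C), ∀ T : Center C, Simple T → ∃ i, Nonempty (T ≅ S i) := by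
  classical
  have key : ∀ X : Center C, ∃ (n : ℕ) (S : Fin n → Center C), ∀ T : Center C, Simple T →
      (∃ f : X ⟶ T, f ≠ 0) → ∃ i, Nonempty (T ≅ S i) := by
    refine fl_induction hA hN _ ?_ ?_
    · intro X hX
      refine ⟨0, Fin.elim0, fun T _ ⟨f, hf⟩ => absurd (hX.eq_of_src f 0) hf⟩
    · rintro S hS ⟨n, L, hL⟩ hs
      refine ⟨n + 1, Fin.snoc L S.X₃, fun T hT ⟨f, hf⟩ => ?_⟩
      by_cases h0 : S.f ≫ f = 0
      · obtain ⟨g, hg'⟩ : ∃ g : S.X₃ ⟶ T, S.g ≫ g = f :=
          ⟨_, (CokernelCofork.IsColimit.desc' hS.gIsCokernel f h0).2⟩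
        have hg0 : g ≠ 0 := by
          rintro rfl
          rw [comp_zero] at hg'
          exact hf hg'.symm
        have := isIso_of_hom_simple hg0
        refine ⟨Fin.last n, ⟨?_⟩⟩
        rw [Fin.snoc_last]
        exact (asIso g).symm
      · obtain ⟨i, ⟨e⟩⟩ := hL T hT ⟨S.f ≫ f, h0⟩
        refine ⟨Fin.castSucc i, ⟨?_⟩⟩
        rw [Fin.snoc_castSucc]
        exact e
  have := hC.enough
  obtain ⟨Q, hQp, hQ⟩ := Gen.exists_separator hC
  obtain ⟨P, y, hP, hu⟩ := exists_max hC hQ Q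
  obtain ⟨n, S, hS⟩ := key P
  refine ⟨n, S, fun T hT => hS T hT ?_⟩
  have hT0 : 𝟙 T.1 ≠ 0 := by
    intro h
    have : 𝟙 T = 0 := Center.ext _ _ h
    exact id_nonzero T this
  obtain ⟨x, hx⟩ : ∃ x : Q ⟶ T.1, x ≠ 0 := by
    by_contra hcon
    push Not at hcon
    exact hT0 (hQ _ fun f => by rw [hcon f, zero_comp])
  obtain ⟨t, ht⟩ := hu T x
  refine ⟨t, ?_⟩
  rintro rfl
  apply hx
  rw [← ht, cen_zero_f, comp_zero]

end CF2

end GenN

section

variable {C : Type u} [Category.{v} C] [Abelian C] [MonoidalCategory C] [MonoidalPreadditive C]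
  [RigidCategory C] {k : Type*} [Field k] [Linear k C] [MonoidalLinear k C]

/-- Row CF: the centre of a finite tensor category is a finite tensor category. -/
theorem center_isFinite_gen (hC : IsFinite k C) : IsFinite k (Center C) :=
  cen_isFinite_of hC (GenN.center_enough hC.finCat)
    (GenN.center_simples hC.finCat (cen_artinian hC) (cen_noetherian hC))

end

end Pool.Agent.MUG
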