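import Pool.Agent.MUG.Leib

open CategoryTheory MonoidalCategory Limits Abelian

universe w v u

namespace Pool.Agent.MUG

namespace B0

section Mon

variable {C : Type u} [Category.{v} C] [MonoidalCategory C] [BraidedCategory C]

/-- Double braiding is natural in the first variable. -/
theorem mono_left {X X' : C} (f : X ⟶ X') (Y : C) :
    ((β_ X Y).hom ≫ (β_ Y X).hom) ≫ (f ▷ Y) = (f ▷ Y) ≫ (β_ X' Y).hom ≫ (β_ Y X').hom := by
  rw [Category.assoc, ← BraidedCategory.braiding_naturality_right,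
    ← BraidedCategory.braiding_naturality_left_assoc]

/-- Double braiding is natural in the second variable. -/
theorem mono_right (X : C) {Y Y' : C} (f : Y ⟶ Y') :
    ((β_ X Y).hom ≫ (β_ Y X).hom) ≫ (X ◁ f) = (X ◁ f) ≫ (β_ X Y').hom ≫ (β_ Y' X).hom := by
  rw [Category.assoc, ← BraidedCategory.braiding_naturality_left,
    ← BraidedCategory.braiding_naturality_right_assoc]

theorem comm_unit (Y : C) : (β_ (𝟙_ C) Y).hom ≫ (β_ Y (𝟙_ C)).hom = 𝟙 _ := by
  simp [braiding_tensorUnit_left, braiding_tensorUnit_right]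

/-- The double braiding of a tensor product. -/
theorem double_tensor (X X' Y : C) : (β_ (X ⊗ X') Y).hom ≫ (β_ Y (X ⊗ X')).hom =
    (α_ X X' Y).hom ≫ (X ◁ (β_ X' Y).hom) ≫ (α_ X Y X').inv ≫
      (((β_ X Y).hom ≫ (β_ Y X).hom) ▷ X') ≫ (α_ X Y X').hom ≫ (X ◁ (β_ Y X').hom) ≫
        (α_ X X' Y).inv := by
  rw [BraidedCategory.braiding_tensor_left_hom, BraidedCategory.braiding_tensor_right_hom]
  simp only [Category.assoc, comp_whiskerRight, Iso.hom_inv_id_assoc]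

theorem comm_tensor {X X' Y : C} (h : (β_ X Y).hom ≫ (β_ Y X).hom = 𝟙 (X ⊗ Y))
    (h' : (β_ X' Y).hom ≫ (β_ Y X').hom = 𝟙 (X' ⊗ Y)) :
    (β_ (X ⊗ X') Y).hom ≫ (β_ Y (X ⊗ X')).hom = 𝟙 _ := by
  rw [double_tensor, h, id_whiskerRight, Category.id_comp, Iso.inv_hom_id_assoc,
    ← whiskerLeft_comp_assoc, h', whiskerLeft_id, Category.id_comp, Iso.hom_inv_id]

/-- If `X` commutes with `Y` then so does its left dual. -/
theorem comm_ldual {D X Y : C} [ExactPairing D X]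
    (h : (β_ X Y).hom ≫ (β_ Y X).hom = 𝟙 (X ⊗ Y)) :
    (β_ D Y).hom ≫ (β_ Y D).hom = 𝟙 (D ⊗ Y) := by
  have h1 : (β_ (X ⊗ D) Y).hom ≫ (β_ Y (X ⊗ D)).hom =
      (α_ X D Y).hom ≫ (X ◁ ((β_ D Y).hom ≫ (β_ Y D).hom)) ≫ (α_ X D Y).inv := by
    rw [double_tensor, h, id_whiskerRight, Category.id_comp, Iso.inv_hom_id_assoc,
      whiskerLeft_comp, Category.assoc]
  have h2 := mono_left (ε_ D X) Y
  rw [comm_unit, Category.comp_id, h1] at h2
  apply (tensorLeftHomEquiv (D ⊗ Y) D X Y).symm.injective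
  have h3 : (X ◁ ((β_ D Y).hom ≫ (β_ Y D).hom)) ≫ (α_ X D Y).inv ≫ (ε_ D X ▷ Y) =
      (α_ X D Y).inv ≫ (ε_ D X ▷ Y) := by
    rw [← cancel_epi (α_ X D Y).hom]
    simpa using h2
  change (X ◁ ((β_ D Y).hom ≫ (β_ Y D).hom)) ≫ (α_ X D Y).inv ≫ (ε_ D X ▷ Y) ≫ (λ_ Y).hom =
    (X ◁ 𝟙 _) ≫ (α_ X D Y).inv ≫ (ε_ D X ▷ Y) ≫ (λ_ Y).hom
  rw [whiskerLeft_id, Category.id_comp, reassoc_of% h3]

/-- If `X` commutes with `Y` then so does its right dual. -/
theorem comm_rdual {D X Y : C} [ExactPairing X D]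
    (h : (β_ X Y).hom ≫ (β_ Y X).hom = 𝟙 (X ⊗ Y)) :
    (β_ D Y).hom ≫ (β_ Y D).hom = 𝟙 (D ⊗ Y) := by
  have h2 := mono_left (ε_ X D) Y
  rw [comm_unit, Category.comp_id, double_tensor] at h2
  have h4 : (β_ Y X).hom = (β_ X Y).inv := by
    rw [← cancel_epi (β_ X Y).hom, h, Iso.hom_inv_id]
  -- the braiding of `ε`
  have h5 : (β_ (D ⊗ X) Y).hom ≫ (Y ◁ ε_ X D) = (ε_ X D ▷ Y) ≫ (β_ (𝟙_ C) Y).hom :=
    (BraidedCategory.braiding_naturality_left _ _).symm
  rw [BraidedCategory.braiding_tensor_left_hom, braiding_tensorUnit_left] at h5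
  have h6 : (ε_ X D ▷ Y) ≫ (λ_ Y).hom = (α_ D X Y).hom ≫ (D ◁ (β_ X Y).hom) ≫ (α_ D Y X).inv ≫
      ((β_ D Y).hom ▷ X) ≫ (α_ Y D X).hom ≫ (Y ◁ ε_ X D) ≫ (ρ_ Y).hom := by
    have := congrArg (· ≫ (ρ_ Y).hom) h5
    simp only [Category.assoc, Iso.inv_hom_id, Category.comp_id] at this
    exact this.symm
  have h7 := congrArg (· ≫ (λ_ Y).hom) h2
  simp only [Category.assoc] at h7
  rw [h6] at h7
  rw [h4] at h7
  simp only [Iso.inv_hom_id_assoc, whiskerLeft_inv_hom_assoc, Iso.cancel_iso_hom_left] at h7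
  have h8 := (cancel_epi _).1 ((cancel_epi _).1 h7)
  have h9 : ((β_ D Y).hom ≫ (β_ Y D).hom) ≫ (β_ D Y).hom = (β_ D Y).hom := by
    apply (tensorRightHomEquiv (D ⊗ Y) X D Y).symm.injective
    change ((((β_ D Y).hom ≫ (β_ Y D).hom) ≫ (β_ D Y).hom) ▷ X) ≫ (α_ Y D X).hom ≫
      (Y ◁ ε_ X D) ≫ (ρ_ Y).hom = ((β_ D Y).hom ▷ X) ≫ (α_ Y D X).hom ≫
      (Y ◁ ε_ X D) ≫ (ρ_ Y).hom
    rw [comp_whiskerRight, Category.assoc]
    rwa [Iso.hom_inv_id_assoc] at h8
  rw [← cancel_mono (β_ D Y).hom, h9, Category.id_comp]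

end Mon

end B0

section Braided

variable {C : Type u} [Category.{v} C] [Abelian C]
  [MonoidalCategory C] [MonoidalPreadditive C] [RigidCategory C]
  [BraidedCategory C]

/-- Row B0. -/
theorem tensorSub_centralizer (B : ObjectProperty C) : TensorSub (centralizer B) where
  unit Y _ := B0.comm_unit Y
  tensor h h' Y hY := B0.comm_tensor (h Y hY) (h' Y hY)
  rdual h Y hY := B0.comm_rdual (h Y hY)
  ldual h Y hY := B0.comm_ldual (h Y hY)
  sub {X X'} f _ h Y hY := by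
    have h1 := B0.mono_left f Y
    rw [h Y hY, Category.comp_id] at h1
    have : Mono (f ▷ Y) := inferInstanceAs (Mono ((tensorRight Y).map f))
    rw [← cancel_mono (f ▷ Y), h1, Category.id_comp]
  quot {X X'} f _ h Y hY := by
    have h1 := B0.mono_left f Y
    rw [h Y hY, Category.id_comp] at h1
    have : Epi (f ▷ Y) := inferInstanceAs (Epi ((tensorRight Y).map f))
    rw [← cancel_epi (f ▷ Y), ← h1, Category.comp_id]
  biprod {X X'} h h' Y hY := by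
    have h1 := B0.mono_left (biprod.fst : X ⊞ X' ⟶ X) Y
    have h2 := B0.mono_left (biprod.snd : X ⊞ X' ⟶ X') Y
    rw [h Y hY, Category.comp_id] at h1
    rw [h' Y hY, Category.comp_id] at h2
    have h3 : 𝟙 ((X ⊞ X') ⊗ Y) = ((biprod.fst : X ⊞ X' ⟶ X) ▷ Y) ≫ (biprod.inl ▷ Y) +
        ((biprod.snd : X ⊞ X' ⟶ X') ▷ Y) ≫ (biprod.inr ▷ Y) := by
      rw [← comp_whiskerRight, ← comp_whiskerRight, ← MonoidalPreadditive.add_whiskerRight,
        biprod.total, id_whiskerRight]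
    calc _ = ((β_ (X ⊞ X') Y).hom ≫ (β_ Y (X ⊞ X')).hom) ≫ 𝟙 _ := by rw [Category.comp_id]
      _ = 𝟙 _ := by
        rw [h3, Preadditive.comp_add, ← Category.assoc, h1, ← Category.assoc, h2]

omit [MonoidalPreadditive C] in
/-- An object commuting with `V` commutes with the subquotients of `V`. -/
theorem centralizer_le (B : ObjectProperty C) (V : C) (hV : B V) (S : C)
    (hS : IsSubquotient S V) : centralizer B ≤ centralizer (fun X => X = S) := by
  rintro X hX _ rfl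
  obtain ⟨K, i, p, hi, hp⟩ := hS
  have h1 := B0.mono_right X i
  rw [hX V hV, Category.comp_id] at h1
  have h2 : (β_ X K).hom ≫ (β_ K X).hom = 𝟙 _ := by
    have : Mono (X ◁ i) := inferInstanceAs (Mono ((tensorLeft X).map i))
    rw [← cancel_mono (X ◁ i), h1, Category.id_comp]
  have h3 := B0.mono_right X p
  rw [h2, Category.id_comp] at h3
  have : Epi (X ◁ p) := inferInstanceAs (Epi ((tensorLeft X).map p))
  rw [← cancel_epi (X ◁ p), ← h3, Category.comp_id]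

omit [MonoidalPreadditive C] [BraidedCategory C] in
theorem tensorSub_inf (P P' : ObjectProperty C) [hP : TensorSub P] [hP' : TensorSub P'] :
    TensorSub (P ⊓ P') where
  unit := ⟨hP.unit, hP'.unit⟩
  tensor h h' := ⟨hP.tensor h.1 h'.1, hP'.tensor h.2 h'.2⟩
  rdual h := ⟨hP.rdual h.1, hP'.rdual h.2⟩
  ldual h := ⟨hP.ldual h.1, hP'.ldual h.2⟩
  sub f _ h := ⟨hP.sub f h.1, hP'.sub f h.2⟩
  quot f _ h := ⟨hP.quot f h.1, hP'.quot f h.2⟩
  biprod h h' := ⟨hP.biprod h.1 h'.1, hP'.biprod h.2 h'.2⟩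

end Braided

end Pool.Agent.MUG
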