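import Pool.Agent.MUG.CenRig
import Pool.Agent.MUG.B0
import Pool.Agent.MUG.Join

/-! Row JK: the two embeddings of a braided category in its center, their images and the
tensor subcategory they generate (helper27). -/

open CategoryTheory MonoidalCategory Limits Abelian

universe w v u

namespace Pool.Agent.MUG

set_option linter.unusedSectionVars false
set_option backward.isDefEq.respectTransparency.types false

noncomputable section Defs

variable {C : Type u} [Category.{v} C] [MonoidalCategory C] [BraidedCategory C]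

/-- `J X = (X, c_{X,U})`. -/
def jObj (X : C) : Center C := Center.ofBraidedObj X

/-- `K X = (X, c_{U,X}⁻¹)`. -/
def kObj (X : C) : Center C :=
  @Center.ofBraidedObj C _ _ (reverseBraiding C) X

/-- The functor `J`. -/
def jFun : C ⥤ Center C := Center.ofBraided C

/-- The functor `K`. -/
def kFun : C ⥤ Center C := @Center.ofBraided C _ _ (reverseBraiding C)

theorem jObj_fst (X : C) : (jObj X).1 = X := rfl

theorem kObj_fst (X : C) : (kObj X).1 = X := rfl

theorem jObj_beta (X U : C) : ((jObj X).2.β U).hom = (β_ X U).hom := rfl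

theorem kObj_beta (X U : C) : ((kObj X).2.β U).hom = (β_ U X).inv := rfl

theorem jObj_beta_inv (X U : C) : ((jObj X).2.β U).inv = (β_ X U).inv := rfl

theorem kObj_beta_inv (X U : C) : ((kObj X).2.β U).inv = (β_ U X).hom := rfl

theorem jFun_obj (X : C) : jFun.obj X = jObj X := rfl

theorem kFun_obj (X : C) : kFun.obj X = kObj X := rfl

/-- `J` on morphisms. -/
def jMap {X Y : C} (f : X ⟶ Y) : jObj X ⟶ jObj Y := jFun.map f

/-- `K` on morphisms. -/
def kMap {X Y : C} (f : X ⟶ Y) : kObj X ⟶ kObj Y := kFun.map f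

@[simp] theorem jMap_f {X Y : C} (f : X ⟶ Y) : (jMap f).f = f := rfl

@[simp] theorem kMap_f {X Y : C} (f : X ⟶ Y) : (kMap f).f = f := rfl

theorem jMap_comp {X Y Z : C} (f : X ⟶ Y) (g : Y ⟶ Z) : jMap (f ≫ g) = jMap f ≫ jMap g := rfl

theorem kMap_comp {X Y Z : C} (f : X ⟶ Y) (g : Y ⟶ Z) : kMap (f ≫ g) = kMap f ≫ kMap g := rfl

theorem jMap_id (X : C) : jMap (𝟙 X) = 𝟙 (jObj X) := rfl

theorem kMap_id (X : C) : kMap (𝟙 X) = 𝟙 (kObj X) := rfl

/-- `J` is monoidal: `J X ⊗ J Y ≅ J (X ⊗ Y)`. -/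
def jTensor (X Y : C) : jObj X ⊗ jObj Y ≅ jObj (X ⊗ Y) :=
  Functor.Monoidal.μIso (Center.ofBraided C) X Y

theorem jTensor_hom_f (X Y : C) : (jTensor X Y).hom.f = 𝟙 (X ⊗ Y) := rfl

theorem jTensor_inv_f (X Y : C) : (jTensor X Y).inv.f = 𝟙 (X ⊗ Y) := rfl

/-- `K` is monoidal: `K X ⊗ K Y ≅ K (X ⊗ Y)`. -/
def kTensor (X Y : C) : kObj X ⊗ kObj Y ≅ kObj (X ⊗ Y) :=
  letI := reverseBraiding C
  Functor.Monoidal.μIso (Center.ofBraided C) X Y

theorem kTensor_hom_f (X Y : C) : (kTensor X Y).hom.f = 𝟙 (X ⊗ Y) := rfl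

theorem kTensor_inv_f (X Y : C) : (kTensor X Y).inv.f = 𝟙 (X ⊗ Y) := rfl


def jUnit : 𝟙_ (Center C) ≅ jObj (𝟙_ C) := Functor.Monoidal.εIso (Center.ofBraided C)

theorem jUnit_hom_f : (jUnit (C := C)).hom.f = 𝟙 (𝟙_ C) := rfl

def kUnit : 𝟙_ (Center C) ≅ kObj (𝟙_ C) :=
  letI := reverseBraiding C
  Functor.Monoidal.εIso (Center.ofBraided C)

theorem kUnit_hom_f : (kUnit (C := C)).hom.f = 𝟙 (𝟙_ C) := rfl

/-- The double braiding of two objects of the center. -/
theorem cen_double_f (N N' : Center C) :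
    ((β_ N N').hom ≫ (β_ N' N).hom).f = (N.2.β N'.1).hom ≫ (N'.2.β N.1).hom := rfl

theorem cen_double_iff (N N' : Center C) :
    (β_ N N').hom ≫ (β_ N' N).hom = 𝟙 (N ⊗ N') ↔
      (N.2.β N'.1).hom ≫ (N'.2.β N.1).hom = 𝟙 (N.1 ⊗ N'.1) :=
  ⟨fun h => congrArg Center.Hom.f h, fun h => Center.ext _ _ h⟩

/-- The image of `K`: all `N` whose half braiding is the inverse braiding. -/
def kProp : ObjectProperty (Center C) := centralizer (fun N => ∃ X : C, N = jObj X)

/-- The image of `J`: all `N` whose half braiding is the braiding. -/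
def jProp : ObjectProperty (Center C) := centralizer (fun N => ∃ X : C, N = kObj X)

theorem kProp_iff (N : Center C) : kProp N ↔ ∀ U, (N.2.β U).hom = (β_ U N.1).inv := by
  constructor
  · intro h U
    have h1 := (cen_double_iff _ _).1 (h (jObj U) ⟨U, rfl⟩)
    have h2 : (N.2.β U).hom ≫ (β_ U N.1).hom = 𝟙 (N.1 ⊗ U) := h1
    exact (Iso.eq_comp_inv (β_ U N.1)).2 h2 |>.trans (Category.id_comp _)
  · rintro h _ ⟨U, rfl⟩
    refine (cen_double_iff _ _).2 ?_
    change (N.2.β U).hom ≫ (β_ U N.1).hom = 𝟙 (N.1 ⊗ U)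
    rw [h, Iso.inv_hom_id]

theorem jProp_iff (N : Center C) : jProp N ↔ ∀ U, (N.2.β U).hom = (β_ N.1 U).hom := by
  constructor
  · intro h U
    have h1 := (cen_double_iff _ _).1 (h (kObj U) ⟨U, rfl⟩)
    have h2 : (N.2.β U).hom ≫ (β_ N.1 U).inv = 𝟙 (N.1 ⊗ U) := h1
    exact (Iso.comp_inv_eq_id _).1 h2
  · rintro h _ ⟨U, rfl⟩
    refine (cen_double_iff _ _).2 ?_
    change (N.2.β U).hom ≫ (β_ N.1 U).inv = 𝟙 (N.1 ⊗ U)
    rw [h, Iso.hom_inv_id]

theorem kProp_kObj (X : C) : kProp (kObj X) := (kProp_iff _).2 fun _ => rfl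

theorem jProp_jObj (X : C) : jProp (jObj X) := (jProp_iff _).2 fun _ => rfl

theorem cen_id_comm {X U : C} {b b' : X ⊗ U ⟶ U ⊗ X} (h : b = b') :
    𝟙 X ▷ U ≫ b = b' ≫ U ◁ 𝟙 X := by
  subst h
  simp

/-- An object with the inverse braiding as half braiding is a `K X`. -/
def kIso {N : Center C} (h : kProp N) : N ≅ kObj N.1 where
  hom := ⟨𝟙 N.1, fun U => cen_id_comm ((kProp_iff N).1 h U).symm⟩
  inv := ⟨𝟙 N.1, fun U => cen_id_comm ((kProp_iff N).1 h U)⟩
  hom_inv_id := Center.ext _ _ (Category.id_comp _)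
  inv_hom_id := Center.ext _ _ (Category.id_comp _)

theorem kIso_hom_f {N : Center C} (h : kProp N) : (kIso h).hom.f = 𝟙 N.1 := rfl

theorem kIso_inv_f {N : Center C} (h : kProp N) : (kIso h).inv.f = 𝟙 N.1 := rfl

/-- An object with the braiding as half braiding is a `J X`. -/
def jIso {N : Center C} (h : jProp N) : N ≅ jObj N.1 where
  hom := ⟨𝟙 N.1, fun U => cen_id_comm ((jProp_iff N).1 h U).symm⟩
  inv := ⟨𝟙 N.1, fun U => cen_id_comm ((jProp_iff N).1 h U)⟩
  hom_inv_id := Center.ext _ _ (Category.id_comp _)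
  inv_hom_id := Center.ext _ _ (Category.id_comp _)

theorem jIso_hom_f {N : Center C} (h : jProp N) : (jIso h).hom.f = 𝟙 N.1 := rfl

theorem jIso_inv_f {N : Center C} (h : jProp N) : (jIso h).inv.f = 𝟙 N.1 := rfl

/-- The half braiding of `K X ⊗ J X'`. -/
theorem kj_beta (X X' U : C) : ((kObj X ⊗ jObj X').2.β U).hom =
    (α_ X X' U).hom ≫ X ◁ (β_ X' U).hom ≫ (α_ X U X').inv ≫ (β_ U X).inv ▷ X' ≫
      (α_ U X X').hom := by
  change ((Center.tensorObj (kObj X) (jObj X')).2.β U).hom = _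
  simp [Center.tensorObj, kObj_beta, jObj_beta]
  rfl

end Defs

section Ab

variable {C : Type u} [Category.{v} C] [Abelian C] [MonoidalCategory C] [MonoidalPreadditive C]
  [RigidCategory C] [BraidedCategory C]

instance tensorSub_kProp : TensorSub (kProp (C := C)) := tensorSub_centralizer _

instance tensorSub_jProp : TensorSub (jProp (C := C)) := tensorSub_centralizer _

/-- The tensor subcategory of the center generated by the images of `K` and `J`. -/
def gProp : ObjectProperty (Center C) := join kProp jProp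

instance tensorSub_gProp : TensorSub (gProp (C := C)) := tensorSub_join _ _

theorem kProp_le_gProp : (kProp (C := C)) ≤ gProp := le_join_left _ _

theorem jProp_le_gProp : (jProp (C := C)) ≤ gProp := le_join_right _ _

theorem gProp_kObj (X : C) : gProp (kObj X) := kProp_le_gProp _ (kProp_kObj X)

theorem gProp_jObj (X : C) : gProp (jObj X) := jProp_le_gProp _ (jProp_jObj X)

theorem gProp_kj (X X' : C) : gProp (kObj X ⊗ jObj X') :=
  TensorSub.tensor (gProp_kObj X) (gProp_jObj X')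

theorem gProp_iff (N : Center C) :
    gProp N ↔ ∃ X X' : C, IsSubquotient N (kObj X ⊗ jObj X') := by
  constructor
  · rintro ⟨A, A', hA, hA', h⟩
    exact ⟨A.1, A'.1, h.trans ((IsSubquotient.of_iso (kIso hA)).tensor
      (IsSubquotient.of_iso (jIso hA')))⟩
  · rintro ⟨X, X', h⟩
    exact ⟨kObj X, jObj X', kProp_kObj X, jProp_jObj X', h⟩

instance jMap_mono {X Y : C} (f : X ⟶ Y) [Mono f] : Mono (jMap f) := cen_mono_of _ ‹Mono f›

instance jMap_epi {X Y : C} (f : X ⟶ Y) [Epi f] : Epi (jMap f) := cen_epi_of _ ‹Epi f›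

instance kMap_mono {X Y : C} (f : X ⟶ Y) [Mono f] : Mono (kMap f) := cen_mono_of _ ‹Mono f›

instance kMap_epi {X Y : C} (f : X ⟶ Y) [Epi f] : Epi (kMap f) := cen_epi_of _ ‹Epi f›

instance kj_mono {X Y X' Y' : C} (f : X ⟶ Y) (g : X' ⟶ Y') [Mono f] [Mono g] :
    Mono (kMap f ⊗ₘ jMap g) := by
  rw [MonoidalCategory.tensorHom_def]
  exact mono_comp _ _

instance kj_epi {X Y X' Y' : C} (f : X ⟶ Y) (g : X' ⟶ Y') [Epi f] [Epi g] :
    Epi (kMap f ⊗ₘ jMap g) := by
  rw [MonoidalCategory.tensorHom_def]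
  exact epi_comp _ _

/-- Morphisms `K X ⟶ J Y` of the center have image in the Müger center: a morphism compatible
with both half braidings. -/
theorem kj_hom_comm {X Y : C} (f : kObj X ⟶ jObj Y) (U : C) :
    f.f ▷ U ≫ (β_ Y U).hom = (β_ U X).inv ≫ U ◁ f.f := f.comm U

end Ab

end Pool.Agent.MUG
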