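import Pool.Agent.MUG.Sub

open CategoryTheory MonoidalCategory Limits Abelian

universe w v u

namespace Pool.Agent.MUG

section Leib

variable {C : Type u} [Category.{v} C] [Abelian C] [MonoidalCategory C] [BraidedCategory C]

/-- `b` commutes with every object. -/
def Transp (b : C) : Prop := ∀ Y : C, (β_ b Y).hom ≫ (β_ Y b).hom = 𝟙 (b ⊗ Y)

/-- A Leibniz family: a natural transformation `d : b ⊗ - ⟶ id` which is a derivation for the
tensor product. -/
structure Leib (b : C) where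
  d : ∀ Y : C, b ⊗ Y ⟶ Y
  nat : ∀ {Y Y' : C} (f : Y ⟶ Y'), (b ◁ f) ≫ d Y' = d Y ≫ f
  leib : ∀ Y Y' : C, d (Y ⊗ Y') = (α_ b Y Y').inv ≫ (d Y ▷ Y') +
    (α_ b Y Y').inv ≫ ((β_ b Y).hom ▷ Y') ≫ (α_ Y b Y').hom ≫ (Y ◁ d Y')

namespace Leib

variable {b : C} (L : Leib b)

/-- The objects on which `d` vanishes. -/
def T : ObjectProperty C := fun Y => L.d Y = 0

/-- `d` as a natural transformation. -/
def natTrans : tensorLeft b ⟶ 𝟭 C where
  app Y := L.d Y
  naturality _ _ f := L.nat f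

/-- `d` is not identically zero. -/
def Nonzero : Prop := ∃ Y, L.d Y ≠ 0

/-- `d` composed with itself vanishes. -/
def SqZero : Prop := ∀ Y, (b ◁ L.d Y) ≫ L.d Y = 0

end Leib

/-- A projective cover of the unit object. -/
structure IsCover (P : C) (e : P ⟶ 𝟙_ C) : Prop where
  proj : Projective P
  epi : Epi e
  iso : ∀ g : P ⟶ P, g ≫ e = e → IsIso g

/-- Two objects commute. -/
def Comm (X Y : C) : Prop := (β_ X Y).hom ≫ (β_ Y X).hom = 𝟙 (X ⊗ Y)

end Leib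

section Der

variable {A : Type u} [Category.{v} A] [Abelian A] [HasExt.{w} A]

/-- The degree -1 derivation on `Ext` attached to a natural transformation `d : F ⟶ id`. -/
structure Der (F : A ⥤ A) [F.Additive] [PreservesFiniteLimits F] [PreservesFiniteColimits F]
    (d : F ⟶ 𝟭 A) where
  D : ∀ {N M : A} (_ : d.app N = 0) (_ : d.app M = 0) (n : ℕ),
    Ext N M (n + 1) →+ Ext (F.obj N) M n
  leib : ∀ {N N' M : A} (hN : d.app N = 0) (hN' : d.app N' = 0) (hM : d.app M = 0) (a c : ℕ)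
    (x : Ext N N' (a + 1)) (y : Ext N' M (c + 1)),
    D hN hM (a + 1 + c) (x.comp y (by omega)) =
      ((-1 : ℤ) ^ (a + 1)) • (x.mapExactFunctor F).comp (D hN' hM c y) rfl +
      (D hN hN' a x).comp y (by omega)
  left₀ : ∀ {N N' M : A} (hN : d.app N = 0) (hN' : d.app N' = 0) (hM : d.app M = 0)
    (f : N ⟶ N') (n : ℕ) (y : Ext N' M (n + 1)),
    D hN hM n ((Ext.mk₀ f).comp y (zero_add _)) =
      (Ext.mk₀ (F.map f)).comp (D hN' hM n y) (zero_add _)
  right₀ : ∀ {N N' M : A} (hN : d.app N = 0) (hN' : d.app N' = 0) (hM : d.app M = 0) (n : ℕ)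
    (x : Ext N N' (n + 1)) (g : N' ⟶ M),
    D hN hM n (x.comp (Ext.mk₀ g) (add_zero _)) = (D hN hN' n x).comp (Ext.mk₀ g) (add_zero _)
  ext₁ : ∀ (S : ShortComplex A) (hS : S.ShortExact) (h₁ : d.app S.X₁ = 0)
    (h₃ : d.app S.X₃ = 0) (φ : F.obj S.X₃ ⟶ S.X₁), F.map S.g ≫ φ ≫ S.f = d.app S.X₂ →
    D h₃ h₁ 0 hS.extClass = Ext.mk₀ φ

/-- `D^n x = 0`. -/
def DZero {F : A ⥤ A} [F.Additive] [PreservesFiniteLimits F] [PreservesFiniteColimits F]
    {d : F ⟶ 𝟭 A} (𝔇 : Der F d) (hF : ∀ N, d.app N = 0 → d.app (F.obj N) = 0) :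
    ∀ (n : ℕ) {N M : A} (_ : d.app N = 0) (_ : d.app M = 0), Ext N M n → Prop
  | 0, _, _, _, _, x => x = 0
  | n + 1, _, _, hN, hM, x => DZero 𝔇 hF n (hF _ hN) hM (𝔇.D hN hM n x)

end Der

end Pool.Agent.MUG
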