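import Pool.Agent.MUG.Mult
import Pool.Agent.MUG.Leib

open CategoryTheory MonoidalCategory Limits

universe v u

namespace Pool.Agent.MUG

namespace Gen

section Unit

variable {C : Type u} [Category.{v} C] [MonoidalCategory C]

/-- The half-braiding with the unit object. -/
theorem beta_unit (N : Center C) : (N.2.β (𝟙_ C)).hom = (ρ_ N.1).hom ≫ (λ_ N.1).inv := by
  have h1 := N.2.monoidal (𝟙_ C) (𝟙_ C)
  have h2 := N.2.naturality (λ_ (𝟙_ C)).hom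
  let e : N.1 ≅ N.1 := (ρ_ N.1).symm ≪≫ N.2.β (𝟙_ C) ≪≫ λ_ N.1
  have he : (N.2.β (𝟙_ C)).hom = (ρ_ N.1).hom ≫ e.hom ≫ (λ_ N.1).inv := by
    simp [e]
  have h3 : e.hom ≫ e.hom = e.hom := by
    rw [h1, he] at h2
    have h5 : (α_ N.1 (𝟙_ C) (𝟙_ C)).inv ≫ (ρ_ (N.1 ⊗ 𝟙_ C)).hom =
        N.1 ◁ (λ_ (𝟙_ C)).hom := by monoidal
    simp at h2
    rw [reassoc_of% h5] at h2
    have h6 := (cancel_epi (N.1 ◁ (λ_ (𝟙_ C)).hom ≫ (ρ_ N.1).hom)).1 (by
      simpa only [Category.assoc] using h2)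
    have h7 : e.hom = e.hom ≫ e.hom := by
      rw [← cancel_mono (λ_ N.1).inv]
      simpa only [Category.assoc] using h6
    exact h7.symm
  have h4 : e.hom = 𝟙 _ := by
    rw [← cancel_epi e.hom, h3, Category.comp_id]
  rw [he, h4, Category.id_comp]

end Unit

section

variable {C : Type u} [Category.{v} C] [Abelian C] [MonoidalCategory C] [MonoidalPreadditive C]
  [RigidCategory C]

/-- Faithfulness of the right tensor adjunction. -/
theorem rk_zero {Q : C} (hQ : ∀ {V W : C} (g : V ⟶ W), (∀ f : Q ⟶ V, f ≫ g = 0) → g = 0)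
    {V Y W : C} (F : V ⊗ Y ⟶ W) (h : ∀ f : Q ⟶ V, (f ▷ Y) ≫ F = 0) : F = 0 := by
  have e := (tensorRightHomEquiv V Y (Yᘁ) W)
  have h0 : ∀ {V : C}, (tensorRightHomEquiv V Y (Yᘁ) W).symm 0 = 0 := by
    intro V
    change ((0 : V ⟶ W ⊗ Yᘁ) ▷ Y) ≫ _ = 0
    rw [MonoidalPreadditive.zero_whiskerRight, zero_comp]
  have h1 : tensorRightHomEquiv V Y (Yᘁ) W F = 0 := by
    refine hQ _ fun f => ?_
    apply (tensorRightHomEquiv Q Y (Yᘁ) W).symm.injective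
    rw [tensorRightHomEquiv_symm_naturality, Equiv.symm_apply_apply, h f, h0]
  apply (tensorRightHomEquiv V Y (Yᘁ) W).injective
  rw [h1]
  apply (tensorRightHomEquiv V Y (Yᘁ) W).symm.injective
  rw [h0, Equiv.symm_apply_apply]

theorem right_zero_iff {X U Z : C} (g : X ⊗ U ⟶ Z) :
    tensorRightHomEquiv X U (Uᘁ) Z g = 0 ↔ g = 0 := by
  have h0 : (tensorRightHomEquiv X U (Uᘁ) Z).symm 0 = 0 := by
    change ((0 : X ⟶ Z ⊗ Uᘁ) ▷ U) ≫ _ = 0
    rw [MonoidalPreadditive.zero_whiskerRight, zero_comp]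
  constructor
  · intro h
    rw [← (tensorRightHomEquiv X U (Uᘁ) Z).symm_apply_apply g, h, h0]
  · intro h
    apply (tensorRightHomEquiv X U (Uᘁ) Z).symm.injective
    rw [h0, Equiv.symm_apply_apply, h]

theorem left_symm_zero_iff {X U Z : C} (g : X ⟶ U ⊗ Z) :
    (tensorLeftHomEquiv X U (Uᘁ) Z).symm g = 0 ↔ g = 0 := by
  have h0 : (tensorLeftHomEquiv X U (Uᘁ) Z).symm 0 = 0 := by
    change (Uᘁ ◁ (0 : X ⟶ U ⊗ Z)) ≫ _ = 0
    rw [MonoidalPreadditive.whiskerLeft_zero, zero_comp]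
  constructor
  · intro h
    apply (tensorLeftHomEquiv X U (Uᘁ) Z).symm.injective
    rw [h, h0]
  · intro h
    rw [h, h0]

/-- Compatibility of the right adjunction with a tensor factor on the left. -/
theorem right_whisker {X U Z : C} (V : C) (g : X ⊗ U ⟶ Z) :
    (V ◁ tensorRightHomEquiv X U (Uᘁ) Z g) ≫ (α_ V Z (Uᘁ)).inv =
      tensorRightHomEquiv (V ⊗ X) U (Uᘁ) (V ⊗ Z) ((α_ V X U).hom ≫ (V ◁ g)) := by
  simp [tensorRightHomEquiv]

end

section Braided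

variable {C : Type u} [Category.{v} C] [Abelian C] [MonoidalCategory C] [MonoidalPreadditive C]
  [RigidCategory C] [BraidedCategory C]

/-- The loop of `V` around an object of the centre. -/
noncomputable def mC (V : C) (N : Center C) : V ⊗ N.1 ⟶ V ⊗ N.1 :=
  (β_ V N.1).hom ≫ (N.2.β V).hom

theorem mC_nat_left {V V' : C} (f : V ⟶ V') (N : Center C) :
    (f ▷ N.1) ≫ mC V' N = mC V N ≫ (f ▷ N.1) := by
  rw [mC, mC, BraidedCategory.braiding_naturality_left_assoc, N.2.naturality, Category.assoc]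

theorem mC_nat_right (V : C) {N N' : Center C} (g : N ⟶ N') :
    (V ◁ g.f) ≫ mC V N' = mC V N ≫ (V ◁ g.f) := by
  rw [mC, mC, BraidedCategory.braiding_naturality_right_assoc, g.comm, Category.assoc]

theorem mC_tensor (V U : C) (N : Center C) :
    mC (V ⊗ U) N = (α_ V U N.1).hom ≫ (V ◁ (β_ U N.1).hom) ≫ (α_ V N.1 U).inv ≫
      (mC V N ▷ U) ≫ (α_ V N.1 U).hom ≫ (V ◁ (N.2.β U).hom) ≫ (α_ V U N.1).inv := by
  rw [mC, mC, BraidedCategory.braiding_tensor_left_hom, N.2.monoidal]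
  simp only [Category.assoc, Iso.hom_inv_id_assoc, comp_whiskerRight]

theorem mC_unit (N : Center C) : mC (𝟙_ C) N = 𝟙 _ := by
  rw [mC, beta_unit]
  simp

/-- `h` kills the translates of `y` by loops of `V`. -/
def Kill (N : Center C) {Y W : C} (y : Y ⟶ N.1) (h : N.1 ⟶ W) (V : C) : Prop :=
  (V ◁ y) ≫ mC V N ≫ (V ◁ h) = 0

theorem kill_of_separator {Q : C}
    (hQ : ∀ {V W : C} (g : V ⟶ W), (∀ f : Q ⟶ V, f ≫ g = 0) → g = 0)
    {N : Center C} {Y W : C} {y : Y ⟶ N.1} {h : N.1 ⟶ W} (hk : Kill N y h Q) (V : C) :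
    Kill N y h V := by
  refine rk_zero hQ _ fun f => ?_
  have h1 : (f ▷ Y) ≫ (V ◁ y) ≫ mC V N ≫ (V ◁ h) =
      ((Q ◁ y) ≫ mC Q N ≫ (Q ◁ h)) ≫ (f ▷ W) := by
    rw [← whisker_exchange_assoc, ← Category.assoc (f ▷ N.1), mC_nat_left, Category.assoc,
      ← whisker_exchange, Category.assoc, Category.assoc]
  rw [h1, hk, zero_comp]

theorem kill_unit {N : Center C} {Y W : C} {y : Y ⟶ N.1} {h : N.1 ⟶ W}
    (hk : Kill N y h (𝟙_ C)) : y ≫ h = 0 := by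
  rw [Kill, mC_unit, Category.id_comp, ← whiskerLeft_comp] at hk
  calc y ≫ h = (λ_ Y).inv ≫ (𝟙_ C ◁ (y ≫ h)) ≫ (λ_ W).hom := by simp
    _ = 0 := by rw [hk, zero_comp, comp_zero]

/-- Stability. -/
theorem kill_stable {N : Center C} {Y W : C} {y : Y ⟶ N.1} {q : N.1 ⟶ W}
    (hq : ∀ V, Kill N y q V) (U V : C) :
    Kill N y (tensorRightHomEquiv N.1 U (Uᘁ) (U ⊗ W) ((N.2.β U).hom ≫ (U ◁ q))) V := by
  have h1 := hq (V ⊗ U)
  rw [Kill, mC_tensor] at h1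
  have h3 : ((V ⊗ U) ◁ y) ≫ (α_ V U N.1).hom ≫ (V ◁ (β_ U N.1).hom) ≫ (α_ V N.1 U).inv =
      (α_ V U Y).hom ≫ (V ◁ (β_ U Y).hom) ≫ (α_ V Y U).inv ≫ ((V ◁ y) ▷ U) := by
    have h4 : (U ◁ y) ≫ (β_ U N.1).hom = (β_ U Y).hom ≫ (y ▷ U) :=
      BraidedCategory.braiding_naturality_right _ _
    calc _ = (α_ V U Y).hom ≫ (V ◁ ((U ◁ y) ≫ (β_ U N.1).hom)) ≫ (α_ V N.1 U).inv := by
          rw [whiskerLeft_comp]; simp
      _ = _ := by rw [h4, whiskerLeft_comp]; simp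
  have h2 : (((V ◁ y) ≫ mC V N) ▷ U) ≫ (α_ V N.1 U).hom ≫
      (V ◁ ((N.2.β U).hom ≫ (U ◁ q))) = 0 := by
    have h5 : ((α_ V U Y).hom ≫ (V ◁ (β_ U Y).hom) ≫ (α_ V Y U).inv) ≫
        ((((V ◁ y) ≫ mC V N) ▷ U) ≫ (α_ V N.1 U).hom ≫
          (V ◁ ((N.2.β U).hom ≫ (U ◁ q)))) ≫ (α_ V U W).inv = 0 := by
      rw [← h1]
      simp only [comp_whiskerRight, whiskerLeft_comp, Category.assoc]
      rw [← reassoc_of% h3]
      simp
    have h6 : ((((V ◁ y) ≫ mC V N) ▷ U) ≫ (α_ V N.1 U).hom ≫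
          (V ◁ ((N.2.β U).hom ≫ (U ◁ q)))) ≫ (α_ V U W).inv = 0 := by
      rw [← cancel_epi ((α_ V U Y).hom ≫ (V ◁ (β_ U Y).hom) ≫ (α_ V Y U).inv), h5, comp_zero]
    rw [← cancel_mono (α_ V U W).inv, h6, zero_comp]
  have h7 : ((V ◁ y) ≫ mC V N) ≫ ((V ◁ (tensorRightHomEquiv N.1 U (Uᘁ) (U ⊗ W)
      ((N.2.β U).hom ≫ (U ◁ q)))) ≫ (α_ V (U ⊗ W) (Uᘁ)).inv) = 0 := by
    rw [right_whisker]
    apply (tensorRightHomEquiv (V ⊗ Y) U (Uᘁ) (V ⊗ (U ⊗ W))).symm.injective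
    rw [tensorRightHomEquiv_symm_naturality, Equiv.symm_apply_apply, h2]
    change _ = ((0 : _ ⟶ _) ▷ U) ≫ _
    rw [MonoidalPreadditive.zero_whiskerRight, zero_comp]
  rw [Kill, ← cancel_mono (α_ V (U ⊗ W) (Uᘁ)).inv, zero_comp, Category.assoc, Category.assoc]
  simpa only [Category.assoc] using h7

variable {k : Type*} [Field k] [Linear k C]

omit [MonoidalCategory C] [MonoidalPreadditive C] [RigidCategory C] [BraidedCategory C] in
theorem isIso_of_mono (hC : FinCat k C) {X Y : C} (f : X ⟶ Y) [Mono f] (e : X ≅ Y) :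
    IsIso f := by
  obtain ⟨F⟩ := exists_fam hC
  have h1 := F.len_add hC (Fam.ses_mono f)
  have h2 := F.len_iso (k := k) e
  simp only at h1
  have h3 : F.len k (cokernel f) = 0 := by omega
  have h4 := (F.len_eq_zero_iff hC _).1 h3
  have h5 : Epi f := Preadditive.epi_of_isZero_cokernel _ h4
  exact isIso_of_mono_of_epi f

/-- A subobject stable under the half-braiding is an object of the centre. -/
theorem exists_sub (hC : FinCat k C) (N : Center C) {K : C} (ι : K ⟶ N.1) [Mono ι]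
    (h : ∀ U, ∃ γ : K ⊗ U ⟶ U ⊗ K, γ ≫ (U ◁ ι) = (ι ▷ U) ≫ (N.2.β U).hom) :
    ∃ (b : HalfBraiding K), ∀ U, (ι ▷ U) ≫ (N.2.β U).hom = (b.β U).hom ≫ (U ◁ ι) := by
  choose γ hγ using h
  have hm1 : ∀ U : C, Mono (ι ▷ U) := fun U => inferInstanceAs (Mono ((tensorRight U).map ι))
  have hm2 : ∀ U : C, Mono (U ◁ ι) := fun U => inferInstanceAs (Mono ((tensorLeft U).map ι))
  have hγm : ∀ U, Mono (γ U) := fun U => by
    have h1 := hm1 U
    have : Mono ((ι ▷ U) ≫ (N.2.β U).hom) := mono_comp _ _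
    rw [← hγ U] at this
    exact mono_of_mono (γ U) (U ◁ ι)
  have hγi : ∀ U, IsIso (γ U) := fun U => by
    have := hγm U
    exact isIso_of_mono hC (γ U) (β_ K U)
  refine ⟨{ β := fun U => @asIso _ _ _ _ (γ U) (hγi U), monoidal := ?_, naturality := ?_ },
    fun U => (hγ U).symm⟩
  · intro U U'
    have h1 := hm2 (U ⊗ U')
    rw [← cancel_mono ((U ⊗ U') ◁ ι)]
    change γ (U ⊗ U') ≫ _ = (_ ≫ (γ U ▷ U') ≫ _ ≫ (U ◁ γ U') ≫ _) ≫ _
    rw [hγ, N.2.monoidal]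
    have e1 : (α_ U U' K).inv ≫ ((U ⊗ U') ◁ ι) = (U ◁ U' ◁ ι) ≫ (α_ U U' N.1).inv := by simp
    have e2 : (U ◁ γ U') ≫ (U ◁ U' ◁ ι) = (U ◁ (ι ▷ U')) ≫ (U ◁ (N.2.β U').hom) := by
      rw [← whiskerLeft_comp, hγ, whiskerLeft_comp]
    have e3 : (α_ U K U').hom ≫ (U ◁ (ι ▷ U')) = ((U ◁ ι) ▷ U') ≫ (α_ U N.1 U').hom := by simp
    have e4 : (γ U ▷ U') ≫ ((U ◁ ι) ▷ U') = ((ι ▷ U) ▷ U') ≫ ((N.2.β U).hom ▷ U') := by
      rw [← comp_whiskerRight, hγ, comp_whiskerRight]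
    have e5 : (α_ K U U').inv ≫ ((ι ▷ U) ▷ U') = (ι ▷ (U ⊗ U')) ≫ (α_ N.1 U U').inv := by simp
    calc (ι ▷ (U ⊗ U')) ≫ (α_ N.1 U U').inv ≫ ((N.2.β U).hom ▷ U') ≫ (α_ U N.1 U').hom ≫
          (U ◁ (N.2.β U').hom) ≫ (α_ U U' N.1).inv
        = (α_ K U U').inv ≫ (((ι ▷ U) ▷ U') ≫ ((N.2.β U).hom ▷ U')) ≫ (α_ U N.1 U').hom ≫
          (U ◁ (N.2.β U').hom) ≫ (α_ U U' N.1).inv := by
            rw [Category.assoc, reassoc_of% e5]
      _ = (α_ K U U').inv ≫ (γ U ▷ U') ≫ (((U ◁ ι) ▷ U') ≫ (α_ U N.1 U').hom) ≫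
          (U ◁ (N.2.β U').hom) ≫ (α_ U U' N.1).inv := by
            rw [← e4]; simp only [Category.assoc]
      _ = (α_ K U U').inv ≫ (γ U ▷ U') ≫ (α_ U K U').hom ≫ ((U ◁ (ι ▷ U')) ≫
          (U ◁ (N.2.β U').hom)) ≫ (α_ U U' N.1).inv := by
            rw [← e3]; simp only [Category.assoc]
      _ = (α_ K U U').inv ≫ (γ U ▷ U') ≫ (α_ U K U').hom ≫ (U ◁ γ U') ≫
          ((U ◁ U' ◁ ι) ≫ (α_ U U' N.1).inv) := by
            rw [← e2]; simp only [Category.assoc]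
      _ = _ := by
            rw [← e1]; simp only [Category.assoc]
  · intro U U' f
    have h1 := hm2 U'
    rw [← cancel_mono (U' ◁ ι)]
    change (K ◁ f ≫ γ U') ≫ _ = (γ U ≫ (f ▷ K)) ≫ _
    rw [Category.assoc, hγ, Category.assoc, ← whisker_exchange, reassoc_of% (hγ U),
      whisker_exchange_assoc, N.2.naturality]

/-- The loops of a separator applied to `y`. -/
noncomputable def bC (Q : C) (N : Center C) {Y : C} (y : Y ⟶ N.1) : Qᘁ ⊗ (Q ⊗ Y) ⟶ N.1 :=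
  (tensorLeftHomEquiv (Q ⊗ Y) Q (Qᘁ) N.1).symm ((Q ◁ y) ≫ mC Q N)

omit [Abelian C] [MonoidalPreadditive C] in
theorem left_symm_comp {X Y Z Z' : C} (f : X ⟶ Y ⊗ Z) (g : Z ⟶ Z') :
    (tensorLeftHomEquiv X Y (Yᘁ) Z).symm f ≫ g =
      (tensorLeftHomEquiv X Y (Yᘁ) Z').symm (f ≫ (Y ◁ g)) := by
  apply (tensorLeftHomEquiv X Y (Yᘁ) Z').injective
  rw [tensorLeftHomEquiv_naturality, Equiv.apply_symm_apply, Equiv.apply_symm_apply]

theorem bC_comp_eq_zero {Q : C} {N : Center C} {Y W : C} {y : Y ⟶ N.1} (h : N.1 ⟶ W) :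
    bC Q N y ≫ h = 0 ↔ Kill N y h Q := by
  rw [bC, left_symm_comp, left_symm_zero_iff, Category.assoc, Kill]

theorem bC_comp {Q : C} {N N' : Center C} {Y : C} (y : Y ⟶ N.1) (f : N ⟶ N') :
    bC Q N y ≫ f.f = bC Q N' (y ≫ f.f) := by
  rw [bC, left_symm_comp, bC, Category.assoc, ← mC_nat_right, whiskerLeft_comp, Category.assoc]

/-- Row GEN: the subobject generated by `y`. -/
theorem exists_gen (hC : FinCat k C) {Q : C}
    (hQ : ∀ {V W : C} (g : V ⟶ W), (∀ f : Q ⟶ V, f ≫ g = 0) → g = 0)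
    (N : Center C) {Y : C} (y : Y ⟶ N.1) :
    ∃ (G : Center C) (i : G ⟶ N) (y' : Y ⟶ G.1), Mono i.f ∧ y' ≫ i.f = y ∧
      Epi (bC Q G y') := by
  let b := bC Q N y
  let q := cokernel.π b
  let ι : Abelian.image b ⟶ N.1 := Abelian.image.ι b
  have hι : Mono ι := inferInstanceAs (Mono (kernel.ι _))
  let e : Qᘁ ⊗ (Q ⊗ Y) ⟶ Abelian.image b := Abelian.factorThruImage b
  have he : Epi e := inferInstance
  have hei : e ≫ ι = b := Abelian.image.fac b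
  have hq : ∀ V, Kill N y q V :=
    kill_of_separator hQ ((bC_comp_eq_zero (Q := Q) q).1 (cokernel.condition b))
  have hu : ∀ {W : C} (h : N.1 ⟶ W), (∀ V, Kill N y h V) → ι ≫ h = 0 := by
    intro W h hh
    rw [← cancel_epi e, reassoc_of% hei, comp_zero]
    exact (bC_comp_eq_zero h).2 (hh Q)
  have hst : ∀ U, (ι ▷ U) ≫ (N.2.β U).hom ≫ (U ◁ q) = 0 := by
    intro U
    have h1 := hu _ (fun V => kill_stable hq U V)
    have h2 : (tensorRightHomEquiv (Abelian.image b) U (Uᘁ) _).symm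
        (ι ≫ tensorRightHomEquiv N.1 U (Uᘁ) _ ((N.2.β U).hom ≫ (U ◁ q))) =
        (ι ▷ U) ≫ (N.2.β U).hom ≫ (U ◁ q) := by
      rw [tensorRightHomEquiv_symm_naturality, Equiv.symm_apply_apply]
    rw [← h2, h1]
    change ((0 : _ ⟶ _) ▷ U) ≫ _ = 0
    rw [MonoidalPreadditive.zero_whiskerRight, zero_comp]
  have hlift : ∀ U, ∃ γ : Abelian.image b ⊗ U ⟶ U ⊗ Abelian.image b,
      γ ≫ (U ◁ ι) = (ι ▷ U) ≫ (N.2.β U).hom := by
    intro U
    have h3 : (ShortComplex.mk ι q (kernel.condition _)).ShortExact :=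
      { exact := ShortComplex.exact_kernel _
        mono_f := hι
        epi_g := inferInstance }
    have h4 := h3.map_of_exact (tensorLeft U)
    exact ⟨_, (KernelFork.IsLimit.lift' h4.fIsKernel ((ι ▷ U) ≫ (N.2.β U).hom) 
      ((Category.assoc _ _ _).trans (hst U))).2⟩
  obtain ⟨hb, hb'⟩ := exists_sub hC N ι hlift
  let G : Center C := ⟨Abelian.image b, hb⟩
  let i : G ⟶ N := { f := ι, comm := hb' }
  have hy : y ≫ q = 0 := kill_unit (hq (𝟙_ C))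
  let y' : Y ⟶ Abelian.image b := kernel.lift _ y hy
  have hy' : y' ≫ ι = y := kernel.lift_ι _ _ _
  refine ⟨G, i, y', hι, hy', ?_⟩
  have h5 : bC Q G y' = e := by
    rw [← cancel_mono ι, hei]
    exact (bC_comp (Q := Q) (N := G) (N' := N) y' i).trans (by
      change bC Q N (y' ≫ ι) = b
      rw [hy'])
  rw [h5]
  exact he

/-- Morphisms out of a generated object are determined by their value on the generator. -/
theorem gen_ext {Q : C} {G N : Center C} {Y : C} {y : Y ⟶ G.1} (hG : Epi (bC Q G y))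
    (f : G ⟶ N) (h : y ≫ f.f = 0) : f.f = 0 := by
  rw [← cancel_epi (bC Q G y), bC_comp, h, comp_zero, bC, MonoidalPreadditive.whiskerLeft_zero,
    zero_comp]
  exact (left_symm_zero_iff _).2 rfl

end Braided

end Gen

end Pool.Agent.MUG
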