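import Pool.Agent.MUG.TT
import Pool.Agent.MUG.Gen

/-!
# Row PI, second half: from a center map to a loop with transparent image (helper64)
-/

open CategoryTheory MonoidalCategory Limits Abelian

universe w v u

set_option linter.unusedSectionVars false
set_option backward.isDefEq.respectTransparency.types false

namespace Pool.Agent.MUG

section PI2a

variable {C : Type u} [Category.{v} C] [MonoidalCategory C] [RigidCategory C] [BraidedCategory C]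

/-- The half braiding of `J X ⊗ K X'`. -/
theorem jk_beta_eq (X X' U : C) : ((jObj X ⊗ kObj X').2.β U).hom = tb (jb U X) (kb U X') := by
  change ((Center.tensorObj (jObj X) (kObj X')).2.β U).hom = _
  simp [Center.tensorObj, kObj_beta, jObj_beta, tb, jb, kb]
  rfl

/-- The loop of `Q` around `J X ⊗ K X'`. -/
theorem mC_jk (Q X X' : C) : (β_ Q (X ⊗ X')).hom ≫ tb (jb Q X) (kb Q X') =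
    (α_ Q X X').inv ≫ (c2 Q X ▷ X') ≫ (α_ Q X X').hom := by
  unfold tb jb kb c2
  simp

/-- The mate of the loop at `η`. -/
theorem loop_mate (Q X : C) :
    (((Qᘁ ◁ ((Q ◁ η_ X (Xᘁ)) ≫ (α_ Q X (Xᘁ)).inv ≫ (c2 Q X ▷ Xᘁ) ≫ (α_ Q X (Xᘁ)).hom)) ≫
      (α_ (Qᘁ) Q (X ⊗ Xᘁ)).inv ≫ (ε_ Q (Qᘁ) ▷ (X ⊗ Xᘁ)) ≫ (λ_ (X ⊗ Xᘁ)).hom) ▷ X) ≫
      (α_ X (Xᘁ) X).hom ≫ (X ◁ ε_ X (Xᘁ)) ≫ (ρ_ X).hom =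
    ((Qᘁ ◁ (ρ_ Q).hom) ▷ X) ≫ lcore (Qᘁ) Q X ≫ (ε_ Q (Qᘁ) ▷ X) ≫ (λ_ X).hom := by
  have h1 : (((α_ Q X (Xᘁ)).inv ≫ (c2 Q X ▷ Xᘁ) ≫ (α_ Q X (Xᘁ)).hom) ▷ X) ≫
      (α_ Q (X ⊗ Xᘁ) X).hom ≫ (Q ◁ ((α_ X (Xᘁ) X).hom ≫ (X ◁ ε_ X (Xᘁ)) ≫ (ρ_ X).hom)) =
      (α_ Q (X ⊗ Xᘁ) X).hom ≫ (Q ◁ ((α_ X (Xᘁ) X).hom ≫ (X ◁ ε_ X (Xᘁ)) ≫ (ρ_ X).hom)) ≫
        c2 Q X := by
    calc _ = ((α_ Q X (Xᘁ)).inv ▷ X) ≫ (α_ (Q ⊗ X) (Xᘁ) X).hom ≫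
          ((c2 Q X ▷ (Xᘁ ⊗ X)) ≫ ((Q ⊗ X) ◁ ε_ X (Xᘁ))) ≫ (ρ_ (Q ⊗ X)).hom := by monoidal
      _ = ((α_ Q X (Xᘁ)).inv ▷ X) ≫ (α_ (Q ⊗ X) (Xᘁ) X).hom ≫
          (((Q ⊗ X) ◁ ε_ X (Xᘁ)) ≫ (c2 Q X ▷ 𝟙_ C)) ≫ (ρ_ (Q ⊗ X)).hom := by
          rw [whisker_exchange]
      _ = _ := by monoidal
  have h2 : ((Q ◁ η_ X (Xᘁ)) ▷ X) ≫ (α_ Q (X ⊗ Xᘁ) X).hom ≫
      (Q ◁ ((α_ X (Xᘁ) X).hom ≫ (X ◁ ε_ X (Xᘁ)) ≫ (ρ_ X).hom)) = (ρ_ Q).hom ▷ X := by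
    calc _ = (α_ Q (𝟙_ C) X).hom ≫ (Q ◁ ((η_ X (Xᘁ) ▷ X) ≫ (α_ X (Xᘁ) X).hom ≫
          (X ◁ ε_ X (Xᘁ)))) ≫ (Q ◁ (ρ_ X).hom) := by monoidal
      _ = _ := by
          rw [ExactPairing.evaluation_coevaluation]
          simp
  have h3 : (((Q ◁ η_ X (Xᘁ)) ≫ (α_ Q X (Xᘁ)).inv ≫ (c2 Q X ▷ Xᘁ) ≫ (α_ Q X (Xᘁ)).hom) ▷ X) ≫
      (α_ Q (X ⊗ Xᘁ) X).hom ≫ (Q ◁ ((α_ X (Xᘁ) X).hom ≫ (X ◁ ε_ X (Xᘁ)) ≫ (ρ_ X).hom)) =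
      ((ρ_ Q).hom ▷ X) ≫ c2 Q X := by
    rw [comp_whiskerRight, Category.assoc, h1, ← h2]
    simp only [Category.assoc]
  calc _ = (α_ (Qᘁ) (Q ⊗ 𝟙_ C) X).hom ≫ (Qᘁ ◁ ((((Q ◁ η_ X (Xᘁ)) ≫ (α_ Q X (Xᘁ)).inv ≫
        (c2 Q X ▷ Xᘁ) ≫ (α_ Q X (Xᘁ)).hom) ▷ X) ≫ (α_ Q (X ⊗ Xᘁ) X).hom)) ≫
        (α_ (Qᘁ) Q ((X ⊗ Xᘁ) ⊗ X)).inv ≫ ((ε_ Q (Qᘁ) ▷ ((X ⊗ Xᘁ) ⊗ X)) ≫
          (𝟙_ C ◁ ((α_ X (Xᘁ) X).hom ≫ (X ◁ ε_ X (Xᘁ)) ≫ (ρ_ X).hom))) ≫ (λ_ X).hom := by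
        monoidal
    _ = (α_ (Qᘁ) (Q ⊗ 𝟙_ C) X).hom ≫ (Qᘁ ◁ ((((Q ◁ η_ X (Xᘁ)) ≫ (α_ Q X (Xᘁ)).inv ≫
        (c2 Q X ▷ Xᘁ) ≫ (α_ Q X (Xᘁ)).hom) ▷ X) ≫ (α_ Q (X ⊗ Xᘁ) X).hom)) ≫
        (α_ (Qᘁ) Q ((X ⊗ Xᘁ) ⊗ X)).inv ≫ (((Qᘁ ⊗ Q) ◁ ((α_ X (Xᘁ) X).hom ≫
          (X ◁ ε_ X (Xᘁ)) ≫ (ρ_ X).hom)) ≫ (ε_ Q (Qᘁ) ▷ X)) ≫ (λ_ X).hom := by
        rw [whisker_exchange]
    _ = (α_ (Qᘁ) (Q ⊗ 𝟙_ C) X).hom ≫ (Qᘁ ◁ ((((Q ◁ η_ X (Xᘁ)) ≫ (α_ Q X (Xᘁ)).inv ≫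
        (c2 Q X ▷ Xᘁ) ≫ (α_ Q X (Xᘁ)).hom) ▷ X) ≫ (α_ Q (X ⊗ Xᘁ) X).hom ≫
          (Q ◁ ((α_ X (Xᘁ) X).hom ≫ (X ◁ ε_ X (Xᘁ)) ≫ (ρ_ X).hom)))) ≫
        (α_ (Qᘁ) Q X).inv ≫ (ε_ Q (Qᘁ) ▷ X) ≫ (λ_ X).hom := by
        monoidal
    _ = _ := by
        rw [h3]
        unfold lcore
        monoidal

/-- A morphism `M₀ ⟶ X ⊗ X*` compatible with `K` and `J ⊗ K` gives a morphism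
`M₀ ⊗ X ⟶ X` whose image is transparent. -/
theorem mate_c2 {M₀ X : C} (g : M₀ ⟶ X ⊗ Xᘁ) (U : C)
    (hg : CompB (kb U M₀) (tb (jb U X) (kb U (Xᘁ))) g) :
    (U ◁ ((g ▷ X) ≫ (α_ X (Xᘁ) X).hom ≫ (X ◁ ε_ X (Xᘁ)) ≫ (ρ_ X).hom)) ≫ c2 U X =
      U ◁ ((g ▷ X) ≫ (α_ X (Xᘁ) X).hom ≫ (X ◁ ε_ X (Xᘁ)) ≫ (ρ_ X).hom) := by
  have hε : CompB (tb (kb U (Xᘁ)) (kb U X)) (ub U) (ε_ X (Xᘁ)) := by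
    rw [kb_tensor, ← kb_unit]
    exact kb_nat U _
  have h1 : CompB (tb (kb U M₀) (kb U X)) (jb U X)
      ((g ▷ X) ≫ (α_ X (Xᘁ) X).hom ≫ (X ◁ ε_ X (Xᘁ)) ≫ (ρ_ X).hom) :=
    (hg.right _).comp ((compB_assoc _ _ _).comp ((hε.left _).comp (compB_rightUnitor _)))
  rw [kb_tensor] at h1
  generalize (g ▷ X) ≫ (α_ X (Xᘁ) X).hom ≫ (X ◁ ε_ X (Xᘁ)) ≫ (ρ_ X).hom = f at h1
  unfold CompB kb jb at h1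
  unfold c2
  rw [BraidedCategory.braiding_naturality_right_assoc, h1, Iso.hom_inv_id_assoc]

end PI2a

section PI2b

variable {C : Type u} [Category.{v} C] [Abelian C] [MonoidalCategory C] [MonoidalPreadditive C]
  [RigidCategory C] [BraidedCategory C]

/-- Faithfulness of the left tensor adjunction, separator on the right. -/
theorem lk_zero {X : C} (hX : ∀ {V W : C} (g : V ⟶ W), (∀ f : X ⟶ V, f ≫ g = 0) → g = 0)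
    {A Y W : C} (F : A ⊗ Y ⟶ W) (h : ∀ f : X ⟶ Y, (A ◁ f) ≫ F = 0) : F = 0 := by
  have h0 : ∀ {Y : C}, (tensorLeftHomEquiv Y (ᘁA) A W).symm 0 = 0 := by
    intro Y
    change (A ◁ (0 : Y ⟶ (ᘁA : C) ⊗ W)) ≫ _ = 0
    rw [MonoidalPreadditive.whiskerLeft_zero, zero_comp]
  have h1 : tensorLeftHomEquiv Y (ᘁA) A W F = 0 := by
    refine hX _ fun f => ?_
    apply (tensorLeftHomEquiv X (ᘁA) A W).symm.injective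
    rw [tensorLeftHomEquiv_symm_naturality, Equiv.symm_apply_apply, h f, h0]
  rw [← (tensorLeftHomEquiv Y (ᘁA) A W).symm_apply_apply F, h1, h0]

/-- Row PI, second half. -/
theorem pi_of_center_map {Q X M₀ : C}
    (hX : ∀ {V W : C} (g : V ⟶ W), (∀ f : X ⟶ V, f ≫ g = 0) → g = 0) {N₀ : Center C}
    (i : N₀ ⟶ jObj X ⊗ kObj (Xᘁ)) (hi : Mono i.f) (y : 𝟙_ C ⟶ N₀.1)
    (hy : y ≫ i.f = η_ X (Xᘁ)) (hb : Epi (Gen.bC Q N₀ y)) (kk : kObj M₀ ⟶ N₀)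
    (hk : kk.f ≠ 0) : ∃ (M : C) (ℓ : LoopData M), ℓ.map X ≠ 0 ∧
      ∀ U Y : C, (U ◁ ℓ.map Y) ≫ c2 U Y = U ◁ ℓ.map Y := by
  let b : Qᘁ ⊗ (Q ⊗ 𝟙_ C) ⟶ N₀.1 := Gen.bC Q N₀ y
  let κ : M₀ ⟶ N₀.1 := kk.f
  let M : C := pullback κ b
  let p : M ⟶ M₀ := pullback.fst κ b
  let t' : M ⟶ Qᘁ ⊗ (Q ⊗ 𝟙_ C) := pullback.snd κ b
  have hb' : Epi b := hb
  have hp : Epi p := inferInstanceAs (Epi (pullback.fst κ b))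
  have hpt : t' ≫ b = p ≫ κ := (pullback.condition (f := κ) (g := b)).symm
  let g : M₀ ⟶ X ⊗ Xᘁ := κ ≫ i.f
  let ℓ : LoopData M := ⟨Qᘁ, Q, t' ≫ (Qᘁ ◁ (ρ_ Q).hom), ε_ Q (Qᘁ)⟩
  -- the value of the loop on `X`
  have hbi : b ≫ i.f = (Qᘁ ◁ ((Q ◁ η_ X (Xᘁ)) ≫ (α_ Q X (Xᘁ)).inv ≫ (c2 Q X ▷ Xᘁ) ≫
      (α_ Q X (Xᘁ)).hom)) ≫ (α_ (Qᘁ) Q (X ⊗ Xᘁ)).inv ≫ (ε_ Q (Qᘁ) ▷ (X ⊗ Xᘁ)) ≫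
      (λ_ (X ⊗ Xᘁ)).hom := by
    have h1 : b ≫ i.f = Gen.bC Q (jObj X ⊗ kObj (Xᘁ)) (y ≫ i.f) := Gen.bC_comp y i
    rw [h1, hy]
    have h2 : Gen.mC Q (jObj X ⊗ kObj (Xᘁ)) = (α_ Q X (Xᘁ)).inv ≫ (c2 Q X ▷ Xᘁ) ≫
        (α_ Q X (Xᘁ)).hom := by
      rw [← mC_jk, ← jk_beta_eq]
      rfl
    change (Qᘁ ◁ ((Q ◁ η_ X (Xᘁ)) ≫ Gen.mC Q (jObj X ⊗ kObj (Xᘁ)))) ≫
      (α_ (Qᘁ) Q (X ⊗ Xᘁ)).inv ≫ (ε_ Q (Qᘁ) ▷ (X ⊗ Xᘁ)) ≫ (λ_ (X ⊗ Xᘁ)).hom = _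
    exact congrArg (fun t => (Qᘁ ◁ ((Q ◁ η_ X (Xᘁ)) ≫ t)) ≫
      (α_ (Qᘁ) Q (X ⊗ Xᘁ)).inv ≫ (ε_ Q (Qᘁ) ▷ (X ⊗ Xᘁ)) ≫ (λ_ (X ⊗ Xᘁ)).hom) h2
  have hmap : ℓ.map X = (p ▷ X) ≫ ((g ▷ X) ≫ (α_ X (Xᘁ) X).hom ≫ (X ◁ ε_ X (Xᘁ)) ≫
      (ρ_ X).hom) := by
    change ((t' ≫ (Qᘁ ◁ (ρ_ Q).hom)) ▷ X) ≫ lcore (Qᘁ) Q X ≫ (ε_ Q (Qᘁ) ▷ X) ≫
      (λ_ X).hom = _
    have h3 := loop_mate Q X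
    rw [← hbi] at h3
    have e : t' ≫ b ≫ i.f = p ≫ g :=
      (Category.assoc _ _ _).symm.trans ((congrArg (fun t => t ≫ i.f) hpt).trans
        (Category.assoc _ _ _))
    rw [comp_whiskerRight, Category.assoc, ← h3, ← comp_whiskerRight_assoc]
    exact (congrArg (fun t => (t ▷ X) ≫ (α_ X (Xᘁ) X).hom ≫ (X ◁ ε_ X (Xᘁ)) ≫ (ρ_ X).hom) e).trans
      (by rw [comp_whiskerRight, Category.assoc])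
  -- compatibility
  have hcomp : ∀ U, CompB (kb U M₀) (tb (jb U X) (kb U (Xᘁ))) g := by
    intro U
    have h4 := (kk ≫ i).comm U
    rw [jk_beta_eq] at h4
    exact h4
  have hTRX : ∀ U, (U ◁ ℓ.map X) ≫ c2 U X = U ◁ ℓ.map X := by
    intro U
    rw [hmap, whiskerLeft_comp, Category.assoc, mate_c2 g U (hcomp U)]
  refine ⟨M, ℓ, ?_, ?_⟩
  · intro h
    apply hk
    have hpX : Epi (p ▷ X) := inferInstanceAs (Epi ((tensorRight X).map p))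
    rw [hmap] at h
    have h5 : (g ▷ X) ≫ (α_ X (Xᘁ) X).hom ≫ (X ◁ ε_ X (Xᘁ)) ≫ (ρ_ X).hom = 0 := by
      rw [← cancel_epi (p ▷ X), h, comp_zero]
    have h6 : (tensorRightHomEquiv M₀ X (Xᘁ) X).symm g = (tensorRightHomEquiv M₀ X (Xᘁ) X).symm 0 := by
      change (g ▷ X) ≫ (α_ X (Xᘁ) X).hom ≫ (X ◁ ε_ X (Xᘁ)) ≫ (ρ_ X).hom =
        ((0 : M₀ ⟶ X ⊗ Xᘁ) ▷ X) ≫ (α_ X (Xᘁ) X).hom ≫ (X ◁ ε_ X (Xᘁ)) ≫ (ρ_ X).hom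
      rw [h5, MonoidalPreadditive.zero_whiskerRight, zero_comp]
    have h7 : κ ≫ i.f = 0 := (tensorRightHomEquiv M₀ X (Xᘁ) X).symm.injective h6
    exact (cancel_mono i.f).1 (h7.trans zero_comp.symm)
  · intro U Y
    rw [← sub_eq_zero]
    have h8 : (α_ U M Y).hom ≫ ((U ◁ ℓ.map Y) ≫ c2 U Y - U ◁ ℓ.map Y) = 0 := by
      refine lk_zero hX _ fun f => ?_
      have h9 : ((U ⊗ M) ◁ f) ≫ (α_ U M Y).hom ≫ ((U ◁ ℓ.map Y) ≫ c2 U Y - U ◁ ℓ.map Y) =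
          (α_ U M X).hom ≫ ((U ◁ ℓ.map X) ≫ c2 U X - U ◁ ℓ.map X) ≫ (U ◁ f) := by
        rw [associator_naturality_right_assoc, Preadditive.comp_sub, ← whiskerLeft_comp_assoc,
          ← whiskerLeft_comp, ℓ.nat f, whiskerLeft_comp, Category.assoc, c2_nat_right,
          Preadditive.sub_comp, Category.assoc]
      rw [h9, hTRX U, sub_self, zero_comp, comp_zero]
    rw [← cancel_epi (α_ U M Y).hom, h8, comp_zero]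

end PI2b

end Pool.Agent.MUG
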