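import Pool.Agent.MUG.Leib

open CategoryTheory MonoidalCategory Limits Abelian

universe w v u

namespace Pool.Agent.MUG

namespace C2

section Basic

variable {C : Type u} [Category.{v} C] [Abelian C]
  [MonoidalCategory C] [MonoidalPreadditive C] [RigidCategory C]

/-- A nonzero endomorphism-free criterion: `X` is nonzero if its identity is. -/
theorem coev_ne {X : C} (hX : 𝟙 X ≠ 0) : ε_ X (Xᘁ) ≠ 0 := by
  intro h
  apply hX
  have h1 := ExactPairing.evaluation_coevaluation X (Xᘁ)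
  rw [h, MonoidalPreadditive.whiskerLeft_zero, comp_zero, comp_zero] at h1
  have h2 : (λ_ X).hom ≫ (ρ_ X).inv = 0 := h1.symm
  calc 𝟙 X = (λ_ X).inv ≫ ((λ_ X).hom ≫ (ρ_ X).inv) ≫ (ρ_ X).hom := by simp
    _ = 0 := by rw [h2]; simp

theorem epi_ev (h1 : Simple (𝟙_ C)) {X : C} (hX : 𝟙 X ≠ 0) : Epi (ε_ X (Xᘁ)) :=
  epi_of_nonzero_to_simple (coev_ne hX)

/-- Tensoring with a nonzero object is faithful. -/
theorem faithful (h1 : Simple (𝟙_ C)) {X : C} (hX : 𝟙 X ≠ 0) {Y Z : C} (g : Y ⟶ Z)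
    (h : X ◁ g = 0) : g = 0 := by
  have : Epi (ε_ X (Xᘁ)) := epi_ev h1 hX
  have hepi : Epi (ε_ X (Xᘁ) ▷ Y) := inferInstanceAs (Epi ((tensorRight Y).map (ε_ X (Xᘁ))))
  have h2 : (Xᘁ ⊗ X) ◁ g = 0 := by
    rw [MonoidalCategory.tensor_whiskerLeft, h, MonoidalPreadditive.whiskerLeft_zero]
    simp
  have h3 : (ε_ X (Xᘁ) ▷ Y) ≫ ((𝟙_ C) ◁ g) = 0 := by
    rw [← whisker_exchange, h2, zero_comp]
  have h4 : (𝟙_ C) ◁ g = 0 := by
    rw [← cancel_epi (ε_ X (Xᘁ) ▷ Y), h3, comp_zero]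
  rw [id_whiskerLeft] at h4
  calc g = (λ_ Y).inv ≫ ((λ_ Y).hom ≫ g ≫ (λ_ Z).inv) ≫ (λ_ Z).hom := by simp
    _ = 0 := by rw [h4]; simp

theorem tensor_ne (h1 : Simple (𝟙_ C)) {X Y : C} (hX : 𝟙 X ≠ 0) (hY : 𝟙 Y ≠ 0) :
    𝟙 (X ⊗ Y) ≠ 0 := by
  intro h
  exact hY (faithful h1 hX _ (by rw [whiskerLeft_id, h]))

omit [MonoidalPreadditive C] [RigidCategory C] in
theorem unit_ne (h1 : Simple (𝟙_ C)) : 𝟙 (𝟙_ C) ≠ 0 := id_nonzero _

section Inv

variable {b Y : C} (e : b ⊗ Y ≅ 𝟙_ C)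

omit [RigidCategory C] in
include e in
theorem ne_left (h1 : Simple (𝟙_ C)) : 𝟙 b ≠ 0 := by
  intro h
  apply unit_ne h1
  have h2 : 𝟙 (b ⊗ Y) = 0 := by
    rw [← id_whiskerRight, h, MonoidalPreadditive.zero_whiskerRight]
  rw [← e.inv_hom_id, ← Category.id_comp e.hom, h2]
  simp

omit [RigidCategory C] in
include e in
theorem ne_right (h1 : Simple (𝟙_ C)) : 𝟙 Y ≠ 0 := by
  intro h
  apply unit_ne h1
  have h2 : 𝟙 (b ⊗ Y) = 0 := by
    rw [← whiskerLeft_id, h, MonoidalPreadditive.whiskerLeft_zero]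
  rw [← e.inv_hom_id, ← Category.id_comp e.hom, h2]
  simp

/-- The comparison of the right dual with the given inverse. -/
noncomputable def cmp : bᘁ ⟶ Y :=
  (ρ_ (bᘁ)).inv ≫ (bᘁ ◁ e.inv) ≫ (α_ (bᘁ) b Y).inv ≫ (ε_ b (bᘁ) ▷ Y) ≫ (λ_ Y).hom

theorem cmp_epi (h1 : Simple (𝟙_ C)) : Epi (cmp e) := by
  have : Epi (ε_ b (bᘁ)) := epi_ev h1 (ne_left e h1)
  have hepi : Epi (ε_ b (bᘁ) ▷ Y) := inferInstanceAs (Epi ((tensorRight Y).map (ε_ b (bᘁ))))
  unfold cmp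
  infer_instance

theorem cmp_mono (h1 : Simple (𝟙_ C)) : Mono (cmp e) := by
  refine Preadditive.mono_of_cancel_zero _ (fun {K} g hg => ?_)
  -- the mate of `g`
  by_contra hne
  have h2 : (g ▷ b) ≫ ε_ b (bᘁ) ≠ 0 := by
    intro h0
    apply hne
    have h3 : (tensorRightHomEquiv K b (bᘁ) (𝟙_ C)).symm (g ≫ (λ_ (bᘁ)).inv) =
        (tensorRightHomEquiv K b (bᘁ) (𝟙_ C)).symm 0 := by
      change ((g ≫ (λ_ (bᘁ)).inv) ▷ b) ≫ (α_ _ _ _).hom ≫ (𝟙_ C ◁ ε_ b (bᘁ)) ≫ (ρ_ _).hom =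
        ((0 : K ⟶ 𝟙_ C ⊗ bᘁ) ▷ b) ≫ (α_ _ _ _).hom ≫ (𝟙_ C ◁ ε_ b (bᘁ)) ≫ (ρ_ _).hom
      have h4 : ((g ≫ (λ_ (bᘁ)).inv) ▷ b) ≫ (α_ _ _ _).hom ≫ (𝟙_ C ◁ ε_ b (bᘁ)) ≫ (ρ_ _).hom =
        ((g ▷ b) ≫ ε_ b (bᘁ)) := by
        simp [unitors_inv_equal]
      rw [h4, h0]
      simp
    have h5 := (tensorRightHomEquiv K b (bᘁ) (𝟙_ C)).symm.injective h3
    rw [← cancel_mono (λ_ (bᘁ)).inv, h5, zero_comp]
  have h6 : Epi ((g ▷ b) ≫ ε_ b (bᘁ)) := epi_of_nonzero_to_simple h2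
  have h7 : Epi (((g ▷ b) ≫ ε_ b (bᘁ)) ▷ Y) :=
    inferInstanceAs (Epi ((tensorRight Y).map ((g ▷ b) ≫ ε_ b (bᘁ))))
  have h8 : g ≫ cmp e = (ρ_ K).inv ≫ (K ◁ e.inv) ≫ (α_ K b Y).inv ≫
      (((g ▷ b) ≫ ε_ b (bᘁ)) ▷ Y) ≫ (λ_ Y).hom := by
    unfold cmp
    rw [comp_whiskerRight, Category.assoc, ← associator_inv_naturality_left_assoc,
      whisker_exchange_assoc, ← rightUnitor_inv_naturality_assoc]
  rw [hg] at h8
  have h9 : Epi (0 : K ⟶ Y) := by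
    rw [h8]; infer_instance
  apply ne_right e h1
  rw [← cancel_epi (0 : K ⟶ Y)]
  simp

theorem cmp_iso (h1 : Simple (𝟙_ C)) : IsIso (cmp e) := by
  have := cmp_epi e h1
  have := cmp_mono e h1
  exact isIso_of_mono_of_epi _

/-- An invertible object is invertible with inverse its right dual. -/
noncomputable def dualIso (h1 : Simple (𝟙_ C)) : b ⊗ bᘁ ≅ 𝟙_ C :=
  haveI := cmp_iso e h1
  whiskerLeftIso b (asIso (cmp e)) ≪≫ e

include e in
theorem simple (h1 : Simple (𝟙_ C)) : Simple b := by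
  have hb := ne_left e h1
  have hY := ne_right e h1
  refine ⟨fun {K} f hf => ⟨fun hi h0 => ?_, fun h0 => ?_⟩⟩
  · subst h0
    apply hb
    rw [← IsIso.inv_hom_id (0 : K ⟶ b), comp_zero]
  · -- `f ▷ Y` is a nonzero mono into the unit
    have hm : Mono (f ▷ Y) := inferInstanceAs (Mono ((tensorRight Y).map f))
    have hm' : Mono ((f ▷ Y) ≫ e.hom) := mono_comp _ _
    have hfY : f ▷ Y ≠ 0 := by
      intro hz
      apply h0
      -- faithfulness on the right through `b ⊗ bᘁ ≅ 1`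
      have h2 : f ▷ (bᘁ) = 0 := by
        have := cmp_iso e h1
        have h3 : (f ▷ (bᘁ)) ≫ (b ◁ cmp e) = 0 := by
          rw [← whisker_exchange, hz, comp_zero]
        rw [← cancel_mono (b ◁ cmp e), h3, zero_comp]
      have h4 : (f ▷ (bᘁ ⊗ b)) = 0 := by
        rw [whiskerRight_tensor, h2, MonoidalPreadditive.zero_whiskerRight]
        simp
      have hepi : Epi (ε_ b (bᘁ)) := epi_ev h1 hb
      have hepi' : Epi (K ◁ ε_ b (bᘁ)) := inferInstanceAs (Epi ((tensorLeft K).map (ε_ b (bᘁ))))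
      have h5 : (K ◁ ε_ b (bᘁ)) ≫ (f ▷ 𝟙_ C) = 0 := by
        rw [whisker_exchange, h4, zero_comp]
      have h6 : f ▷ 𝟙_ C = 0 := by
        rw [← cancel_epi (K ◁ ε_ b (bᘁ)), h5, comp_zero]
      rw [whiskerRight_id] at h6
      calc f = (ρ_ K).inv ≫ ((ρ_ K).hom ≫ f ≫ (ρ_ b).inv) ≫ (ρ_ b).hom := by simp
        _ = 0 := by rw [h6]; simp
    have hne : (f ▷ Y) ≫ e.hom ≠ 0 := by
      intro hz
      apply hfY
      rw [← cancel_mono e.hom, hz, zero_comp]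
    have hiso : IsIso ((f ▷ Y) ≫ e.hom) := isIso_of_mono_of_nonzero hne
    have hiso' : IsIso (f ▷ Y) := IsIso.of_isIso_comp_right _ e.hom
    have hepi : Epi f := by
      refine Preadditive.epi_of_cancel_zero _ (fun {Q} g hg => ?_)
      have h2 : (g ▷ Y) = 0 := by
        rw [← cancel_epi (f ▷ Y), ← comp_whiskerRight, hg,
          MonoidalPreadditive.zero_whiskerRight, comp_zero]
      -- faithfulness on the right
      have h3 : g ▷ (bᘁ) = 0 := by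
        have := cmp_iso e h1
        have h3 : (g ▷ (bᘁ)) ≫ (Q ◁ cmp e) = 0 := by
          rw [← whisker_exchange, h2, comp_zero]
        rw [← cancel_mono (Q ◁ cmp e), h3, zero_comp]
      have h4 : (g ▷ (bᘁ ⊗ b)) = 0 := by
        rw [whiskerRight_tensor, h3, MonoidalPreadditive.zero_whiskerRight]
        simp
      have hepi : Epi (ε_ b (bᘁ)) := epi_ev h1 hb
      have hepi' : Epi (b ◁ ε_ b (bᘁ)) := inferInstanceAs (Epi ((tensorLeft b).map (ε_ b (bᘁ))))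
      have h5 : (b ◁ ε_ b (bᘁ)) ≫ (g ▷ 𝟙_ C) = 0 := by
        rw [whisker_exchange, h4, zero_comp]
      have h6 : g ▷ 𝟙_ C = 0 := by
        rw [← cancel_epi (b ◁ ε_ b (bᘁ)), h5, comp_zero]
      rw [whiskerRight_id] at h6
      calc g = (ρ_ b).inv ≫ ((ρ_ b).hom ≫ g ≫ (ρ_ Q).inv) ≫ (ρ_ Q).hom := by simp
        _ = 0 := by rw [h6]; simp
    exact isIso_of_mono_of_epi f

include e in
/-- The evaluation of an invertible object is an isomorphism. -/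
theorem ev_iso (h1 : Simple (𝟙_ C)) : IsIso (ε_ b (bᘁ)) := by
  have hb := ne_left e h1
  have hs : Simple b := simple e h1
  have hepi : Epi (ε_ b (bᘁ)) := epi_ev h1 hb
  have hepi' : Epi (b ◁ ε_ b (bᘁ)) := inferInstanceAs (Epi ((tensorLeft b).map (ε_ b (bᘁ))))
  let i : b ⊗ (bᘁ ⊗ b) ≅ b := (α_ b (bᘁ) b).symm ≪≫ whiskerRightIso (dualIso e h1) b ≪≫ λ_ b
  have hs' : Simple (b ⊗ (bᘁ ⊗ b)) := Simple.of_iso i
  have hne : b ◁ ε_ b (bᘁ) ≠ 0 := by
    intro h0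
    exact coev_ne hb (faithful h1 hb _ h0)
  have hmono' : Mono (b ◁ ε_ b (bᘁ)) := mono_of_nonzero_from_simple hne
  have hmono : Mono (ε_ b (bᘁ)) := by
    refine Preadditive.mono_of_cancel_zero _ (fun {K} g hg => ?_)
    apply faithful h1 hb
    rw [← cancel_mono (b ◁ ε_ b (bᘁ)), ← whiskerLeft_comp, hg,
      MonoidalPreadditive.whiskerLeft_zero, zero_comp]
  exact isIso_of_mono_of_epi _

theorem dual_ne (hb : 𝟙 b ≠ 0) : 𝟙 (bᘁ) ≠ 0 := by
  intro h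
  apply coev_ne hb
  rw [← Category.id_comp (ε_ b (bᘁ)), ← id_whiskerRight, h,
    MonoidalPreadditive.zero_whiskerRight, zero_comp]

include e in
theorem simple_tensor (h1 : Simple (𝟙_ C)) (S : C) [hS : Simple S] : Simple (b ⊗ S) := by
  have hb := ne_left e h1
  have hd : 𝟙 (bᘁ) ≠ 0 := dual_ne hb
  have := ev_iso e h1
  let i : bᘁ ⊗ (b ⊗ S) ≅ S := (α_ (bᘁ) b S).symm ≪≫ whiskerRightIso (asIso (ε_ b (bᘁ))) S ≪≫ λ_ S
  refine ⟨fun {K} f hf => ⟨fun hi h0 => ?_, fun h0 => ?_⟩⟩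
  · subst h0
    apply tensor_ne h1 hb (id_nonzero S)
    rw [← IsIso.inv_hom_id (0 : K ⟶ b ⊗ S), comp_zero]
  · have hm : Mono (bᘁ ◁ f) := inferInstanceAs (Mono ((tensorLeft (bᘁ)).map f))
    have hm' : Mono ((bᘁ ◁ f) ≫ i.hom) := mono_comp _ _
    have hne : (bᘁ ◁ f) ≫ i.hom ≠ 0 := by
      intro hz
      apply h0
      apply faithful h1 hd
      rw [← cancel_mono i.hom, hz, zero_comp]
    have hiso : IsIso ((bᘁ ◁ f) ≫ i.hom) := isIso_of_mono_of_nonzero hne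
    have hiso' : IsIso (bᘁ ◁ f) := IsIso.of_isIso_comp_right _ i.hom
    have hepi : Epi f := by
      refine Preadditive.epi_of_cancel_zero _ (fun {Q} g hg => ?_)
      apply faithful h1 hd
      rw [← cancel_epi (bᘁ ◁ f), ← whiskerLeft_comp, hg,
        MonoidalPreadditive.whiskerLeft_zero, comp_zero]
    exact isIso_of_mono_of_epi f

end Inv

end Basic

end C2

section Fin

variable {k : Type*} [Field k] {C : Type u} [Category.{v} C] [Abelian C] [Linear k C]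
  [MonoidalCategory C] [MonoidalPreadditive C] [RigidCategory C]

omit [MonoidalPreadditive C] [RigidCategory C] in
/-- Row C2: endomorphisms of the unit and of invertible objects are scalars. -/
theorem end_unit [IsAlgClosed k] (hC : IsFinite k C) (f : 𝟙_ C ⟶ 𝟙_ C) :
    ∃ c : k, f = c • 𝟙 (𝟙_ C) := by
  have := hC.unit
  have := hC.hom_finite (𝟙_ C) (𝟙_ C)
  obtain ⟨c, hc⟩ := endomorphism_simple_eq_smul_id k f
  exact ⟨c, hc.symm⟩

theorem simple_of_invertible (hC : IsFinite k C) {b : C} (hb : Invertible b) : Simple b := by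
  obtain ⟨Y, ⟨e⟩⟩ := hb
  exact C2.simple e hC.unit

theorem simple_tensor_of_invertible (hC : IsFinite k C) {b : C} (hb : Invertible b) {S : C}
    [Simple S] : Simple (b ⊗ S) := by
  obtain ⟨Y, ⟨e⟩⟩ := hb
  exact C2.simple_tensor e hC.unit S

theorem end_invertible [IsAlgClosed k] (hC : IsFinite k C) {b : C} (hb : Invertible b)
    (f : b ⟶ b) : ∃ c : k, f = c • 𝟙 b := by
  have := simple_of_invertible hC hb
  have := hC.hom_finite b b
  obtain ⟨c, hc⟩ := endomorphism_simple_eq_smul_id k f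
  exact ⟨c, hc.symm⟩

end Fin

end Pool.Agent.MUG
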