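import Pool.Agent.MUG.Iter
import Pool.Agent.MUG.C2

/-!
# Row C3: an invertible object of a finite tensor category has finite order
-/

open CategoryTheory MonoidalCategory Limits Abelian

universe w v u

namespace Pool.Agent.MUG

namespace C3aux

section gen

variable {C : Type u} [Category.{v} C] [MonoidalCategory C]

/-- `b^n ⊗ M`. -/
noncomputable def iterIso (b : C) : ∀ (n : ℕ) (M : C),
    iter (tensorLeft b) n M ≅ iter (tensorLeft b) n (𝟙_ C) ⊗ M
  | 0, M => (λ_ M).symm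
  | n + 1, M => iterIso b n (b ⊗ M) ≪≫ (α_ _ _ _).symm ≪≫
      whiskerRightIso (whiskerLeftIso _ (ρ_ b).symm ≪≫ (iterIso b n (b ⊗ 𝟙_ C)).symm) M

/-- `b^(m+n) = b^m ⊗ b^n`. -/
theorem iter_add {D : Type u} [Category.{v} D] (F : D ⥤ D) (m n : ℕ) (M : D) :
    iter F (m + n) M = iter F m (iter F n M) := by
  induction n generalizing M with
  | zero => rfl
  | succ n ih => exact ih (F.obj M)

theorem invertible_pow {b : C} (hb : Invertible b) (n : ℕ) :
    Invertible (iter (tensorLeft b) n (𝟙_ C)) := by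
  obtain ⟨c, ⟨i⟩⟩ := hb
  induction n with
  | zero => exact ⟨𝟙_ C, ⟨λ_ _⟩⟩
  | succ n ih =>
    obtain ⟨d, ⟨j⟩⟩ := ih
    refine ⟨c ⊗ d, ⟨?_⟩⟩
    exact whiskerRightIso (iterIso b n (b ⊗ 𝟙_ C) ≪≫ whiskerLeftIso _ (ρ_ b)) _ ≪≫
      (α_ _ _ _) ≪≫ whiskerLeftIso _ ((α_ _ _ _).symm ≪≫ whiskerRightIso i d ≪≫ λ_ d) ≪≫ j

theorem iter_of_iso {b : C} {N : ℕ} (h : Nonempty (iter (tensorLeft b) N (𝟙_ C) ≅ 𝟙_ C))
    (m : ℕ) (M : C) : Nonempty (iter (tensorLeft b) (N * m) M ≅ M) := by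
  obtain ⟨i⟩ := h
  induction m generalizing M with
  | zero => exact ⟨Iso.refl _⟩
  | succ m ih =>
    rw [Nat.mul_succ, iter_add]
    obtain ⟨j⟩ := ih (iter (tensorLeft b) N M)
    exact ⟨j ≪≫ iterIso b N M ≪≫ whiskerRightIso i M ≪≫ λ_ M⟩

end gen

end C3aux

open C3aux in
/-- Row C3 over the row C2 (`simple_of_invertible`). -/
theorem exists_order_of {k : Type*} [Field k] {C : Type u} [Category.{v} C] [Abelian C]
    [Linear k C] [MonoidalCategory C] [MonoidalPreadditive C] [RigidCategory C]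
    (hC : IsFinite k C) (hsimp : ∀ {b : C}, Invertible b → Simple b) {b : C}
    (hb : Invertible b) :
    ∃ N : ℕ, 0 < N ∧ ∀ (m : ℕ) (M : C), Nonempty (iter (tensorLeft b) (N * m) M ≅ M) := by
  obtain ⟨r, S, hS⟩ := hC.simples
  choose f hf using fun n : ℕ =>
    hS (iter (tensorLeft b) n (𝟙_ C)) (hsimp (invertible_pow hb n))
  obtain ⟨i, j, hij, hne⟩ : ∃ i j : ℕ, i < j ∧ f i = f j := by
    by_contra hcon
    push Not at hcon
    have hinj : Function.Injective f := by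
      intro a c h
      rcases lt_trichotomy a c with h1 | h1 | h1
      · exact absurd h (hcon a c h1)
      · exact h1
      · exact absurd h.symm (hcon c a h1)
    exact not_injective_infinite_finite f hinj
  obtain ⟨e₁⟩ := hf i
  obtain ⟨e₂⟩ := hf j
  rw [← hne] at e₂
  have e : iter (tensorLeft b) j (𝟙_ C) ≅ iter (tensorLeft b) i (𝟙_ C) := e₂ ≪≫ e₁.symm
  obtain ⟨c, ⟨ic⟩⟩ := invertible_pow hb i
  refine ⟨j - i, by omega, fun m M => iter_of_iso ⟨?_⟩ m M⟩
  have hj : j = (j - i) + i := by omega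
  rw [hj, iter_add] at e
  exact (ρ_ _).symm ≪≫ whiskerLeftIso _ ic.symm ≪≫ (α_ _ _ _).symm ≪≫
    whiskerRightIso ((iterIso b (j - i) (iter (tensorLeft b) i (𝟙_ C))).symm ≪≫ e) c ≪≫ ic

section Fin

variable {k : Type*} [Field k] {C : Type u} [Category.{v} C] [Abelian C] [Linear k C]
  [MonoidalCategory C] [MonoidalPreadditive C] [MonoidalLinear k C] [RigidCategory C]

/-- Row C3 (ORDER). -/
theorem exists_order (hC : IsFinite k C) {b : C} (hb : Invertible b) :
    ∃ N : ℕ, 0 < N ∧ ∀ (m : ℕ) (M : C), Nonempty (iter (tensorLeft b) (N * m) M ≅ M) :=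
  exists_order_of hC (fun h => simple_of_invertible hC h) hb

end Fin

end Pool.Agent.MUG
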