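import Pool.Agent.MUG.Mult
import Pool.Agent.MUG.C3
import Pool.Agent.MDC.Perron

/-! Row A2: a positive multiplicative dimension function on a braided finite tensor category
(helper27). -/

open CategoryTheory MonoidalCategory Limits Abelian Matrix

universe w w' v v' u u'

namespace Pool.Agent.MUG

set_option linter.unusedSectionVars false

open Pool.Agent.MDC

/-- A positive dimension function: invariant under isomorphisms, additive on short exact
sequences, multiplicative, positive on nonzero objects. -/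
structure DimFun {C : Type u} [Category.{v} C] [Abelian C] [MonoidalCategory C]
    (d : C → ℝ) : Prop where
  iso : ∀ {X Y : C}, (X ≅ Y) → d X = d Y
  add : ∀ {S : ShortComplex C}, S.ShortExact → d S.X₂ = d S.X₁ + d S.X₃
  mul : ∀ X Y : C, d (X ⊗ Y) = d X * d Y
  pos : ∀ {X : C}, ¬ IsZero X → 0 < d X
  one : d (𝟙_ C) = 1

section

variable {k : Type*} [Field k] {C : Type u} [Category.{v} C] [Abelian C] [Linear k C]
  [MonoidalCategory C] [MonoidalPreadditive C] [MonoidalLinear k C] [RigidCategory C]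

theorem ev_ne_zero (X : C) (hX : ¬ IsZero X) : ε_ X (Xᘁ) ≠ 0 := by
  intro h
  apply hX
  rw [IsZero.iff_id_eq_zero]
  have h1 := ExactPairing.evaluation_coevaluation X (Xᘁ)
  rw [h] at h1
  simp only [MonoidalPreadditive.whiskerLeft_zero, comp_zero] at h1
  have h2 : (λ_ X).inv ≫ ((λ_ X).hom ≫ (ρ_ X).inv) ≫ (ρ_ X).hom = 𝟙 X := by simp
  rw [← h2, ← h1]
  simp

theorem ev_epi (hC : IsFinite k C) (X : C) (hX : ¬ IsZero X) : Epi (ε_ X (Xᘁ)) := by
  have := hC.unit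
  exact epi_of_nonzero_to_simple (ev_ne_zero X hX)

theorem projective_tensorRight (P W : C) [hP : Projective P] : Projective (P ⊗ W) := by
  have : Projective ((tensorRight W).obj P) :=
    (tensorRightAdjunction W (Wᘁ)).map_projective P hP
  exact this

theorem ses_tensorRight {S : ShortComplex C} (hS : S.ShortExact) (W : C) :
    (S.map (tensorRight W)).ShortExact := hS.map_of_exact _

theorem ses_tensorLeft {S : ShortComplex C} (hS : S.ShortExact) (W : C) :
    (S.map (tensorLeft W)).ShortExact := hS.map_of_exact _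

variable (F : Fam C)

/-- The matrix of tensoring with `X` on the left. -/
noncomputable def tmat (k : Type*) [Field k] [Linear k C] (X : C) :
    Matrix (Fin F.n) (Fin F.n) ℝ := fun i j => (F.m k j (X ⊗ F.T i) : ℝ)

theorem tmat_iso {X Y : C} (e : X ≅ Y) : tmat F k X = tmat F k Y := by
  ext i j
  simp only [tmat]
  rw [F.m_iso (whiskerRightIso e (F.T i))]

theorem tmat_add (hC : FinCat k C) {S : ShortComplex C} (hS : S.ShortExact) :
    tmat F k S.X₂ = tmat F k S.X₁ + tmat F k S.X₃ := by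
  ext i j
  have := F.m_add hC (ses_tensorRight hS (F.T i)) j
  simp only [tmat, Matrix.add_apply]
  rw [← Nat.cast_add]
  exact congrArg _ this

theorem m_tensor [IsAlgClosed k] (hC : FinCat k C) (X W : C) (j : Fin F.n) :
    (F.m k j (X ⊗ W) : ℝ) = ∑ i, (F.m k i W : ℝ) * (F.m k j (X ⊗ F.T i) : ℝ) := by
  refine F.additive_eq hC (fun W => (F.m k j (X ⊗ W) : ℝ)) ?_ ?_ W
  · rintro Y Y' ⟨e⟩
    exact congrArg _ (F.m_iso (whiskerLeftIso X e) j)
  · intro S hS
    have := F.m_add hC (ses_tensorLeft hS X) j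
    rw [← Nat.cast_add]
    exact congrArg _ this

theorem m_tensor' [IsAlgClosed k] (hC : FinCat k C) (X W : C) (j : Fin F.n) :
    (F.m k j (X ⊗ W) : ℝ) = ∑ i, (F.m k i X : ℝ) * (F.m k j (F.T i ⊗ W) : ℝ) := by
  refine F.additive_eq hC (fun X => (F.m k j (X ⊗ W) : ℝ)) ?_ ?_ X
  · rintro Y Y' ⟨e⟩
    exact congrArg _ (F.m_iso (whiskerRightIso e W) j)
  · intro S hS
    have := F.m_add hC (ses_tensorRight hS W) j
    rw [← Nat.cast_add]
    exact congrArg _ this

theorem tmat_mul [IsAlgClosed k] (hC : FinCat k C) (X Y : C) :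
    tmat F k X * tmat F k Y = tmat F k (Y ⊗ X) := by
  ext i j
  rw [Matrix.mul_apply]
  simp only [tmat]
  rw [F.m_iso (α_ Y X (F.T i)), m_tensor F hC Y (X ⊗ F.T i) j]

theorem tmat_comm [IsAlgClosed k] [BraidedCategory C] (hC : FinCat k C) (X Y : C) :
    tmat F k X * tmat F k Y = tmat F k Y * tmat F k X := by
  rw [tmat_mul F hC, tmat_mul F hC, tmat_iso F (β_ Y X)]

/-- The sum of the matrices of the simple objects. -/
noncomputable def tsum (k : Type*) [Field k] [Linear k C] : Matrix (Fin F.n) (Fin F.n) ℝ :=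
  ∑ i, tmat F k (F.T i)

theorem exists_m_pos_of_epi (hC : FinCat k C) (i : Fin F.n) {X : C} (f : X ⟶ F.T i) [Epi f] :
    0 < F.m k i X :=
  (F.m_pos_iff hC i X).2 ⟨X, 𝟙 X, f, inferInstance, inferInstance⟩

theorem tsum_pos [IsAlgClosed k] (hC : IsFinite k C) (i j : Fin F.n) : 0 < tsum F k i j := by
  have hC' := hC.finCat
  have := F.simple i
  have := F.simple j
  have hev := ev_epi hC (F.T i) (Simple.not_isZero _)
  -- T j is a quotient of (T j ⊗ T iᘁ) ⊗ T i
  let f : (F.T j ⊗ (F.T i)ᘁ) ⊗ F.T i ⟶ F.T j :=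
    (α_ _ _ _).hom ≫ (F.T j ◁ ε_ (F.T i) ((F.T i)ᘁ)) ≫ (ρ_ _).hom
  have hf1 : Epi (F.T j ◁ ε_ (F.T i) ((F.T i)ᘁ)) :=
    inferInstanceAs (Epi ((tensorLeft (F.T j)).map (ε_ (F.T i) ((F.T i)ᘁ))))
  have hf : Epi f := epi_comp _ _
  have h1 := exists_m_pos_of_epi F hC' j f
  have h2 := m_tensor' F hC' (F.T j ⊗ (F.T i)ᘁ) (F.T i) j
  have h3 : (0 : ℝ) < (F.m k j ((F.T j ⊗ (F.T i)ᘁ) ⊗ F.T i) : ℝ) := by exact_mod_cast h1
  rw [h2] at h3
  obtain ⟨l, -, hl⟩ : ∃ l ∈ Finset.univ, 0 <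
      (F.m k l (F.T j ⊗ (F.T i)ᘁ) : ℝ) * (F.m k j (F.T l ⊗ F.T i) : ℝ) := by
    by_contra hc
    push Not at hc
    exact absurd h3 (not_lt.2 (Finset.sum_nonpos fun l hl => hc l hl))
  have h4 : 0 < (F.m k j (F.T l ⊗ F.T i) : ℝ) := by
    have h5 : (0 : ℝ) ≤ (F.m k l (F.T j ⊗ (F.T i)ᘁ) : ℝ) := Nat.cast_nonneg _
    exact pos_of_mul_pos_right hl h5
  rw [tsum, Matrix.sum_apply]
  exact Finset.sum_pos' (fun l _ => Nat.cast_nonneg _) ⟨l, Finset.mem_univ l, h4⟩

theorem tsum_comm [IsAlgClosed k] [BraidedCategory C] (hC : FinCat k C) (X : C) :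
    tsum F k * tmat F k X = tmat F k X * tsum F k := by
  rw [tsum, Finset.sum_mul, Finset.mul_sum]
  exact Finset.sum_congr rfl fun i _ => tmat_comm F hC _ _

theorem tmat_mulVec_pos (hC : IsFinite k C) {v : Fin F.n → ℝ} (hv : ∀ i, 0 < v i) {X : C}
    (hX : ¬ IsZero X) : tmat F k X *ᵥ v ≠ 0 := by
  have hC' := hC.finCat
  have := hC.unit
  obtain ⟨i, ⟨e⟩⟩ := F.all (𝟙_ C) inferInstance
  have h1 : ¬ IsZero (X ⊗ F.T i) := fun h => hX (h.of_iso ((ρ_ X).symm ≪≫ whiskerLeftIso X e))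
  have h2 := F.len_pos hC' h1
  obtain ⟨j, -, hj⟩ := Finset.exists_ne_zero_of_sum_ne_zero h2.ne'
  intro h3
  have h4 : 0 < (tmat F k X *ᵥ v) i := by
    refine Finset.sum_pos' (fun l _ => mul_nonneg (Nat.cast_nonneg _) (hv l).le)
      ⟨j, Finset.mem_univ j, mul_pos ?_ (hv j)⟩
    exact_mod_cast Nat.pos_of_ne_zero hj
  rw [h3] at h4
  exact lt_irrefl _ h4

theorem fam_nonempty (hC : IsFinite k C) : Nonempty (Fin F.n) := by
  have := hC.unit
  obtain ⟨i, -⟩ := F.all (𝟙_ C) inferInstance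
  exact ⟨i⟩

/-- The adjunction of tensoring on the right with a dual pair, `k`-linearly. -/
noncomputable def trLin (X Y Y' Z : C) [ExactPairing Y Y'] :
    (X ⊗ Y ⟶ Z) ≃ₗ[k] (X ⟶ Z ⊗ Y') :=
  { tensorRightHomEquiv X Y Y' Z with
    map_add' := fun f g => by
      change (ρ_ _).inv ≫ _ ◁ η_ _ _ ≫ (α_ _ _ _).inv ≫ (f + g) ▷ _ =
        (ρ_ _).inv ≫ _ ◁ η_ _ _ ≫ (α_ _ _ _).inv ≫ f ▷ _ +
        (ρ_ _).inv ≫ _ ◁ η_ _ _ ≫ (α_ _ _ _).inv ≫ g ▷ _
      simp only [MonoidalPreadditive.add_whiskerRight, Preadditive.comp_add]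
    map_smul' := fun c f => by
      change (ρ_ _).inv ≫ _ ◁ η_ _ _ ≫ (α_ _ _ _).inv ≫ (c • f) ▷ _ =
        c • ((ρ_ _).inv ≫ _ ◁ η_ _ _ ≫ (α_ _ _ _).inv ≫ f ▷ _)
      simp only [MonoidalLinear.smul_whiskerRight, Linear.comp_smul] }

/-- The adjunction of tensoring on the left with a dual pair, `k`-linearly. -/
noncomputable def tlLin (X Y Y' Z : C) [ExactPairing Y Y'] :
    (Y' ⊗ X ⟶ Z) ≃ₗ[k] (X ⟶ Y ⊗ Z) :=
  { tensorLeftHomEquiv X Y Y' Z with
    map_add' := fun f g => by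
      change (λ_ _).inv ≫ η_ _ _ ▷ _ ≫ (α_ _ _ _).hom ≫ _ ◁ (f + g) =
        (λ_ _).inv ≫ η_ _ _ ▷ _ ≫ (α_ _ _ _).hom ≫ _ ◁ f +
        (λ_ _).inv ≫ η_ _ _ ▷ _ ≫ (α_ _ _ _).hom ≫ _ ◁ g
      simp only [MonoidalPreadditive.whiskerLeft_add, Preadditive.comp_add]
    map_smul' := fun c f => by
      change (λ_ _).inv ≫ η_ _ _ ▷ _ ≫ (α_ _ _ _).hom ≫ _ ◁ (c • f) =
        c • ((λ_ _).inv ≫ η_ _ _ ▷ _ ≫ (α_ _ _ _).hom ≫ _ ◁ f)
      simp only [MonoidalLinear.whiskerLeft_smul, Linear.comp_smul] }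

/-- `dim Hom(-, Z)` is additive on short exact sequences with projective third term. -/
theorem finrank_hom_shortExact' (hfin : ∀ X Y : C, Module.Finite k (X ⟶ Y)) {Z : C}
    {S : ShortComplex C} (hS : S.ShortExact) [Projective S.X₃] :
    Module.finrank k (S.X₂ ⟶ Z) = Module.finrank k (S.X₁ ⟶ Z) + Module.finrank k (S.X₃ ⟶ Z) := by
  have := hS.mono_f
  have := hS.epi_g
  have := hfin S.X₂ Z
  have := hfin S.X₁ Z
  have := hfin S.X₃ Z
  -- a retraction of `f`
  let sec : S.X₃ ⟶ S.X₂ := Projective.factorThru (𝟙 S.X₃) S.g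
  have hsec : sec ≫ S.g = 𝟙 S.X₃ := Projective.factorThru_comp _ _
  have h0 : (𝟙 S.X₂ - S.g ≫ sec) ≫ S.g = 0 := by
    rw [Preadditive.sub_comp, Category.id_comp, Category.assoc, hsec, Category.comp_id, sub_self]
  let r : S.X₂ ⟶ S.X₁ := hS.exact.lift (𝟙 S.X₂ - S.g ≫ sec) h0
  have hr : r ≫ S.f = 𝟙 S.X₂ - S.g ≫ sec := hS.exact.lift_f _ _
  have hr' : S.f ≫ r = 𝟙 S.X₁ := by
    rw [← cancel_mono S.f, Category.assoc, hr, Preadditive.comp_sub, Category.comp_id,
      ← Category.assoc, S.zero, zero_comp, sub_zero, Category.id_comp]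
  have hsurj : Function.Surjective (Linear.leftComp k Z S.f) := fun u =>
    ⟨r ≫ u, by
      show S.f ≫ r ≫ u = u
      rw [← Category.assoc, hr', Category.id_comp]⟩
  have hinj : Function.Injective (Linear.leftComp k Z S.g) := by
    intro u v huv
    have : S.g ≫ u = S.g ≫ v := huv
    exact (cancel_epi S.g).1 this
  have h1 := LinearMap.finrank_range_add_finrank_ker (Linear.leftComp k Z S.f)
  rw [LinearMap.range_eq_top.2 hsurj, finrank_top] at h1
  have hker : LinearMap.ker (Linear.leftComp k Z S.f) =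
      LinearMap.range (Linear.leftComp k Z S.g) := by
    ext u
    constructor
    · intro hu
      have hu' : S.f ≫ u = 0 := hu
      exact ⟨hS.exact.desc u hu', hS.exact.g_desc u hu'⟩
    · rintro ⟨w, rfl⟩
      show S.f ≫ S.g ≫ w = 0
      rw [← Category.assoc, S.zero, zero_comp]
  rw [hker, LinearMap.finrank_range_of_inj hinj] at h1
  omega

/-- The multiplicities of the dual are additive. -/
theorem m_rdual_add (hC : IsFinite k C) (i : Fin F.n) {S : ShortComplex C} (hS : S.ShortExact) :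
    F.m k i (S.X₂ᘁ) = F.m k i (S.X₁ᘁ) + F.m k i (S.X₃ᘁ) := by
  have hP := (F.cov i).proj
  have hfin := hC.hom_finite
  have key : ∀ X : C, F.m k i (Xᘁ) = Module.finrank k (F.P i ⊗ X ⟶ 𝟙_ C) := by
    intro X
    rw [Fam.m, (trLin (k := k) (F.P i) X (Xᘁ) (𝟙_ C)).finrank_eq]
    exact Fam.finrank_congr_right _ (λ_ _).symm
  rw [key, key, key]
  have h1 := ses_tensorLeft hS (F.P i)
  have h2 : Projective (S.map (tensorLeft (F.P i))).X₃ := projective_tensorRight (F.P i) S.X₃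
  exact finrank_hom_shortExact' hfin h1

/-- Existence of the dimension function. -/
theorem exists_dimFun [IsAlgClosed k] [BraidedCategory C] (hC : IsFinite k C) :
    ∃ d : C → ℝ, DimFun d := by
  have hC' := hC.finCat
  obtain ⟨F⟩ := exists_fam hC'
  have := fam_nonempty F hC
  have hMpos := tsum_pos F hC
  obtain ⟨v, l, hv, hl, hMv⟩ := perron_exists (tsum F k) hMpos
  have hex : ∀ X : C, ∃ d : ℝ, 0 ≤ d ∧ tmat F k X *ᵥ v = d • v := fun X =>
    perron_comm (tsum F k) hMpos hv hl hMv (tmat F k X) (fun i j => Nat.cast_nonneg _)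
      (tsum_comm F hC' X)
  choose d hd0 hd using hex
  obtain ⟨i0⟩ := this
  have huniq : ∀ a b : ℝ, a • v = b • v → a = b := by
    intro a b hab
    have := congrFun hab i0
    simp only [Pi.smul_apply, smul_eq_mul] at this
    exact mul_right_cancel₀ (hv i0).ne' this
  have dadd : ∀ S : ShortComplex C, S.ShortExact → d S.X₂ = d S.X₁ + d S.X₃ := by
    intro S hS
    apply huniq
    rw [add_smul, ← hd, ← hd, ← hd, tmat_add F hC' hS, Matrix.add_mulVec]
  have dmul : ∀ X Y : C, d (X ⊗ Y) = d X * d Y := by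
    intro X Y
    apply huniq
    rw [← hd, tmat_iso F (β_ X Y), ← tmat_mul F hC', ← Matrix.mulVec_mulVec, hd,
      Matrix.mulVec_smul, hd, smul_smul, mul_comm]
  have dpos : ∀ X : C, ¬ IsZero X → 0 < d X := by
    intro X hX
    refine lt_of_le_of_ne (hd0 X) ?_
    intro h
    have h1 := hd X
    rw [← h, zero_smul] at h1
    exact tmat_mulVec_pos F hC hv hX h1
  have diso : ∀ {X Y : C}, (X ≅ Y) → d X = d Y := by
    intro X Y e
    apply huniq
    rw [← hd, ← hd, tmat_iso F e]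
  refine ⟨d, diso, fun {S} hS => dadd S hS, dmul, fun {X} hX => dpos X hX, ?_⟩
  have h1 := dmul (𝟙_ C) (𝟙_ C)
  rw [diso (λ_ (𝟙_ C))] at h1
  have h2 := dpos (𝟙_ C) (by have := hC.unit; exact Simple.not_isZero _)
  exact (mul_left_cancel₀ h2.ne' (by rw [← h1, mul_one])).symm

namespace DimFun

variable {d : C → ℝ} (hd : DimFun d)

include hd

/-- `d X = ∑ m_i(X) d(T_i)`. -/
theorem sum [IsAlgClosed k] (hC : FinCat k C) (X : C) :
    d X = ∑ i, (F.m k i X : ℝ) * d (F.T i) :=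
  F.additive_eq hC d (fun _ _ ⟨e⟩ => hd.iso e) (fun _ hS => hd.add hS) X

theorem nonneg [IsAlgClosed k] (hC : FinCat k C) (X : C) : 0 ≤ d X := by
  obtain ⟨F⟩ := exists_fam hC
  rw [hd.sum F hC]
  refine Finset.sum_nonneg fun i _ => mul_nonneg (Nat.cast_nonneg _) ?_
  have := F.simple i
  exact (hd.pos (Simple.not_isZero _)).le

theorem zero [IsAlgClosed k] (hC : FinCat k C) {X : C} (hX : IsZero X) : d X = 0 := by
  obtain ⟨F⟩ := exists_fam hC
  rw [hd.sum F hC]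
  exact Finset.sum_eq_zero fun i _ => by rw [F.m_zero hX, Nat.cast_zero, zero_mul]

/-- Objects with the same multiplicities have the same dimension. -/
theorem congr [IsAlgClosed k] (hC : FinCat k C) {X Y : C} (h : ∀ i, F.m k i X = F.m k i Y) :
    d X = d Y := by
  rw [hd.sum F hC X, hd.sum F hC Y]
  exact Finset.sum_congr rfl fun i _ => by rw [h]

theorem eigen [IsAlgClosed k] (hC : FinCat k C) (ψ : C → ℝ)
    (hψ : ∀ X, ψ X = ∑ i, (F.m k i X : ℝ) * ψ (F.T i)) (hψ0 : ∀ X Y, ψ (X ⊗ Y) = ψ X * ψ Y) :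
    tsum F k *ᵥ (fun i => ψ (F.T i)) = (∑ l, ψ (F.T l)) • (fun i => ψ (F.T i)) := by
  ext i
  simp only [Pi.smul_apply, smul_eq_mul]
  change ∑ j, tsum F k i j * ψ (F.T j) = _
  have h1 : ∀ j, tsum F k i j = ∑ l, (F.m k j (F.T l ⊗ F.T i) : ℝ) := by
    intro j
    rw [tsum, Matrix.sum_apply]
    rfl
  simp only [h1, Finset.sum_mul]
  rw [Finset.sum_comm]
  refine Finset.sum_congr rfl fun l _ => ?_
  rw [← hψ, hψ0]

end DimFun

/-- Multiplicities of the right dual through `Hom(P ⊗ X, 1)`. -/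
theorem m_rdual (i : Fin F.n) (X : C) :
    F.m k i (Xᘁ) = Module.finrank k (F.P i ⊗ X ⟶ 𝟙_ C) := by
  rw [Fam.m, (trLin (k := k) (F.P i) X (Xᘁ) (𝟙_ C)).finrank_eq]
  exact Fam.finrank_congr_right _ (λ_ _).symm

theorem m_rdual_iso (i : Fin F.n) {X Y : C} (e : X ≅ Y) :
    F.m k i (Xᘁ) = F.m k i (Yᘁ) := by
  rw [m_rdual, m_rdual]
  exact Fam.finrank_congr_left _ (whiskerLeftIso _ e)

theorem m_rdual_tensor (i : Fin F.n) (X Y : C) :
    F.m k i ((X ⊗ Y)ᘁ) = F.m k i (Yᘁ ⊗ Xᘁ) := by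
  rw [m_rdual, Fam.finrank_congr_left _ (α_ (F.P i) X Y).symm,
    (trLin (k := k) (F.P i ⊗ X) Y (Yᘁ) (𝟙_ C)).finrank_eq,
    Fam.finrank_congr_right _ (λ_ (Yᘁ)),
    (trLin (k := k) (F.P i) X (Xᘁ) (Yᘁ)).finrank_eq]
  rfl

theorem rdual_not_isZero {X : C} (hX : ¬ IsZero X) : ¬ IsZero (Xᘁ) := by
  intro h
  apply ev_ne_zero X hX
  have h1 : IsZero (Xᘁ ⊗ X) := by
    have := (tensorRight X).map_isZero h
    exact this
  exact h1.eq_of_src _ _

namespace DimFun

variable {d : C → ℝ} (hd : DimFun d)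

include hd

theorem rdual [IsAlgClosed k] (hC : IsFinite k C) (X : C) : d (Xᘁ) = d X := by
  have hC' := hC.finCat
  obtain ⟨F⟩ := exists_fam hC'
  have hne := fam_nonempty F hC
  have hMpos := tsum_pos F hC
  have hψadd : ∀ X : C, d (Xᘁ) = ∑ i, (F.m k i X : ℝ) * d ((F.T i)ᘁ) := by
    refine F.additive_eq hC' (fun X => d (Xᘁ)) ?_ ?_
    · rintro X Y ⟨e⟩
      exact hd.congr F hC' fun i => m_rdual_iso F i e
    · intro S hS
      show d (S.X₂ᘁ) = d (S.X₁ᘁ) + d (S.X₃ᘁ)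
      rw [hd.sum F hC' (S.X₂ᘁ), hd.sum F hC' (S.X₁ᘁ), hd.sum F hC' (S.X₃ᘁ),
        ← Finset.sum_add_distrib]
      refine Finset.sum_congr rfl fun i _ => ?_
      rw [m_rdual_add F hC i hS, Nat.cast_add, add_mul]
  have hmul : ∀ X Y : C, d ((X ⊗ Y)ᘁ) = d (Xᘁ) * d (Yᘁ) := by
    intro X Y
    rw [hd.congr F hC' fun i => m_rdual_tensor F i X Y, hd.mul, mul_comm]
  have e1 := hd.eigen F hC' d (hd.sum F hC') hd.mul
  have e2 := hd.eigen F hC' (fun X => d (Xᘁ)) hψadd hmul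
  have hT : ∀ i, ¬ IsZero (F.T i) := fun i => by have := F.simple i; exact Simple.not_isZero _
  obtain ⟨c, hc, hcu⟩ := perron_unique (tsum F k) hMpos (v := fun i => d (F.T i))
    (w := fun i => d ((F.T i)ᘁ)) (fun i => hd.pos (hT i))
    (fun i => hd.pos (rdual_not_isZero (hT i))) e1 e2
  have := hC.unit
  obtain ⟨i1, ⟨e⟩⟩ := F.all (𝟙_ C) inferInstance
  have hc1 : c = 1 := by
    have h1 := congrFun hcu i1
    simp only [Pi.smul_apply, smul_eq_mul] at h1
    have h2 : d (F.T i1) = 1 := by rw [← hd.iso e, hd.one]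
    have h3 : d ((F.T i1)ᘁ) = 1 := by
      rw [← hd.one]
      refine hd.congr F hC' fun i => ?_
      rw [m_rdual]
      exact Fam.finrank_congr_left _ (whiskerLeftIso _ e.symm ≪≫ ρ_ _)
    rw [h2, h3, mul_one] at h1
    exact h1.symm
  rw [hψadd X, hd.sum F hC' X]
  refine Finset.sum_congr rfl fun i _ => ?_
  have h1 := congrFun hcu i
  simp only [Pi.smul_apply, smul_eq_mul, hc1, one_mul] at h1
  rw [h1]

theorem ldual [IsAlgClosed k] (hC : IsFinite k C) (X : C) : d (ᘁX) = d X := by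
  rw [← hd.rdual hC (ᘁX)]
  let e := rightDualIso (RightRigidCategory.rightDual (ᘁX)).exact
    (inferInstance : ExactPairing (ᘁX) X)
  exact (hd.iso e)

theorem iter_tensorLeft (b : C) (n : ℕ) (M : C) :
    d (iter (tensorLeft b) n M) = d b ^ n * d M := by
  induction n generalizing M with
  | zero => simp [iter]
  | succ n ih =>
    change d (iter (tensorLeft b) n (b ⊗ M)) = _
    rw [ih, hd.mul, pow_succ]
    ring

theorem invertible [IsAlgClosed k] (hC : IsFinite k C) {b : C} (hb : Invertible b) :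
    d b = 1 := by
  obtain ⟨N, hN, h⟩ := exists_order hC hb
  obtain ⟨e⟩ := h 1 (𝟙_ C)
  have h1 := hd.iso e
  rw [hd.iter_tensorLeft, hd.one, mul_one, mul_one] at h1
  exact (pow_eq_one_iff_of_nonneg (hd.nonneg hC.finCat b) hN.ne').1 h1

end DimFun

end

end Pool.Agent.MUG
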