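import Pool.Agent.MUG.B0
import Pool.Agent.MUG.C2

open CategoryTheory MonoidalCategory Limits Abelian

universe w v u

namespace Pool.Agent.MUG

section Core

variable {C : Type u} [Category.{v} C] [Abelian C] [MonoidalCategory C]
  [MonoidalPreadditive C] [RigidCategory C] [BraidedCategory C]

/-- Double braiding minus the identity. -/
noncomputable def dbr (W Y : C) : W ⊗ Y ⟶ W ⊗ Y := (β_ W Y).hom ≫ (β_ Y W).hom - 𝟙 (W ⊗ Y)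

theorem dbr_eq_zero {W Y : C} : dbr W Y = 0 ↔ Comm W Y := by
  rw [dbr, sub_eq_zero, Comm]

theorem dbr_nat_left {K W : C} (f : K ⟶ W) (Y : C) : (f ▷ Y) ≫ dbr W Y = dbr K Y ≫ (f ▷ Y) := by
  simp only [dbr, Preadditive.comp_sub, Preadditive.sub_comp, Category.comp_id, Category.id_comp,
    Category.assoc, BraidedCategory.braiding_naturality_left_assoc,
    BraidedCategory.braiding_naturality_right]

theorem dbr_nat_right (W : C) {Y Y' : C} (f : Y ⟶ Y') :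
    (W ◁ f) ≫ dbr W Y' = dbr W Y ≫ (W ◁ f) := by
  simp only [dbr, Preadditive.comp_sub, Preadditive.sub_comp, Category.comp_id, Category.id_comp,
    Category.assoc, BraidedCategory.braiding_naturality_right_assoc,
    BraidedCategory.braiding_naturality_left]

theorem exists_D {W b : C} (i : 𝟙_ C ⟶ W) (p : W ⟶ b) {K Q : C} (κ : K ⟶ W) (π : W ⟶ Q)
    (w₁ : κ ≫ p = 0) (h₁ : (ShortComplex.mk κ p w₁).ShortExact)
    (w₂ : i ≫ π = 0) (h₂ : (ShortComplex.mk i π w₂).ShortExact) (Y : C)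
    (hK : Comm K Y) (hQ : Comm Q Y) :
    ∃ D : b ⊗ Y ⟶ Y, dbr W Y = (p ▷ Y) ≫ D ≫ (λ_ Y).inv ≫ (i ▷ Y) := by
  have e₁ := h₁.map_of_exact (tensorRight Y)
  have e₂ := h₂.map_of_exact (tensorRight Y)
  have z₁ : (κ ▷ Y) ≫ dbr W Y = 0 := by
    rw [dbr_nat_left, dbr_eq_zero.2 hK, zero_comp]
  have z₂ : dbr W Y ≫ (π ▷ Y) = 0 := by
    rw [← dbr_nat_left, dbr_eq_zero.2 hQ, comp_zero]
  obtain ⟨E, hE⟩ : ∃ E : b ⊗ Y ⟶ W ⊗ Y, (p ▷ Y) ≫ E = dbr W Y :=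
    ⟨_, (CokernelCofork.IsColimit.desc' e₁.gIsCokernel (dbr W Y) z₁).2⟩
  have hepi : Epi (p ▷ Y) := e₁.epi_g
  have z₃ : E ≫ (π ▷ Y) = 0 := by
    rw [← cancel_epi (p ▷ Y), comp_zero, ← Category.assoc, hE, z₂]
  obtain ⟨D, hD⟩ : ∃ D : b ⊗ Y ⟶ 𝟙_ C ⊗ Y, D ≫ (i ▷ Y) = E :=
    ⟨_, (KernelFork.IsLimit.lift' e₂.fIsKernel E z₃).2⟩
  refine ⟨D ≫ (λ_ Y).hom, ?_⟩
  rw [← hE, ← hD]
  simp

section

variable {W b : C} (i : 𝟙_ C ⟶ W) (p : W ⟶ b) [Mono i] [Epi p]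

instance instMonoWR {X Y : C} (f : X ⟶ Y) [Mono f] (Z : C) : Mono (f ▷ Z) :=
  inferInstanceAs (Mono ((tensorRight Z).map f))

instance instEpiWR {X Y : C} (f : X ⟶ Y) [Epi f] (Z : C) : Epi (f ▷ Z) :=
  inferInstanceAs (Epi ((tensorRight Z).map f))

instance instMonoWL {X Y : C} (f : X ⟶ Y) [Mono f] (Z : C) : Mono (Z ◁ f) :=
  inferInstanceAs (Mono ((tensorLeft Z).map f))

instance instEpiWL {X Y : C} (f : X ⟶ Y) [Epi f] (Z : C) : Epi (Z ◁ f) :=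
  inferInstanceAs (Epi ((tensorLeft Z).map f))

/-- Cancellation. -/
theorem core_cancel {Y Y' : C} {f g : b ⊗ Y ⟶ Y'}
    (h : (p ▷ Y) ≫ f ≫ (λ_ Y').inv ≫ (i ▷ Y') = (p ▷ Y) ≫ g ≫ (λ_ Y').inv ≫ (i ▷ Y')) :
    f = g := by
  rw [cancel_epi] at h
  have : Mono ((λ_ Y').inv ≫ (i ▷ Y')) := inferInstance
  exact (cancel_mono ((λ_ Y').inv ≫ (i ▷ Y'))).1 h

theorem core_nat {Y Y' : C} (f : Y ⟶ Y') {D : b ⊗ Y ⟶ Y} {D' : b ⊗ Y' ⟶ Y'}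
    (h : dbr W Y = (p ▷ Y) ≫ D ≫ (λ_ Y).inv ≫ (i ▷ Y))
    (h' : dbr W Y' = (p ▷ Y') ≫ D' ≫ (λ_ Y').inv ≫ (i ▷ Y')) :
    (b ◁ f) ≫ D' = D ≫ f := by
  apply core_cancel i p
  have e := dbr_nat_right W f
  rw [h, h'] at e
  calc (p ▷ Y) ≫ ((b ◁ f) ≫ D') ≫ (λ_ Y').inv ≫ (i ▷ Y')
      = (W ◁ f) ≫ (p ▷ Y') ≫ D' ≫ (λ_ Y').inv ≫ (i ▷ Y') := by
        rw [whisker_exchange_assoc, Category.assoc]
    _ = ((p ▷ Y) ≫ D ≫ (λ_ Y).inv ≫ (i ▷ Y)) ≫ (W ◁ f) := e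
    _ = (p ▷ Y) ≫ (D ≫ f) ≫ (λ_ Y').inv ≫ (i ▷ Y') := by
        have e₃ : (i ▷ Y) ≫ (W ◁ f) = (𝟙_ C ◁ f) ≫ (i ▷ Y') := (whisker_exchange i f).symm
        have e₄ : f ≫ (λ_ Y').inv = (λ_ Y).inv ≫ (𝟙_ C ◁ f) := leftUnitor_inv_naturality f
        rw [Category.assoc, Category.assoc, Category.assoc, e₃, ← reassoc_of% e₄,
          Category.assoc]

theorem dbr_tensor (W Y Y' : C) :
    dbr W (Y ⊗ Y') = (α_ W Y Y').inv ≫ (dbr W Y ▷ Y') ≫ (α_ W Y Y').hom +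
      (α_ W Y Y').inv ≫ ((β_ W Y).hom ▷ Y') ≫ (α_ Y W Y').hom ≫ (Y ◁ dbr W Y') ≫
        (α_ Y W Y').inv ≫ ((β_ Y W).hom ▷ Y') ≫ (α_ W Y Y').hom := by
  have h₁ : ∀ A B : C, (β_ A B).hom ≫ (β_ B A).hom = dbr A B + 𝟙 (A ⊗ B) := by
    intro A B
    rw [dbr, sub_add_cancel]
  have h₂ : (β_ W (Y ⊗ Y')).hom ≫ (β_ (Y ⊗ Y') W).hom = (α_ W Y Y').inv ≫
      ((β_ W Y).hom ▷ Y') ≫ (α_ Y W Y').hom ≫ (Y ◁ ((β_ W Y').hom ≫ (β_ Y' W).hom)) ≫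
        (α_ Y W Y').inv ≫ ((β_ Y W).hom ▷ Y') ≫ (α_ W Y Y').hom := by
    simp
  rw [dbr, h₂, h₁ W Y', MonoidalPreadditive.whiskerLeft_add, whiskerLeft_id]
  simp only [Preadditive.comp_add, Preadditive.add_comp, Category.id_comp,
    Iso.hom_inv_id_assoc]
  have h₃ : (β_ W Y).hom ▷ Y' ≫ (β_ Y W).hom ▷ Y' ≫ (α_ W Y Y').hom =
      (dbr W Y ▷ Y') ≫ (α_ W Y Y').hom + (α_ W Y Y').hom := by
    rw [← comp_whiskerRight_assoc, h₁ W Y, MonoidalPreadditive.add_whiskerRight,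
      Preadditive.add_comp, id_whiskerRight, Category.id_comp]
  rw [h₃, Preadditive.comp_add, Iso.inv_hom_id]
  abel

theorem core_leib {Y Y' : C} {D : b ⊗ Y ⟶ Y} {D' : b ⊗ Y' ⟶ Y'}
    {D'' : b ⊗ (Y ⊗ Y') ⟶ Y ⊗ Y'}
    (h : dbr W Y = (p ▷ Y) ≫ D ≫ (λ_ Y).inv ≫ (i ▷ Y))
    (h' : dbr W Y' = (p ▷ Y') ≫ D' ≫ (λ_ Y').inv ≫ (i ▷ Y'))
    (h'' : dbr W (Y ⊗ Y') = (p ▷ (Y ⊗ Y')) ≫ D'' ≫ (λ_ (Y ⊗ Y')).inv ≫ (i ▷ (Y ⊗ Y'))) :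
    D'' = (α_ b Y Y').inv ≫ (D ▷ Y') +
      (α_ b Y Y').inv ≫ ((β_ b Y).hom ▷ Y') ≫ (α_ Y b Y').hom ≫ (Y ◁ D') := by
  apply core_cancel i p
  rw [← h'', dbr_tensor, h, h', Preadditive.add_comp, Preadditive.comp_add]
  congr 1
  · simp
  · have e₁ : (Y ◁ i) ≫ (β_ Y W).hom = (β_ Y (𝟙_ C)).hom ≫ (i ▷ Y) :=
      BraidedCategory.braiding_naturality_right _ _
    have e₂ : (p ▷ Y) ≫ (β_ b Y).hom = (β_ W Y).hom ≫ (Y ◁ p) :=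
      BraidedCategory.braiding_naturality_left _ _
    have e₃ : (Y ◁ (λ_ Y').inv) ≫ (α_ Y (𝟙_ C) Y').inv ≫ ((β_ Y (𝟙_ C)).hom ▷ Y') ≫
        (α_ (𝟙_ C) Y Y').hom = (λ_ (Y ⊗ Y')).inv := by
      simp
    calc (α_ W Y Y').inv ≫ ((β_ W Y).hom ▷ Y') ≫ (α_ Y W Y').hom ≫
        (Y ◁ ((p ▷ Y') ≫ D' ≫ (λ_ Y').inv ≫ (i ▷ Y'))) ≫
        (α_ Y W Y').inv ≫ ((β_ Y W).hom ▷ Y') ≫ (α_ W Y Y').hom
        = (α_ W Y Y').inv ≫ (((β_ W Y).hom ≫ (Y ◁ p)) ▷ Y') ≫ (α_ Y b Y').hom ≫ (Y ◁ D') ≫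
          (Y ◁ (λ_ Y').inv) ≫ (α_ Y (𝟙_ C) Y').inv ≫
            (((Y ◁ i) ≫ (β_ Y W).hom) ▷ Y') ≫ (α_ W Y Y').hom := by
          simp only [whiskerLeft_comp, comp_whiskerRight, Category.assoc,
            associator_inv_naturality_middle_assoc, associator_naturality_middle_assoc]
      _ = (α_ W Y Y').inv ≫ (((p ▷ Y) ≫ (β_ b Y).hom) ▷ Y') ≫ (α_ Y b Y').hom ≫ (Y ◁ D') ≫
          (Y ◁ (λ_ Y').inv) ≫ (α_ Y (𝟙_ C) Y').inv ≫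
            (((β_ Y (𝟙_ C)).hom ≫ (i ▷ Y)) ▷ Y') ≫ (α_ W Y Y').hom := by
          rw [e₁, e₂]
      _ = _ := by
          simp only [comp_whiskerRight, Category.assoc, associator_naturality_left]
          rw [← reassoc_of% e₃]
          simp only [Category.assoc, associator_inv_naturality_left_assoc]

end

end Core

section VSel

variable {k : Type*} [Field k] {Z : Type u} [Category.{v} Z] [Abelian Z] [Linear k Z]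
  [MonoidalCategory Z] [MonoidalPreadditive Z] [MonoidalLinear k Z] [RigidCategory Z]
  [BraidedCategory Z]

/-- Row Q4b. -/
theorem vsel_b (hZ : IsFinite k Z) (P : ObjectProperty Z) [hP : TensorSub P]
    {V c₁ c₂ : Z} (i : c₁ ⟶ V) (p : V ⟶ c₂) [Mono i] [Epi p]
    (h₁ : Invertible c₁) (h₂ : Invertible c₂)
    (hc₁ : centralizer P c₁) (hc₂ : centralizer P c₂)
    (hK : centralizer P (kernel p)) (hQ : centralizer P (cokernel i))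
    (hV : ¬ centralizer P V) :
    ∃ (b : P.FullSubcategory) (L : Leib b), Invertible b ∧ Transp b ∧ L.Nonzero ∧
      ∀ Y : P.FullSubcategory, Comm V Y.obj → L.d Y = 0 := by
  have h1 : Simple (𝟙_ Z) := hZ.unit
  have R : TensorSub (centralizer P) := tensorSub_centralizer P
  obtain ⟨y₁, ⟨e₁⟩⟩ := h₁
  obtain ⟨y₂, ⟨e₂⟩⟩ := h₂
  have hev : IsIso (ε_ c₁ (c₁ᘁ)) := C2.ev_iso e₁ h1
  let D₀ : Z := c₁ᘁ
  have hD₀ : centralizer P D₀ := R.rdual hc₁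
  let W : Z := D₀ ⊗ V
  let b₀ : Z := D₀ ⊗ c₂
  let i₂ : 𝟙_ Z ⟶ W := inv (ε_ c₁ (c₁ᘁ)) ≫ (D₀ ◁ i)
  let p₂ : W ⟶ b₀ := D₀ ◁ p
  have w₁ : (D₀ ◁ kernel.ι p) ≫ p₂ = 0 := by
    rw [← whiskerLeft_comp, kernel.condition, MonoidalPreadditive.whiskerLeft_zero]
  have w₂ : i₂ ≫ (D₀ ◁ cokernel.π i) = 0 := by
    rw [Category.assoc, ← whiskerLeft_comp, cokernel.condition,
      MonoidalPreadditive.whiskerLeft_zero, comp_zero]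
  have hS₁ : (ShortComplex.mk (D₀ ◁ kernel.ι p) p₂ w₁).ShortExact := by
    have : (ShortComplex.mk (kernel.ι p) p (kernel.condition p)).ShortExact :=
      { exact := ShortComplex.exact_kernel p }
    exact this.map_of_exact (tensorLeft D₀)
  have hS₂ : (ShortComplex.mk i₂ (D₀ ◁ cokernel.π i) w₂).ShortExact := by
    have : (ShortComplex.mk i (cokernel.π i) (cokernel.condition i)).ShortExact :=
      { exact := ShortComplex.exact_cokernel i }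
    let ei : D₀ ⊗ c₁ ≅ 𝟙_ Z := asIso (ε_ c₁ (c₁ᘁ))
    let i₀ : (ShortComplex.mk i (cokernel.π i) (cokernel.condition i)).map (tensorLeft D₀) ≅
        ShortComplex.mk i₂ (D₀ ◁ cokernel.π i) w₂ :=
      ShortComplex.isoMk ei (Iso.refl _) (Iso.refl _) ?_ ?_
    · exact ShortComplex.shortExact_of_iso i₀ (this.map_of_exact (tensorLeft D₀))
    · change (ε_ c₁ (c₁ᘁ)) ≫ inv (ε_ c₁ (c₁ᘁ)) ≫ (D₀ ◁ i) = (D₀ ◁ i) ≫ 𝟙 _
      simp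
    · change 𝟙 _ ≫ (D₀ ◁ cokernel.π i) = (D₀ ◁ cokernel.π i) ≫ 𝟙 _
      simp
  have : Mono i₂ := hS₂.mono_f
  have : Epi p₂ := hS₁.epi_g
  have hK' : centralizer P (D₀ ⊗ kernel p) := R.tensor hD₀ hK
  have hQ' : centralizer P (D₀ ⊗ cokernel i) := R.tensor hD₀ hQ
  have ex : ∀ Y : P.FullSubcategory, ∃ D : b₀ ⊗ Y.obj ⟶ Y.obj,
      dbr W Y.obj = (p₂ ▷ Y.obj) ≫ D ≫ (λ_ Y.obj).inv ≫ (i₂ ▷ Y.obj) := fun Y =>
    exists_D i₂ p₂ _ _ w₁ hS₁ w₂ hS₂ Y.obj (hK' Y.obj Y.property) (hQ' Y.obj Y.property)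
  choose D hD using ex
  have hb₀ : Invertible b₀ := by
    refine ⟨y₂ ⊗ c₁, ⟨α_ _ _ _ ≪≫ whiskerLeftIso D₀ ((α_ _ _ _).symm ≪≫
      whiskerRightIso e₂ c₁ ≪≫ λ_ c₁) ≪≫ asIso (ε_ c₁ (c₁ᘁ))⟩⟩
  have hbc : centralizer P b₀ := R.tensor hD₀ hc₂
  -- vanishing
  have hcomm : ∀ Y : P.FullSubcategory, D Y = 0 ↔ Comm W Y.obj := by
    intro Y
    rw [← dbr_eq_zero, hD Y]
    constructor
    · intro h
      rw [h, zero_comp, comp_zero]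
    · intro h
      apply core_cancel i₂ p₂
      rw [h, zero_comp, comp_zero]
  have hVW : ∀ Y : P.FullSubcategory, Comm V Y.obj → Comm W Y.obj := by
    intro Y h
    exact B0.comm_tensor (hD₀ Y.obj Y.property) h
  have hWV : ∀ Y : P.FullSubcategory, Comm W Y.obj → Comm V Y.obj := by
    intro Y h
    have S := tensorSub_centralizer (fun X : Z => X = Y.obj)
    have h3 : centralizer (fun X : Z => X = Y.obj) (c₁ ⊗ W) := by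
      rintro _ rfl
      exact B0.comm_tensor (hc₁ Y.obj Y.property) h
    have e : V ≅ c₁ ⊗ W :=
      (λ_ V).symm ≪≫ whiskerRightIso (C2.dualIso e₁ h1).symm V ≪≫ α_ _ _ _
    exact S.sub e.hom h3 Y.obj rfl
  obtain ⟨Y₀, hY₀, hne⟩ : ∃ Y, P Y ∧ ¬ Comm V Y := by
    by_contra hcon
    push Not at hcon
    exact hV hcon
  have hDne : D ⟨Y₀, hY₀⟩ ≠ 0 := by
    intro h
    exact hne (hWV ⟨Y₀, hY₀⟩ ((hcomm ⟨Y₀, hY₀⟩).1 h))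
  have hPb : P b₀ := by
    let f : b₀ ⟶ Y₀ ⊗ Y₀ᘁ := tensorRightHomEquiv b₀ Y₀ (Y₀ᘁ) Y₀ (D ⟨Y₀, hY₀⟩)
    have hf : f ≠ 0 := by
      intro h0
      apply hDne
      have h4 : D ⟨Y₀, hY₀⟩ = (tensorRightHomEquiv b₀ Y₀ (Y₀ᘁ) Y₀).symm f :=
        ((tensorRightHomEquiv b₀ Y₀ (Y₀ᘁ) Y₀).symm_apply_apply _).symm
      rw [h4, h0]
      change ((0 : b₀ ⟶ Y₀ ⊗ Y₀ᘁ) ▷ Y₀) ≫ (α_ _ _ _).hom ≫ (Y₀ ◁ ε_ _ _) ≫ (ρ_ Y₀).hom = 0
      rw [MonoidalPreadditive.zero_whiskerRight, zero_comp]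
    have : Simple b₀ := simple_of_invertible hZ hb₀
    have : Mono f := mono_of_nonzero_from_simple hf
    exact hP.sub f (hP.tensor hY₀ (hP.rdual hY₀))
  let L : Leib (⟨b₀, hPb⟩ : P.FullSubcategory) :=
    { d := fun Y => ObjectProperty.homMk (D Y)
      nat := by
        intro Y Y' f
        ext
        exact core_nat i₂ p₂ f.hom (hD Y) (hD Y')
      leib := by
        intro Y Y'
        ext
        exact core_leib i₂ p₂ (hD Y) (hD Y') (hD (Y ⊗ Y')) }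
  refine ⟨⟨b₀, hPb⟩, L, ?_, ?_, ?_, ?_⟩
  · obtain ⟨y, ⟨e⟩⟩ := hb₀
    exact ⟨⟨b₀ᘁ, hP.rdual hPb⟩, ⟨P.isoMk (C2.dualIso e h1)⟩⟩
  · intro Y
    ext
    exact hbc Y.obj Y.property
  · refine ⟨⟨Y₀, hY₀⟩, fun h => hDne ?_⟩
    exact congrArg (fun f => f.hom) h
  · intro Y h
    ext
    exact (hcomm Y).2 (hVW Y h)

end VSel

end Pool.Agent.MUG
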