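import Pool.Agent.MUG.Leib

/-! Row C4: a tensor subcategory of a finite tensor category is again finite. -/

open CategoryTheory MonoidalCategory Limits Abelian

universe w w' v v' u u'

namespace Pool.Agent.MUG

section Fin

variable {k : Type*} [Field k] {C : Type u} [Category.{v} C] [Abelian C] [Linear k C]
  [MonoidalCategory C] [MonoidalPreadditive C] [MonoidalLinear k C] [RigidCategory C]

theorem sub_mono_hom (P : ObjectProperty C) [TensorSub P] {X Y : P.FullSubcategory}
    (f : X ⟶ Y) [Mono f] : Mono f.hom := by
  have := P.preservesMonomorphisms_ι_of_isNormalEpiCategory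
  exact inferInstanceAs (Mono (P.ι.map f))

theorem sub_epi_hom (P : ObjectProperty C) [TensorSub P] {X Y : P.FullSubcategory}
    (f : X ⟶ Y) [Epi f] : Epi f.hom := by
  have := P.preservesEpimorphisms_ι_of_isNormalMonoCategory
  exact inferInstanceAs (Epi (P.ι.map f))

theorem sub_mono_of (P : ObjectProperty C) [TensorSub P] {X Y : P.FullSubcategory}
    (f : X ⟶ Y) (h : Mono f.hom) : Mono f := P.ι.mono_of_mono_map h

theorem sub_epi_of (P : ObjectProperty C) [TensorSub P] {X Y : P.FullSubcategory}
    (f : X ⟶ Y) (h : Epi f.hom) : Epi f := P.ι.epi_of_epi_map h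

/-- The map of subobject lattices. -/
noncomputable def subObjMap (P : ObjectProperty C) [TensorSub P] (X : P.FullSubcategory)
    (Y : Subobject X) : Subobject X.obj :=
  haveI := sub_mono_hom P Y.arrow
  Subobject.mk Y.arrow.hom

theorem subObjMap_le (P : ObjectProperty C) [TensorSub P] (X : P.FullSubcategory)
    (Y Y' : Subobject X) : subObjMap P X Y ≤ subObjMap P X Y' ↔ Y ≤ Y' := by
  haveI := sub_mono_hom P Y.arrow
  haveI := sub_mono_hom P Y'.arrow
  constructor
  · intro h
    have h1 : Subobject.mk Y.arrow.hom ≤ Subobject.mk Y'.arrow.hom := h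
    refine Subobject.le_of_comm (ObjectProperty.homMk (Subobject.ofMkLEMk _ _ h1)) ?_
    ext
    exact Subobject.ofMkLEMk_comp h1
  · intro h
    change Subobject.mk Y.arrow.hom ≤ Subobject.mk Y'.arrow.hom
    refine Subobject.mk_le_mk_of_comm (Subobject.ofLE Y Y' h).hom ?_
    have := Subobject.ofLE_arrow h
    rw [← ObjectProperty.FullSubcategory.comp_hom, this]

theorem subObjMap_strictMono (P : ObjectProperty C) [TensorSub P] (X : P.FullSubcategory) :
    StrictMono (subObjMap P X) := by
  intro Y Y' h
  rw [lt_iff_le_not_ge] at h ⊢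
  rw [subObjMap_le, subObjMap_le]
  exact h

theorem sub_simple_iff (P : ObjectProperty C) [TensorSub P] (T : P.FullSubcategory) :
    Simple T ↔ Simple T.obj := by
  constructor
  · intro hT
    refine ⟨fun {Y} f hf => ?_⟩
    have hY : P Y := TensorSub.sub f T.property
    let f' : (⟨Y, hY⟩ : P.FullSubcategory) ⟶ T := ObjectProperty.homMk f
    have hf' : Mono f' := sub_mono_of P f' hf
    have h1 := hT.mono_isIso_iff_nonzero f'
    rw [← ObjectProperty.isIso_hom_iff] at h1
    change IsIso f ↔ _ at h1
    rw [h1, not_iff_not]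
    constructor
    · intro h
      have h2 : f'.hom = (0 : (⟨Y, hY⟩ : P.FullSubcategory) ⟶ T).hom := by rw [h]
      exact h2
    · intro h
      ext
      exact h
  · intro hT
    refine ⟨fun {Y} f hf => ?_⟩
    have hf' : Mono f.hom := sub_mono_hom P f
    have h1 := hT.mono_isIso_iff_nonzero f.hom
    rw [ObjectProperty.isIso_hom_iff] at h1
    rw [h1, not_iff_not]
    constructor
    · intro h
      ext
      exact h
    · intro h
      rw [h]; rfl

theorem sub_enough (hC : IsFinite k C) (P : ObjectProperty C) [hP : TensorSub P] :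
    EnoughProjectives P.FullSubcategory := by
  haveI := hC.enough
  refine ⟨fun X => ?_⟩
  let Q : C := Projective.over X.obj
  haveI := hC.artinian Q
  let s : Set (Subobject Q) := {K | P (cokernel K.arrow)}
  have hs : s.Nonempty := by
    refine ⟨⊤, ?_⟩
    change P (cokernel (⊤ : Subobject Q).arrow)
    have hz : IsZero (cokernel (⊤ : Subobject Q).arrow) := isZero_cokernel_of_epi _
    haveI : Mono (0 : cokernel (⊤ : Subobject Q).arrow ⟶ 𝟙_ C) :=
      ⟨fun _ _ _ => hz.eq_of_tgt _ _⟩
    exact hP.sub (0 : cokernel (⊤ : Subobject Q).arrow ⟶ 𝟙_ C) hP.unit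
  obtain ⟨K, hK, hmin⟩ := (IsWellFounded.wf (α := Subobject Q) (r := (· < ·))).has_min s hs
  have key : ∀ (F : C), P F → ∀ g : Q ⟶ F, K.arrow ≫ g = 0 := by
    intro F hF g
    let h : Q ⟶ cokernel K.arrow ⊞ F := biprod.lift (cokernel.π K.arrow) g
    let K' : Subobject Q := kernelSubobject h
    have h1 : K'.arrow ≫ h = 0 := kernelSubobject_arrow_comp h
    have hK' : K' ∈ s := by
      change P (cokernel K'.arrow)
      have hex : (ShortComplex.mk K'.arrow h h1).Exact := by
        rw [ShortComplex.exact_iff_kernel_ι_comp_cokernel_π_zero]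
        change kernel.ι h ≫ cokernel.π K'.arrow = 0
        rw [← kernelSubobject_arrow' h, Category.assoc]
        change _ ≫ K'.arrow ≫ cokernel.π K'.arrow = 0
        rw [cokernel.condition, comp_zero]
      haveI := hex.mono_cokernelDesc
      exact hP.sub (cokernel.desc K'.arrow h h1) (hP.biprod hK hF)
    have hle : K' ≤ K := by
      have h2 : K'.arrow ≫ cokernel.π K.arrow = 0 := by
        have := congrArg (· ≫ biprod.fst) h1
        simpa [h] using this
      refine Subobject.le_of_comm (Abelian.monoLift K.arrow K'.arrow h2) ?_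
      exact Abelian.monoLift_comp _ _ _
    have heq : K' = K := by
      by_contra hne
      exact hmin K' hK' (lt_of_le_of_ne hle hne)
    rw [← heq]
    have h2 := congrArg (· ≫ biprod.snd) h1
    simpa [h] using h2
  let Q' : P.FullSubcategory := ⟨cokernel K.arrow, hK⟩
  have hQ' : Projective Q' := by
    refine ⟨fun {E F} f e _ => ?_⟩
    haveI := sub_epi_hom P e
    let g : Q ⟶ E.obj := Projective.factorThru (cokernel.π K.arrow ≫ f.hom) e.hom
    have hg : g ≫ e.hom = cokernel.π K.arrow ≫ f.hom := Projective.factorThru_comp _ _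
    refine ⟨ObjectProperty.homMk (cokernel.desc K.arrow g (key _ E.property g)), ?_⟩
    apply ObjectProperty.hom_ext
    change cokernel.desc K.arrow g (key _ E.property g) ≫ e.hom = f.hom
    rw [← cancel_epi (cokernel.π K.arrow), ← Category.assoc, cokernel.π_desc, hg]
  have hw := key _ X.property (Projective.π X.obj)
  have hepi : Epi (cokernel.desc K.arrow (Projective.π X.obj) hw) := by
    have h3 : cokernel.π K.arrow ≫ cokernel.desc K.arrow (Projective.π X.obj) hw =
      Projective.π X.obj := cokernel.π_desc _ _ _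
    haveI : Epi (cokernel.π K.arrow ≫ cokernel.desc K.arrow (Projective.π X.obj) hw) := by
      rw [h3]; infer_instance
    exact epi_of_epi (cokernel.π K.arrow) _
  exact ⟨{ p := Q'
           projective := hQ'
           f := ObjectProperty.homMk (cokernel.desc K.arrow (Projective.π X.obj) hw)
           epi := sub_epi_of P _ hepi }⟩

/-- Row C4: enough projectives, and finiteness, in a tensor subcategory. -/
theorem finite_sub (hC : IsFinite k C) (P : ObjectProperty C) [hP : TensorSub P] :
    IsFinite k P.FullSubcategory where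
  hom_finite X Y := by
    haveI := hC.hom_finite X.obj Y.obj
    let φ : (X ⟶ Y) →ₗ[k] (X.obj ⟶ Y.obj) :=
      { toFun := fun f => f.hom
        map_add' := fun _ _ => rfl
        map_smul' := fun _ _ => rfl }
    have hφ : Function.Injective φ := fun f g h => ObjectProperty.hom_ext _ h
    exact Module.Finite.of_injective φ hφ
  artinian X := by
    haveI := hC.artinian X.obj
    have h : WellFoundedLT (Subobject X) := (subObjMap_strictMono P X).wellFoundedLT
    rw [isArtinianObject_iff_not_strictAnti]
    exact fun f => not_strictAnti_of_wellFoundedLT f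
  noetherian X := by
    haveI := hC.noetherian X.obj
    have h : WellFoundedGT (Subobject X) := (subObjMap_strictMono P X).wellFoundedGT
    rw [isNoetherianObject_iff_not_strictMono]
    exact fun f => not_strictMono_of_wellFoundedGT f
  enough := sub_enough hC P
  simples := by
    classical
    obtain ⟨n, S, hS⟩ := hC.simples
    let S' : Fin n → P.FullSubcategory := fun i =>
      if h : ∃ T : P.FullSubcategory, Nonempty (T.obj ≅ S i) then h.choose else ⟨𝟙_ C, hP.unit⟩
    refine ⟨n, S', fun T hT => ?_⟩
    obtain ⟨i, ⟨e⟩⟩ := hS T.obj ((sub_simple_iff P T).1 hT)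
    refine ⟨i, ?_⟩
    have h : ∃ T : P.FullSubcategory, Nonempty (T.obj ≅ S i) := ⟨T, ⟨e⟩⟩
    have hS' : S' i = h.choose := dif_pos h
    rw [hS']
    obtain ⟨e'⟩ := h.choose_spec
    exact ⟨P.isoMk (e ≪≫ e'.symm)⟩
  unit := (sub_simple_iff P (𝟙_ P.FullSubcategory)).2 hC.unit

end Fin

end Pool.Agent.MUG
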