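import Pool.Agent.MUG.Leib

open CategoryTheory MonoidalCategory Limits Abelian ZeroObject

universe w v u

namespace Pool.Agent.MUG

section Fin

variable {k : Type*} [Field k] {C : Type u} [Category.{v} C] [Abelian C] [Linear k C]
  [MonoidalCategory C] [MonoidalPreadditive C] [MonoidalLinear k C] [RigidCategory C]

attribute [local instance] CategoryTheory.Abelian.hasFiniteBiproducts

/-- The smallest kernel of a morphism from `G` to an object of `P`. -/
theorem exists_min_kernel {C : Type u} [Category.{v} C] [Abelian C] [MonoidalCategory C]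
    [RigidCategory C] (G : C) (hG : IsArtinianObject G) (P : ObjectProperty C)
    (hP : TensorSub P) :
    ∃ K : Subobject G, (∃ (Y : C) (f : G ⟶ Y), P Y ∧ kernelSubobject f = K) ∧
      ∀ (Y : C) (f : G ⟶ Y), P Y → K ≤ kernelSubobject f := by
  let s : Set (Subobject G) := {K | ∃ (Y : C) (f : G ⟶ Y), P Y ∧ kernelSubobject f = K}
  have hs : s.Nonempty := ⟨kernelSubobject (0 : G ⟶ 𝟙_ C), 𝟙_ C, 0, hP.unit, rfl⟩
  obtain ⟨K, hK, hmin⟩ := (wellFounded_lt (α := Subobject G)).has_min s hs
  refine ⟨K, hK, ?_⟩
  intro Y' f' hY'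
  obtain ⟨Y, f, hY, rfl⟩ := hK
  have h1 : kernelSubobject (biprod.lift f f') ∈ s :=
    ⟨Y ⊞ Y', biprod.lift f f', hP.biprod hY hY', rfl⟩
  have h2 : kernelSubobject (biprod.lift f f') ≤ kernelSubobject f := by
    refine le_kernelSubobject _ _ ?_
    have h : (kernelSubobject (biprod.lift f f')).arrow ≫ f =
        ((kernelSubobject (biprod.lift f f')).arrow ≫ biprod.lift f f') ≫ biprod.fst := by
      rw [Category.assoc, biprod.lift_fst]
    rw [h, kernelSubobject_arrow_comp, zero_comp]
  have h3 : kernelSubobject (biprod.lift f f') ≤ kernelSubobject f' := by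
    refine le_kernelSubobject _ _ ?_
    have h : (kernelSubobject (biprod.lift f f')).arrow ≫ f' =
        ((kernelSubobject (biprod.lift f f')).arrow ≫ biprod.lift f f') ≫ biprod.snd := by
      rw [Category.assoc, biprod.lift_snd]
    rw [h, kernelSubobject_arrow_comp, zero_comp]
  have h4 : kernelSubobject (biprod.lift f f') = kernelSubobject f :=
    (lt_or_eq_of_le h2).resolve_left (hmin _ h1)
  rw [← h4]
  exact h3

/-- If all morphisms from the generator `G` to `X` factor through an object of `P`, then `X`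
lies in `P`. -/
theorem mem_of_factor (hC : IsFinite k C) (P : ObjectProperty C) (hP : TensorSub P)
    {n : ℕ} (S : Fin n → C) (hS : ∀ T : C, Simple T → ∃ i, Nonempty (T ≅ S i))
    (R : Fin n → C) (r : ∀ i, R i ⟶ S i) [∀ i, Epi (r i)] [∀ i, Projective (R i)]
    (X : C) (hX : ∀ t : (⨁ R) ⟶ X, ∃ (Q : C) (a : (⨁ R) ⟶ Q) (b : Q ⟶ X), P Q ∧ a ≫ b = t) :
    P X := by
  have := hC.noetherian X
  let s : Set (Subobject X) := {M | P (M : C)}
  have hs : s.Nonempty := ⟨⊥, by
    have hz : IsZero ((⊥ : Subobject X) : C) :=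
      (isZero_zero C).of_iso Subobject.botCoeIsoZero
    have : Mono (0 : ((⊥ : Subobject X) : C) ⟶ 𝟙_ C) := ⟨fun _ _ _ => hz.eq_of_tgt _ _⟩
    exact hP.sub (0 : ((⊥ : Subobject X) : C) ⟶ 𝟙_ C) hP.unit⟩
  obtain ⟨M, hM, hmax⟩ := (wellFounded_gt (α := Subobject X)).has_min s hs
  by_cases hz : IsZero (cokernel M.arrow)
  · have : Epi M.arrow := Preadditive.epi_of_isZero_cokernel _ hz
    exact hP.quot M.arrow hM
  · exfalso
    have := hC.artinian (cokernel M.arrow)
    have := hC.enough
    obtain ⟨i, ⟨e⟩⟩ := hS (simpleSubobject hz) inferInstance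
    have hne : simpleSubobjectArrow hz ≠ 0 := by
      intro h0
      have h1 : 𝟙 (simpleSubobject hz) = 0 := by
        rw [← cancel_mono (simpleSubobjectArrow hz), h0, comp_zero, comp_zero]
      exact id_nonzero (simpleSubobject hz) h1
    let t0 : R i ⟶ cokernel M.arrow := r i ≫ e.inv ≫ simpleSubobjectArrow hz
    have ht0 : t0 ≠ 0 := by
      intro h0
      apply hne
      rw [← cancel_epi (r i ≫ e.inv)]
      simpa [t0] using h0
    let t : R i ⟶ X := Projective.factorThru t0 (cokernel.π M.arrow)
    have ht : t ≫ cokernel.π M.arrow = t0 := Projective.factorThru_comp _ _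
    obtain ⟨Q, a, b, hQ, hab⟩ := hX (biproduct.π R i ≫ t)
    let N : Subobject X := imageSubobject (biprod.desc M.arrow b)
    have hN : N ∈ s := by
      have h1 : P ((M : C) ⊞ Q) := hP.biprod hM hQ
      exact hP.quot (factorThruImageSubobject (biprod.desc M.arrow b)) h1
    have hMN : M ≤ N := by
      refine Subobject.le_of_comm (biprod.inl ≫ factorThruImageSubobject _) ?_
      simp [N]
    have hNM : M = N := by
      rcases lt_or_eq_of_le hMN with h | h
      · exact absurd h (hmax N hN)
      · exact h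
    have hb : b ≫ cokernel.π M.arrow = 0 := by
      have h1 : b = (biprod.inr ≫ factorThruImageSubobject (biprod.desc M.arrow b)) ≫
          N.arrow := by simp [N]
      have h2 : N.arrow = Subobject.ofLE N M hNM.ge ≫ M.arrow := (Subobject.ofLE_arrow _).symm
      rw [h1, h2]
      simp only [Category.assoc, cokernel.condition, comp_zero]
    apply ht0
    have h3 : biproduct.π R i ≫ t0 = 0 := by
      rw [← ht, ← Category.assoc, ← hab, Category.assoc, hb, comp_zero]
    rw [← cancel_epi (biproduct.π R i), h3, comp_zero]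

/-- Row C5 (DCC on tensor subcategories). -/
theorem dcc_sub (hC : IsFinite k C) :
    WellFounded (fun P P' : {P : ObjectProperty C // TensorSub P} => P.1 < P'.1) := by
  classical
  have := hC.enough
  obtain ⟨n, S, hS⟩ := hC.simples
  let R : Fin n → C := fun i => Projective.over (S i)
  let r : ∀ i, R i ⟶ S i := fun i => Projective.π (S i)
  let G : C := ⨁ R
  have hK : ∀ P : {P : ObjectProperty C // TensorSub P}, ∃ K : Subobject G,
      (∃ (Y : C) (f : G ⟶ Y), P.1 Y ∧ kernelSubobject f = K) ∧
      ∀ (Y : C) (f : G ⟶ Y), P.1 Y → K ≤ kernelSubobject f :=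
    fun P => exists_min_kernel G (hC.artinian G) P.1 P.2
  choose K hK1 hK2 using hK
  have := hC.noetherian G
  refine Subrelation.wf (r := InvImage (fun a b : Subobject G => a > b) K) ?_
    (InvImage.wf K wellFounded_gt)
  intro P P' hlt
  change K P' < K P
  have hle : K P' ≤ K P := by
    obtain ⟨Y, f, hY, hf⟩ := hK1 P
    rw [← hf]
    exact hK2 P' Y f (hlt.le Y hY)
  refine lt_of_le_of_ne hle ?_
  intro heq
  apply hlt.not_ge
  intro X hX
  obtain ⟨Y, f, hY, hf⟩ := hK1 P
  refine mem_of_factor hC P.1 P.2 S hS R r X ?_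
  intro t
  have h1 : kernelSubobject f ≤ kernelSubobject t := by
    rw [hf, ← heq]
    exact hK2 P' X t hX
  have h2 : kernel.ι f ≫ t = 0 := by
    have h3 : (kernelSubobject f).arrow ≫ t = 0 := by
      rw [← Subobject.ofLE_arrow h1, Category.assoc, kernelSubobject_arrow_comp, comp_zero]
    rw [← kernelSubobject_arrow' f, Category.assoc, h3, comp_zero]
  have h4 : kernel.ι (Abelian.factorThruImage f) ≫ t = 0 := by
    have h5 : kernel.ι (Abelian.factorThruImage f) ≫ f = 0 := by
      have h6 : kernel.ι (Abelian.factorThruImage f) ≫ Abelian.factorThruImage f ≫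
          Abelian.image.ι f = 0 := by
        rw [← Category.assoc, kernel.condition, zero_comp]
      rwa [Abelian.image.fac] at h6
    rw [← kernel.lift_ι f _ h5, Category.assoc, h2, comp_zero]
  refine ⟨Abelian.image f, Abelian.factorThruImage f, Abelian.epiDesc _ t h4,
    P.2.sub (Abelian.image.ι f) hY, Abelian.comp_epiDesc _ _ _⟩

end Fin

end Pool.Agent.MUG
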