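import Pool.Agent.MUG.SubExact

/-! The condition FGC for a tensor subcategory. -/

open CategoryTheory MonoidalCategory Limits Abelian

universe w w' v v' u u'

namespace Pool.Agent.MUG

/-- FGC of a tensor subcategory. -/
def FG (k : Type*) [Field k] {Z : Type u} [Category.{v} Z] [Abelian Z] [Linear k Z]
    [MonoidalCategory Z] [MonoidalPreadditive Z] [MonoidalLinear k Z] [RigidCategory Z]
    (P : ObjectProperty Z) (hP : TensorSub P) : Prop :=
  haveI := hP
  haveI : HasExt.{max u v} P.FullSubcategory := HasExt.standard _
  FGC.{max u v} k P.FullSubcategory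

end Pool.Agent.MUG
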