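import Pool.Agent.MUG.Leib

open CategoryTheory MonoidalCategory Limits Abelian

universe w v u

namespace Pool.Agent.MUG

section

variable {C : Type u} [Category.{v} C] [Abelian C] [MonoidalCategory C] [RigidCategory C]

section one

variable (P : ObjectProperty C) [hP : TensorSub P]

instance instIotaAdd : P.ι.Additive := inferInstance

instance instIotaPFL : PreservesFiniteLimits P.ι := by
  have : ∀ {X Y : P.FullSubcategory} (f : X ⟶ Y), PreservesLimit (parallelPair f 0) P.ι := by
    intro X Y f
    exact P.preservesKernels_ι f
  exact Functor.preservesFiniteLimits_of_preservesKernels P.ι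

instance instIotaPFC : PreservesFiniteColimits P.ι := by
  have : ∀ {X Y : P.FullSubcategory} (f : X ⟶ Y), PreservesColimit (parallelPair f 0) P.ι := by
    intro X Y f
    exact P.preservesCokernels_ι f
  exact Functor.preservesFiniteColimits_of_preservesCokernels P.ι

end one

section two

variable {P P' : ObjectProperty C} [TensorSub P] [TensorSub P'] (h : P ≤ P')

instance instIotaLEAdd : (ObjectProperty.ιOfLE h).Additive where
  map_add := rfl

instance instIotaLEPFL : PreservesFiniteLimits (ObjectProperty.ιOfLE h) := by
  have : PreservesFiniteLimits (ObjectProperty.ιOfLE h ⋙ P'.ι) :=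
    inferInstanceAs (PreservesFiniteLimits P.ι)
  exact preservesFiniteLimits_of_reflects_of_preserves (ObjectProperty.ιOfLE h) P'.ι

instance instIotaLEPFC : PreservesFiniteColimits (ObjectProperty.ιOfLE h) := by
  have : PreservesFiniteColimits (ObjectProperty.ιOfLE h ⋙ P'.ι) :=
    inferInstanceAs (PreservesFiniteColimits P.ι)
  exact preservesFiniteColimits_of_reflects_of_preserves (ObjectProperty.ιOfLE h) P'.ι

end two

end

end Pool.Agent.MUG
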