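import Pool.Agent.MUG.Leib

open CategoryTheory MonoidalCategory Limits Abelian

universe w w' v v' u u'

set_option linter.unusedSectionVars false

namespace Pool.Agent.MUG

section Braided

variable {k : Type*} [Field k] {C : Type u} [Category.{v} C] [Abelian C] [Linear k C]
  [MonoidalCategory C] [MonoidalPreadditive C] [MonoidalLinear k C] [RigidCategory C]
  [BraidedCategory C]

/-- If `d` vanishes on `N`, then `d` of `X ⊗ N` is `d X ⊗ N`. -/
theorem leib_tensor_of_zero {b : C} (L : Leib b) (X N : C) (hN : L.d N = 0) :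
    L.d (X ⊗ N) = (α_ b X N).inv ≫ (L.d X ▷ N) := by
  rw [L.leib, hN]
  simp

/-- Row B10 (5.2). -/
theorem hom_bijective {b : C} (L : Leib b) {X : C} (j : b ⟶ X)
    (e : X ⟶ 𝟙_ C) (w : j ≫ e = 0) (hS : (ShortComplex.mk j e w).ShortExact)
    (hd : L.d X = (b ◁ e) ≫ (ρ_ b).hom ≫ j) (N M : C) (hN : L.d N = 0) (hM : L.d M = 0) :
    Function.Bijective (fun f : N ⟶ M => (e ▷ N) ≫ (λ_ N).hom ≫ f) := by
  have hSN : ((ShortComplex.mk j e w).map (tensorRight N)).ShortExact :=
    hS.map_of_exact (tensorRight N)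
  have he : Epi e := hS.epi_g
  have heN : Epi (e ▷ N) := inferInstanceAs (Epi ((tensorRight N).map e))
  constructor
  · intro f g hfg
    dsimp at hfg
    rw [cancel_epi, cancel_epi] at hfg
    exact hfg
  · intro h
    have h1 := L.nat h
    rw [hM, comp_zero, leib_tensor_of_zero L X N hN, hd] at h1
    have h2 : ((b ◁ e) ▷ N) ≫ ((ρ_ b).hom ▷ N) ≫ (j ▷ N) ≫ h = 0 := by
      rw [← cancel_epi (α_ b X N).inv, comp_zero, h1]
      simp
    have hbe : Epi (b ◁ e) := inferInstanceAs (Epi ((tensorLeft b).map e))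
    have hbeN : Epi ((b ◁ e) ▷ N) := inferInstanceAs (Epi ((tensorRight N).map (b ◁ e)))
    have h3 : (j ▷ N) ≫ h = 0 := by
      rw [← comp_zero, cancel_epi] at h2
      rwa [← comp_zero, cancel_epi] at h2
    have h4 : ((ShortComplex.mk j e w).map (tensorRight N)).f ≫ h = 0 := h3
    have : Epi ((ShortComplex.mk j e w).map (tensorRight N)).g := heN
    obtain ⟨g, hg⟩ : ∃ g : 𝟙_ C ⊗ N ⟶ M, (e ▷ N) ≫ g = h :=
      ⟨hSN.exact.desc h h4, hSN.exact.g_desc h h4⟩
    refine ⟨(λ_ N).inv ≫ g, ?_⟩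
    dsimp only
    rw [Iso.hom_inv_id_assoc, hg]

end Braided

end Pool.Agent.MUG
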