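import Pool.Agent.MUG.Leib

/-!
# Rows C1, C1b: the projective cover of the unit object (MP_388894_al)
-/

set_option autoImplicit false
set_option linter.unusedSectionVars false

open CategoryTheory MonoidalCategory Limits Abelian

universe w w' v v' u u'

namespace Pool.Agent.MUG

namespace C1aux

variable {k : Type*} [Field k] {C : Type u} [Category.{v} C] [Preadditive C] [Linear k C]

/-- powers of an endomorphism -/
def pw {P : C} (g : P ⟶ P) : ℕ → (P ⟶ P)
  | 0 => 𝟙 P
  | n + 1 => g ≫ pw g n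

omit [Preadditive C] [Linear k C] in
theorem pw_comm {P : C} (g : P ⟶ P) (n : ℕ) : pw g n ≫ g = g ≫ pw g n := by
  induction n with
  | zero => simp [pw]
  | succ n ih => rw [pw, Category.assoc, ih]

omit [Preadditive C] [Linear k C] in
theorem pw_add {P : C} (g : P ⟶ P) (m n : ℕ) : pw g (m + n) = pw g m ≫ pw g n := by
  induction m with
  | zero => simp [pw]
  | succ m ih => rw [Nat.succ_add, pw, ih, pw, Category.assoc]

/-- the powers of an endomorphism stabilise up to a factor, on the right -/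
theorem stab_left {P : C} [Module.Finite k (P ⟶ P)] (g : P ⟶ P) :
    ∃ n : ℕ, ∀ m, n ≤ m → ∀ j, ∃ h : P ⟶ P, pw g m = pw g (m + j) ≫ h := by
  let T : (P ⟶ P) →ₗ[k] (P ⟶ P) := Linear.leftComp k P g
  have hT : ∀ n (u : P ⟶ P), (T ^ n) u = pw g n ≫ u := by
    intro n
    induction n with
    | zero => intro u; simp [pw]
    | succ n ih =>
      intro u
      rw [pow_succ', Module.End.mul_apply, ih, pw, Category.assoc]
      rfl
  obtain ⟨n, hn⟩ := IsArtinian.monotone_stabilizes (LinearMap.iterateRange T)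
  refine ⟨n, fun m hm j => ?_⟩
  have h1 : pw g m ∈ LinearMap.range (T ^ m) := ⟨𝟙 P, by rw [hT, Category.comp_id]⟩
  have h2 : LinearMap.range (T ^ m) = LinearMap.range (T ^ (m + j)) :=
    (hn m hm).symm.trans (hn (m + j) (by omega))
  rw [h2] at h1
  obtain ⟨h, hh⟩ := h1
  exact ⟨h, by rw [← hh, hT]⟩

theorem stab_right {P : C} [Module.Finite k (P ⟶ P)] (g : P ⟶ P) :
    ∃ n : ℕ, ∀ m, n ≤ m → ∀ j, ∃ h : P ⟶ P, pw g m = h ≫ pw g (m + j) := by
  let T : (P ⟶ P) →ₗ[k] (P ⟶ P) := Linear.rightComp k P g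
  have hT : ∀ n (u : P ⟶ P), (T ^ n) u = u ≫ pw g n := by
    intro n
    induction n with
    | zero => intro u; simp [pw]
    | succ n ih =>
      intro u
      rw [pow_succ', Module.End.mul_apply, ih, pw]
      show (u ≫ pw g n) ≫ g = u ≫ g ≫ pw g n
      rw [Category.assoc, pw_comm]
  obtain ⟨n, hn⟩ := IsArtinian.monotone_stabilizes (LinearMap.iterateRange T)
  refine ⟨n, fun m hm j => ?_⟩
  have h1 : pw g m ∈ LinearMap.range (T ^ m) := ⟨𝟙 P, by rw [hT, Category.id_comp]⟩
  have h2 : LinearMap.range (T ^ m) = LinearMap.range (T ^ (m + j)) :=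
    (hn m hm).symm.trans (hn (m + j) (by omega))
  rw [h2] at h1
  obtain ⟨h, hh⟩ := h1
  exact ⟨h, by rw [← hh, hT]⟩

end C1aux

open C1aux

section Fin

variable {k : Type*} [Field k] {C : Type u} [Category.{v} C] [Abelian C] [Linear k C]
  [MonoidalCategory C] [MonoidalPreadditive C] [MonoidalLinear k C] [RigidCategory C]

/-- Row C1 (COVER). -/
theorem exists_cover (hC : IsFinite k C) :
    ∃ (P : C) (e : P ⟶ 𝟙_ C), IsCover P e := by
  classical
  have := hC.unit
  have := hC.enough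
  have hex : ∃ n : ℕ, ∃ (P : C) (e : P ⟶ 𝟙_ C), Projective P ∧ Epi e ∧
      Module.finrank k (P ⟶ P) = n :=
    ⟨_, Projective.over (𝟙_ C), Projective.π (𝟙_ C), inferInstance, inferInstance, rfl⟩
  obtain ⟨P, e, hP, he, hn⟩ := Nat.find_spec hex
  refine ⟨P, e, hP, he, fun g hg => ?_⟩
  have := hC.hom_finite P P
  -- the powers stabilise
  obtain ⟨n₁, h₁⟩ := stab_left (k := k) g
  obtain ⟨n₂, h₂⟩ := stab_right (k := k) g
  set n := n₁ + n₂ + 1 with hndef
  obtain ⟨h', hh'⟩ := h₁ n (by omega) n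
  obtain ⟨h, hh⟩ := h₂ n (by omega) n
  set a := pw g n with ha
  have h2 : pw g (n + n) = a ≫ a := pw_add g n n
  rw [h2] at hh hh'
  -- a = a ≫ a ≫ h' and a = h ≫ a ≫ a
  have e1 : a ≫ a ≫ h' = a := by rw [← Category.assoc]; exact hh'.symm
  have e2 : h ≫ a ≫ a = a := hh.symm
  -- the idempotent
  set f := a ≫ h' with hf
  have f1 : f = h ≫ a := by
    calc f = (h ≫ a ≫ a) ≫ h' := by rw [e2]
      _ = h ≫ (a ≫ a ≫ h') := by simp only [Category.assoc]
      _ = h ≫ a := by rw [e1]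
  have f2 : f ≫ f = f := by
    calc f ≫ f = (h ≫ a) ≫ (a ≫ h') := by rw [← f1]
      _ = (h ≫ a ≫ a) ≫ h' := by simp only [Category.assoc]
      _ = f := by rw [e2]
  have fa : f ≫ a = a := by rw [f1, Category.assoc, e2]
  have af : a ≫ f = a := by rw [hf, e1]
  have ae : ∀ m, pw g m ≫ e = e := by
    intro m
    induction m with
    | zero => simp [pw]
    | succ m ih => rw [pw, Category.assoc, ih, hg]
  have fe : f ≫ e = e := by
    have hae : a ≫ e = e := ae n
    calc f ≫ e = f ≫ a ≫ e := by rw [hae]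
      _ = (f ≫ a) ≫ e := (Category.assoc f a e).symm
      _ = e := by rw [fa, hae]
  -- the image of the idempotent
  let Q := image f
  let i : Q ⟶ P := image.ι f
  let p : P ⟶ Q := factorThruImage f
  have hpi : p ≫ i = f := image.fac f
  have hip : i ≫ p = 𝟙 Q := by
    rw [← cancel_epi p, ← cancel_mono i]
    simp only [Category.assoc, hpi, Category.comp_id]
    rw [← Category.assoc, hpi, f2]
  have : Projective Q := by
    refine ⟨fun {E X} u v hv => ?_⟩
    refine ⟨i ≫ Projective.factorThru (p ≫ u) v, ?_⟩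
    rw [Category.assoc, Projective.factorThru_comp, ← Category.assoc, hip, Category.id_comp]
  have : Epi (i ≫ e) := by
    have : p ≫ (i ≫ e) = e := by rw [← Category.assoc, hpi, fe]
    have : Epi (p ≫ (i ≫ e)) := by rw [this]; exact he
    exact epi_of_epi p (i ≫ e)
  -- the map `End Q → End P`
  let Φ : (Q ⟶ Q) →ₗ[k] (P ⟶ P) :=
    (Linear.leftComp k P p).comp (Linear.rightComp k Q i)
  have hΦ : ∀ u, Φ u = p ≫ u ≫ i := fun u => rfl
  have hinj : Function.Injective Φ := by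
    intro u v huv
    rw [hΦ, hΦ, cancel_epi, cancel_mono] at huv
    exact huv
  have := hC.hom_finite Q Q
  have hle : Module.finrank k (Q ⟶ Q) ≤ Module.finrank k (P ⟶ P) :=
    LinearMap.finrank_le_finrank_of_injective hinj
  have hge : Module.finrank k (P ⟶ P) ≤ Module.finrank k (Q ⟶ Q) := by
    rw [hn]
    exact Nat.find_min' hex ⟨Q, i ≫ e, inferInstance, inferInstance, rfl⟩
  have hsurj : Function.Surjective Φ :=
    (LinearMap.injective_iff_surjective_of_finrank_eq_finrank (le_antisymm hle hge)).1 hinj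
  obtain ⟨u, hu⟩ := hsurj (𝟙 P)
  have f3 : f = 𝟙 P := by
    calc f = f ≫ 𝟙 P := by rw [Category.comp_id]
      _ = f ≫ p ≫ u ≫ i := by rw [← hΦ, hu]
      _ = (p ≫ i) ≫ p ≫ u ≫ i := by rw [hpi]
      _ = p ≫ (i ≫ p) ≫ u ≫ i := by simp only [Category.assoc]
      _ = p ≫ u ≫ i := by rw [hip, Category.id_comp]
      _ = 𝟙 P := by rw [← hΦ, hu]
  -- so `g` is an isomorphism
  have g1 : g ≫ (pw g (n₁ + n₂) ≫ h') = 𝟙 P := by
    rw [← Category.assoc]
    exact f3
  have g2 : (h ≫ pw g (n₁ + n₂)) ≫ g = 𝟙 P := by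
    rw [Category.assoc, pw_comm]
    exact f1.symm.trans f3
  refine ⟨pw g (n₁ + n₂) ≫ h', g1, ?_⟩
  have g3 : pw g (n₁ + n₂) ≫ h' = h ≫ pw g (n₁ + n₂) := by
    calc pw g (n₁ + n₂) ≫ h' = ((h ≫ pw g (n₁ + n₂)) ≫ g) ≫ pw g (n₁ + n₂) ≫ h' := by
          rw [g2, Category.id_comp]
      _ = (h ≫ pw g (n₁ + n₂)) ≫ (g ≫ pw g (n₁ + n₂) ≫ h') := by
          simp only [Category.assoc]
      _ = h ≫ pw g (n₁ + n₂) := by rw [g1, Category.comp_id]
  rw [g3]
  exact g2

theorem cover_sub (hC : IsFinite k C) {P : C} {e : P ⟶ 𝟙_ C} (h : IsCover P e) {K : C}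
    (m : K ⟶ P) [Mono m] (hm : m ≫ e ≠ 0) : IsIso m := by
  have := hC.unit
  have := h.proj
  have : Epi (m ≫ e) := epi_of_nonzero_to_simple hm
  have h1 : (Projective.factorThru e (m ≫ e) ≫ m) ≫ e = e := by
    rw [Category.assoc, Projective.factorThru_comp]
  have := h.iso _ h1
  have : Epi m := epi_of_epi (Projective.factorThru e (m ≫ e)) m
  exact isIso_of_mono_of_epi m

theorem cover_hom (hC : IsFinite k C) {P : C} {e : P ⟶ 𝟙_ C} (h : IsCover P e) {S : C}
    [Simple S] (f : P ⟶ S) (hf : f ≠ 0) : ∃ g : 𝟙_ C ≅ S, f = e ≫ g.hom := by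
  have := hC.unit
  have : Epi f := epi_of_nonzero_to_simple hf
  have h1 : kernel.ι f ≫ e = 0 := by
    by_contra hne
    have := cover_sub hC h (kernel.ι f) hne
    apply hf
    rw [← cancel_epi (kernel.ι f), kernel.condition, comp_zero]
  have h2 : f ≫ Abelian.epiDesc f e h1 = e := Abelian.comp_epiDesc f e h1
  have := h.epi
  have h3 : Abelian.epiDesc f e h1 ≠ 0 := by
    intro h0
    rw [h0, comp_zero] at h2
    have : (𝟙 (𝟙_ C)) = 0 := by
      rw [← cancel_epi e, ← h2]
      simp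
    exact id_nonzero (𝟙_ C) this
  have : IsIso (Abelian.epiDesc f e h1) := isIso_of_hom_simple h3
  refine ⟨(asIso (Abelian.epiDesc f e h1)).symm, ?_⟩
  rw [Iso.symm_hom, asIso_inv, IsIso.eq_comp_inv, h2]

end Fin

end Pool.Agent.MUG
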