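import Pool.Agent.MUG.B4a
import Pool.Agent.MUG.C1

open CategoryTheory MonoidalCategory Limits Abelian

universe w v u

namespace Pool.Agent.MUG

section Braided

variable {k : Type*} [Field k] {C : Type u} [Category.{v} C] [Abelian C] [Linear k C]
  [MonoidalCategory C] [MonoidalPreadditive C] [MonoidalLinear k C] [RigidCategory C]
  [BraidedCategory C]

/-- Row B4 (PRIM). -/
theorem prim [IsAlgClosed k] [CharZero k] (hC : IsFinite k C) {b : C} (hb : Invertible b)
    (ht : Transp b) (L : Leib b) (hc : (β_ b b).hom = 𝟙 (b ⊗ b)) (Y : C) : L.d Y = 0 := by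
  obtain ⟨P, e, h⟩ := exists_cover hC
  exact prim_of hC ⟨P, e, h, fun S _ f hf => cover_hom hC h f hf⟩ hb L hc Y

end Braided

end Pool.Agent.MUG
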