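import Pool.Agent.MUG.B5a
import Pool.Agent.MUG.B4

open CategoryTheory MonoidalCategory Limits Abelian

universe w v u

namespace Pool.Agent.MUG

variable {k : Type*} [Field k] {C : Type u} [Category.{v} C] [Abelian C] [Linear k C]
  [MonoidalCategory C] [MonoidalPreadditive C] [MonoidalLinear k C] [RigidCategory C]
  [BraidedCategory C]

/-- Row B5 (SQ). -/
theorem sqZero [IsAlgClosed k] [CharZero k] (hC : IsFinite k C) {b : C} (hb : Invertible b)
    (ht : Transp b) (L : Leib b) (hc : (β_ b b).hom = - 𝟙 (b ⊗ b)) : L.SqZero :=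
  b5_sqZero_of L hc (fun L2 Y => prim hC (b5_invertible hb) (b5_transp ht) L2 (b5_self hc) Y)

end Pool.Agent.MUG
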