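import Pool.Agent.MUG.B8b

open CategoryTheory MonoidalCategory Limits Abelian

universe w w' v v' u u'

namespace Pool.Agent.MUG

section

variable {k : Type*} [Field k] {C : Type u} [Category.{v} C] [Abelian C] [Linear k C]
  [MonoidalCategory C] [MonoidalPreadditive C] [MonoidalLinear k C] [RigidCategory C]
  [BraidedCategory C]

omit [Linear k C] [MonoidalLinear k C] [RigidCategory C] in
/-- The map induced by `d` on the ends of an extension. -/
theorem exists_phi {b : C} (L : Leib b) {N M Y : C} (i : M ⟶ Y) (p : Y ⟶ N)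
    (w : i ≫ p = 0) (hS : (ShortComplex.mk i p w).ShortExact) (hN : L.d N = 0)
    (hM : L.d M = 0) [PreservesFiniteLimits (tensorLeft b)]
    [PreservesFiniteColimits (tensorLeft b)] :
    ∃ φ : b ⊗ N ⟶ M, (b ◁ p) ≫ φ ≫ i = L.d Y := by
  have : Mono i := hS.mono_f
  have hSb : ((ShortComplex.mk i p w).map (tensorLeft b)).ShortExact :=
    hS.map_of_exact (tensorLeft b)
  have wb : (b ◁ i) ≫ (b ◁ p) = 0 := by
    rw [← whiskerLeft_comp, w, MonoidalPreadditive.whiskerLeft_zero]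
  have hSb' : (ShortComplex.mk (b ◁ i) (b ◁ p) wb).ShortExact := hSb
  have : Epi (b ◁ p) := hSb'.epi_g
  -- `d_Y` lands in `M`
  have h1 : L.d Y ≫ p = 0 := by rw [← L.nat p, hN, comp_zero]
  let ψ : b ⊗ Y ⟶ M := hS.exact.lift (L.d Y) h1
  have hψ : ψ ≫ i = L.d Y := hS.exact.lift_f _ _
  have h2 : (b ◁ i) ≫ ψ = 0 := by
    rw [← cancel_mono i, Category.assoc, hψ, L.nat i, hM, zero_comp]
  let φ : b ⊗ N ⟶ M := hSb'.exact.desc ψ h2
  have hφ : (b ◁ p) ≫ φ = ψ := hSb'.exact.g_desc _ _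
  exact ⟨φ, by rw [← Category.assoc, hφ, hψ]⟩

/-- Row B8. -/
theorem exists_X [IsAlgClosed k] [CharZero k] [HasExt.{w} C] (hC : IsFinite k C)
    (hF : FGC.{w} k C) {b : C} (hb : Invertible b) (L : Leib b)
    (hsq : L.SqZero) (hc : (β_ b b).hom = - 𝟙 (b ⊗ b)) (hne : L.Nonzero) :
    ∃ (X : C) (j : b ⟶ X) (e : X ⟶ 𝟙_ C) (w : j ≫ e = 0), (ShortComplex.mk j e w).ShortExact ∧
      L.d X = (b ◁ e) ≫ (ρ_ b).hom ≫ j := by
  have := hC.enough
  obtain ⟨𝔇⟩ := exists_der (tensorLeft b) L.natTrans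
  by_contra hno
  refine fgc_contradiction hC hF hb L hsq hc hne 𝔇 ?_
  intro N M hN hM hdN hdM x
  by_contra hx
  obtain ⟨Y, i, p, w, hS, rfl⟩ := exists_ses (fun X Y x => ext_factor 0 x) x
  obtain ⟨φ, hφ⟩ := exists_phi L i p w hS hdN hdM
  have h1 := 𝔇.ext₁ (ShortComplex.mk i p w) hS hdM hdN φ hφ
  have hφ0 : φ ≠ 0 := by
    intro h0
    apply hx
    rw [h1, h0, Ext.mk₀_zero]
  exact hno (exists_X_of_ses hC hb L hsq hN hM i p w hS φ hφ0 hφ)

end

end Pool.Agent.MUG
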