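import Pool.Agent.MUG.B6
import Pool.Agent.MUG.B10

open CategoryTheory MonoidalCategory Limits Abelian

universe w w' v v' u u'

set_option linter.unusedSectionVars false

namespace Pool.Agent.MUG

section Braided

variable {k : Type*} [Field k] {C : Type u} [Category.{v} C] [Abelian C] [Linear k C]
  [MonoidalCategory C] [MonoidalPreadditive C] [MonoidalLinear k C] [RigidCategory C]
  [BraidedCategory C]

theorem b9_aux {b : C} (L : Leib b) {X : C} (j : b ⟶ X)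
    (e : X ⟶ 𝟙_ C) (w : j ≫ e = 0) (hS : (ShortComplex.mk j e w).ShortExact)
    (hd : L.d X = (b ◁ e) ≫ (ρ_ b).hom ≫ j) (P Q : C) [Projective P] (a : b ⊗ Q ⟶ P)
    (π : P ⟶ Q) (wa : a ≫ π = 0) (ha : (b ◁ π) ≫ a = L.d P)
    (hSa : (ShortComplex.mk a π wa).ShortExact) (hQ : L.d Q = 0) :
    Projective (X ⊗ Q) := by
  have he : Epi e := hS.epi_g
  have hπe : Epi π := hSa.epi_g
  have heQ : Epi (e ▷ Q) := inferInstanceAs (Epi ((tensorRight Q).map e))
  have heQ' : Epi ((e ▷ Q) ≫ (λ_ Q).hom) := epi_comp _ _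
  obtain ⟨f, hf⟩ : ∃ f : P ⟶ X ⊗ Q, f ≫ (e ▷ Q) ≫ (λ_ Q).hom = π :=
    ⟨Projective.factorThru π ((e ▷ Q) ≫ (λ_ Q).hom), Projective.factorThru_comp _ _⟩
  have hbπ : Epi (b ◁ π) := b6_epi_left b π
  have hnat := L.nat f
  rw [leib_tensor_of_zero L X Q hQ, hd, ← ha] at hnat
  have hkey : a ≫ f = j ▷ Q := by
    rw [← cancel_epi (b ◁ π), ← Category.assoc, ← hnat, ← hf]
    simp
  -- the second short exact sequence
  have hSQ : ((ShortComplex.mk j e w).map (tensorRight Q)).ShortExact :=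
    hS.map_of_exact (tensorRight Q)
  let φ : ShortComplex.mk a π wa ⟶ (ShortComplex.mk j e w).map (tensorRight Q) :=
    { τ₁ := 𝟙 _
      τ₂ := f
      τ₃ := (λ_ Q).inv
      comm₁₂ := by
        change 𝟙 (b ⊗ Q) ≫ (j ▷ Q) = a ≫ f
        rw [hkey, Category.id_comp]
      comm₂₃ := by
        change f ≫ (e ▷ Q) = π ≫ (λ_ Q).inv
        rw [← hf]
        simp }
  have h1 : IsIso φ.τ₁ := by
    change IsIso (𝟙 (b ⊗ Q))
    infer_instance
  have h3 : IsIso φ.τ₃ := by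
    change IsIso (λ_ Q).inv
    infer_instance
  have h2 : IsIso φ.τ₂ := ShortComplex.isIso₂_of_shortExact_of_isIso₁₃ φ hSa hSQ
  have h2' : IsIso f := h2
  exact Projective.of_iso (asIso f) inferInstance

/-- Row B9 (4.3). -/
theorem projective_tensor {b : C} (L : Leib b) (hsq : L.SqZero) {X : C} (j : b ⟶ X)
    (e : X ⟶ 𝟙_ C) (w : j ≫ e = 0) (hS : (ShortComplex.mk j e w).ShortExact)
    (hd : L.d X = (b ◁ e) ≫ (ρ_ b).hom ≫ j) (P : C) [Projective P] :
    Projective (X ⊗ cokernel (L.d P)) := by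
  have he : Epi e := hS.epi_g
  have hj : Mono j := hS.mono_f
  have hW : kernel.ι (L.d X) ≫ (b ◁ e) = 0 := by
    have h := kernel.condition (L.d X)
    have hm : Mono ((ρ_ b).hom ≫ j) := mono_comp _ _
    rw [← cancel_mono ((ρ_ b).hom ≫ j), zero_comp, Category.assoc, ← hd, h]
  have heP : Epi ((e ▷ P) ≫ (λ_ P).hom) := by
    have : Epi (e ▷ P) := inferInstanceAs (Epi ((tensorRight P).map e))
    exact epi_comp _ _
  obtain ⟨s, hs⟩ : ∃ s : P ⟶ X ⊗ P, s ≫ (e ▷ P) ≫ (λ_ P).hom = 𝟙 P :=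
    ⟨Projective.factorThru (𝟙 P) ((e ▷ P) ≫ (λ_ P).hom), Projective.factorThru_comp _ _⟩
  obtain ⟨a, wa, ha, hSa⟩ := exactness L hsq e hW P s hs
  exact b9_aux L j e w hS hd P _ a _ wa ha hSa (b6_coker L P)

end Braided

end Pool.Agent.MUG
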