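import Pool.Agent.MUG.Leib

/-! Row E5 (dimension shift): the transfer map is bijective in all degrees. -/

open CategoryTheory MonoidalCategory Limits Abelian

universe w w' v v' u u'

namespace Pool.Agent.MUG

section ExtRows

variable {A : Type u} [Category.{v} A] [Abelian A] [HasExt.{w} A]
  {B : Type u'} [Category.{v'} B] [Abelian B] [HasExt.{w'} B]

/-- Row E5 (DS), dimension shift. -/
theorem ds_bijective [EnoughProjectives A] (i G : A ⥤ B) [i.Additive] [G.Additive]
    [PreservesFiniteLimits i] [PreservesFiniteColimits i]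
    [PreservesFiniteLimits G] [PreservesFiniteColimits G]
    (hG : ∀ P : A, Projective P → Projective (G.obj P)) (θ : G ⟶ i)
    (h0 : ∀ N M : A, Function.Bijective (fun f : N ⟶ M => θ.app N ≫ i.map f))
    (N M : A) (n : ℕ) :
    Function.Bijective (fun x : Ext N M n =>
      (Ext.mk₀ (θ.app N)).comp (x.mapExactFunctor i) (zero_add n)) := by
  -- the map as an additive homomorphism
  induction n generalizing N with
  | zero =>
    constructor
    · intro x y hxy
      obtain ⟨f, rfl⟩ := (Ext.mk₀_bijective N M).2 x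
      obtain ⟨g, rfl⟩ := (Ext.mk₀_bijective N M).2 y
      have h1 : (Ext.mk₀ (θ.app N)).comp ((Ext.mk₀ f).mapExactFunctor i) (zero_add 0) =
        (Ext.mk₀ (θ.app N)).comp ((Ext.mk₀ g).mapExactFunctor i) (zero_add 0) := hxy
      rw [Ext.mapExactFunctor_mk₀, Ext.mapExactFunctor_mk₀, Ext.mk₀_comp_mk₀,
        Ext.mk₀_comp_mk₀] at h1
      have h2 := (Ext.mk₀_bijective _ _).1 h1
      rw [(h0 N M).1 h2]
    · intro y
      obtain ⟨g, rfl⟩ := (Ext.mk₀_bijective _ _).2 y
      obtain ⟨f, hf⟩ := (h0 N M).2 g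
      refine ⟨Ext.mk₀ f, ?_⟩
      change (Ext.mk₀ (θ.app N)).comp ((Ext.mk₀ f).mapExactFunctor i) (zero_add 0) = _
      rw [Ext.mapExactFunctor_mk₀, Ext.mk₀_comp_mk₀]
      exact congrArg _ hf
  | succ n ih =>
    let P : ProjectivePresentation N := Classical.arbitrary _
    let S := ShortComplex.mk _ _ (kernel.condition P.f)
    have hS : S.ShortExact := { exact := ShortComplex.exact_kernel P.f }
    have hP : Projective S.X₂ := P.projective
    have hGP : Projective (G.obj S.X₂) := hG _ hP
    -- naturality of the class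
    have hnat : (Ext.mk₀ (θ.app S.X₃)).comp (hS.extClass.mapExactFunctor i) (zero_add 1) =
        (hS.map_of_exact G).extClass.comp (Ext.mk₀ (θ.app S.X₁)) (add_zero 1) := by
      rw [Ext.mapExactFunctor_extClass]
      exact (ShortComplex.ShortExact.extClass_naturality (hS.map_of_exact G)
        (hS.map_of_exact i)
        { τ₁ := θ.app S.X₁, τ₂ := θ.app S.X₂, τ₃ := θ.app S.X₃,
          comm₁₂ := (θ.naturality S.f).symm, comm₂₃ := (θ.naturality S.g).symm }).symm
    have hstep : ∀ (y : Ext S.X₁ M n),
        (Ext.mk₀ (θ.app N)).comp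
          ((hS.extClass.comp y (add_comm 1 n)).mapExactFunctor i) (zero_add (n + 1)) =
        (hS.map_of_exact G).extClass.comp
          ((Ext.mk₀ (θ.app S.X₁)).comp (y.mapExactFunctor i) (zero_add n)) (add_comm 1 n) := by
      intro y
      rw [Ext.mapExactFunctor_comp]
      have e1 := congrArg (fun z => z.comp (y.mapExactFunctor i) (add_comm 1 n)) hnat
      have a1 := Ext.comp_assoc (Ext.mk₀ (θ.app S.X₃)) (hS.extClass.mapExactFunctor i)
        (y.mapExactFunctor i) (zero_add 1) (add_comm 1 n) (show 0 + 1 + n = n + 1 by omega)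
      have a2 := Ext.comp_assoc (hS.map_of_exact G).extClass (Ext.mk₀ (θ.app S.X₁))
        (y.mapExactFunctor i) (add_zero 1) (zero_add n) (show 1 + 0 + n = n + 1 by omega)
      exact a1.symm.trans (e1.trans a2)
    constructor
    · -- injective
      have key : ∀ x : Ext N M (n + 1),
          (Ext.mk₀ (θ.app N)).comp (x.mapExactFunctor i) (zero_add (n + 1)) = 0 → x = 0 := by
        intro x hx
        obtain ⟨y, rfl⟩ := Ext.contravariant_sequence_exact₃ hS M x
          (Ext.eq_zero_of_projective (P := S.X₂) _) (add_comm 1 n)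
        rw [hstep] at hx
        obtain ⟨z, hz⟩ := Ext.contravariant_sequence_exact₁ (hS.map_of_exact G) (i.obj M) _
          (add_comm 1 n) hx
        obtain ⟨z', rfl⟩ := (ih S.X₂).2 z
        have e2 : (Ext.mk₀ (θ.app S.X₁)).comp (y.mapExactFunctor i) (zero_add n) =
            (Ext.mk₀ (θ.app S.X₁)).comp
              (((Ext.mk₀ S.f).comp z' (zero_add n)).mapExactFunctor i) (zero_add n) := by
          rw [← hz, Ext.mapExactFunctor_comp, Ext.mapExactFunctor_mk₀]
          change (Ext.mk₀ (G.map S.f)).comp ((Ext.mk₀ (θ.app S.X₂)).comp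
            (z'.mapExactFunctor i) (zero_add n)) (zero_add n) = _
          rw [← Ext.comp_assoc (Ext.mk₀ (G.map S.f)) (Ext.mk₀ (θ.app S.X₂))
              (z'.mapExactFunctor i) (zero_add 0) (zero_add n) (by omega),
            ← Ext.comp_assoc (Ext.mk₀ (θ.app S.X₁)) (Ext.mk₀ (i.map S.f))
              (z'.mapExactFunctor i) (zero_add 0) (zero_add n) (by omega),
            Ext.mk₀_comp_mk₀, Ext.mk₀_comp_mk₀, θ.naturality]
        have e3 := (ih S.X₁).1 e2
        rw [e3, ← Ext.comp_assoc hS.extClass (Ext.mk₀ S.f) z' (add_zero 1) (zero_add n)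
          (by omega), hS.extClass_comp, Ext.zero_comp]
      intro x y hxy
      have h1 : (Ext.mk₀ (θ.app N)).comp (x.mapExactFunctor i) (zero_add (n + 1)) =
        (Ext.mk₀ (θ.app N)).comp (y.mapExactFunctor i) (zero_add (n + 1)) := hxy
      rw [← sub_eq_zero]
      apply key
      have e4 : (x - y).mapExactFunctor i = x.mapExactFunctor i - y.mapExactFunctor i :=
        map_sub (i.mapExtAddHom N M (n + 1)) x y
      rw [e4]
      exact (map_sub ((Ext.mk₀ (θ.app N)).precomp (i.obj M) (zero_add (n + 1))) _ _).trans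
        (sub_eq_zero.2 h1)
    · -- surjective
      intro w
      obtain ⟨z, rfl⟩ := Ext.contravariant_sequence_exact₃ (hS.map_of_exact G) (i.obj M) w
        (Ext.eq_zero_of_projective (P := G.obj S.X₂) _) (add_comm 1 n)
      obtain ⟨z', rfl⟩ := (ih S.X₁).2 z
      exact ⟨hS.extClass.comp z' (add_comm 1 n), hstep z'⟩

end ExtRows

end Pool.Agent.MUG
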