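import Pool.Agent.MUG.Leib
import Pool.Agent.MUE79.Ind

/-!
# Row T1 (TRANSFER)
-/

open CategoryTheory MonoidalCategory Limits Abelian

universe w w' v v' u u'

set_option linter.unusedSectionVars false

namespace Pool.Agent.MUG

namespace Tr

section basic

variable {A : Type u} [Category.{v} A] [Abelian A] [HasExt.{w} A]

/-- precomposition with a morphism -/
noncomputable def pre {X Y Z : A} {n : ℕ} (f : X ⟶ Y) (x : Ext Y Z n) : Ext X Z n :=
  (Ext.mk₀ f).comp x (zero_add n)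

/-- postcomposition with a morphism -/
noncomputable def post {X Y Z : A} {n : ℕ} (x : Ext X Y n) (g : Y ⟶ Z) : Ext X Z n :=
  x.comp (Ext.mk₀ g) (add_zero n)

theorem pre_pre {X Y Z V : A} {n : ℕ} (f : X ⟶ Y) (g : Y ⟶ Z) (x : Ext Z V n) :
    pre f (pre g x) = pre (f ≫ g) x := Ext.mk₀_comp_mk₀_assoc f g x

theorem post_post {X Y Z V : A} {n : ℕ} (x : Ext X Y n) (f : Y ⟶ Z) (g : Z ⟶ V) :
    post (post x f) g = post x (f ≫ g) := by
  unfold post
  rw [Ext.comp_assoc_of_third_deg_zero, Ext.mk₀_comp_mk₀]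

theorem pre_post {X Y Z V : A} {n : ℕ} (f : X ⟶ Y) (x : Ext Y Z n) (g : Z ⟶ V) :
    pre f (post x g) = post (pre f x) g := by
  unfold post pre
  rw [Ext.comp_assoc_of_third_deg_zero]

theorem post_comp {X Y Z V : A} {a b c : ℕ} (x : Ext X Y a) (g : Y ⟶ Z) (y : Ext Z V b)
    (h : a + b = c) : (post x g).comp y h = x.comp (pre g y) h := by
  unfold post pre
  rw [Ext.comp_assoc_of_second_deg_zero]

theorem pre_comp {X Y Z V : A} {a b c : ℕ} (f : X ⟶ Y) (x : Ext Y Z a) (y : Ext Z V b)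
    (h : a + b = c) : pre f (x.comp y h) = (pre f x).comp y h := by
  unfold pre
  rw [Ext.comp_assoc (a₁₂ := a) (a₂₃ := c) _ _ _ (zero_add a) h (by omega)]

theorem comp_post {X Y Z V : A} {a b c : ℕ} (x : Ext X Y a) (y : Ext Y Z b) (g : Z ⟶ V)
    (h : a + b = c) : post (x.comp y h) g = x.comp (post y g) h := by
  unfold post
  rw [Ext.comp_assoc_of_third_deg_zero]

theorem pre_id {X Y : A} {n : ℕ} (x : Ext X Y n) : pre (𝟙 X) x = x := Ext.mk₀_id_comp x

theorem post_id {X Y : A} {n : ℕ} (x : Ext X Y n) : post x (𝟙 Y) = x := Ext.comp_mk₀_id x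

variable {B : Type u'} [Category.{v'} B] [Abelian B] [HasExt.{w'} B]

theorem map_pre (F : A ⥤ B) [F.Additive] [PreservesFiniteLimits F] [PreservesFiniteColimits F]
    {X Y Z : A} {n : ℕ} (f : X ⟶ Y) (x : Ext Y Z n) :
    (pre f x).mapExactFunctor F = pre (F.map f) (x.mapExactFunctor F) := by
  unfold pre
  rw [Ext.mapExactFunctor_comp, Ext.mapExactFunctor_mk₀]

theorem map_post (F : A ⥤ B) [F.Additive] [PreservesFiniteLimits F] [PreservesFiniteColimits F]
    {X Y Z : A} {n : ℕ} (x : Ext X Y n) (g : Y ⟶ Z) :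
    (post x g).mapExactFunctor F = post (x.mapExactFunctor F) (F.map g) := by
  unfold post
  rw [Ext.mapExactFunctor_comp, Ext.mapExactFunctor_mk₀]

theorem nat' [EnoughProjectives A] {F G : A ⥤ B} [F.Additive] [PreservesFiniteLimits F]
    [PreservesFiniteColimits F] [G.Additive] [PreservesFiniteLimits G]
    [PreservesFiniteColimits G] (τ : F ⟶ G) {X Y : A} {n : ℕ} (x : Ext X Y n) :
    post (x.mapExactFunctor F) (τ.app Y) = pre (τ.app X) (x.mapExactFunctor G) :=
  MUE79.map_nat τ x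

end basic

section kappa

variable {k : Type*} [Field k]
  {A : Type u} [Category.{v} A] [Abelian A] [Linear k A] [MonoidalCategory A]
  [MonoidalPreadditive A] [RigidCategory A] [HasExt.{w} A]
  {T : Type u'} [Category.{v'} T] [Abelian T] [Linear k T] [MonoidalCategory T]
  [MonoidalPreadditive T] [RigidCategory T] [HasExt.{w'} T]

/-- `W ⊗ Y ⟶ Y`. -/
def th {W : A} (e : W ⟶ 𝟙_ A) : tensorLeft W ⟶ 𝟭 A where
  app Y := (e ▷ Y) ≫ (λ_ Y).hom
  naturality Y Y' f := by
    dsimp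
    rw [whisker_exchange_assoc, leftUnitor_naturality, Category.assoc]

omit [RigidCategory A] [MonoidalPreadditive A] [Abelian A] [HasExt A] [Linear k A] in
theorem th_unit {W : A} (e : W ⟶ 𝟙_ A) {U : A} (f : 𝟙_ A ⟶ U) :
    (W ◁ f) ≫ (th e).app U = (ρ_ W).hom ≫ e ≫ f := by
  have h : (W ◁ f) ≫ (th e).app U = (th e).app (𝟙_ A) ≫ f := (th e).naturality f
  rw [h]
  change ((e ▷ 𝟙_ A) ≫ (λ_ (𝟙_ A)).hom) ≫ f = _
  rw [unitors_equal, rightUnitor_naturality, Category.assoc]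

/-- naturality for classes in `A` -/
theorem th_nat [EnoughProjectives A] {W : A} (e : W ⟶ 𝟙_ A) {X Y : A} {n : ℕ} (x : Ext X Y n) :
    post (x.mapExactFunctor (tensorLeft W)) ((th e).app Y) = pre ((th e).app X) x := by
  have h := nat' (th e) x
  rw [h]
  exact congrArg (fun z => pre ((th e).app X) z) (MUE79.map_id x)

/-- `ε^* act(ζ) = (ε^* ζ ⊗ X)`, depends only on `ε^* ζ`. -/
theorem pre_th_act {W : A} (e : W ⟶ 𝟙_ A) (X : A) {n : ℕ} (ζ ζ' : Ext (𝟙_ A) (𝟙_ A) n)
    (h : pre e ζ = pre e ζ') : pre ((th e).app X) (act X ζ) = pre ((th e).app X) (act X ζ') := by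
  have key : ∀ z : Ext (𝟙_ A) (𝟙_ A) n, pre ((th e).app X) (act X z) =
      post ((pre e z).mapExactFunctor (tensorRight X)) (λ_ X).hom := by
    intro z
    have h1 : act X z = pre (λ_ X).inv (post (z.mapExactFunctor (tensorRight X)) (λ_ X).hom) :=
      rfl
    rw [h1, pre_pre, map_pre, pre_post]
    congr 2
    change ((e ▷ X) ≫ (λ_ X).hom) ≫ (λ_ X).inv = e ▷ X
    rw [Category.assoc, Iso.hom_inv_id, Category.comp_id]
  rw [key, key, h]


section functor

variable (i : T ⥤ A) [i.Additive] [i.Linear k] [PreservesFiniteLimits i]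
    [PreservesFiniteColimits i] [i.Monoidal]

/-- The tensorator as a natural transformation. -/
@[simps]
def muNat (X : T) : i ⋙ tensorRight (i.obj X) ⟶ tensorRight X ⋙ i where
  app Y := Functor.LaxMonoidal.μ i Y X
  naturality _ _ f := Functor.LaxMonoidal.μ_natural_left i f X

omit [Linear k T] [Linear k A] [i.Linear k] in
/-- `i` is compatible with `act`. -/
theorem map_act [EnoughProjectives T] (X : T) {n : ℕ} (z : Ext (𝟙_ T) (𝟙_ T) n) :
    (act X z).mapExactFunctor i = act (i.obj X)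
      (pre (Functor.LaxMonoidal.ε i) (post (z.mapExactFunctor i) (Functor.OplaxMonoidal.η i))) := by
  have h1 : act X z = pre (λ_ X).inv (post (z.mapExactFunctor (tensorRight X)) (λ_ X).hom) := rfl
  have h2 : ∀ y : Ext (𝟙_ A) (𝟙_ A) n, act (i.obj X) y = pre (λ_ (i.obj X)).inv
    (post (y.mapExactFunctor (tensorRight (i.obj X))) (λ_ (i.obj X)).hom) := fun _ => rfl
  rw [h1, h2, map_pre, map_post, map_pre, map_post]
  have h3 : ((z.mapExactFunctor (tensorRight X)).mapExactFunctor i : Ext _ _ n) =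
      (z.mapExactFunctor (tensorRight X ⋙ i) : Ext (i.obj (𝟙_ T ⊗ X)) (i.obj (𝟙_ T ⊗ X)) n) :=
    (MUE79.map_comp (tensorRight X) i z).symm
  have h4 : ((z.mapExactFunctor i).mapExactFunctor (tensorRight (i.obj X)) : Ext _ _ n) =
      (z.mapExactFunctor (i ⋙ tensorRight (i.obj X)) :
        Ext (i.obj (𝟙_ T) ⊗ i.obj X) (i.obj (𝟙_ T) ⊗ i.obj X) n) :=
    (MUE79.map_comp i (tensorRight (i.obj X)) z).symm
  have h5 : post (z.mapExactFunctor (i ⋙ tensorRight (i.obj X)) :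
        Ext (i.obj (𝟙_ T) ⊗ i.obj X) (i.obj (𝟙_ T) ⊗ i.obj X) n) (Functor.LaxMonoidal.μ i (𝟙_ T) X) =
      pre (Functor.LaxMonoidal.μ i (𝟙_ T) X) (z.mapExactFunctor (tensorRight X ⋙ i) :
        Ext (i.obj (𝟙_ T ⊗ X)) (i.obj (𝟙_ T ⊗ X)) n) := nat' (muNat i X) z
  refine (congrArg (fun y => pre (i.map (λ_ X).inv) (post y (i.map (λ_ X).hom))) h3).trans ?_
  refine Eq.trans ?_ (congrArg (fun y => pre (λ_ (i.obj X)).inv (post
    (pre (Functor.LaxMonoidal.ε i ▷ i.obj X) (post y (Functor.OplaxMonoidal.η i ▷ i.obj X)))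
      (λ_ (i.obj X)).hom)) h4).symm
  rw [Functor.Monoidal.map_leftUnitor, Functor.Monoidal.map_leftUnitor_inv, ← pre_pre, ← pre_pre,
    pre_post (Functor.LaxMonoidal.μ i (𝟙_ T) X), ← h5, post_post,
    Functor.Monoidal.μ_δ_assoc, ← pre_post, post_post]

/-- The map `x ↦ ε^* (i x)`. -/
noncomputable def EE (k : Type*) [Field k] [Linear k A] [Linear k T] [i.Linear k] {W : A}
    (e : W ⟶ 𝟙_ A) (N M : T) (n : ℕ) :
    Ext N M n →ₗ[k] Ext (W ⊗ i.obj N) (i.obj M) n :=
  (Ext.precompOfLinear (X := W ⊗ i.obj N) (Y := i.obj N) (Ext.mk₀ ((th e).app (i.obj N))) k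
    (i.obj M) (zero_add n)) ∘ₗ i.mapExtLinearMap k N M n

theorem EE_apply {W : A} (e : W ⟶ 𝟙_ A) (N M : T) (n : ℕ) (x : Ext N M n) :
    EE i k e N M n x = pre ((th e).app (i.obj N)) (x.mapExactFunctor i) := rfl

variable {W : A} (e : W ⟶ 𝟙_ A)
  (hbij : ∀ (N M : T) (n : ℕ), Function.Bijective (EE i k e N M n))

/-- The map `κ : Ext_A(iN, iM) ⟶ Ext_T(N, M)`: `κ g` is the class with `ε^* (i (κ g)) = ε^* g`. -/
noncomputable def kap (N M : T) (n : ℕ) : Ext (i.obj N) (i.obj M) n →ₗ[k] Ext N M n :=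
  (LinearEquiv.ofBijective _ (hbij N M n)).symm.toLinearMap ∘ₗ
    (Ext.precompOfLinear (X := W ⊗ i.obj N) (Y := i.obj N) (Ext.mk₀ ((th e).app (i.obj N))) k
      (i.obj M) (zero_add n))

theorem kap_spec {N M : T} {n : ℕ} (g : Ext (i.obj N) (i.obj M) n) :
    pre ((th e).app (i.obj N)) ((kap i e hbij N M n g).mapExactFunctor i) =
      pre ((th e).app (i.obj N)) g :=
  (LinearEquiv.ofBijective _ (hbij N M n)).apply_symm_apply _

include hbij in
theorem inj {N M : T} {n : ℕ} {x y : Ext N M n}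
    (h : pre ((th e).app (i.obj N)) (x.mapExactFunctor i) =
      pre ((th e).app (i.obj N)) (y.mapExactFunctor i)) : x = y :=
  (hbij N M n).1 h

theorem kap_map {N M : T} {n : ℕ} (x : Ext N M n) :
    kap i e hbij N M n (x.mapExactFunctor i) = x :=
  inj i e hbij (kap_spec i e hbij _)

theorem kap_comp [EnoughProjectives A] {N N' M : T} {a b c : ℕ} (g : Ext (i.obj N) (i.obj N') a)
    (g' : Ext (i.obj N') (i.obj M) b) (h : a + b = c) :
    kap i e hbij N M c (g.comp g' h) =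
      (kap i e hbij N N' a g).comp (kap i e hbij N' M b g') h := by
  refine inj i e hbij ?_
  have h1 : pre ((th e).app (i.obj N))
      (((kap i e hbij N N' a g).comp (kap i e hbij N' M b g') h).mapExactFunctor i) =
      (pre ((th e).app (i.obj N)) g).comp g' h := by
    calc
      _ = (pre ((th e).app (i.obj N)) ((kap i e hbij N N' a g).mapExactFunctor i)).comp
            ((kap i e hbij N' M b g').mapExactFunctor i) h := by
          rw [Ext.mapExactFunctor_comp, pre_comp]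
      _ = (((kap i e hbij N N' a g).mapExactFunctor i).mapExactFunctor (tensorLeft W)).comp
            (pre ((th e).app (i.obj N')) ((kap i e hbij N' M b g').mapExactFunctor i)) h := by
          rw [← th_nat, post_comp]
      _ = (((kap i e hbij N N' a g).mapExactFunctor i).mapExactFunctor (tensorLeft W)).comp
            (pre ((th e).app (i.obj N')) g') h := by rw [kap_spec]
      _ = (pre ((th e).app (i.obj N)) ((kap i e hbij N N' a g).mapExactFunctor i)).comp
            g' h := by rw [← post_comp, th_nat]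
      _ = _ := by rw [kap_spec]
  rw [kap_spec, h1, pre_comp]

/-- The map on classes of the unit. -/
noncomputable def kap1 (n : ℕ) : Ext (𝟙_ A) (𝟙_ A) n →ₗ[k] Ext (𝟙_ T) (𝟙_ T) n :=
  kap i e hbij (𝟙_ T) (𝟙_ T) n ∘ₗ
    (Ext.precompOfLinear (Ext.mk₀ (Functor.OplaxMonoidal.η i)) k (i.obj (𝟙_ T)) (zero_add n)) ∘ₗ
    (Ext.postcompOfLinear (Ext.mk₀ (Functor.LaxMonoidal.ε i)) k (𝟙_ A) (add_zero n))

theorem kap1_apply {n : ℕ} (ζ : Ext (𝟙_ A) (𝟙_ A) n) :
    kap1 i e hbij n ζ = kap i e hbij (𝟙_ T) (𝟙_ T) n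
      (pre (Functor.OplaxMonoidal.η i) (post ζ (Functor.LaxMonoidal.ε i))) := rfl

theorem kap1_surj {n : ℕ} (z : Ext (𝟙_ T) (𝟙_ T) n) : ∃ ζ, kap1 i e hbij n ζ = z := by
  refine ⟨pre (Functor.LaxMonoidal.ε i)
    (post (z.mapExactFunctor i) (Functor.OplaxMonoidal.η i)), ?_⟩
  rw [kap1_apply, ← pre_post, pre_pre, post_post, Functor.Monoidal.η_ε, pre_id, post_id, kap_map]

theorem kap1_one : kap1 i e hbij 0 (Ext.mk₀ (𝟙 _)) = Ext.mk₀ (𝟙 _) := by
  have h : pre (Functor.OplaxMonoidal.η i) (post (Ext.mk₀ (𝟙 (𝟙_ A))) (Functor.LaxMonoidal.ε i)) =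
      (Ext.mk₀ (𝟙 (𝟙_ T))).mapExactFunctor i := by
    unfold pre post
    rw [Ext.mapExactFunctor_mk₀, Ext.mk₀_comp_mk₀, Ext.mk₀_comp_mk₀, Category.id_comp,
      Functor.Monoidal.η_ε, i.map_id]
  rw [kap1_apply, h, kap_map]

theorem kap1_comp [EnoughProjectives A] {a b c : ℕ} (g : Ext (𝟙_ A) (𝟙_ A) a)
    (g' : Ext (𝟙_ A) (𝟙_ A) b) (h : a + b = c) :
    kap1 i e hbij c (g.comp g' h) = (kap1 i e hbij a g).comp (kap1 i e hbij b g') h := by
  rw [kap1_apply, kap1_apply, kap1_apply, ← kap_comp]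
  congr 1
  rw [pre_post (Functor.OplaxMonoidal.η i) g, post_comp, pre_pre,
    Functor.Monoidal.ε_η, pre_id, comp_post, pre_comp]

theorem kap_act [EnoughProjectives A] [EnoughProjectives T] (X : T) {n : ℕ}
    (ζ : Ext (𝟙_ A) (𝟙_ A) n) :
    kap i e hbij X X n (act (i.obj X) ζ) = act X (kap1 i e hbij n ζ) := by
  refine inj i e hbij ?_
  rw [kap_spec, map_act]
  refine pre_th_act e _ _ _ ?_
  have h1 := kap_spec i e hbij
    (pre (Functor.OplaxMonoidal.η i) (post ζ (Functor.LaxMonoidal.ε i)))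
  rw [← kap1_apply] at h1
  have h2 : ∀ x : Ext (i.obj (𝟙_ T)) (i.obj (𝟙_ T)) n,
      pre ((ρ_ W).inv ≫ (W ◁ Functor.LaxMonoidal.ε i)) (pre ((th e).app (i.obj (𝟙_ T))) x) =
        pre e (pre (Functor.LaxMonoidal.ε i) x) := by
    intro x
    have h3 := th_unit e (Functor.LaxMonoidal.ε i)
    rw [pre_pre e, ← pre_pre (ρ_ W).inv]
    have h4 : pre (W ◁ Functor.LaxMonoidal.ε i) (pre ((th e).app (i.obj (𝟙_ T))) x) =
        pre ((ρ_ W).hom ≫ e ≫ Functor.LaxMonoidal.ε i) x := by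
      rw [← h3]
      exact pre_pre _ _ _
    rw [h4, pre_pre, Iso.inv_hom_id_assoc]
  have h5 := congrArg (fun y => post
    (pre ((ρ_ W).inv ≫ (W ◁ Functor.LaxMonoidal.ε i)) y) (Functor.OplaxMonoidal.η i)) h1
  simp only [h2] at h5
  rw [pre_pre (Functor.LaxMonoidal.ε i), Functor.Monoidal.ε_η, pre_id, ← pre_post, ← pre_post,
    ← pre_post, post_post, Functor.Monoidal.ε_η, post_id] at h5
  exact h5.symm

end functor

end kappa

end Tr

section Transfer

variable {k : Type*} [Field k]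
  {A : Type u} [Category.{v} A] [Abelian A] [Linear k A] [MonoidalCategory A]
  [MonoidalPreadditive A] [MonoidalLinear k A] [RigidCategory A] [HasExt.{w} A]
  {T : Type u'} [Category.{v'} T] [Abelian T] [Linear k T] [MonoidalCategory T]
  [MonoidalPreadditive T] [MonoidalLinear k T] [RigidCategory T] [HasExt.{w'} T]

/-- Row T1 (TRANSFER). -/
theorem fgc_transfer [EnoughProjectives T] [EnoughProjectives A]
    (i : T ⥤ A) [i.Additive] [i.Linear k] [PreservesFiniteLimits i]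
    [PreservesFiniteColimits i] [i.Monoidal] (W : A) (e : W ⟶ 𝟙_ A)
    (hbij : ∀ (N M : T) (n : ℕ), Function.Bijective (fun x : Ext N M n =>
      (Ext.mk₀ ((e ▷ i.obj N) ≫ (λ_ (i.obj N)).hom)).comp (x.mapExactFunctor i) (zero_add n)))
    (hF : FGC.{w} k A) : FGC.{w'} k T := by
  have hb : ∀ (N M : T) (n : ℕ), Function.Bijective (Tr.EE i k e N M n) := hbij
  constructor
  · obtain ⟨r, d, x, hx⟩ := hF.alg
    refine ⟨r, d, fun j => Tr.kap1 i e hb _ (x j), ?_⟩
    intro B h1 h2 h3 n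
    have h4 := hx (fun n => (B n).comap (Tr.kap1 i e hb n)) ?_ ?_ ?_ n
    · refine eq_top_iff.2 fun z _ => ?_
      obtain ⟨ζ, rfl⟩ := Tr.kap1_surj i e hb z
      have h5 : ζ ∈ (B n).comap (Tr.kap1 i e hb n) := by rw [h4]; trivial
      exact h5
    · change Tr.kap1 i e hb 0 _ ∈ B 0
      rw [Tr.kap1_one]
      exact h1
    · exact fun j => h2 j
    · intro m n a b ha hb'
      change Tr.kap1 i e hb _ _ ∈ B (m + n)
      rw [Tr.kap1_comp]
      exact h3 m n _ _ ha hb'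
  · intro X Y
    obtain ⟨r, d, y, hy⟩ := hF.mod (i.obj X) (i.obj Y)
    refine ⟨r, d, fun j => Tr.kap i e hb X Y _ (y j), ?_⟩
    intro B h2 h3 n
    have h4 := hy (fun n => (B n).comap (Tr.kap i e hb X Y n)) ?_ ?_ n
    · refine eq_top_iff.2 fun z _ => ?_
      have h5 : z.mapExactFunctor i ∈ (B n).comap (Tr.kap i e hb X Y n) := by rw [h4]; trivial
      have h6 : Tr.kap i e hb X Y n (z.mapExactFunctor i) ∈ B n := h5
      rwa [Tr.kap_map] at h6
    · exact fun j => h2 j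
    · intro m n ζ b hb'
      change Tr.kap i e hb X Y _ _ ∈ B (m + n)
      rw [Tr.kap_comp, Tr.kap_act]
      exact h3 m n _ _ hb'

end Transfer

end Pool.Agent.MUG
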