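import Pool.Agent.MUG.B3
import Pool.Agent.MUG.B4
import Pool.Agent.MUG.B5
import Pool.Agent.MUG.B8c
import Pool.Agent.MUG.B9
import Pool.Agent.MUG.B10
import Pool.Agent.MUG.E5
import Pool.Agent.MUG.T1

open CategoryTheory MonoidalCategory Limits Abelian

universe w w' v v' u u'

namespace Pool.Agent.MUG

section

variable {k : Type*} [Field k]
  {A : Type u} [Category.{v} A] [Abelian A] [Linear k A] [MonoidalCategory A]
  [MonoidalPreadditive A] [MonoidalLinear k A] [RigidCategory A] [HasExt.{w} A]
  {T : Type u'} [Category.{v'} T] [Abelian T] [Linear k T] [MonoidalCategory T]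
  [MonoidalPreadditive T] [MonoidalLinear k T] [RigidCategory T] [HasExt.{w'} T]

omit [Linear k A] [MonoidalLinear k A] [Linear k T] [MonoidalCategory T]
  [MonoidalPreadditive T] [MonoidalLinear k T] [RigidCategory T] in
/-- Dimension shift for the functor `W ⊗ i(-)`. -/
theorem hbij_of [EnoughProjectives T] (i : T ⥤ A) [i.Additive] [PreservesFiniteLimits i]
    [PreservesFiniteColimits i] (W : A) (e : W ⟶ 𝟙_ A)
    (hP : ∀ Q : T, Projective Q → Projective (W ⊗ i.obj Q))
    (h0 : ∀ N M : T, Function.Bijective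
      (fun f : N ⟶ M => (e ▷ i.obj N) ≫ (λ_ (i.obj N)).hom ≫ i.map f))
    (N M : T) (n : ℕ) : Function.Bijective (fun x : Ext N M n =>
      (Ext.mk₀ ((e ▷ i.obj N) ≫ (λ_ (i.obj N)).hom)).comp (x.mapExactFunctor i)
        (zero_add n)) := by
  let θ : (i ⋙ tensorLeft W) ⟶ i :=
    { app := fun N => (e ▷ i.obj N) ≫ (λ_ (i.obj N)).hom
      naturality := by
        intro X Y f
        dsimp
        rw [whisker_exchange_assoc, Category.assoc, leftUnitor_naturality] }
  exact ds_bijective i (i ⋙ tensorLeft W) hP θ (fun N M => by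
    have := h0 N M
    simpa [θ] using this) N M n

omit [Linear k A] [MonoidalLinear k A] [Linear k T] [MonoidalCategory T]
  [MonoidalPreadditive T] [MonoidalLinear k T] [RigidCategory T] [HasExt.{w} A]
  [HasExt.{w'} T] in
/-- `W ⊗ i Q` is projective. -/
theorem proj_of [BraidedCategory A] [EnoughProjectives A] {b : A} (L : Leib b) (i : T ⥤ A)
    [i.Full] [i.Faithful] [PreservesFiniteColimits i] (hess : ∀ Y : A, L.d Y = 0 ↔ i.essImage Y)
    (W : A)
    (hW : ∀ P : A, Projective P → Projective (W ⊗ cokernel (L.d P))) (Q : T) (hQ : Projective Q) :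
    Projective (W ⊗ i.obj Q) := by
  have hdQ : L.d (i.obj Q) = 0 := (hess _).2 ⟨Q, ⟨Iso.refl _⟩⟩
  let P := Projective.over (i.obj Q)
  let p : P ⟶ i.obj Q := Projective.π (i.obj Q)
  have h1 : L.d P ≫ p = 0 := by rw [← L.nat p, hdQ, comp_zero]
  have hdc : L.d (cokernel (L.d P)) = 0 := by
    have h1 := L.nat (cokernel.π (L.d P))
    rw [cokernel.condition] at h1
    have : Epi (b ◁ cokernel.π (L.d P)) :=
      inferInstanceAs (Epi ((tensorLeft b).map (cokernel.π (L.d P))))
    rwa [← cancel_epi (b ◁ cokernel.π (L.d P)), comp_zero]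
  obtain ⟨R, ⟨r⟩⟩ := (hess _).1 hdc
  let g : i.obj R ⟶ i.obj Q := r.hom ≫ cokernel.desc (L.d P) p h1
  have hg : Epi g := by
    have : Epi (cokernel.desc (L.d P) p h1) := by
      have : Epi (cokernel.π (L.d P) ≫ cokernel.desc (L.d P) p h1) := by
        rw [cokernel.π_desc]; infer_instance
      exact epi_of_epi (cokernel.π (L.d P)) _
    exact epi_comp _ _
  obtain ⟨g', hg'⟩ := i.map_surjective g
  have : Epi g' := by
    have : Epi (i.map g') := by rw [hg']; exact hg
    exact i.epi_of_epi_map this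
  let s := Projective.factorThru (𝟙 Q) g'
  have hs : s ≫ g' = 𝟙 Q := Projective.factorThru_comp _ _
  have := hW P inferInstance
  have ret : Retract (W ⊗ i.obj Q) (W ⊗ cokernel (L.d P)) :=
    { i := W ◁ (i.map s ≫ r.hom)
      r := W ◁ (r.inv ≫ i.map g')
      retract := by
        rw [← whiskerLeft_comp]
        simp [← Functor.map_comp, hs] }
  exact ret.projective

/-- Row T2 (Theorem A). -/
theorem theoremA [IsAlgClosed k] [CharZero k] [BraidedCategory A] (hA : IsFinite k A)
    (hF : FGC.{w} k A) {b : A} (hb : Invertible b) (ht : Transp b) (L : Leib b)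
    [EnoughProjectives T] (i : T ⥤ A) [i.Additive] [i.Linear k] [PreservesFiniteLimits i]
    [PreservesFiniteColimits i] [i.Monoidal] [i.Full] [i.Faithful]
    (hess : ∀ Y : A, L.d Y = 0 ↔ i.essImage Y) : FGC.{w'} k T := by
  have := hA.enough
  have hd0 : ∀ N : T, L.d (i.obj N) = 0 := fun N => (hess _).2 ⟨N, ⟨Iso.refl _⟩⟩
  by_cases hne : L.Nonzero
  · rcases braiding_sign hA hb ht with hc | hc
    · obtain ⟨Y, hY⟩ := hne
      exact absurd (prim hA hb ht L hc Y) hY
    · have hsq := sqZero hA hb ht L hc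
      obtain ⟨X, j, e, w, hS, hd⟩ := exists_X hA hF hb L hsq hc hne
      refine fgc_transfer i X e (hbij_of i X e ?_ ?_) hF
      · intro Q hQ
        exact proj_of L i hess X (fun P hP => projective_tensor L hsq j e w hS hd P) Q hQ
      · intro N M
        have h1 := hom_bijective L j e w hS hd (i.obj N) (i.obj M) (hd0 N) (hd0 M)
        have h2 : Function.Bijective (fun f : N ⟶ M => i.map f) :=
          ⟨i.map_injective, i.map_surjective⟩
        exact h1.comp h2
  · have hz : ∀ Y, L.d Y = 0 := by
      intro Y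
      by_contra h
      exact hne ⟨Y, h⟩
    refine fgc_transfer i (𝟙_ A) (𝟙 _) (hbij_of i (𝟙_ A) (𝟙 _) ?_ ?_) hF
    · intro Q hQ
      refine proj_of L i hess (𝟙_ A) (fun P hP => ?_) Q hQ
      have aux : ∀ f : b ⊗ P ⟶ P, f = 0 → IsIso (cokernel.π f) := by
        rintro _ rfl; infer_instance
      have h3 : IsIso (cokernel.π (L.d P)) := aux _ (hz P)
      have ret : Retract (𝟙_ A ⊗ cokernel (L.d P)) P :=
        { i := (λ_ _).hom ≫ inv (cokernel.π (L.d P))
          r := cokernel.π (L.d P) ≫ (λ_ _).inv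
          retract := by simp }
      exact ret.projective
    · intro N M
      have h2 : Function.Bijective (fun f : N ⟶ M => i.map f) :=
        ⟨i.map_injective, i.map_surjective⟩
      constructor
      · intro f g h
        dsimp at h
        simp only [id_whiskerRight, Category.id_comp] at h
        exact h2.1 ((cancel_epi _).1 h)
      · intro g
        obtain ⟨f, hf⟩ := h2.2 ((λ_ (i.obj N)).inv ≫ g)
        refine ⟨f, ?_⟩
        dsimp at hf ⊢
        rw [hf]
        simp

end

end Pool.Agent.MUG
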