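import Pool.Agent.MUG.B1
import Pool.Agent.MUG.C4
import Pool.Agent.MUG.FG
import Pool.Agent.MUG.SubExact
import Pool.Agent.MUG.T2

open CategoryTheory MonoidalCategory Limits Abelian

universe w w' v v' u u'

namespace Pool.Agent.MUG

section

variable {k : Type*} [Field k] {Z : Type u} [Category.{v} Z] [Abelian Z] [Linear k Z]
  [MonoidalCategory Z] [MonoidalPreadditive Z] [MonoidalLinear k Z] [RigidCategory Z]

instance instIotaLELin {P P' : ObjectProperty Z} [TensorSub P] [TensorSub P'] (h : P ≤ P') :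
    (ObjectProperty.ιOfLE h).Linear k where
  map_smul := by intros; rfl

instance instIotaLin {P : ObjectProperty Z} [TensorSub P] : (P.ι).Linear k where
  map_smul := by intros; rfl

variable [BraidedCategory Z]

omit [Linear k Z] [MonoidalLinear k Z] in
theorem tensorSub_leib {P : ObjectProperty Z} [hP : TensorSub P] {b : P.FullSubcategory}
    (hT : ∀ {b : P.FullSubcategory} (L : Leib b), Invertible b → TensorSub L.T)
    (hb : Invertible b) (L : Leib b) :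
    TensorSub (fun Y : Z => ∃ h : P Y, L.d ⟨Y, h⟩ = 0) := by
  have hL := hT L hb
  refine ⟨⟨hP.unit, hL.unit⟩, ?_, ?_, ?_, ?_, ?_, ?_⟩
  · rintro X Y ⟨hX, hX'⟩ ⟨hY, hY'⟩
    exact ⟨hP.tensor hX hY, hL.tensor (X := ⟨X, hX⟩) (Y := ⟨Y, hY⟩) hX' hY'⟩
  · rintro X ⟨hX, hX'⟩
    exact ⟨hP.rdual hX, hL.rdual (X := ⟨X, hX⟩) hX'⟩
  · rintro X ⟨hX, hX'⟩
    exact ⟨hP.ldual hX, hL.ldual (X := ⟨X, hX⟩) hX'⟩
  · rintro X Y f hf ⟨hY, hY'⟩
    have hX : P X := hP.sub f hY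
    let f' : (⟨X, hX⟩ : P.FullSubcategory) ⟶ ⟨Y, hY⟩ := ObjectProperty.homMk f
    have : Mono f' := by
      have : Mono (P.ι.map f') := hf
      exact P.ι.mono_of_mono_map this
    exact ⟨hX, hL.sub f' hY'⟩
  · rintro X Y f hf ⟨hX, hX'⟩
    have hY : P Y := hP.quot f hX
    let f' : (⟨X, hX⟩ : P.FullSubcategory) ⟶ ⟨Y, hY⟩ := ObjectProperty.homMk f
    have : Epi f' := by
      have : Epi (P.ι.map f') := hf
      exact P.ι.epi_of_epi_map this
    exact ⟨hY, hL.quot f' hX'⟩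
  · rintro X Y ⟨hX, hX'⟩ ⟨hY, hY'⟩
    have hXY : P (X ⊞ Y) := hP.biprod hX hY
    refine ⟨hXY, ?_⟩
    let q₁ : (⟨X ⊞ Y, hXY⟩ : P.FullSubcategory) ⟶ ⟨X, hX⟩ := ObjectProperty.homMk biprod.fst
    let q₂ : (⟨X ⊞ Y, hXY⟩ : P.FullSubcategory) ⟶ ⟨Y, hY⟩ := ObjectProperty.homMk biprod.snd
    have h1 : L.d ⟨X ⊞ Y, hXY⟩ ≫ q₁ = 0 := by rw [← L.nat q₁, hX', comp_zero]
    have h2 : L.d ⟨X ⊞ Y, hXY⟩ ≫ q₂ = 0 := by rw [← L.nat q₂, hY', comp_zero]
    ext1
    apply biprod.hom_ext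
    · have := congrArg (fun t => t.hom) h1
      simpa [q₁] using this
    · have := congrArg (fun t => t.hom) h2
      simpa [q₂] using this

/-- Row Q5. -/
theorem fg_leib [IsAlgClosed k] [CharZero k] (hZ : IsFinite k Z) (P : ObjectProperty Z)
    (hP : TensorSub P) (hF : FG k P hP) (b : P.FullSubcategory) (hb : Invertible b)
    (ht : Transp b) (L : Leib b) :
    ∃ h' : TensorSub (fun Y : Z => ∃ h : P Y, L.d ⟨Y, h⟩ = 0),
      FG k (fun Y : Z => ∃ h : P Y, L.d ⟨Y, h⟩ = 0) h' := by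
  have h' : TensorSub (fun Y : Z => ∃ h : P Y, L.d ⟨Y, h⟩ = 0) :=
    tensorSub_leib (fun L hb => tensorSub_T hb L) hb L
  refine ⟨h', ?_⟩
  unfold FG at hF ⊢
  have i1 : HasExt.{max u v} P.FullSubcategory := HasExt.standard _
  have i2 : HasExt.{max u v} (ObjectProperty.FullSubcategory
    (fun Y : Z => ∃ h : P Y, L.d ⟨Y, h⟩ = 0)) := HasExt.standard _
  have hfin := finite_sub hZ P
  have hfin' := finite_sub hZ (fun Y : Z => ∃ h : P Y, L.d ⟨Y, h⟩ = 0)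
  have := hfin'.enough
  have hle : (fun Y : Z => ∃ h : P Y, L.d ⟨Y, h⟩ = 0) ≤ P := fun Y hY => hY.1
  refine theoremA (k := k) hfin hF hb ht L (ObjectProperty.ιOfLE hle) ?_
  intro Y
  constructor
  · intro hY
    exact ⟨⟨Y.obj, Y.property, hY⟩, ⟨Iso.refl _⟩⟩
  · rintro ⟨X, ⟨e⟩⟩
    have hX : L.d ((ObjectProperty.ιOfLE hle).obj X) = 0 := X.property.2
    have h1 := L.nat e.inv
    rw [hX, comp_zero] at h1
    rw [← cancel_mono e.inv, ← h1, zero_comp]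

end

end Pool.Agent.MUG
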