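import Pool.Agent.MUG.Q4b
import Pool.Agent.MUG.C4

/-!
# Row P1: the Leibniz family of an extension of an invertible object by the unit (helper64)
-/

open CategoryTheory MonoidalCategory Limits Abelian

universe w v u

set_option linter.unusedSectionVars false

namespace Pool.Agent.MUG

section P1

variable {Z : Type u} [Category.{v} Z] [Abelian Z]
  [MonoidalCategory Z] [MonoidalPreadditive Z] [RigidCategory Z] [BraidedCategory Z]

theorem comm_unit_left (Y : Z) : Comm (𝟙_ Z) Y := by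
  have h := B0.comm_unit Y
  exact h

/-- Row P1. -/
theorem leib_of_ext (P : ObjectProperty Z) [hP : TensorSub P] {W b : Z} (i : 𝟙_ Z ⟶ W)
    (p : W ⟶ b) (w : i ≫ p = 0) (hS : (ShortComplex.mk i p w).ShortExact) (hPb : P b)
    (hb : centralizer P b) :
    ∃ L : Leib (⟨b, hPb⟩ : P.FullSubcategory), ∀ Y : P.FullSubcategory,
      dbr W Y.obj = (p ▷ Y.obj) ≫ (L.d Y).hom ≫ (λ_ Y.obj).inv ≫ (i ▷ Y.obj) := by
  have hi : Mono i := hS.mono_f
  have hp : Epi p := hS.epi_g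
  have ex : ∀ Y : P.FullSubcategory, ∃ D : b ⊗ Y.obj ⟶ Y.obj,
      dbr W Y.obj = (p ▷ Y.obj) ≫ D ≫ (λ_ Y.obj).inv ≫ (i ▷ Y.obj) := fun Y =>
    exists_D i p i p w hS w hS Y.obj (comm_unit_left Y.obj) (hb Y.obj Y.property)
  choose D hD using ex
  let L : Leib (⟨b, hPb⟩ : P.FullSubcategory) :=
    { d := fun Y => ObjectProperty.homMk (D Y)
      nat := by
        intro Y Y' f
        ext
        exact core_nat i p f.hom (hD Y) (hD Y')
      leib := by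
        intro Y Y'
        ext
        exact core_leib i p (hD Y) (hD Y') (hD (Y ⊗ Y')) }
  exact ⟨L, fun Y => hD Y⟩

/-- `d_Y` vanishes iff `W` commutes with `Y`. -/
theorem leib_eq_zero_iff (P : ObjectProperty Z) [hP : TensorSub P] {W b : Z} (i : 𝟙_ Z ⟶ W)
    (p : W ⟶ b) (hi : Mono i) (hp : Epi p) (hPb : P b)
    (L : Leib (⟨b, hPb⟩ : P.FullSubcategory))
    (hL : ∀ Y : P.FullSubcategory,
      dbr W Y.obj = (p ▷ Y.obj) ≫ (L.d Y).hom ≫ (λ_ Y.obj).inv ≫ (i ▷ Y.obj))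
    (Y : P.FullSubcategory) : L.d Y = 0 ↔ Comm W Y.obj := by
  rw [← dbr_eq_zero, hL Y]
  constructor
  · intro h
    rw [h]
    change (p ▷ Y.obj) ≫ (0 : b ⊗ Y.obj ⟶ Y.obj) ≫ (λ_ Y.obj).inv ≫ (i ▷ Y.obj) = 0
    rw [zero_comp, comp_zero]
  · intro h
    ext
    apply core_cancel i p
    change (p ▷ Y.obj) ≫ (L.d Y).hom ≫ (λ_ Y.obj).inv ≫ (i ▷ Y.obj) =
      (p ▷ Y.obj) ≫ (0 : b ⊗ Y.obj ⟶ Y.obj) ≫ (λ_ Y.obj).inv ≫ (i ▷ Y.obj)
    rw [h, zero_comp, comp_zero]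

/-- An invertible object of `P` is invertible in `P`. -/
theorem invertible_full {k : Type*} [Field k] [Linear k Z] (hZ : IsFinite k Z)
    (P : ObjectProperty Z) [hP : TensorSub P] {b : Z}
    (hPb : P b) (hb : Invertible b) : Invertible (⟨b, hPb⟩ : P.FullSubcategory) := by
  have h1 : Simple (𝟙_ Z) := hZ.unit
  obtain ⟨y, ⟨e⟩⟩ := hb
  exact ⟨⟨bᘁ, hP.rdual hPb⟩, ⟨P.isoMk (C2.dualIso e h1)⟩⟩

end P1

end Pool.Agent.MUG
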