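import Pool.Agent.MUG.Join
import Pool.Agent.MUG.B1
import Pool.Agent.MUG.C2

/-!
# Exactness of the dual, adjunctions as linear equivalences, duals of simple objects
-/

set_option autoImplicit false
set_option linter.unusedSectionVars false

open CategoryTheory MonoidalCategory Limits Abelian

universe w w' v v' u u'

namespace Pool.Agent.MUG

section Rigid

variable {C : Type u} [Category.{v} C] [Abelian C] [MonoidalCategory C] [MonoidalPreadditive C]
  [RigidCategory C]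

omit [Abelian C] [MonoidalPreadditive C] in
/-- Every map `W ⊗ X ⟶ 1` comes from a map `W ⟶ Xᘁ`. -/
theorem exists_ev_eq {W X : C} (u : W ⊗ X ⟶ 𝟙_ C) :
    ∃ w : W ⟶ Xᘁ, (w ▷ X) ≫ ε_ X (Xᘁ) = u := by
  refine ⟨tensorRightHomEquiv W X (Xᘁ) (𝟙_ C) u ≫ (λ_ _).hom, ?_⟩
  have h1 : (tensorRightHomEquiv W X (Xᘁ) (𝟙_ C)).symm
      (tensorRightHomEquiv W X (Xᘁ) (𝟙_ C) u) = u := Equiv.symm_apply_apply _ _
  have h2 : ((tensorRightHomEquiv W X (Xᘁ) (𝟙_ C) u ≫ (λ_ _).hom) ▷ X) ≫ ε_ X (Xᘁ) =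
      (tensorRightHomEquiv W X (Xᘁ) (𝟙_ C)).symm
        (tensorRightHomEquiv W X (Xᘁ) (𝟙_ C) u) := by
    generalize tensorRightHomEquiv W X (Xᘁ) (𝟙_ C) u = z
    simp only [tensorRightHomEquiv, Equiv.coe_fn_symm_mk]
    rw [comp_whiskerRight, Category.assoc]
    congr 1
    simp [unitors_inv_equal]
  rw [h2, h1]

/-- Maps into a right dual are determined by their evaluations. -/
theorem ev_inj {W X : C} {w w' : W ⟶ Xᘁ}
    (h : (w ▷ X) ≫ ε_ X (Xᘁ) = (w' ▷ X) ≫ ε_ X (Xᘁ)) : w = w' := by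
  rw [← sub_eq_zero]
  apply eq_zero_of_rdual
  have : (w - w') ▷ X = w ▷ X - w' ▷ X := by
    have := (tensorRight X).map_sub (f := w) (g := w')
    exact this
  rw [this, Preadditive.sub_comp, h, sub_self]

theorem rdual_zero {X Y : C} : ((0 : X ⟶ Y)ᘁ) = 0 := by
  apply ev_inj
  rw [rightAdjointMate_comp_evaluation, MonoidalPreadditive.whiskerLeft_zero, zero_comp,
    MonoidalPreadditive.zero_whiskerRight, zero_comp]

/-- A map into `X` is zero if its evaluation against `Xᘁ` is zero. -/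
theorem eq_zero_of_ev' {X Z : C} (f : Z ⟶ X) (h : ((Xᘁ) ◁ f) ≫ ε_ X (Xᘁ) = 0) : f = 0 := by
  have h3 : (tensorLeftHomEquiv Z X (Xᘁ) (𝟙_ C)).symm (f ≫ (ρ_ X).inv) =
      (tensorLeftHomEquiv Z X (Xᘁ) (𝟙_ C)).symm 0 := by
    simp only [tensorLeftHomEquiv, Equiv.coe_fn_symm_mk]
    simp only [MonoidalPreadditive.whiskerLeft_zero, zero_comp, whiskerLeft_comp,
      Category.assoc]
    have e : (Xᘁ) ◁ (ρ_ X).inv ≫ (α_ (Xᘁ) X (𝟙_ C)).inv = (ρ_ (Xᘁ ⊗ X)).inv := by simp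
    rw [reassoc_of% e, ← rightUnitor_inv_naturality_assoc, reassoc_of% h, zero_comp]
  have h4 := (tensorLeftHomEquiv Z X (Xᘁ) (𝟙_ C)).symm.injective h3
  rw [← cancel_mono (ρ_ X).inv, h4, zero_comp]

/-- The dual of a short complex. -/
noncomputable def dualSC (S : ShortComplex C) : ShortComplex C :=
  ShortComplex.mk (S.gᘁ) (S.fᘁ) (by rw [← comp_rightAdjointMate, S.zero, rdual_zero])

/-- The dual of a short exact sequence is short exact. -/
theorem dualSC_shortExact {S : ShortComplex C} (hS : S.ShortExact) :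
    (dualSC S).ShortExact := by
  have := hS.mono_f
  have := hS.epi_g
  have h1 : Mono (dualSC S).f := mono_rightAdjointMate S.g
  have h2 : Epi (dualSC S).g := epi_rightAdjointMate S.f
  have key : ∀ {W : C} (w : W ⟶ S.X₂ᘁ), w ≫ (S.fᘁ) = 0 → ∃ w' : W ⟶ S.X₃ᘁ,
      w' ≫ (S.gᘁ) = w := by
    intro W w hw
    have h3 : (W ◁ S.f) ≫ (w ▷ S.X₂) ≫ ε_ S.X₂ (S.X₂ᘁ) = 0 := by
      rw [whisker_exchange_assoc, ← rightAdjointMate_comp_evaluation, ← Category.assoc,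
        ← comp_whiskerRight, hw, MonoidalPreadditive.zero_whiskerRight, zero_comp]
    have hWS : (S.map (tensorLeft W)).ShortExact := hS.map_of_exact (tensorLeft W)
    have := hWS.epi_g
    let u' : W ⊗ S.X₃ ⟶ 𝟙_ C := hWS.exact.desc ((w ▷ S.X₂) ≫ ε_ S.X₂ (S.X₂ᘁ)) h3
    have hu' : (W ◁ S.g) ≫ u' = (w ▷ S.X₂) ≫ ε_ S.X₂ (S.X₂ᘁ) :=
      hWS.exact.g_desc ((w ▷ S.X₂) ≫ ε_ S.X₂ (S.X₂ᘁ)) h3
    obtain ⟨w', hw'⟩ := exists_ev_eq u'
    refine ⟨w', ev_inj ?_⟩
    rw [comp_whiskerRight, Category.assoc, rightAdjointMate_comp_evaluation,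
      ← whisker_exchange_assoc, hw', hu']
  have h4 : (dualSC S).Exact := by
    apply ShortComplex.exact_of_f_is_kernel
    refine KernelFork.IsLimit.ofι' _ _ (fun {A} w hw => ?_)
    exact ⟨(key w hw).choose, (key w hw).choose_spec⟩
  exact ⟨h4⟩

section Lin

variable (k : Type*) [Field k] [Linear k C] [MonoidalLinear k C]

omit [Abelian C] [MonoidalPreadditive C] in
/-- the evaluation of a map obtained from the adjunction -/
theorem ev_hom {W X : C} (u : W ⊗ X ⟶ 𝟙_ C) :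
    ((tensorRightHomEquiv W X (Xᘁ) (𝟙_ C) u ≫ (λ_ _).hom) ▷ X) ≫ ε_ X (Xᘁ) = u := by
  have h1 : (tensorRightHomEquiv W X (Xᘁ) (𝟙_ C)).symm
      (tensorRightHomEquiv W X (Xᘁ) (𝟙_ C) u) = u := Equiv.symm_apply_apply _ _
  have h2 : ((tensorRightHomEquiv W X (Xᘁ) (𝟙_ C) u ≫ (λ_ _).hom) ▷ X) ≫ ε_ X (Xᘁ) =
      (tensorRightHomEquiv W X (Xᘁ) (𝟙_ C)).symm
        (tensorRightHomEquiv W X (Xᘁ) (𝟙_ C) u) := by
    generalize tensorRightHomEquiv W X (Xᘁ) (𝟙_ C) u = z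
    simp only [tensorRightHomEquiv, Equiv.coe_fn_symm_mk]
    rw [comp_whiskerRight, Category.assoc]
    congr 1
    simp [unitors_inv_equal]
  rw [h2, h1]

/-- `Hom(W, Xᘁ) = Hom(W ⊗ X, 1)`. -/
theorem finrank_rdual (W X : C) :
    Module.finrank k (W ⟶ Xᘁ) = Module.finrank k (W ⊗ X ⟶ 𝟙_ C) := by
  let φ : (W ⟶ Xᘁ) →ₗ[k] (W ⊗ X ⟶ 𝟙_ C) :=
    { toFun := fun w => (w ▷ X) ≫ ε_ X (Xᘁ)
      map_add' := fun a b => by simp
      map_smul' := fun c a => by simp }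
  have hb : Function.Bijective φ :=
    ⟨fun a b h => ev_inj h, fun u => ⟨_, (exists_ev_eq u).choose_spec⟩⟩
  exact (LinearEquiv.ofBijective φ hb).finrank_eq

/-- `Hom(W, ᘁX) = Hom(X ⊗ W, 1)`. -/
theorem finrank_ldual (W X : C) :
    Module.finrank k (W ⟶ ᘁX) = Module.finrank k (X ⊗ W ⟶ 𝟙_ C) := by
  let φ : (W ⟶ ᘁX) →ₗ[k] (X ⊗ W ⟶ 𝟙_ C) :=
    { toFun := fun w => (X ◁ w) ≫ ε_ (ᘁX) X
      map_add' := fun a b => by simp
      map_smul' := fun c a => by simp }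
  have hinj : Function.Injective φ := by
    intro a b h
    rw [← sub_eq_zero]
    apply eq_zero_of_ldual
    have h' : (X ◁ a) ≫ ε_ (ᘁX) X = (X ◁ b) ≫ ε_ (ᘁX) X := h
    have : X ◁ (a - b) = X ◁ a - X ◁ b := by
      have := (tensorLeft X).map_sub (f := a) (g := b)
      exact this
    rw [this, Preadditive.sub_comp, h', sub_self]
  have hsurj : Function.Surjective φ := by
    intro u
    refine ⟨tensorLeftHomEquiv W (ᘁX) X (𝟙_ C) u ≫ (ρ_ _).hom, ?_⟩
    have h1 : (tensorLeftHomEquiv W (ᘁX) X (𝟙_ C)).symm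
        (tensorLeftHomEquiv W (ᘁX) X (𝟙_ C) u) = u := Equiv.symm_apply_apply _ _
    show (X ◁ (tensorLeftHomEquiv W (ᘁX) X (𝟙_ C) u ≫ (ρ_ _).hom)) ≫ ε_ (ᘁX) X = u
    conv_rhs => rw [← h1]
    generalize tensorLeftHomEquiv W (ᘁX) X (𝟙_ C) u = z
    simp only [tensorLeftHomEquiv, Equiv.coe_fn_symm_mk]
    rw [MonoidalCategory.whiskerLeft_comp, Category.assoc]
    congr 1
    simp [unitors_equal]
  exact (LinearEquiv.ofBijective φ ⟨hinj, hsurj⟩).finrank_eq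

/-- `Hom(W, ᘁX) = Hom(X, Wᘁ)`. -/
theorem finrank_swap (W X : C) :
    Module.finrank k (W ⟶ ᘁX) = Module.finrank k (X ⟶ Wᘁ) := by
  rw [finrank_ldual, finrank_rdual]

end Lin

/-- The right dual of a simple object is simple (braided case). -/
theorem simple_rdual [BraidedCategory C] (X : C) [hX : Simple X] : Simple (Xᘁ) := by
  refine ⟨fun {Y} f hf => ⟨fun hi h0 => ?_, fun h0 => ?_⟩⟩
  · -- `f = 0` iso implies `Xᘁ = 0`
    have h1 : 𝟙 (Xᘁ) = 0 := by
      rw [← cancel_epi f, h0, zero_comp, zero_comp]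
    exact C2.dual_ne (id_nonzero X) h1
  · -- `fᘁ : (Xᘁ)ᘁ ⟶ Yᘁ` is epi, from a simple object, hence an isomorphism
    have hdd : Simple ((Xᘁ)ᘁ) := by
      have i1 : X ≅ (Xᘁ)ᘁ :=
        rightDualIso (BraidedCategory.exactPairing_swap X (Xᘁ)) HasRightDual.exact
      exact Simple.of_iso i1.symm
    have h1 : Epi (fᘁ) := epi_rightAdjointMate f
    have h2 : (fᘁ) ≠ 0 := by
      intro h
      apply h0
      apply eq_zero_of_ev' f
      rw [← rightAdjointMate_comp_evaluation, h, MonoidalPreadditive.zero_whiskerRight,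
        zero_comp]
    have h3 : IsIso (fᘁ) := isIso_of_epi_of_nonzero h2
    have h4 : Epi f := by
      rw [Preadditive.epi_iff_cancel_zero]
      intro Z c hc
      have h5 : (cᘁ) = 0 := by
        rw [← cancel_mono (fᘁ), ← comp_rightAdjointMate, hc, rdual_zero, zero_comp]
      apply eq_zero_of_ev' c
      rw [← rightAdjointMate_comp_evaluation, h5, MonoidalPreadditive.zero_whiskerRight,
        zero_comp]
    exact isIso_of_mono_of_epi f

end Rigid

end Pool.Agent.MUG
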