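import Pool.Agent.MUG.CoverS

/-!
# Multiplicities in finite abelian categories

`Fam C`: a complete irredundant family of simple objects with projective covers; `F.m k i X` is the
multiplicity `dim Hom(P i, X)`. Additive functions, devissage, decomposition of projectives.
-/

set_option autoImplicit false
set_option linter.unusedSectionVars false

open CategoryTheory MonoidalCategory Limits Abelian

universe w w' v v' u u'

namespace Pool.Agent.MUG

/-- A complete irredundant family of simple objects, with projective covers. -/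
structure Fam (C : Type u) [Category.{v} C] [Abelian C] where
  n : ℕ
  T : Fin n → C
  P : Fin n → C
  e : ∀ i, P i ⟶ T i
  simple : ∀ i, Simple (T i)
  cov : ∀ i, IsCov (P i) (T i) (e i)
  inj : ∀ i j, Nonempty (T i ≅ T j) → i = j
  all : ∀ S : C, Simple S → ∃ i, Nonempty (S ≅ T i)

/-- The finiteness conditions which do not mention the monoidal structure. -/
structure FinCat (k : Type*) [Field k] (C : Type u) [Category.{v} C] [Abelian C] [Linear k C] :
    Prop where
  hom_finite : ∀ X Y : C, Module.Finite k (X ⟶ Y)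
  artinian : ∀ X : C, IsArtinianObject X
  enough : EnoughProjectives C
  simples : ∃ (n : ℕ) (S : Fin n → C), ∀ T : C, Simple T → ∃ i, Nonempty (T ≅ S i)

theorem IsFinite.finCat {k : Type*} [Field k] {C : Type u} [Category.{v} C] [Abelian C]
    [Linear k C] [MonoidalCategory C] [MonoidalPreadditive C] [RigidCategory C]
    (hC : IsFinite k C) : FinCat k C :=
  ⟨hC.hom_finite, hC.artinian, hC.enough, hC.simples⟩

section

variable {k : Type*} [Field k] {C : Type u} [Category.{v} C] [Abelian C] [Linear k C]

theorem exists_fam (hC : FinCat k C) : Nonempty (Fam C) := by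
  classical
  obtain ⟨n, S, hS⟩ := hC.simples
  have := hC.enough
  -- the setoid of simple members
  let A := {i : Fin n // Simple (S i)}
  let st : Setoid A :=
    { r := fun i j => Nonempty (S i.1 ≅ S j.1)
      iseqv := ⟨fun i => ⟨Iso.refl _⟩, fun ⟨f⟩ => ⟨f.symm⟩, fun ⟨f⟩ ⟨g⟩ => ⟨f ≪≫ g⟩⟩ }
  let Q := Quotient st
  have : Finite Q := inferInstance
  let φ : Fin (Nat.card Q) ≃ Q := (Finite.equivFin Q).symm
  have hrep : ∀ q : Q, ∃ i : A, (Quotient.mk st i) = q := fun q => Quotient.exists_rep q
  choose rep hr using hrep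
  have hcov := fun i : Fin (Nat.card Q) => exists_cov (k := k) hC.hom_finite (S (rep (φ i)).1)
  choose P e he using hcov
  refine ⟨⟨Nat.card Q, fun i => S (rep (φ i)).1, P, e, fun i => (rep (φ i)).2, he, ?_, ?_⟩⟩
  · intro i j hij
    have h1 : Quotient.mk st (rep (φ i)) = Quotient.mk st (rep (φ j)) := Quotient.sound hij
    rw [hr, hr] at h1
    exact φ.injective h1
  · intro U hU
    obtain ⟨i, ⟨f⟩⟩ := hS U hU
    have hi : Simple (S i) := (Simple.iff_of_iso f).1 hU
    refine ⟨φ.symm (Quotient.mk st ⟨i, hi⟩), ?_⟩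
    have h1 : Quotient.mk st (rep (φ (φ.symm (Quotient.mk st ⟨i, hi⟩)))) =
        Quotient.mk st ⟨i, hi⟩ := by rw [hr, Equiv.apply_symm_apply]
    obtain ⟨g⟩ := Quotient.exact h1
    exact ⟨f ≪≫ g.symm⟩

namespace Fam

variable (F : Fam C)

/-- The multiplicity of the simple object `T i` in `X`. -/
noncomputable def m (k : Type*) [Field k] [Linear k C] (i : Fin F.n) (X : C) : ℕ :=
  Module.finrank k (F.P i ⟶ X)

/-- The length of `X` (when the endomorphisms of simple objects are scalars). -/
noncomputable def len (k : Type*) [Field k] [Linear k C] (X : C) : ℕ := ∑ i, F.m k i X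

theorem finrank_congr_right {X Y : C} (Z : C) (f : X ≅ Y) :
    Module.finrank k (Z ⟶ X) = Module.finrank k (Z ⟶ Y) :=
  LinearEquiv.finrank_eq (Linear.homCongr k (Iso.refl Z) f)

theorem finrank_congr_left {X Y : C} (Z : C) (f : X ≅ Y) :
    Module.finrank k (X ⟶ Z) = Module.finrank k (Y ⟶ Z) :=
  LinearEquiv.finrank_eq (Linear.homCongr k f (Iso.refl Z))

theorem m_iso {X Y : C} (f : X ≅ Y) (i : Fin F.n) : F.m k i X = F.m k i Y :=
  finrank_congr_right _ f

theorem len_iso {X Y : C} (f : X ≅ Y) : F.len k X = F.len k Y :=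
  Finset.sum_congr rfl fun i _ => F.m_iso f i

theorem m_add (hC : FinCat k C) {S : ShortComplex C} (hS : S.ShortExact) (i : Fin F.n) :
    F.m k i S.X₂ = F.m k i S.X₁ + F.m k i S.X₃ := by
  have := (F.cov i).proj
  exact finrank_hom_shortExact hC.hom_finite hS

theorem len_add (hC : FinCat k C) {S : ShortComplex C} (hS : S.ShortExact) :
    F.len k S.X₂ = F.len k S.X₁ + F.len k S.X₃ := by
  rw [len, len, len, ← Finset.sum_add_distrib]
  exact Finset.sum_congr rfl fun i _ => F.m_add hC hS i

theorem m_zero {X : C} (hX : IsZero X) (i : Fin F.n) : F.m k i X = 0 := by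
  have : Subsingleton (F.P i ⟶ X) := ⟨fun f g => hX.eq_of_tgt f g⟩
  exact Module.finrank_zero_of_subsingleton

theorem m_simple [IsAlgClosed k] (hC : FinCat k C) (i j : Fin F.n) :
    F.m k i (F.T j) = if i = j then 1 else 0 := by
  classical
  have := F.simple i
  have := F.simple j
  rw [m, (F.cov i).finrank_simple hC.hom_finite]
  by_cases h : i = j
  · subst h
    rw [if_pos ⟨Iso.refl _⟩, if_pos rfl]
  · rw [if_neg h, if_neg (fun h' => h (F.inj i j h'))]

theorem m_pos (hC : FinCat k C) (i : Fin F.n) {X : C} (f : F.P i ⟶ X) (hf : f ≠ 0) :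
    0 < F.m k i X := by
  have := hC.hom_finite (F.P i) X
  have : Nontrivial (F.P i ⟶ X) := ⟨f, 0, hf⟩
  exact Module.finrank_pos

theorem exists_of_m_pos (i : Fin F.n) {X : C} (h : 0 < F.m k i X) : ∃ f : F.P i ⟶ X, f ≠ 0 := by
  by_contra hne
  push Not at hne
  have : Subsingleton (F.P i ⟶ X) := ⟨fun f g => by rw [hne f, hne g]⟩
  rw [m, Module.finrank_zero_of_subsingleton] at h
  exact absurd h (lt_irrefl _)

theorem m_pos_iff (hC : FinCat k C) (i : Fin F.n) (X : C) :
    0 < F.m k i X ↔ IsSubquotient (F.T i) X := by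
  have := F.simple i
  have := (F.cov i).proj
  have := (F.cov i).epi
  constructor
  · intro h
    obtain ⟨f, hf⟩ := F.exists_of_m_pos i h
    have h1 : kernel.ι f ≫ F.e i = 0 := by
      by_contra hne
      have := (F.cov i).sub (kernel.ι f) hne
      apply hf
      rw [← cancel_epi (kernel.ι f), kernel.condition, comp_zero]
    have h2 : kernel.ι (Abelian.factorThruImage f) ≫ F.e i = 0 := by
      have h3 : kernel.ι (Abelian.factorThruImage f) ≫ f = 0 := by
        calc kernel.ι (Abelian.factorThruImage f) ≫ f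
            = kernel.ι (Abelian.factorThruImage f) ≫
                Abelian.factorThruImage f ≫ Abelian.image.ι f := by rw [Abelian.image.fac]
          _ = 0 := by rw [← Category.assoc, kernel.condition, zero_comp]
      rw [← kernel.lift_ι f (kernel.ι (Abelian.factorThruImage f)) h3, Category.assoc, h1,
        comp_zero]
    refine ⟨Abelian.image f, Abelian.image.ι f,
      Abelian.epiDesc (Abelian.factorThruImage f) (F.e i) h2, inferInstance, ?_⟩
    have h3 := Abelian.comp_epiDesc (Abelian.factorThruImage f) (F.e i) h2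
    have : Epi (Abelian.factorThruImage f ≫
      Abelian.epiDesc (Abelian.factorThruImage f) (F.e i) h2) := by
      rw [h3]; infer_instance
    exact epi_of_epi (Abelian.factorThruImage f) _
  · rintro ⟨K, j, p, hj, hp⟩
    refine F.m_pos hC i (Projective.factorThru (F.e i) p ≫ j) ?_
    intro h0
    have h1 : Projective.factorThru (F.e i) p = 0 := by
      rw [← cancel_mono j, h0, zero_comp]
    have h2 := Projective.factorThru_comp (F.e i) p
    rw [h1, zero_comp] at h2
    have : (𝟙 (F.T i)) = 0 := by
      rw [← cancel_epi (F.e i), ← h2]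
      simp
    exact id_nonzero (F.T i) this

/-- `X` is zero iff its length is zero. -/
theorem len_eq_zero_iff (hC : FinCat k C) (X : C) : F.len k X = 0 ↔ IsZero X := by
  constructor
  · intro h
    by_contra hX
    have := hC.artinian X
    obtain ⟨i, ⟨g⟩⟩ := F.all (simpleSubobject hX) inferInstance
    have := F.simple i
    have h1 : 0 < F.m k i X := (F.m_pos_iff hC i X).2
      ⟨simpleSubobject hX, simpleSubobjectArrow hX, g.hom, inferInstance, inferInstance⟩
    have h2 : F.m k i X = 0 := by
      have := (Finset.sum_eq_zero_iff.1 h) i (Finset.mem_univ i)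
      exact this
    omega
  · intro h
    exact Finset.sum_eq_zero fun i _ => F.m_zero h i

theorem len_pos (hC : FinCat k C) {X : C} (hX : ¬ IsZero X) : 0 < F.len k X :=
  Nat.pos_of_ne_zero fun h => hX ((F.len_eq_zero_iff hC X).1 h)

/-- The short exact sequence of a monomorphism. -/
theorem ses_mono {X Y : C} (i : X ⟶ Y) [Mono i] :
    (ShortComplex.mk i (cokernel.π i) (cokernel.condition i)).ShortExact where
  exact := ShortComplex.exact_cokernel i

/-- The short exact sequence of an epimorphism. -/
theorem ses_epi {X Y : C} (p : X ⟶ Y) [Epi p] :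
    (ShortComplex.mk (kernel.ι p) p (kernel.condition p)).ShortExact where
  exact := ShortComplex.exact_kernel p

theorem len_mono (hC : FinCat k C) {X Y : C} (i : X ⟶ Y) [Mono i] :
    F.len k X ≤ F.len k Y := by
  have := F.len_add hC (ses_mono i)
  simp only at this
  omega

theorem len_epi (hC : FinCat k C) {X Y : C} (p : X ⟶ Y) [Epi p] :
    F.len k Y ≤ F.len k X := by
  have := F.len_add hC (ses_epi p)
  simp only at this
  omega

include F in
/-- Devissage with simple subobjects. -/
theorem induction_sub (hC : FinCat k C) {Q : C → Prop} (h0 : ∀ X, IsZero X → Q X)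
    (hs : ∀ (S : ShortComplex C), S.ShortExact → Simple S.X₁ → Q S.X₃ → Q S.X₂) (X : C) :
    Q X := by
  induction hn : F.len k X using Nat.strong_induction_on generalizing X with
  | _ n ih =>
    by_cases hX : IsZero X
    · exact h0 X hX
    · have := hC.artinian X
      have hses := ses_mono (simpleSubobjectArrow hX)
      refine hs _ hses (inferInstanceAs (Simple (simpleSubobject hX))) ?_
      refine ih _ ?_ _ rfl
      have h1 := F.len_add hC hses
      have h2 : 0 < F.len k (simpleSubobject hX) := F.len_pos hC (Simple.not_isZero _)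
      simp only at h1 ⊢
      omega

include F in
/-- Every nonzero object has a simple quotient. -/
theorem exists_simple_quot (hC : FinCat k C) (X : C) :
    IsZero X ∨ ∃ (S : C) (p : X ⟶ S), Simple S ∧ Epi p := by
  refine F.induction_sub hC (Q := fun X => IsZero X ∨ ∃ (S : C) (p : X ⟶ S), Simple S ∧ Epi p)
    (fun X h => Or.inl h) ?_ X
  intro S hS h1 h3
  right
  rcases h3 with h3 | ⟨U, p, hU, hp⟩
  · have : IsIso S.f := by
      have := hS.mono_f
      have : Epi S.f := hS.exact.epi_f_iff.2 (h3.eq_of_tgt _ _)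
      exact isIso_of_mono_of_epi _
    exact ⟨S.X₁, inv S.f, h1, inferInstance⟩
  · have := hS.epi_g
    exact ⟨U, S.g ≫ p, hU, epi_comp _ _⟩

include F in
/-- Devissage with simple quotients. -/
theorem induction_quot (hC : FinCat k C) {Q : C → Prop} (h0 : ∀ X, IsZero X → Q X)
    (hs : ∀ (S : ShortComplex C), S.ShortExact → Simple S.X₃ → Q S.X₁ → Q S.X₂) (X : C) :
    Q X := by
  induction hn : F.len k X using Nat.strong_induction_on generalizing X with
  | _ n ih =>
    by_cases hX : IsZero X
    · exact h0 X hX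
    · obtain ⟨U, p, hU, hp⟩ := (F.exists_simple_quot hC X).resolve_left hX
      have hses := ses_epi p
      refine hs _ hses hU ?_
      refine ih _ ?_ _ rfl
      have h1 := F.len_add hC hses
      have h2 : 0 < F.len k U := F.len_pos hC (Simple.not_isZero _)
      simp only at h1 ⊢
      omega

/-- Subadditive functions are bounded by their values on simple objects. -/
theorem subadd_le [IsAlgClosed k] (hC : FinCat k C) (φ : C → ℝ)
    (hiso : ∀ X Y : C, Nonempty (X ≅ Y) → φ X = φ Y) (hz : ∀ X, IsZero X → φ X ≤ 0)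
    (hadd : ∀ (S : ShortComplex C), S.ShortExact → φ S.X₂ ≤ φ S.X₁ + φ S.X₃) (X : C) :
    φ X ≤ ∑ i, (F.m k i X : ℝ) * φ (F.T i) := by
  refine F.induction_sub hC (Q := fun X => φ X ≤ ∑ i, (F.m k i X : ℝ) * φ (F.T i)) ?_ ?_ X
  · intro X hX
    refine (hz X hX).trans (le_of_eq ?_)
    refine (Finset.sum_eq_zero fun i _ => ?_).symm
    rw [F.m_zero hX, Nat.cast_zero, zero_mul]
  · intro S hS h1 h3
    obtain ⟨j, ⟨g⟩⟩ := F.all S.X₁ h1
    refine (hadd S hS).trans ?_
    have h4 : ∑ i, (F.m k i S.X₂ : ℝ) * φ (F.T i) =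
        φ S.X₁ + ∑ i, (F.m k i S.X₃ : ℝ) * φ (F.T i) := by
      have h5 : ∑ i, (F.m k i S.X₁ : ℝ) * φ (F.T i) = φ S.X₁ := by
        rw [Finset.sum_eq_single j]
        · rw [F.m_iso g, F.m_simple hC, if_pos rfl, Nat.cast_one, one_mul]
          exact (hiso _ _ ⟨g⟩).symm
        · intro i _ hij
          rw [F.m_iso g, F.m_simple hC, if_neg hij, Nat.cast_zero, zero_mul]
        · intro h; exact absurd (Finset.mem_univ j) h
      rw [← h5, ← Finset.sum_add_distrib]
      refine Finset.sum_congr rfl fun i _ => ?_
      rw [F.m_add hC hS i, Nat.cast_add, add_mul]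
    rw [h4]
    linarith

/-- Additive functions are determined by their values on simple objects. -/
theorem additive_eq [IsAlgClosed k] (hC : FinCat k C) (φ : C → ℝ)
    (hiso : ∀ X Y : C, Nonempty (X ≅ Y) → φ X = φ Y)
    (hadd : ∀ (S : ShortComplex C), S.ShortExact → φ S.X₂ = φ S.X₁ + φ S.X₃) (X : C) :
    φ X = ∑ i, (F.m k i X : ℝ) * φ (F.T i) := by
  have hz : ∀ X, IsZero X → φ X = 0 := by
    intro X hX
    have h1 := hadd _ (ses_mono (𝟙 X))
    have h2 : IsZero (cokernel (𝟙 X)) := by
      rw [IsZero.iff_id_eq_zero, ← cancel_epi (cokernel.π (𝟙 X))]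
      rw [comp_zero, Category.comp_id, ← Category.id_comp (cokernel.π (𝟙 X)),
        cokernel.condition]
    have h3 : φ (cokernel (𝟙 X)) = φ X := hiso _ _ ⟨h2.iso hX⟩
    simp only at h1
    linarith
  apply le_antisymm
  · exact F.subadd_le hC φ hiso (fun X hX => (hz X hX).le) (fun S hS => (hadd S hS).le) X
  · have := F.subadd_le hC (fun X => - φ X) (fun X Y h => by simp only [hiso X Y h])
      (fun X hX => by simp only [hz X hX, neg_zero]; exact le_rfl)
      (fun S hS => by simp only [hadd S hS]; linarith) X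
    simp only [mul_neg, Finset.sum_neg_distrib] at this
    linarith

end Fam

end

end Pool.Agent.MUG
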