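import Mathlib

/-!
# MUG row SS, the matrix lemma

For a fusion rule with natural structure constants `N i`, with `N (st i) = (N i)ᵀ` and a unit
`i₀`, a common eigenvector `d` with values in a field of characteristic zero, normalised by
`d i₀ = 1`, has `∑ d i * d (st i) ≠ 0`: the integer matrix `∑ (N i)ᵀ N i` is positive definite,
so its determinant is not zero.
-/

namespace Pool.Agent.MUG.SSDim

open Matrix

variable {ι : Type*} [Fintype ι] [DecidableEq ι]

/-- The Gram matrix `∑ (N i)ᵀ N i`, with entries cast to a commutative ring. -/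
private lemma cast_gram {R : Type*} [CommRing R] (N : ι → Matrix ι ι ℕ) :
    (∑ i, ((N i)ᵀ * N i)).map (Nat.cast : ℕ → R)
      = ∑ i, (((N i).map (Nat.cast : ℕ → R))ᵀ * (N i).map (Nat.cast : ℕ → R)) := by
  have h := map_sum (RingHom.mapMatrix (m := ι) (Nat.castRingHom R))
    (fun i => (N i)ᵀ * N i) Finset.univ
  have h2 : (∑ i, ((N i)ᵀ * N i)).map (Nat.cast : ℕ → R)
      = RingHom.mapMatrix (Nat.castRingHom R) (∑ i, ((N i)ᵀ * N i)) := rfl
  rw [h2, h]
  refine Finset.sum_congr rfl fun i _ => ?_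
  rw [map_mul]
  rfl

/-- The determinant of the Gram matrix is not zero, as the matrix is positive definite. -/
theorem det_gram_ne_zero (N : ι → Matrix ι ι ℕ) (i₀ : ι) (h0 : N i₀ = 1) :
    (∑ i, ((N i).map (Nat.cast : ℕ → ℚ))ᵀ * (N i).map (Nat.cast : ℕ → ℚ)).det ≠ 0 := by
  intro hdet
  obtain ⟨v, hv0, hv⟩ := Matrix.exists_mulVec_eq_zero_iff.mpr hdet
  apply hv0
  have h1 : v ⬝ᵥ ((∑ i, ((N i).map (Nat.cast : ℕ → ℚ))ᵀ *
      (N i).map (Nat.cast : ℕ → ℚ)) *ᵥ v) = 0 := by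
    rw [hv, dotProduct_zero]
  rw [Matrix.sum_mulVec, dotProduct_sum] at h1
  have h2 : ∀ i, v ⬝ᵥ ((((N i).map (Nat.cast : ℕ → ℚ))ᵀ *
      (N i).map (Nat.cast : ℕ → ℚ)) *ᵥ v)
      = ((N i).map (Nat.cast : ℕ → ℚ) *ᵥ v) ⬝ᵥ ((N i).map (Nat.cast : ℕ → ℚ) *ᵥ v) := by
    intro i
    rw [← Matrix.mulVec_mulVec, Matrix.dotProduct_mulVec, Matrix.vecMul_transpose]
  have h3 : ∀ i ∈ Finset.univ, 0 ≤ v ⬝ᵥ ((((N i).map (Nat.cast : ℕ → ℚ))ᵀ *
      (N i).map (Nat.cast : ℕ → ℚ)) *ᵥ v) := by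
    intro i _
    rw [h2 i]
    exact Finset.sum_nonneg fun j _ => mul_self_nonneg _
  have h4 := (Finset.sum_eq_zero_iff_of_nonneg h3).mp h1 i₀ (Finset.mem_univ _)
  rw [h2 i₀, h0] at h4
  have h5 : ((1 : Matrix ι ι ℕ).map (Nat.cast : ℕ → ℚ)) = 1 := by
    rw [Matrix.map_one _ Nat.cast_zero Nat.cast_one]
  rw [h5, Matrix.one_mulVec] at h4
  exact dotProduct_self_eq_zero.mp h4

/-- **The matrix lemma of row SS.** -/
theorem sum_mul_star_ne_zero {k : Type*} [Field k] [CharZero k]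
    (N : ι → Matrix ι ι ℕ) (st : ι → ι) (hst : ∀ i, N (st i) = (N i)ᵀ)
    (i₀ : ι) (h0 : N i₀ = 1) (d : ι → k)
    (hd : ∀ i, (N i).map (Nat.cast : ℕ → k) *ᵥ d = d i • d) (hd0 : d i₀ = 1) :
    ∑ i, d i * d (st i) ≠ 0 := by
  intro hsum
  have hQ := det_gram_ne_zero N i₀ h0
  rw [← cast_gram] at hQ
  have hN : (∑ i, ((N i)ᵀ * N i)).map (Nat.cast : ℕ → ℚ)
      = ((∑ i, ((N i)ᵀ * N i)).map (Nat.cast : ℕ → ℤ)).map (Int.castRingHom ℚ) := by
    ext a b
    simp [Matrix.map_apply]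
  have hZ : ((∑ i, ((N i)ᵀ * N i)).map (Nat.cast : ℕ → ℤ)).det ≠ 0 := by
    intro hz
    apply hQ
    rw [hN]
    have := RingHom.map_det (Int.castRingHom ℚ) ((∑ i, ((N i)ᵀ * N i)).map (Nat.cast : ℕ → ℤ))
    rw [RingHom.mapMatrix_apply] at this
    rw [← this, hz, map_zero]
  have hK : (∑ i, ((N i)ᵀ * N i)).map (Nat.cast : ℕ → k)
      = ((∑ i, ((N i)ᵀ * N i)).map (Nat.cast : ℕ → ℤ)).map (Int.castRingHom k) := by
    ext a b
    simp [Matrix.map_apply]
  have hdk : ((∑ i, ((N i)ᵀ * N i)).map (Nat.cast : ℕ → k)).det ≠ 0 := by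
    rw [hK]
    have := RingHom.map_det (Int.castRingHom k) ((∑ i, ((N i)ᵀ * N i)).map (Nat.cast : ℕ → ℤ))
    rw [RingHom.mapMatrix_apply] at this
    rw [← this]
    intro h
    exact hZ (by simpa using h)
  apply hdk
  apply Matrix.exists_mulVec_eq_zero_iff.mp
  refine ⟨d, ?_, ?_⟩
  · intro h
    have := congrFun h i₀
    rw [hd0] at this
    exact one_ne_zero this
  · rw [cast_gram, Matrix.sum_mulVec]
    have h1 : ∀ i, (((N i).map (Nat.cast : ℕ → k))ᵀ * (N i).map (Nat.cast : ℕ → k)) *ᵥ d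
        = (d i * d (st i)) • d := by
      intro i
      have e : ((N i).map (Nat.cast : ℕ → k))ᵀ = (N (st i)).map (Nat.cast : ℕ → k) := by
        rw [hst i]
        rfl
      rw [← Matrix.mulVec_mulVec, hd i, e, Matrix.mulVec_smul, hd (st i), smul_smul]
    rw [Finset.sum_congr rfl fun i _ => h1 i, ← Finset.sum_smul, hsum, zero_smul]

/-- The same with the structure constants as a three index family:
`n i j l` is the multiplicity of `l` in `i ⊗ j`, and `d` is a character of the ring. -/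
theorem sum_mul_star_ne_zero' {k : Type*} [Field k] [CharZero k]
    (n : ι → ι → ι → ℕ) (st : ι → ι) (hst : ∀ i j l, n (st i) j l = n i l j)
    (i₀ : ι) (h0 : ∀ j l, n i₀ j l = if j = l then 1 else 0) (d : ι → k)
    (hd : ∀ i j, d i * d j = ∑ l, (n i j l : k) * d l) (hd0 : d i₀ = 1) :
    ∑ i, d i * d (st i) ≠ 0 := by
  refine sum_mul_star_ne_zero (fun i => Matrix.of (n i)) st ?_ i₀ ?_ d ?_ hd0
  · intro i
    ext j l
    simpa using hst i j l
  · ext j l
    rw [Matrix.of_apply, h0 j l, Matrix.one_apply]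
  · intro i
    ext j
    simp only [Matrix.mulVec, dotProduct, Matrix.map_apply, Matrix.of_apply, Pi.smul_apply,
      smul_eq_mul]
    exact (hd i j).symm

end Pool.Agent.MUG.SSDim
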