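import Pool.Agent.MUG.SS4
import Pool.Agent.MUG.SSDim
import Pool.Agent.MUG.Mult
import Pool.Agent.MUG.DualEx

/-!
# Projective objects of the centralizer of a symmetric fusion subcategory (MP_388894, row SS)
-/

open CategoryTheory MonoidalCategory Limits

universe v u

set_option linter.unusedSectionVars false

namespace Pool.Agent.MUG

open Pool.Agent.MUE79

section fam

variable {k : Type*} [Field k] {Z : Type u} [Category.{v} Z] [Abelian Z] [Linear k Z]
  [MonoidalCategory Z] [MonoidalPreadditive Z] [RigidCategory Z]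

/-- the simple objects of `E` -/
theorem exists_sfam (hZ : IsFinite k Z) (E : ObjectProperty Z) [hE : TensorSub E] :
    ∃ (J : Type) (_ : Fintype J) (X : J → Z), SFam E J X := by
  classical
  obtain ⟨F⟩ := exists_fam hZ.finCat
  refine ⟨{i : Fin F.n // E (F.T i)}, inferInstance, fun i => F.T i.1, ?_, ?_, ?_, ?_⟩
  · exact fun j => j.2
  · exact fun j => F.simple j.1
  · intro i j h
    exact Subtype.ext (F.inj _ _ h)
  · intro S hS hES
    obtain ⟨i, ⟨e⟩⟩ := F.all S hS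
    exact ⟨⟨i, hE.quot e.hom hES⟩, ⟨e⟩⟩

end fam

section dims

variable {k : Type*} [Field k] {Z : Type u} [Category.{v} Z] [Abelian Z] [Linear k Z]
  [MonoidalCategory Z] [MonoidalPreadditive Z] [MonoidalLinear k Z] [BraidedCategory Z]

/-- the trace of the identity does not depend on the pairing and is invariant under
isomorphisms -/
theorem tr_iso {A DA B DB : Z} [ExactPairing A DA] [ExactPairing B DB] (e : A ≅ B) :
    tr A DA (𝟙 A) = tr B DB (𝟙 B) := by
  rw [← e.hom_inv_id, tr_cyc (D' := DB), e.inv_hom_id]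

theorem tr_unit : tr (𝟙_ Z) (𝟙_ Z) (𝟙 (𝟙_ Z)) = 𝟙 (𝟙_ Z) := by
  rw [tr_eq]
  have h1 : η_ (𝟙_ Z) (𝟙_ Z) = (ρ_ (𝟙_ Z)).inv := rfl
  have h2 : ε_ (𝟙_ Z) (𝟙_ Z) = (ρ_ (𝟙_ Z)).hom := rfl
  unfold kap
  rw [h1, h2, MonoidalCategory.whiskerLeft_id, Category.id_comp, braiding_tensorUnit_left]
  monoidal

/-- the dimension of the dual -/
theorem tr_dual {A B B' : Z} [ExactPairing A B] [ExactPairing B B'] :
    tr A B (𝟙 A) = tr B B' (𝟙 B) := by
  have h1 : @tr Z _ _ _ B A (BraidedCategory.exactPairing_swap A B) (𝟙 B) = tr B B' (𝟙 B) := by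
    let _ : ExactPairing B A := BraidedCategory.exactPairing_swap A B
    exact tr_iso (Iso.refl B)
  rw [← h1]
  let _ : ExactPairing B A := BraidedCategory.exactPairing_swap A B
  rw [tr_eq, tr_eq]
  unfold kap
  have h2 : η_ B A = η_ A B ≫ (β_ B A).inv := rfl
  have h3 : ε_ B A = (β_ A B).hom ≫ ε_ A B := rfl
  rw [h2, h3]
  simp

theorem tr_tensor_id {A DA B DB : Z} [ExactPairing A DA] [ExactPairing B DB]
    (h : Comm B A) {a b : k} (ha : tr A DA (𝟙 A) = a • 𝟙 (𝟙_ Z))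
    (hb : tr B DB (𝟙 B) = b • 𝟙 (𝟙_ Z)) :
    tr (A ⊗ B) (DB ⊗ DA) (𝟙 (A ⊗ B)) = (a * b) • 𝟙 (𝟙_ Z) := by
  rw [tr_tensor h, ← id_whiskerRight, ptr_tensor_id, ha]
  have h1 : 𝟙 B ⊗≫ (a • 𝟙 (𝟙_ Z)) ▷ B ⊗≫ 𝟙 B = a • 𝟙 B := by
    rw [MonoidalLinear.smul_whiskerRight, id_whiskerRight]
    simp only [monoidalComp, Linear.comp_smul, Linear.smul_comp, Category.comp_id,
      Category.id_comp]
    congr 1
    monoidal
  rw [h1, tr_smul, hb, smul_smul]

variable [RigidCategory Z]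

variable {E : ObjectProperty Z} {J : Type} {X : J → Z} [Fintype J]

theorem exists_dims [IsAlgClosed k] (hfin : ∀ X Y : Z, Module.Finite k (X ⟶ Y))
    (hunit : Simple (𝟙_ Z)) (X : J → Z) : ∃ d : J → k, IsDim X d := by
  have := hfin (𝟙_ Z) (𝟙_ Z)
  choose d hd using fun j => endomorphism_simple_eq_smul_id k
    (tr (X j) ((X j)ᘁ) (𝟙 (X j)))
  exact ⟨d, fun j => (hd j).symm⟩

theorem dims_mul [IsAlgClosed k] [hE : TensorSub E]
    (hfin : ∀ X Y : Z, Module.Finite k (X ⟶ Y))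
    (hart : ∀ X : Z, IsArtinianObject X)
    (hss : ∀ {A B : Z}, E A → E B → ∀ p : A ⟶ B, Epi p → ∃ s, s ≫ p = 𝟙 B)
    (h1 : 𝟙 (𝟙_ Z) ≠ 0) (hcom : ∀ A B, E A → E B → Comm A B) (hX : SFam E J X) {d : J → k}
    (hd : IsDim X d) (i j : J) :
    d i * d j = ∑ l, (Module.finrank k (X l ⟶ X i ⊗ X j) : k) * d l := by
  obtain ⟨D⟩ := hX.exists_dec (k := k) hfin hart (fun f hf h => hE.quot f h)
    (fun f hf h => hE.sub f h) hss (hE.tensor (hX.mem i) (hX.mem j))
  apply smul_id_inj h1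
  rw [← tr_tensor_id (hcom _ _ (hX.mem j) (hX.mem i)) (hd i) (hd j), ← D.complete, tr_sum k,
    Finset.sum_smul]
  refine Finset.sum_congr rfl fun l _ => ?_
  rw [tr_sum k]
  have h2 : ∀ a, tr (X i ⊗ X j) (((X j)ᘁ) ⊗ ((X i)ᘁ)) (D.r l a ≫ D.s l a) =
      d l • 𝟙 (𝟙_ Z) := by
    intro a
    rw [tr_cyc (D' := (X l)ᘁ), D.dual, if_pos rfl, hd l]
  rw [Finset.sum_congr rfl fun a _ => h2 a, Finset.sum_const, Finset.card_univ,
    Fintype.card_fin, mul_smul, Nat.cast_smul_eq_nsmul]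

/-- the structure constants of the dual -/
theorem finrank_dual [IsAlgClosed k] [hE : TensorSub E]
    (hfin : ∀ X Y : Z, Module.Finite k (X ⟶ Y))
    (hss : ∀ {A B : Z}, E A → E B → ∀ p : A ⟶ B, Epi p → ∃ s, s ≫ p = 𝟙 B)
    (hX : SFam E J X) (i i' j l : J) (e : X i' ≅ ᘁ(X i)) :
    Module.finrank k (X l ⟶ X i' ⊗ X j) = Module.finrank k (X j ⟶ X i ⊗ X l) := by
  obtain ⟨_, _, _, _, h1⟩ := hX.exists_dual (k := k) hfin (fun f hf h => hE.quot f h) hss
    (hE.tensor (hX.mem i) (hX.mem l)) j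
  rw [← h1]
  let e1 : (X l ⟶ X i' ⊗ X j) ≃ₗ[k] (X l ⟶ (ᘁ(X i) : Z) ⊗ X j) :=
    LinearEquiv.ofLinearMap
      (Linear.rightComp k (X l) (whiskerRightIso e (X j)).hom)
      (Linear.rightComp k (X l) (whiskerRightIso e (X j)).inv)
      (by ext f; simp) (by ext f; simp)
  let e2 : (X i ⊗ X l ⟶ X j) ≃ₗ[k] (X l ⟶ (ᘁ(X i) : Z) ⊗ X j) :=
    { tensorLeftHomEquiv (X l) (ᘁ(X i) : Z) (X i) (X j) with
      map_add' := by
        intro f g
        simp [tensorLeftHomEquiv, MonoidalPreadditive.whiskerLeft_add]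
      map_smul' := by
        intro c f
        simp [tensorLeftHomEquiv] }
  rw [e1.finrank_eq, e2.finrank_eq]

/-- The dimension of a symmetric semisimple tensor subcategory is not zero. -/
theorem dim_ne_zero [IsAlgClosed k] [CharZero k] [hE : TensorSub E] (hZ : IsFinite k Z)
    (hss : ∀ {A B : Z}, E A → E B → ∀ p : A ⟶ B, Epi p → ∃ s, s ≫ p = 𝟙 B)
    (hcom : ∀ A B, E A → E B → Comm A B) (hX : SFam E J X) {d : J → k} (hd : IsDim X d) :
    ∑ j, d j * d j ≠ 0 := by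
  classical
  have hunit := hZ.unit
  have h1 : 𝟙 (𝟙_ Z) ≠ 0 := id_nonzero (𝟙_ Z)
  have hst : ∀ i, ∃ j, Nonempty (X j ≅ ᘁ(X i)) := by
    intro i
    have hi := hX.simple i
    have h2 : Simple ((X i)ᘁ) := simple_rdual (X i)
    have h3 : Simple (ᘁ(X i) : Z) := Simple.of_iso (dualIso (X i))
    obtain ⟨j, ⟨e⟩⟩ := hX.all _ h3 (hE.ldual (hX.mem i))
    exact ⟨j, ⟨e.symm⟩⟩
  choose st hst' using hst
  obtain ⟨i₀, ⟨e₀⟩⟩ := hX.all (𝟙_ Z) hunit hE.unit
  have hdst : ∀ i, d (st i) = d i := by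
    intro i
    obtain ⟨e⟩ := hst' i
    apply smul_id_inj h1
    rw [← hd (st i), ← hd i, tr_iso (DB := X i) e, tr_dual (B' := (X i)ᘁ)]
  have hd0 : d i₀ = 1 := by
    apply smul_id_inj h1
    rw [← hd i₀, tr_iso (DB := 𝟙_ Z) e₀.symm, tr_unit, one_smul]
  have h := SSDim.sum_mul_star_ne_zero' (fun i j l => Module.finrank k (X l ⟶ X i ⊗ X j)) st
    (fun i j l => by
      obtain ⟨e⟩ := hst' i
      exact finrank_dual hZ.hom_finite hss hX i (st i) j l e) i₀
    (fun j l => by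
      let e1 : (X l ⟶ X i₀ ⊗ X j) ≃ₗ[k] (X l ⟶ X j) :=
        LinearEquiv.ofLinearMap
          (Linear.rightComp k (X l) (whiskerRightIso e₀.symm (X j) ≪≫ λ_ (X j)).hom)
          (Linear.rightComp k (X l) (whiskerRightIso e₀.symm (X j) ≪≫ λ_ (X j)).inv)
          (by ext f; simp) (by ext f; simp)
      rw [e1.finrank_eq]
      by_cases hjl : j = l
      · subst hjl
        have := hX.simple j
        have := hZ.hom_finite (X j) (X j)
        rw [if_pos rfl, finrank_endomorphism_simple_eq_one]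
      · rw [if_neg hjl]
        have : Subsingleton (X l ⟶ X j) :=
          ⟨fun f g => by rw [hX.hom_zero (Ne.symm hjl) f, hX.hom_zero (Ne.symm hjl) g]⟩
        exact Module.finrank_zero_of_subsingleton) d
    (fun i j => dims_mul hZ.hom_finite hZ.artinian hss h1 hcom hX hd i j) hd0
  simpa only [hdst] using h

/-- **Row SS.** `E` a symmetric semisimple tensor subcategory of a braided finite tensor
category `Z`, characteristic `0`: projective objects of the centralizer of `E` are projective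
in `Z`. -/
theorem projective_of_projIn_centralizer_ss [IsAlgClosed k] [CharZero k] (hZ : IsFinite k Z)
    (E : ObjectProperty Z) [hE : TensorSub E]
    (hss : ∀ {A B : Z}, E A → E B → ∀ p : A ⟶ B, Epi p → ∃ s, s ≫ p = 𝟙 B)
    (hcom : ∀ A B, E A → E B → Comm A B) {P : Z} (hP : ProjIn (centralizer E) P) :
    Projective P := by
  obtain ⟨J, hJ, X, hX⟩ := exists_sfam (k := k) hZ E
  have hunit := hZ.unit
  obtain ⟨d, hd⟩ := exists_dims (k := k) hZ.hom_finite hunit X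
  exact projective_of_dim hZ.hom_finite hZ.artinian hss (id_nonzero (𝟙_ Z)) hcom hX hd
    (dim_ne_zero hZ hss hcom hX hd) hP

end dims

end Pool.Agent.MUG
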