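import Pool.Agent.MUG.Defs

open CategoryTheory MonoidalCategory Limits Abelian ZeroObject

universe w v u

namespace Pool.Agent.MUG

section Pair

variable {C : Type u} [Category.{v} C] [MonoidalCategory C]

/-- An exact pairing of the underlying objects is one in the full subcategory. -/
@[reducible] def subPair (P : ObjectProperty C) [P.IsMonoidal] (X Y : P.FullSubcategory)
    [ExactPairing X.obj Y.obj] : ExactPairing X Y where
  coevaluation' := ObjectProperty.homMk (η_ X.obj Y.obj)
  evaluation' := ObjectProperty.homMk (ε_ X.obj Y.obj)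
  coevaluation_evaluation' := by
    ext
    exact ExactPairing.coevaluation_evaluation X.obj Y.obj
  evaluation_coevaluation' := by
    ext
    exact ExactPairing.evaluation_coevaluation X.obj Y.obj

end Pair

section TensorSub

variable {C : Type u} [Category.{v} C] [Abelian C] [MonoidalCategory C] [RigidCategory C]

/-- A tensor subcategory: a class of objects containing the unit and closed under tensor
products, both duals, subobjects, quotients and binary direct sums. -/
class TensorSub (P : ObjectProperty C) : Prop where
  unit : P (𝟙_ C)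
  tensor : ∀ {X Y : C}, P X → P Y → P (X ⊗ Y)
  rdual : ∀ {X : C}, P X → P (Xᘁ)
  ldual : ∀ {X : C}, P X → P (ᘁX)
  sub : ∀ {X Y : C} (f : X ⟶ Y) [Mono f], P Y → P X
  quot : ∀ {X Y : C} (f : X ⟶ Y) [Epi f], P X → P Y
  biprod : ∀ {X Y : C}, P X → P Y → P (X ⊞ Y)

variable (P : ObjectProperty C) [hP : TensorSub P]

instance instSubMonoidal : P.IsMonoidal where
  prop_unit := hP.unit
  prop_tensor _ _ h₁ h₂ := hP.tensor h₁ h₂

instance instSubSub : P.IsClosedUnderSubobjects := ⟨fun f _ h => hP.sub f h⟩

instance instSubQuot : P.IsClosedUnderQuotients := ⟨fun f _ h => hP.quot f h⟩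

instance instSubZero : P.ContainsZero :=
  ⟨0, isZero_zero C,
    haveI : Mono (0 : (0 : C) ⟶ 𝟙_ C) := ⟨fun _ _ _ => (isZero_zero C).eq_of_tgt _ _⟩
    hP.sub (0 : (0 : C) ⟶ 𝟙_ C) hP.unit⟩

instance instSubKer : P.IsClosedUnderKernels where
  kernels_le := by
    rintro _ ⟨f, k, hk, hf⟩
    have : Mono k.ι := ⟨fun _ _ h => Fork.IsLimit.hom_ext hk h⟩
    exact hP.sub k.ι hf.1

instance instSubCoker : P.IsClosedUnderCokernels where
  cokernels_le := by
    rintro _ ⟨f, k, hk, hf⟩
    have : Epi k.π := ⟨fun _ _ h => Cofork.IsColimit.hom_ext hk h⟩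
    exact hP.quot k.π hf.2

instance instSubBinProd : P.IsClosedUnderBinaryProducts where
  limitsOfShape_le := by
    rintro X ⟨p⟩
    have h1 := p.prop_diag_obj ⟨WalkingPair.left⟩
    have h2 := p.prop_diag_obj ⟨WalkingPair.right⟩
    let f : X ⟶ p.diag.obj ⟨WalkingPair.left⟩ ⊞ p.diag.obj ⟨WalkingPair.right⟩ :=
      biprod.lift (p.π.app ⟨WalkingPair.left⟩) (p.π.app ⟨WalkingPair.right⟩)
    have hf : Mono f := by
      refine ⟨fun {Z} g h e => ?_⟩
      have e1 := congrArg (· ≫ biprod.fst) e
      have e2 := congrArg (· ≫ biprod.snd) e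
      simp only [f, Category.assoc, biprod.lift_fst, biprod.lift_snd] at e1 e2
      refine p.isLimit.hom_ext ?_
      rintro ⟨_ | _⟩
      · exact e1
      · exact e2
    exact hP.sub f (hP.biprod h1 h2)

instance instSubProd : P.IsClosedUnderFiniteProducts :=
  ObjectProperty.IsClosedUnderFiniteProducts.mk'

/-- The exact pairing of an object and its right dual in a tensor subcategory. -/
noncomputable instance instSubPair (X : P.FullSubcategory) :
    ExactPairing X (⟨X.objᘁ, hP.rdual X.property⟩ : P.FullSubcategory) :=
  @subPair C _ _ P _ X ⟨X.objᘁ, hP.rdual X.property⟩ HasRightDual.exact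

/-- The exact pairing of an object and its left dual in a tensor subcategory. -/
noncomputable instance instSubPair' (X : P.FullSubcategory) :
    ExactPairing (⟨ᘁX.obj, hP.ldual X.property⟩ : P.FullSubcategory) X :=
  @subPair C _ _ P _ ⟨ᘁX.obj, hP.ldual X.property⟩ X HasLeftDual.exact

noncomputable instance instSubRigid : RigidCategory P.FullSubcategory where
  rightDual X := { rightDual := ⟨X.objᘁ, hP.rdual X.property⟩, exact := instSubPair P X }
  leftDual X := { leftDual := ⟨ᘁX.obj, hP.ldual X.property⟩, exact := instSubPair' P X }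

noncomputable example : Abelian P.FullSubcategory := inferInstance
noncomputable example : MonoidalCategory P.FullSubcategory := inferInstance
noncomputable example [MonoidalPreadditive C] : MonoidalPreadditive P.FullSubcategory := inferInstance

end TensorSub

end Pool.Agent.MUG
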