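import Pool.Agent.MUG.B1

open CategoryTheory MonoidalCategory Limits Abelian

universe w v u

namespace Pool.Agent.MUG

section Braided

variable {k : Type*} [Field k] {C : Type u} [Category.{v} C] [Abelian C] [Linear k C]
  [MonoidalCategory C] [MonoidalPreadditive C] [MonoidalLinear k C] [RigidCategory C]
  [BraidedCategory C]

/-- Row B2. -/
theorem leib_simple (hC : IsFinite k C) {b : C} (hb : Invertible b) (L : Leib b)
    (hsq : L.SqZero) (S : C) [Simple S] : L.d S = 0 := by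
  by_contra h
  have : Epi (L.d S) := epi_of_nonzero_to_simple h
  have : Epi (b ◁ L.d S) := inferInstanceAs (Epi ((tensorLeft b).map (L.d S)))
  refine h ?_
  rw [← cancel_epi (b ◁ L.d S), hsq S, comp_zero]

theorem b2_whisk {b b' : C} (φ : b ⊗ b' ≅ 𝟙_ C) {X Y : C} (f : X ⟶ Y) (h : f ▷ b' = 0) :
    f = 0 := by
  have ψ : b' ⊗ b ≅ 𝟙_ C := (β_ b' b) ≪≫ φ
  have h1 : f ▷ (b' ⊗ b) = 0 := by
    rw [whiskerRight_tensor, h]
    simp
  have h2 : f ▷ (𝟙_ C) = 0 := by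
    have e : X ◁ ψ.inv ≫ f ▷ (b' ⊗ b) ≫ Y ◁ ψ.hom = f ▷ (𝟙_ C) := by
      rw [whisker_exchange_assoc, ← whiskerLeft_comp, Iso.inv_hom_id, whiskerLeft_id,
        Category.comp_id]
    rw [← e, h1, zero_comp, comp_zero]
  have h3 := rightUnitor_naturality f
  rw [h2, zero_comp] at h3
  rw [← cancel_epi (ρ_ X).hom, ← h3, comp_zero]

theorem b2_iso {b b' : C} (φ : b ⊗ b' ≅ 𝟙_ C) {X Y : C} (f : X ⟶ Y) (h : IsIso (f ▷ b')) :
    IsIso f := by
  have ψ : b' ⊗ b ≅ 𝟙_ C := (β_ b' b) ≪≫ φ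
  have h1 : IsIso (f ▷ (b' ⊗ b)) := by
    rw [whiskerRight_tensor]
    infer_instance
  have h2 : IsIso (f ▷ (𝟙_ C)) := by
    have e : X ◁ ψ.inv ≫ f ▷ (b' ⊗ b) ≫ Y ◁ ψ.hom = f ▷ (𝟙_ C) := by
      rw [whisker_exchange_assoc, ← whiskerLeft_comp, Iso.inv_hom_id, whiskerLeft_id,
        Category.comp_id]
    rw [← e]
    infer_instance
  have h3 : f = (ρ_ X).inv ≫ f ▷ (𝟙_ C) ≫ (ρ_ Y).hom := by simp
  rw [h3]
  infer_instance

theorem b2_simple (hC : IsFinite k C) {b : C} (hb : Invertible b) : Simple b := by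
  obtain ⟨b', ⟨φ⟩⟩ := hb
  have := hC.unit
  refine ⟨fun {Y} f _ => ⟨fun hf h0 => ?_, fun hf => ?_⟩⟩
  · have h1 : (𝟙 b : b ⟶ b) = 0 :=
      (IsIso.inv_hom_id f).symm.trans ((congrArg (fun t => inv f ≫ t) h0).trans comp_zero)
    have h2 : 𝟙 (𝟙_ C) = 0 := by
      rw [← φ.inv_hom_id, ← Category.id_comp φ.hom, ← id_whiskerRight, h1]
      simp
    exact id_nonzero (𝟙_ C) h2
  · have : Mono (f ▷ b') := inferInstanceAs (Mono ((tensorRight b').map f))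
    have h1 : f ▷ b' ≫ φ.hom ≠ 0 := by
      intro h
      apply hf
      apply b2_whisk φ f
      rw [← cancel_mono φ.hom, h, zero_comp]
    have : IsIso (f ▷ b' ≫ φ.hom) := isIso_of_mono_of_nonzero h1
    apply b2_iso φ f
    exact IsIso.of_isIso_comp_right (f ▷ b') φ.hom

theorem leib_b (hC : IsFinite k C) {b : C} (hb : Invertible b) (L : Leib b)
    (hsq : L.SqZero) (hc : (β_ b b).hom = - 𝟙 (b ⊗ b)) (Y : C) :
    L.d (b ⊗ Y) = - (b ◁ L.d Y) := by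
  have := b2_simple hC hb
  have e : (-𝟙 (b ⊗ b)) ▷ Y = -𝟙 ((b ⊗ b) ⊗ Y) :=
    ((tensorRight Y).map_neg (f := 𝟙 (b ⊗ b))).trans (congrArg Neg.neg (id_whiskerRight _ _))
  rw [L.leib, leib_simple hC hb L hsq b, hc, e]
  simp

end Braided

end Pool.Agent.MUG
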