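import Pool.Agent.MUG.C2

open CategoryTheory MonoidalCategory Limits Abelian

universe w v u

namespace Pool.Agent.MUG

section Braided

variable {k : Type*} [Field k] {C : Type u} [Category.{v} C] [Abelian C] [Linear k C]
  [MonoidalCategory C] [MonoidalPreadditive C] [RigidCategory C]
  [BraidedCategory C]

/-- Row B3. -/
theorem braiding_sign [IsAlgClosed k] (hC : IsFinite k C) {b : C} (hb : Invertible b)
    (ht : Transp b) : (β_ b b).hom = 𝟙 (b ⊗ b) ∨ (β_ b b).hom = - 𝟙 (b ⊗ b) := by
  have h1 : Simple b := simple_of_invertible hC hb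
  have h2 : Simple (b ⊗ b) := simple_tensor_of_invertible hC hb
  have := hC.hom_finite (b ⊗ b) (b ⊗ b)
  obtain ⟨c, hc⟩ := endomorphism_simple_eq_smul_id k (β_ b b).hom
  have h3 := ht b
  rw [← hc] at h3
  simp only [Linear.smul_comp, Linear.comp_smul, Category.id_comp] at h3
  have h4 : (c * c - 1) • 𝟙 (b ⊗ b) = 0 := by
    rw [sub_smul, mul_smul, h3, one_smul, sub_self]
  rcases smul_eq_zero.1 h4 with h5 | h5
  · have h6 : (c - 1) * (c + 1) = 0 := by linear_combination h5
    rcases mul_eq_zero.1 h6 with h7 | h7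
    · left
      rw [← hc, sub_eq_zero.1 h7, one_smul]
    · right
      rw [← hc, eq_neg_of_add_eq_zero_left h7, neg_smul, one_smul]
  · exact absurd h5 (id_nonzero _)

end Braided

end Pool.Agent.MUG
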