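import Pool.Agent.MUG.C0
import Pool.Agent.MUG.C2
import Pool.Agent.MUG.C3

open CategoryTheory MonoidalCategory Limits Abelian

universe w v u

namespace Pool.Agent.MUG

namespace B4aux

section Op

variable {C : Type u} [Category.{v} C] [MonoidalCategory C]

/-- Iterated tensor product with `b` on the left. -/
@[reducible] def Pn (b : C) : ℕ → C → C
  | 0, Z => Z
  | n + 1, Z => b ⊗ Pn b n Z

/-- Functoriality of `Pn`. -/
def Pm (b : C) : ∀ (n : ℕ) {Z Z' : C}, (Z ⟶ Z') → (Pn b n Z ⟶ Pn b n Z')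
  | 0, _, _, f => f
  | n + 1, _, _, f => b ◁ Pm b n f

@[simp] theorem Pm_zero (b : C) {Z Z' : C} (f : Z ⟶ Z') : Pm b 0 f = f := rfl

theorem Pm_succ (b : C) (n : ℕ) {Z Z' : C} (f : Z ⟶ Z') : Pm b (n + 1) f = b ◁ Pm b n f := rfl

theorem Pm_id (b : C) (n : ℕ) (Z : C) : Pm b n (𝟙 Z) = 𝟙 (Pn b n Z) := by
  induction n with
  | zero => rfl
  | succ n ih => rw [Pm_succ, ih]; exact MonoidalCategory.whiskerLeft_id _ _

theorem Pm_comp (b : C) (n : ℕ) {Z Z' Z'' : C} (f : Z ⟶ Z') (g : Z' ⟶ Z'') :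
    Pm b n (f ≫ g) = Pm b n f ≫ Pm b n g := by
  induction n with
  | zero => rfl
  | succ n ih => rw [Pm_succ, ih, MonoidalCategory.whiskerLeft_comp]; rfl

/-- Powers of an operator of degree one. -/
def pw {b : C} {Z : C} (D : b ⊗ Z ⟶ Z) : ∀ n : ℕ, Pn b n Z ⟶ Z
  | 0 => 𝟙 Z
  | n + 1 => (b ◁ pw D n) ≫ D

@[simp] theorem pw_zero {b Z : C} (D : b ⊗ Z ⟶ Z) : pw D 0 = 𝟙 Z := rfl

theorem pw_succ {b Z : C} (D : b ⊗ Z ⟶ Z) (n : ℕ) : pw D (n + 1) = (b ◁ pw D n) ≫ D := rfl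

theorem pw_one {b Z : C} (D : b ⊗ Z ⟶ Z) : pw D 1 = D := by
  rw [pw_succ, pw_zero, MonoidalCategory.whiskerLeft_id, Category.id_comp]

/-- Naturality of powers. -/
theorem pw_nat {b Z Z' : C} (D : b ⊗ Z ⟶ Z) (D' : b ⊗ Z' ⟶ Z') (f : Z ⟶ Z')
    (h : (b ◁ f) ≫ D' = D ≫ f) (n : ℕ) : Pm b n f ≫ pw D' n = pw D n ≫ f := by
  induction n with
  | zero => simp
  | succ n ih =>
    rw [Pm_succ, pw_succ, pw_succ, ← MonoidalCategory.whiskerLeft_comp_assoc, ih,
      MonoidalCategory.whiskerLeft_comp_assoc, h, Category.assoc]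

/-- An operator on the left factor. -/
def opL {b X : C} (a : b ⊗ X ⟶ X) (Y : C) : b ⊗ (X ⊗ Y) ⟶ X ⊗ Y :=
  (α_ b X Y).inv ≫ (a ▷ Y)

/-- The shuffle `b^n (X Y) ⟶ (b^n X) Y`. -/
def tau (b : C) : ∀ (n : ℕ) (X Y : C), Pn b n (X ⊗ Y) ≅ Pn b n X ⊗ Y
  | 0, _, _ => Iso.refl _
  | n + 1, X, Y => (whiskerLeftIso b (tau b n X Y)) ≪≫ (α_ b (Pn b n X) Y).symm

theorem tau_zero (b X Y : C) : (tau b 0 X Y).hom = 𝟙 _ := rfl

theorem tau_succ (b : C) (n : ℕ) (X Y : C) :
    (tau b (n + 1) X Y).hom = (b ◁ (tau b n X Y).hom) ≫ (α_ b (Pn b n X) Y).inv := rfl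

theorem pw_opL {b X : C} (a : b ⊗ X ⟶ X) (Y : C) (n : ℕ) :
    pw (opL a Y) n = (tau b n X Y).hom ≫ (pw a n ▷ Y) := by
  induction n with
  | zero =>
    rw [pw_zero, pw_zero, tau_zero, MonoidalCategory.id_whiskerRight]
    exact (Category.id_comp _).symm
  | succ n ih =>
    rw [pw_succ, ih, pw_succ, tau_succ, opL]
    simp

/-- The canonical map `b^n Y ⟶ (b^n 1) Y`. -/
def kap (b : C) : ∀ (n : ℕ) (Y : C), Pn b n Y ≅ Pn b n (𝟙_ C) ⊗ Y
  | 0, Y => (λ_ Y).symm
  | n + 1, Y => (whiskerLeftIso b (kap b n Y)) ≪≫ (α_ b (Pn b n (𝟙_ C)) Y).symm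

theorem kap_zero (b Y : C) : (kap b 0 Y).hom = (λ_ Y).inv := rfl

theorem kap_succ (b : C) (n : ℕ) (Y : C) :
    (kap b (n + 1) Y).hom = (b ◁ (kap b n Y).hom) ≫ (α_ b (Pn b n (𝟙_ C)) Y).inv := rfl

theorem kap_nat (b : C) (n : ℕ) {Y Y' : C} (f : Y ⟶ Y') :
    Pm b n f ≫ (kap b n Y').hom = (kap b n Y).hom ≫ (Pn b n (𝟙_ C) ◁ f) := by
  induction n with
  | zero => rw [kap_zero, kap_zero, Pm_zero]; exact leftUnitor_inv_naturality f
  | succ n ih =>
    rw [Pm_succ, kap_succ, kap_succ, ← MonoidalCategory.whiskerLeft_comp_assoc, ih]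
    have : Pn b (n + 1) (𝟙_ C) = b ⊗ Pn b n (𝟙_ C) := rfl
    simp [Pn]

theorem kap_tensor (b : C) (n : ℕ) (X Y : C) :
    (kap b n (X ⊗ Y)).hom = (tau b n X Y).hom ≫ ((kap b n X).hom ▷ Y) ≫
      (α_ (Pn b n (𝟙_ C)) X Y).hom := by
  induction n with
  | zero =>
    rw [kap_zero, kap_zero, tau_zero]
    simp [Pn]
  | succ n ih =>
    rw [kap_succ, kap_succ, tau_succ, ih]
    simp [Pn]

/-- The trivialisation `b^n Y ≅ Y` given by `b^n 1 ≅ 1`. -/
def theta {b : C} {n : ℕ} (e : Pn b n (𝟙_ C) ≅ 𝟙_ C) (Y : C) : Pn b n Y ≅ Y :=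
  kap b n Y ≪≫ whiskerRightIso e Y ≪≫ λ_ Y

theorem theta_hom {b : C} {n : ℕ} (e : Pn b n (𝟙_ C) ≅ 𝟙_ C) (Y : C) :
    (theta e Y).hom = (kap b n Y).hom ≫ (e.hom ▷ Y) ≫ (λ_ Y).hom := rfl

theorem theta_nat {b : C} {n : ℕ} (e : Pn b n (𝟙_ C) ≅ 𝟙_ C) {Y Y' : C} (f : Y ⟶ Y') :
    Pm b n f ≫ (theta e Y').hom = (theta e Y).hom ≫ f := by
  rw [theta_hom, theta_hom, ← Category.assoc, kap_nat]
  simp [whisker_exchange_assoc]

theorem theta_left {b : C} {n : ℕ} (e : Pn b n (𝟙_ C) ≅ 𝟙_ C) (X Y : C) :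
    (tau b n X Y).hom ≫ ((theta e X).hom ▷ Y) = (theta e (X ⊗ Y)).hom := by
  rw [theta_hom, theta_hom, kap_tensor]
  simp

end Op

section OpB

variable {C : Type u} [Category.{v} C] [MonoidalCategory C] [BraidedCategory C]

/-- An operator on the right factor. -/
def opR {b Y : C} (X : C) (a : b ⊗ Y ⟶ Y) : b ⊗ (X ⊗ Y) ⟶ X ⊗ Y :=
  (α_ b X Y).inv ≫ ((β_ b X).hom ▷ Y) ≫ (α_ X b Y).hom ≫ (X ◁ a)

/-- The shuffle `b^n (X Y) ⟶ X (b^n Y)`. -/
def phi (b : C) : ∀ (n : ℕ) (X Y : C), Pn b n (X ⊗ Y) ≅ X ⊗ Pn b n Y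
  | 0, _, _ => Iso.refl _
  | n + 1, X, Y => (whiskerLeftIso b (phi b n X Y)) ≪≫ (α_ b X (Pn b n Y)).symm ≪≫
      (whiskerRightIso (β_ b X) (Pn b n Y)) ≪≫ (α_ X b (Pn b n Y))

theorem phi_zero (b X Y : C) : (phi b 0 X Y).hom = 𝟙 _ := rfl

theorem phi_succ (b : C) (n : ℕ) (X Y : C) :
    (phi b (n + 1) X Y).hom = (b ◁ (phi b n X Y).hom) ≫ (α_ b X (Pn b n Y)).inv ≫
      ((β_ b X).hom ▷ Pn b n Y) ≫ (α_ X b (Pn b n Y)).hom := rfl

theorem sh_nat (b X : C) {Y Y' : C} (g : Y ⟶ Y') :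
    (b ◁ (X ◁ g)) ≫ (α_ b X Y').inv ≫ ((β_ b X).hom ▷ Y') ≫ (α_ X b Y').hom =
      (α_ b X Y).inv ≫ ((β_ b X).hom ▷ Y) ≫ (α_ X b Y).hom ≫ (X ◁ (b ◁ g)) := by
  rw [← associator_naturality_right, ← whisker_exchange_assoc,
    associator_inv_naturality_right_assoc]

theorem sh_nat_assoc (b X : C) {Y Y' Z : C} (g : Y ⟶ Y') (h : X ⊗ (b ⊗ Y') ⟶ Z) :
    (b ◁ (X ◁ g)) ≫ (α_ b X Y').inv ≫ ((β_ b X).hom ▷ Y') ≫ (α_ X b Y').hom ≫ h =
      (α_ b X Y).inv ≫ ((β_ b X).hom ▷ Y) ≫ (α_ X b Y).hom ≫ (X ◁ (b ◁ g)) ≫ h := by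
  have := congrArg (fun t => t ≫ h) (sh_nat b X g)
  simpa only [Category.assoc] using this

theorem pw_opR {b Y : C} (X : C) (a : b ⊗ Y ⟶ Y) (n : ℕ) :
    pw (opR X a) n = (phi b n X Y).hom ≫ (X ◁ pw a n) := by
  induction n with
  | zero =>
    rw [pw_zero, pw_zero, phi_zero, MonoidalCategory.whiskerLeft_id]
    exact (Category.id_comp _).symm
  | succ n ih =>
    rw [pw_succ, ih, pw_succ, phi_succ, opR]
    simp only [MonoidalCategory.whiskerLeft_comp, Category.assoc]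
    rw [sh_nat_assoc]

theorem phi_nat (b : C) (n : ℕ) (X : C) {Y Y' : C} (f : Y ⟶ Y') :
    Pm b n (X ◁ f) ≫ (phi b n X Y').hom = (phi b n X Y).hom ≫ (X ◁ Pm b n f) := by
  induction n with
  | zero => rw [phi_zero, phi_zero, Pm_zero, Pm_zero]; simp
  | succ n ih =>
    rw [Pm_succ, Pm_succ, phi_succ, phi_succ, ← MonoidalCategory.whiskerLeft_comp_assoc, ih]
    simp only [MonoidalCategory.whiskerLeft_comp, Category.assoc]
    rw [sh_nat]

theorem phi_kap (b : C) (n : ℕ) (X Y : C) :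
    (phi b n X Y).hom ≫ (X ◁ (kap b n Y).hom) =
      (kap b n (X ⊗ Y)).hom ≫ (α_ _ _ _).inv ≫ ((β_ (Pn b n (𝟙_ C)) X).hom ▷ Y) ≫
        (α_ _ _ _).hom := by
  induction n with
  | zero =>
    rw [kap_zero, kap_zero, phi_zero]
    simp
  | succ n ih =>
    rw [phi_succ, kap_succ, kap_succ]
    simp only [MonoidalCategory.whiskerLeft_comp, Category.assoc]
    rw [← sh_nat_assoc, ← MonoidalCategory.whiskerLeft_comp_assoc, ih]
    simp

theorem theta_right {b : C} {n : ℕ} (e : Pn b n (𝟙_ C) ≅ 𝟙_ C) (X Y : C) :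
    (phi b n X Y).hom ≫ (X ◁ (theta e Y).hom) = (theta e (X ⊗ Y)).hom := by
  have h := BraidedCategory.braiding_naturality_left e.hom X
  have h' := congrArg (fun t => (t ▷ Y)) h
  simp only [comp_whiskerRight] at h'
  rw [theta_hom, theta_hom, MonoidalCategory.whiskerLeft_comp, ← Category.assoc, phi_kap]
  simp only [MonoidalCategory.whiskerLeft_comp, Category.assoc]
  rw [← associator_naturality_middle_assoc, ← reassoc_of% h']
  simp

/-- The two operators commute when `b` braids trivially with itself. -/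
theorem opL_opR_comm {b X Y : C} (hc : (β_ b b).hom = 𝟙 (b ⊗ b)) (a : b ⊗ X ⟶ X)
    (a' : b ⊗ Y ⟶ Y) :
    (b ◁ opL a Y) ≫ opR X a' = (b ◁ opR X a') ≫ opL a Y := by
  have h2 := BraidedCategory.hexagon_forward b b X
  rw [hc, id_whiskerRight, Category.id_comp, cancel_epi, ← Iso.eq_comp_inv] at h2
  have h3 := BraidedCategory.braiding_naturality_right b a
  rw [h2] at h3
  have h4 := congrArg (fun t => t ▷ Y) h3
  simp only [comp_whiskerRight, Category.assoc] at h4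
  unfold opL opR
  simp only [MonoidalCategory.whiskerLeft_comp, Category.assoc]
  rw [associator_inv_naturality_middle_assoc, reassoc_of% h4, associator_naturality_left_assoc,
    associator_inv_naturality_right_assoc, whisker_exchange]
  simp

end OpB

section Add

variable {C : Type u} [Category.{v} C] [Preadditive C] [MonoidalCategory C]
  [MonoidalPreadditive C]

theorem Pm_add (b : C) (n : ℕ) {Z Z' : C} (f g : Z ⟶ Z') :
    Pm b n (f + g) = Pm b n f + Pm b n g := by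
  induction n with
  | zero => rfl
  | succ n ih => rw [Pm_succ, ih, MonoidalPreadditive.whiskerLeft_add]; rfl

/-- The complete homogeneous sums `sum A^i B^(n-i)`. -/
def hs {b Z : C} (A B : b ⊗ Z ⟶ Z) : ∀ n : ℕ, Pn b n Z ⟶ Z
  | 0 => 𝟙 Z
  | n + 1 => (b ◁ hs A B n) ≫ A + pw B (n + 1)

theorem hs_zero {b Z : C} (A B : b ⊗ Z ⟶ Z) : hs A B 0 = 𝟙 Z := rfl

theorem hs_succ {b Z : C} (A B : b ⊗ Z ⟶ Z) (n : ℕ) :
    hs A B (n + 1) = (b ◁ hs A B n) ≫ A + pw B (n + 1) := rfl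

/-- Telescoping. -/
theorem hs_tel {b Z : C} (A B : b ⊗ Z ⟶ Z) (hAB : (b ◁ A) ≫ B = (b ◁ B) ≫ A) (n : ℕ) :
    (b ◁ hs A B n) ≫ (A - B) = pw A (n + 1) - pw B (n + 1) := by
  induction n with
  | zero => rw [hs_zero, pw_one, pw_one, MonoidalCategory.whiskerLeft_id, Category.id_comp]
  | succ n ih =>
    have h1 : (b ◁ A) ≫ (A - B) = (b ◁ (A - B)) ≫ A := by
      rw [Preadditive.comp_sub, hAB, sub_eq_add_neg A B, MonoidalPreadditive.whiskerLeft_add,
        Preadditive.add_comp]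
      have : b ◁ (-B) = - (b ◁ B) := by
        rw [eq_neg_iff_add_eq_zero, ← MonoidalPreadditive.whiskerLeft_add, neg_add_cancel,
          MonoidalPreadditive.whiskerLeft_zero]
      rw [this, Preadditive.neg_comp]
      abel
    rw [hs_succ, MonoidalPreadditive.whiskerLeft_add, Preadditive.add_comp,
      MonoidalCategory.whiskerLeft_comp, Category.assoc, h1,
      ← MonoidalCategory.whiskerLeft_comp_assoc, ih, sub_eq_add_neg (pw A (n + 1)),
      MonoidalPreadditive.whiskerLeft_add]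
    have : b ◁ (-pw B (n + 1)) = - (b ◁ pw B (n + 1)) := by
      rw [eq_neg_iff_add_eq_zero, ← MonoidalPreadditive.whiskerLeft_add, neg_add_cancel,
        MonoidalPreadditive.whiskerLeft_zero]
    rw [this, Preadditive.add_comp, Preadditive.neg_comp, Preadditive.comp_sub,
      ← pw_succ A (n + 1), ← pw_succ B (n + 1)]
    abel

/-- The binomial formula when `A² = 0`. -/
theorem pw_add_binom {b Z : C} (A B : b ⊗ Z ⟶ Z) (hAB : (b ◁ A) ≫ B = (b ◁ B) ≫ A)
    (hA : (b ◁ A) ≫ A = 0) (n : ℕ) :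
    pw (A + B) (n + 1) = pw B (n + 1) + (n + 1) • ((b ◁ pw B n) ≫ A) := by
  induction n with
  | zero =>
    have h1 : (0 + 1) • ((b ◁ pw B 0) ≫ A) = A := by
      rw [pw_zero, MonoidalCategory.whiskerLeft_id, Category.id_comp]
      exact one_smul ℕ A
    rw [h1, pw_one, pw_one]
    exact add_comm A B
  | succ n ih =>
    have hsm : ∀ (m : ℕ) (f : Pn b (n + 1) Z ⟶ Z), b ◁ (m • f) = m • (b ◁ f) := by
      intro m f
      exact (tensorLeft b).map_nsmul
    rw [pw_succ, ih, MonoidalPreadditive.whiskerLeft_add, Preadditive.add_comp,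
      Preadditive.comp_add, ← pw_succ B (n + 1), hsm, Preadditive.nsmul_comp,
      Preadditive.comp_add, MonoidalCategory.whiskerLeft_comp, Category.assoc, hA, comp_zero,
      zero_add, Category.assoc, hAB, ← MonoidalCategory.whiskerLeft_comp_assoc, ← pw_succ B n,
      add_smul (n + 1) 1, one_smul]
    abel

theorem hs_nat {b Z Z' : C} (A B : b ⊗ Z ⟶ Z) (A' B' : b ⊗ Z' ⟶ Z') (f : Z ⟶ Z')
    (hA : (b ◁ f) ≫ A' = A ≫ f) (hB : (b ◁ f) ≫ B' = B ≫ f) (n : ℕ) :
    Pm b n f ≫ hs A' B' n = hs A B n ≫ f := by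
  induction n with
  | zero => rw [hs_zero, hs_zero, Pm_zero, Category.comp_id, Category.id_comp]
  | succ n ih =>
    rw [hs_succ, hs_succ, Preadditive.comp_add, pw_nat B B' f hB, Preadditive.add_comp,
      Pm_succ, ← MonoidalCategory.whiskerLeft_comp_assoc, ih,
      MonoidalCategory.whiskerLeft_comp_assoc, hA, Category.assoc]

theorem hs_opL {b X : C} (A B : b ⊗ X ⟶ X) (W : C) (n : ℕ) :
    hs (opL A W) (opL B W) n = (tau b n X W).hom ≫ (hs A B n ▷ W) := by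
  induction n with
  | zero =>
    rw [hs_zero, hs_zero, tau_zero, MonoidalCategory.id_whiskerRight]
    exact (Category.id_comp _).symm
  | succ n ih =>
    rw [hs_succ, hs_succ, ih, pw_opL, MonoidalPreadditive.add_whiskerRight, Preadditive.comp_add,
      tau_succ, opL]
    simp

end Add

section AddB

variable {C : Type u} [Category.{v} C] [Preadditive C] [MonoidalCategory C]
  [MonoidalPreadditive C] [BraidedCategory C]

theorem hs_test {b X Y Q W : C} (a : b ⊗ X ⟶ X) (a' : b ⊗ Y ⟶ Y) (g : Q ⟶ Y) (q : Y ⟶ W)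
    (n : ℕ) (h : ∀ j, 0 < j → j ≤ n → Pm b j g ≫ pw a' j ≫ q = 0) :
    Pm b n (X ◁ g) ≫ hs (opL a Y) (opR X a') n ≫ (X ◁ q) =
      Pm b n (X ◁ (g ≫ q)) ≫ pw (opL a W) n := by
  induction n with
  | zero =>
    rw [hs_zero, pw_zero, Pm_zero, Pm_zero, Category.comp_id, Category.id_comp,
      MonoidalCategory.whiskerLeft_comp]
  | succ n ih =>
    have h1 : Pm b (n + 1) (X ◁ g) ≫ pw (opR X a') (n + 1) ≫ (X ◁ q) = 0 := by
      rw [pw_opR, Category.assoc, ← MonoidalCategory.whiskerLeft_comp, ← Category.assoc,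
        phi_nat, Category.assoc, ← MonoidalCategory.whiskerLeft_comp, h (n + 1) (by omega) le_rfl,
        MonoidalPreadditive.whiskerLeft_zero, comp_zero]
    have h2 : opL a Y ≫ (X ◁ q) = (b ◁ (X ◁ q)) ≫ opL a W := by
      rw [opL, opL, Category.assoc, ← whisker_exchange, ← associator_inv_naturality_right_assoc]
    rw [hs_succ, Preadditive.add_comp, Preadditive.comp_add, h1, add_zero, Category.assoc, h2,
      Pm_succ, Pm_succ, pw_succ, ← MonoidalCategory.whiskerLeft_comp_assoc,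
      ← MonoidalCategory.whiskerLeft_comp_assoc, Category.assoc, ih (fun j h0 hj => h j h0 (by omega)),
      MonoidalCategory.whiskerLeft_comp_assoc]

theorem opL_assoc {b X : C} (a : b ⊗ X ⟶ X) (Y W : C) :
    (b ◁ (α_ X Y W).hom) ≫ opL a (Y ⊗ W) = opL (opL a Y) W ≫ (α_ X Y W).hom := by
  rw [opL, opL, opL]
  simp

theorem opR_assoc {b Y : C} (X : C) (a : b ⊗ Y ⟶ Y) (W : C) :
    (b ◁ (α_ X Y W).hom) ≫ opR X (opL a W) = opL (opR X a) W ≫ (α_ X Y W).hom := by
  rw [opL, opL, opR, opR]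
  simp

/-- The test lemma: `h_n` does not vanish on `X (Y W)` hence not on `X Y`. -/
theorem hs_ne_zero {b X Y W Q : C} (a : b ⊗ X ⟶ X) (a' : b ⊗ Y ⟶ Y) (g : Q ⟶ Y ⊗ W)
    (q : Y ⊗ W ⟶ 𝟙_ C) (n : ℕ) (h : ∀ j, 0 < j → j ≤ n → ∀ f : Pn b j Q ⟶ 𝟙_ C, f = 0)
    (h0 : Pm b n (X ◁ (g ≫ q)) ≫ pw (opL a (𝟙_ C)) n ≠ 0) :
    hs (opL a Y) (opR X a') n ≠ 0 := by
  intro hz
  apply h0
  rw [← hs_test a (opL a' W) g q n (fun j hj0 hj => h j hj0 hj _)]
  have h1 := hs_nat (opL (opL a Y) W) (opL (opR X a') W) (opL a (Y ⊗ W)) (opR X (opL a' W))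
    (α_ X Y W).hom (opL_assoc a Y W) (opR_assoc X a' W) n
  rw [hs_opL, hz, MonoidalPreadditive.zero_whiskerRight, comp_zero, zero_comp] at h1
  have h2 : hs (opL a (Y ⊗ W)) (opR X (opL a' W)) n = 0 := by
    have h3 := congrArg (fun t => Pm b n (α_ X Y W).inv ≫ t) h1
    simp only [comp_zero] at h3
    rw [← Category.assoc, ← Pm_comp, Iso.inv_hom_id, Pm_id, Category.id_comp] at h3
    exact h3
  rw [h2, zero_comp, comp_zero]

end AddB

section Ab

variable {C : Type u} [Category.{v} C] [Abelian C] [MonoidalCategory C]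
  [MonoidalPreadditive C] [RigidCategory C]

theorem wl_mono (X : C) {Y Y' : C} (f : Y ⟶ Y') [Mono f] : Mono (X ◁ f) :=
  inferInstanceAs (Mono ((tensorLeft X).map f))

theorem wl_epi (X : C) {Y Y' : C} (f : Y ⟶ Y') [Epi f] : Epi (X ◁ f) :=
  inferInstanceAs (Epi ((tensorLeft X).map f))

theorem wr_mono (X : C) {Y Y' : C} (f : Y ⟶ Y') [Mono f] : Mono (f ▷ X) :=
  inferInstanceAs (Mono ((tensorRight X).map f))

theorem wr_epi (X : C) {Y Y' : C} (f : Y ⟶ Y') [Epi f] : Epi (f ▷ X) :=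
  inferInstanceAs (Epi ((tensorRight X).map f))

attribute [local instance] wl_mono wl_epi wr_mono wr_epi

theorem Pm_mono (b : C) (n : ℕ) {Z Z' : C} (f : Z ⟶ Z') [Mono f] : Mono (Pm b n f) := by
  induction n with
  | zero => exact ‹Mono f›
  | succ n ih => exact wl_mono b _

theorem Pm_epi (b : C) (n : ℕ) {Z Z' : C} (f : Z ⟶ Z') [Epi f] : Epi (Pm b n f) := by
  induction n with
  | zero => exact ‹Epi f›
  | succ n ih => exact wl_epi b _

theorem pw_isIso {b Z : C} (D : b ⊗ Z ⟶ Z) [IsIso D] (n : ℕ) : IsIso (pw D n) := by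
  induction n with
  | zero => rw [pw_zero]; infer_instance
  | succ n ih => rw [pw_succ]; infer_instance

theorem pw_zero_of_zero {b Z : C} {D : b ⊗ Z ⟶ Z} (hD : D = 0) (n : ℕ) : pw D (n + 1) = 0 := by
  rw [pw_succ, hD, comp_zero]

theorem pw_mono_zero {b Z : C} {D : b ⊗ Z ⟶ Z} {m n : ℕ} (hmn : m ≤ n) (h : pw D m = 0) :
    pw D n = 0 := by
  induction n, hmn using Nat.le_induction with
  | base => exact h
  | succ n _ ih => rw [pw_succ, ih, MonoidalPreadditive.whiskerLeft_zero, zero_comp]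

/-- The coevaluation of a nonzero object is a monomorphism. -/
theorem coev_mono [Simple (𝟙_ C)] {I : C} (hI : ¬ IsZero I) : Mono (η_ I (Iᘁ)) := by
  refine mono_of_nonzero_from_simple ?_
  intro h
  apply hI
  have h1 := ExactPairing.evaluation_coevaluation I (Iᘁ)
  rw [h, MonoidalPreadditive.zero_whiskerRight, zero_comp] at h1
  have h2 : 𝟙 I = 0 := by
    have h3 := congrArg (fun t => (λ_ I).inv ≫ t ≫ (ρ_ I).hom) h1
    simp only [zero_comp, comp_zero, Category.assoc, Iso.inv_hom_id_assoc,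
      Iso.inv_hom_id] at h3
    exact h3.symm
  exact (IsZero.iff_id_eq_zero I).2 h2

theorem zero_of_whiskerRight_zero [Simple (𝟙_ C)] {I U V : C} (hI : ¬ IsZero I) (f : U ⟶ V)
    (h : f ▷ I = 0) : f = 0 := by
  have := coev_mono hI
  have h1 : f ≫ (ρ_ V).inv ≫ (V ◁ η_ I (Iᘁ)) = 0 := by
    rw [rightUnitor_inv_naturality_assoc, ← whisker_exchange]
    have h2 : f ▷ (I ⊗ Iᘁ) = (α_ U I (Iᘁ)).inv ≫ ((f ▷ I) ▷ (Iᘁ)) ≫ (α_ V I (Iᘁ)).hom := by
      simp
    rw [h2, h, MonoidalPreadditive.zero_whiskerRight, zero_comp, comp_zero, comp_zero, comp_zero]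
  have : Mono ((ρ_ V).inv ≫ (V ◁ η_ I (Iᘁ))) := mono_comp _ _
  exact zero_of_comp_mono _ h1

/-- The tensor product of nonzero maps is nonzero. -/
theorem tensor_ne_zero [Simple (𝟙_ C)] {U V U' V' : C} (f : U ⟶ V) (g : U' ⟶ V') (hf : f ≠ 0)
    (hg : g ≠ 0) : (U ◁ g) ≫ (f ▷ V') ≠ 0 := by
  intro h
  apply hf
  have hI : ¬ IsZero (Limits.image g) := by
    intro hz
    apply hg
    rw [← Limits.image.fac g, hz.eq_of_tgt (Limits.factorThruImage g) 0, zero_comp]
  refine zero_of_whiskerRight_zero hI f ?_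
  rw [← Limits.image.fac g, MonoidalCategory.whiskerLeft_comp, Category.assoc, whisker_exchange] at h
  have h1 := zero_of_epi_comp _ h
  exact zero_of_comp_mono _ h1

end Ab

section Main

attribute [local instance] wl_mono wl_epi wr_mono wr_epi

variable {k : Type*} [Field k] {C : Type u} [Category.{v} C] [Abelian C] [Linear k C]
  [MonoidalCategory C] [MonoidalPreadditive C] [MonoidalLinear k C] [RigidCategory C]
  [BraidedCategory C]

theorem leib_eq {b : C} (L : Leib b) (X Y : C) :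
    L.d (X ⊗ Y) = opL (L.d X) Y + opR X (L.d Y) := by
  rw [L.leib, opL, opR]

theorem pw_leib_nat {b : C} (L : Leib b) {Y Y' : C} (f : Y ⟶ Y') (n : ℕ) :
    Pm b n f ≫ pw (L.d Y') n = pw (L.d Y) n ≫ f := pw_nat _ _ f (L.nat f) n

/-- A uniform bound for the nilpotency when `d` vanishes on the simple objects. -/
theorem nilp_each (hC : IsFinite k C) {b : C} (L : Leib b)
    (h0 : ∀ S : C, Simple S → L.d S = 0) (Y : C) : ∃ M, pw (L.d Y) M = 0 := by
  refine fl_induction hC.artinian hC.noetherian (fun Y => ∃ M, pw (L.d Y) M = 0) ?_ ?_ Y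
  · intro X hX
    exact ⟨0, hX.eq_of_tgt _ _⟩
  · rintro S hS ⟨M, hM⟩ h3
    have h1 : L.d S.X₂ ≫ S.g = 0 := by
      rw [← L.nat, h0 _ h3, comp_zero]
    have := hS.mono_f
    let u : b ⊗ S.X₂ ⟶ S.X₁ := hS.exact.lift (L.d S.X₂) h1
    have hu : u ≫ S.f = L.d S.X₂ := hS.exact.lift_f _ _
    have key : ∀ n, ∃ v : Pn b (n + 1) S.X₂ ⟶ Pn b n S.X₁,
        pw (L.d S.X₂) (n + 1) = v ≫ pw (L.d S.X₁) n ≫ S.f := by
      intro n
      induction n with
      | zero => exact ⟨u, by rw [pw_one, pw_zero, Category.id_comp, hu]⟩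
      | succ n ih =>
        obtain ⟨v, hv⟩ := ih
        refine ⟨b ◁ v, ?_⟩
        rw [pw_succ, hv, MonoidalCategory.whiskerLeft_comp, Category.assoc,
          MonoidalCategory.whiskerLeft_comp, Category.assoc, L.nat, pw_succ, Category.assoc]
    obtain ⟨v, hv⟩ := key M
    exact ⟨M + 1, by rw [hv, hM, zero_comp, comp_zero]⟩

theorem nilp_unif (hC : IsFinite k C) {b : C} (L : Leib b)
    (h0 : ∀ S : C, Simple S → L.d S = 0) : ∃ M, ∀ Y : C, pw (L.d Y) M = 0 := by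
  classical
  obtain ⟨n, S, hS⟩ := hC.simples
  have := hC.enough
  choose M hM using fun Y : C => nilp_each hC L h0 Y
  let N := ∑ i : Fin n, M (Projective.over (S i))
  have hN : ∀ i, pw (L.d (Projective.over (S i))) N = 0 := fun i =>
    pw_mono_zero (Finset.single_le_sum (f := fun i => M (Projective.over (S i)))
      (fun _ _ => Nat.zero_le _) (Finset.mem_univ i)) (hM _)
  refine ⟨N, fun Y => ?_⟩
  have key : ∃ (Q : C) (f : Q ⟶ Y), Epi f ∧ pw (L.d Q) N = 0 := by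
    refine fl_induction hC.artinian hC.noetherian
      (fun Y => ∃ (Q : C) (f : Q ⟶ Y), Epi f ∧ pw (L.d Q) N = 0) ?_ ?_ Y
    · intro X hX
      refine ⟨X, 𝟙 X, inferInstance, ?_⟩
      exact hX.eq_of_tgt _ _
    · rintro T hT ⟨Q, f, hf, hQ⟩ h3
      obtain ⟨i, ⟨e⟩⟩ := hS T.X₃ h3
      have := hT.epi_g
      let p : Projective.over (S i) ⟶ T.X₃ := Projective.π (S i) ≫ e.inv
      have : Epi p := epi_comp _ _
      let l : Projective.over (S i) ⟶ T.X₂ := Projective.factorThru p T.g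
      have hl : l ≫ T.g = p := Projective.factorThru_comp _ _
      refine ⟨Q ⊞ Projective.over (S i), biprod.desc (f ≫ T.f) l, ?_, ?_⟩
      · refine Preadditive.epi_of_cancel_zero _ ?_
        intro R r hr
        have h1 : (f ≫ T.f) ≫ r = 0 := by
          rw [← biprod.inl_desc (f ≫ T.f) l, Category.assoc, hr, comp_zero]
        have h2 : l ≫ r = 0 := by
          rw [← biprod.inr_desc (f ≫ T.f) l, Category.assoc, hr, comp_zero]
        rw [Category.assoc] at h1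
        have h4 := zero_of_epi_comp _ h1
        let r' := hT.exact.desc r h4
        have hr' : T.g ≫ r' = r := hT.exact.g_desc _ _
        rw [← hr', ← Category.assoc, hl] at h2
        rw [← hr', zero_of_epi_comp _ h2, comp_zero]
      · have h1 : Pm b N (biprod.inl : Q ⟶ Q ⊞ Projective.over (S i)) ≫ pw (L.d _) N = 0 := by
          rw [pw_leib_nat, hQ, zero_comp]
        have h2 : Pm b N (biprod.inr : _ ⟶ Q ⊞ Projective.over (S i)) ≫ pw (L.d _) N = 0 := by
          rw [pw_leib_nat, hN, zero_comp]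
        rw [← Category.id_comp (pw (L.d (Q ⊞ Projective.over (S i))) N), ← Pm_id,
          ← biprod.total, Pm_add, Preadditive.add_comp, Pm_comp, Pm_comp, Category.assoc,
          Category.assoc, h1, h2, comp_zero, comp_zero, add_zero]
  obtain ⟨Q, f, hf, hQ⟩ := key
  have := Pm_epi b N f
  have h1 := pw_leib_nat L f N
  rw [hQ, zero_comp] at h1
  exact zero_of_epi_comp _ h1

/-- The nilpotent case. -/
theorem prim_nilp [CharZero k] (hC : IsFinite k C) {b : C} (L : Leib b)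
    (hc : (β_ b b).hom = 𝟙 (b ⊗ b)) (h0 : ∀ S : C, Simple S → L.d S = 0) (Y : C) :
    L.d Y = 0 := by
  classical
  have := hC.unit
  by_contra hY
  have hex : ∃ M, ∀ Y : C, pw (L.d Y) M = 0 := nilp_unif hC L h0
  obtain ⟨m, hm⟩ : ∃ m, Nat.find hex = m + 2 := by
    have h1 : Nat.find hex ≠ 0 := by
      intro h
      have h2 := Nat.find_spec hex Y
      rw [h, pw_zero] at h2
      apply hY
      rw [← Category.comp_id (L.d Y), h2, comp_zero]
    have h1' : Nat.find hex ≠ 1 := by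
      intro h
      have h2 := Nat.find_spec hex Y
      rw [h, pw_one] at h2
      exact hY h2
    exact ⟨Nat.find hex - 2, by omega⟩
  have hall : ∀ Y : C, pw (L.d Y) (m + 2) = 0 := fun Y => by
    have := Nat.find_spec hex Y
    rwa [hm] at this
  obtain ⟨V, hV⟩ : ∃ V : C, pw (L.d V) (m + 1) ≠ 0 := by
    have := Nat.find_min hex (m := m + 1) (by omega)
    push Not at this
    exact this
  -- the image of `d^m` on `V`
  let X := Limits.image (pw (L.d V) m)
  let i : X ⟶ V := Limits.image.ι (pw (L.d V) m)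
  let p : Pn b m V ⟶ X := Limits.factorThruImage (pw (L.d V) m)
  have hpi : p ≫ i = pw (L.d V) m := Limits.image.fac _
  have hX1 : L.d X ≠ 0 := by
    intro h
    apply hV
    rw [pw_succ, ← hpi, MonoidalCategory.whiskerLeft_comp, Category.assoc, L.nat, h, zero_comp,
      comp_zero]
  have hX2 : (b ◁ L.d X) ≫ L.d X = 0 := by
    have h1 : (b ◁ (b ◁ p)) ≫ ((b ◁ L.d X) ≫ L.d X) ≫ i = 0 := by
      rw [Category.assoc, ← L.nat, ← MonoidalCategory.whiskerLeft_comp_assoc b (L.d X) i,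
        ← L.nat, MonoidalCategory.whiskerLeft_comp_assoc,
        ← MonoidalCategory.whiskerLeft_comp_assoc b (b ◁ p), ← MonoidalCategory.whiskerLeft_comp,
        hpi, ← MonoidalCategory.whiskerLeft_comp_assoc, ← pw_succ, ← pw_succ]
      exact hall V
    exact zero_of_comp_mono _ (zero_of_epi_comp _ h1)
  have hstep : ∀ n : ℕ, ∃ Y : C, pw (L.d Y) (n + 1) ≠ 0 ∧ pw (L.d Y) (n + 2) = 0 := by
    intro n
    induction n with
    | zero =>
      refine ⟨X, ?_, ?_⟩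
      · rw [pw_one]; exact hX1
      · rw [pw_succ, pw_one]; exact hX2
    | succ n ih =>
      obtain ⟨Y, hY1, hY2⟩ := ih
      have hcomm := opL_opR_comm hc (L.d X) (L.d Y)
      have hA : (b ◁ opL (L.d X) Y) ≫ opL (L.d X) Y = 0 := by
        have h1 := pw_opL (L.d X) Y 2
        rw [pw_succ, pw_one, pw_succ (L.d X), pw_one, hX2, MonoidalPreadditive.zero_whiskerRight,
          comp_zero] at h1
        exact h1
      have hB : ∀ j, pw (L.d Y) j = 0 → pw (opR X (L.d Y)) j = 0 := by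
        intro j hj
        rw [pw_opR, hj, MonoidalPreadditive.whiskerLeft_zero, comp_zero]
      refine ⟨X ⊗ Y, ?_, ?_⟩
      · rw [leib_eq, pw_add_binom _ _ hcomm hA, hB _ hY2, zero_add]
        have hne : (b ◁ pw (opR X (L.d Y)) (n + 1)) ≫ opL (L.d X) Y ≠ 0 := by
          rw [pw_opR, MonoidalCategory.whiskerLeft_comp, Category.assoc, opL,
            associator_inv_naturality_right_assoc]
          intro h
          have h1 := zero_of_epi_comp _ (zero_of_epi_comp _ h)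
          exact tensor_ne_zero (L.d X) (pw (L.d Y) (n + 1)) hX1 hY1 h1
        intro h
        apply hne
        have h2 : ((n + 1 + 1 : ℕ) : k) • ((b ◁ pw (opR X (L.d Y)) (n + 1)) ≫ opL (L.d X) Y) = 0 := by
          rw [Nat.cast_smul_eq_nsmul]; exact h
        rcases smul_eq_zero.1 h2 with h3 | h3
        · exact absurd h3 (Nat.cast_ne_zero.2 (by omega))
        · exact h3
      · rw [leib_eq, pw_add_binom _ _ hcomm hA, hB _ (pw_mono_zero (by omega) hY2),
          hB _ hY2, MonoidalPreadditive.whiskerLeft_zero, zero_comp, smul_zero, add_zero]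
  obtain ⟨Y', h1, -⟩ := hstep (m + 1)
  exact h1 (hall Y')

theorem iter_comm {A : Type*} [Category A] [Abelian A] (F : A ⥤ A) (n : ℕ) (M : A) :
    iter F n (F.obj M) = F.obj (iter F n M) := by
  induction n generalizing M with
  | zero => rfl
  | succ n ih => exact ih (F.obj M)

theorem iter_eq_Pn (b : C) (n : ℕ) (M : C) : iter (tensorLeft b) n M = Pn b n M := by
  induction n with
  | zero => rfl
  | succ n ih =>
    have h1 : iter (tensorLeft b) (n + 1) M = (tensorLeft b).obj (iter (tensorLeft b) n M) :=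
      iter_comm (tensorLeft b) n M
    rw [h1, ih]
    rfl

theorem id_zero_of_iso {X Y : C} (f : X ⟶ Y) [IsIso f] (h : f = 0) : 𝟙 Y = 0 := by
  have h1 : inv f ≫ f = inv f ≫ 0 := congrArg (fun t => inv f ≫ t) h
  rwa [IsIso.inv_hom_id, comp_zero] at h1

theorem inv_unit : Invertible (𝟙_ C) := ⟨𝟙_ C, ⟨λ_ _⟩⟩

theorem inv_tensor {X Y : C} (hX : Invertible X) (hY : Invertible Y) : Invertible (X ⊗ Y) := by
  obtain ⟨X', ⟨e⟩⟩ := hX
  obtain ⟨Y', ⟨f⟩⟩ := hY
  exact ⟨Y' ⊗ X', ⟨α_ X Y (Y' ⊗ X') ≪≫ whiskerLeftIso X ((α_ Y Y' X').symm ≪≫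
    whiskerRightIso f X' ≪≫ λ_ X') ≪≫ e⟩⟩

theorem inv_Pn {b : C} (hb : Invertible b) (n : ℕ) : Invertible (Pn b n (𝟙_ C)) := by
  induction n with
  | zero => exact inv_unit
  | succ n ih => exact inv_tensor hb ih

/-- Maps from `b^j P` to the unit vanish when `P` is the cover of the unit and `b^j` is not
trivial. -/
theorem cover_no_map (hC : IsFinite k C) {b : C} (hb : Invertible b) {P : C} {e : P ⟶ 𝟙_ C}
    (hP : ∀ (S : C) [Simple S] (f : P ⟶ S), f ≠ 0 → ∃ g : 𝟙_ C ≅ S, f = e ≫ g.hom) (j : ℕ) (hj : ¬ Nonempty (Pn b j (𝟙_ C) ≅ 𝟙_ C))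
    (f : Pn b j P ⟶ 𝟙_ C) : f = 0 := by
  by_contra hf
  have := hC.unit
  obtain ⟨c', ⟨e1⟩⟩ := inv_Pn hb j
  let c := Pn b j (𝟙_ C)
  let e2 : c' ⊗ c ≅ 𝟙_ C := β_ c' c ≪≫ e1
  have hc' : Invertible c' := ⟨c, ⟨e2⟩⟩
  have := simple_of_invertible hC hc'
  let f' : c ⊗ P ⟶ 𝟙_ C := (kap b j P).inv ≫ f
  have hf' : f' ≠ 0 := by
    intro h
    exact hf (zero_of_epi_comp _ h)
  have h1 : c' ◁ f' ≠ 0 := by
    have h2 := tensor_ne_zero (𝟙 c') f' (id_nonzero c') hf'
    rw [id_whiskerRight, Category.comp_id] at h2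
    exact h2
  let f2 : P ⟶ c' := (λ_ P).inv ≫ (e2.inv ▷ P) ≫ (α_ c' c P).hom ≫ (c' ◁ f') ≫ (ρ_ c').hom
  have hf2 : f2 ≠ 0 := by
    intro h
    have h3 := zero_of_epi_comp _ (zero_of_epi_comp _ (zero_of_epi_comp _ h))
    exact h1 (zero_of_comp_mono _ h3)
  obtain ⟨g, -⟩ := hP c' f2 hf2
  exact hj ⟨(λ_ c).symm ≪≫ whiskerRightIso g c ≪≫ e2⟩

theorem scalar_ex [IsAlgClosed k] (hC : IsFinite k C) {b : C} (L : Leib b) {N : ℕ}
    (e : Pn b N (𝟙_ C) ≅ 𝟙_ C) (S : C) [Simple S] :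
    ∃ δ : k, pw (L.d S) N = δ • (theta e S).hom := by
  have := hC.hom_finite S S
  obtain ⟨c, hc⟩ := endomorphism_simple_eq_smul_id k ((theta e S).inv ≫ pw (L.d S) N)
  refine ⟨c, ?_⟩
  have h := congrArg (fun t => (theta e S).hom ≫ t) hc
  simp only [Linear.comp_smul, Category.comp_id, Iso.hom_inv_id_assoc] at h
  exact h.symm

/-- The doubling step. -/
theorem double_step [IsAlgClosed k] (hC : IsFinite k C)
    (hcov : ∃ (P : C) (e : P ⟶ 𝟙_ C), IsCover P e ∧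
      ∀ (S : C) [Simple S] (f : P ⟶ S), f ≠ 0 → ∃ g : 𝟙_ C ≅ S, f = e ≫ g.hom)
    {b : C} (hb : Invertible b) (L : Leib b) (hc : (β_ b b).hom = 𝟙 (b ⊗ b)) {n : ℕ} (e : Pn b (n + 1) (𝟙_ C) ≅ 𝟙_ C)
    (hmin : ∀ j, 0 < j → j ≤ n → ¬ Nonempty (Pn b j (𝟙_ C) ≅ 𝟙_ C))
    (S : C) [Simple S] (δ : k) (hδ : δ ≠ 0) (hS : pw (L.d S) (n + 1) = δ • (theta e S).hom) :
    ∃ T : C, Simple T ∧ pw (L.d T) (n + 1) = (2 ^ (n + 1) * δ) • (theta e T).hom := by
  have := hC.unit
  have := simple_tensor_of_invertible hC hb (S := S)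
  have hD : L.d S ≠ 0 := by
    intro h
    have h1 := pw_zero_of_zero h n
    rw [hS] at h1
    rcases smul_eq_zero.1 h1 with h2 | h2
    · exact hδ h2
    · have h3 : 𝟙 S = 0 := by
        rw [← (theta e S).inv_hom_id, h2, comp_zero]
      exact id_nonzero S h3
  have : IsIso (L.d S) := isIso_of_hom_simple hD
  obtain ⟨P, ε, hP, hPS⟩ := hcov
  have := hP.proj
  have := hP.epi
  let W : C := ᘁS
  let q : S ⊗ W ⟶ 𝟙_ C := ε_ (ᘁS) S
  have hq : q ≠ 0 := by
    intro h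
    have h1 := ExactPairing.coevaluation_evaluation (ᘁS) S
    have h2 : ε_ (ᘁS) S = 0 := h
    rw [h2, MonoidalPreadditive.zero_whiskerRight, comp_zero, comp_zero] at h1
    have h3 := id_zero_of_iso ((ρ_ S).hom ≫ (λ_ S).inv) h1.symm
    exact Simple.not_isZero S (((IsZero.iff_id_eq_zero _).2 h3).of_iso (λ_ S).symm)
  have : Epi q := epi_of_nonzero_to_simple hq
  let g : P ⟶ S ⊗ W := Projective.factorThru ε q
  have hg : g ≫ q = ε := Projective.factorThru_comp _ _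
  let A := opL (L.d S) S
  let B := opR S (L.d S)
  have hAB : (b ◁ A) ≫ B = (b ◁ B) ≫ A := opL_opR_comm hc _ _
  have hne : hs A B n ≠ 0 := by
    refine hs_ne_zero (L.d S) (L.d S) g q n ?_ ?_
    · intro j h0 hj f
      exact cover_no_map hC hb hPS j (hmin j h0 hj) f
    · rw [hg]
      intro h
      have := Pm_epi b n (S ◁ ε)
      have : IsIso (opL (L.d S) (𝟙_ C)) := by unfold opL; infer_instance
      have := pw_isIso (opL (L.d S) (𝟙_ C)) n
      have h1 : IsZero (S ⊗ 𝟙_ C) := by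
        have h2 : pw (opL (L.d S) (𝟙_ C)) n = 0 := zero_of_epi_comp _ h
        exact (IsZero.iff_id_eq_zero _).2 (id_zero_of_iso _ h2)
      exact Simple.not_isZero S (h1.of_iso (ρ_ S).symm)
  have hpw : pw A (n + 1) = δ • (theta e (S ⊗ S)).hom := by
    rw [pw_opL, hS, MonoidalLinear.smul_whiskerRight, Linear.comp_smul, theta_left]
  have hpwB : pw B (n + 1) = δ • (theta e (S ⊗ S)).hom := by
    rw [pw_opR, hS, MonoidalLinear.whiskerLeft_smul, Linear.comp_smul, theta_right]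
  have htel : (b ◁ hs A B n) ≫ A = (b ◁ hs A B n) ≫ B := by
    have h1 := hs_tel A B hAB n
    rw [hpw, hpwB, sub_self, Preadditive.comp_sub, sub_eq_zero] at h1
    exact h1
  -- the image of `h`
  let K := Limits.image (hs A B n)
  have hK : ¬ IsZero K := by
    intro hz
    apply hne
    rw [← Limits.image.fac (hs A B n), hz.eq_of_tgt (Limits.factorThruImage (hs A B n)) 0,
      zero_comp]
  have := hC.artinian K
  obtain ⟨T, hT⟩ := exists_simple_subobject hK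
  refine ⟨(T : C), hT, ?_⟩
  let t : (T : C) ⟶ S ⊗ S := T.arrow ≫ Limits.image.ι (hs A B n)
  have h1 : (b ◁ Limits.image.ι (hs A B n)) ≫ A = (b ◁ Limits.image.ι (hs A B n)) ≫ B := by
    rw [← cancel_epi (b ◁ Limits.factorThruImage (hs A B n)),
      ← MonoidalCategory.whiskerLeft_comp_assoc, ← MonoidalCategory.whiskerLeft_comp_assoc,
      Limits.image.fac]
    exact htel
  have h2 : (b ◁ t) ≫ A = (b ◁ t) ≫ B := by
    simp only [t, MonoidalCategory.whiskerLeft_comp, Category.assoc]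
    rw [h1]
  have h3 : L.d T ≫ t = (2 : k) • ((b ◁ t) ≫ A) := by
    rw [← L.nat, leib_eq, Preadditive.comp_add, ← h2, two_smul]
  have h4 : ∀ m, pw (L.d T) m ≫ t = (2 ^ m : k) • (Pm b m t ≫ pw A m) := by
    intro m
    induction m with
    | zero => rw [pw_zero, pw_zero, pow_zero, one_smul, Pm_zero, Category.id_comp,
        Category.comp_id]
    | succ m ih =>
      have h5 : (b ◁ (L.d T ≫ t)) ≫ A = (2 : k) • ((b ◁ (b ◁ t)) ≫ (b ◁ A) ≫ A) := by
        rw [h3, MonoidalLinear.whiskerLeft_smul, Linear.smul_comp,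
          MonoidalCategory.whiskerLeft_comp, Category.assoc]
      rw [pw_succ, Category.assoc, h3, Linear.comp_smul,
        ← MonoidalCategory.whiskerLeft_comp_assoc, ih, MonoidalLinear.whiskerLeft_smul,
        Linear.smul_comp, smul_smul, MonoidalCategory.whiskerLeft_comp, Category.assoc,
        ← pw_succ, ← Pm_succ, pow_succ, mul_comm]
  have h6 := h4 (n + 1)
  rw [hpw, Linear.comp_smul, theta_nat, smul_smul, ← Linear.smul_comp] at h6
  have : Mono t := mono_comp _ _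
  exact (cancel_mono t).1 h6

/-- `d` vanishes on the simple objects. -/
theorem prim_simple [IsAlgClosed k] [CharZero k] (hC : IsFinite k C)
    (hcov : ∃ (P : C) (e : P ⟶ 𝟙_ C), IsCover P e ∧
      ∀ (S : C) [Simple S] (f : P ⟶ S), f ≠ 0 → ∃ g : 𝟙_ C ≅ S, f = e ≫ g.hom)
    {b : C} (hb : Invertible b) (L : Leib b) (hc : (β_ b b).hom = 𝟙 (b ⊗ b)) (S : C) [Simple S] :
    L.d S = 0 := by
  classical
  by_contra hD
  have := simple_tensor_of_invertible hC hb (S := S)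
  have : IsIso (L.d S) := isIso_of_hom_simple hD
  have hex : ∃ N, 0 < N ∧ Nonempty (Pn b N (𝟙_ C) ≅ 𝟙_ C) := by
    obtain ⟨N, hN, h⟩ := exists_order hC hb
    refine ⟨N, hN, ?_⟩
    have h1 := h 1 (𝟙_ C)
    rw [mul_one, iter_eq_Pn] at h1
    exact h1
  obtain ⟨n, hn⟩ : ∃ n, Nat.find hex = n + 1 :=
    ⟨Nat.find hex - 1, by have := (Nat.find_spec hex).1; omega⟩
  obtain ⟨e⟩ : Nonempty (Pn b (n + 1) (𝟙_ C) ≅ 𝟙_ C) := by
    rw [← hn]; exact (Nat.find_spec hex).2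
  have hmin : ∀ j, 0 < j → j ≤ n → ¬ Nonempty (Pn b j (𝟙_ C) ≅ 𝟙_ C) := by
    intro j h0 hj h
    exact Nat.find_min hex (m := j) (by omega) ⟨h0, h⟩
  obtain ⟨δ, hδ⟩ := scalar_ex hC L e S
  have hδ0 : δ ≠ 0 := by
    intro h
    have := pw_isIso (L.d S) (n + 1)
    rw [h, zero_smul] at hδ
    exact id_nonzero S (id_zero_of_iso _ hδ)
  have hseq : ∀ m : ℕ, ∃ T : C, Simple T ∧
      pw (L.d T) (n + 1) = ((2 ^ (n + 1)) ^ m * δ) • (theta e T).hom := by
    intro m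
    induction m with
    | zero => exact ⟨S, inferInstance, by rw [pow_zero, one_mul]; exact hδ⟩
    | succ m ih =>
      obtain ⟨T, hT, h⟩ := ih
      have h2 : ((2 ^ (n + 1)) ^ m * δ : k) ≠ 0 :=
        mul_ne_zero (pow_ne_zero _ (pow_ne_zero _ two_ne_zero)) hδ0
      obtain ⟨T', hT', h'⟩ := double_step hC hcov hb L hc e hmin T _ h2 h
      refine ⟨T', hT', ?_⟩
      rw [h']
      congr 1
      ring
  choose T hT hTd using hseq
  obtain ⟨r, Sr, hSr⟩ := hC.simples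
  choose i hi using fun m => hSr (T m) (hT m)
  obtain ⟨m, m', hmm, him⟩ := Finite.exists_ne_map_eq_of_infinite i
  obtain ⟨e1⟩ := hi m
  obtain ⟨e2⟩ := hi m'
  rw [← him] at e2
  let f : T m ≅ T m' := e1 ≪≫ e2.symm
  have h1 := pw_leib_nat L f.hom (n + 1)
  rw [hTd m, hTd m', Linear.comp_smul, theta_nat, Linear.smul_comp, ← sub_eq_zero, ← sub_smul,
    smul_eq_zero] at h1
  rcases h1 with h1 | h1
  · rw [← sub_mul, mul_eq_zero, or_iff_left hδ0, sub_eq_zero, ← pow_mul, ← pow_mul] at h1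
    have h2 : ((2 ^ ((n + 1) * m') : ℕ) : k) = ((2 ^ ((n + 1) * m) : ℕ) : k) := by
      push_cast; exact h1
    have h3 := Nat.pow_right_injective (le_refl 2) (Nat.cast_injective h2)
    have h4 : m' = m := Nat.eq_of_mul_eq_mul_left (Nat.succ_pos n) h3
    exact hmm h4.symm
  · have := hT m'
    exact id_nonzero _ (id_zero_of_iso ((theta e (T m)).hom ≫ f.hom) h1)

end Main

end B4aux

section Braided

variable {k : Type*} [Field k] {C : Type u} [Category.{v} C] [Abelian C] [Linear k C]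
  [MonoidalCategory C] [MonoidalPreadditive C] [MonoidalLinear k C] [RigidCategory C]
  [BraidedCategory C]

/-- Row B4 (PRIM), over the cover of the unit object. -/
theorem prim_of [IsAlgClosed k] [CharZero k] (hC : IsFinite k C)
    (hcov : ∃ (P : C) (e : P ⟶ 𝟙_ C), IsCover P e ∧
      ∀ (S : C) [Simple S] (f : P ⟶ S), f ≠ 0 → ∃ g : 𝟙_ C ≅ S, f = e ≫ g.hom)
    {b : C} (hb : Invertible b) (L : Leib b) (hc : (β_ b b).hom = 𝟙 (b ⊗ b)) (Y : C) :
    L.d Y = 0 :=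
  B4aux.prim_nilp hC L hc (fun S _ => B4aux.prim_simple hC hcov hb L hc S) Y

end Braided

end Pool.Agent.MUG
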