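import Pool.Agent.MUG.Leib

open CategoryTheory MonoidalCategory Limits Abelian

universe w v u

set_option linter.unusedSectionVars false

namespace Pool.Agent.MUG

section B5

variable {C : Type u} [Category.{v} C] [Abelian C] [MonoidalCategory C] [MonoidalPreadditive C]
  [RigidCategory C] [BraidedCategory C]

theorem b5_wl_neg (X : C) {A B : C} (f : A ⟶ B) : X ◁ (-f) = -(X ◁ f) :=
  (tensorLeft X).map_neg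

theorem b5_wr_neg (X : C) {A B : C} (f : A ⟶ B) : (-f) ▷ X = -(f ▷ X) :=
  (tensorRight X).map_neg

theorem b5_wl_add (X : C) {A B : C} (f g : A ⟶ B) : X ◁ (f + g) = X ◁ f + X ◁ g :=
  (tensorLeft X).map_add

/-- Invertibility of `b ⊗ b`. -/
theorem b5_invertible {b : C} (hb : Invertible b) : Invertible (b ⊗ b) := by
  obtain ⟨c, ⟨e⟩⟩ := hb
  refine ⟨c ⊗ c, ⟨?_⟩⟩
  exact α_ b b (c ⊗ c) ≪≫ whiskerLeftIso b ((α_ b c c).symm ≪≫ whiskerRightIso e c ≪≫ λ_ c) ≪≫ e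

/-- `b ⊗ b` is transparent. -/
theorem b5_transp {b : C} (ht : Transp b) : Transp (b ⊗ b) := by
  intro Y
  have h := ht Y
  rw [BraidedCategory.braiding_tensor_left_hom, BraidedCategory.braiding_tensor_right_hom]
  simp only [Category.assoc, Iso.hom_inv_id_assoc]
  have h1 : ((β_ b Y).hom ▷ b) ≫ ((β_ Y b).hom ▷ b) = 𝟙 _ := by
    rw [← comp_whiskerRight, h, id_whiskerRight]
  have h2 : (b ◁ (β_ b Y).hom) ≫ (b ◁ (β_ Y b).hom) = 𝟙 _ := by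
    rw [← whiskerLeft_comp, h, whiskerLeft_id]
  rw [reassoc_of% h1, Iso.inv_hom_id_assoc, reassoc_of% h2, Iso.hom_inv_id]

/-- The self-braiding of `b ⊗ b`. -/
theorem b5_self {b : C} (hc : (β_ b b).hom = - 𝟙 (b ⊗ b)) :
    (β_ (b ⊗ b) (b ⊗ b)).hom = 𝟙 ((b ⊗ b) ⊗ (b ⊗ b)) := by
  rw [BraidedCategory.braiding_tensor_left_hom, BraidedCategory.braiding_tensor_right_hom, hc]
  simp only [b5_wl_neg, b5_wr_neg, Preadditive.neg_comp, Preadditive.comp_neg, neg_neg]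
  simp

/-- First term. -/
theorem b5_one {b Y Y' : C} (f : b ⊗ Y ⟶ Y) :
    (α_ b b (Y ⊗ Y')).hom ≫ (b ◁ ((α_ b Y Y').inv ≫ (f ▷ Y'))) ≫ (α_ b Y Y').inv ≫ (f ▷ Y') =
      (α_ (b ⊗ b) Y Y').inv ≫ (((α_ b b Y).hom ≫ (b ◁ f) ≫ f) ▷ Y') := by
  monoidal

/-- Last term. -/
theorem b5_two {b Y Y' : C} (g : b ⊗ Y' ⟶ Y') :
    (α_ b b (Y ⊗ Y')).hom ≫
      (b ◁ ((α_ b Y Y').inv ≫ ((β_ b Y).hom ▷ Y') ≫ (α_ Y b Y').hom ≫ (Y ◁ g))) ≫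
        (α_ b Y Y').inv ≫ ((β_ b Y).hom ▷ Y') ≫ (α_ Y b Y').hom ≫ (Y ◁ g) =
      (α_ (b ⊗ b) Y Y').inv ≫ ((β_ (b ⊗ b) Y).hom ▷ Y') ≫ (α_ Y (b ⊗ b) Y').hom ≫
        (Y ◁ ((α_ b b Y').hom ≫ (b ◁ g) ≫ g)) := by
  calc _ = (𝟙 _) ⊗≫ (b ◁ (β_ b Y).hom ▷ Y') ⊗≫ (((b ⊗ Y) ◁ g) ≫ ((β_ b Y).hom ▷ Y')) ⊗≫
        (Y ◁ g) := by monoidal
    _ = (𝟙 _) ⊗≫ (b ◁ (β_ b Y).hom ▷ Y') ⊗≫ (((β_ b Y).hom ▷ (b ⊗ Y')) ≫ ((Y ⊗ b) ◁ g)) ⊗≫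
        (Y ◁ g) := by rw [whisker_exchange]
    _ = _ := by
      rw [BraidedCategory.braiding_tensor_left_hom]
      monoidal

/-- The cross terms. -/
theorem b5_cross {b Y Y' : C} (hc : (β_ b b).hom = - 𝟙 (b ⊗ b)) (f : b ⊗ Y ⟶ Y)
    (g : b ⊗ Y' ⟶ Y') :
    (b ◁ ((α_ b Y Y').inv ≫ (f ▷ Y'))) ≫
        (α_ b Y Y').inv ≫ ((β_ b Y).hom ▷ Y') ≫ (α_ Y b Y').hom ≫ (Y ◁ g) =
      - ((b ◁ ((α_ b Y Y').inv ≫ ((β_ b Y).hom ▷ Y') ≫ (α_ Y b Y').hom ≫ (Y ◁ g))) ≫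
        (α_ b Y Y').inv ≫ (f ▷ Y')) := by
  have h1 : (b ◁ f) ≫ (β_ b Y).hom = - ((b ◁ (β_ b Y).hom) ≫ (α_ b Y b).inv ≫ (f ▷ b)) := by
    rw [BraidedCategory.braiding_naturality_right, BraidedCategory.braiding_tensor_right_hom, hc,
      b5_wr_neg]
    simp
  have h2 : (b ◁ ((α_ b Y Y').inv ≫ (f ▷ Y'))) ≫
        (α_ b Y Y').inv ≫ ((β_ b Y).hom ▷ Y') ≫ (α_ Y b Y').hom ≫ (Y ◁ g) =
      (𝟙 _) ⊗≫ (((b ◁ f) ≫ (β_ b Y).hom) ▷ Y') ⊗≫ (Y ◁ g) := by monoidal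
  have h3 : (b ◁ ((α_ b Y Y').inv ≫ ((β_ b Y).hom ▷ Y') ≫ (α_ Y b Y').hom ≫ (Y ◁ g))) ≫
        (α_ b Y Y').inv ≫ (f ▷ Y') =
      (𝟙 _) ⊗≫ (((b ◁ (β_ b Y).hom) ≫ (α_ b Y b).inv ≫ (f ▷ b)) ▷ Y') ⊗≫ (Y ◁ g) := by
    calc _ = (𝟙 _) ⊗≫ (b ◁ (β_ b Y).hom ▷ Y') ⊗≫ (((b ⊗ Y) ◁ g) ≫ (f ▷ Y')) := by monoidal
      _ = (𝟙 _) ⊗≫ (b ◁ (β_ b Y).hom ▷ Y') ⊗≫ ((f ▷ (b ⊗ Y')) ≫ (Y ◁ g)) := by
        rw [whisker_exchange]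
      _ = _ := by monoidal
  rw [h2, h3, h1, b5_wr_neg]
  simp only [monoidalComp, Preadditive.neg_comp, Preadditive.comp_neg]

/-- The square of a Leibniz family. -/
noncomputable def sqLeib {b : C} (L : Leib b) (hc : (β_ b b).hom = - 𝟙 (b ⊗ b)) :
    Leib (b ⊗ b) where
  d Y := (α_ b b Y).hom ≫ (b ◁ L.d Y) ≫ L.d Y
  nat {Y Y'} f := by
    have h1 := L.nat f
    have h2 : ((b ⊗ b) ◁ f) ≫ (α_ b b Y').hom = (α_ b b Y).hom ≫ (b ◁ (b ◁ f)) := by simp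
    rw [reassoc_of% h2]
    have h3 : (b ◁ (b ◁ f)) ≫ (b ◁ L.d Y') = (b ◁ L.d Y) ≫ (b ◁ f) := by
      rw [← whiskerLeft_comp, h1, whiskerLeft_comp]
    rw [reassoc_of% h3, h1]
    simp only [Category.assoc]
  leib Y Y' := by
    rw [L.leib Y Y', b5_wl_add]
    simp only [Preadditive.add_comp, Preadditive.comp_add]
    rw [b5_one, b5_two, b5_cross hc (L.d Y) (L.d Y')]
    simp only [Preadditive.comp_neg]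
    abel

/-- `d` squares to zero as soon as all Leibniz families for `b ⊗ b` vanish. -/
theorem b5_sqZero_of {b : C} (L : Leib b) (hc : (β_ b b).hom = - 𝟙 (b ⊗ b))
    (h : ∀ (L2 : Leib (b ⊗ b)) (Y : C), L2.d Y = 0) : L.SqZero := by
  intro Y
  have h1 : (α_ b b Y).hom ≫ (b ◁ L.d Y) ≫ L.d Y = 0 := h (sqLeib L hc) Y
  rw [← cancel_epi (α_ b b Y).hom, h1, comp_zero]

end B5

end Pool.Agent.MUG
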