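import Pool.Agent.MUG.Leib

open CategoryTheory MonoidalCategory Limits Abelian

universe w v u

set_option linter.unusedSectionVars false

namespace Pool.Agent.MUG

section B6

variable {C : Type u} [Category.{v} C] [Abelian C] [MonoidalCategory C] [MonoidalPreadditive C]
  [RigidCategory C] [BraidedCategory C]

theorem b6_epi_left (b : C) {X Y : C} (f : X ⟶ Y) [Epi f] : Epi (b ◁ f) := by
  have h : Epi ((tensorLeft b).map f) := inferInstance
  exact h

theorem b6_exact_right (X : C) {S : ShortComplex C} (hS : S.Exact) :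
    (S.map (tensorRight X)).Exact := hS.map (tensorRight X)

theorem b6_exact_left (X : C) {S : ShortComplex C} (hS : S.Exact) :
    (S.map (tensorLeft X)).Exact := hS.map (tensorLeft X)

/-- A morphism killed by `f ▷ X` is killed by everything that vanishes on the kernel of `f`. -/
theorem b6_kernel_tensor (X : C) {A B D : C} (f : A ⟶ B) (e : A ⟶ D) (h : kernel.ι f ≫ e = 0)
    {T : C} (g : T ⟶ A ⊗ X) (hg : g ≫ (f ▷ X) = 0) : g ≫ (e ▷ X) = 0 := by
  let S2 : ShortComplex C := ShortComplex.mk (kernel.ι f) f (kernel.condition _)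
  have hS2 : S2.Exact := ShortComplex.exact_kernel f
  have hS3 : (S2.map (tensorRight X)).Exact := b6_exact_right _ hS2
  obtain ⟨T', π, hπ, (x : T' ⟶ kernel f ⊗ X), (hx : π ≫ g = x ≫ (kernel.ι f ▷ X))⟩ :=
    hS3.exact_up_to_refinements g hg
  rw [← cancel_epi π, ← Category.assoc, hx, Category.assoc, ← comp_whiskerRight, h]
  simp

/-- `d` vanishes on the cokernel of `d`. -/
theorem b6_coker {b : C} (L : Leib b) (Y : C) : L.d (cokernel (L.d Y)) = 0 := by
  have h := L.nat (cokernel.π (L.d Y))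
  rw [cokernel.condition] at h
  have := b6_epi_left b (cokernel.π (L.d Y))
  rw [← cancel_epi (b ◁ cokernel.π (L.d Y)), h, comp_zero]

/-- Row B6 (EX). -/
theorem exactness {b : C} (L : Leib b) (hsq : L.SqZero) {W : C} (e : W ⟶ 𝟙_ C)
    (hW : kernel.ι (L.d W) ≫ (b ◁ e) = 0) (Y : C) (s : Y ⟶ W ⊗ Y)
    (hs : s ≫ (e ▷ Y) ≫ (λ_ Y).hom = 𝟙 Y) :
    ∃ (a : b ⊗ cokernel (L.d Y) ⟶ Y) (w : a ≫ cokernel.π (L.d Y) = 0),
      (b ◁ cokernel.π (L.d Y)) ≫ a = L.d Y ∧
      (ShortComplex.mk a (cokernel.π (L.d Y)) w).ShortExact := by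
  let p : Y ⟶ cokernel (L.d Y) := cokernel.π (L.d Y)
  have hp : Epi (b ◁ p) := b6_epi_left b p
  -- the map `a`
  let S0 : ShortComplex C := ShortComplex.mk (L.d Y) p (cokernel.condition _)
  have hS0 : S0.Exact := ShortComplex.exact_cokernel (L.d Y)
  have hS1 : (S0.map (tensorLeft b)).Exact := b6_exact_left b hS0
  have hS1g : Epi (S0.map (tensorLeft b)).g := hp
  let a : b ⊗ cokernel (L.d Y) ⟶ Y := hS1.desc (L.d Y) (hsq Y)
  have ha : (b ◁ p) ≫ a = L.d Y := hS1.g_desc (L.d Y) (hsq Y)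
  have w : a ≫ p = 0 := by
    rw [← cancel_epi (b ◁ p), ← Category.assoc, ha, comp_zero]
    exact cokernel.condition _
  refine ⟨a, w, ha, ?_⟩
  -- the kernel of `d_Y` is killed by `b ◁ p`
  have hker : ∀ {T : C} (κ : T ⟶ b ⊗ Y), κ ≫ L.d Y = 0 → κ ≫ (b ◁ p) = 0 := by
    intro T κ hκ
    have hd0 : L.d (cokernel (L.d Y)) = 0 := b6_coker L Y
    have hd : L.d (W ⊗ cokernel (L.d Y)) = (α_ b W (cokernel (L.d Y))).inv ≫
        (L.d W ▷ cokernel (L.d Y)) := by
      rw [L.leib, hd0]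
      simp
    let t : Y ⟶ W ⊗ cokernel (L.d Y) := s ≫ (W ◁ p)
    let g : T ⟶ (b ⊗ W) ⊗ cokernel (L.d Y) := κ ≫ (b ◁ t) ≫ (α_ b W (cokernel (L.d Y))).inv
    have hg : g ≫ (L.d W ▷ cokernel (L.d Y)) = 0 := by
      have h := L.nat t
      rw [hd] at h
      simp only [g, Category.assoc]
      rw [h, ← Category.assoc, hκ, zero_comp]
    have h0 : g ≫ ((b ◁ e) ▷ cokernel (L.d Y)) = 0 :=
      b6_kernel_tensor (cokernel (L.d Y)) (L.d W) (b ◁ e) hW g hg
    -- compute
    have h1 : t ≫ (e ▷ cokernel (L.d Y)) ≫ (λ_ (cokernel (L.d Y))).hom = p := by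
      simp only [t, Category.assoc]
      rw [whisker_exchange_assoc, leftUnitor_naturality, ← Category.assoc, ← Category.assoc,
        Category.assoc s, hs, Category.id_comp]
    have h2 : κ ≫ (b ◁ p) = g ≫ ((b ◁ e) ▷ cokernel (L.d Y)) ≫
        (α_ b (𝟙_ C) (cokernel (L.d Y))).hom ≫ (b ◁ (λ_ (cokernel (L.d Y))).hom) := by
      rw [← h1]
      simp only [g, Category.assoc]
      simp
    rw [h2, ← Category.assoc, h0, zero_comp]
  have hmono : Mono a := by
    refine Preadditive.mono_of_cancel_zero a (fun {T} g hg => ?_)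
    obtain ⟨T', π, hπ, x, hx⟩ := surjective_up_to_refinements_of_epi (b ◁ p) g
    have h1 : x ≫ L.d Y = 0 := by
      rw [← ha, ← Category.assoc, ← hx, Category.assoc, hg, comp_zero]
    have h2 := hker x h1
    rw [← cancel_epi π, hx, h2, comp_zero]
  have hexact : (ShortComplex.mk a p w).Exact := by
    let φ : S0 ⟶ ShortComplex.mk a p w :=
      { τ₁ := b ◁ p
        τ₂ := 𝟙 Y
        τ₃ := 𝟙 _
        comm₁₂ := by
          change (b ◁ p) ≫ a = L.d Y ≫ 𝟙 Y
          rw [ha, Category.comp_id]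
        comm₂₃ := by
          change 𝟙 Y ≫ p = p ≫ 𝟙 _
          simp }
    have h1 : Epi φ.τ₁ := hp
    have h2 : IsIso φ.τ₂ := by change IsIso (𝟙 Y); infer_instance
    have h3 : Mono φ.τ₃ := by change Mono (𝟙 (cokernel (L.d Y))); infer_instance
    exact (ShortComplex.exact_iff_of_epi_of_isIso_of_mono φ).1 hS0
  have hpe : Epi p := inferInstance
  exact { exact := hexact, mono_f := hmono, epi_g := hpe }

end B6

end Pool.Agent.MUG
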