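import Pool.Agent.MUG.B7a
import Pool.Agent.MUG.B2
import Pool.Agent.MUG.C1

open CategoryTheory MonoidalCategory Limits Abelian

universe w w' v v' u u'

namespace Pool.Agent.MUG

section Braided

variable {k : Type*} [Field k] {C : Type u} [Category.{v} C] [Abelian C] [Linear k C]
  [MonoidalCategory C] [MonoidalPreadditive C] [MonoidalLinear k C] [RigidCategory C]
  [BraidedCategory C]

/-- Row B7 (1.1). -/
theorem cover_kills (hC : IsFinite k C) {b : C} (hb : Invertible b) (L : Leib b)
    (hsq : L.SqZero) (hne : L.Nonzero) {P : C} {e : P ⟶ 𝟙_ C} (h : IsCover P e) :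
    kernel.ι (L.d P) ≫ (b ◁ e) = 0 :=
  cover_kills_of hC.artinian hC.noetherian hb L hne h (fun m hm hme => cover_sub hC h m hme)
    (fun S hS => leib_simple hC hb L hsq S)

end Braided

end Pool.Agent.MUG
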