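import Pool.Agent.MUG.B10
import Pool.Agent.MUG.B6
import Pool.Agent.MUG.C0

open CategoryTheory MonoidalCategory Limits Abelian

universe w w' v v' u u'

set_option linter.unusedSectionVars false

namespace Pool.Agent.MUG

section Braided

variable {k : Type*} [Field k] {C : Type u} [Category.{v} C] [Abelian C] [Linear k C]
  [MonoidalCategory C] [MonoidalPreadditive C] [MonoidalLinear k C] [RigidCategory C]
  [BraidedCategory C]

/-- `P ⊗ Y` is projective if `P` is. -/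
theorem b7_projective (P Y : C) [Projective P] : Projective (P ⊗ Y) := by
  have adj := tensorRightAdjunction Y (Yᘁ)
  have : Projective ((tensorRight Y).obj P) := adj.map_projective P inferInstance
  exact this

/-- If `P` is projective and `d` vanishes on `P` and on all simple objects, it vanishes. -/
theorem b7_vanish (hA : ∀ X : C, IsArtinianObject X) (hN : ∀ X : C, IsNoetherianObject X)
    {b : C} (L : Leib b) (P : C) [Projective P] (hP : L.d P = 0)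
    (hls : ∀ S : C, Simple S → L.d S = 0) (Y : C) : L.d (P ⊗ Y) = 0 := by
  refine fl_induction hA hN (fun Y => L.d (P ⊗ Y) = 0) ?_ ?_ Y
  · intro X hX
    have h : IsZero (P ⊗ X) := (tensorLeft P).map_isZero hX
    exact h.eq_of_tgt _ _
  · intro S hS h1 h3
    have h3' : L.d (P ⊗ S.X₃) = 0 := by
      rw [leib_tensor_of_zero L P S.X₃ (hls _ h3), hP]
      simp
    have hSP : (S.map (tensorLeft P)).ShortExact := hS.map_of_exact (tensorLeft P)
    have hproj : Projective ((S.map (tensorLeft P)).X₃) := b7_projective P S.X₃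
    let sp := hSP.splittingOfProjective
    obtain ⟨r, s, hid⟩ : ∃ (r : P ⊗ S.X₂ ⟶ P ⊗ S.X₁) (s : P ⊗ S.X₃ ⟶ P ⊗ S.X₂),
        r ≫ (P ◁ S.f) + (P ◁ S.g) ≫ s = 𝟙 (P ⊗ S.X₂) := ⟨sp.r, sp.s, sp.id⟩
    have e1 : (b ◁ (r ≫ (P ◁ S.f))) ≫ L.d (P ⊗ S.X₂) = 0 := by
      rw [MonoidalCategory.whiskerLeft_comp, Category.assoc, L.nat (P ◁ S.f), h1]
      simp
    have e2 : (b ◁ ((P ◁ S.g) ≫ s)) ≫ L.d (P ⊗ S.X₂) = 0 := by
      rw [MonoidalCategory.whiskerLeft_comp, Category.assoc, L.nat s, h3']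
      simp
    have e3 : (b ◁ (𝟙 (P ⊗ S.X₂))) ≫ L.d (P ⊗ S.X₂) = L.d (P ⊗ S.X₂) := by simp
    rw [← e3, ← hid, MonoidalPreadditive.whiskerLeft_add, Preadditive.add_comp, e1, e2, add_zero]

/-- Tensoring with an invertible object is faithful. -/
theorem b7_faithful {b' b : C} (i : b ⊗ b' ≅ 𝟙_ C) {X Y : C} (f : X ⟶ Y) (hf : b' ◁ f = 0) :
    f = 0 := by
  have h1 : (b ⊗ b') ◁ f = 0 := by
    rw [MonoidalCategory.tensor_whiskerLeft, hf]
    simp
  have h2 : (𝟙_ C) ◁ f = 0 := by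
    have h := whisker_exchange i.inv f
    rw [h1, comp_zero] at h
    rw [← cancel_mono (i.inv ▷ Y), zero_comp, h]
  have h3 : f = (λ_ X).inv ≫ ((𝟙_ C) ◁ f) ≫ (λ_ Y).hom := by simp
  rw [h3, h2]
  simp

theorem cover_kills_of (hA : ∀ X : C, IsArtinianObject X) (hN : ∀ X : C, IsNoetherianObject X)
    {b : C} (hb : Invertible b) (L : Leib b) (hne : L.Nonzero) {P : C} {e : P ⟶ 𝟙_ C}
    (h : IsCover P e) (hcs : ∀ {K : C} (m : K ⟶ P) [Mono m], m ≫ e ≠ 0 → IsIso m)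
    (hls : ∀ S : C, Simple S → L.d S = 0) :
    kernel.ι (L.d P) ≫ (b ◁ e) = 0 := by
  by_contra hcon
  obtain ⟨b', ⟨i⟩⟩ := hb
  have hP : Projective P := h.proj
  have he : Epi e := h.epi
  -- the monomorphism `b' ⊗ ker ⟶ P`
  let t : b' ⊗ (b ⊗ P) ≅ P := (α_ b' b P).symm ≪≫ whiskerRightIso (β_ b' b ≪≫ i) P ≪≫ λ_ P
  let m : b' ⊗ kernel (L.d P) ⟶ P := (b' ◁ kernel.ι (L.d P)) ≫ t.hom
  have hm1 : Mono (b' ◁ kernel.ι (L.d P)) :=
    inferInstanceAs (Mono ((tensorLeft b').map (kernel.ι (L.d P))))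
  have hm : Mono m := mono_comp _ _
  have hme : m ≫ e ≠ 0 := by
    intro h0
    apply hcon
    apply b7_faithful i
    have h1 : m ≫ e = (b' ◁ (kernel.ι (L.d P) ≫ (b ◁ e))) ≫ (α_ b' b (𝟙_ C)).inv ≫
        (((β_ b' b).hom ≫ i.hom) ▷ (𝟙_ C)) ≫ (λ_ (𝟙_ C)).hom := by
      have e1 : (λ_ P).hom ≫ e = ((𝟙_ C) ◁ e) ≫ (λ_ (𝟙_ C)).hom := (leftUnitor_naturality e).symm
      have e2 : m ≫ e = (b' ◁ kernel.ι (L.d P)) ≫ (α_ b' b P).inv ≫
          (((β_ b' b).hom ≫ i.hom) ▷ P) ≫ (λ_ P).hom ≫ e := by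
        simp [m, t]
      rw [e2, e1, ← whisker_exchange_assoc, ← associator_inv_naturality_right_assoc,
        MonoidalCategory.whiskerLeft_comp, Category.assoc]
    rw [h0] at h1
    have h2 : (b' ◁ (kernel.ι (L.d P) ≫ (b ◁ e))) ≫ ((α_ b' b (𝟙_ C)).inv ≫
        (((β_ b' b).hom ≫ i.hom) ▷ (𝟙_ C)) ≫ (λ_ (𝟙_ C)).hom) = 0 := h1.symm
    rw [← cancel_mono ((α_ b' b (𝟙_ C)).inv ≫
        (((β_ b' b).hom ≫ i.hom) ▷ (𝟙_ C)) ≫ (λ_ (𝟙_ C)).hom), h2, zero_comp]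
  have hiso : IsIso m := hcs m hme
  have hepi : Epi (b' ◁ kernel.ι (L.d P)) := by
    have h1 : b' ◁ kernel.ι (L.d P) = m ≫ t.inv := by simp [m]
    rw [h1]
    infer_instance
  have hd0 : L.d P = 0 := by
    apply b7_faithful i
    rw [← cancel_epi (b' ◁ kernel.ι (L.d P)), comp_zero, ← MonoidalCategory.whiskerLeft_comp,
      kernel.condition]
    simp
  obtain ⟨Y, hY⟩ := hne
  apply hY
  have h1 := L.nat ((e ▷ Y) ≫ (λ_ Y).hom)
  rw [b7_vanish hA hN L P hd0 hls Y, zero_comp] at h1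
  have he1 : Epi (e ▷ Y) := inferInstanceAs (Epi ((tensorRight Y).map e))
  have he2 : Epi ((e ▷ Y) ≫ (λ_ Y).hom) := epi_comp _ _
  have he3 := b6_epi_left b ((e ▷ Y) ≫ (λ_ Y).hom)
  rw [← cancel_epi (b ◁ ((e ▷ Y) ≫ (λ_ Y).hom)), h1, comp_zero]

end Braided

end Pool.Agent.MUG
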