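import Pool.Agent.MUG.B2
import Pool.Agent.MUG.C2

open CategoryTheory MonoidalCategory Limits Abelian

universe w w' v v' u u'

namespace Pool.Agent.MUG

section

variable {k : Type*} [Field k] {C : Type u} [Category.{v} C] [Abelian C] [Linear k C]
  [MonoidalCategory C] [MonoidalPreadditive C] [MonoidalLinear k C] [RigidCategory C]
  [BraidedCategory C]

omit [Abelian C] [Linear k C] [MonoidalPreadditive C] [MonoidalLinear k C] [RigidCategory C]
  [BraidedCategory C] in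
theorem invertible_tensor {X Y : C} (hX : Invertible X) (hY : Invertible Y) :
    Invertible (X ⊗ Y) := by
  obtain ⟨X', ⟨a⟩⟩ := hX
  obtain ⟨Y', ⟨c⟩⟩ := hY
  exact ⟨Y' ⊗ X', ⟨α_ X Y (Y' ⊗ X') ≪≫ whiskerLeftIso X ((α_ Y Y' X').symm ≪≫
    whiskerRightIso c X' ≪≫ λ_ X') ≪≫ a⟩⟩

omit [Abelian C] [Linear k C] [MonoidalPreadditive C] [MonoidalLinear k C] [RigidCategory C] in
theorem invertible_inv {X X' : C} (a : X ⊗ X' ≅ 𝟙_ C) : Invertible X' :=
  ⟨X, ⟨β_ X' X ≪≫ a⟩⟩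

theorem exists_X_of_ses (hC : IsFinite k C) {b : C} (hb : Invertible b) (L : Leib b)
    (hsq : L.SqZero) {N M Y : C} (hN : Invertible N) (hM : Invertible M) (i : M ⟶ Y)
    (p : Y ⟶ N) (w : i ≫ p = 0) (hS : (ShortComplex.mk i p w).ShortExact) (φ : b ⊗ N ⟶ M)
    (hφ0 : φ ≠ 0) (hφ : (b ◁ p) ≫ φ ≫ i = L.d Y) :
    ∃ (X : C) (j : b ⟶ X) (e : X ⟶ 𝟙_ C) (w : j ≫ e = 0), (ShortComplex.mk j e w).ShortExact ∧
      L.d X = (b ◁ e) ≫ (ρ_ b).hom ≫ j := by
  have : Simple (b ⊗ N) := simple_of_invertible hC (invertible_tensor hb hN)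
  have : Simple M := simple_of_invertible hC hM
  have : IsIso φ := isIso_of_hom_simple hφ0
  obtain ⟨N', ⟨θ⟩⟩ := hN
  have : Simple N' := simple_of_invertible hC (invertible_inv θ)
  have hdN' : L.d N' = 0 := leib_simple hC hb L hsq N'
  let j' : b ⟶ M ⊗ N' := (ρ_ b).inv ≫ (b ◁ θ.inv) ≫ (α_ b N N').inv ≫ (φ ▷ N')
  have hj' : IsIso j' := by dsimp [j']; infer_instance
  have w₀ : (i ▷ N') ≫ (p ▷ N') = 0 := by
    rw [← comp_whiskerRight, w, MonoidalPreadditive.zero_whiskerRight]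
  have hS' : (ShortComplex.mk (i ▷ N') (p ▷ N') w₀).ShortExact :=
    hS.map_of_exact (tensorRight N')
  have w' : (j' ≫ (i ▷ N')) ≫ ((p ▷ N') ≫ θ.hom) = 0 := by
    rw [Category.assoc, reassoc_of% w₀, zero_comp, comp_zero]
  refine ⟨Y ⊗ N', j' ≫ (i ▷ N'), (p ▷ N') ≫ θ.hom, w', ?_, ?_⟩
  · let E : ShortComplex.mk (i ▷ N') (p ▷ N') w₀ ≅
        ShortComplex.mk (j' ≫ (i ▷ N')) ((p ▷ N') ≫ θ.hom) w' :=
      ShortComplex.isoMk (asIso j').symm (Iso.refl _) θ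
      (by
        dsimp
        rw [IsIso.inv_hom_id_assoc, Category.comp_id])
      (by
        dsimp
        rw [Category.id_comp])
    exact ShortComplex.shortExact_of_iso E hS'
  · have h1 : L.d (Y ⊗ N') = (α_ b Y N').inv ≫ (L.d Y ▷ N') := by
      rw [L.leib, hdN']; simp
    rw [h1, ← hφ]
    simp [j']

end

end Pool.Agent.MUG
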