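import Pool.Agent.MUG.E4a

open CategoryTheory Limits Abelian ZeroObject

universe w w' v v' u u'

namespace Pool.Agent.MUG

namespace E4aux

variable {A : Type u} [Category.{v} A] [Abelian A]

theorem se_of_isZero₁ (S : ShortComplex A) (h : IsZero S.X₁) (hg : IsIso S.g) :
    S.ShortExact := by
  have hf : S.f = 0 := h.eq_of_src _ _
  exact { exact := (S.exact_iff_mono hf).2 inferInstance
          mono_f := ⟨fun _ _ _ => h.eq_of_tgt _ _⟩
          epi_g := inferInstance }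

theorem se_of_isZero₃ (S : ShortComplex A) (h : IsZero S.X₃) (hf : IsIso S.f) :
    S.ShortExact := by
  have hg : S.g = 0 := h.eq_of_tgt _ _
  exact { exact := (S.exact_iff_epi hg).2 inferInstance
          mono_f := inferInstance
          epi_g := ⟨fun _ _ _ => h.eq_of_src _ _⟩ }

/-- `J0 ⟶ JJ` -/
noncomputable def ι0 : (J0 : A ⥤ ShortComplex A) ⟶ JJ where
  app X := arHom 0 (𝟙 X) (by simp)
  naturality _ _ f := ar_hom_ext _ _ ((isZero_zero A).eq_of_src _ _)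
    ((Category.comp_id f).trans (Category.id_comp f).symm)

/-- `JJ ⟶ J1` -/
noncomputable def π1 : (JJ : A ⥤ ShortComplex A) ⟶ J1 where
  app X := arHom (𝟙 X) 0 (by simp)
  naturality _ _ f := ar_hom_ext _ _ ((Category.comp_id f).trans (Category.id_comp f).symm)
    ((isZero_zero A).eq_of_tgt _ _)

theorem w0 (X : A) : (ι0 : (J0 : A ⥤ _) ⟶ JJ).app X ≫ π1.app X = 0 :=
  ar_hom_ext _ _ ((isZero_zero A).eq_of_src _ _) ((isZero_zero A).eq_of_tgt _ _)

theorem seq (X : A) :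
    (ShortComplex.mk ((ι0 : (J0 : A ⥤ _) ⟶ JJ).app X) (π1.app X) (w0 X)).ShortExact := by
  have h : IsIso (𝟙 X) := inferInstance
  refine shortExact_of_π _ ?_ ?_ ?_
  · exact se_of_isZero₁ _ (isZero_zero A)
      ⟨0, (isZero_zero A).eq_of_src _ _, (isZero_zero A).eq_of_src _ _⟩
  · exact se_of_isZero₁ _ (isZero_zero A) h
  · exact se_of_isZero₃ _ (isZero_zero A) h

theorem projective_JJ (P : A) [Projective P] : Projective ((JJ : A ⥤ ShortComplex A).obj P) where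
  factors {S' S} f e he := by
    have h2 : Epi e.τ₂ := inferInstanceAs (Epi (ShortComplex.π₂.map e))
    let f2 : P ⟶ S.X₂ := f.τ₂
    let f3 : P ⟶ S.X₃ := f.τ₃
    have hf : f2 ≫ S.g = f3 := f.comm₂₃.trans (Category.id_comp _)
    let g : P ⟶ S'.X₂ := Projective.factorThru f2 e.τ₂
    have hg : g ≫ e.τ₂ = f2 := Projective.factorThru_comp _ _
    let h : (JJ : A ⥤ ShortComplex A).obj P ⟶ S' :=
      { τ₁ := 0
        τ₂ := g
        τ₃ := g ≫ S'.g
        comm₁₂ := zero_comp.trans (zero_comp : (0 : (0 : A) ⟶ P) ≫ g = 0).symm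
        comm₂₃ := (Category.id_comp (g ≫ S'.g)).symm }
    refine ⟨h, ar_hom_ext _ _ hg ?_⟩
    change (g ≫ S'.g) ≫ e.τ₃ = f3
    rw [Category.assoc, ← e.comm₂₃, ← Category.assoc, hg, hf]

theorem projective_J0 (P : A) [Projective P] : Projective ((J0 : A ⥤ ShortComplex A).obj P) where
  factors {S' S} f e he := by
    have h3 : Epi e.τ₃ := inferInstanceAs (Epi (ShortComplex.π₃.map e))
    let f3 : P ⟶ S.X₃ := f.τ₃
    let g : P ⟶ S'.X₃ := Projective.factorThru f3 e.τ₃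
    have hg : g ≫ e.τ₃ = f3 := Projective.factorThru_comp _ _
    let h : (J0 : A ⥤ ShortComplex A).obj P ⟶ S' :=
      { τ₁ := 0
        τ₂ := 0
        τ₃ := g
        comm₁₂ := (isZero_zero A).eq_of_src _ _
        comm₂₃ := (isZero_zero A).eq_of_src _ _ }
    exact ⟨h, ar_hom_ext _ _ ((isZero_zero A).eq_of_src _ _) hg⟩

instance : (J0 : A ⥤ ShortComplex A).PreservesProjectiveObjects where
  projective_obj {P} hP := projective_J0 P

instance : (J0 : A ⥤ ShortComplex A).Faithful where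
  map_injective {X Y f g} h := congrArg (fun t => ShortComplex.Hom.τ₃ t) h

instance : (J0 : A ⥤ ShortComplex A).Full where
  map_surjective {X Y} f := ⟨f.τ₃, ar_hom_ext _ _ ((isZero_zero A).eq_of_src _ _) rfl⟩

section ext

variable [HasExt.{w'} (ShortComplex A)] [HasExt.{w} A] [EnoughProjectives A]

theorem JJ_ext_zero (n : ℕ) (X M : A)
    (z : Ext ((JJ : A ⥤ ShortComplex A).obj X) ((J0 : A ⥤ ShortComplex A).obj M) n) : z = 0 := by
  induction n generalizing X with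
  | zero =>
    obtain ⟨f, rfl⟩ := (Ext.mk₀_bijective _ _).2 z
    have hf : f = 0 := by
      refine ar_hom_ext _ _ ((isZero_zero A).eq_of_tgt _ _) ?_
      have h2 : f.τ₂ = 0 := (isZero_zero A).eq_of_tgt _ _
      have h3 : f.τ₂ ≫ ((J0 : A ⥤ ShortComplex A).obj M).g = 𝟙 X ≫ f.τ₃ := f.comm₂₃
      rw [h2, zero_comp, Category.id_comp] at h3
      exact h3.symm
    rw [hf, Ext.mk₀_zero]
  | succ n ih =>
    have hS : (ShortComplex.mk (kernel.ι (Projective.π X)) (Projective.π X)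
        (kernel.condition _)).ShortExact :=
      { exact := ShortComplex.exact_of_f_is_kernel _ (kernelIsKernel (Projective.π X)) }
    haveI : Projective ((JJ : A ⥤ ShortComplex A).obj (Projective.over X)) := projective_JJ _
    obtain ⟨x₁, hx⟩ := Ext.contravariant_sequence_exact₃ (hS.map_of_exact JJ) _ z
      (Ext.eq_zero_of_projective (P := (JJ : A ⥤ ShortComplex A).obj (Projective.over X)) _)
      (add_comm 1 n)
    have h0 : x₁ = 0 := ih _ x₁
    rw [← hx, h0]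
    exact Ext.comp_zero (hS.map_of_exact JJ).extClass _ _ _ _

/-- `y ↦ δ · J0 y` -/
noncomputable def phi (X M : A) (n : ℕ) : Ext.{w} X M n →+
    Ext.{w'} ((J1 : A ⥤ ShortComplex A).obj X) ((J0 : A ⥤ ShortComplex A).obj M) (n + 1) :=
  ((seq X).extClass.precomp _ (add_comm 1 n)).comp (J0.mapExtAddHom X M n)

theorem phi_apply (X M : A) (n : ℕ) (y : Ext.{w} X M n) : phi.{w, w'} X M n y =
    (seq X).extClass.comp (y.mapExactFunctor J0) (add_comm 1 n) := rfl

theorem phi_bijective (X M : A) (n : ℕ) : Function.Bijective (phi.{w, w'} X M n) := by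
  have hb := Functor.mapExt_bijective_of_preservesProjectiveObjects.{w, w'}
    (J0 : A ⥤ ShortComplex A) X M n
  constructor
  · rw [injective_iff_map_eq_zero]
    intro y hy
    rw [phi_apply] at hy
    obtain ⟨x₂, hx⟩ := Ext.contravariant_sequence_exact₁ (seq X) _ _ (add_comm 1 n) hy
    rw [show x₂ = 0 from JJ_ext_zero n X M x₂, Ext.comp_zero] at hx
    refine hb.1 ?_
    rw [map_zero]
    exact hx.symm
  · intro z
    obtain ⟨x₁, hx⟩ := Ext.contravariant_sequence_exact₃ (seq X) _ z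
      (JJ_ext_zero (n + 1) X M _) (add_comm 1 n)
    obtain ⟨y, hy⟩ := hb.2 x₁
    refine ⟨y, ?_⟩
    rw [phi_apply, ← hx]
    exact congrArg (fun t => (seq X).extClass.comp t (add_comm 1 n)) hy

end ext

section tau

variable {F : A ⥤ A} (d : F ⟶ 𝟭 A)

/-- the functor `Y ↦ (d_Y : F Y ⟶ Y)` -/
noncomputable abbrev Tau : A ⥤ ShortComplex A := ArF d

variable {d}

/-- inclusion of `J1 (F N)` if `d_N = 0` -/
noncomputable def iN {N : A} (hN : d.app N = 0) : J1.obj (F.obj N) ⟶ (Tau d).obj N :=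
  arHom (𝟙 _) 0 (by rw [hN]; simp)

/-- projection to `J0 M` if `d_M = 0` -/
noncomputable def pM {M : A} (hM : d.app M = 0) : (Tau d).obj M ⟶ J0.obj M :=
  arHom 0 (𝟙 _) (by rw [hM]; simp)

variable (d)

/-- `Tau ⟶ F ⋙ J1` -/
noncomputable def pT : Tau d ⟶ F ⋙ J1 where
  app N := arHom (𝟙 _) 0 (by simp)
  naturality _ _ f := ar_hom_ext _ _ ((Category.comp_id _).trans (Category.id_comp _).symm)
    ((isZero_zero A).eq_of_tgt _ _)

/-- `J0 ⟶ Tau` -/
noncomputable def jT : J0 ⟶ Tau d where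
  app M := arHom 0 (𝟙 _) (by simp)
  naturality _ _ f := ar_hom_ext _ _ ((isZero_zero A).eq_of_src _ _)
    ((Category.comp_id f).trans (Category.id_comp f).symm)

variable {d}

theorem iN_pT {N : A} (hN : d.app N = 0) : iN hN ≫ (pT d).app N = 𝟙 _ :=
  ar_hom_ext _ _ (Category.comp_id _) ((isZero_zero A).eq_of_tgt _ _)

theorem jT_pM {N : A} (hN : d.app N = 0) : (jT d).app N ≫ pM hN = 𝟙 _ :=
  ar_hom_ext _ _ ((isZero_zero A).eq_of_src _ _) (Category.comp_id _)

theorem sum_eq {N : A} (hN : d.app N = 0) :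
    (pT d).app N ≫ iN hN + pM hN ≫ (jT d).app N = 𝟙 _ := by
  refine ar_hom_ext _ _ ?_ ?_
  · have h : 𝟙 (F.obj N) ≫ 𝟙 (F.obj N) + (0 : F.obj N ⟶ (0 : A)) ≫ (0 : (0 : A) ⟶ F.obj N) =
        𝟙 (F.obj N) := by simp
    exact h
  · have h : (0 : N ⟶ (0 : A)) ≫ (0 : (0 : A) ⟶ N) + 𝟙 N ≫ 𝟙 N = 𝟙 N := by simp
    exact h

theorem iN_nat {N N' : A} (hN : d.app N = 0) (hN' : d.app N' = 0) (f : N ⟶ N') :
    iN hN ≫ (Tau d).map f = J1.map (F.map f) ≫ iN hN' :=
  ar_hom_ext _ _ ((Category.id_comp _).trans (Category.comp_id _).symm)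
    ((isZero_zero A).eq_of_src _ _)

theorem pM_nat {N N' : A} (hN : d.app N = 0) (hN' : d.app N' = 0) (f : N ⟶ N') :
    (Tau d).map f ≫ pM hN' = pM hN ≫ J0.map f :=
  ar_hom_ext _ _ ((isZero_zero A).eq_of_tgt _ _)
    ((Category.comp_id _).trans (Category.id_comp _).symm)

end tau

section der

variable [HasExt.{w'} (ShortComplex A)] [HasExt.{w} A] [EnoughProjectives A]
  {F : A ⥤ A} [F.Additive] [PreservesFiniteLimits F] [PreservesFiniteColimits F] (d : F ⟶ 𝟭 A)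

theorem Tau_exact : PreservesFiniteLimits (Tau d) ∧ PreservesFiniteColimits (Tau d) :=
  ArF_exact _ (fun _ hS => hS.map_of_exact F) id_shortExact

instance : PreservesFiniteLimits (Tau d) := (Tau_exact d).1
instance : PreservesFiniteColimits (Tau d) := (Tau_exact d).2

variable {d}

/-- `x ↦ i · Tau x · p` -/
noncomputable def EE {N M : A} (hN : d.app N = 0) (hM : d.app M = 0) (n : ℕ) : Ext.{w} N M n →+
    Ext.{w'} (J1.obj (F.obj N)) (J0.obj M) n :=
  ((Ext.mk₀ (iN hN)).precomp _ (zero_add n)).comp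
    (((Ext.mk₀ (pM hM)).postcomp _ (add_zero n)).comp ((Tau d).mapExtAddHom N M n))

theorem EE_apply {N M : A} (hN : d.app N = 0) (hM : d.app M = 0) (n : ℕ) (x : Ext.{w} N M n) :
    (EE hN hM n x : Ext.{w'} _ _ n) = (Ext.mk₀ (iN hN)).comp
      ((x.mapExactFunctor (Tau d)).comp (Ext.mk₀ (pM hM)) (add_zero n)) (zero_add n) := rfl

/-- the derivation -/
noncomputable def DD {N M : A} (hN : d.app N = 0) (hM : d.app M = 0) (n : ℕ) :
    Ext.{w} N M (n + 1) →+ Ext.{w} (F.obj N) M n :=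
  ((AddEquiv.ofBijective _ (phi_bijective.{w, w'} (F.obj N) M n)).symm.toAddMonoidHom).comp
    (EE hN hM (n + 1))

theorem phi_DD {N M : A} (hN : d.app N = 0) (hM : d.app M = 0) (n : ℕ)
    (x : Ext.{w} N M (n + 1)) :
    phi.{w, w'} (F.obj N) M n (DD.{w, w'} hN hM n x) = EE hN hM (n + 1) x :=
  (AddEquiv.ofBijective _ (phi_bijective.{w, w'} (F.obj N) M n)).apply_symm_apply _

/-- composition rule for `EE` -/
theorem EE_comp {N N' M : A} (hN : d.app N = 0) (hN' : d.app N' = 0) (hM : d.app M = 0)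
    {p q r : ℕ} (h : p + q = r) (x : Ext.{w} N N' p) (y : Ext.{w} N' M q) :
    (EE hN hM r (x.comp y h) : Ext.{w'} _ _ r) =
      ((x.mapExactFunctor F : Ext.{w} _ _ p).mapExactFunctor J1 : Ext.{w'} _ _ p).comp
        (EE hN' hM q y) h +
      (EE hN hN' p x : Ext.{w'} _ _ p).comp (y.mapExactFunctor J0) h := by
  have hid : Ext.mk₀ (𝟙 ((Tau d).obj N')) = (Ext.mk₀ ((pT d).app N')).comp (Ext.mk₀ (iN hN'))
      (add_zero 0) + (Ext.mk₀ (pM hN')).comp (Ext.mk₀ ((jT d).app N')) (add_zero 0) := by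
    rw [Ext.mk₀_comp_mk₀, Ext.mk₀_comp_mk₀, ← Ext.mk₀_add, sum_eq]
  have h1 : (x.mapExactFunctor (Tau d) : Ext.{w'} _ _ p).comp (Ext.mk₀ ((pT d).app N'))
      (add_zero p) = (Ext.mk₀ ((pT d).app N)).comp
        ((x.mapExactFunctor F : Ext.{w} _ _ p).mapExactFunctor J1) (zero_add p) := by
    have h2 := MUE79.map_nat.{w, w'} (pT d) x
    rw [MUE79.map_comp.{w, w, w'} F J1 x] at h2
    exact h2
  have h3 : (y.mapExactFunctor J0 : Ext.{w'} _ _ q).comp (Ext.mk₀ ((jT d).app M))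
      (add_zero q) = (Ext.mk₀ ((jT d).app N')).comp (y.mapExactFunctor (Tau d)) (zero_add q) :=
    MUE79.map_nat.{w, w'} (jT d) y
  have h4 : (Ext.mk₀ (iN hN)).comp ((x.mapExactFunctor (Tau d) : Ext.{w'} _ _ p).comp
      (Ext.mk₀ ((pT d).app N')) (add_zero p)) (zero_add p) =
      (x.mapExactFunctor F : Ext.{w} _ _ p).mapExactFunctor J1 := by
    rw [h1, Ext.mk₀_comp_mk₀_assoc, iN_pT, Ext.mk₀_id_comp]
  have h5 : (Ext.mk₀ ((jT d).app N')).comp ((y.mapExactFunctor (Tau d) : Ext.{w'} _ _ q).comp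
      (Ext.mk₀ (pM hM)) (add_zero q)) (zero_add q) = y.mapExactFunctor J0 := by
    rw [← Ext.comp_assoc_of_third_deg_zero, ← h3, Ext.comp_assoc_of_third_deg_zero,
      Ext.mk₀_comp_mk₀, jT_pM, Ext.comp_mk₀_id]
  have h6 : (EE hN hM r (x.comp y h) : Ext.{w'} _ _ r) =
      ((Ext.mk₀ (iN hN)).comp (x.mapExactFunctor (Tau d)) (zero_add p)).comp
        ((Ext.mk₀ (𝟙 ((Tau d).obj N'))).comp
          ((y.mapExactFunctor (Tau d)).comp (Ext.mk₀ (pM hM)) (add_zero q)) (zero_add q)) h := by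
    rw [Ext.mk₀_id_comp, EE_apply, Ext.mapExactFunctor_comp, Ext.comp_assoc_of_third_deg_zero,
      Ext.comp_assoc (a₁₂ := p) (a₂₃ := r) _ _ _ (zero_add p) h (by omega)]
  rw [h6, hid, Ext.add_comp, Ext.comp_add]
  congr 1
  · rw [EE_apply, ← h4]
    rw [Ext.comp_assoc_of_second_deg_zero, Ext.comp_assoc (a₁₂ := p) (a₂₃ := r) _ _ _
      (zero_add p) h (by omega), Ext.comp_assoc (a₁₂ := p) (a₂₃ := r) _ _ _
      (zero_add p) h (by omega), Ext.comp_assoc_of_second_deg_zero]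
  · rw [EE_apply hN hN', ← h5]
    rw [Ext.comp_assoc_of_second_deg_zero, Ext.comp_assoc (a₁₂ := p) (a₂₃ := r) _ _ _
      (zero_add p) h (by omega), Ext.comp_assoc (a₁₂ := p) (a₂₃ := r) _ _ _
      (zero_add p) h (by omega), Ext.comp_assoc_of_second_deg_zero]

theorem leib_aux {N N' M : A} (hN : d.app N = 0) (hN' : d.app N' = 0) (hM : d.app M = 0)
    (a c : ℕ) (x : Ext.{w} N N' (a + 1)) (y : Ext.{w} N' M (c + 1)) :
    DD.{w, w'} hN hM (a + 1 + c) (x.comp y (by omega)) =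
      ((-1 : ℤ) ^ (a + 1)) • (x.mapExactFunctor F : Ext.{w} _ _ (a + 1)).comp
        (DD.{w, w'} hN' hM c y) rfl +
      (DD.{w, w'} hN hN' a x).comp y (by omega) := by
  apply (phi_bijective.{w, w'} (F.obj N) M (a + 1 + c)).1
  rw [phi_DD, map_add, map_zsmul]
  -- the two terms
  have h1 : phi.{w, w'} (F.obj N) M (a + 1 + c)
      ((x.mapExactFunctor F : Ext.{w} _ _ (a + 1)).comp (DD.{w, w'} hN' hM c y) rfl) =
      (seq (F.obj N)).extClass.comp
        (((x.mapExactFunctor F : Ext.{w} _ _ (a + 1)).mapExactFunctor J0 : Ext.{w'} _ _ (a + 1)).comp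
          ((DD.{w, w'} hN' hM c y).mapExactFunctor J0) rfl) (add_comm 1 _) := by
    rw [phi_apply, Ext.mapExactFunctor_comp]
  have h2 : phi.{w, w'} (F.obj N) M (a + 1 + c)
      ((DD.{w, w'} hN hN' a x).comp y (by omega)) =
      (EE hN hN' (a + 1) x : Ext.{w'} _ _ (a + 1)).comp (y.mapExactFunctor J0) (by omega) := by
    rw [← phi_DD.{w, w'}, phi_apply, phi_apply, Ext.mapExactFunctor_comp,
      Ext.comp_assoc (a₁₂ := a + 1) (a₂₃ := a + 1 + c) _ _ _ (by omega) (by omega) (by omega)]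
  rw [EE_comp hN hN' hM (by omega : a + 1 + (c + 1) = a + 1 + c + 1), h1, h2]
  congr 1
  rw [← phi_DD.{w, w'} hN' hM c y, phi_apply]
  have h3 := ext_sign.{w, w'} (J0 : A ⥤ ShortComplex A) JJ J1 ι0 π1 w0 seq (a + 1)
    (x.mapExactFunctor F : Ext.{w} _ _ (a + 1))
  rw [← Ext.comp_assoc (a₁₂ := a + 1 + 1) (a₂₃ := c + 1) _ _ _ (by omega) (by omega) (by omega),
    h3, MUE79.zsmul_comp, Ext.comp_assoc (a₁₂ := a + 1 + 1) (a₂₃ := a + 1 + c) _ _ _ (by omega)
      (by omega) (by omega)]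

theorem left_aux {N N' M : A} (hN : d.app N = 0) (hN' : d.app N' = 0) (hM : d.app M = 0)
    (f : N ⟶ N') (n : ℕ) (y : Ext.{w} N' M (n + 1)) :
    DD.{w, w'} hN hM n ((Ext.mk₀ f).comp y (zero_add _)) =
      (Ext.mk₀ (F.map f)).comp (DD.{w, w'} hN' hM n y) (zero_add _) := by
  apply (phi_bijective.{w, w'} (F.obj N) M n).1
  rw [phi_DD, phi_apply, Ext.mapExactFunctor_comp, Ext.mapExactFunctor_mk₀, EE_apply,
    Ext.mapExactFunctor_comp, Ext.mapExactFunctor_mk₀]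
  have h1 := ShortComplex.ShortExact.extClass_naturality.{w'} (seq (F.obj N)) (seq (F.obj N'))
    { τ₁ := J0.map (F.map f), τ₂ := JJ.map (F.map f), τ₃ := J1.map (F.map f),
      comm₁₂ := (ι0.naturality (F.map f)), comm₂₃ := (π1.naturality (F.map f)) }
  dsimp at h1
  rw [← Ext.comp_assoc (a₁₂ := 1) (a₂₃ := n) _ _ _ (by omega) (by omega) (by omega), h1,
    Ext.comp_assoc (a₁₂ := 1) (a₂₃ := n + 1) _ _ _ (by omega) (by omega) (by omega),
    ← phi_apply, phi_DD, EE_apply, Ext.comp_assoc (a₁₂ := n + 1) (a₂₃ := n + 1) _ _ _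
      (by omega) (by omega) (by omega), Ext.mk₀_comp_mk₀_assoc, Ext.mk₀_comp_mk₀_assoc, iN_nat]

theorem right_aux {N N' M : A} (hN : d.app N = 0) (hN' : d.app N' = 0) (hM : d.app M = 0)
    (n : ℕ) (x : Ext.{w} N N' (n + 1)) (g : N' ⟶ M) :
    DD.{w, w'} hN hM n (x.comp (Ext.mk₀ g) (add_zero _)) =
      (DD.{w, w'} hN hN' n x).comp (Ext.mk₀ g) (add_zero _) := by
  apply (phi_bijective.{w, w'} (F.obj N) M n).1
  have hR : phi.{w, w'} (F.obj N) M n ((DD.{w, w'} hN hN' n x).comp (Ext.mk₀ g) (add_zero _)) =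
      (phi.{w, w'} (F.obj N) N' n (DD.{w, w'} hN hN' n x)).comp (Ext.mk₀ (J0.map g))
        (add_zero _) := by
    rw [phi_apply, phi_apply, Ext.mapExactFunctor_comp, Ext.mapExactFunctor_mk₀,
      Ext.comp_assoc_of_third_deg_zero]
  rw [hR, phi_DD, phi_DD, EE_apply, EE_apply, Ext.mapExactFunctor_comp, Ext.mapExactFunctor_mk₀,
    Ext.comp_assoc_of_third_deg_zero, Ext.comp_assoc_of_third_deg_zero,
    Ext.comp_assoc_of_third_deg_zero, Ext.mk₀_comp_mk₀, Ext.mk₀_comp_mk₀, pM_nat hN' hM]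

theorem ext_aux (S : ShortComplex A) (hS : S.ShortExact) (h₁ : d.app S.X₁ = 0)
    (h₃ : d.app S.X₃ = 0) (φ : F.obj S.X₃ ⟶ S.X₁) (hφ : F.map S.g ≫ φ ≫ S.f = d.app S.X₂) :
    DD.{w, w'} h₃ h₁ 0 hS.extClass = Ext.mk₀ φ := by
  apply (phi_bijective.{w, w'} (F.obj S.X₃) S.X₁ 0).1
  rw [phi_DD, phi_apply, Ext.mapExactFunctor_mk₀, EE_apply, Ext.mapExactFunctor_extClass]
  have hid : IsIso (𝟙 S.X₁) := inferInstance
  have hid' : IsIso (𝟙 (F.obj S.X₃)) := inferInstance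
  have hFz : F.map S.f ≫ F.map S.g = 0 := by rw [← F.map_comp, S.zero, F.map_zero]
  -- first auxiliary extension
  let f' : (Tau d).obj S.X₁ ⟶ Ar (F.map S.g ≫ φ) := arHom (F.map S.f) (𝟙 _) (by
    rw [h₁, ← Category.assoc, hFz]; simp)
  let g' : Ar (F.map S.g ≫ φ) ⟶ J1.obj (F.obj S.X₃) := arHom (F.map S.g) 0 (by simp)
  have w' : f' ≫ g' = 0 := ar_hom_ext _ _ hFz ((isZero_zero A).eq_of_tgt _ _)
  have hS' : (ShortComplex.mk f' g' w').ShortExact := by
    refine shortExact_of_π _ ?_ ?_ ?_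
    · exact se_of_isZero₁ _ (isZero_zero A)
        ⟨0, (isZero_zero A).eq_of_src _ _, (isZero_zero A).eq_of_src _ _⟩
    · exact hS.map_of_exact F
    · exact se_of_isZero₃ _ (isZero_zero A) hid
  -- second auxiliary extension
  let f'' : J0.obj S.X₁ ⟶ Ar φ := arHom 0 (𝟙 _) (by simp)
  let g'' : Ar φ ⟶ J1.obj (F.obj S.X₃) := arHom (𝟙 _) 0 (by simp)
  have w'' : f'' ≫ g'' = 0 :=
    ar_hom_ext _ _ ((isZero_zero A).eq_of_src _ _) ((isZero_zero A).eq_of_tgt _ _)
  have hS'' : (ShortComplex.mk f'' g'' w'').ShortExact := by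
    refine shortExact_of_π _ ?_ ?_ ?_
    · exact se_of_isZero₁ _ (isZero_zero A)
        ⟨0, (isZero_zero A).eq_of_src _ _, (isZero_zero A).eq_of_src _ _⟩
    · exact se_of_isZero₁ _ (isZero_zero A) hid'
    · exact se_of_isZero₃ _ (isZero_zero A) hid
  -- three morphisms of extensions
  let t1 : Ar (F.map S.g ≫ φ) ⟶ (Tau d).obj S.X₂ := arHom (𝟙 _) S.f (by
    rw [Category.id_comp, Category.assoc, hφ])
  let m1 : ShortComplex.mk f' g' w' ⟶ S.map (Tau d) :=
    { τ₁ := 𝟙 _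
      τ₂ := t1
      τ₃ := iN h₃
      comm₁₂ := ar_hom_ext _ _ ((Category.id_comp _).trans (Category.comp_id _).symm)
        ((Category.id_comp _).trans (Category.id_comp _).symm)
      comm₂₃ := ar_hom_ext _ _ ((Category.id_comp _).trans (Category.comp_id _).symm)
        (S.zero.trans (comp_zero : (0 : S.X₁ ⟶ (0 : A)) ≫ (0 : (0 : A) ⟶ S.X₃) = 0).symm) }
  let t2 : Ar (F.map S.g ≫ φ) ⟶ Ar φ := arHom (F.map S.g) (𝟙 _) (by simp)
  let m2 : ShortComplex.mk f' g' w' ⟶ ShortComplex.mk f'' g'' w'' :=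
    { τ₁ := pM h₁
      τ₂ := t2
      τ₃ := 𝟙 _
      comm₁₂ := ar_hom_ext _ _
        ((comp_zero : (0 : F.obj S.X₁ ⟶ (0 : A)) ≫ (0 : (0 : A) ⟶ F.obj S.X₃) = 0).trans hFz.symm)
        rfl
      comm₂₃ := ar_hom_ext _ _ rfl ((isZero_zero A).eq_of_tgt _ _) }
  let t3 : JJ.obj (F.obj S.X₃) ⟶ Ar φ := arHom (𝟙 _) φ rfl
  let m3 : ShortComplex.mk ((ι0 : (J0 : A ⥤ _) ⟶ JJ).app (F.obj S.X₃)) (π1.app (F.obj S.X₃))
      (w0 (F.obj S.X₃)) ⟶ ShortComplex.mk f'' g'' w'' :=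
    { τ₁ := J0.map φ
      τ₂ := t3
      τ₃ := 𝟙 _
      comm₁₂ := ar_hom_ext _ _ ((isZero_zero A).eq_of_src _ _)
        ((Category.comp_id φ).trans (Category.id_comp φ).symm)
      comm₂₃ := ar_hom_ext _ _ rfl ((isZero_zero A).eq_of_tgt _ _) }
  have n1 := ShortComplex.ShortExact.extClass_naturality.{w'} hS' (hS.map_of_exact (Tau d)) m1
  have n2 := ShortComplex.ShortExact.extClass_naturality.{w'} hS' hS'' m2
  have n3 := ShortComplex.ShortExact.extClass_naturality.{w'} (seq (F.obj S.X₃)) hS'' m3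
  have e1 : (Ext.mk₀ (iN h₃)).comp (hS.map_of_exact (Tau d)).extClass (zero_add 1) =
      hS'.extClass := n1.symm.trans (Ext.comp_mk₀_id _)
  have e2 : hS'.extClass.comp (Ext.mk₀ (pM h₁)) (add_zero 1) = hS''.extClass :=
    n2.trans (Ext.mk₀_id_comp _)
  have e3 : (seq (F.obj S.X₃)).extClass.comp (Ext.mk₀ (J0.map φ)) (add_zero 1) =
      hS''.extClass := n3.trans (Ext.mk₀_id_comp _)
  rw [e3, ← e2, ← e1]
  exact (Ext.comp_assoc_of_third_deg_zero _ _ _ _).symm

end der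

end E4aux

section

variable {A : Type u} [Category.{v} A] [Abelian A] [HasExt.{w} A]

open E4aux in
/-- Row E4 (DER). -/
theorem exists_der [EnoughProjectives A] (F : A ⥤ A) [F.Additive] [PreservesFiniteLimits F]
    [PreservesFiniteColimits F] (d : F ⟶ 𝟭 A) : Nonempty (Der F d) := by
  haveI : HasExt.{max u v} (ShortComplex A) := HasExt.standard _
  exact ⟨{ D := fun hN hM n => DD.{w, max u v} hN hM n
           leib := leib_aux
           left₀ := left_aux
           right₀ := right_aux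
           ext₁ := ext_aux }⟩

end

end Pool.Agent.MUG
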