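import Pool.Agent.MUG.Leib

open CategoryTheory MonoidalCategory Limits Abelian

universe w v u

namespace Pool.Agent.MUG

/-! The definitions `iter` and `prodE` of the skeleton (used by the rows S3, C3, B8). -/

section Iter

variable {A : Type u} [Category.{v} A] [Abelian A] [HasExt.{w} A]

/-- Iterates of the functor on objects. -/
def iter {A : Type u} [Category.{v} A] (F : A ⥤ A) : ℕ → A → A
  | 0, M => M
  | n + 1, M => iter F n (F.obj M)

/-- The product of the classes of `S, F S, F F S, ...`. -/
noncomputable def prodE (F : A ⥤ A) [F.Additive] [PreservesFiniteLimits F]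
    [PreservesFiniteColimits F] : ∀ (n : ℕ) {M Y : A} (a : F.obj M ⟶ Y) (p : Y ⟶ M)
    (w : a ≫ p = 0) (_ : (ShortComplex.mk a p w).ShortExact), Ext M (iter F n M) n
  | 0, M, _, _, _, _, _ => Ext.mk₀ (𝟙 M)
  | n + 1, _, _, a, p, w, hS => hS.extClass.comp
      (prodE F n (F.map a) (F.map p) (by rw [← F.map_comp, w, F.map_zero])
        (hS.map_of_exact F)) (add_comm 1 n)

end Iter

end Pool.Agent.MUG
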