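import Pool.Agent.MUG.Leib

open CategoryTheory MonoidalCategory Limits Abelian

universe w v u

namespace Pool.Agent.MUG

section S1

variable {A : Type u} [Category.{v} A] [Abelian A] [HasExt.{w} A]
  {F : A ⥤ A} [F.Additive] [PreservesFiniteLimits F] [PreservesFiniteColimits F]
  {d : F ⟶ 𝟭 A} (𝔇 : Der F d) (hF : ∀ N, d.app N = 0 → d.app (F.obj N) = 0)

/-- Row S1. -/
theorem dzero_add (n : ℕ) {N M : A} (hN : d.app N = 0) (hM : d.app M = 0) (x y : Ext N M n)
    (hx : DZero 𝔇 hF n hN hM x) (hy : DZero 𝔇 hF n hN hM y) : DZero 𝔇 hF n hN hM (x + y) := by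
  induction n generalizing N with
  | zero =>
    have hx' : x = 0 := hx
    have hy' : y = 0 := hy
    change x + y = 0
    rw [hx', hy', add_zero]
  | succ n ih =>
    have hx' : DZero 𝔇 hF n (hF _ hN) hM (𝔇.D hN hM n x) := hx
    have hy' : DZero 𝔇 hF n (hF _ hN) hM (𝔇.D hN hM n y) := hy
    change DZero 𝔇 hF n (hF _ hN) hM (𝔇.D hN hM n (x + y))
    rw [map_add]
    exact ih _ _ _ hx' hy'

theorem dzero_zero (n : ℕ) {N M : A} (hN : d.app N = 0) (hM : d.app M = 0) :
    DZero 𝔇 hF n hN hM (0 : Ext N M n) := by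
  induction n generalizing N with
  | zero => exact rfl
  | succ n ih =>
    change DZero 𝔇 hF n (hF _ hN) hM (𝔇.D hN hM n 0)
    rw [map_zero]
    exact ih _

theorem dzero_right₀ (n : ℕ) {N M M' : A} (hN : d.app N = 0) (hM : d.app M = 0)
    (hM' : d.app M' = 0) (g : M ⟶ M') (x : Ext N M n)
    (hx : DZero 𝔇 hF n hN hM x) :
    DZero 𝔇 hF n hN hM' (x.comp (Ext.mk₀ g) (add_zero n)) := by
  induction n generalizing N with
  | zero =>
    have hx' : x = 0 := hx
    change x.comp (Ext.mk₀ g) (add_zero 0) = 0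
    rw [hx', Ext.zero_comp]
  | succ n ih =>
    have hx' : DZero 𝔇 hF n (hF _ hN) hM (𝔇.D hN hM n x) := hx
    change DZero 𝔇 hF n (hF _ hN) hM' (𝔇.D hN hM' n (x.comp (Ext.mk₀ g) (add_zero (n + 1))))
    rw [𝔇.right₀ hN hM hM' n x g]
    exact ih _ _ hx'

/-- `D^n` of an integer multiple. -/
theorem dzero_zsmul (n : ℕ) {N M : A} (hN : d.app N = 0) (hM : d.app M = 0) (x : Ext N M n)
    (c : ℤ) (hx : DZero 𝔇 hF n hN hM x) : DZero 𝔇 hF n hN hM (c • x) := by
  induction n generalizing N with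
  | zero =>
    have hx' : x = 0 := hx
    change c • x = 0
    rw [hx', smul_zero]
  | succ n ih =>
    have hx' : DZero 𝔇 hF n (hF _ hN) hM (𝔇.D hN hM n x) := hx
    change DZero 𝔇 hF n (hF _ hN) hM (𝔇.D hN hM n (c • x))
    rw [map_zsmul]
    exact ih _ _ hx'

end S1

end Pool.Agent.MUG
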