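import Pool.Agent.MUG.S1

open CategoryTheory MonoidalCategory Limits Abelian

universe w v u

namespace Pool.Agent.MUG

section S2

variable {A : Type u} [Category.{v} A] [Abelian A] [HasExt.{w} A]
  {F : A ⥤ A} [F.Additive] [PreservesFiniteLimits F] [PreservesFiniteColimits F]
  {d : F ⟶ 𝟭 A} (𝔇 : Der F d) (hF : ∀ N, d.app N = 0 → d.app (F.obj N) = 0)

/-- The general form of the row S2, with a free name for the degree. -/
theorem dzero_comp_aux (I : A → Prop) (hI : ∀ N, I N → d.app N = 0)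
    (hIF : ∀ N, I N → I (F.obj N))
    (H : ∀ (N M : A) (hN : I N) (hM : I M) (x : Ext N M 1), 𝔇.D (hI _ hN) (hI _ hM) 0 x = 0)
    (s : ℕ) : ∀ (p q m : ℕ) {N N' M : A} (hN : I N) (hN' : I N') (hM : d.app M = 0)
    (x : Ext N N' (q + 1)) (y : Ext N' M p) (hm : q + 1 + p = m), p + q = s →
    DZero 𝔇 hF m (hI _ hN) hM (x.comp y hm) := by
  induction s with
  | zero =>
    intro p q m N N' M hN hN' hM x y hm hs
    obtain rfl : p = 0 := by omega
    obtain rfl : q = 0 := by omega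
    obtain rfl : m = 0 + 1 := by omega
    obtain ⟨g, rfl⟩ : ∃ g, y = Ext.mk₀ g := ⟨_, (Ext.mk₀_addEquiv₀_apply y).symm⟩
    change DZero 𝔇 hF 0 (hF _ (hI _ hN)) hM (𝔇.D (hI _ hN) hM 0 (x.comp (Ext.mk₀ g) _))
    rw [𝔇.right₀ (hI _ hN) (hI _ hN') hM 0 x g, H N N' hN hN' x, Ext.zero_comp]
    exact dzero_zero 𝔇 hF _ _ _
  | succ s ih =>
    intro p q m N N' M hN hN' hM x y hm hs
    obtain _ | p := p
    · -- `y` of degree zero
      obtain ⟨g, rfl⟩ : ∃ g, y = Ext.mk₀ g := ⟨_, (Ext.mk₀_addEquiv₀_apply y).symm⟩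
      obtain _ | q := q
      · omega
      · obtain rfl : m = q + 1 + 1 := by omega
        change DZero 𝔇 hF (q + 1) (hF _ (hI _ hN)) hM
          (𝔇.D (hI _ hN) hM (q + 1) (x.comp (Ext.mk₀ g) _))
        rw [𝔇.right₀ (hI _ hN) (hI _ hN') hM (q + 1) x g]
        exact ih 0 q (q + 1) (hIF _ hN) hN' hM (𝔇.D (hI _ hN) (hI _ hN') (q + 1) x)
          (Ext.mk₀ g) _ (by omega)
    · obtain rfl : m = q + 1 + p + 1 := by omega
      change DZero 𝔇 hF (q + 1 + p) (hF _ (hI _ hN)) hM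
        (𝔇.D (hI _ hN) hM (q + 1 + p) (x.comp y _))
      rw [𝔇.leib (hI _ hN) (hI _ hN') hM q p x y]
      refine dzero_add 𝔇 hF _ _ _ _ _ (dzero_zsmul 𝔇 hF _ _ _ _ _ ?_) ?_
      · exact ih p q (q + 1 + p) (hIF _ hN) (hIF _ hN') hM (x.mapExactFunctor F)
          (𝔇.D (hI _ hN') hM p y) _ (by omega)
      · obtain _ | q := q
        · rw [H N N' hN hN' x, Ext.zero_comp]
          exact dzero_zero 𝔇 hF _ _ _
        · exact ih (p + 1) q (q + 1 + 1 + p) (hIF _ hN) hN' hM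
            (𝔇.D (hI _ hN) (hI _ hN') (q + 1) x) y _ (by omega)

/-- Row S2 (3.1). `I` is the class of invertible objects in the application. -/
theorem dzero_comp (I : A → Prop) (hI : ∀ N, I N → d.app N = 0) (hIF : ∀ N, I N → I (F.obj N))
    (H : ∀ (N M : A) (hN : I N) (hM : I M) (x : Ext N M 1), 𝔇.D (hI _ hN) (hI _ hM) 0 x = 0)
    (p q : ℕ) {N N' M : A} (hN : I N) (hN' : I N') (hM : d.app M = 0)
    (x : Ext N N' (q + 1)) (y : Ext N' M p) :
    DZero 𝔇 hF (q + 1 + p) (hI _ hN) hM (x.comp y rfl) :=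
  dzero_comp_aux 𝔇 hF I hI hIF H (p + q) p q _ hN hN' hM x y rfl rfl

end S2

end Pool.Agent.MUG
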