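import Pool.Agent.MUG.Iter
import Pool.Agent.MUG.S1

open CategoryTheory MonoidalCategory Limits Abelian

universe w v u

namespace Pool.Agent.MUG

section S3

variable {A : Type u} [Category.{v} A] [Abelian A] [HasExt.{w} A]
  {F : A ⥤ A} [F.Additive] [PreservesFiniteLimits F] [PreservesFiniteColimits F]
  {d : F ⟶ 𝟭 A} (𝔇 : Der F d) (hF : ∀ N, d.app N = 0 → d.app (F.obj N) = 0)

omit [F.Additive] [PreservesFiniteLimits F] [PreservesFiniteColimits F] in
theorem ext_mk₀_zsmul {X Y : A} (c : ℤ) (f : X ⟶ Y) :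
    Ext.mk₀ (c • f) = c • Ext.mk₀ f :=
  map_zsmul (Ext.addEquiv₀ (X := X) (Y := Y)).symm c f

theorem ext_comp_zsmul {X Y Z : A} {a b n : ℕ} (x : Ext X Y a) (c : ℤ) (y : Ext Y Z b)
    (h : a + b = n) : x.comp (c • y) h = c • x.comp y h :=
  map_zsmul (AddMonoidHom.mk' (fun y : Ext Y Z b => x.comp y h)
    (fun y y' => Ext.comp_add x y y' h)) c y

theorem ext_zsmul_comp {X Y Z : A} {a b n : ℕ} (x : Ext X Y a) (c : ℤ) (y : Ext Y Z b)
    (h : a + b = n) : (c • x).comp y h = c • x.comp y h :=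
  map_zsmul (AddMonoidHom.mk' (fun x : Ext X Y a => x.comp y h)
    (fun x x' => Ext.add_comp x x' y h)) c x

/-- `D` of the class of `S`. -/
theorem D_extClass {M Y : A} (a : F.obj M ⟶ Y) (p : Y ⟶ M) (w : a ≫ p = 0)
    (hS : (ShortComplex.mk a p w).ShortExact) (hM : d.app M = 0)
    (hFM : d.app (F.obj M) = 0) (c : ℤ)
    (hd : d.app Y = c • (F.map p ≫ a)) :
    𝔇.D hM hFM 0 hS.extClass = c • Ext.mk₀ (𝟙 (F.obj M)) := by
  have h3 := 𝔇.ext₁ _ hS hFM hM (c • 𝟙 (F.obj M)) (by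
      simp only [Preadditive.zsmul_comp, Preadditive.comp_zsmul, Category.id_comp]
      exact hd.symm)
  exact h3.trans (ext_mk₀_zsmul c _)

theorem D_base {M Y : A} (a : F.obj M ⟶ Y) (p : Y ⟶ M) (w : a ≫ p = 0)
    (hS : (ShortComplex.mk a p w).ShortExact) (hM : d.app M = 0)
    (hFM : d.app (F.obj M) = 0) (c : ℤ)
    (hd : d.app Y = c • (F.map p ≫ a)) :
    𝔇.D hM hFM 0 (hS.extClass.comp (Ext.mk₀ (𝟙 (F.obj M))) (add_zero 1)) =
      c • Ext.mk₀ (𝟙 (F.obj M)) := by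
  have h1 : hS.extClass.comp (Ext.mk₀ (𝟙 (F.obj M))) (add_zero 1) = hS.extClass :=
    Ext.comp_mk₀_id _
  rw [h1]
  exact D_extClass 𝔇 a p w hS hM hFM c hd

theorem D_step {M Y Z : A} (a : F.obj M ⟶ Y) (p : Y ⟶ M) (w : a ≫ p = 0)
    (hS : (ShortComplex.mk a p w).ShortExact) (hM : d.app M = 0)
    (hFM : d.app (F.obj M) = 0) (c : ℤ)
    (hd : d.app Y = c • (F.map p ≫ a)) (hZ : d.app Z = 0) (n : ℕ)
    (R : Ext (F.obj M) Z (n + 1)) (m : ℤ) (R' : Ext (F.obj (F.obj M)) Z n)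
    (hR : 𝔇.D hFM hZ n R = m • R')
    (hRR : R = (hS.map_of_exact F).extClass.comp R' (add_comm 1 n)) :
    𝔇.D hM hZ (n + 1) (hS.extClass.comp R (add_comm 1 (n + 1))) = (c - m) • R := by
  have h2 := 𝔇.leib hM hFM hZ 0 n hS.extClass R
  have h3 := D_extClass 𝔇 a p w hS hM hFM c hd
  have key : ∀ (j : ℕ) (hj : 0 + 1 + n = j) (hj' : 1 + (n + 1) = j + 1),
      𝔇.D hM hZ j (hS.extClass.comp R hj') =
      ((-1 : ℤ) ^ (0 + 1)) • (hS.extClass.mapExactFunctor F).comp (𝔇.D hFM hZ n R) hj +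
      (𝔇.D hM hFM 0 hS.extClass).comp R (by omega) := by
    intro j hj hj'
    subst hj
    exact h2
  have h5 : (hS.extClass.mapExactFunctor F).comp R' (add_comm 1 n) = R := by
    rw [hRR]
    exact congrArg (fun z => Ext.comp z R' (add_comm 1 n)) (Ext.mapExactFunctor_extClass F hS)
  have h6 : (hS.extClass.mapExactFunctor F).comp (𝔇.D hFM hZ n R) (add_comm 1 n) = m • R := by
    rw [hR, ← h5]
    exact ext_comp_zsmul _ _ _ _
  have h7 : (𝔇.D hM hFM 0 hS.extClass).comp R (zero_add (n + 1)) = c • R := by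
    rw [h3]
    refine (ext_zsmul_comp _ _ _ _).trans ?_
    rw [Ext.mk₀_id_comp]
  refine (key (n + 1) (by omega) _).trans ?_
  refine (congrArg₂ (fun s t => ((-1 : ℤ) ^ (0 + 1)) • s + t) h6 h7).trans ?_
  rw [zero_add, pow_one, neg_smul, one_smul, sub_smul]
  abel

include hF in
/-- `D` of the product of the classes of `S, F S, ..., F^n S`. -/
theorem D_prodE (hanti : ∀ Z, d.app (F.obj Z) = - F.map (d.app Z))
    (n : ℕ) : ∀ {M Y : A} (a : F.obj M ⟶ Y) (p : Y ⟶ M) (w : a ≫ p = 0)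
    (hS : (ShortComplex.mk a p w).ShortExact) (hM : d.app M = 0) (c : ℤ)
    (_ : d.app Y = c • (F.map p ≫ a)) (hn : d.app (iter F (n + 1) M) = 0),
    𝔇.D hM hn n (prodE F (n + 1) a p w hS) =
      (c * ((n : ℤ) + 1)) • prodE F n (F.map a) (F.map p)
        (by rw [← F.map_comp, w, F.map_zero]) (hS.map_of_exact F) := by
  induction n with
  | zero =>
    intro M Y a p w hS hM c hd hn
    have h := D_base 𝔇 a p w hS hM (hF _ hM) c hd
    have e : c * (((0 : ℕ) : ℤ) + 1) = c := by simp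
    rw [e]
    exact h
  | succ n ih =>
    intro M Y a p w hS hM c hd hn
    have hFw : F.map a ≫ F.map p = 0 := by rw [← F.map_comp, w, F.map_zero]
    have hFS : (ShortComplex.mk (F.map a) (F.map p) hFw).ShortExact := hS.map_of_exact F
    have hd' : d.app (F.obj Y) = (-c) • (F.map (F.map p) ≫ F.map a) := by
      rw [hanti, hd, F.map_zsmul, F.map_comp, neg_smul]
    have hR := ih (M := F.obj M) (Y := F.obj Y) (F.map a) (F.map p) hFw hFS (hF _ hM) (-c)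
      hd' hn
    have h := D_step 𝔇 a p w hS hM (hF _ hM) c hd hn n
      (prodE F (n + 1) (F.map a) (F.map p) hFw hFS) _ _ hR rfl
    refine h.trans ?_
    congr 1
    push_cast
    ring

theorem D_smul_left {M U Z : A} (hM : d.app M = 0) (hU : d.app U = 0) (hZ : d.app Z = 0)
    (u : U ⟶ M) (n : ℕ) (R : Ext M Z (n + 1)) (R' : Ext (F.obj M) Z n) (k : ℤ)
    (hR : 𝔇.D hM hZ n R = k • R') (m : ℤ) :
    𝔇.D hU hZ n (m • (Ext.mk₀ u).comp R (zero_add (n + 1))) =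
      (m * k) • (Ext.mk₀ (F.map u)).comp R' (zero_add n) := by
  rw [map_zsmul, 𝔇.left₀ hU hM hZ u n, hR, ext_comp_zsmul, smul_smul]

theorem not_dzero_aux [F.Faithful] (hchar : ∀ (n : ℕ) (X Y : A) (f : X ⟶ Y),
      ((n + 1 : ℕ) : ℤ) • f = 0 → f = 0)
    (hanti : ∀ Z, d.app (F.obj Z) = - F.map (d.app Z))
    (n : ℕ) : ∀ {M Y : A} (a : F.obj M ⟶ Y) (p : Y ⟶ M) (w : a ≫ p = 0)
    (hS : (ShortComplex.mk a p w).ShortExact) (_ : d.app M = 0) (c : ℤ) (_ : c = 1 ∨ c = -1)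
    (_ : d.app Y = c • (F.map p ≫ a))
    (hn : d.app (iter F n M) = 0)
    {U : A} (hU : d.app U = 0) (u : U ⟶ M) (_ : u ≠ 0) (m : ℤ) (_ : m ≠ 0),
    ¬ DZero 𝔇 hF n hU hn (m • (Ext.mk₀ u).comp (prodE F n a p w hS) (zero_add n)) := by
  induction n with
  | zero =>
    intro M Y a p w hS hM c hc hd hn U hU u hu m hm h
    have h1 : m • (Ext.mk₀ u).comp (Ext.mk₀ (𝟙 M)) (zero_add 0) = 0 := h
    rw [Ext.mk₀_comp_mk₀, Category.comp_id, ← ext_mk₀_zsmul, Ext.mk₀_eq_zero_iff] at h1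
    obtain ⟨k, hk⟩ : ∃ k : ℕ, m = ((k + 1 : ℕ) : ℤ) ∨ m = -((k + 1 : ℕ) : ℤ) := by
      refine ⟨m.natAbs - 1, ?_⟩
      have : m.natAbs - 1 + 1 = m.natAbs := by omega
      rw [this]
      omega
    rcases hk with hk | hk
    · rw [hk] at h1
      exact hu (hchar k _ _ u h1)
    · rw [hk, neg_smul, neg_eq_zero] at h1
      exact hu (hchar k _ _ u h1)
  | succ n ih =>
    intro M Y a p w hS hM c hc hd hn U hU u hu m hm h
    have hFw : F.map a ≫ F.map p = 0 := by rw [← F.map_comp, w, F.map_zero]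
    have hFS : (ShortComplex.mk (F.map a) (F.map p) hFw).ShortExact := hS.map_of_exact F
    have hd' : d.app (F.obj Y) = (-c) • (F.map (F.map p) ≫ F.map a) := by
      rw [hanti, hd, F.map_zsmul, F.map_comp, neg_smul]
    have h' : DZero 𝔇 hF n (hF _ hU) hn
      (𝔇.D hU hn n (m • (Ext.mk₀ u).comp (prodE F (n + 1) a p w hS) (zero_add (n + 1)))) := h
    have h2 := D_smul_left 𝔇 hM hU hn u n _ _ _
      (D_prodE 𝔇 hF hanti n a p w hS hM c hd hn) m
    rw [h2] at h'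
    refine ih (M := F.obj M) (Y := F.obj Y) (F.map a) (F.map p) hFw hFS (hF _ hM) (-c) ?_ hd' hn
      (hF _ hU) (F.map u) ?_ _ ?_ h'
    · rcases hc with hc | hc
      · right; rw [hc]
      · left; rw [hc, neg_neg]
    · intro h0
      exact hu (F.map_injective (by rw [h0, F.map_zero]))
    · refine mul_ne_zero hm (mul_ne_zero ?_ (by positivity))
      rcases hc with hc | hc <;> rw [hc] <;> norm_num

/-- Row S3 (a_n = n). -/
theorem not_dzero_prodE [F.Faithful] (hchar : ∀ (n : ℕ) (X Y : A) (f : X ⟶ Y),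
      ((n + 1 : ℕ) : ℤ) • f = 0 → f = 0)
    (n : ℕ) {M Y : A} (a : F.obj M ⟶ Y) (p : Y ⟶ M) (w : a ≫ p = 0)
    (hS : (ShortComplex.mk a p w).ShortExact) (hM : d.app M = 0) (c : ℤ) (hc : c = 1 ∨ c = -1)
    (hd : d.app Y = c • (F.map p ≫ a)) (hanti : ∀ Z, d.app (F.obj Z) = - F.map (d.app Z))
    (hn : d.app (iter F n M) = 0)
    {U : A} (hU : d.app U = 0) (u : U ⟶ M) (hu : u ≠ 0) :
    ¬ DZero 𝔇 hF n hU hn ((Ext.mk₀ u).comp (prodE F n a p w hS) (zero_add n)) := by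
  intro h
  refine not_dzero_aux 𝔇 hF hchar hanti n a p w hS hM c hc hd hn hU u hu 1 one_ne_zero ?_
  rw [one_smul]
  exact h

end S3

end Pool.Agent.MUG
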