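import Pool.Agent.MUG.Leib
import Pool.Agent.MUG.E
import Pool.Agent.MUG.E4
import Pool.Agent.MUG.S1
import Pool.Agent.MUG.S2
import Pool.Agent.MUG.S3
import Pool.Agent.MUG.Iter
import Pool.Agent.MUG.C1
import Pool.Agent.MUG.C3
import Pool.Agent.MUG.B2
import Pool.Agent.MUG.B6
import Pool.Agent.MUG.B7
import Pool.Agent.MUG.B8a
import Pool.Agent.MUG.ExtSes

open CategoryTheory MonoidalCategory Limits Abelian

universe w w' v v' u u'

namespace Pool.Agent.MUG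

section

variable {k : Type*} [Field k] {C : Type u} [Category.{v} C] [Abelian C] [Linear k C]
  [MonoidalCategory C] [MonoidalPreadditive C] [MonoidalLinear k C] [RigidCategory C]

omit [Linear k C] [MonoidalLinear k C] in
theorem act_unit [HasExt.{w} C] [EnoughProjectives C] {n : ℕ} (ζ : Ext (𝟙_ C) (𝟙_ C) n) :
    act (𝟙_ C) ζ = ζ := by
  have h := ext_nat (tensorRight (𝟙_ C)) (𝟭 C) (rightUnitorNatIso C).hom n ζ
  rw [ext_map_id] at h
  have e : (rightUnitorNatIso C).hom.app (𝟙_ C) = (λ_ (𝟙_ C)).hom := by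
    simp [unitors_equal]
  rw [e] at h
  unfold act
  rw [h, Ext.mk₀_comp_mk₀_assoc, Iso.inv_hom_id, Ext.mk₀_id_comp]

variable [BraidedCategory C]

omit [Abelian C] [Linear k C] [MonoidalPreadditive C] [MonoidalLinear k C] [RigidCategory C] in
theorem faithful_tensorLeft {b : C} (hb : Invertible b) : (tensorLeft b).Faithful := by
  obtain ⟨b', ⟨θ'⟩⟩ := hb
  have θ : b' ⊗ b ≅ 𝟙_ C := β_ b' b ≪≫ θ'
  refine ⟨fun {X Y f g} h => ?_⟩
  have h' : b ◁ f = b ◁ g := h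
  have key : ∀ f : X ⟶ Y, f = (λ_ X).inv ≫ (θ.inv ▷ X) ≫ (α_ b' b X).hom ≫ (b' ◁ (b ◁ f)) ≫
      (α_ b' b Y).inv ≫ (θ.hom ▷ Y) ≫ (λ_ Y).hom := by
    intro f
    have e1 : (α_ b' b X).hom ≫ (b' ◁ (b ◁ f)) ≫ (α_ b' b Y).inv = (b' ⊗ b) ◁ f := by simp
    rw [reassoc_of% e1, whisker_exchange_assoc, ← comp_whiskerRight_assoc]
    simp
  rw [key f, key g, h']

/-- The contradiction: if `D` vanishes on `Ext^1` of invertible objects then FGC fails. -/
theorem fgc_contradiction [IsAlgClosed k] [CharZero k] [HasExt.{w} C] (hC : IsFinite k C)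
    (hF : FGC.{w} k C) {b : C} (hb : Invertible b) (L : Leib b)
    (hsq : L.SqZero) (hc : (β_ b b).hom = - 𝟙 (b ⊗ b)) (hne : L.Nonzero)
    (𝔇 : Der (tensorLeft b) L.natTrans)
    (H : ∀ (N M : C) (_ : Invertible N) (_ : Invertible M) (hN' : L.natTrans.app N = 0)
      (hM' : L.natTrans.app M = 0) (x : Ext N M 1),
      𝔇.D hN' hM' 0 x = 0) : False := by
  have := hC.enough
  have := hC.unit
  have hFd : ∀ N, L.natTrans.app N = 0 → L.natTrans.app ((tensorLeft b).obj N) = 0 := by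
    intro N hN
    change L.d (b ⊗ N) = 0
    have hN' : L.d N = 0 := hN
    rw [leib_b hC hb L hsq hc, hN', MonoidalPreadditive.whiskerLeft_zero, neg_zero]
  have hI : ∀ N : C, Invertible N → L.natTrans.app N = 0 := by
    intro N hN
    have := simple_of_invertible hC hN
    exact leib_simple hC hb L hsq N
  have hIF : ∀ N : C, Invertible N → Invertible ((tensorLeft b).obj N) :=
    fun N hN => invertible_tensor hb hN
  -- the cover
  obtain ⟨P, e, hPe⟩ := exists_cover hC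
  have hkill := cover_kills hC hb L hsq hne hPe
  have := hPe.proj
  have := hPe.epi
  have hepi : Epi ((e ▷ P) ≫ (λ_ P).hom) := by
    have : Epi (e ▷ P) := inferInstanceAs (Epi ((tensorRight P).map e))
    infer_instance
  -- the quotient `Q`
  obtain ⟨Q, π, a, w, ha, hSa, hdQ, e', he'⟩ : ∃ (Q : C) (π : P ⟶ Q) (a : b ⊗ Q ⟶ P)
      (w : a ≫ π = 0), (b ◁ π) ≫ a = L.d P ∧ (ShortComplex.mk a π w).ShortExact ∧
      L.d Q = 0 ∧ ∃ e' : Q ⟶ 𝟙_ C, e = π ≫ e' := by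
    obtain ⟨a, w, ha, hSa⟩ := exactness L hsq e hkill P
      (Projective.factorThru (𝟙 P) ((e ▷ P) ≫ (λ_ P).hom)) (Projective.factorThru_comp _ _)
    have h4 : L.d P ≫ e = 0 := by
      rw [← L.nat e, leib_unit, comp_zero]
    refine ⟨cokernel (L.d P), cokernel.π (L.d P), a, w, ha, hSa, ?_,
      cokernel.desc (L.d P) e h4, (cokernel.π_desc _ _ _).symm⟩
    have h1 := L.nat (cokernel.π (L.d P))
    rw [cokernel.condition] at h1
    have : Epi (b ◁ cokernel.π (L.d P)) :=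
      inferInstanceAs (Epi ((tensorLeft b).map (cokernel.π (L.d P))))
    rwa [← cancel_epi (b ◁ cokernel.π (L.d P)), comp_zero]
  have hTL := tensorSub_T hb L
  have hdQd : L.d (Qᘁ) = 0 := hTL.rdual (X := Q) hdQ
  have hdM : L.d (Q ⊗ Qᘁ) = 0 := hTL.tensor (X := Q) (Y := Qᘁ) hdQ hdQd
  -- the short exact sequence `0 ⟶ b ⊗ M0 ⟶ P ⊗ Qᘁ ⟶ M0 ⟶ 0`
  let a' : b ⊗ (Q ⊗ Qᘁ) ⟶ P ⊗ Qᘁ := (α_ b Q (Qᘁ)).inv ≫ (a ▷ Qᘁ)
  let p' : P ⊗ Qᘁ ⟶ Q ⊗ Qᘁ := π ▷ Qᘁ
  have w₀ : (a ▷ Qᘁ) ≫ p' = 0 := by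
    dsimp [p']
    rw [← comp_whiskerRight, w, MonoidalPreadditive.zero_whiskerRight]
  have hS₀ : (ShortComplex.mk (a ▷ Qᘁ) p' w₀).ShortExact := hSa.map_of_exact (tensorRight (Qᘁ))
  have w' : a' ≫ p' = 0 := by
    dsimp only [a']
    rw [Category.assoc, w₀, comp_zero]
  have hS : (ShortComplex.mk a' p' w').ShortExact := by
    let E : ShortComplex.mk (a ▷ Qᘁ) p' w₀ ≅ ShortComplex.mk a' p' w' :=
      ShortComplex.isoMk (α_ b Q (Qᘁ)) (Iso.refl _) (Iso.refl _)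
      (by dsimp [a']; rw [Iso.hom_inv_id_assoc, Category.comp_id])
      (by dsimp; rw [Category.id_comp, Category.comp_id])
    exact ShortComplex.shortExact_of_iso E hS₀
  have hd' : L.natTrans.app (P ⊗ Qᘁ) = (1 : ℤ) • ((tensorLeft b).map p' ≫ a') := by
    change L.d (P ⊗ Qᘁ) = _
    rw [L.leib, hdQd, MonoidalPreadditive.whiskerLeft_zero, comp_zero, comp_zero, comp_zero,
      add_zero, one_smul, ← ha]
    dsimp [p', a']
    simp
  -- the coevaluation is nonzero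
  let u : 𝟙_ C ⟶ Q ⊗ Qᘁ := η_ Q (Qᘁ)
  have hu : u ≠ 0 := by
    intro hu
    have h1 := ExactPairing.evaluation_coevaluation Q (Qᘁ)
    have h2 : η_ Q (Qᘁ) = 0 := hu
    rw [h2, MonoidalPreadditive.zero_whiskerRight, zero_comp] at h1
    have h3 : 𝟙 Q = 0 := by
      have := congrArg (fun t => (λ_ Q).inv ≫ t ≫ (ρ_ Q).hom) h1
      simpa using this.symm
    have h6 : e = 0 := by
      have : e' = 𝟙 Q ≫ e' := (Category.id_comp _).symm
      rw [he', this, h3, zero_comp, comp_zero]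
    have h7 : 𝟙 (𝟙_ C) = 0 := by
      rw [← cancel_epi e, h6, zero_comp, comp_zero]
    exact id_nonzero _ h7
  -- FGC
  obtain ⟨r, dg, y, hgen⟩ := hF.mod (𝟙_ C) (Q ⊗ Qᘁ)
  let N₀ := ∑ i, dg i
  have hN₀ : ∀ i, dg i ≤ N₀ := fun i => Finset.single_le_sum (fun _ _ => Nat.zero_le _)
    (Finset.mem_univ i)
  have hU : L.natTrans.app (𝟙_ C) = 0 := leib_unit L
  have hM₀ : L.natTrans.app (Q ⊗ Qᘁ) = 0 := hdM
  let Afam : ∀ n, Submodule k (Ext (𝟙_ C) (Q ⊗ Qᘁ) n) := fun n =>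
    { carrier := {x | n ≤ N₀ ∨ DZero 𝔇 hFd n hU hM₀ x}
      add_mem' := by
        rintro x y (hx | hx) hy
        · exact Or.inl hx
        · rcases hy with hy | hy
          · exact Or.inl hy
          · exact Or.inr (dzero_add 𝔇 hFd n hU hM₀ x y hx hy)
      zero_mem' := Or.inr (dzero_zero 𝔇 hFd n hU hM₀)
      smul_mem' := by
        rintro c x (hx | hx)
        · exact Or.inl hx
        · refine Or.inr ?_
          rw [Ext.smul_eq_comp_mk₀]
          exact dzero_right₀ 𝔇 hFd n hU hM₀ hM₀ _ x hx }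
  have hA := hgen Afam (fun i => Or.inl (hN₀ i)) (by
    intro m n ζ z hz
    rw [act_unit]
    rcases m with _ | m
    · obtain ⟨f, rfl⟩ := (Ext.mk₀_bijective _ _).2 ζ
      obtain ⟨c, rfl⟩ := end_unit hC f
      have key : ∀ p (h : 0 + n = p), (Ext.mk₀ (c • 𝟙 (𝟙_ C))).comp z h ∈ Afam p := by
        intro p h
        obtain rfl : p = n := by omega
        have e1 : (Ext.mk₀ (c • 𝟙 (𝟙_ C))).comp z h = c • z := by
          rw [Ext.mk₀_smul, Ext.smul_comp, Ext.mk₀_id_comp]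
        rw [e1]
        exact (Afam p).smul_mem c hz
      exact key _ rfl
    · refine Or.inr ?_
      have hIU : Invertible (𝟙_ C) := ⟨𝟙_ C, ⟨λ_ _⟩⟩
      exact dzero_comp 𝔇 hFd Invertible hI hIF (fun N M hN hM x => H N M hN hM _ _ x) n m
        hIU hIU hM₀ ζ z)
  obtain ⟨N, hN, hiso⟩ := exists_order hC hb
  obtain ⟨θ⟩ := hiso (N₀ + 1) (Q ⊗ Qᘁ)
  have hit : ∀ (n : ℕ) (M : C), L.natTrans.app M = 0 →
      L.natTrans.app (iter (tensorLeft b) n M) = 0 := by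
    intro n
    induction n with
    | zero => exact fun M hM => hM
    | succ n ih => exact fun M hM => ih _ (hFd M hM)
  have hn := hit (N * (N₀ + 1)) (Q ⊗ Qᘁ) hM₀
  have : (tensorLeft b).Faithful := faithful_tensorLeft hb
  have hchar : ∀ (n : ℕ) (X Y : C) (f : X ⟶ Y), ((n + 1 : ℕ) : ℤ) • f = 0 → f = 0 := by
    intro n X Y f hf
    have h1 : ((n + 1 : ℕ) : k) • f = 0 := by
      rw [Nat.cast_smul_eq_nsmul, ← natCast_zsmul]; exact hf
    rcases smul_eq_zero.1 h1 with h2 | h2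
    · exact absurd h2 (by exact_mod_cast Nat.succ_ne_zero n)
    · exact h2
  refine not_dzero_prodE 𝔇 hFd hchar (N * (N₀ + 1)) a' p' w' hS hM₀ 1 (Or.inl rfl) hd'
    ?_ hn hU u hu ?_
  · intro Z
    exact leib_b hC hb L hsq hc Z
  · set z := (Ext.mk₀ u).comp (prodE (tensorLeft b) (N * (N₀ + 1)) a' p' w' hS)
      (zero_add (N * (N₀ + 1))) with hz
    have h1 : z.comp (Ext.mk₀ θ.hom) (add_zero _) ∈ Afam (N * (N₀ + 1)) := by
      rw [hA]; trivial
    have h2 : DZero 𝔇 hFd (N * (N₀ + 1)) hU hM₀ (z.comp (Ext.mk₀ θ.hom) (add_zero _)) := by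
      rcases h1 with h1 | h1
      · exfalso
        have : N₀ + 1 ≤ N * (N₀ + 1) := Nat.le_mul_of_pos_left _ hN
        omega
      · exact h1
    have h3 := dzero_right₀ 𝔇 hFd (N * (N₀ + 1)) hU hM₀ hn θ.inv _ h2
    rw [Ext.comp_assoc_of_third_deg_zero, Ext.mk₀_comp_mk₀, Iso.hom_inv_id,
      Ext.comp_mk₀_id] at h3
    exact h3

end

end Pool.Agent.MUG
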