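import Pool.Agent.MUG.HDir

/-!
# Projectives of the centralizer of a semisimple pointed subcategory, any characteristic
(helper64)
-/

open CategoryTheory MonoidalCategory Limits Abelian

universe w v u

set_option linter.unusedSectionVars false

namespace Pool.Agent.MUG

namespace HDir2

open Q3aux

section lin

variable {k : Type*} [Field k] {C : Type u} [Category.{v} C] [Preadditive C] [Linear k C]

theorem av_one' {Y : C} (N : ℕ) (hN : (N : k) ≠ 0) : av k (𝟙 Y) N = 𝟙 Y := by
  have h : ∀ i ∈ Finset.range N, pw (𝟙 Y) i = 𝟙 Y := fun i _ => pw_one i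
  have h1 : ∑ i ∈ Finset.range N, pw (𝟙 Y) i = (N : k) • 𝟙 Y := by
    rw [Finset.sum_congr rfl h, Finset.sum_const, Finset.card_range, Nat.cast_smul_eq_nsmul]
  rw [av, h1, smul_smul, inv_mul_cancel₀ hN, one_smul]

end lin

section proj

variable {k : Type*} [Field k] {Z : Type u} [Category.{v} Z] [Abelian Z] [Linear k Z]
  [MonoidalCategory Z] [MonoidalPreadditive Z] [RigidCategory Z]
  [BraidedCategory Z]

include k in
/-- Projective objects of the centralizer of an invertible object in `P` are projective
in `P`. -/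
theorem proj_of' (P : ObjectProperty Z) [hP : TensorSub P] {c : Z} (hc : Invertible c) (N : ℕ)
    (hN : (N : k) ≠ 0) (hpow : ∀ Y : Z, pw (th hc Y) N = 𝟙 Y)
    [h' : TensorSub (P ⊓ centralizer (fun X => X = c))]
    (Q : (P ⊓ centralizer (fun X => X = c)).FullSubcategory) (hQ : Projective Q) :
    Projective ((ObjectProperty.ιOfLE (inf_le_left :
      P ⊓ centralizer (fun X => X = c) ≤ P)).obj Q) := by
  have hthQ : th hc Q.obj = 𝟙 Q.obj := (th_eq_one_iff hc _).2 (Q.property.2 c rfl)
  -- the fixed part of an object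
  have key : ∀ X : P.FullSubcategory, ∃ (X₁ : (P ⊓ centralizer (fun X => X = c)).FullSubcategory)
      (i : X₁.obj ⟶ X.obj) (r : X.obj ⟶ X₁.obj), i ≫ r = 𝟙 _ ∧
        r ≫ i = av k (th hc X.obj) N := by
    intro X
    let i : kernel (th hc X.obj - 𝟙 X.obj) ⟶ X.obj := kernel.ι _
    have hi : i ≫ th hc X.obj = i := by
      have h1 : i ≫ (th hc X.obj - 𝟙 X.obj) = 0 := kernel.condition _
      rw [Preadditive.comp_sub, Category.comp_id, sub_eq_zero] at h1
      exact h1
    have hth : th hc (kernel (th hc X.obj - 𝟙 X.obj)) = 𝟙 _ := by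
      rw [← cancel_mono i, th_nat, hi, Category.id_comp]
    have hr0 : av k (th hc X.obj) N ≫ (th hc X.obj - 𝟙 X.obj) = 0 := by
      rw [Preadditive.comp_sub, Category.comp_id, av_fix _ _ (hpow _), sub_self]
    let r : X.obj ⟶ kernel (th hc X.obj - 𝟙 X.obj) := kernel.lift _ _ hr0
    have hri : r ≫ i = av k (th hc X.obj) N := kernel.lift_ι _ _ _
    refine ⟨⟨kernel (th hc X.obj - 𝟙 X.obj), hP.sub i X.property, ?_⟩, i, r, ?_, hri⟩
    · rintro _ rfl
      exact (th_eq_one_iff hc _).1 hth
    · rw [← cancel_mono i, Category.assoc, hri, Category.id_comp, ← av_nat (k := k)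
        (th hc (kernel (th hc X.obj - 𝟙 X.obj))) (th hc X.obj) i (th_nat hc i), hth,
        av_one' N hN, Category.id_comp]
  refine ⟨fun {E X} f e he => ?_⟩
  have he' : Epi e.hom := sub_epi_hom P e
  obtain ⟨X₁, iX, rX, hX, hX'⟩ := key X
  obtain ⟨E₁, iE, rE, hE, hE'⟩ := key E
  have hnat : av k (th hc E.obj) N ≫ e.hom = e.hom ≫ av k (th hc X.obj) N :=
    av_nat _ _ _ (th_nat hc e.hom) N
  let e₁ : E₁ ⟶ X₁ := ObjectProperty.homMk (iE ≫ e.hom ≫ rX)
  have hre : rE ≫ e₁.hom = e.hom ≫ rX := by
    change rE ≫ iE ≫ e.hom ≫ rX = _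
    rw [← Category.assoc, hE', ← Category.assoc, hnat, Category.assoc, ← hX', Category.assoc, hX,
      Category.comp_id]
  have hepi : Epi e₁.hom := by
    have h1 : Epi rX := by
      have : Epi (iX ≫ rX) := by rw [hX]; infer_instance
      exact epi_of_epi iX rX
    have h2 : Epi (e.hom ≫ rX) := epi_comp _ _
    have h3 : Epi (rE ≫ e₁.hom) := by rw [hre]; exact h2
    exact epi_of_epi rE _
  have : Epi e₁ := sub_epi_of _ e₁ hepi
  let f' : Q.obj ⟶ X.obj := f.hom
  let g : Q ⟶ E₁ := Projective.factorThru (ObjectProperty.homMk (f' ≫ rX) : Q ⟶ X₁) e₁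
  have hg : g.hom ≫ e₁.hom = f' ≫ rX :=
    congrArg (fun t => t.hom) (Projective.factorThru_comp
      (ObjectProperty.homMk (f' ≫ rX) : Q ⟶ X₁) e₁)
  refine ⟨ObjectProperty.homMk (g.hom ≫ iE), ?_⟩
  apply ObjectProperty.hom_ext
  change (g.hom ≫ iE) ≫ e.hom = f'
  have h5 : e₁.hom ≫ iX = iE ≫ e.hom := by
    change (iE ≫ e.hom ≫ rX) ≫ iX = _
    rw [Category.assoc, Category.assoc, hX', ← hnat, ← hE', Category.assoc, ← Category.assoc, hE,
      Category.id_comp]
  have h6 : f' ≫ av k (th hc X.obj) N = f' := by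
    rw [← av_nat (k := k) (th hc Q.obj) _ f' (th_nat hc f') N, hthQ, av_one' N hN,
      Category.id_comp]
  rw [Category.assoc, ← h5, ← Category.assoc, hg, Category.assoc, hX', h6]

end proj

end HDir2

section main

variable {k : Type*} [Field k] {Z : Type u} [Category.{v} Z] [Abelian Z] [Linear k Z]
  [MonoidalCategory Z] [MonoidalPreadditive Z] [MonoidalLinear k Z] [RigidCategory Z]
  [BraidedCategory Z]

open Q3aux in
/-- Projectives of `P ⊓ c^` are projective in `P`, in terms of `ProjIn`. -/
theorem projIn_inf_centralizer' (P : ObjectProperty Z)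
    [hP : TensorSub P] {c : Z} (hc : Invertible c) (N : ℕ) (hN : (N : k) ≠ 0)
    (e : iter (tensorLeft c) N (𝟙_ Z) ≅ 𝟙_ Z) {X : Z}
    (hX : ProjIn (P ⊓ centralizer (fun X => X = c)) X) : ProjIn P X := by
  have hpow : ∀ Y : Z, pw (th hc Y) N = 𝟙 Y := th_pow hc N e
  have hcent : TensorSub (centralizer (fun X : Z => X = c)) := tensorSub_centralizer _
  have h' : TensorSub (P ⊓ centralizer (fun X => X = c)) := tensorSub_inf _ _
  let X' : (P ⊓ centralizer (fun X => X = c)).FullSubcategory := ⟨X, hX.1⟩
  have h1 : Projective X' := projective_of_projIn _ X' hX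
  have h2 := HDir2.proj_of' (k := k) P hc N hN hpow X' h1
  exact projIn_of_projective P _ h2

theorem projective_of_commAll' {n : ℕ} (S : Fin n → Z)
    (s : Finset (Fin n)) (hord : ∀ i ∈ s, Invertible (S i) → ∃ N : ℕ, (N : k) ≠ 0 ∧
      Nonempty (iter (tensorLeft (S i)) N (𝟙_ Z) ≅ 𝟙_ Z)) {X : Z} (hX : ProjIn (commAll S s) X) : Projective X := by
  classical
  induction s using Finset.induction_on generalizing X with
  | empty =>
    constructor
    intro E X' f e he
    exact hX.2 e he (fun i hi => absurd hi (Finset.notMem_empty i))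
      (fun i hi => absurd hi (Finset.notMem_empty i)) f
  | insert i s hi ih =>
    apply ih (fun j hj => hord j (Finset.mem_insert_of_mem hj))
    have hs := tensorSub_commAll S s
    by_cases hinv : Invertible (S i)
    · have h1 : commAll S (insert i s) = commAll S s ⊓ centralizer (fun X => X = S i) := by
        ext Y
        constructor
        · intro hY
          refine ⟨fun j hj hinvj => hY j (Finset.mem_insert_of_mem hj) hinvj, ?_⟩
          rintro _ rfl
          exact hY i (Finset.mem_insert_self _ _) hinv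
        · rintro ⟨h2, h3⟩ j hj hinvj
          rcases Finset.mem_insert.1 hj with rfl | hj
          · exact h3 _ rfl
          · exact h2 j hj hinvj
      rw [h1] at hX
      obtain ⟨N, hN, ⟨e⟩⟩ := hord i (Finset.mem_insert_self _ _) hinv
      exact projIn_inf_centralizer' (k := k) (commAll S s) hinv N hN e hX
    · have h1 : commAll S (insert i s) = commAll S s := by
        ext Y
        constructor
        · intro hY j hj hinvj
          exact hY j (Finset.mem_insert_of_mem hj) hinvj
        · intro hY j hj hinvj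
          rcases Finset.mem_insert.1 hj with rfl | hj
          · exact absurd hinvj hinv
          · exact hY j hj hinvj
      rw [h1] at hX
      exact hX

/-- Row HDIR: if `E` is semisimple and all its simple objects are invertible, projectives of the
centralizer of `E` are projective in `Z` (any characteristic, orders prime to it). -/
theorem projective_of_projIn_centralizer' (hZ : IsFinite k Z) (E : ObjectProperty Z)
    [hE : TensorSub E] (hinv : ∀ T, Simple T → E T → Invertible T)
    (hord : ∀ T, Simple T → E T → ∃ N : ℕ, (N : k) ≠ 0 ∧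
      Nonempty (iter (tensorLeft T) N (𝟙_ Z) ≅ 𝟙_ Z))
    (hss : ∀ {A B : Z}, E A → E B → ∀ p : A ⟶ B, Epi p → ∃ s, s ≫ p = 𝟙 B)
    {X : Z} (hX : ProjIn (centralizer E) X) : Projective X := by
  classical
  obtain ⟨n, S, hS⟩ := hZ.simples
  let s : Finset (Fin n) := Finset.univ.filter (fun i => E (S i))
  have hcent : centralizer E = commAll S s := by
    ext Y
    constructor
    · intro hY i hi _
      exact hY (S i) (Finset.mem_filter.1 hi).2
    · intro hY V
      refine fl_induction hZ.artinian hZ.noetherian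
        (fun V => E V → (β_ Y V).hom ≫ (β_ V Y).hom = 𝟙 (Y ⊗ V)) ?_ ?_ V
      · intro V hV _
        have hz : IsZero (Y ⊗ V) := by
          have := (tensorLeft Y).map_isZero hV
          exact this
        exact hz.eq_of_src _ _
      · intro T hT h1 hsimple h2
        have hmono := hT.mono_f
        have hepi := hT.epi_g
        have hE1 : E T.X₁ := hE.sub T.f h2
        have hE3 : E T.X₃ := hE.quot T.g h2
        obtain ⟨t, ht⟩ := hss h2 hE3 T.g hepi
        refine comm_of_split Y T hT (h1 hE1) ?_ t ht
        obtain ⟨i, ⟨e⟩⟩ := hS T.X₃ hsimple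
        have hEi : E (S i) := hE.quot e.hom hE3
        have hi : i ∈ s := Finset.mem_filter.2 ⟨Finset.mem_univ _, hEi⟩
        have hinvT := hinv T.X₃ hsimple hE3
        have hinvi : Invertible (S i) := by
          obtain ⟨c, ⟨j⟩⟩ := hinvT
          exact ⟨c, ⟨whiskerRightIso e.symm c ≪≫ j⟩⟩
        exact comm_of_iso' Y e.symm (hY i hi hinvi)
  rw [hcent] at hX
  refine projective_of_commAll' (k := k) S s (fun i hi hinvi => ?_) hX
  exact hord (S i) (simple_of_invertible hZ hinvi) (Finset.mem_filter.1 hi).2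

end main

end Pool.Agent.MUG
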