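import Pool.Agent.MUG.PP
import Pool.Agent.MUG.HDir2

/-!
# The base case of Theorem P (helper64)
-/

open CategoryTheory MonoidalCategory Limits Abelian

universe w v u

set_option linter.unusedSectionVars false

namespace Pool.Agent.MUG

section BaseP

variable {k : Type*} [Field k] {Z : Type u} [Category.{v} Z] [Abelian Z] [Linear k Z]
  [MonoidalCategory Z] [MonoidalPreadditive Z] [MonoidalLinear k Z] [RigidCategory Z]
  [BraidedCategory Z]

omit [Abelian Z] [Linear k Z] [MonoidalPreadditive Z] [MonoidalLinear k Z] [RigidCategory Z] in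
theorem double_symm {X Y : Z} (h : (β_ X Y).hom ≫ (β_ Y X).hom = 𝟙 (X ⊗ Y)) :
    (β_ Y X).hom ≫ (β_ X Y).hom = 𝟙 (Y ⊗ X) := by
  have h1 : (β_ Y X).hom = (β_ X Y).inv := by
    rw [← cancel_epi (β_ X Y).hom, h, Iso.hom_inv_id]
  rw [h1, Iso.inv_hom_id]

/-- The join of `D` and its centralizer commutes with `D ⊓ D^`. -/
theorem join_le_centralizer (D : ObjectProperty Z) [TensorSub D] :
    join D (centralizer D) ≤ centralizer (D ⊓ centralizer D) := by
  have hE := tensorSub_centralizer (D ⊓ centralizer D)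
  rintro M ⟨X, X', hX, hX', K, i, p, hi, hp⟩
  have h1 : centralizer (D ⊓ centralizer D) X := fun Y hY => double_symm (hY.2 X hX)
  have h2 : centralizer (D ⊓ centralizer D) X' := fun Y hY => hX' Y hY.1
  exact hE.quot p (hE.sub i (hE.tensor h1 h2))

/-- BASE CASE, any characteristic: `D ⊓ D^` semisimple, its simple objects invertible of order
prime to the characteristic, and `(D ⊓ D^)^` generated by `D` and `D^`. -/
theorem baseP [HasExt.{w} Z] (hZ : IsFinite k Z) (hF : FGC.{w} k Z) (D : ObjectProperty Z)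
    [hD : TensorSub D]
    (hss : ∀ {A B : Z}, (D ⊓ centralizer D) A → (D ⊓ centralizer D) B → ∀ p : A ⟶ B, Epi p →
      ∃ s, s ≫ p = 𝟙 B)
    (hinv : ∀ T, Simple T → (D ⊓ centralizer D) T → Invertible T)
    (hord : ∀ T, Simple T → (D ⊓ centralizer D) T → ∃ N : ℕ, (N : k) ≠ 0 ∧
      Nonempty (iter (tensorLeft T) N (𝟙_ Z) ≅ 𝟙_ Z))
    (hS : centralizer (D ⊓ centralizer D) ≤ join D (centralizer D)) : FG k D hD := by
  have hD' := tensorSub_centralizer D
  have hE : TensorSub (D ⊓ centralizer D) := tensorSub_inf _ _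
  have hjoin : join D (centralizer D) = centralizer (D ⊓ centralizer D) :=
    le_antisymm (join_le_centralizer D) hS
  refine fg_base hZ hF D (centralizer D) (fun h1 h2 h3 h4 p hp => hss ⟨h1, h2⟩ ⟨h3, h4⟩ p hp) ?_
  intro X hX
  rw [hjoin] at hX
  exact projective_of_projIn_centralizer' hZ (D ⊓ centralizer D) hinv hord hss hX

/-- BASE CASE in characteristic zero. -/
theorem baseP_charZero [CharZero k] [HasExt.{w} Z] (hZ : IsFinite k Z) (hF : FGC.{w} k Z)
    (D : ObjectProperty Z) [hD : TensorSub D]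
    (hss : ∀ {A B : Z}, (D ⊓ centralizer D) A → (D ⊓ centralizer D) B → ∀ p : A ⟶ B, Epi p →
      ∃ s, s ≫ p = 𝟙 B)
    (hinv : ∀ T, Simple T → (D ⊓ centralizer D) T → Invertible T)
    (hS : centralizer (D ⊓ centralizer D) ≤ join D (centralizer D)) : FG k D hD := by
  refine baseP hZ hF D hss hinv (fun T hT h => ?_) hS
  obtain ⟨N, hN, hiter⟩ := exists_order hZ (hinv T hT h)
  obtain ⟨e⟩ := hiter 1 (𝟙_ Z)
  rw [mul_one] at e
  exact ⟨N, by exact_mod_cast hN.ne', ⟨e⟩⟩

/-- BASE CASE for a trivial Mueger centre: every object of `D ⊓ D^` is a direct sum of copies of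
the unit (here: every simple object of it is isomorphic to the unit and epimorphisms split). Any
characteristic. -/
theorem baseP_trivial [HasExt.{w} Z] (hZ : IsFinite k Z) (hF : FGC.{w} k Z)
    (D : ObjectProperty Z) [hD : TensorSub D]
    (hss : ∀ {A B : Z}, (D ⊓ centralizer D) A → (D ⊓ centralizer D) B → ∀ p : A ⟶ B, Epi p →
      ∃ s, s ≫ p = 𝟙 B)
    (htriv : ∀ T, Simple T → (D ⊓ centralizer D) T → Nonempty (T ≅ 𝟙_ Z))
    (hS : centralizer (D ⊓ centralizer D) ≤ join D (centralizer D)) : FG k D hD := by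
  refine baseP hZ hF D hss (fun T hT h => ?_) (fun T hT h => ?_) hS
  · obtain ⟨e⟩ := htriv T hT h
    exact ⟨𝟙_ Z, ⟨ρ_ T ≪≫ e⟩⟩
  · obtain ⟨e⟩ := htriv T hT h
    exact ⟨1, by simp, ⟨ρ_ T ≪≫ e⟩⟩

end BaseP

end Pool.Agent.MUG
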