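import Pool.Agent.MUG.Defs

open CategoryTheory MonoidalCategory Limits Abelian

open scoped ZeroObject

universe w v u

namespace Pool.Agent.MUG.CA

variable {C : Type u} [Category.{v} C] [MonoidalCategory C]

section Pre

variable [Preadditive C] [MonoidalPreadditive C]

instance instZero (X Y : Center C) : Zero (X ⟶ Y) :=
  ⟨{ f := 0, comm := fun U => by simp }⟩

instance instAdd (X Y : Center C) : Add (X ⟶ Y) :=
  ⟨fun a b => { f := a.f + b.f
                comm := fun U => by
                  rw [MonoidalPreadditive.add_whiskerRight, MonoidalPreadditive.whiskerLeft_add,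
                    Preadditive.add_comp, Preadditive.comp_add, a.comm, b.comm] }⟩

instance instNeg (X Y : Center C) : Neg (X ⟶ Y) :=
  ⟨fun a => { f := - a.f
              comm := fun U => by
                have h1 : (-a.f) ▷ U = -(a.f ▷ U) := by
                  rw [eq_neg_iff_add_eq_zero, ← MonoidalPreadditive.add_whiskerRight]
                  simp
                have h2 : U ◁ (-a.f) = -(U ◁ a.f) := by
                  rw [eq_neg_iff_add_eq_zero, ← MonoidalPreadditive.whiskerLeft_add]
                  simp
                rw [h1, h2, Preadditive.neg_comp, Preadditive.comp_neg, a.comm] }⟩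

theorem zero_f (X Y : Center C) : (0 : X ⟶ Y).f = 0 := rfl
theorem add_f {X Y : Center C} (a b : X ⟶ Y) : (a + b).f = a.f + b.f := rfl
theorem neg_f {X Y : Center C} (a : X ⟶ Y) : (-a).f = -a.f := rfl

instance instAddCommGroup (X Y : Center C) : AddCommGroup (X ⟶ Y) where
  add_assoc a b c := by ext; simp only [add_f, add_assoc]
  zero_add a := by ext; simp only [add_f, zero_f, zero_add]
  add_zero a := by ext; simp only [add_f, zero_f, add_zero]
  add_comm a b := by ext; simp only [add_f, add_comm]
  neg_add_cancel a := by ext; simp only [add_f, neg_f, zero_f, neg_add_cancel]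
  nsmul := nsmulRec
  zsmul := zsmulRec

instance instPreadditive : Preadditive (Center C) where
  homGroup X Y := instAddCommGroup X Y
  add_comp X Y Z a b c := by
    ext
    simp only [Center.comp_f, add_f, Preadditive.add_comp]
  comp_add X Y Z a b c := by
    ext
    simp only [Center.comp_f, add_f, Preadditive.comp_add]

instance instForgetAdditive : (Center.forget C).Additive where
  map_add := rfl

theorem sub_f {X Y : Center C} (a b : X ⟶ Y) : (a - b).f = a.f - b.f :=
  (Center.forget C).map_sub

theorem eq_zero_iff {X Y : Center C} (a : X ⟶ Y) : a = 0 ↔ a.f = 0 :=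
  ⟨fun h => by rw [h, zero_f], fun h => by ext; rw [h, zero_f]⟩

instance instForgetFaithful : (Center.forget C).Faithful where
  map_injective h := Center.ext _ _ h

end Pre

section Lin

variable {k : Type*} [Field k] [Preadditive C] [Linear k C] [MonoidalPreadditive C]
  [MonoidalLinear k C]

instance instSMul (X Y : Center C) : SMul k (X ⟶ Y) :=
  ⟨fun r a => { f := r • a.f
                comm := fun U => by
                  rw [MonoidalLinear.smul_whiskerRight, MonoidalLinear.whiskerLeft_smul,
                    Linear.smul_comp, Linear.comp_smul, a.comm] }⟩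

theorem smul_f {X Y : Center C} (r : k) (a : X ⟶ Y) : (r • a).f = r • a.f := rfl

instance instModule (X Y : Center C) : Module k (X ⟶ Y) where
  one_smul a := by ext; simp only [smul_f, one_smul]
  mul_smul r s a := by ext; simp only [smul_f, mul_smul]
  smul_zero r := by ext; simp only [smul_f, zero_f, smul_zero]
  smul_add r a b := by ext; simp only [smul_f, add_f, smul_add]
  add_smul r s a := by ext; simp only [smul_f, add_f, add_smul]
  zero_smul a := by ext; simp only [smul_f, zero_f, zero_smul]

instance instLinear : Linear k (Center C) where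
  homModule X Y := instModule X Y
  smul_comp X Y Z r a b := by
    ext
    simp only [Center.comp_f, smul_f, Linear.smul_comp]
  comp_smul X Y Z a r b := by
    ext
    simp only [Center.comp_f, smul_f, Linear.comp_smul]

instance instForgetLinear : (Center.forget C).Linear k where
  map_smul _ _ := rfl

end Lin

section Sub

variable [Abelian C] [RigidCategory C]

instance monoL (U : C) {X Y : C} (f : X ⟶ Y) [Mono f] : Mono (U ◁ f) :=
  inferInstanceAs (Mono ((tensorLeft U).map f))

instance monoR (U : C) {X Y : C} (f : X ⟶ Y) [Mono f] : Mono (f ▷ U) :=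
  inferInstanceAs (Mono ((tensorRight U).map f))

instance epiL (U : C) {X Y : C} (f : X ⟶ Y) [Epi f] : Epi (U ◁ f) :=
  inferInstanceAs (Epi ((tensorLeft U).map f))

instance epiR (U : C) {X Y : C} (f : X ⟶ Y) [Epi f] : Epi (f ▷ U) :=
  inferInstanceAs (Epi ((tensorRight U).map f))

/-- The half-braiding on a subobject stable under the half-braiding in both directions. -/
@[simps fst]
def mkSub (X : Center C) {K : C} (i : K ⟶ X.1) [Mono i]
    (b : ∀ U, K ⊗ U ⟶ U ⊗ K) (b' : ∀ U, U ⊗ K ⟶ K ⊗ U)
    (hb : ∀ U, b U ≫ U ◁ i = i ▷ U ≫ (X.2.β U).hom)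
    (hb' : ∀ U, b' U ≫ i ▷ U = U ◁ i ≫ (X.2.β U).inv) : Center C :=
  ⟨K, { β := fun U =>
          { hom := b U
            inv := b' U
            hom_inv_id := by
              rw [← cancel_mono (i ▷ U), Category.assoc, hb', ← Category.assoc, hb, Category.assoc,
                Iso.hom_inv_id, Category.comp_id, Category.id_comp]
            inv_hom_id := by
              rw [← cancel_mono (U ◁ i), Category.assoc, hb, ← Category.assoc, hb', Category.assoc,
                Iso.inv_hom_id, Category.comp_id, Category.id_comp] }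
        monoidal := fun U U' => by
          rw [← cancel_mono ((U ⊗ U') ◁ i)]
          dsimp only
          rw [hb, HalfBraiding.monoidal]
          simp only [Category.assoc]
          rw [← MonoidalCategory.associator_inv_naturality_right, ← whiskerLeft_comp_assoc, hb,
            whiskerLeft_comp_assoc, ← MonoidalCategory.associator_naturality_middle_assoc,
            ← comp_whiskerRight_assoc, hb, comp_whiskerRight_assoc,
            ← MonoidalCategory.associator_inv_naturality_left_assoc]
        naturality := fun {U U'} f => by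
          rw [← cancel_mono (U' ◁ i)]
          dsimp only
          rw [Category.assoc, hb, whisker_exchange_assoc, HalfBraiding.naturality,
            Category.assoc, ← whisker_exchange, ← Category.assoc, ← Category.assoc, hb] }⟩

/-- The inclusion of `mkSub`. -/
def mkSubι (X : Center C) {K : C} (i : K ⟶ X.1) [Mono i]
    (b : ∀ U, K ⊗ U ⟶ U ⊗ K) (b' : ∀ U, U ⊗ K ⟶ K ⊗ U)
    (hb : ∀ U, b U ≫ U ◁ i = i ▷ U ≫ (X.2.β U).hom)
    (hb' : ∀ U, b' U ≫ i ▷ U = U ◁ i ≫ (X.2.β U).inv) : mkSub X i b b' hb hb' ⟶ X where
  f := i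
  comm U := (hb U).symm

/-- The half-braiding on a quotient stable under the half-braiding in both directions. -/
@[simps fst]
def mkQuot (X : Center C) {K : C} (p : X.1 ⟶ K) [Epi p]
    (b : ∀ U, K ⊗ U ⟶ U ⊗ K) (b' : ∀ U, U ⊗ K ⟶ K ⊗ U)
    (hb : ∀ U, p ▷ U ≫ b U = (X.2.β U).hom ≫ U ◁ p)
    (hb' : ∀ U, U ◁ p ≫ b' U = (X.2.β U).inv ≫ p ▷ U) : Center C :=
  ⟨K, { β := fun U =>
          { hom := b U
            inv := b' U
            hom_inv_id := by
              rw [← cancel_epi (p ▷ U), ← Category.assoc, hb, Category.assoc, hb', ← Category.assoc,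
                Iso.hom_inv_id, Category.comp_id, Category.id_comp]
            inv_hom_id := by
              rw [← cancel_epi (U ◁ p), ← Category.assoc, hb', Category.assoc, hb, ← Category.assoc,
                Iso.inv_hom_id, Category.comp_id, Category.id_comp] }
        monoidal := fun U U' => by
          rw [← cancel_epi (p ▷ (U ⊗ U'))]
          dsimp only
          rw [hb, HalfBraiding.monoidal]
          simp only [Category.assoc]
          rw [MonoidalCategory.associator_inv_naturality_left_assoc, ← comp_whiskerRight_assoc, hb,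
            comp_whiskerRight_assoc, MonoidalCategory.associator_naturality_middle_assoc,
            ← whiskerLeft_comp_assoc, hb, whiskerLeft_comp_assoc,
            MonoidalCategory.associator_inv_naturality_right]
        naturality := fun {U U'} f => by
          rw [← cancel_epi (p ▷ U)]
          dsimp only
          rw [← whisker_exchange_assoc, hb, HalfBraiding.naturality_assoc, ← whisker_exchange,
            ← Category.assoc, ← Category.assoc, hb] }⟩

/-- The projection to `mkQuot`. -/
def mkQuotπ (X : Center C) {K : C} (p : X.1 ⟶ K) [Epi p]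
    (b : ∀ U, K ⊗ U ⟶ U ⊗ K) (b' : ∀ U, U ⊗ K ⟶ K ⊗ U)
    (hb : ∀ U, p ▷ U ≫ b U = (X.2.β U).hom ≫ U ◁ p)
    (hb' : ∀ U, U ◁ p ≫ b' U = (X.2.β U).inv ≫ p ▷ U) : X ⟶ mkQuot X p b b' hb hb' where
  f := p
  comm U := hb U

/-- Lift through the kernel, tensored on the left. -/
noncomputable def liftL (U : C) {X Y A : C} (f : X ⟶ Y) (g : A ⟶ U ⊗ X) (h : g ≫ U ◁ f = 0) :
    A ⟶ U ⊗ kernel f :=
  kernel.lift ((tensorLeft U).map f) g h ≫ (PreservesKernel.iso (tensorLeft U) f).inv

@[reassoc (attr := simp)]
theorem liftL_ι (U : C) {X Y A : C} (f : X ⟶ Y) (g : A ⟶ U ⊗ X) (h : g ≫ U ◁ f = 0) :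
    liftL U f g h ≫ U ◁ kernel.ι f = g := by
  change (kernel.lift ((tensorLeft U).map f) g h ≫ (PreservesKernel.iso (tensorLeft U) f).inv) ≫
    (tensorLeft U).map (kernel.ι f) = g
  rw [Category.assoc, PreservesKernel.iso_inv_ι, kernel.lift_ι]

/-- Lift through the kernel, tensored on the right. -/
noncomputable def liftR (U : C) {X Y A : C} (f : X ⟶ Y) (g : A ⟶ X ⊗ U) (h : g ≫ f ▷ U = 0) :
    A ⟶ kernel f ⊗ U :=
  kernel.lift ((tensorRight U).map f) g h ≫ (PreservesKernel.iso (tensorRight U) f).inv

@[reassoc (attr := simp)]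
theorem liftR_ι (U : C) {X Y A : C} (f : X ⟶ Y) (g : A ⟶ X ⊗ U) (h : g ≫ f ▷ U = 0) :
    liftR U f g h ≫ kernel.ι f ▷ U = g := by
  change (kernel.lift ((tensorRight U).map f) g h ≫ (PreservesKernel.iso (tensorRight U) f).inv) ≫
    (tensorRight U).map (kernel.ι f) = g
  rw [Category.assoc, PreservesKernel.iso_inv_ι, kernel.lift_ι]

/-- Descend from the cokernel, tensored on the left. -/
noncomputable def descL (U : C) {X Y A : C} (f : X ⟶ Y) (g : U ⊗ Y ⟶ A) (h : U ◁ f ≫ g = 0) :
    U ⊗ cokernel f ⟶ A :=
  (PreservesCokernel.iso (tensorLeft U) f).hom ≫ cokernel.desc ((tensorLeft U).map f) g h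

@[reassoc (attr := simp)]
theorem descL_π (U : C) {X Y A : C} (f : X ⟶ Y) (g : U ⊗ Y ⟶ A) (h : U ◁ f ≫ g = 0) :
    U ◁ cokernel.π f ≫ descL U f g h = g := by
  change (tensorLeft U).map (cokernel.π f) ≫ ((PreservesCokernel.iso (tensorLeft U) f).hom ≫
    cokernel.desc ((tensorLeft U).map f) g h) = g
  rw [← Category.assoc, PreservesCokernel.π_iso_hom, cokernel.π_desc]

/-- Descend from the cokernel, tensored on the right. -/
noncomputable def descR (U : C) {X Y A : C} (f : X ⟶ Y) (g : Y ⊗ U ⟶ A) (h : f ▷ U ≫ g = 0) :
    cokernel f ⊗ U ⟶ A :=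
  (PreservesCokernel.iso (tensorRight U) f).hom ≫ cokernel.desc ((tensorRight U).map f) g h

@[reassoc (attr := simp)]
theorem descR_π (U : C) {X Y A : C} (f : X ⟶ Y) (g : Y ⊗ U ⟶ A) (h : f ▷ U ≫ g = 0) :
    cokernel.π f ▷ U ≫ descR U f g h = g := by
  change (tensorRight U).map (cokernel.π f) ≫ ((PreservesCokernel.iso (tensorRight U) f).hom ≫
    cokernel.desc ((tensorRight U).map f) g h) = g
  rw [← Category.assoc, PreservesCokernel.π_iso_hom, cokernel.π_desc]

end Sub

section Ker

variable [Abelian C] [MonoidalPreadditive C] [RigidCategory C] {X Y : Center C} (f : X ⟶ Y)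

omit [Abelian C] [MonoidalPreadditive C] [RigidCategory C] in
@[reassoc]
theorem inv_comm {X Y : Center C} (f : X ⟶ Y) (U : C) :
    (X.2.β U).inv ≫ f.f ▷ U = U ◁ f.f ≫ (Y.2.β U).inv := by
  rw [Iso.inv_comp_eq, ← Category.assoc, ← f.comm, Category.assoc, Iso.hom_inv_id,
    Category.comp_id]

/-- The kernel in the centre. -/
noncomputable def kerObj : Center C := mkSub X (kernel.ι f.f)
  (fun U => liftL U f.f (kernel.ι f.f ▷ U ≫ (X.2.β U).hom) (by
     rw [Category.assoc, ← f.comm, ← comp_whiskerRight_assoc, kernel.condition,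
      MonoidalPreadditive.zero_whiskerRight, zero_comp]))
  (fun U => liftR U f.f (U ◁ kernel.ι f.f ≫ (X.2.β U).inv) (by
     rw [Category.assoc, inv_comm, ← whiskerLeft_comp_assoc, kernel.condition,
      MonoidalPreadditive.whiskerLeft_zero, zero_comp]))
  (fun U => liftL_ι _ _ _ _) (fun U => liftR_ι _ _ _ _)

/-- The inclusion of the kernel. -/
noncomputable def kerι : kerObj f ⟶ X where
  f := kernel.ι f.f
  comm _ := (liftL_ι _ _ _ _).symm

theorem kerι_comp : kerι f ≫ f = 0 := by
  ext
  exact kernel.condition f.f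

instance : Mono (kerι f).f := inferInstanceAs (Mono (kernel.ι f.f))

/-- The underlying morphism of the lift. -/
noncomputable def kerLiftf {W : Center C} (g : W ⟶ X) (h : g ≫ f = 0) : W.1 ⟶ (kerObj f).1 :=
  kernel.lift f.f g.f (congrArg Center.Hom.f h)

@[reassoc (attr := simp)]
theorem kerLiftf_ι {W : Center C} (g : W ⟶ X) (h : g ≫ f = 0) :
    kerLiftf f g h ≫ (kerι f).f = g.f :=
  kernel.lift_ι _ _ _

/-- The universal property. -/
noncomputable def kerLift {W : Center C} (g : W ⟶ X) (h : g ≫ f = 0) : W ⟶ kerObj f where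
  f := kerLiftf f g h
  comm U := by
    rw [← cancel_mono (U ◁ (kerι f).f), Category.assoc, ← (kerι f).comm, Category.assoc,
      ← comp_whiskerRight_assoc, ← whiskerLeft_comp, kerLiftf_ι]
    exact g.comm U

@[reassoc (attr := simp)]
theorem kerLift_ι {W : Center C} (g : W ⟶ X) (h : g ≫ f = 0) :
    kerLift f g h ≫ kerι f = g := by
  ext
  exact kerLiftf_ι f g h

/-- The kernel fork is a limit. -/
noncomputable def kerIsLimit : IsLimit (KernelFork.ofι (kerι f) (kerι_comp f)) :=
  KernelFork.IsLimit.ofι _ _ (fun g h => kerLift f g h)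
    (fun g h => kerLift_ι f g h)
    (fun g h m hm => by
      ext
      rw [← cancel_mono (kerι f).f]
      have := congrArg Center.Hom.f hm
      exact this.trans (kerLiftf_ι f g h).symm)

/-- The cokernel in the centre. -/
noncomputable def cokObj : Center C := mkQuot Y (cokernel.π f.f)
  (fun U => descR U f.f ((Y.2.β U).hom ≫ U ◁ cokernel.π f.f) (by
     rw [f.comm_assoc, ← whiskerLeft_comp, cokernel.condition,
      MonoidalPreadditive.whiskerLeft_zero, comp_zero]))
  (fun U => descL U f.f ((Y.2.β U).inv ≫ cokernel.π f.f ▷ U) (by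
     rw [← inv_comm_assoc, ← comp_whiskerRight, cokernel.condition,
      MonoidalPreadditive.zero_whiskerRight, comp_zero]))
  (fun U => descR_π _ _ _ _) (fun U => descL_π _ _ _ _)

/-- The projection to the cokernel. -/
noncomputable def cokπ : Y ⟶ cokObj f where
  f := cokernel.π f.f
  comm _ := descR_π _ _ _ _

theorem cokπ_comp : f ≫ cokπ f = 0 := by
  ext
  exact cokernel.condition f.f

instance : Epi (cokπ f).f := inferInstanceAs (Epi (cokernel.π f.f))

/-- The underlying morphism of the descent. -/
noncomputable def cokDescf {W : Center C} (g : Y ⟶ W) (h : f ≫ g = 0) : (cokObj f).1 ⟶ W.1 :=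
  cokernel.desc f.f g.f (congrArg Center.Hom.f h)

@[reassoc (attr := simp)]
theorem π_cokDescf {W : Center C} (g : Y ⟶ W) (h : f ≫ g = 0) :
    (cokπ f).f ≫ cokDescf f g h = g.f :=
  cokernel.π_desc _ _ _

/-- The universal property. -/
noncomputable def cokDesc {W : Center C} (g : Y ⟶ W) (h : f ≫ g = 0) : cokObj f ⟶ W where
  f := cokDescf f g h
  comm U := by
    rw [← cancel_epi ((cokπ f).f ▷ U), (cokπ f).comm_assoc, ← comp_whiskerRight_assoc,
      ← whiskerLeft_comp, π_cokDescf]
    exact g.comm U

@[reassoc (attr := simp)]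
theorem π_cokDesc {W : Center C} (g : Y ⟶ W) (h : f ≫ g = 0) :
    cokπ f ≫ cokDesc f g h = g := by
  ext
  exact π_cokDescf f g h

/-- The cokernel cofork is a colimit. -/
noncomputable def cokIsColimit : IsColimit (CokernelCofork.ofπ (cokπ f) (cokπ_comp f)) :=
  CokernelCofork.IsColimit.ofπ _ _ (fun g h => cokDesc f g h)
    (fun g h => π_cokDesc f g h)
    (fun g h m hm => by
      ext
      rw [← cancel_epi (cokπ f).f]
      have := congrArg Center.Hom.f hm
      exact this.trans (π_cokDescf f g h).symm)

instance instHasKernels : HasKernels (Center C) where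
  has_limit f := ⟨⟨_, kerIsLimit f⟩⟩

instance instHasCokernels : HasCokernels (Center C) where
  has_colimit f := ⟨⟨_, cokIsColimit f⟩⟩

/-- The image of the kernel fork is a kernel fork in `C`. -/
noncomputable def kerIsLimit' : IsLimit (KernelFork.ofι (kerι f).f (f := f.f)
    (kernel.condition f.f)) :=
  kernelIsKernel f.f

instance : PreservesLimit (parallelPair f 0) (Center.forget C) :=
  preservesLimit_of_preserves_limit_cone (kerIsLimit f)
    ((KernelFork.isLimitMapConeEquiv _ _).symm
      (IsLimit.ofIsoLimit (kerIsLimit' f) (Fork.ext (Iso.refl _) (Category.id_comp _))))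

/-- The image of the cokernel cofork is a cokernel cofork in `C`. -/
noncomputable def cokIsColimit' : IsColimit (CokernelCofork.ofπ (cokπ f).f (f := f.f)
    (cokernel.condition f.f)) :=
  cokernelIsCokernel f.f

instance : PreservesColimit (parallelPair f 0) (Center.forget C) :=
  preservesColimit_of_preserves_colimit_cocone (cokIsColimit f)
    ((CokernelCofork.isColimitMapCoconeEquiv _ _).symm
      (IsColimit.ofIsoColimit (cokIsColimit' f) (Cofork.ext (Iso.refl _) (Category.comp_id _))))

end Ker

section Bip

variable [Abelian C] [MonoidalPreadditive C]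

theorem jointL {U A X Y : C} {a b : A ⟶ U ⊗ (X ⊞ Y)}
    (h1 : a ≫ U ◁ biprod.fst = b ≫ U ◁ biprod.fst)
    (h2 : a ≫ U ◁ biprod.snd = b ≫ U ◁ biprod.snd) : a = b := by
  have e : 𝟙 (U ⊗ (X ⊞ Y)) = U ◁ (biprod.fst : X ⊞ Y ⟶ X) ≫ U ◁ biprod.inl +
      U ◁ (biprod.snd : X ⊞ Y ⟶ Y) ≫ U ◁ biprod.inr := by
    rw [← whiskerLeft_comp, ← whiskerLeft_comp, ← MonoidalPreadditive.whiskerLeft_add,
      biprod.total, whiskerLeft_id]
  rw [← Category.comp_id a, ← Category.comp_id b, e, Preadditive.comp_add, Preadditive.comp_add,
    ← Category.assoc, ← Category.assoc, ← Category.assoc, ← Category.assoc, h1, h2]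

theorem jointR {U A X Y : C} {a b : A ⟶ (X ⊞ Y) ⊗ U}
    (h1 : a ≫ biprod.fst ▷ U = b ≫ biprod.fst ▷ U)
    (h2 : a ≫ biprod.snd ▷ U = b ≫ biprod.snd ▷ U) : a = b := by
  have e : 𝟙 ((X ⊞ Y) ⊗ U) = (biprod.fst : X ⊞ Y ⟶ X) ▷ U ≫ biprod.inl ▷ U +
      (biprod.snd : X ⊞ Y ⟶ Y) ▷ U ≫ biprod.inr ▷ U := by
    rw [← comp_whiskerRight, ← comp_whiskerRight, ← MonoidalPreadditive.add_whiskerRight,
      biprod.total, id_whiskerRight]
  rw [← Category.comp_id a, ← Category.comp_id b, e, Preadditive.comp_add, Preadditive.comp_add,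
    ← Category.assoc, ← Category.assoc, ← Category.assoc, ← Category.assoc, h1, h2]

variable (X Y : Center C)

/-- The half-braiding of a biproduct. -/
noncomputable def bh (U : C) : (X.1 ⊞ Y.1) ⊗ U ⟶ U ⊗ (X.1 ⊞ Y.1) :=
  biprod.fst ▷ U ≫ (X.2.β U).hom ≫ U ◁ biprod.inl +
    biprod.snd ▷ U ≫ (Y.2.β U).hom ≫ U ◁ biprod.inr

/-- The inverse half-braiding of a biproduct. -/
noncomputable def bi (U : C) : U ⊗ (X.1 ⊞ Y.1) ⟶ (X.1 ⊞ Y.1) ⊗ U :=
  U ◁ biprod.fst ≫ (X.2.β U).inv ≫ biprod.inl ▷ U +
    U ◁ biprod.snd ≫ (Y.2.β U).inv ≫ biprod.inr ▷ U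

@[reassoc]
theorem bh_fst (U : C) : bh X Y U ≫ U ◁ biprod.fst = biprod.fst ▷ U ≫ (X.2.β U).hom := by
  rw [bh, Preadditive.add_comp, Category.assoc, Category.assoc, Category.assoc, Category.assoc,
    ← whiskerLeft_comp, ← whiskerLeft_comp, biprod.inl_fst, biprod.inr_fst]
  simp

@[reassoc]
theorem bh_snd (U : C) : bh X Y U ≫ U ◁ biprod.snd = biprod.snd ▷ U ≫ (Y.2.β U).hom := by
  rw [bh, Preadditive.add_comp, Category.assoc, Category.assoc, Category.assoc, Category.assoc,
    ← whiskerLeft_comp, ← whiskerLeft_comp, biprod.inl_snd, biprod.inr_snd]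
  simp

@[reassoc]
theorem bi_fst (U : C) : bi X Y U ≫ biprod.fst ▷ U = U ◁ biprod.fst ≫ (X.2.β U).inv := by
  rw [bi, Preadditive.add_comp, Category.assoc, Category.assoc, Category.assoc, Category.assoc,
    ← comp_whiskerRight, ← comp_whiskerRight, biprod.inl_fst, biprod.inr_fst]
  simp

@[reassoc]
theorem bi_snd (U : C) : bi X Y U ≫ biprod.snd ▷ U = U ◁ biprod.snd ≫ (Y.2.β U).inv := by
  rw [bi, Preadditive.add_comp, Category.assoc, Category.assoc, Category.assoc, Category.assoc,
    ← comp_whiskerRight, ← comp_whiskerRight, biprod.inl_snd, biprod.inr_snd]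
  simp

theorem inl_bh (U : C) : biprod.inl ▷ U ≫ bh X Y U = (X.2.β U).hom ≫ U ◁ biprod.inl := by
  rw [bh, Preadditive.comp_add, ← comp_whiskerRight_assoc, ← comp_whiskerRight_assoc,
    biprod.inl_fst, biprod.inl_snd]
  simp

theorem inr_bh (U : C) : biprod.inr ▷ U ≫ bh X Y U = (Y.2.β U).hom ≫ U ◁ biprod.inr := by
  rw [bh, Preadditive.comp_add, ← comp_whiskerRight_assoc, ← comp_whiskerRight_assoc,
    biprod.inr_fst, biprod.inr_snd]
  simp

/-- The biproduct in the centre. -/
noncomputable def bipObj : Center C :=
  ⟨X.1 ⊞ Y.1,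
    { β := fun U =>
        { hom := bh X Y U
          inv := bi X Y U
          hom_inv_id := by
            apply jointR
            · rw [Category.assoc, bi_fst, bh_fst_assoc]; simp
            · rw [Category.assoc, bi_snd, bh_snd_assoc]; simp
          inv_hom_id := by
            apply jointL
            · rw [Category.assoc, bh_fst, bi_fst_assoc]; simp
            · rw [Category.assoc, bh_snd, bi_snd_assoc]; simp }
      monoidal := fun U U' => by
        dsimp only
        apply jointL
        · rw [bh_fst, HalfBraiding.monoidal]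
          simp only [Category.assoc]
          rw [← MonoidalCategory.associator_inv_naturality_right, ← whiskerLeft_comp_assoc,
            bh_fst, whiskerLeft_comp_assoc,
            ← MonoidalCategory.associator_naturality_middle_assoc,
            ← comp_whiskerRight_assoc, bh_fst, comp_whiskerRight_assoc,
            ← MonoidalCategory.associator_inv_naturality_left_assoc]
        · rw [bh_snd, HalfBraiding.monoidal]
          simp only [Category.assoc]
          rw [← MonoidalCategory.associator_inv_naturality_right, ← whiskerLeft_comp_assoc,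
            bh_snd, whiskerLeft_comp_assoc,
            ← MonoidalCategory.associator_naturality_middle_assoc,
            ← comp_whiskerRight_assoc, bh_snd, comp_whiskerRight_assoc,
            ← MonoidalCategory.associator_inv_naturality_left_assoc]
      naturality := fun {U U'} f => by
        dsimp only
        apply jointL
        · rw [Category.assoc, bh_fst, whisker_exchange_assoc, HalfBraiding.naturality,
            Category.assoc, ← whisker_exchange, bh_fst_assoc]
        · rw [Category.assoc, bh_snd, whisker_exchange_assoc, HalfBraiding.naturality,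
            Category.assoc, ← whisker_exchange, bh_snd_assoc] }⟩

/-- The biproduct bicone in the centre. -/
noncomputable def bipBicone : BinaryBicone X Y where
  pt := bipObj X Y
  fst := { f := (biprod.fst : X.1 ⊞ Y.1 ⟶ X.1), comm := fun U => (bh_fst X Y U).symm }
  snd := { f := (biprod.snd : X.1 ⊞ Y.1 ⟶ Y.1), comm := fun U => (bh_snd X Y U).symm }
  inl := { f := (biprod.inl : X.1 ⟶ X.1 ⊞ Y.1), comm := fun U => inl_bh X Y U }
  inr := { f := (biprod.inr : Y.1 ⟶ X.1 ⊞ Y.1), comm := fun U => inr_bh X Y U }
  inl_fst := by ext; exact biprod.inl_fst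
  inl_snd := by ext; exact biprod.inl_snd
  inr_fst := by ext; exact biprod.inr_fst
  inr_snd := by ext; exact biprod.inr_snd

instance instHasBinaryBiproducts : HasBinaryBiproducts (Center C) where
  has_binary_biproduct X Y := HasBinaryBiproduct.mk
    ⟨bipBicone X Y, isBinaryBilimitOfTotal _ (by ext; exact biprod.total)⟩

/-- The zero object of the centre. -/
noncomputable def zeroObj : Center C :=
  ⟨0, { β := fun U =>
          { hom := 0
            inv := 0
            hom_inv_id := by
              have h : 𝟙 ((0 : C) ⊗ U) = 0 := by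
                rw [← id_whiskerRight, (isZero_zero C).eq_of_src (𝟙 (0 : C)) 0,
                  MonoidalPreadditive.zero_whiskerRight]
              rw [zero_comp, h]
            inv_hom_id := by
              have h : 𝟙 (U ⊗ (0 : C)) = 0 := by
                rw [← whiskerLeft_id, (isZero_zero C).eq_of_src (𝟙 (0 : C)) 0,
                  MonoidalPreadditive.whiskerLeft_zero]
              rw [zero_comp, h] }
        monoidal := fun U U' => by simp
        naturality := fun f => by simp }⟩

instance instHasZeroObject : HasZeroObject (Center C) where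
  zero := ⟨zeroObj, by
    rw [IsZero.iff_id_eq_zero]
    ext
    exact (isZero_zero C).eq_of_src _ _⟩

instance instHasFiniteProducts : HasFiniteProducts (Center C) :=
  hasFiniteProducts_of_has_binary_and_terminal

end Bip

section Ab

variable [Abelian C] [MonoidalPreadditive C] [RigidCategory C]

instance {X Y : Center C} (f : X ⟶ Y) : IsIso (Abelian.coimageImageComparison f) := by
  have := IsIso.of_isIso_fac_right (Abelian.PreservesCoimage.hom_coimageImageComparison
    (Center.forget C) f).symm
  exact isIso_of_reflects_iso _ (Center.forget C)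

noncomputable instance instAbelian : Abelian (Center C) :=
  Abelian.ofCoimageImageComparisonIsIso

noncomputable instance instPreservesFiniteLimits : PreservesFiniteLimits (Center.forget C) :=
  Functor.preservesFiniteLimits_of_preservesKernels (Center.forget C)

noncomputable instance instPreservesFiniteColimits : PreservesFiniteColimits (Center.forget C) :=
  Functor.preservesFiniteColimits_of_preservesCokernels (Center.forget C)

theorem mono_iff {X Y : Center C} (f : X ⟶ Y) : Mono f ↔ Mono f.f :=
  ⟨fun _ => inferInstanceAs (Mono ((Center.forget C).map f)),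
    fun h => (Center.forget C).mono_of_mono_map h⟩

theorem epi_iff {X Y : Center C} (f : X ⟶ Y) : Epi f ↔ Epi f.f :=
  ⟨fun _ => inferInstanceAs (Epi ((Center.forget C).map f)),
    fun h => (Center.forget C).epi_of_epi_map h⟩

end Ab

end Pool.Agent.MUG.CA
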