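import Pool.Agent.MUG.CF1
import Pool.Agent.MUG.CF2

open CategoryTheory MonoidalCategory Limits

universe v u

namespace Pool.Agent.MUG

section

variable {C : Type u} [Category.{v} C] [Abelian C] [MonoidalCategory C] [MonoidalPreadditive C]
  [RigidCategory C] [BraidedCategory C] {k : Type*} [Field k] [Linear k C] [MonoidalLinear k C]

/-- Row CF: the centre of a (braided) finite tensor category is a finite tensor category. -/
theorem center_isFinite (hC : IsFinite k C) : IsFinite k (Center C) :=
  cen_isFinite_of hC (Gen.center_enough hC.finCat)
    (Gen.center_simples hC.finCat (cen_artinian hC) (cen_noetherian hC))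

end

end Pool.Agent.MUG
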