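import Pool.Agent.MUG.CA

open CategoryTheory MonoidalCategory Limits Abelian

universe w v u

namespace Pool.Agent.MUG.CA

variable {C : Type u} [Category.{v} C] [MonoidalCategory C]

section Pre

variable [Preadditive C] [MonoidalPreadditive C]

instance instMonoidalPreadditive : MonoidalPreadditive (Center C) where
  whiskerLeft_zero := by
    intro X Y Z
    ext
    exact MonoidalPreadditive.whiskerLeft_zero
  zero_whiskerRight := by
    intro X Y Z
    ext
    exact MonoidalPreadditive.zero_whiskerRight
  whiskerLeft_add := by
    intro X Y Z f g
    ext
    exact MonoidalPreadditive.whiskerLeft_add _ _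
  add_whiskerRight := by
    intro X Y Z f g
    ext
    exact MonoidalPreadditive.add_whiskerRight _ _

end Pre

section Lin

variable {k : Type*} [Field k] [Preadditive C] [Linear k C] [MonoidalPreadditive C]
  [MonoidalLinear k C]

instance instMonoidalLinear : MonoidalLinear k (Center C) where
  whiskerLeft_smul := by
    intro X Y Z r f
    ext
    exact MonoidalLinear.whiskerLeft_smul _ _ _
  smul_whiskerRight := by
    intro r Y Z f X
    ext
    exact MonoidalLinear.smul_whiskerRight _ _ _

end Lin

end Pool.Agent.MUG.CA
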