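import Pool.Agent.MUG.CenKer

/-! The Drinfeld center of an abelian rigid monoidal category is abelian (helper27). -/

open CategoryTheory MonoidalCategory Limits Abelian

universe w w' v v' u u'

namespace Pool.Agent.MUG

set_option linter.unusedSectionVars false
set_option backward.isDefEq.respectTransparency.types false

noncomputable section

section Ab

variable {C : Type u} [Category.{v} C] [Abelian C] [MonoidalCategory C] [MonoidalPreadditive C]
  [RigidCategory C]

/-- The center has kernels. -/
instance cenKernels : HasKernels (Center C) := cenHasKernels

/-- The center has cokernels. -/
instance cenCokernels : HasCokernels (Center C) := cenHasCokernels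

/-- The center has finite products. -/
instance cenFiniteProducts : HasFiniteProducts (Center C) := cenHasFiniteProducts

/-- Coimages are images in the center. -/
instance cenCoimage {X Y : Center C} (f : X ⟶ Y) : IsIso (Abelian.coimageImageComparison f) :=
  cenCoim f

instance cenAbelian : Abelian (Center C) := Abelian.ofCoimageImageComparisonIsIso

end Ab

end

end Pool.Agent.MUG
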