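import Pool.Agent.MUG.Defs

/-! Row CR: the Drinfeld center of a rigid monoidal category is rigid (helper27). -/

open CategoryTheory MonoidalCategory

universe w w' v v' u u'

namespace Pool.Agent.MUG

set_option linter.unusedSectionVars false
set_option backward.isDefEq.respectTransparency.types false

noncomputable section

section Lax

variable {C : Type u} [Category.{v} C] [MonoidalCategory C] [RigidCategory C]

/-- The inverse of a lax half-braiding. -/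
def laxInv {M : C} (δ : ∀ U, M ⊗ U ⟶ U ⊗ M) (U : C) : U ⊗ M ⟶ M ⊗ U :=
  𝟙 _ ⊗≫ (U ⊗ M) ◁ η_ (ᘁU) U ⊗≫ U ◁ δ (ᘁU) ▷ U ⊗≫ ε_ (ᘁU) U ▷ (M ⊗ U) ⊗≫ 𝟙 _

end Lax

section Dual

variable {C : Type u} [Category.{v} C] [MonoidalCategory C]
  (X : Center C) (Y : C) [ExactPairing X.1 Y]

def dualH (U : C) : U ⟶ X.1 ⊗ (U ⊗ Y) :=
  (ρ_ U).inv ≫ U ◁ η_ X.1 Y ≫ (α_ _ _ _).inv ≫ (X.2.β U).inv ▷ Y ≫ (α_ _ _ _).hom

/-- The half-braiding on the right dual. -/
def dualB (U : C) : Y ⊗ U ⟶ U ⊗ Y := (tensorLeftHomEquiv U X.1 Y (U ⊗ Y)).symm (dualH X Y U)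

end Dual

end

end Pool.Agent.MUG
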