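import Pool.Agent.MUG.CenAb
import Pool.Agent.MUG.CenDualDefs

/-! Row CR: the Drinfeld center of a rigid monoidal category is rigid (helper27). -/

open CategoryTheory MonoidalCategory

universe w w' v v' u u'

namespace Pool.Agent.MUG

set_option linter.unusedSectionVars false
set_option backward.isDefEq.respectTransparency.types false

noncomputable section

section Lax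

variable {C : Type u} [Category.{v} C] [MonoidalCategory C] [RigidCategory C]

theorem lax_hom_inv {M : C} (δ : ∀ U, M ⊗ U ⟶ U ⊗ M)
    (nat : ∀ {U V : C} (f : U ⟶ V), M ◁ f ≫ δ V = δ U ≫ f ▷ M)
    (mon : ∀ U V, δ (U ⊗ V) =
      (α_ _ _ _).inv ≫ (δ U ▷ V) ≫ (α_ _ _ _).hom ≫ (U ◁ δ V) ≫ (α_ _ _ _).inv)
    (unit : δ (𝟙_ C) = (ρ_ M).hom ≫ (λ_ M).inv) (U : C) : δ U ≫ laxInv δ U = 𝟙 _ := by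
  calc δ U ≫ laxInv δ U
      = 𝟙 _ ⊗≫ (δ U ▷ (𝟙_ C) ≫ (U ⊗ M) ◁ η_ (ᘁU) U) ⊗≫ U ◁ δ (ᘁU) ▷ U ⊗≫
          ε_ (ᘁU) U ▷ (M ⊗ U) ⊗≫ 𝟙 _ := by
        rw [laxInv]; monoidal
    _ = 𝟙 _ ⊗≫ M ◁ U ◁ η_ (ᘁU) U ⊗≫ ((α_ _ _ _).inv ≫ (δ U ▷ (ᘁU)) ≫ (α_ _ _ _).hom ≫
          (U ◁ δ (ᘁU)) ≫ (α_ _ _ _).inv) ▷ U ⊗≫ ε_ (ᘁU) U ▷ (M ⊗ U) ⊗≫ 𝟙 _ := by
        rw [← whisker_exchange]; monoidal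
    _ = 𝟙 _ ⊗≫ M ◁ U ◁ η_ (ᘁU) U ⊗≫ (δ (U ⊗ ᘁU) ≫ ε_ (ᘁU) U ▷ M) ▷ U ⊗≫ 𝟙 _ := by
        rw [← mon]; monoidal
    _ = 𝟙 _ ⊗≫ M ◁ (U ◁ η_ (ᘁU) U ≫ (α_ _ _ _).inv ≫ ε_ (ᘁU) U ▷ U) ⊗≫
          (δ (𝟙_ C)) ▷ U ⊗≫ 𝟙 _ := by
        rw [← nat]; monoidal
    _ = 𝟙 _ := by
        rw [ExactPairing.coevaluation_evaluation, unit]; monoidal

theorem lax_inv_hom {M : C} (δ : ∀ U, M ⊗ U ⟶ U ⊗ M)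
    (nat : ∀ {U V : C} (f : U ⟶ V), M ◁ f ≫ δ V = δ U ≫ f ▷ M)
    (mon : ∀ U V, δ (U ⊗ V) =
      (α_ _ _ _).inv ≫ (δ U ▷ V) ≫ (α_ _ _ _).hom ≫ (U ◁ δ V) ≫ (α_ _ _ _).inv)
    (unit : δ (𝟙_ C) = (ρ_ M).hom ≫ (λ_ M).inv) (U : C) : laxInv δ U ≫ δ U = 𝟙 _ := by
  calc laxInv δ U ≫ δ U
      = 𝟙 _ ⊗≫ (U ⊗ M) ◁ η_ (ᘁU) U ⊗≫ U ◁ δ (ᘁU) ▷ U ⊗≫
          (ε_ (ᘁU) U ▷ (M ⊗ U) ≫ (𝟙_ C) ◁ δ U) ⊗≫ 𝟙 _ := by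
        rw [laxInv]; monoidal
    _ = 𝟙 _ ⊗≫ U ◁ M ◁ η_ (ᘁU) U ⊗≫ U ◁ ((α_ _ _ _).inv ≫ (δ (ᘁU) ▷ U) ≫ (α_ _ _ _).hom ≫
          ((ᘁU) ◁ δ U) ≫ (α_ _ _ _).inv) ⊗≫ ε_ (ᘁU) U ▷ (U ⊗ M) ⊗≫ 𝟙 _ := by
        rw [← whisker_exchange]; monoidal
    _ = 𝟙 _ ⊗≫ U ◁ (M ◁ η_ (ᘁU) U ≫ δ ((ᘁU) ⊗ U)) ⊗≫ ε_ (ᘁU) U ▷ (U ⊗ M) ⊗≫ 𝟙 _ := by
        rw [← mon]; monoidal
    _ = 𝟙 _ ⊗≫ U ◁ δ (𝟙_ C) ⊗≫ (U ◁ η_ (ᘁU) U ≫ (α_ _ _ _).inv ≫ ε_ (ᘁU) U ▷ U) ▷ M ⊗≫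
          𝟙 _ := by
        rw [nat]; monoidal
    _ = 𝟙 _ := by
        rw [ExactPairing.coevaluation_evaluation, unit]; monoidal

end Lax

section Dual

variable {C : Type u} [Category.{v} C] [MonoidalCategory C]

/-- The unit component of a half-braiding. -/
theorem hb_unit (X : Center C) : (X.2.β (𝟙_ C)).hom = (ρ_ X.1).hom ≫ (λ_ X.1).inv := by
  have h := braiding_leftUnitor X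
  have h1 := congrArg Center.Hom.f h
  have h2 : (X.2.β (𝟙_ C)).hom ≫ (λ_ X.1).hom = (ρ_ X.1).hom := h1
  rw [← h2, Category.assoc, Iso.hom_inv_id, Category.comp_id]

theorem hb_unit_inv (X : Center C) : (X.2.β (𝟙_ C)).inv = (λ_ X.1).hom ≫ (ρ_ X.1).inv := by
  rw [← cancel_epi (X.2.β (𝟙_ C)).hom, Iso.hom_inv_id, hb_unit]
  simp

variable (X : Center C) (Y : C) [ExactPairing X.1 Y]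

theorem dual_key (U : C) :
    (λ_ U).inv ≫ η_ X.1 Y ▷ U ≫ (α_ _ _ _).hom ≫ X.1 ◁ dualB X Y U = dualH X Y U :=
  (tensorLeftHomEquiv U X.1 Y (U ⊗ Y)).apply_symm_apply (dualH X Y U)

theorem dual_inj {A B : C} {f g : Y ⊗ A ⟶ B}
    (h : (λ_ A).inv ≫ η_ X.1 Y ▷ A ≫ (α_ _ _ _).hom ≫ X.1 ◁ f =
      (λ_ A).inv ≫ η_ X.1 Y ▷ A ≫ (α_ _ _ _).hom ≫ X.1 ◁ g) : f = g :=
  (tensorLeftHomEquiv A X.1 Y B).injective h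

theorem cen_inv_nat {U V : C} (f : U ⟶ V) :
    f ▷ X.1 ≫ (X.2.β V).inv = (X.2.β U).inv ≫ X.1 ◁ f := by
  rw [Iso.comp_inv_eq, Category.assoc, X.2.naturality, Iso.inv_hom_id_assoc]

theorem cen_inv_mon (U V : C) : (X.2.β (U ⊗ V)).inv =
    (α_ _ _ _).hom ≫ U ◁ (X.2.β V).inv ≫ (α_ _ _ _).inv ≫ (X.2.β U).inv ▷ V ≫
      (α_ _ _ _).hom := by
  rw [← cancel_epi (X.2.β (U ⊗ V)).hom, Iso.hom_inv_id, X.2.monoidal U V]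
  simp

theorem dual_nat {U V : C} (f : U ⟶ V) : Y ◁ f ≫ dualB X Y V = dualB X Y U ≫ f ▷ Y := by
  apply dual_inj X Y
  calc (λ_ U).inv ≫ η_ X.1 Y ▷ U ≫ (α_ _ _ _).hom ≫ X.1 ◁ (Y ◁ f ≫ dualB X Y V)
      = 𝟙 _ ⊗≫ (η_ X.1 Y ▷ U ≫ (X.1 ⊗ Y) ◁ f) ⊗≫ X.1 ◁ dualB X Y V := by monoidal
    _ = f ≫ ((λ_ V).inv ≫ η_ X.1 Y ▷ V ≫ (α_ _ _ _).hom ≫ X.1 ◁ dualB X Y V) := by
        rw [← whisker_exchange]; monoidal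
    _ = 𝟙 _ ⊗≫ (f ▷ (𝟙_ C) ≫ V ◁ η_ X.1 Y) ⊗≫ (X.2.β V).inv ▷ Y ⊗≫ 𝟙 _ := by
        rw [dual_key, dualH]; monoidal
    _ = 𝟙 _ ⊗≫ U ◁ η_ X.1 Y ⊗≫ (f ▷ X.1 ≫ (X.2.β V).inv) ▷ Y ⊗≫ 𝟙 _ := by
        rw [← whisker_exchange]; monoidal
    _ = dualH X Y U ≫ X.1 ◁ (f ▷ Y) := by
        rw [cen_inv_nat, dualH]; monoidal
    _ = _ := by rw [← dual_key]; monoidal

theorem dual_mon (U V : C) : dualB X Y (U ⊗ V) =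
    (α_ _ _ _).inv ≫ (dualB X Y U ▷ V) ≫ (α_ _ _ _).hom ≫ (U ◁ dualB X Y V) ≫
      (α_ _ _ _).inv := by
  apply dual_inj X Y
  rw [dual_key]
  symm
  calc (λ_ (U ⊗ V)).inv ≫ η_ X.1 Y ▷ (U ⊗ V) ≫ (α_ _ _ _).hom ≫ X.1 ◁
          ((α_ _ _ _).inv ≫ (dualB X Y U ▷ V) ≫ (α_ _ _ _).hom ≫ (U ◁ dualB X Y V) ≫
            (α_ _ _ _).inv)
      = 𝟙 _ ⊗≫ ((λ_ U).inv ≫ η_ X.1 Y ▷ U ≫ (α_ _ _ _).hom ≫ X.1 ◁ dualB X Y U) ▷ V ⊗≫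
          (X.1 ⊗ U) ◁ dualB X Y V ⊗≫ 𝟙 _ := by monoidal
    _ = 𝟙 _ ⊗≫ U ◁ η_ X.1 Y ▷ V ⊗≫ ((X.2.β U).inv ▷ (Y ⊗ V) ≫
          (X.1 ⊗ U) ◁ dualB X Y V) ⊗≫ 𝟙 _ := by
        rw [dual_key, dualH]; monoidal
    _ = 𝟙 _ ⊗≫ U ◁ ((λ_ V).inv ≫ η_ X.1 Y ▷ V ≫ (α_ _ _ _).hom ≫ X.1 ◁ dualB X Y V) ⊗≫
          (X.2.β U).inv ▷ (V ⊗ Y) ⊗≫ 𝟙 _ := by
        rw [← whisker_exchange]; monoidal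
    _ = 𝟙 _ ⊗≫ (U ⊗ V) ◁ η_ X.1 Y ⊗≫ ((α_ _ _ _).hom ≫ U ◁ (X.2.β V).inv ≫ (α_ _ _ _).inv ≫
          (X.2.β U).inv ▷ V ≫ (α_ _ _ _).hom) ▷ Y ⊗≫ 𝟙 _ := by
        rw [dual_key, dualH]; monoidal
    _ = dualH X Y (U ⊗ V) := by rw [← cen_inv_mon, dualH]; monoidal

theorem dual_unit : dualB X Y (𝟙_ C) = (ρ_ Y).hom ≫ (λ_ Y).inv := by
  apply dual_inj X Y
  rw [dual_key, dualH, hb_unit_inv]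
  calc (ρ_ (𝟙_ C)).inv ≫ (𝟙_ C) ◁ η_ X.1 Y ≫ (α_ _ _ _).inv ≫
          ((λ_ X.1).hom ≫ (ρ_ X.1).inv) ▷ Y ≫ (α_ _ _ _).hom
      = (ρ_ (𝟙_ C)).inv ⊗≫ (𝟙_ C) ◁ η_ X.1 Y ⊗≫ 𝟙 _ := by monoidal
    _ = _ := by monoidal

/-- `ε` is compatible with the half-braidings. -/
theorem dual_ev (U : C) : (α_ _ _ _).inv ≫ dualB X Y U ▷ X.1 ≫ (α_ _ _ _).hom ≫
      U ◁ ε_ X.1 Y =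
    Y ◁ (X.2.β U).inv ≫ (α_ _ _ _).inv ≫ ε_ X.1 Y ▷ U ≫ (λ_ U).hom ≫ (ρ_ U).inv := by
  apply dual_inj X Y
  calc (λ_ (U ⊗ X.1)).inv ≫ η_ X.1 Y ▷ (U ⊗ X.1) ≫ (α_ _ _ _).hom ≫ X.1 ◁
          ((α_ _ _ _).inv ≫ dualB X Y U ▷ X.1 ≫ (α_ _ _ _).hom ≫ U ◁ ε_ X.1 Y)
      = 𝟙 _ ⊗≫ ((λ_ U).inv ≫ η_ X.1 Y ▷ U ≫ (α_ _ _ _).hom ≫ X.1 ◁ dualB X Y U) ▷ X.1 ⊗≫
          (X.1 ⊗ U) ◁ ε_ X.1 Y ⊗≫ 𝟙 _ := by monoidal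
    _ = 𝟙 _ ⊗≫ U ◁ η_ X.1 Y ▷ X.1 ⊗≫ ((X.2.β U).inv ▷ (Y ⊗ X.1) ≫
          (X.1 ⊗ U) ◁ ε_ X.1 Y) ⊗≫ 𝟙 _ := by
        rw [dual_key, dualH]; monoidal
    _ = 𝟙 _ ⊗≫ U ◁ (η_ X.1 Y ▷ X.1 ≫ (α_ _ _ _).hom ≫ X.1 ◁ ε_ X.1 Y) ⊗≫
          (X.2.β U).inv ⊗≫ 𝟙 _ := by
        rw [← whisker_exchange]; monoidal
    _ = 𝟙 _ ⊗≫ (X.2.β U).inv ⊗≫ 𝟙 _ := by
        rw [ExactPairing.evaluation_coevaluation]; monoidal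
    _ = 𝟙 _ ⊗≫ (X.2.β U).inv ⊗≫ (η_ X.1 Y ▷ X.1 ≫ (α_ _ _ _).hom ≫ X.1 ◁ ε_ X.1 Y) ▷ U ⊗≫
          𝟙 _ := by
        rw [ExactPairing.evaluation_coevaluation]; monoidal
    _ = 𝟙 _ ⊗≫ (𝟙_ C ◁ (X.2.β U).inv ≫ η_ X.1 Y ▷ (X.1 ⊗ U)) ⊗≫
          X.1 ◁ ε_ X.1 Y ▷ U ⊗≫ 𝟙 _ := by monoidal
    _ = _ := by rw [whisker_exchange]; monoidal

/-- `η` is compatible with the half-braidings. -/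
theorem dual_coev (U : C) : η_ X.1 Y ▷ U ≫ (α_ _ _ _).hom ≫ X.1 ◁ dualB X Y U ≫
      (α_ _ _ _).inv ≫ (X.2.β U).hom ▷ Y ≫ (α_ _ _ _).hom =
    (λ_ U).hom ≫ (ρ_ U).inv ≫ U ◁ η_ X.1 Y := by
  have h := dual_key X Y U
  rw [Iso.inv_comp_eq] at h
  calc η_ X.1 Y ▷ U ≫ (α_ _ _ _).hom ≫ X.1 ◁ dualB X Y U ≫
          (α_ _ _ _).inv ≫ (X.2.β U).hom ▷ Y ≫ (α_ _ _ _).hom
      = (η_ X.1 Y ▷ U ≫ (α_ _ _ _).hom ≫ X.1 ◁ dualB X Y U) ≫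
          (α_ _ _ _).inv ≫ (X.2.β U).hom ▷ Y ≫ (α_ _ _ _).hom := by
        simp only [Category.assoc]
    _ = _ := by
        rw [h, dualH]
        simp

end Dual

end

end Pool.Agent.MUG
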