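import Pool.Agent.MUG.CenPre

/-! The Drinfeld center of an abelian rigid monoidal category has kernels and cokernels (helper27). -/

open CategoryTheory MonoidalCategory Limits Abelian

universe w w' v v' u u'

namespace Pool.Agent.MUG

set_option linter.unusedSectionVars false
set_option backward.isDefEq.respectTransparency.types false

noncomputable section

section Ab

variable {C : Type u} [Category.{v} C] [Abelian C] [MonoidalCategory C] [MonoidalPreadditive C]
  [RigidCategory C]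

instance monoWL (X : C) {Y Z : C} (f : Y ⟶ Z) [Mono f] : Mono (X ◁ f) :=
  inferInstanceAs (Mono ((tensorLeft X).map f))

instance monoWR (X : C) {Y Z : C} (f : Y ⟶ Z) [Mono f] : Mono (f ▷ X) :=
  inferInstanceAs (Mono ((tensorRight X).map f))

instance epiWL (X : C) {Y Z : C} (f : Y ⟶ Z) [Epi f] : Epi (X ◁ f) :=
  inferInstanceAs (Epi ((tensorLeft X).map f))

instance epiWR (X : C) {Y Z : C} (f : Y ⟶ Z) [Epi f] : Epi (f ▷ X) :=
  inferInstanceAs (Epi ((tensorRight X).map f))

theorem cen_mon_aux {X : Center C} {K : C} (i : K ⟶ X.1) (b : ∀ U, K ⊗ U ⟶ U ⊗ K)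
    (hb : ∀ U, b U ≫ U ◁ i = i ▷ U ≫ (X.2.β U).hom) (U U' : C) :
    ((α_ _ _ _).inv ≫ (b U ▷ U') ≫ (α_ _ _ _).hom ≫ (U ◁ b U') ≫ (α_ _ _ _).inv) ≫
      (U ⊗ U') ◁ i = i ▷ (U ⊗ U') ≫ (X.2.β (U ⊗ U')).hom := by
  rw [X.2.monoidal]
  simp only [Category.assoc, MonoidalCategory.tensor_whiskerLeft, Iso.inv_hom_id_assoc]
  rw [← MonoidalCategory.whiskerLeft_comp_assoc, hb,
    MonoidalCategory.whiskerLeft_comp_assoc, ← MonoidalCategory.associator_naturality_middle_assoc,
    ← MonoidalCategory.comp_whiskerRight_assoc, hb, MonoidalCategory.comp_whiskerRight_assoc]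
  simp

theorem cen_nat_aux {X : Center C} {K : C} (i : K ⟶ X.1) (b : ∀ U, K ⊗ U ⟶ U ⊗ K)
    (hb : ∀ U, b U ≫ U ◁ i = i ▷ U ≫ (X.2.β U).hom) {U U' : C} (f : U ⟶ U') :
    (K ◁ f ≫ b U') ≫ U' ◁ i = (b U ≫ f ▷ K) ≫ U' ◁ i := by
  have e1 : K ◁ f ≫ i ▷ U' = i ▷ U ≫ X.1 ◁ f := whisker_exchange i f
  have e2 : U ◁ i ≫ f ▷ X.1 = f ▷ K ≫ U' ◁ i := whisker_exchange f i
  calc (K ◁ f ≫ b U') ≫ U' ◁ i = K ◁ f ≫ (b U' ≫ U' ◁ i) := Category.assoc _ _ _
    _ = K ◁ f ≫ i ▷ U' ≫ (X.2.β U').hom := by rw [hb]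
    _ = (K ◁ f ≫ i ▷ U') ≫ (X.2.β U').hom := (Category.assoc _ _ _).symm
    _ = i ▷ U ≫ X.1 ◁ f ≫ (X.2.β U').hom := by rw [e1, Category.assoc]
    _ = i ▷ U ≫ (X.2.β U).hom ≫ f ▷ X.1 := by rw [X.2.naturality]
    _ = (i ▷ U ≫ (X.2.β U).hom) ≫ f ▷ X.1 := (Category.assoc _ _ _).symm
    _ = b U ≫ U ◁ i ≫ f ▷ X.1 := by rw [← hb, Category.assoc]
    _ = (b U ≫ f ▷ K) ≫ U' ◁ i := by rw [e2, Category.assoc]

/-- A subobject of the underlying object which is stable under the half-braiding and its inverse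
is an object of the center. -/
def cenOfMono {X : Center C} {K : C} (i : K ⟶ X.1) [Mono i]
    (b : ∀ U, K ⊗ U ⟶ U ⊗ K) (b' : ∀ U, U ⊗ K ⟶ K ⊗ U)
    (hb : ∀ U, b U ≫ U ◁ i = i ▷ U ≫ (X.2.β U).hom)
    (hb' : ∀ U, b' U ≫ i ▷ U = U ◁ i ≫ (X.2.β U).inv) : Center C :=
  ⟨K, { β := fun U => ⟨b U, b' U,
          by rw [← cancel_mono (i ▷ U), Category.assoc, hb', ← Category.assoc, hb,
            Category.assoc, Iso.hom_inv_id, Category.comp_id, Category.id_comp],
          by rw [← cancel_mono (U ◁ i), Category.assoc, hb, ← Category.assoc, hb',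
            Category.assoc, Iso.inv_hom_id, Category.comp_id, Category.id_comp]⟩
        monoidal := fun U U' => by
          rw [← cancel_mono ((U ⊗ U') ◁ i)]
          exact (hb (U ⊗ U')).trans (cen_mon_aux i b hb U U').symm
        naturality := fun {U U'} f => by
          rw [← cancel_mono (U' ◁ i)]
          exact cen_nat_aux i b hb f } ⟩

/-- A quotient of the underlying object which is compatible with the half-braiding and its
inverse is an object of the center. -/
def cenOfEpi {X : Center C} {Q : C} (p : X.1 ⟶ Q) [Epi p]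
    (b : ∀ U, Q ⊗ U ⟶ U ⊗ Q) (b' : ∀ U, U ⊗ Q ⟶ Q ⊗ U)
    (hb : ∀ U, p ▷ U ≫ b U = (X.2.β U).hom ≫ U ◁ p)
    (hb' : ∀ U, U ◁ p ≫ b' U = (X.2.β U).inv ≫ p ▷ U) : Center C :=
  ⟨Q, { β := fun U => ⟨b U, b' U,
          by rw [← cancel_epi (p ▷ U), ← Category.assoc, hb, Category.assoc, hb',
            ← Category.assoc, Iso.hom_inv_id, Category.id_comp, Category.comp_id],
          by rw [← cancel_epi (U ◁ p), ← Category.assoc, hb', Category.assoc, hb,
            ← Category.assoc, Iso.inv_hom_id, Category.id_comp, Category.comp_id]⟩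
        monoidal := fun U U' => by
          rw [← cancel_epi (p ▷ (U ⊗ U'))]
          change _ ≫ b (U ⊗ U') = _ ≫ ((α_ _ _ _).inv ≫ (b U ▷ U') ≫ (α_ _ _ _).hom ≫
            (U ◁ b U') ≫ (α_ _ _ _).inv)
          rw [hb, X.2.monoidal]
          simp only [Category.assoc, MonoidalCategory.whiskerRight_tensor]
          simp only [Iso.hom_inv_id_assoc]
          rw [← MonoidalCategory.comp_whiskerRight_assoc, hb,
            MonoidalCategory.comp_whiskerRight_assoc, MonoidalCategory.associator_naturality_middle_assoc,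
            ← MonoidalCategory.whiskerLeft_comp_assoc, hb, MonoidalCategory.whiskerLeft_comp_assoc]
          simp
        naturality := fun {U U'} f => by
          rw [← cancel_epi (p ▷ U)]
          change p ▷ U ≫ (Q ◁ f ≫ b U') = p ▷ U ≫ (b U ≫ f ▷ Q)
          have e1 : X.1 ◁ f ≫ p ▷ U' = p ▷ U ≫ Q ◁ f := whisker_exchange p f
          have e2 : U ◁ p ≫ f ▷ Q = f ▷ X.1 ≫ U' ◁ p := whisker_exchange f p
          calc p ▷ U ≫ (Q ◁ f ≫ b U') = (p ▷ U ≫ Q ◁ f) ≫ b U' := (Category.assoc _ _ _).symm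
            _ = X.1 ◁ f ≫ p ▷ U' ≫ b U' := by rw [← e1, Category.assoc]
            _ = X.1 ◁ f ≫ (X.2.β U').hom ≫ U' ◁ p := by rw [hb]
            _ = (X.1 ◁ f ≫ (X.2.β U').hom) ≫ U' ◁ p := (Category.assoc _ _ _).symm
            _ = (X.2.β U).hom ≫ f ▷ X.1 ≫ U' ◁ p := by rw [X.2.naturality, Category.assoc]
            _ = (X.2.β U).hom ≫ U ◁ p ≫ f ▷ Q := by rw [e2]
            _ = ((X.2.β U).hom ≫ U ◁ p) ≫ f ▷ Q := (Category.assoc _ _ _).symm
            _ = p ▷ U ≫ (b U ≫ f ▷ Q) := by rw [← hb, Category.assoc] } ⟩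

theorem cenMono_comm {W X : Center C} {K : C} (i : K ⟶ X.1) [Mono i]
    (b : ∀ U, K ⊗ U ⟶ U ⊗ K) (hb : ∀ U, b U ≫ U ◁ i = i ▷ U ≫ (X.2.β U).hom)
    (g : W.1 ⟶ X.1) (hg : ∀ U, g ▷ U ≫ (X.2.β U).hom = (W.2.β U).hom ≫ U ◁ g)
    (l : W.1 ⟶ K) (hl : l ≫ i = g) (U : C) :
    l ▷ U ≫ b U = (W.2.β U).hom ≫ U ◁ l := by
  rw [← cancel_mono (U ◁ i), Category.assoc, hb, ← comp_whiskerRight_assoc, hl, hg,
    Category.assoc, ← MonoidalCategory.whiskerLeft_comp, hl]

theorem cenEpi_comm {W X : Center C} {Q : C} (p : X.1 ⟶ Q) [Epi p]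
    (b : ∀ U, Q ⊗ U ⟶ U ⊗ Q) (hb : ∀ U, p ▷ U ≫ b U = (X.2.β U).hom ≫ U ◁ p)
    (g : X.1 ⟶ W.1) (hg : ∀ U, g ▷ U ≫ (W.2.β U).hom = (X.2.β U).hom ≫ U ◁ g)
    (l : Q ⟶ W.1) (hl : p ≫ l = g) (U : C) :
    l ▷ U ≫ (W.2.β U).hom = b U ≫ U ◁ l := by
  rw [← cancel_epi (p ▷ U), ← comp_whiskerRight_assoc, hl, hg, ← Category.assoc (p ▷ U), hb,
    Category.assoc, ← MonoidalCategory.whiskerLeft_comp, hl]

/-- Exactness of the kernel sequence after tensoring. -/
theorem exL {X Y : C} (f : X ⟶ Y) (U : C) :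
    ((ShortComplex.mk (kernel.ι f) f (kernel.condition f)).map (tensorLeft U)).Exact :=
  (ShortComplex.exact_kernel f).map (tensorLeft U)

theorem exR {X Y : C} (f : X ⟶ Y) (U : C) :
    ((ShortComplex.mk (kernel.ι f) f (kernel.condition f)).map (tensorRight U)).Exact :=
  (ShortComplex.exact_kernel f).map (tensorRight U)

theorem exL' {X Y : C} (f : X ⟶ Y) (U : C) :
    ((ShortComplex.mk f (cokernel.π f) (cokernel.condition f)).map (tensorLeft U)).Exact :=
  (ShortComplex.exact_cokernel f).map (tensorLeft U)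

theorem exR' {X Y : C} (f : X ⟶ Y) (U : C) :
    ((ShortComplex.mk f (cokernel.π f) (cokernel.condition f)).map (tensorRight U)).Exact :=
  (ShortComplex.exact_cokernel f).map (tensorRight U)

variable {X Y : Center C} (f : X ⟶ Y)

theorem cen_comm_inv (U : C) : U ◁ f.f ≫ (Y.2.β U).inv = (X.2.β U).inv ≫ f.f ▷ U := by
  rw [Iso.comp_inv_eq, Category.assoc, f.comm, ← Category.assoc, Iso.inv_hom_id,
    Category.id_comp]

theorem cen_ker_aux (U : C) : (kernel.ι f.f ▷ U ≫ (X.2.β U).hom) ≫ U ◁ f.f = 0 := by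
  rw [Category.assoc, ← f.comm, ← comp_whiskerRight_assoc, kernel.condition,
    MonoidalPreadditive.zero_whiskerRight, zero_comp]

theorem cen_ker_aux' (U : C) : (U ◁ kernel.ι f.f ≫ (X.2.β U).inv) ≫ f.f ▷ U = 0 := by
  rw [Category.assoc, ← cen_comm_inv, ← MonoidalCategory.whiskerLeft_comp_assoc,
    kernel.condition, MonoidalPreadditive.whiskerLeft_zero, zero_comp]

theorem cen_coker_aux (U : C) :
    f.f ▷ U ≫ ((Y.2.β U).hom ≫ U ◁ cokernel.π f.f) = 0 := by
  rw [← Category.assoc, f.comm, Category.assoc, ← MonoidalCategory.whiskerLeft_comp,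
    cokernel.condition, MonoidalPreadditive.whiskerLeft_zero, comp_zero]

theorem cen_coker_aux' (U : C) :
    U ◁ f.f ≫ ((Y.2.β U).inv ≫ cokernel.π f.f ▷ U) = 0 := by
  rw [← Category.assoc, cen_comm_inv, Category.assoc, ← comp_whiskerRight,
    cokernel.condition, MonoidalPreadditive.zero_whiskerRight, comp_zero]

instance monoKL (U : C) {X Y : C} (f : X ⟶ Y) :
    Mono ((ShortComplex.mk (kernel.ι f) f (kernel.condition f)).map (tensorLeft U)).f :=
  monoWL U (kernel.ι f)

instance monoKR (U : C) {X Y : C} (f : X ⟶ Y) :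
    Mono ((ShortComplex.mk (kernel.ι f) f (kernel.condition f)).map (tensorRight U)).f :=
  monoWR U (kernel.ι f)

instance epiKL (U : C) {X Y : C} (f : X ⟶ Y) :
    Epi ((ShortComplex.mk f (cokernel.π f) (cokernel.condition f)).map (tensorLeft U)).g :=
  epiWL U (cokernel.π f)

instance epiKR (U : C) {X Y : C} (f : X ⟶ Y) :
    Epi ((ShortComplex.mk f (cokernel.π f) (cokernel.condition f)).map (tensorRight U)).g :=
  epiWR U (cokernel.π f)

/-- The kernel in the center. -/
def cenKer : Center C :=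
  cenOfMono (X := X) (kernel.ι f.f) (fun U => (exL f.f U).lift _ (cen_ker_aux f U))
    (fun U => (exR f.f U).lift _ (cen_ker_aux' f U))
    (fun U => (exL f.f U).lift_f _ (cen_ker_aux f U))
    (fun U => (exR f.f U).lift_f _ (cen_ker_aux' f U))

def cenKerι : cenKer f ⟶ X := ⟨kernel.ι f.f, fun U =>
  ((exL f.f U).lift_f _ (cen_ker_aux f U)).symm⟩

theorem cenKerι_comp : cenKerι f ≫ f = 0 := Center.ext _ _ (kernel.condition f.f)

def cenKerLift {W : Center C} (g : W ⟶ X) (hg : g ≫ f = 0) : W ⟶ cenKer f :=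
  ⟨kernel.lift f.f g.f (congrArg Center.Hom.f hg),
    cenMono_comm (kernel.ι f.f) _ (fun U => (exL f.f U).lift_f _ (cen_ker_aux f U)) g.f g.comm
      _ (kernel.lift_ι _ _ _)⟩

def cenKerIsLimit : IsLimit (KernelFork.ofι (cenKerι f) (cenKerι_comp f)) :=
  KernelFork.IsLimit.ofι _ _ (fun g hg => cenKerLift f g hg)
    (fun g hg => Center.ext _ _ (kernel.lift_ι _ _ _))
    (fun g hg m hm => Center.ext _ _ ((cancel_mono (kernel.ι f.f)).1
      ((congrArg Center.Hom.f hm).trans (kernel.lift_ι _ _ _).symm)))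

instance cenHasKernels : HasKernels (Center C) :=
  ⟨fun f => ⟨⟨⟨_, cenKerIsLimit f⟩⟩⟩⟩

/-- The cokernel in the center. -/
def cenCoker : Center C :=
  cenOfEpi (X := Y) (cokernel.π f.f) (fun U => (exR' f.f U).desc _ (cen_coker_aux f U))
    (fun U => (exL' f.f U).desc _ (cen_coker_aux' f U))
    (fun U => (exR' f.f U).g_desc _ (cen_coker_aux f U))
    (fun U => (exL' f.f U).g_desc _ (cen_coker_aux' f U))

def cenCokerπ : Y ⟶ cenCoker f := ⟨cokernel.π f.f, fun U =>
  (exR' f.f U).g_desc _ (cen_coker_aux f U)⟩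

theorem cenCokerπ_comp : f ≫ cenCokerπ f = 0 := Center.ext _ _ (cokernel.condition f.f)

def cenCokerDesc {W : Center C} (g : Y ⟶ W) (hg : f ≫ g = 0) : cenCoker f ⟶ W :=
  ⟨cokernel.desc f.f g.f (congrArg Center.Hom.f hg),
    cenEpi_comm (cokernel.π f.f) _ (fun U => (exR' f.f U).g_desc _ (cen_coker_aux f U)) g.f
      g.comm _ (cokernel.π_desc _ _ _)⟩

def cenCokerIsColimit : IsColimit (CokernelCofork.ofπ (cenCokerπ f) (cenCokerπ_comp f)) :=
  CokernelCofork.IsColimit.ofπ _ _ (fun g hg => cenCokerDesc f g hg)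
    (fun g hg => Center.ext _ _ (cokernel.π_desc _ _ _))
    (fun g hg m hm => Center.ext _ _ ((cancel_epi (cokernel.π f.f)).1
      ((congrArg Center.Hom.f hm).trans (cokernel.π_desc _ _ _).symm)))

instance cenHasCokernels : HasCokernels (Center C) :=
  ⟨fun f => ⟨⟨⟨_, cenCokerIsColimit f⟩⟩⟩⟩

/-- An object of the center from a zero object. -/
def cenZeroObj (Z : C) (hZ : IsZero Z) : Center C :=
  ⟨Z, { β := fun U =>
          { hom := 0
            inv := 0
            hom_inv_id := by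
              have : IsZero (Z ⊗ U) := (tensorRight U).map_isZero hZ
              exact this.eq_of_src _ _
            inv_hom_id := by
              have : IsZero (U ⊗ Z) := (tensorLeft U).map_isZero hZ
              exact this.eq_of_src _ _ }
        monoidal := fun U U' => by
          have : IsZero (Z ⊗ (U ⊗ U')) := (tensorRight _).map_isZero hZ
          exact this.eq_of_src _ _
        naturality := fun {U U'} f => by
          have : IsZero (Z ⊗ U) := (tensorRight _).map_isZero hZ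
          exact this.eq_of_src _ _ }⟩

theorem cenZeroObj_isZero (Z : C) (hZ : IsZero Z) : IsZero (cenZeroObj Z hZ) := by
  rw [IsZero.iff_id_eq_zero]
  exact Center.ext _ _ (hZ.eq_of_src _ _)

instance cenHasZeroObject : HasZeroObject (Center C) :=
  ⟨⟨_, cenZeroObj_isZero _ (isZero_zero C)⟩⟩

/-- The half-braiding of the biproduct. -/
def cenBi (X Y : Center C) (U : C) : (X.1 ⊞ Y.1) ⊗ U ⟶ U ⊗ (X.1 ⊞ Y.1) :=
  (biprod.fst ▷ U) ≫ (X.2.β U).hom ≫ (U ◁ biprod.inl) +
    (biprod.snd ▷ U) ≫ (Y.2.β U).hom ≫ (U ◁ biprod.inr)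

def cenBi' (X Y : Center C) (U : C) : U ⊗ (X.1 ⊞ Y.1) ⟶ (X.1 ⊞ Y.1) ⊗ U :=
  (U ◁ biprod.fst) ≫ (X.2.β U).inv ≫ (biprod.inl ▷ U) +
    (U ◁ biprod.snd) ≫ (Y.2.β U).inv ≫ (biprod.inr ▷ U)

theorem wl_comp_eq {A B D : C} (U : C) {f : A ⟶ B} {g : B ⟶ D} {h : A ⟶ D} (e : f ≫ g = h) :
    U ◁ f ≫ U ◁ g = U ◁ h := by rw [← MonoidalCategory.whiskerLeft_comp, e]

theorem wr_comp_eq {A B D : C} (U : C) {f : A ⟶ B} {g : B ⟶ D} {h : A ⟶ D} (e : f ≫ g = h) :
    f ▷ U ≫ g ▷ U = h ▷ U := by rw [← comp_whiskerRight, e]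

theorem cenBi_fst (X Y : Center C) (U : C) :
    cenBi X Y U ≫ U ◁ biprod.fst = biprod.fst ▷ U ≫ (X.2.β U).hom := by
  rw [cenBi, Preadditive.add_comp, Category.assoc, Category.assoc, Category.assoc,
    Category.assoc, wl_comp_eq U biprod.inl_fst, wl_comp_eq U biprod.inr_fst]
  simp

theorem cenBi_snd (X Y : Center C) (U : C) :
    cenBi X Y U ≫ U ◁ biprod.snd = biprod.snd ▷ U ≫ (Y.2.β U).hom := by
  rw [cenBi, Preadditive.add_comp, Category.assoc, Category.assoc, Category.assoc,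
    Category.assoc, wl_comp_eq U biprod.inl_snd, wl_comp_eq U biprod.inr_snd]
  simp

theorem cenBi'_fst (X Y : Center C) (U : C) :
    cenBi' X Y U ≫ biprod.fst ▷ U = U ◁ biprod.fst ≫ (X.2.β U).inv := by
  rw [cenBi', Preadditive.add_comp, Category.assoc, Category.assoc, Category.assoc,
    Category.assoc, wr_comp_eq U biprod.inl_fst, wr_comp_eq U biprod.inr_fst]
  simp

theorem cenBi'_snd (X Y : Center C) (U : C) :
    cenBi' X Y U ≫ biprod.snd ▷ U = U ◁ biprod.snd ≫ (Y.2.β U).inv := by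
  rw [cenBi', Preadditive.add_comp, Category.assoc, Category.assoc, Category.assoc,
    Category.assoc, wr_comp_eq U biprod.inl_snd, wr_comp_eq U biprod.inr_snd]
  simp

theorem wl_ext {A B W : C} (U : C) {f g : W ⟶ U ⊗ (A ⊞ B)}
    (h1 : f ≫ U ◁ biprod.fst = g ≫ U ◁ biprod.fst)
    (h2 : f ≫ U ◁ biprod.snd = g ≫ U ◁ biprod.snd) : f = g := by
  have e : 𝟙 (U ⊗ (A ⊞ B)) = U ◁ biprod.fst ≫ U ◁ biprod.inl +
      U ◁ biprod.snd ≫ U ◁ biprod.inr := by
    rw [← MonoidalCategory.whiskerLeft_comp, ← MonoidalCategory.whiskerLeft_comp,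
      ← MonoidalPreadditive.whiskerLeft_add, biprod.total, MonoidalCategory.whiskerLeft_id]
  rw [← Category.comp_id f, ← Category.comp_id g, e, Preadditive.comp_add,
    Preadditive.comp_add, ← Category.assoc, ← Category.assoc, ← Category.assoc,
    ← Category.assoc, h1, h2]

theorem wr_ext {A B W : C} (U : C) {f g : W ⟶ (A ⊞ B) ⊗ U}
    (h1 : f ≫ biprod.fst ▷ U = g ≫ biprod.fst ▷ U)
    (h2 : f ≫ biprod.snd ▷ U = g ≫ biprod.snd ▷ U) : f = g := by
  have e : 𝟙 ((A ⊞ B) ⊗ U) = biprod.fst ▷ U ≫ biprod.inl ▷ U +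
      biprod.snd ▷ U ≫ biprod.inr ▷ U := by
    rw [← comp_whiskerRight, ← comp_whiskerRight,
      ← MonoidalPreadditive.add_whiskerRight, biprod.total, MonoidalCategory.id_whiskerRight]
  rw [← Category.comp_id f, ← Category.comp_id g, e, Preadditive.comp_add,
    Preadditive.comp_add, ← Category.assoc, ← Category.assoc, ← Category.assoc,
    ← Category.assoc, h1, h2]

/-- The biproduct in the center. -/
def cenBiprod (X Y : Center C) : Center C :=
  ⟨X.1 ⊞ Y.1,
    { β := fun U =>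
        { hom := cenBi X Y U
          inv := cenBi' X Y U
          hom_inv_id := by
            apply wr_ext
            · rw [Category.assoc, cenBi'_fst, ← Category.assoc, cenBi_fst, Category.assoc,
                Iso.hom_inv_id, Category.comp_id, Category.id_comp]
            · rw [Category.assoc, cenBi'_snd, ← Category.assoc, cenBi_snd, Category.assoc,
                Iso.hom_inv_id, Category.comp_id, Category.id_comp]
          inv_hom_id := by
            apply wl_ext
            · rw [Category.assoc, cenBi_fst, ← Category.assoc, cenBi'_fst, Category.assoc,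
                Iso.inv_hom_id, Category.comp_id, Category.id_comp]
            · rw [Category.assoc, cenBi_snd, ← Category.assoc, cenBi'_snd, Category.assoc,
                Iso.inv_hom_id, Category.comp_id, Category.id_comp] }
      monoidal := fun U U' => by
        apply wl_ext
        · exact (cenBi_fst X Y (U ⊗ U')).trans
            (cen_mon_aux (X := X) biprod.fst (cenBi X Y) (cenBi_fst X Y) U U').symm
        · exact (cenBi_snd X Y (U ⊗ U')).trans
            (cen_mon_aux (X := Y) biprod.snd (cenBi X Y) (cenBi_snd X Y) U U').symm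
      naturality := fun {U U'} f => by
        apply wl_ext
        · exact cen_nat_aux (X := X) biprod.fst (cenBi X Y) (cenBi_fst X Y) f
        · exact cen_nat_aux (X := Y) biprod.snd (cenBi X Y) (cenBi_snd X Y) f }⟩

def cenBiFst (X Y : Center C) : cenBiprod X Y ⟶ X :=
  ⟨biprod.fst, fun U => (cenBi_fst X Y U).symm⟩

def cenBiSnd (X Y : Center C) : cenBiprod X Y ⟶ Y :=
  ⟨biprod.snd, fun U => (cenBi_snd X Y U).symm⟩

theorem cenBi_inl (X Y : Center C) (U : C) :
    biprod.inl ▷ U ≫ cenBi X Y U = (X.2.β U).hom ≫ U ◁ biprod.inl := by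
  rw [cenBi, Preadditive.comp_add, ← comp_whiskerRight_assoc, ← comp_whiskerRight_assoc,
    biprod.inl_fst, biprod.inl_snd]
  simp

theorem cenBi_inr (X Y : Center C) (U : C) :
    biprod.inr ▷ U ≫ cenBi X Y U = (Y.2.β U).hom ≫ U ◁ biprod.inr := by
  rw [cenBi, Preadditive.comp_add, ← comp_whiskerRight_assoc, ← comp_whiskerRight_assoc,
    biprod.inr_fst, biprod.inr_snd]
  simp

def cenBiInl (X Y : Center C) : X ⟶ cenBiprod X Y := ⟨biprod.inl, cenBi_inl X Y⟩

def cenBiInr (X Y : Center C) : Y ⟶ cenBiprod X Y := ⟨biprod.inr, cenBi_inr X Y⟩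

/-- The binary bicone of the center. -/
def cenBicone (X Y : Center C) : BinaryBicone X Y where
  pt := cenBiprod X Y
  fst := cenBiFst X Y
  snd := cenBiSnd X Y
  inl := cenBiInl X Y
  inr := cenBiInr X Y
  inl_fst := Center.ext _ _ biprod.inl_fst
  inl_snd := Center.ext _ _ biprod.inl_snd
  inr_fst := Center.ext _ _ biprod.inr_fst
  inr_snd := Center.ext _ _ biprod.inr_snd

instance cenHasBinaryBiproducts : HasBinaryBiproducts (Center C) where
  has_binary_biproduct X Y := HasBinaryBiproduct.mk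
    { bicone := cenBicone X Y
      isBilimit := isBinaryBilimitOfTotal _ (Center.ext _ _ biprod.total) }

instance cenHasFiniteProducts : HasFiniteProducts (Center C) :=
  haveI := HasZeroObject.hasTerminal (C := Center C)
  hasFiniteProducts_of_has_binary_and_terminal

instance cenPreservesKernel {X Y : Center C} (f : X ⟶ Y) :
    PreservesLimit (parallelPair f 0) (Center.forget C) :=
  preservesLimit_of_preserves_limit_cone (cenKerIsLimit f)
    ((KernelFork.isLimitMapConeEquiv (KernelFork.ofι (cenKerι f) (cenKerι_comp f))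
      (Center.forget C)).symm
      (IsLimit.ofIsoLimit (kernelIsKernel f.f) (Fork.ext (Iso.refl _) (by
        exact Category.id_comp (kernel.ι f.f)))))

instance cenPreservesCokernel {X Y : Center C} (f : X ⟶ Y) :
    PreservesColimit (parallelPair f 0) (Center.forget C) :=
  preservesColimit_of_preserves_colimit_cocone (cenCokerIsColimit f)
    ((CokernelCofork.isColimitMapCoconeEquiv (CokernelCofork.ofπ (cenCokerπ f)
      (cenCokerπ_comp f)) (Center.forget C)).symm
      (IsColimit.ofIsoColimit (cokernelIsCokernel f.f) (Cofork.ext (Iso.refl _) (by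
        exact Category.comp_id (cokernel.π f.f)))))

instance cenCoim {X Y : Center C} (f : X ⟶ Y) : IsIso (Abelian.coimageImageComparison f) := by
  have := IsIso.of_isIso_fac_right (Abelian.PreservesCoimage.hom_coimageImageComparison
      (Center.forget C) f).symm
  exact isIso_of_reflects_iso _ (Center.forget C)

end Ab

end

end Pool.Agent.MUG
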