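import Pool.Agent.MUG.Defs

/-! The Drinfeld center of an abelian rigid monoidal category is linear (helper27). -/

open CategoryTheory MonoidalCategory Limits Abelian

universe w w' v v' u u'

namespace Pool.Agent.MUG

set_option linter.unusedSectionVars false
set_option backward.isDefEq.respectTransparency.types false

noncomputable section

section Pre

variable {C : Type u} [Category.{v} C] [MonoidalCategory C] [Preadditive C]
  [MonoidalPreadditive C]

theorem cen_neg_whiskerRight {X Y : C} (f : X ⟶ Y) (Z : C) : (-f) ▷ Z = -(f ▷ Z) :=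
  (tensorRight Z).map_neg

theorem cen_whiskerLeft_neg {X Y : C} (f : X ⟶ Y) (Z : C) : Z ◁ (-f) = -(Z ◁ f) :=
  (tensorLeft Z).map_neg

variable (X Y : Center C)

instance cenZero : Zero (X ⟶ Y) := ⟨⟨0, fun U => by simp⟩⟩

instance cenAdd : Add (X ⟶ Y) := ⟨fun f g => ⟨f.f + g.f, fun U => by
  simp [MonoidalPreadditive.add_whiskerRight, MonoidalPreadditive.whiskerLeft_add,
    Preadditive.add_comp, Preadditive.comp_add]⟩⟩

instance cenNeg : Neg (X ⟶ Y) := ⟨fun f => ⟨-f.f, fun U => by
  rw [cen_neg_whiskerRight, cen_whiskerLeft_neg, Preadditive.neg_comp, Preadditive.comp_neg,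
    f.comm]⟩⟩

instance cenSub : Sub (X ⟶ Y) := ⟨fun f g => f + -g⟩

instance cenSMulN : SMul ℕ (X ⟶ Y) := ⟨fun n f => ⟨n • f.f, fun U => by
  have h1 : (n • f.f) ▷ U = n • (f.f ▷ U) := (tensorRight U).map_nsmul
  have h2 : U ◁ (n • f.f) = n • (U ◁ f.f) := (tensorLeft U).map_nsmul
  rw [h1, h2, Preadditive.nsmul_comp, Preadditive.comp_nsmul, f.comm]⟩⟩

instance cenSMulZ : SMul ℤ (X ⟶ Y) := ⟨fun n f => ⟨n • f.f, fun U => by
  have h1 : (n • f.f) ▷ U = n • (f.f ▷ U) := (tensorRight U).map_zsmul
  have h2 : U ◁ (n • f.f) = n • (U ◁ f.f) := (tensorLeft U).map_zsmul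
  rw [h1, h2, Preadditive.zsmul_comp, Preadditive.comp_zsmul, f.comm]⟩⟩

instance cenHomGroup : AddCommGroup (X ⟶ Y) :=
  Function.Injective.addCommGroup (fun f : X ⟶ Y => (f.f : X.1 ⟶ Y.1))
    (fun _ _ h => Center.ext _ _ h) rfl (fun _ _ => rfl) (fun _ => rfl)
    (fun f g => (sub_eq_add_neg f.f g.f).symm) (fun _ _ => rfl) (fun _ _ => rfl)

instance cenPreadditive : Preadditive (Center C) where
  homGroup X Y := cenHomGroup X Y
  add_comp X Y Z f g h := Center.ext _ _ (Preadditive.add_comp _ _ _ f.f g.f h.f)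
  comp_add X Y Z f g h := Center.ext _ _ (Preadditive.comp_add _ _ _ f.f g.f h.f)

@[simp] theorem cen_zero_f : (0 : X ⟶ Y).f = 0 := rfl

@[simp] theorem cen_add_f (f g : X ⟶ Y) : (f + g).f = f.f + g.f := rfl

instance cenForgetAdditive : (Center.forget C).Additive where

instance cenForgetFaithful : (Center.forget C).Faithful where
  map_injective h := Center.ext _ _ h

instance cenMonoidalPreadditive : MonoidalPreadditive (Center C) where
  whiskerLeft_zero := Center.ext _ _ MonoidalPreadditive.whiskerLeft_zero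
  zero_whiskerRight := Center.ext _ _ MonoidalPreadditive.zero_whiskerRight
  whiskerLeft_add f g := Center.ext _ _ (MonoidalPreadditive.whiskerLeft_add f.f g.f)
  add_whiskerRight f g := Center.ext _ _ (MonoidalPreadditive.add_whiskerRight f.f g.f)

end Pre

section Lin

variable {k : Type*} [Field k] {C : Type u} [Category.{v} C] [MonoidalCategory C] [Preadditive C]
  [MonoidalPreadditive C] [Linear k C] [MonoidalLinear k C]

instance cenSMulK (X Y : Center C) : SMul k (X ⟶ Y) := ⟨fun n f => ⟨n • f.f, fun U => by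
  rw [MonoidalLinear.smul_whiskerRight, MonoidalLinear.whiskerLeft_smul, Linear.smul_comp,
    Linear.comp_smul, f.comm]⟩⟩

instance cenModule (X Y : Center C) : Module k (X ⟶ Y) :=
  Function.Injective.module k
    ({ toFun := fun f => f.f, map_zero' := rfl, map_add' := fun _ _ => rfl } :
      (X ⟶ Y) →+ (X.1 ⟶ Y.1)) (fun _ _ h => Center.ext _ _ h) (fun _ _ => rfl)

instance cenLinear : Linear k (Center C) where
  homModule X Y := cenModule X Y
  smul_comp X Y Z r f g := Center.ext _ _ (Linear.smul_comp _ _ _ r f.f g.f)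
  comp_smul X Y Z f r g := Center.ext _ _ (Linear.comp_smul _ _ _ f.f r g.f)

@[simp] theorem cen_smul_f (X Y : Center C) (r : k) (f : X ⟶ Y) : (r • f).f = r • f.f := rfl

instance cenForgetLinear : (Center.forget C).Linear k where

instance cenMonoidalLinear : MonoidalLinear k (Center C) where
  whiskerLeft_smul X Y Z r f := Center.ext _ _ (MonoidalLinear.whiskerLeft_smul _ r f.f)
  smul_whiskerRight r Y Z f X := Center.ext _ _ (MonoidalLinear.smul_whiskerRight r f.f _)

end Lin

end

end Pool.Agent.MUG
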