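import Pool.Agent.MUG.CenDual

/-! Row CR: the Drinfeld center of a rigid monoidal category is rigid (helper27). -/

open CategoryTheory MonoidalCategory

universe w w' v v' u u'

namespace Pool.Agent.MUG

set_option linter.unusedSectionVars false
set_option backward.isDefEq.respectTransparency.types false

noncomputable section

section Rig

variable {C : Type u} [Category.{v} C] [MonoidalCategory C] [RigidCategory C]

theorem cenDual_hom_inv (X : Center C) (Y : C) [ExactPairing X.1 Y] (U : C) :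
    dualB X Y U ≫ laxInv (dualB X Y) U = 𝟙 (Y ⊗ U) :=
  lax_hom_inv (dualB X Y) (dual_nat X Y) (dual_mon X Y) (dual_unit X Y) U

theorem cenDual_inv_hom (X : Center C) (Y : C) [ExactPairing X.1 Y] (U : C) :
    laxInv (dualB X Y) U ≫ dualB X Y U = 𝟙 (U ⊗ Y) :=
  lax_inv_hom (dualB X Y) (dual_nat X Y) (dual_mon X Y) (dual_unit X Y) U

theorem cenDual_mon (X : Center C) (Y : C) [ExactPairing X.1 Y] (U V : C) :
    dualB X Y (U ⊗ V) = (α_ Y U V).inv ≫ (dualB X Y U ▷ V) ≫ (α_ U Y V).hom ≫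
      (U ◁ dualB X Y V) ≫ (α_ U V Y).inv :=
  dual_mon X Y U V

theorem cenDual_nat (X : Center C) (Y : C) [ExactPairing X.1 Y] {U V : C} (f : U ⟶ V) :
    Y ◁ f ≫ dualB X Y V = dualB X Y U ≫ f ▷ Y :=
  dual_nat X Y f

/-- The right dual in the center. -/
def cenDual (X : Center C) (Y : C) [ExactPairing X.1 Y] : Center C :=
  ⟨Y, { β := fun U => ⟨dualB X Y U, laxInv (dualB X Y) U, cenDual_hom_inv X Y U,
          cenDual_inv_hom X Y U⟩
        monoidal := cenDual_mon X Y
        naturality := cenDual_nat X Y }⟩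

/-- The coevaluation is a morphism of the center. -/
theorem cenCoev_comm (X : Center C) (Y : C) [ExactPairing X.1 Y] (U : C) :
    η_ X.1 Y ▷ U ≫ (α_ X.1 Y U).hom ≫ X.1 ◁ dualB X Y U ≫ (α_ X.1 U Y).inv ≫
      (X.2.β U).hom ▷ Y ≫ (α_ U X.1 Y).hom =
    ((λ_ U).hom ≫ (ρ_ U).inv) ≫ U ◁ η_ X.1 Y :=
  (dual_coev X Y U).trans (Category.assoc _ _ _).symm

/-- The coevaluation in the center. -/
def cenCoev (X : Center C) (Y : C) [ExactPairing X.1 Y] : 𝟙_ (Center C) ⟶ X ⊗ cenDual X Y :=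
  ⟨η_ X.1 Y, cenCoev_comm X Y⟩

/-- The evaluation is a morphism of the center. -/
theorem cenEv_comm (X : Center C) (Y : C) [ExactPairing X.1 Y] (U : C) :
    ε_ X.1 Y ▷ U ≫ (λ_ U).hom ≫ (ρ_ U).inv = ((α_ Y X.1 U).hom ≫
      Y ◁ (X.2.β U).hom ≫ (α_ Y U X.1).inv ≫ dualB X Y U ▷ X.1 ≫ (α_ U Y X.1).hom) ≫
      U ◁ ε_ X.1 Y := by
  have h := dual_ev X Y U
  simp only [Category.assoc]
  rw [h, ← MonoidalCategory.whiskerLeft_comp_assoc, Iso.hom_inv_id]
  simp

/-- The evaluation in the center. -/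
def cenEv (X : Center C) (Y : C) [ExactPairing X.1 Y] : cenDual X Y ⊗ X ⟶ 𝟙_ (Center C) :=
  ⟨ε_ X.1 Y, cenEv_comm X Y⟩

instance cenPairing (X : Center C) (Y : C) [ExactPairing X.1 Y] :
    ExactPairing X (cenDual X Y) where
  coevaluation' := cenCoev X Y
  evaluation' := cenEv X Y
  coevaluation_evaluation' := Center.ext _ _ (by
    have h : Y ◁ η_ X.1 Y ≫ Center.Hom.f (α_ (cenDual X Y) X (cenDual X Y)).inv ≫
        ε_ X.1 Y ▷ Y = Center.Hom.f (ρ_ (cenDual X Y)).hom ≫
          Center.Hom.f (λ_ (cenDual X Y)).inv := by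
      rw [Center.associator_inv_f, Center.leftUnitor_inv_f, Center.rightUnitor_hom_f]
      exact ExactPairing.coevaluation_evaluation X.1 Y
    exact h)
  evaluation_coevaluation' := Center.ext _ _ (by
    have h : η_ X.1 Y ▷ X.1 ≫ Center.Hom.f (α_ X (cenDual X Y) X).hom ≫
        X.1 ◁ ε_ X.1 Y = Center.Hom.f (λ_ X).hom ≫ Center.Hom.f (ρ_ X).inv := by
      rw [Center.associator_hom_f, Center.leftUnitor_hom_f, Center.rightUnitor_inv_f]
      exact ExactPairing.evaluation_coevaluation X.1 Y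
    exact h)

instance cenRightRigid : RightRigidCategory (Center C) where
  rightDual X := { rightDual := cenDual X (X.1ᘁ) }

instance cenRigid : RigidCategory (Center C) :=
  BraidedCategory.rigidCategoryOfRightRigidCategory

end Rig

end

end Pool.Agent.MUG
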