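import Pool.Agent.MUG.N6
import Pool.Agent.MUE79.Adj

/-!
# FGC of the degenerate part implies FGC (MP_388894, row Conv, helper79)
-/

open CategoryTheory MonoidalCategory Limits Abelian

universe w w' v v' u u'

set_option linter.unusedSectionVars false

namespace Pool.Agent.MUG

open Tr
open Pool.Agent.MUE79 (adjTo adjFrom adjFrom_adjTo adjTo_comp adjTo_map_comp)

section psi

variable {k : Type*} [Field k]
  {A : Type u} [Category.{v} A] [Abelian A] [Linear k A] [MonoidalCategory A]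
  [MonoidalPreadditive A] [MonoidalLinear k A] [RigidCategory A] [HasExt.{w} A]

/-- `Ext(X,Y) → Ext(1, Y ⊗ X*)` -/
noncomputable def psi (k : Type*) [Field k] [Linear k A] [MonoidalLinear k A]
    [EnoughProjectives A] (X Y : A) (n : ℕ) :
    Ext.{w} X Y n →ₗ[k] Ext.{w} (𝟙_ A) (Y ⊗ Xᘁ) n where
  toFun β := adjTo (tensorRightAdjunction X (Xᘁ)) (X := 𝟙_ A) (Y := Y)
    (pre (X := (tensorRight X).obj (𝟙_ A)) (λ_ X).hom β)
  map_add' β γ := by
    unfold adjTo pre
    rw [Ext.comp_add, Ext.mapExactFunctor_add, Ext.comp_add]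
  map_smul' c β := by
    unfold adjTo pre
    rw [Ext.comp_smul, Functor.mapExactFunctor_smul, Ext.comp_smul]
    rfl

variable [EnoughProjectives A]

theorem psi_apply (X Y : A) (n : ℕ) (β : Ext.{w} X Y n) :
    psi k X Y n β = adjTo (tensorRightAdjunction X (Xᘁ)) (X := 𝟙_ A) (Y := Y)
      (pre (X := (tensorRight X).obj (𝟙_ A)) (λ_ X).hom β) := rfl

theorem psi_injective (X Y : A) (n : ℕ) (β γ : Ext.{w} X Y n)
    (h : psi k X Y n β = psi k X Y n γ) : β = γ := by
  have h1 : ∀ β : Ext.{w} X Y n, β = pre (λ_ X).inv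
      (adjFrom (tensorRightAdjunction X (Xᘁ)) (X := 𝟙_ A) (Y := Y) (psi k X Y n β)) := by
    intro β
    rw [psi_apply, adjFrom_adjTo]
    change β = pre (λ_ X).inv (pre (λ_ X).hom β)
    rw [pre_pre, Iso.inv_hom_id, pre_id]
  rw [h1 β, h, ← h1 γ]

theorem psi_act (X Y : A) {m n c : ℕ} (h : m + n = c) (ζ : Ext.{w} (𝟙_ A) (𝟙_ A) m)
    (β : Ext.{w} X Y n) :
    psi k X Y c ((act X ζ).comp β h) = ζ.comp (psi k X Y n β) h := by
  rw [psi_apply, psi_apply, ← adjTo_map_comp]
  congr 1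
  have h1 : act X ζ = pre (λ_ X).inv
    (post (ζ.mapExactFunctor (tensorRight X)) (λ_ X).hom) := rfl
  rw [h1, ← pre_comp, post_comp]
  change pre (λ_ X).hom (pre (λ_ X).inv _) = _
  rw [pre_pre, Iso.hom_inv_id, pre_id]

end psi

section conv

variable {k : Type*} [Field k]
  {A : Type u} [Category.{v} A] [Abelian A] [Linear k A] [MonoidalCategory A]
  [MonoidalPreadditive A] [MonoidalLinear k A] [RigidCategory A] [HasExt.{w} A]
  {T : Type u'} [Category.{v'} T] [Abelian T] [Linear k T] [MonoidalCategory T]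
  [MonoidalPreadditive T] [MonoidalLinear k T] [RigidCategory T] [HasExt.{w'} T]

/-- `hat` as a linear map -/
noncomputable def hatL (i : T ⥤ A) [i.Additive] [i.Linear k] [PreservesFiniteLimits i]
    [PreservesFiniteColimits i] [i.Monoidal] (n : ℕ) :
    Ext.{w'} (𝟙_ T) (𝟙_ T) n →ₗ[k] Ext.{w} (𝟙_ A) (𝟙_ A) n where
  toFun z := hat i z
  map_add' z y := hat_add i z y
  map_smul' c z := hat_smul i c z

/-- **FGC of the degenerate part implies FGC.** -/
theorem fgc_conv [BraidedCategory A] (hA : IsFinite k A) {b : A} (hb : Invertible b) (L : Leib b)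
    (hsq : L.SqZero) {U : A} (j : b ⟶ U) (e : U ⟶ 𝟙_ A) (w : j ≫ e = 0)
    (hS : (ShortComplex.mk j e w).ShortExact) (hd : L.d U = (b ◁ e) ≫ (ρ_ b).hom ≫ j)
    [EnoughProjectives T] (i : T ⥤ A) [i.Additive] [i.Linear k] [PreservesFiniteLimits i]
    [PreservesFiniteColimits i] [i.Monoidal] [i.Full] [i.Faithful]
    (hess : ∀ Y : A, L.d Y = 0 ↔ i.essImage Y) (hF : FGC.{w'} k T) : FGC.{w} k A := by
  have := hA.enough
  have hbij := fun (N M : T) (n : ℕ) =>
    hbij_U.{w, w'} (k := k) L hsq j e w hS hd i hess N M n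
  have hsim : ∀ S : A, Simple S → i.essImage S := by
    intro S hSS
    exact (hess S).1 (leib_simple hA hb L hsq S)
  obtain ⟨Nn, φ, κ₀, o, ho, ⟨κ⟩⟩ := exists_seq hA hb L hsq i hess
  have hstar := star_lemma.{w, w'} hA j e w hS i hF hbij hsim Nn φ κ₀ o ho κ
  constructor
  · obtain ⟨r, d, x, hx⟩ := hF.alg
    obtain ⟨V, R, D, G, hG⟩ := hstar (𝟙_ A)
    obtain ⟨s, d', y, hy⟩ := exists_fin (ι := Fin r ⊕ (Unit ⊕ Fin R))
      (M := fun n => Ext.{w} (𝟙_ A) (𝟙_ A) n)
      (Sum.elim d (Sum.elim (fun _ => o) D))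
      (fun p => match p with
        | Sum.inl l => hat i (x l)
        | Sum.inr (Sum.inl _) => V
        | Sum.inr (Sum.inr a) => G a)
    refine ⟨s, d', y, ?_⟩
    intro B h1 h2 h3
    have h4 := hy (fun n x => x ∈ B n) h2
    have h5 : ∀ n, (B n).comap (hatL (k := k) i n) = ⊤ := by
      refine hx (fun n => (B n).comap (hatL (k := k) i n)) ?_ ?_ ?_
      · change hat i _ ∈ B 0
        rw [hat_one]
        exact h1
      · intro l
        exact h4 (Sum.inl l)
      · intro m n a c ha hc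
        change hat i _ ∈ B (m + n)
        rw [hat_comp]
        exact h3 m n _ _ ha hc
    refine hG B ?_ ?_ ?_
    · intro m z n c h β hβ
      obtain rfl : m + n = c := h
      have h6 : z ∈ (B m).comap (hatL (k := k) i m) := by
        rw [h5]
        trivial
      exact h3 m n _ _ h6 hβ
    · intro n c h β hβ
      obtain rfl : o + n = c := h
      exact h3 o n _ _ (h4 (Sum.inr (Sum.inl ()))) hβ
    · intro a
      exact h4 (Sum.inr (Sum.inr a))
  · intro X Y
    obtain ⟨V, R, D, G, hG⟩ := hstar (Y ⊗ Xᘁ)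
    -- generators
    have hsurj : ∀ a, ∃ y : Ext.{w} X Y (D a), psi k X Y (D a) y = G a := by
      intro a
      refine ⟨pre (λ_ X).inv
        (adjFrom (tensorRightAdjunction X (Xᘁ)) (X := 𝟙_ A) (Y := Y) (G a)), ?_⟩
      rw [psi_apply]
      have h1 : pre (X := (tensorRight X).obj (𝟙_ A)) (λ_ X).hom (pre (λ_ X).inv
          (adjFrom (tensorRightAdjunction X (Xᘁ)) (X := 𝟙_ A) (Y := Y) (G a))) =
          adjFrom (tensorRightAdjunction X (Xᘁ)) (X := 𝟙_ A) (Y := Y) (G a) := by
        rw [pre_pre, Iso.hom_inv_id]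
        exact pre_id _
      rw [h1]
      exact Pool.Agent.MUE79.adjTo_adjFrom _ _
    choose y hy using hsurj
    refine ⟨R, D, y, ?_⟩
    intro B h1 h2 n
    have h3 := hG (fun n => (B n).map (psi k X Y n)) ?_ ?_ ?_ n
    · rw [eq_top_iff]
      intro β _
      have h4 : psi k X Y n β ∈ (B n).map (psi k X Y n) := by
        have h5 : (B n).map (psi k X Y n) = ⊤ := h3
        rw [h5]
        trivial
      obtain ⟨β', hβ', he⟩ := Submodule.mem_map.1 h4
      rw [psi_injective (k := k) X Y n _ _ he] at hβ'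
      exact hβ'
    · intro m z n c h β hβ
      obtain rfl : m + n = c := h
      obtain ⟨β', hβ', rfl⟩ := Submodule.mem_map.1 hβ
      exact Submodule.mem_map.2 ⟨_, h2 m n (hat i z) β' hβ', psi_act X Y rfl _ _⟩
    · intro n c h β hβ
      obtain rfl : o + n = c := h
      obtain ⟨β', hβ', rfl⟩ := Submodule.mem_map.1 hβ
      exact Submodule.mem_map.2 ⟨_, h2 o n V β' hβ', psi_act X Y rfl _ _⟩
    · intro a
      exact Submodule.mem_map.2 ⟨y a, h1 a, hy a⟩

end conv

end Pool.Agent.MUG
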