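import Pool.Agent.MUG.C1

/-!
# Projective covers of arbitrary objects (generalisation of row C1), multiplicities

`IsCov P T e`: `e : P ⟶ T` is a projective cover of `T`. No monoidal structure is used.
-/

set_option autoImplicit false
set_option linter.unusedSectionVars false

open CategoryTheory MonoidalCategory Limits Abelian

universe w w' v v' u u'

namespace Pool.Agent.MUG

/-- `e : P ⟶ T` is a projective cover of `T`. -/
structure IsCov {C : Type u} [Category.{v} C] (P T : C) (e : P ⟶ T) : Prop where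
  proj : Projective P
  epi : Epi e
  iso : ∀ g : P ⟶ P, g ≫ e = e → IsIso g

open C1aux

section Cov

variable {k : Type*} [Field k] {C : Type u} [Category.{v} C] [Abelian C] [Linear k C]

/-- Every object of a finite category has a projective cover. -/
theorem exists_cov [EnoughProjectives C] (hfin : ∀ X Y : C, Module.Finite k (X ⟶ Y)) (T : C) :
    ∃ (P : C) (e : P ⟶ T), IsCov P T e := by
  classical
  have hex : ∃ n : ℕ, ∃ (P : C) (e : P ⟶ T), Projective P ∧ Epi e ∧
      Module.finrank k (P ⟶ P) = n :=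
    ⟨_, Projective.over T, Projective.π T, inferInstance, inferInstance, rfl⟩
  obtain ⟨P, e, hP, he, hn⟩ := Nat.find_spec hex
  refine ⟨P, e, hP, he, fun g hg => ?_⟩
  have := hfin P P
  -- the powers stabilise
  obtain ⟨n₁, h₁⟩ := stab_left (k := k) g
  obtain ⟨n₂, h₂⟩ := stab_right (k := k) g
  set n := n₁ + n₂ + 1 with hndef
  obtain ⟨h', hh'⟩ := h₁ n (by omega) n
  obtain ⟨h, hh⟩ := h₂ n (by omega) n
  set a := pw g n with ha
  have h2 : pw g (n + n) = a ≫ a := pw_add g n n
  rw [h2] at hh hh'
  -- a = a ≫ a ≫ h' and a = h ≫ a ≫ a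
  have e1 : a ≫ a ≫ h' = a := by rw [← Category.assoc]; exact hh'.symm
  have e2 : h ≫ a ≫ a = a := hh.symm
  -- the idempotent
  set f := a ≫ h' with hf
  have f1 : f = h ≫ a := by
    calc f = (h ≫ a ≫ a) ≫ h' := by rw [e2]
      _ = h ≫ (a ≫ a ≫ h') := by simp only [Category.assoc]
      _ = h ≫ a := by rw [e1]
  have f2 : f ≫ f = f := by
    calc f ≫ f = (h ≫ a) ≫ (a ≫ h') := by rw [← f1]
      _ = (h ≫ a ≫ a) ≫ h' := by simp only [Category.assoc]
      _ = f := by rw [e2]
  have fa : f ≫ a = a := by rw [f1, Category.assoc, e2]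
  have af : a ≫ f = a := by rw [hf, e1]
  have ae : ∀ m, pw g m ≫ e = e := by
    intro m
    induction m with
    | zero => simp [pw]
    | succ m ih => rw [pw, Category.assoc, ih, hg]
  have fe : f ≫ e = e := by
    have hae : a ≫ e = e := ae n
    calc f ≫ e = f ≫ a ≫ e := by rw [hae]
      _ = (f ≫ a) ≫ e := (Category.assoc f a e).symm
      _ = e := by rw [fa, hae]
  -- the image of the idempotent
  let Q := image f
  let i : Q ⟶ P := image.ι f
  let p : P ⟶ Q := factorThruImage f
  have hpi : p ≫ i = f := image.fac f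
  have hip : i ≫ p = 𝟙 Q := by
    rw [← cancel_epi p, ← cancel_mono i]
    simp only [Category.assoc, hpi, Category.comp_id]
    rw [← Category.assoc, hpi, f2]
  have : Projective Q := by
    refine ⟨fun {E X} u v hv => ?_⟩
    refine ⟨i ≫ Projective.factorThru (p ≫ u) v, ?_⟩
    rw [Category.assoc, Projective.factorThru_comp, ← Category.assoc, hip, Category.id_comp]
  have : Epi (i ≫ e) := by
    have : p ≫ (i ≫ e) = e := by rw [← Category.assoc, hpi, fe]
    have : Epi (p ≫ (i ≫ e)) := by rw [this]; exact he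
    exact epi_of_epi p (i ≫ e)
  -- the map `End Q → End P`
  let Φ : (Q ⟶ Q) →ₗ[k] (P ⟶ P) :=
    (Linear.leftComp k P p).comp (Linear.rightComp k Q i)
  have hΦ : ∀ u, Φ u = p ≫ u ≫ i := fun u => rfl
  have hinj : Function.Injective Φ := by
    intro u v huv
    rw [hΦ, hΦ, cancel_epi, cancel_mono] at huv
    exact huv
  have := hfin Q Q
  have hle : Module.finrank k (Q ⟶ Q) ≤ Module.finrank k (P ⟶ P) :=
    LinearMap.finrank_le_finrank_of_injective hinj
  have hge : Module.finrank k (P ⟶ P) ≤ Module.finrank k (Q ⟶ Q) := by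
    rw [hn]
    exact Nat.find_min' hex ⟨Q, i ≫ e, inferInstance, inferInstance, rfl⟩
  have hsurj : Function.Surjective Φ :=
    (LinearMap.injective_iff_surjective_of_finrank_eq_finrank (le_antisymm hle hge)).1 hinj
  obtain ⟨u, hu⟩ := hsurj (𝟙 P)
  have f3 : f = 𝟙 P := by
    calc f = f ≫ 𝟙 P := by rw [Category.comp_id]
      _ = f ≫ p ≫ u ≫ i := by rw [← hΦ, hu]
      _ = (p ≫ i) ≫ p ≫ u ≫ i := by rw [hpi]
      _ = p ≫ (i ≫ p) ≫ u ≫ i := by simp only [Category.assoc]
      _ = p ≫ u ≫ i := by rw [hip, Category.id_comp]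
      _ = 𝟙 P := by rw [← hΦ, hu]
  -- so `g` is an isomorphism
  have g1 : g ≫ (pw g (n₁ + n₂) ≫ h') = 𝟙 P := by
    rw [← Category.assoc]
    exact f3
  have g2 : (h ≫ pw g (n₁ + n₂)) ≫ g = 𝟙 P := by
    rw [Category.assoc, pw_comm]
    exact f1.symm.trans f3
  refine ⟨pw g (n₁ + n₂) ≫ h', g1, ?_⟩
  have g3 : pw g (n₁ + n₂) ≫ h' = h ≫ pw g (n₁ + n₂) := by
    calc pw g (n₁ + n₂) ≫ h' = ((h ≫ pw g (n₁ + n₂)) ≫ g) ≫ pw g (n₁ + n₂) ≫ h' := by
          rw [g2, Category.id_comp]
      _ = (h ≫ pw g (n₁ + n₂)) ≫ (g ≫ pw g (n₁ + n₂) ≫ h') := by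
          simp only [Category.assoc]
      _ = h ≫ pw g (n₁ + n₂) := by rw [g1, Category.comp_id]
  rw [g3]
  exact g2

/-- A subobject of a cover of a simple object which is not killed is everything. -/
theorem IsCov.sub {P T : C} {e : P ⟶ T} (h : IsCov P T e) [Simple T] {K : C}
    (m : K ⟶ P) [Mono m] (hm : m ≫ e ≠ 0) : IsIso m := by
  have := h.proj
  have : Epi (m ≫ e) := epi_of_nonzero_to_simple hm
  have h1 : (Projective.factorThru e (m ≫ e) ≫ m) ≫ e = e := by
    rw [Category.assoc, Projective.factorThru_comp]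
  have := h.iso _ h1
  have : Epi m := epi_of_epi (Projective.factorThru e (m ≫ e)) m
  exact isIso_of_mono_of_epi m

/-- A map `f : X ⟶ P` to a cover of a simple object with `f ≫ e ≠ 0` is epi. -/
theorem IsCov.epi_of {P T : C} {e : P ⟶ T} (h : IsCov P T e) [Simple T] {X : C}
    (f : X ⟶ P) (hf : f ≫ e ≠ 0) : Epi f := by
  have h1 : Limits.image.ι f ≫ e ≠ 0 := by
    intro h0
    apply hf
    rw [← Limits.image.fac f, Category.assoc, h0, comp_zero]
  have := h.sub (Limits.image.ι f) h1
  rw [← Limits.image.fac f]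
  exact epi_comp _ _

/-- A nonzero map from the cover of `T` to a simple object `S` is `e` up to an isomorphism
`T ≅ S`. -/
theorem IsCov.hom {P T : C} {e : P ⟶ T} (h : IsCov P T e) [Simple T] {S : C}
    [Simple S] (f : P ⟶ S) (hf : f ≠ 0) : ∃ g : T ≅ S, f = e ≫ g.hom := by
  have : Epi f := epi_of_nonzero_to_simple hf
  have h1 : kernel.ι f ≫ e = 0 := by
    by_contra hne
    have := h.sub (kernel.ι f) hne
    apply hf
    rw [← cancel_epi (kernel.ι f), kernel.condition, comp_zero]
  have h2 : f ≫ Abelian.epiDesc f e h1 = e := Abelian.comp_epiDesc f e h1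
  have := h.epi
  have h3 : Abelian.epiDesc f e h1 ≠ 0 := by
    intro h0
    rw [h0, comp_zero] at h2
    have : (𝟙 T) = 0 := by
      rw [← cancel_epi e, ← h2]
      simp
    exact id_nonzero T this
  have : IsIso (Abelian.epiDesc f e h1) := isIso_of_hom_simple h3
  refine ⟨(asIso (Abelian.epiDesc f e h1)).symm, ?_⟩
  rw [Iso.symm_hom, asIso_inv, IsIso.eq_comp_inv, h2]

/-- Two covers of isomorphic objects are isomorphic. -/
theorem IsCov.uniq {P P' T T' : C} {e : P ⟶ T} {e' : P' ⟶ T'} (h : IsCov P T e)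
    (h' : IsCov P' T' e') (g : T ≅ T') : ∃ i : P ≅ P', i.hom ≫ e' = e ≫ g.hom := by
  have := h.proj
  have := h'.proj
  have := h.epi
  have := h'.epi
  let a : P ⟶ P' := Projective.factorThru (e ≫ g.hom) e'
  let b : P' ⟶ P := Projective.factorThru (e' ≫ g.inv) e
  have ha : a ≫ e' = e ≫ g.hom := Projective.factorThru_comp _ _
  have hb : b ≫ e = e' ≫ g.inv := Projective.factorThru_comp _ _
  have h1 : IsIso (a ≫ b) := h.iso _ (by
    rw [Category.assoc, hb, ← Category.assoc, ha, Category.assoc, g.hom_inv_id,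
      Category.comp_id])
  have h2 : IsIso (b ≫ a) := h'.iso _ (by
    rw [Category.assoc, ha, ← Category.assoc, hb, Category.assoc, g.inv_hom_id,
      Category.comp_id])
  have : Mono a := mono_of_mono a b
  have : Epi a := epi_of_epi b a
  have : IsIso a := isIso_of_mono_of_epi a
  exact ⟨asIso a, ha⟩

/-- `dim Hom(P, S)` for the cover `P` of a simple object `T` and `S` simple. -/
theorem IsCov.finrank_simple [IsAlgClosed k] (hfin : ∀ X Y : C, Module.Finite k (X ⟶ Y))
    {P T : C} {e : P ⟶ T} (h : IsCov P T e) [Simple T] {S : C} [Simple S] [Decidable (Nonempty (T ≅ S))] :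
    Module.finrank k (P ⟶ S) = if Nonempty (T ≅ S) then 1 else 0 := by
  have := h.epi
  have := hfin T T
  have := hfin T S
  have := hfin P S
  have key : Module.finrank k (P ⟶ S) = Module.finrank k (T ⟶ S) := by
    apply le_antisymm
    · have hs : Function.Surjective (Linear.leftComp k S e) := by
        intro f
        by_cases hf : f = 0
        · exact ⟨0, by rw [map_zero, hf]⟩
        · obtain ⟨g, hg⟩ := h.hom f hf
          exact ⟨g.hom, hg.symm⟩
      exact LinearMap.finrank_le_finrank_of_surjective hs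
    · have hi : Function.Injective (Linear.leftComp k S e) := by
        intro u v huv
        have : e ≫ u = e ≫ v := huv
        exact (cancel_epi e).1 this
      exact LinearMap.finrank_le_finrank_of_injective hi
  rw [key]
  split_ifs with hi
  · exact (finrank_hom_simple_simple_eq_one_iff k T S).2 hi
  · have h1 := finrank_hom_simple_simple_eq_one_iff k T S
    have h2 := finrank_hom_simple_simple_le_one k T S
    have h3 : Module.finrank k (T ⟶ S) ≠ 1 := fun h => hi (h1.1 h)
    omega

/-- `dim Hom(P, -)` is additive on short exact sequences for `P` projective. -/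
theorem finrank_hom_shortExact (hfin : ∀ X Y : C, Module.Finite k (X ⟶ Y)) {P : C} [Projective P]
    {S : ShortComplex C} (hS : S.ShortExact) :
    Module.finrank k (P ⟶ S.X₂) = Module.finrank k (P ⟶ S.X₁) + Module.finrank k (P ⟶ S.X₃) := by
  have := hS.mono_f
  have := hS.epi_g
  have := hfin P S.X₂
  have := hfin P S.X₁
  have := hfin P S.X₃
  have hsurj : Function.Surjective (Linear.rightComp k P S.g) := fun u =>
    ⟨Projective.factorThru u S.g, Projective.factorThru_comp u S.g⟩
  have hinj : Function.Injective (Linear.rightComp k P S.f) := by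
    intro u v huv
    have : u ≫ S.f = v ≫ S.f := huv
    exact (cancel_mono S.f).1 this
  have h1 := LinearMap.finrank_range_add_finrank_ker (Linear.rightComp k P S.g)
  rw [LinearMap.range_eq_top.2 hsurj, finrank_top] at h1
  have hker : LinearMap.ker (Linear.rightComp k P S.g) =
      LinearMap.range (Linear.rightComp k P S.f) := by
    ext u
    constructor
    · intro hu
      have hu' : u ≫ S.g = 0 := hu
      exact ⟨hS.exact.lift u hu', hS.exact.lift_f u hu'⟩
    · rintro ⟨w, rfl⟩
      show (w ≫ S.f) ≫ S.g = 0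
      rw [Category.assoc, S.zero, comp_zero]
  rw [hker, LinearMap.finrank_range_of_inj hinj] at h1
  omega

end Cov

end Pool.Agent.MUG
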