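import Pool.Agent.MUG.JK
import Pool.Agent.MUG.CF
import Pool.Agent.MUG.C4

/-! Row EE: every object of the join of the two images of a braided finite tensor category in
its center is a quotient, and a subobject, of an object `K P ⊗ J P'` with `P`, `P'`
projective (helper27). -/

open CategoryTheory MonoidalCategory Limits Abelian

universe w v u

namespace Pool.Agent.MUG

set_option linter.unusedSectionVars false

section Gen

variable {C : Type u} [Category.{v} C] [Abelian C] [MonoidalCategory C] [MonoidalPreadditive C]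
  [RigidCategory C]

/-- A projective object of the full subcategory is projective in `P`. -/
theorem projIn_of_projective (P : ObjectProperty C) [TensorSub P] (X : P.FullSubcategory)
    (hX : Projective X) : ProjIn P X.obj := by
  refine ⟨X.property, fun {Y Y'} f hf hY hY' g => ?_⟩
  let f' : (⟨Y, hY⟩ : P.FullSubcategory) ⟶ ⟨Y', hY'⟩ := ObjectProperty.homMk f
  let g' : X ⟶ (⟨Y', hY'⟩ : P.FullSubcategory) := ObjectProperty.homMk g
  haveI : Epi f' := P.ι.epi_of_epi_map hf
  refine ⟨(Projective.factorThru g' f').hom, ?_⟩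
  exact congrArg InducedCategory.Hom.hom (Projective.factorThru_comp g' f')

/-- An object projective in `P` is projective in the full subcategory. -/
theorem projective_of_projIn (P : ObjectProperty C) [TensorSub P] (X : P.FullSubcategory)
    (hX : ProjIn P X.obj) : Projective X := by
  refine ⟨fun {E F} f e _ => ?_⟩
  have he : Epi e.hom := by
    have := P.preservesEpimorphisms_ι_of_isNormalMonoCategory
    exact inferInstanceAs (Epi (P.ι.map e))
  obtain ⟨h, hh⟩ := hX.2 e.hom he E.property F.property f.hom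
  exact ⟨ObjectProperty.homMk h, ObjectProperty.hom_ext _ hh⟩

theorem exists_projIn_epi {k : Type*} [Field k] [Linear k C] [MonoidalLinear k C]
    (hC : IsFinite k C) (P : ObjectProperty C) [TensorSub P] (X : C) (hX : P X) :
    ∃ (R : C) (p : R ⟶ X), ProjIn P R ∧ Epi p := by
  haveI := sub_enough hC P
  let X' : P.FullSubcategory := ⟨X, hX⟩
  refine ⟨(Projective.over X').obj, (Projective.π X').hom,
    projIn_of_projective P _ (Projective.projective_over X'), ?_⟩
  exact sub_epi_hom P _

/-- A subquotient which is projective in `P` is a retract. -/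
theorem projIn_split (P : ObjectProperty C) [hP : TensorSub P] {R T : C} (hR : ProjIn P R)
    (hT : P T) (h : IsSubquotient R T) : ∃ (i : R ⟶ T) (r : T ⟶ R), i ≫ r = 𝟙 R := by
  obtain ⟨K, i, p, hi, hp⟩ := h
  have hK : P K := hP.sub i hT
  obtain ⟨s, hs⟩ := hR.2 p hp hK hR.1 (𝟙 R)
  have hsm : Mono s := by
    have : Mono (s ≫ p) := by rw [hs]; infer_instance
    exact mono_of_mono s p
  have hm : Mono (s ≫ i) := mono_comp _ _
  obtain ⟨r, hr⟩ := MUE64.ProjIn.mono_split (tsub P) ((projIn_iff P R).1 hR) hT (s ≫ i) hm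
  exact ⟨s ≫ i, r, hr⟩

theorem ProjIn.tensorR (P : ObjectProperty C) [hP : TensorSub P] {X W : C} (hX : ProjIn P X)
    (hW : P W) : ProjIn P (X ⊗ W) :=
  (projIn_iff P _).2 (((projIn_iff P X).1 hX).tensor_right (tsub P) hW)

theorem ProjIn.tensorL (P : ObjectProperty C) [hP : TensorSub P] {X W : C} (hX : ProjIn P X)
    (hW : P W) : ProjIn P (W ⊗ X) :=
  (projIn_iff P _).2 (((projIn_iff P X).1 hX).tensor_left (tsub P) hW)

theorem ProjIn.retr (P : ObjectProperty C) [hP : TensorSub P] {X Y : C} (hX : ProjIn P X)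
    (i : Y ⟶ X) (r : X ⟶ Y) (h : i ≫ r = 𝟙 Y) : ProjIn P Y :=
  (projIn_iff P _).2 (((projIn_iff P X).1 hX).retract (tsub P) i r h)

/-- The unit embeds in an object which is projective in `P`. -/
theorem exists_unit_projIn {k : Type*} [Field k] [Linear k C] [MonoidalLinear k C]
    (hC : IsFinite k C) (P : ObjectProperty C) [hP : TensorSub P] :
    ∃ (I : C) (j : 𝟙_ C ⟶ I), ProjIn P I ∧ Mono j := by
  obtain ⟨R, p, hR, hp⟩ := exists_projIn_epi hC P (𝟙_ C) hP.unit
  refine ⟨R ⊗ Rᘁ, η_ R (Rᘁ), hR.tensorR P (hP.rdual hR.1), ?_⟩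
  haveI := hC.unit
  refine mono_of_nonzero_from_simple ?_
  intro h0
  have h1 : 𝟙 R = 0 := by
    have h2 := ExactPairing.evaluation_coevaluation R (Rᘁ)
    rw [h0, MonoidalPreadditive.zero_whiskerRight, zero_comp] at h2
    have h3 : (λ_ R).hom ≫ (ρ_ R).inv = 0 := h2.symm
    have h4 : 𝟙 R = (λ_ R).inv ≫ ((λ_ R).hom ≫ (ρ_ R).inv) ≫ (ρ_ R).hom := by simp
    rw [h4, h3, zero_comp, comp_zero]
  have h2 : p = 0 := by rw [← Category.id_comp p, h1, zero_comp]
  have h3 : 𝟙 (𝟙_ C) = 0 := by
    rw [← cancel_epi p, h2, zero_comp, zero_comp]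
  exact id_nonzero (𝟙_ C) h3

/-- Every object of `P` embeds in an object which is projective in `P`. -/
theorem exists_mono_projIn {k : Type*} [Field k] [Linear k C] [MonoidalLinear k C]
    (hC : IsFinite k C) (P : ObjectProperty C) [hP : TensorSub P] (X : C) (hX : P X) :
    ∃ (R : C) (i : X ⟶ R), ProjIn P R ∧ Mono i := by
  obtain ⟨I, j, hI, hj⟩ := exists_unit_projIn hC P
  refine ⟨I ⊗ X, (λ_ X).inv ≫ j ▷ X, hI.tensorR P hX, mono_comp _ _⟩

end Gen

set_option backward.isDefEq.respectTransparency.types false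

section EE

variable {k : Type*} [Field k] {C : Type u} [Category.{v} C] [Abelian C] [Linear k C]
  [MonoidalCategory C] [MonoidalPreadditive C] [MonoidalLinear k C] [RigidCategory C]
  [BraidedCategory C]

/-- Every object of the join is a subquotient of `K P ⊗ J P'` with `P`, `P'` projective. -/
theorem gProp_proj (hC : IsFinite k C) {N : Center C} (hN : gProp N) :
    ∃ P P' : C, Projective P ∧ Projective P' ∧ IsSubquotient N (kObj P ⊗ jObj P') := by
  haveI := hC.enough
  obtain ⟨X, X', h⟩ := (gProp_iff N).1 hN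
  refine ⟨Projective.over X, Projective.over X', inferInstance, inferInstance, h.trans ?_⟩
  exact IsSubquotient.of_epi (kMap (Projective.π X) ⊗ₘ jMap (Projective.π X'))

/-- An object projective in the join is a retract of `K P ⊗ J P'` with `P`, `P'`
projective. -/
theorem ee_split (hC : IsFinite k C) {R : Center C} (hR : ProjIn gProp R) :
    ∃ (P P' : C) (i : R ⟶ kObj P ⊗ jObj P') (r : kObj P ⊗ jObj P' ⟶ R),
      Projective P ∧ Projective P' ∧ i ≫ r = 𝟙 R := by
  obtain ⟨P, P', hP, hP', h⟩ := gProp_proj hC hR.1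
  obtain ⟨i, r, hir⟩ := projIn_split gProp hR (gProp_kj P P') h
  exact ⟨P, P', i, r, hP, hP', hir⟩

/-- Row EE, the quotient form. -/
theorem ee_quot (hC : IsFinite k C) {N : Center C} (hN : gProp N) :
    ∃ (P P' : C) (g : kObj P ⊗ jObj P' ⟶ N), Projective P ∧ Projective P' ∧ Epi g := by
  obtain ⟨R, p, hR, hp⟩ := exists_projIn_epi (center_isFinite hC) gProp N hN
  obtain ⟨P, P', i, r, hP, hP', hir⟩ := ee_split hC hR
  have hr : Epi r := by
    have : Epi (i ≫ r) := by rw [hir]; infer_instance
    exact epi_of_epi i r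
  exact ⟨P, P', r ≫ p, hP, hP', epi_comp _ _⟩

/-- Row EE, the subobject form. -/
theorem ee_sub (hC : IsFinite k C) {N : Center C} (hN : gProp N) :
    ∃ (P P' : C) (g : N ⟶ kObj P ⊗ jObj P'), Projective P ∧ Projective P' ∧ Mono g := by
  obtain ⟨R, p, hR, hp⟩ := exists_mono_projIn (center_isFinite hC) gProp N hN
  obtain ⟨P, P', i, r, hP, hP', hir⟩ := ee_split hC hR
  have hr : Mono i := by
    have : Mono (i ≫ r) := by rw [hir]; infer_instance
    exact mono_of_mono i r
  exact ⟨P, P', p ≫ i, hP, hP', mono_comp _ _⟩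

/-- The unit of the center embeds in an object `I` which is projective in the join, and `I` is
a retract of `K P ⊗ J P'` with `P`, `P'` projective. -/
theorem ee_unit (hC : IsFinite k C) :
    ∃ (I : Center C) (j : 𝟙_ (Center C) ⟶ I), ProjIn gProp I ∧ Mono j :=
  exists_unit_projIn (center_isFinite hC) gProp

end EE

end Pool.Agent.MUG
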