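import Pool.Agent.MUG.TT
import Pool.Agent.MUG.EE

/-!
# Row TI: a loop of `D` vanishing on `D` vanishes on `(D ⊓ D^)^` (helper64)
-/

open CategoryTheory MonoidalCategory Limits Abelian

universe w v u

set_option linter.unusedSectionVars false
set_option backward.isDefEq.respectTransparency.types false

namespace Pool.Agent.MUG

section TI

variable {k : Type*} [Field k] {Z : Type u} [Category.{v} Z] [Abelian Z] [Linear k Z]
  [MonoidalCategory Z] [MonoidalPreadditive Z] [MonoidalLinear k Z] [RigidCategory Z]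
  [BraidedCategory Z]

/-- The first half, in a braided finite tensor category: a loop which vanishes on all objects
factors, after pulling back along an epimorphism, through a morphism of the center killed
by `e`. -/
theorem exists_kj {C : Type u} [Category.{v} C] [Abelian C] [Linear k C]
    [MonoidalCategory C] [MonoidalPreadditive C] [MonoidalLinear k C] [RigidCategory C]
    [BraidedCategory C] (hC : IsFinite k C) {M : C} (ℓ : LoopData M) (h : ∀ Y, ℓ.map Y = 0) :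
    ∃ (P P' O : C) (g : kObj P ⊗ jObj P' ⟶ kObj ℓ.V' ⊗ jObj ℓ.V) (π : O ⟶ M)
      (l : O ⟶ P ⊗ P'), Epi π ∧ l ≫ g.f = π ≫ ℓ.t ∧ g.f ≫ ℓ.e = 0 := by
  obtain ⟨Q, hQP, hQ⟩ := Gen.exists_separator hC.finCat
  let W : Center C := kObj ℓ.V' ⊗ jObj ℓ.V
  have hk : Gen.Kill W (Y := M) (W := 𝟙_ C) ℓ.t ℓ.e Q := by
    change (Q ◁ ℓ.t) ≫ ((β_ Q (ℓ.V' ⊗ ℓ.V)).hom ≫ ((kObj ℓ.V' ⊗ jObj ℓ.V).2.β Q).hom) ≫
      (Q ◁ ℓ.e) = 0
    rw [kj_beta_eq]
    have h1 := h Q
    rw [ℓ.map_eq] at h1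
    have h2 : (ℓ.t ▷ Q) ≫ tb (kb Q ℓ.V') (jb Q ℓ.V) ≫ (Q ◁ ℓ.e) = 0 := by
      rw [← cancel_mono (ρ_ Q).hom, zero_comp, Category.assoc, Category.assoc]
      exact h1
    rw [Category.assoc, BraidedCategory.braiding_naturality_right_assoc]
    exact (congrArg (fun t => (β_ Q M).hom ≫ t) h2).trans comp_zero
  obtain ⟨G, i, t', hi, ht', hepi⟩ := Gen.exists_gen hC.finCat hQ W ℓ.t
  have hie : i.f ≫ ℓ.e = 0 := by
    rw [← cancel_epi (Gen.bC Q G t'), comp_zero, ← Category.assoc, Gen.bC_comp, ht']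
    exact (Gen.bC_comp_eq_zero (Q := Q) (N := W) (Y := M) (W := 𝟙_ C) (y := ℓ.t) ℓ.e).2 hk
  have hG : gProp G := by
    have : Mono i := cen_mono_of i hi
    exact TensorSub.sub i (gProp_kj ℓ.V' ℓ.V)
  obtain ⟨P, P', g, -, -, hg⟩ := ee_quot hC hG
  have hgf : Epi g.f := cen_epi_f g
  refine ⟨P, P', pullback t' g.f, g ≫ i, pullback.fst t' g.f, pullback.snd t' g.f,
    inferInstance, ?_, ?_⟩
  · have e1 : pullback.snd t' g.f ≫ g.f = pullback.fst t' g.f ≫ t' := pullback.condition.symm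
    exact (Category.assoc _ _ _).symm.trans ((congrArg (fun t => t ≫ i.f) e1).trans
      ((Category.assoc _ _ _).trans (congrArg (fun t => pullback.fst t' g.f ≫ t) ht')))
  · change (g.f ≫ i.f) ≫ ℓ.e = 0
    rw [Category.assoc, hie, comp_zero]

/-- Row TI. -/
theorem loop_zero (hZ : IsFinite k Z) (D : ObjectProperty Z) [hD : TensorSub D] {M : Z}
    (ℓ : LoopData M) (hM : D M) (hV' : D ℓ.V') (hV : D ℓ.V) (h : ∀ Y, D Y → ℓ.map Y = 0)
    (Y : Z) (hY : centralizer (D ⊓ centralizer D) Y) : ℓ.map Y = 0 := by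
  let MD : D.FullSubcategory := ⟨M, hM⟩
  let VD' : D.FullSubcategory := ⟨ℓ.V', hV'⟩
  let VD : D.FullSubcategory := ⟨ℓ.V, hV⟩
  let tD : MD ⟶ VD' ⊗ VD := ObjectProperty.homMk ℓ.t
  let eD : VD' ⊗ VD ⟶ 𝟙_ D.FullSubcategory := ObjectProperty.homMk ℓ.e
  let ℓD : LoopData MD := ⟨VD', VD, tD, eD⟩
  have hℓD : ∀ U, ℓD.map U = 0 := by
    intro U
    ext
    exact h U.obj U.property
  obtain ⟨P, P', O, g, π, l, hπ, hl, hge⟩ := exists_kj (finite_sub hZ D) ℓD hℓD
  let g' : P.obj ⊗ P'.obj ⟶ ℓ.V' ⊗ ℓ.V := g.f.hom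
  have hg' : ∀ U, D U → CompB (tb (kb U P.obj) (jb U P'.obj)) (tb (kb U ℓ.V') (jb U ℓ.V)) g' := by
    intro U hU
    have h1 := g.comm (⟨U, hU⟩ : D.FullSubcategory)
    rw [kj_beta_eq, kj_beta_eq] at h1
    exact congrArg (fun f => f.hom) h1
  have h2 := compB_transfer D P'.property hV g' hg' Y hY
  have hπ' : Epi π.hom := sub_epi_hom D π
  have hl' : l.hom ≫ g' = π.hom ≫ ℓ.t := congrArg (fun f => f.hom) hl
  have hge' : g' ≫ ℓ.e = 0 := congrArg (fun f => f.hom) hge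
  have hπY : Epi (π.hom ▷ Y) := inferInstanceAs (Epi ((tensorRight Y).map π.hom))
  rw [← cancel_epi (π.hom ▷ Y), comp_zero, ℓ.map_eq, ← comp_whiskerRight_assoc, ← hl',
    comp_whiskerRight, Category.assoc]
  unfold CompB at h2
  rw [reassoc_of% h2, ← whiskerLeft_comp_assoc, hge', MonoidalPreadditive.whiskerLeft_zero]
  simp

end TI

end Pool.Agent.MUG
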