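import Pool.Agent.MUG.DCF1
import Pool.Agent.MUG.TI
import Pool.Agent.MUG.SS5
import Pool.Agent.MUG.C2

/-! Row DCF: the double centralizer of a symmetric semisimple tensor subcategory `F` is `F`
(helper27).

`κ_Y` is a loop with transparent images.  Putting the averaging endomorphism `av0` of `F` on
the strand of the loop gives a loop `κ'` with
`κ'_Y = ∑ j, d j • ptr_{X j} ((c_{X j, M} Y) ≫ κ_{X j ⊗ Y})`, so that all images of `κ'` are in
`F`, and `κ'_{Y ⊗ U} = κ'_Y ⊗ U` for `U` in `F^^`. -/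

open CategoryTheory MonoidalCategory Limits Abelian

universe w v u

set_option linter.unusedSectionVars false

namespace Pool.Agent.MUG

open Pool.Agent.MUE79

namespace DCF

variable {k : Type*} [Field k] {Z : Type u} [Category.{v} Z] [Abelian Z] [Linear k Z]
  [MonoidalCategory Z] [MonoidalPreadditive Z] [MonoidalLinear k Z] [RigidCategory Z]

/-- Epi-mono factorizations and membership: if `a ≫ b = q ≫ i` with `q` epi, `i` mono and the
middle object of `a ≫ b` in `P`, then the middle object of `q ≫ i` is in `P`. -/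
theorem mem_of_factor (P : ObjectProperty Z) [hP : TensorSub P] {X Y T I : Z} {a : X ⟶ T}
    {b : T ⟶ Y} {q : X ⟶ I} {i : I ⟶ Y} [Epi q] [Mono i] (h : a ≫ b = q ≫ i) (hT : P T) :
    P I := by
  have h1 : i ≫ cokernel.π b = 0 := by
    rw [← cancel_epi q, comp_zero, ← Category.assoc, ← h, Category.assoc, cokernel.condition,
      comp_zero]
  let s : I ⟶ Abelian.image b := kernel.lift _ i h1
  have hs : s ≫ Abelian.image.ι b = i := kernel.lift_ι _ _ _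
  have hm : Mono s := by
    have : Mono (s ≫ Abelian.image.ι b) := by rw [hs]; infer_instance
    exact mono_of_mono s (Abelian.image.ι b)
  exact hP.sub s (hP.quot (Abelian.factorThruImage b) hT)

/-- In a semisimple tensor subcategory every monomorphism splits. -/
theorem mono_splits (P : ObjectProperty Z) [hP : TensorSub P]
    (hss : ∀ {A B : Z}, P A → P B → ∀ p : A ⟶ B, Epi p → ∃ s, s ≫ p = 𝟙 B)
    {S R : Z} (hS : P S) (hR : P R) (i : S ⟶ R) [Mono i] : ∃ r : R ⟶ S, i ≫ r = 𝟙 S := by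
  refine MUE64.ProjIn.mono_split (tsub P) ((projIn_iff P S).1 ⟨hS, ?_⟩) hR i inferInstance
  intro Y Y' f hf hY hY' g
  obtain ⟨s, hs⟩ := hss hY hY' f hf
  exact ⟨g ≫ s, by rw [Category.assoc, hs, Category.comp_id]⟩

section
variable [BraidedCategory Z]

/-- The image of `f` is transparent. -/
theorem comm_image {M Y : Z} (f : M ⟶ Y) (U : Z) (h : (U ◁ f) ≫ c2 U Y = U ◁ f) :
    Comm U (Abelian.image f) := by
  have hm : Mono (U ◁ Abelian.image.ι f) :=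
    inferInstanceAs (Mono ((tensorLeft U).map (Abelian.image.ι f)))
  have he : Epi (U ◁ Abelian.factorThruImage f) :=
    inferInstanceAs (Epi ((tensorLeft U).map (Abelian.factorThruImage f)))
  have h3 : (U ◁ Abelian.factorThruImage f) ≫ (U ◁ Abelian.image.ι f) = U ◁ f := by
    rw [← whiskerLeft_comp, Abelian.image.fac]
  rw [← h3, Category.assoc, c2_nat_right, cancel_epi] at h
  change c2 U (Abelian.image f) = 𝟙 _
  rw [← cancel_mono (U ◁ Abelian.image.ι f), Category.id_comp]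
  exact h

/-- `f` factors through an object of `F` without morphisms to transparent simple objects. -/
def Good (F : ObjectProperty Z) {X Y : Z} (f : X ⟶ Y) : Prop :=
  ∃ (T : Z) (a : X ⟶ T) (b : T ⟶ Y), a ≫ b = f ∧ F T ∧
    ∀ S : Z, Simple S → (∀ W, Comm S W) → ∀ h : T ⟶ S, h = 0

/-- `f` factors through an object of `F`. -/
def Thru (F : ObjectProperty Z) {X Y : Z} (f : X ⟶ Y) : Prop :=
  ∃ (T : Z) (a : X ⟶ T) (b : T ⟶ Y), a ≫ b = f ∧ F T

theorem Good.thru {F : ObjectProperty Z} {X Y : Z} {f : X ⟶ Y} (h : Good F f) : Thru F f := by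
  obtain ⟨T, a, b, h1, h2, -⟩ := h
  exact ⟨T, a, b, h1, h2⟩

theorem zero_mem (F : ObjectProperty Z) [hF : TensorSub F] {O : Z} (hO : IsZero O) : F O := by
  have : Epi (0 : 𝟙_ Z ⟶ O) := ⟨fun _ _ _ => hO.eq_of_src _ _⟩
  exact hF.quot (0 : 𝟙_ Z ⟶ O) hF.unit

theorem Good.zero (F : ObjectProperty Z) [hF : TensorSub F] (X Y : Z) :
    Good F (0 : X ⟶ Y) := by
  obtain ⟨O, hO⟩ := HasZeroObject.zero (C := Z)
  exact ⟨O, 0, 0, by simp, zero_mem F hO, fun S _ _ h => hO.eq_of_src _ _⟩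

theorem Good.add {F : ObjectProperty Z} [hF : TensorSub F] {X Y : Z} {f g : X ⟶ Y}
    (hf : Good F f) (hg : Good F g) : Good F (f + g) := by
  obtain ⟨T, a, b, h1, h2, h3⟩ := hf
  obtain ⟨T', a', b', h1', h2', h3'⟩ := hg
  refine ⟨T ⊞ T', biprod.lift a a', biprod.desc b b', ?_, hF.biprod h2 h2', ?_⟩
  · rw [biprod.lift_desc, h1, h1']
  · intro S hS hSW h
    apply biprod.hom_ext'
    · rw [comp_zero]; exact h3 S hS hSW _
    · rw [comp_zero]; exact h3' S hS hSW _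

theorem Good.smul {F : ObjectProperty Z} {X Y : Z} {f : X ⟶ Y}
    (hf : Good F f) (c : k) : Good F (c • f) := by
  obtain ⟨T, a, b, h1, h2, h3⟩ := hf
  exact ⟨T, c • a, b, by rw [Linear.smul_comp, h1], h2, h3⟩

theorem Good.sum {F : ObjectProperty Z} [hF : TensorSub F] {X Y : Z} {ι : Type*}
    (s : Finset ι) (f : ι → (X ⟶ Y)) (h : ∀ i ∈ s, Good F (f i)) :
    Good F (∑ i ∈ s, f i) := by
  classical
  induction s using Finset.induction_on with
  | empty => rw [Finset.sum_empty]; exact Good.zero F X Y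
  | insert a s ha ih =>
    rw [Finset.sum_insert ha]
    exact (h a (Finset.mem_insert_self a s)).add
      (ih fun i hi => h i (Finset.mem_insert_of_mem hi))

theorem Thru.add {F : ObjectProperty Z} [hF : TensorSub F] {X Y : Z} {f g : X ⟶ Y}
    (hf : Thru F f) (hg : Thru F g) : Thru F (f + g) := by
  obtain ⟨T, a, b, h1, h2⟩ := hf
  obtain ⟨T', a', b', h1', h2'⟩ := hg
  refine ⟨T ⊞ T', biprod.lift a a', biprod.desc b b', ?_, hF.biprod h2 h2'⟩
  rw [biprod.lift_desc, h1, h1']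

theorem Thru.smul {F : ObjectProperty Z} {X Y : Z} {f : X ⟶ Y}
    (hf : Thru F f) (c : k) : Thru F (c • f) := by
  obtain ⟨T, a, b, h1, h2⟩ := hf
  exact ⟨T, c • a, b, by rw [Linear.smul_comp, h1], h2⟩

theorem Thru.sum {F : ObjectProperty Z} [hF : TensorSub F] {X Y : Z} {ι : Type*}
    (s : Finset ι) (f : ι → (X ⟶ Y)) (h : ∀ i ∈ s, Thru F (f i)) :
    Thru F (∑ i ∈ s, f i) := by
  classical
  induction s using Finset.induction_on with
  | empty => rw [Finset.sum_empty]; exact (Good.zero F X Y).thru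
  | insert a s ha ih =>
    rw [Finset.sum_insert ha]
    exact (h a (Finset.mem_insert_self a s)).add
      (ih fun i hi => h i (Finset.mem_insert_of_mem hi))

/-- A good morphism with transparent image is zero, if `F` is semisimple. -/
theorem Good.eq_zero {F : ObjectProperty Z} [hF : TensorSub F]
    (hss : ∀ {A B : Z}, F A → F B → ∀ p : A ⟶ B, Epi p → ∃ s, s ≫ p = 𝟙 B)
    (hart : ∀ X : Z, IsArtinianObject X)
    {X Y : Z} {f : X ⟶ Y} (hf : Good F f) (htr : ∀ U, (U ◁ f) ≫ c2 U Y = U ◁ f) : f = 0 := by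
  obtain ⟨T, a, b, h1, h2, h3⟩ := hf
  by_contra hne
  -- the image of `a ≫ factorThruImage b` is transparent
  let R : Z := Abelian.image b
  let a' : X ⟶ R := a ≫ Abelian.factorThruImage b
  have ha' : a' ≫ Abelian.image.ι b = f := by
    rw [Category.assoc, Abelian.image.fac, h1]
  have htr' : ∀ U, (U ◁ a') ≫ c2 U R = U ◁ a' := by
    intro U
    have hm : Mono (U ◁ Abelian.image.ι b) :=
      inferInstanceAs (Mono ((tensorLeft U).map (Abelian.image.ι b)))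
    rw [← cancel_mono (U ◁ Abelian.image.ι b), Category.assoc, ← c2_nat_right, ← Category.assoc,
      ← whiskerLeft_comp, ha', htr U]
  let I : Z := Abelian.image a'
  have hI : ∀ U, Comm U I := fun U => comm_image a' U (htr' U)
  have hRF : F R := hF.quot (Abelian.factorThruImage b) h2
  have hIz : ¬ IsZero I := by
    intro h0
    apply hne
    rw [← ha', ← Abelian.image.fac a', h0.eq_of_src (Abelian.image.ι a') 0, comp_zero, zero_comp]
  have := hart I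
  obtain ⟨S, hS⟩ : ∃ S : Subobject I, Simple (S : Z) := exists_simple_subobject hIz
  have hSt : ∀ W, Comm (S : Z) W := by
    intro W
    have h5 : c2 W (S : Z) = 𝟙 _ := by
      have hm : Mono (W ◁ S.arrow) :=
        inferInstanceAs (Mono ((tensorLeft W).map S.arrow))
      have h6 : c2 W I = 𝟙 _ := hI W
      rw [← cancel_mono (W ◁ S.arrow), ← c2_nat_right, h6, Category.comp_id, Category.id_comp]
    exact comm_symm h5
  let i : (S : Z) ⟶ R := S.arrow ≫ Abelian.image.ι a'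
  have hi : Mono i := mono_comp _ _
  have hSF : F (S : Z) := hF.sub i hRF
  obtain ⟨r, hr⟩ := mono_splits F hss hSF hRF i
  have h7 := h3 (S : Z) hS hSt (Abelian.factorThruImage b ≫ r)
  have h8 : r = 0 := by
    rw [← cancel_epi (Abelian.factorThruImage b), h7, comp_zero]
  rw [h8, comp_zero] at hr
  exact id_nonzero (S : Z) hr.symm

/-- The trace over S of a morphism factoring through `I` factors through `D ⊗ I`. -/
theorem ptr_thru (X D : Z) [ExactPairing X D] {Y Y' I : Z} (q : X ⊗ Y ⟶ I)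
    (i : I ⟶ X ⊗ Y') : ∃ (a : Y ⟶ D ⊗ I) (b : D ⊗ I ⟶ Y'), a ≫ b = ptr X D (q ≫ i) := by
  refine ⟨𝟙 Y ⊗≫ kap X D ▷ Y ⊗≫ D ◁ q, D ◁ i ⊗≫ ε_ X D ▷ Y' ⊗≫ 𝟙 Y', ?_⟩
  unfold ptr
  monoidal

/-- The unit object commutes with everything, and so do its isomorphic copies. -/
theorem cc_of_iso_unit {S : Z} (e : S ≅ 𝟙_ Z) (Y : Z) : cc S Y = 𝟙 _ := by
  have h1 : c2 (𝟙_ Z) Y = 𝟙 _ := B0.comm_unit Y
  have h2 := c2_nat_left e.hom Y
  rw [h1, Category.comp_id] at h2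
  have : Mono (e.hom ▷ Y) := inferInstanceAs (Mono ((tensorRight Y).map e.hom))
  change c2 S Y = 𝟙 _
  rw [← cancel_mono (e.hom ▷ Y), ← h2, Category.id_comp]

variable {F : ObjectProperty Z} {J : Type} {X : J → Z} [Fintype J]

/-- The loop `ℓ` with the averaging endomorphism on its strand. -/
noncomputable def avLoop {M : Z} (ℓ : LoopData M) (X : J → Z) (d : J → k) : LoopData M where
  V' := ℓ.V'
  V := ℓ.V
  t := ℓ.t ≫ (ℓ.V' ◁ av0 X d ℓ.V)
  e := ℓ.e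

/-- The morphism whose trace is the `j`-th term. -/
noncomputable def term {M : Z} (ℓ : LoopData M) (S Y : Z) : S ⊗ (M ⊗ Y) ⟶ S ⊗ Y :=
  (α_ S M Y).inv ≫ (β_ S M).hom ▷ Y ≫ (α_ M S Y).hom ≫ ℓ.map (S ⊗ Y)

theorem avLoop_map {M : Z} (ℓ : LoopData M) (d : J → k) (Y : Z) :
    (avLoop ℓ X d).map Y = ∑ j, d j • ptr (X j) ((X j)ᘁ) (term ℓ (X j) Y) := by
  have h1 : ∀ j, ptr (X j) ((X j)ᘁ) (term ℓ (X j) Y) = _ := fun j =>
    ptr_loop ℓ (X j) ((X j)ᘁ) Y
  simp only [h1]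
  change ((ℓ.t ≫ (ℓ.V' ◁ av0 X d ℓ.V)) ▷ Y) ≫ lcore ℓ.V' ℓ.V Y ≫ (ℓ.e ▷ Y) ≫ (λ_ Y).hom = _
  rw [comp_whiskerRight, Category.assoc]
  unfold av0
  rw [whiskerLeft_sum, sum_whiskerRight, Preadditive.sum_comp, Preadditive.comp_sum]
  refine Finset.sum_congr rfl fun j _ => ?_
  rw [MonoidalLinear.whiskerLeft_smul, MonoidalLinear.smul_whiskerRight, Linear.smul_comp,
    Linear.comp_smul]

/-- The terms have their image in `F`. -/
theorem term_thru [hF : TensorSub F] {M : Z} (ℓ : LoopData M)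
    (hTR : ∀ U Y, (U ◁ ℓ.map Y) ≫ c2 U Y = U ◁ ℓ.map Y)
    (hvec : ∀ W, (∀ U, Comm W U) → F W) {S : Z} (hS : F S) (Y : Z) :
    Thru F (ptr S (Sᘁ) (term ℓ S Y)) := by
  obtain ⟨a, b, hab⟩ := ptr_thru S (Sᘁ) (Y := M ⊗ Y) (Y' := Y)
    ((α_ S M Y).inv ≫ (β_ S M).hom ▷ Y ≫ (α_ M S Y).hom ≫
      Abelian.factorThruImage (ℓ.map (S ⊗ Y))) (Abelian.image.ι (ℓ.map (S ⊗ Y)))
  have h2 : ((α_ S M Y).inv ≫ (β_ S M).hom ▷ Y ≫ (α_ M S Y).hom ≫
      Abelian.factorThruImage (ℓ.map (S ⊗ Y))) ≫ Abelian.image.ι (ℓ.map (S ⊗ Y)) =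
      term ℓ S Y := by
    simp only [Category.assoc, Abelian.image.fac]
    rfl
  rw [h2] at hab
  refine ⟨_, a, b, hab, hF.tensor (hF.rdual hS) (hvec _ fun U => ?_)⟩
  exact comm_symm (comm_image (ℓ.map (S ⊗ Y)) U (hTR U (S ⊗ Y)))

/-- The terms for nontrivial simple objects are good. -/
theorem term_good [hF : TensorSub F] {M : Z} (ℓ : LoopData M)
    (hTR : ∀ U Y, (U ◁ ℓ.map Y) ≫ c2 U Y = U ◁ ℓ.map Y)
    (hvec : ∀ W, (∀ U, Comm W U) → F W)
    (hvec1 : ∀ T, Simple T → (∀ U, Comm T U) → Nonempty (T ≅ 𝟙_ Z))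
    {S : Z} (hS : F S) (hSs : Simple S) (hS1 : ¬ Nonempty (S ≅ 𝟙_ Z)) (Y : Z) :
    Good F (ptr S (Sᘁ) (term ℓ S Y)) := by
  obtain ⟨a, b, hab⟩ := ptr_thru S (Sᘁ) (Y := M ⊗ Y) (Y' := Y)
    ((α_ S M Y).inv ≫ (β_ S M).hom ▷ Y ≫ (α_ M S Y).hom ≫
      Abelian.factorThruImage (ℓ.map (S ⊗ Y))) (Abelian.image.ι (ℓ.map (S ⊗ Y)))
  have h2 : ((α_ S M Y).inv ≫ (β_ S M).hom ▷ Y ≫ (α_ M S Y).hom ≫
      Abelian.factorThruImage (ℓ.map (S ⊗ Y))) ≫ Abelian.image.ι (ℓ.map (S ⊗ Y)) =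
      term ℓ S Y := by
    simp only [Category.assoc, Abelian.image.fac]
    rfl
  rw [h2] at hab
  have hI : ∀ U, Comm U (Abelian.image (ℓ.map (S ⊗ Y))) := fun U =>
    comm_image (ℓ.map (S ⊗ Y)) U (hTR U (S ⊗ Y))
  refine ⟨_, a, b, hab, hF.tensor (hF.rdual hS) (hvec _ fun U => comm_symm (hI U)), ?_⟩
  intro T hT hTt h
  obtain ⟨e⟩ := hvec1 T hT hTt
  by_contra hne
  -- the mate
  let h' : Abelian.image (ℓ.map (S ⊗ Y)) ⟶ S :=
    tensorLeftHomEquiv _ S (Sᘁ) (𝟙_ Z) (h ≫ e.hom) ≫ (ρ_ S).hom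
  have hne' : h' ≠ 0 := by
    intro h0
    have h3 : tensorLeftHomEquiv (Abelian.image (ℓ.map (S ⊗ Y))) S (Sᘁ) (𝟙_ Z)
        (h ≫ e.hom) = 0 := by
      rw [← cancel_mono (ρ_ S).hom, zero_comp]
      exact h0
    have h4 : h ≫ e.hom = 0 := by
      apply (tensorLeftHomEquiv (Abelian.image (ℓ.map (S ⊗ Y))) S (Sᘁ) (𝟙_ Z)).injective
      rw [h3]
      simp [tensorLeftHomEquiv]
    apply hne
    rw [← cancel_mono e.hom, h4, zero_comp]
  have hep : Epi h' := epi_of_nonzero_to_simple hne'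
  apply hS1
  refine hvec1 S hSs fun U => comm_symm ?_
  -- `S` is a quotient of a transparent object
  have h5 : c2 U (Abelian.image (ℓ.map (S ⊗ Y))) = 𝟙 _ := hI U
  have he : Epi (U ◁ h') := inferInstanceAs (Epi ((tensorLeft U).map h'))
  change c2 U S = 𝟙 _
  rw [← cancel_epi (U ◁ h'), c2_nat_right, h5, Category.id_comp, Category.comp_id]

/-- The term of the unit. -/
theorem term_unit {M : Z} (ℓ : LoopData M) {S : Z} (e : S ≅ 𝟙_ Z) (Y : Z) :
    ptr S (Sᘁ) (term ℓ S Y) = ℓ.map Y := by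
  have h1 : ptr S (Sᘁ) (term ℓ S Y) = _ := ptr_loop ℓ S (Sᘁ) Y
  rw [h1, cc_of_iso_unit e, ← id_whiskerRight, ptr_tensor_id]
  have h2 : tr S (Sᘁ) (𝟙 S) = 𝟙 (𝟙_ Z) := by
    rw [tr_iso e (DB := 𝟙_ Z), tr_unit]
  rw [h2]
  unfold LoopData.map
  monoidal

end

section Main

variable [BraidedCategory Z] {F : ObjectProperty Z} {J : Type} {X : J → Z} [Fintype J]

/-- **DCF.**  A symmetric semisimple tensor subcategory is its own double centralizer, given a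
loop with transparent images which is not zero. -/
theorem dcf_of_loop' [IsAlgClosed k] (hZ : IsFinite k Z) [hF : TensorSub F]
    (hss : ∀ {A B : Z}, F A → F B → ∀ p : A ⟶ B, Epi p → ∃ s, s ≫ p = 𝟙 B)
    (hcom : ∀ A B, F A → F B → Comm A B) (hX : SFam F J X) {d : J → k} (hd : IsDim X d)
    (hvec : ∀ W, (∀ U, Comm W U) → F W)
    (hvec1 : ∀ T, Simple T → (∀ U, Comm T U) → Nonempty (T ≅ 𝟙_ Z))
    {M Y0 : Z} (ℓ : LoopData M) (hne : ℓ.map Y0 ≠ 0)
    (hTR : ∀ U Y, (U ◁ ℓ.map Y) ≫ c2 U Y = U ◁ ℓ.map Y) :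
    centralizer (centralizer F) ≤ F := by
  classical
  have hunit : Simple (𝟙_ Z) := hZ.unit
  have h1 : 𝟙 (𝟙_ Z) ≠ 0 := id_nonzero (𝟙_ Z)
  have hcF : TensorSub (centralizer F) := tensorSub_centralizer F
  obtain ⟨j0, ⟨e0⟩⟩ := hX.all (𝟙_ Z) hunit hF.unit
  have hd0 : d j0 = 1 := by
    apply smul_id_inj h1
    rw [← hd j0, tr_iso e0.symm (DB := 𝟙_ Z), tr_unit, one_smul]
  let ℓ' : LoopData M := avLoop ℓ X d
  -- all images of `ℓ'` are in `F`
  have hthru : ∀ Y, Thru F (ℓ'.map Y) := by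
    intro Y
    change Thru F ((avLoop ℓ X d).map Y)
    rw [avLoop_map]
    exact Thru.sum _ _ fun j _ => (term_thru ℓ hTR hvec (hX.mem j) Y).smul _
  -- `ℓ'` is not zero on `Y0`
  have hne' : ℓ'.map Y0 ≠ 0 := by
    intro h0
    have h2 : (avLoop ℓ X d).map Y0 = 0 := h0
    rw [avLoop_map, ← Finset.add_sum_erase _ _ (Finset.mem_univ j0), hd0, one_smul,
      term_unit ℓ e0.symm] at h2
    have h3 : ℓ.map Y0 = -∑ j ∈ Finset.univ.erase j0, d j •
        ptr (X j) ((X j)ᘁ) (term ℓ (X j) Y0) := eq_neg_of_add_eq_zero_left h2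
    have h4 : Good F (ℓ.map Y0) := by
      rw [h3, ← Finset.sum_neg_distrib]
      refine Good.sum _ _ fun j hj => ?_
      rw [← neg_smul]
      refine (term_good ℓ hTR hvec hvec1 (hX.mem j) (hX.simple j) ?_ Y0).smul _
      rintro ⟨e⟩
      exact (Finset.ne_of_mem_erase hj) (hX.inj j j0 ⟨e ≪≫ e0⟩)
    exact hne (h4.eq_zero hss hZ.artinian (fun U => hTR U Y0))
  -- the image of the averaging endomorphism is in the centralizer
  let E : Z := Abelian.image (av0 X d ℓ.V)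
  have hE : centralizer F E := by
    intro U hU
    refine comm_symm (comm_image (av0 X d ℓ.V) U ?_)
    exact av0_cc hZ.hom_finite hZ.artinian hss h1 hcom hX hd hU ℓ.V
  -- `ℓ'` is a loop with strand `E`
  let ℓ'' : LoopData M :=
    ⟨ℓ.V', E, ℓ.t ≫ (ℓ.V' ◁ Abelian.factorThruImage (av0 X d ℓ.V)),
      (ℓ.V' ◁ Abelian.image.ι (av0 X d ℓ.V)) ≫ ℓ.e⟩
  have hℓ : ∀ Y, ℓ'.map Y = ℓ''.map Y := by
    intro Y
    change ((ℓ.t ≫ (ℓ.V' ◁ av0 X d ℓ.V)) ▷ Y) ≫ lcore ℓ.V' ℓ.V Y ≫ (ℓ.e ▷ Y) ≫ (λ_ Y).hom =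
      ((ℓ.t ≫ (ℓ.V' ◁ Abelian.factorThruImage (av0 X d ℓ.V))) ▷ Y) ≫ lcore ℓ.V' E Y ≫
        (((ℓ.V' ◁ Abelian.image.ι (av0 X d ℓ.V)) ≫ ℓ.e) ▷ Y) ≫ (λ_ Y).hom
    have h2 := lcore_nat (𝟙 ℓ.V') (Abelian.image.ι (av0 X d ℓ.V)) Y
    rw [id_tensorHom] at h2
    simp only [comp_whiskerRight, Category.assoc]
    rw [← reassoc_of% h2, ← comp_whiskerRight_assoc (ℓ.V' ◁ Abelian.factorThruImage _),
      ← whiskerLeft_comp, Abelian.image.fac]
  intro U hU
  have hEU : Comm E U := comm_symm (hU E hE)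
  have hmul : ℓ'.map (Y0 ⊗ U) = (α_ M Y0 U).inv ≫ (ℓ'.map Y0 ▷ U) := by
    rw [hℓ, hℓ]
    exact ℓ''.map_tensor Y0 U hEU
  -- the image `I` of `ℓ'` on `Y0`
  let I : Z := Abelian.image (ℓ'.map Y0)
  have hI : F I := by
    obtain ⟨T, a, b, hab, hT⟩ := hthru Y0
    refine mem_of_factor F (a := a) (b := b) (q := Abelian.factorThruImage (ℓ'.map Y0))
      (i := Abelian.image.ι (ℓ'.map Y0)) ?_ hT
    rw [hab, Abelian.image.fac]
  have hIU : F (I ⊗ U) := by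
    obtain ⟨T, a, b, hab, hT⟩ := hthru (Y0 ⊗ U)
    have hm : Mono (Abelian.image.ι (ℓ'.map Y0) ▷ U) :=
      inferInstanceAs (Mono ((tensorRight U).map (Abelian.image.ι (ℓ'.map Y0))))
    have he : Epi (Abelian.factorThruImage (ℓ'.map Y0) ▷ U) :=
      inferInstanceAs (Epi ((tensorRight U).map (Abelian.factorThruImage (ℓ'.map Y0))))
    have he' : Epi ((α_ M Y0 U).inv ≫ (Abelian.factorThruImage (ℓ'.map Y0) ▷ U)) :=
      epi_comp _ _
    refine mem_of_factor F (a := a) (b := b)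
      (q := (α_ M Y0 U).inv ≫ (Abelian.factorThruImage (ℓ'.map Y0) ▷ U))
      (i := Abelian.image.ι (ℓ'.map Y0) ▷ U) ?_ hT
    rw [hab, hmul, Category.assoc, ← comp_whiskerRight, Abelian.image.fac]
  have hI0 : 𝟙 I ≠ 0 := by
    intro h
    apply hne'
    rw [← Abelian.image.fac (ℓ'.map Y0), ← Category.id_comp (Abelian.image.ι (ℓ'.map Y0))]
    change Abelian.factorThruImage (ℓ'.map Y0) ≫ 𝟙 I ≫ Abelian.image.ι (ℓ'.map Y0) = 0
    rw [h, zero_comp, comp_zero]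
  have hev : Epi (ε_ I (Iᘁ)) := C2.epi_ev hunit hI0
  have hev' : Epi ((ε_ I (Iᘁ)) ▷ U) :=
    inferInstanceAs (Epi ((tensorRight U).map (ε_ I (Iᘁ))))
  have hq : Epi ((α_ (Iᘁ) I U).inv ≫ (ε_ I (Iᘁ) ▷ U) ≫ (λ_ U).hom) := epi_comp _ _
  exact hF.quot ((α_ (Iᘁ) I U).inv ≫ (ε_ I (Iᘁ) ▷ U) ≫ (λ_ U).hom)
    (hF.tensor (hF.rdual hI) hIU)

/-- **DCF.**  In every characteristic. -/
theorem dcf_of_loop [IsAlgClosed k] (hZ : IsFinite k Z) (F : ObjectProperty Z) [hF : TensorSub F]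
    (hss : ∀ {A B : Z}, F A → F B → ∀ p : A ⟶ B, Epi p → ∃ s, s ≫ p = 𝟙 B)
    (hcom : ∀ A B, F A → F B → Comm A B)
    (hvec : ∀ W, (∀ U, Comm W U) → F W)
    (hvec1 : ∀ T, Simple T → (∀ U, Comm T U) → Nonempty (T ≅ 𝟙_ Z))
    {M Y0 : Z} (ℓ : LoopData M) (hne : ℓ.map Y0 ≠ 0)
    (hTR : ∀ U Y, (U ◁ ℓ.map Y) ≫ c2 U Y = U ◁ ℓ.map Y) :
    centralizer (centralizer F) ≤ F := by
  obtain ⟨J, hJ, X, hX⟩ := exists_sfam (k := k) hZ F
  obtain ⟨d, hd⟩ := exists_dims (k := k) hZ.hom_finite hZ.unit X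
  exact dcf_of_loop' hZ hss hcom hX hd hvec hvec1 ℓ hne hTR

/-- A nonsplit extension `0 → 𝟙 → U → V → 0` with `V` in `F` is not centralized by `F^`. -/
theorem exists_not_comm [IsAlgClosed k] (hZ : IsFinite k Z) (F : ObjectProperty Z)
    [hF : TensorSub F]
    (hss : ∀ {A B : Z}, F A → F B → ∀ p : A ⟶ B, Epi p → ∃ s, s ≫ p = 𝟙 B)
    (hcom : ∀ A B, F A → F B → Comm A B)
    (hvec : ∀ W, (∀ U, Comm W U) → F W)
    (hvec1 : ∀ T, Simple T → (∀ U, Comm T U) → Nonempty (T ≅ 𝟙_ Z))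
    {M Y0 : Z} (ℓ : LoopData M) (hne : ℓ.map Y0 ≠ 0)
    (hTR : ∀ U Y, (U ◁ ℓ.map Y) ≫ c2 U Y = U ◁ ℓ.map Y)
    {U V : Z} (p : U ⟶ V) [Epi p] (hV : F V) (hns : ¬ ∃ s : V ⟶ U, s ≫ p = 𝟙 V) :
    ∃ Y, centralizer F Y ∧ ¬ Comm U Y := by
  by_contra hcon
  push Not at hcon
  apply hns
  have hU : F U := dcf_of_loop hZ F hss hcom hvec hvec1 ℓ hne hTR U fun Y hY => hcon Y hY
  exact hss hU hV p inferInstance

end Main

end DCF

end Pool.Agent.MUG
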