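import Pool.Agent.MUG.C0
import Pool.Agent.MUG.B0
import Pool.Agent.MUG.Join

open CategoryTheory MonoidalCategory Limits Abelian

universe w v u

namespace Pool.Agent.MUG

namespace Q4a

section Gen

variable {C : Type u} [Category.{v} C] [Abelian C]

theorem not_zero_of_mono {X Y : C} (f : X ⟶ Y) [Mono f] (h : f = 0) : IsZero X := by
  rw [IsZero.iff_id_eq_zero, ← cancel_mono f, h, comp_zero, comp_zero]

theorem mono_pi {X Y : C} (f : X ⟶ Y) (h : f = 0) : Mono (cokernel.π f) := by
  subst h; infer_instance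

/-- An object outside `R` has a subquotient outside `R` all of whose proper subobjects and
quotients are in `R`. -/
theorem exists_min (R : ObjectProperty C)
    (hsub : ∀ {X Y : C} (f : X ⟶ Y) [Mono f], R Y → R X)
    (hquot : ∀ {X Y : C} (f : X ⟶ Y) [Epi f], R X → R Y)
    (hA : ∀ X : C, IsArtinianObject X) (hN : ∀ X : C, IsNoetherianObject X)
    (V₀ : C) (hV₀ : ¬ R V₀) :
    ∃ V : C, IsSubquotient V V₀ ∧ ¬ R V ∧
      (∀ {M : C} (m : M ⟶ V) [Mono m], ¬ IsIso m → R M) ∧
      (∀ {Q : C} (q : V ⟶ Q) [Epi q], ¬ IsIso q → R Q) := by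
  have := hA V₀
  -- a minimal subobject outside `R`
  have htop : ¬ R ((⊤ : Subobject V₀) : C) := fun h => hV₀ (hquot (⊤ : Subobject V₀).arrow h)
  obtain ⟨K, hK, hKmin⟩ := (wellFounded_lt (α := Subobject V₀)).has_min
    {K | ¬ R (K : C)} ⟨⊤, htop⟩
  have hKs : ∀ {M : C} (m : M ⟶ (K : C)) [Mono m], ¬ IsIso m → R M := by
    intro M m _ hm
    by_contra hR
    have h1 : ¬ R ((Subobject.mk (m ≫ K.arrow)) : C) := fun h =>
      hR (hsub (Subobject.underlyingIso (m ≫ K.arrow)).inv h)
    have h2 : Subobject.mk (m ≫ K.arrow) ≤ K := by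
      conv_rhs => rw [← Subobject.mk_arrow K]
      exact Subobject.mk_le_mk_of_comm m rfl
    have h3 : ¬ (Subobject.mk (m ≫ K.arrow) < K) := hKmin _ h1
    have h4 : Subobject.mk (m ≫ K.arrow) = K := by
      by_contra hne
      exact h3 (lt_of_le_of_ne h2 hne)
    apply hm
    -- `m` is an isomorphism
    have h5 : K ≤ Subobject.mk (m ≫ K.arrow) := le_of_eq h4.symm
    have h6 : Subobject.mk K.arrow ≤ Subobject.mk (m ≫ K.arrow) := by
      rw [Subobject.mk_arrow]; exact h5
    have h7 : Subobject.ofMkLEMk K.arrow (m ≫ K.arrow) h6 ≫ m = 𝟙 _ := by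
      rw [← cancel_mono K.arrow, Category.assoc, Subobject.ofMkLEMk_comp, Category.id_comp]
    have : Epi m := by
      have : Epi (Subobject.ofMkLEMk K.arrow (m ≫ K.arrow) h6 ≫ m) := by
        rw [h7]; infer_instance
      exact epi_of_epi (Subobject.ofMkLEMk K.arrow (m ≫ K.arrow) h6) m
    exact isIso_of_mono_of_epi m
  have := hN (K : C)
  -- a maximal subobject of `K` with quotient outside `R`
  have hbot : ¬ R (cokernel (⊥ : Subobject (K : C)).arrow) := by
    intro h
    apply hK
    have h1 : (⊥ : Subobject (K : C)).arrow = 0 := Subobject.bot_arrow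
    have : Mono (cokernel.π (⊥ : Subobject (K : C)).arrow) := mono_pi _ h1
    exact hsub (cokernel.π (⊥ : Subobject (K : C)).arrow) h
  obtain ⟨L, hL, hLmax⟩ := (wellFounded_gt (α := Subobject (K : C))).has_min
    {L | ¬ R (cokernel L.arrow)} ⟨⊥, hbot⟩
  refine ⟨cokernel L.arrow, ?_, hL, ?_, ?_⟩
  · exact ⟨(K : C), K.arrow, cokernel.π L.arrow, inferInstance, inferInstance⟩
  · -- proper subobjects
    intro M m _ hm
    have h1 : ¬ IsIso (pullback.snd m (cokernel.π L.arrow)) := by
      intro hi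
      apply hm
      have : Epi m := by
        have h2 : pullback.fst m (cokernel.π L.arrow) ≫ m =
            pullback.snd m (cokernel.π L.arrow) ≫ cokernel.π L.arrow := pullback.condition
        have : Epi (pullback.fst m (cokernel.π L.arrow) ≫ m) := by
          rw [h2]; exact epi_comp _ _
        exact epi_of_epi (pullback.fst m (cokernel.π L.arrow)) m
      exact isIso_of_mono_of_epi m
    exact hquot (pullback.fst m (cokernel.π L.arrow))
      (hKs (pullback.snd m (cokernel.π L.arrow)) h1)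
  · -- proper quotients
    intro Q q _ hq
    by_contra hR
    have hle : L ≤ kernelSubobject (cokernel.π L.arrow ≫ q) :=
      le_kernelSubobject _ _ (by rw [cokernel.condition_assoc, zero_comp])
    have hepi : Epi (cokernel.π L.arrow ≫ q) := epi_comp _ _
    -- the quotient of `K` by this kernel is `Q`
    have h1 : ¬ R (cokernel (kernelSubobject (cokernel.π L.arrow ≫ q)).arrow) := by
      intro h
      apply hR
      have h6 : Epi (cokernel.π (kernelSubobject (cokernel.π L.arrow ≫ q)).arrow ≫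
        cokernel.desc (kernelSubobject (cokernel.π L.arrow ≫ q)).arrow
        (cokernel.π L.arrow ≫ q) (kernelSubobject_arrow_comp _)) := by
        rw [cokernel.π_desc]; exact hepi
      have h7 : Epi (cokernel.desc (kernelSubobject (cokernel.π L.arrow ≫ q)).arrow
        (cokernel.π L.arrow ≫ q) (kernelSubobject_arrow_comp _)) :=
        epi_of_epi (cokernel.π (kernelSubobject (cokernel.π L.arrow ≫ q)).arrow) _
      exact hquot (cokernel.desc (kernelSubobject (cokernel.π L.arrow ≫ q)).arrow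
        (cokernel.π L.arrow ≫ q) (kernelSubobject_arrow_comp _)) h
    have h2 := hLmax _ h1
    have h3 : L = kernelSubobject (cokernel.π L.arrow ≫ q) := by
      by_contra hne
      exact h2 (lt_of_le_of_ne hle hne)
    apply hq
    have : Mono q := by
      apply Preadditive.mono_of_cancel_zero
      intro A g hg
      obtain ⟨A', p, hp, x, hx⟩ :=
        surjective_up_to_refinements_of_epi (cokernel.π L.arrow) g
      have h4 : x ≫ (cokernel.π L.arrow ≫ q) = 0 := by
        rw [← Category.assoc, ← hx, Category.assoc, hg, comp_zero]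
      have h5 : (kernelSubobject (cokernel.π L.arrow ≫ q)).Factors x :=
        (kernelSubobject_factors_iff _ _).2 h4
      rw [← h3] at h5
      have h6 : x ≫ cokernel.π L.arrow = 0 := by
        rw [← Subobject.factorThru_arrow L x h5, Category.assoc, cokernel.condition, comp_zero]
      rw [← cancel_epi p, hx, h6, comp_zero]
    exact isIso_of_mono_of_epi q

/-- A nonzero object of finite length has a simple subobject and a simple quotient. -/
theorem exists_simples (hA : ∀ X : C, IsArtinianObject X) (hN : ∀ X : C, IsNoetherianObject X)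
    {V : C} (hV : ¬ IsZero V) :
    ∃ (c₁ c₂ : C) (i : c₁ ⟶ V) (p : V ⟶ c₂), Mono i ∧ Epi p ∧ Simple c₁ ∧ Simple c₂ := by
  have := hA V
  have := hN V
  have hbot : (⊥ : Subobject V) ≠ ⊤ := by
    intro h
    apply hV
    have : IsIso (⊥ : Subobject V).arrow := (Subobject.isIso_arrow_iff_eq_top _).2 h
    have h1 : (⊥ : Subobject V).arrow = 0 := Subobject.bot_arrow
    rw [IsZero.iff_id_eq_zero, ← cancel_epi (⊥ : Subobject V).arrow, h1, zero_comp, zero_comp]
  obtain ⟨M, hM, hmax⟩ := (wellFounded_gt (α := Subobject V)).has_min {K' | K' ≠ ⊤} ⟨⊥, hbot⟩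
  exact ⟨simpleSubobject hV, cokernel M.arrow, simpleSubobjectArrow hV, cokernel.π M.arrow,
    inferInstance, inferInstance, inferInstance, simple_cokernel_of_maximal M hM hmax⟩

end Gen

end Q4a

section Q4

variable {k : Type*} [Field k] {Z : Type u} [Category.{v} Z] [Abelian Z] [Linear k Z]
  [MonoidalCategory Z] [MonoidalPreadditive Z] [MonoidalLinear k Z] [RigidCategory Z]
  [BraidedCategory Z]

omit [Abelian Z] [MonoidalPreadditive Z] [RigidCategory Z] in
theorem comm_symm {X Y : Z} (h : Comm X Y) : Comm Y X := by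
  unfold Comm at *
  rw [← cancel_epi (β_ X Y).hom, ← Category.assoc, h, Category.id_comp, Category.comp_id]

omit [MonoidalLinear k Z] in
/-- Row Q4a. -/
theorem vsel_a (hZ : IsFinite k Z) (B : ObjectProperty Z)
    (hB : ∀ V, B V → ∀ S, Simple S → IsSubquotient S V → Invertible S)
    (P : ObjectProperty Z) [TensorSub P]
    (h2 : ∀ V, B V → ∀ S, Simple S → IsSubquotient S V → P ≤ centralizer (fun X => X = S))
    (hne : ∃ Y, P Y ∧ ¬ centralizer B Y) :
    ∃ (V c₁ c₂ : Z) (i : c₁ ⟶ V) (p : V ⟶ c₂), Mono i ∧ Epi p ∧ Invertible c₁ ∧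
      Invertible c₂ ∧ centralizer P c₁ ∧ centralizer P c₂ ∧ centralizer P (kernel p) ∧
      centralizer P (cokernel i) ∧ ¬ centralizer P V ∧ (∀ Y, centralizer B Y → Comm V Y) := by
  have hR : TensorSub (centralizer P) := tensorSub_centralizer P
  obtain ⟨Y₀, hY₀, hY₀'⟩ := hne
  obtain ⟨V₀, hV₀, hc⟩ : ∃ V₀, B V₀ ∧ ¬ Comm Y₀ V₀ := by
    by_contra h
    push Not at h
    exact hY₀' fun V hV => h V hV
  have hV₀R : ¬ centralizer P V₀ := fun h => hc (comm_symm (h Y₀ hY₀))
  have h0 : ∀ X : Z, IsZero X → centralizer P X := fun X hX =>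
    haveI : Mono (0 : X ⟶ 𝟙_ Z) := ⟨fun _ _ _ => hX.eq_of_tgt _ _⟩
    hR.sub (0 : X ⟶ 𝟙_ Z) hR.unit
  obtain ⟨V, hV, hVR, hs, hq⟩ := Q4a.exists_min (centralizer P) (fun f _ h => hR.sub f h)
    (fun f _ h => hR.quot f h) hZ.artinian hZ.noetherian V₀ hV₀R
  have hVz : ¬ IsZero V := fun h => hVR (h0 V h)
  obtain ⟨c₁, c₂, i, p, hi, hp, hc₁, hc₂⟩ := Q4a.exists_simples hZ.artinian hZ.noetherian hVz
  have hs₁ : IsSubquotient c₁ V₀ := (IsSubquotient.of_mono i).trans hV
  have hs₂ : IsSubquotient c₂ V₀ := (IsSubquotient.of_epi p).trans hV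
  have hR₁ : centralizer P c₁ := fun Y hY => comm_symm (h2 V₀ hV₀ c₁ hc₁ hs₁ Y hY c₁ rfl)
  have hR₂ : centralizer P c₂ := fun Y hY => comm_symm (h2 V₀ hV₀ c₂ hc₂ hs₂ Y hY c₂ rfl)
  refine ⟨V, c₁, c₂, i, p, hi, hp, hB V₀ hV₀ c₁ hc₁ hs₁, hB V₀ hV₀ c₂ hc₂ hs₂, hR₁, hR₂,
    ?_, ?_, hVR, ?_⟩
  · refine hs (kernel.ι p) fun hiso => ?_
    have hp0 : p = 0 := by
      rw [← cancel_epi (kernel.ι p), kernel.condition, comp_zero]
    refine hc₂.mono_isIso_iff_nonzero (𝟙 c₂) |>.1 inferInstance ?_
    rw [← cancel_epi p, hp0, zero_comp, zero_comp]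
  · refine hq (cokernel.π i) fun hiso => ?_
    have hi0 : i = 0 := by
      rw [← cancel_mono (cokernel.π i), cokernel.condition, zero_comp]
    refine hc₁.mono_isIso_iff_nonzero (𝟙 c₁) |>.1 inferInstance ?_
    rw [← cancel_mono i, hi0, comp_zero, comp_zero]
  · intro Y hY
    exact comm_symm (centralizer_le B V₀ hV₀ V hV Y hY V rfl)

end Q4

end Pool.Agent.MUG
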