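import Pool.Agent.MUG.Q4b
import Pool.Agent.MUG.Q4a

/-!
# Row LP: loops (helper64)

A loop on `M` is given by `t : M ⟶ V' ⊗ V` and `e : V' ⊗ V ⟶ 𝟙`; it acts on every object `Y` by
`M ⊗ Y ⟶ V' ⊗ V ⊗ Y ⟶ V' ⊗ V ⊗ Y ⟶ Y`, the middle morphism being the double braiding of `V`
with `Y`.
-/

open CategoryTheory MonoidalCategory Limits Abelian

universe w v u

set_option linter.unusedSectionVars false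

namespace Pool.Agent.MUG

section LP0

variable {C : Type u} [Category.{v} C] [MonoidalCategory C] [BraidedCategory C]

/-- Double braiding. -/
def c2 (V Y : C) : V ⊗ Y ⟶ V ⊗ Y := (β_ V Y).hom ≫ (β_ Y V).hom

theorem c2_nat_left {V V' : C} (f : V ⟶ V') (Y : C) : (f ▷ Y) ≫ c2 V' Y = c2 V Y ≫ (f ▷ Y) :=
  (B0.mono_left f Y).symm

theorem c2_nat_right (V : C) {Y Y' : C} (f : Y ⟶ Y') : (V ◁ f) ≫ c2 V Y' = c2 V Y ≫ (V ◁ f) :=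
  (B0.mono_right V f).symm

theorem c2_tensor_right (V Y W : C) : c2 V (Y ⊗ W) = (α_ V Y W).inv ≫
    ((β_ V Y).hom ▷ W) ≫ (α_ Y V W).hom ≫ (Y ◁ c2 V W) ≫
      (α_ Y V W).inv ≫ ((β_ Y V).hom ▷ W) ≫ (α_ V Y W).hom := by
  simp [c2]

theorem c2_tensor_left (V U Y : C) : c2 (V ⊗ U) Y = (α_ V U Y).hom ≫ (V ◁ (β_ U Y).hom) ≫
    (α_ V Y U).inv ≫ (c2 V Y ▷ U) ≫ (α_ V Y U).hom ≫ (V ◁ (β_ Y U).hom) ≫ (α_ V U Y).inv := by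
  exact B0.double_tensor V U Y

theorem c2_tensor_of_comm {V Y W : C} (h : Comm V W) :
    c2 V (Y ⊗ W) = (α_ V Y W).inv ≫ (c2 V Y ▷ W) ≫ (α_ V Y W).hom := by
  have h' : c2 V W = 𝟙 _ := h
  rw [c2_tensor_right, h', whiskerLeft_id, Category.id_comp, Iso.hom_inv_id_assoc,
    ← comp_whiskerRight_assoc]
  rfl

/-- The double braiding of the second factor with `Y`. -/
def lcore (V' V Y : C) : (V' ⊗ V) ⊗ Y ⟶ (V' ⊗ V) ⊗ Y :=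
  (α_ V' V Y).hom ≫ (V' ◁ c2 V Y) ≫ (α_ V' V Y).inv

theorem lcore_nat {V₁' V₁ V₂' V₂ : C} (a : V₁' ⟶ V₂') (b : V₁ ⟶ V₂) (Y : C) :
    ((a ⊗ₘ b) ▷ Y) ≫ lcore V₂' V₂ Y = lcore V₁' V₁ Y ≫ ((a ⊗ₘ b) ▷ Y) := by
  have h1 : ((a ⊗ₘ b) ▷ Y) ≫ (α_ V₂' V₂ Y).hom = (α_ V₁' V₁ Y).hom ≫ (V₁' ◁ (b ▷ Y)) ≫
      (a ▷ (V₂ ⊗ Y)) := by
    rw [tensorHom_def']
    simp
  have h2 : (V₁' ◁ (b ▷ Y)) ≫ (V₁' ◁ c2 V₂ Y) = (V₁' ◁ c2 V₁ Y) ≫ (V₁' ◁ (b ▷ Y)) := by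
    rw [← whiskerLeft_comp, c2_nat_left, whiskerLeft_comp]
  have h3 : (V₁' ◁ (b ▷ Y)) ≫ (a ▷ (V₂ ⊗ Y)) ≫ (α_ V₂' V₂ Y).inv =
      (α_ V₁' V₁ Y).inv ≫ ((a ⊗ₘ b) ▷ Y) := by
    rw [← cancel_epi (α_ V₁' V₁ Y).hom, ← reassoc_of% h1]
    simp
  unfold lcore
  simp only [Category.assoc]
  rw [reassoc_of% h1, ← whisker_exchange_assoc, reassoc_of% h2, h3]

theorem lcore_nat_right (V' V : C) {Y Y' : C} (f : Y ⟶ Y') :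
    ((V' ⊗ V) ◁ f) ≫ lcore V' V Y' = lcore V' V Y ≫ ((V' ⊗ V) ◁ f) := by
  unfold lcore
  simp only [Category.assoc]
  rw [associator_naturality_right_assoc, ← whiskerLeft_comp_assoc, c2_nat_right, whiskerLeft_comp,
    Category.assoc, associator_inv_naturality_right]

/-- The data of a loop. -/
structure LoopData (M : C) where
  V' : C
  V : C
  t : M ⟶ V' ⊗ V
  e : V' ⊗ V ⟶ 𝟙_ C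

namespace LoopData

variable {M : C} (ℓ : LoopData M)

/-- The action of a loop on `Y`. -/
def map (Y : C) : M ⊗ Y ⟶ Y :=
  (ℓ.t ▷ Y) ≫ lcore ℓ.V' ℓ.V Y ≫ (ℓ.e ▷ Y) ≫ (λ_ Y).hom

theorem nat {Y Y' : C} (f : Y ⟶ Y') : (M ◁ f) ≫ ℓ.map Y' = ℓ.map Y ≫ f := by
  unfold map
  simp only [Category.assoc]
  rw [whisker_exchange_assoc, reassoc_of% (lcore_nat_right ℓ.V' ℓ.V f), whisker_exchange_assoc,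
    leftUnitor_naturality]

theorem map_tensor (Y W : C) (h : Comm ℓ.V W) :
    ℓ.map (Y ⊗ W) = (α_ M Y W).inv ≫ (ℓ.map Y ▷ W) := by
  have h1 : lcore ℓ.V' ℓ.V (Y ⊗ W) = (α_ (ℓ.V' ⊗ ℓ.V) Y W).inv ≫ (lcore ℓ.V' ℓ.V Y ▷ W) ≫
      (α_ (ℓ.V' ⊗ ℓ.V) Y W).hom := by
    unfold lcore
    rw [c2_tensor_of_comm h]
    simp
  unfold map
  rw [h1]
  simp

/-- Precomposition. -/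
def pre {M' : C} (f : M' ⟶ M) : LoopData M' where
  V' := ℓ.V'
  V := ℓ.V
  t := f ≫ ℓ.t
  e := ℓ.e

theorem pre_map {M' : C} (f : M' ⟶ M) (Y : C) : (ℓ.pre f).map Y = (f ▷ Y) ≫ ℓ.map Y := by
  change ((f ≫ ℓ.t) ▷ Y) ≫ lcore ℓ.V' ℓ.V Y ≫ (ℓ.e ▷ Y) ≫ (λ_ Y).hom =
    (f ▷ Y) ≫ (ℓ.t ▷ Y) ≫ lcore ℓ.V' ℓ.V Y ≫ (ℓ.e ▷ Y) ≫ (λ_ Y).hom
  rw [comp_whiskerRight, Category.assoc]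

/-- Nesting a loop inside a pair `U' , U` with `u : U' ⊗ U ⟶ 𝟙`. -/
def nest (U' U : C) (u : U' ⊗ U ⟶ 𝟙_ C) : LoopData (U' ⊗ (M ⊗ U)) where
  V' := U' ⊗ ℓ.V'
  V := ℓ.V ⊗ U
  t := (U' ◁ (ℓ.t ▷ U)) ≫ (U' ◁ (α_ ℓ.V' ℓ.V U).hom) ≫ (α_ U' ℓ.V' (ℓ.V ⊗ U)).inv
  e := (α_ U' ℓ.V' (ℓ.V ⊗ U)).hom ≫ (U' ◁ (α_ ℓ.V' ℓ.V U).inv) ≫ (U' ◁ (ℓ.e ▷ U)) ≫
    (U' ◁ (λ_ U).hom) ≫ u

theorem nest_map (U' U : C) (u : U' ⊗ U ⟶ 𝟙_ C) (Y : C) : (ℓ.nest U' U u).map Y =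
    (α_ U' (M ⊗ U) Y).hom ≫ (U' ◁ ((α_ M U Y).hom ≫ (M ◁ (β_ U Y).hom) ≫ (α_ M Y U).inv ≫
      (ℓ.map Y ▷ U) ≫ (β_ Y U).hom)) ≫ (α_ U' U Y).inv ≫ (u ▷ Y) ≫ (λ_ Y).hom := by
  change ((U' ◁ (ℓ.t ▷ U)) ≫ (U' ◁ (α_ ℓ.V' ℓ.V U).hom) ≫ (α_ U' ℓ.V' (ℓ.V ⊗ U)).inv) ▷ Y ≫
    lcore (U' ⊗ ℓ.V') (ℓ.V ⊗ U) Y ≫ (((α_ U' ℓ.V' (ℓ.V ⊗ U)).hom ≫
    (U' ◁ (α_ ℓ.V' ℓ.V U).inv) ≫ (U' ◁ (ℓ.e ▷ U)) ≫ (U' ◁ (λ_ U).hom) ≫ u) ▷ Y) ≫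
    (λ_ Y).hom = _
  have h1 : lcore (U' ⊗ ℓ.V') (ℓ.V ⊗ U) Y = (α_ U' ℓ.V' (ℓ.V ⊗ U)).hom ▷ Y ≫
      (U' ◁ (α_ ℓ.V' ℓ.V U).inv) ▷ Y ≫ (α_ _ _ _).hom ≫ (U' ◁ ((α_ (ℓ.V' ⊗ ℓ.V) U Y).hom ≫
      ((ℓ.V' ⊗ ℓ.V) ◁ (β_ U Y).hom) ≫ (α_ (ℓ.V' ⊗ ℓ.V) Y U).inv ≫
      (lcore ℓ.V' ℓ.V Y ▷ U) ≫ (α_ (ℓ.V' ⊗ ℓ.V) Y U).hom ≫
      ((ℓ.V' ⊗ ℓ.V) ◁ (β_ Y U).hom) ≫ (α_ (ℓ.V' ⊗ ℓ.V) U Y).inv)) ≫ (α_ _ _ _).inv ≫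
      (U' ◁ (α_ ℓ.V' ℓ.V U).hom) ▷ Y ≫ (α_ U' ℓ.V' (ℓ.V ⊗ U)).inv ▷ Y := by
    unfold lcore
    rw [c2_tensor_left]
    monoidal
  have hA : ((ℓ.t ▷ U) ▷ Y) ≫ (α_ (ℓ.V' ⊗ ℓ.V) U Y).hom ≫ ((ℓ.V' ⊗ ℓ.V) ◁ (β_ U Y).hom) ≫
      (α_ (ℓ.V' ⊗ ℓ.V) Y U).inv = (α_ M U Y).hom ≫ (M ◁ (β_ U Y).hom) ≫ (α_ M Y U).inv ≫
      ((ℓ.t ▷ Y) ▷ U) := by
    rw [← associator_inv_naturality_left, associator_naturality_left_assoc,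
      whisker_exchange_assoc]
  have hB : (α_ (ℓ.V' ⊗ ℓ.V) Y U).hom ≫ ((ℓ.V' ⊗ ℓ.V) ◁ (β_ Y U).hom) ≫
      (α_ (ℓ.V' ⊗ ℓ.V) U Y).inv ≫ ((ℓ.e ▷ U) ▷ Y) ≫ ((λ_ U).hom ▷ Y) =
      ((ℓ.e ▷ Y) ▷ U) ≫ ((λ_ Y).hom ▷ U) ≫ (β_ Y U).hom := by
    rw [← associator_inv_naturality_left_assoc, whisker_exchange_assoc,
      ← associator_naturality_left_assoc]
    simp
  rw [h1]
  have e1 : (U' ◁ (α_ ℓ.V' ℓ.V U).hom) ▷ Y ≫ (α_ U' ℓ.V' (ℓ.V ⊗ U)).inv ▷ Y ≫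
      (α_ U' ℓ.V' (ℓ.V ⊗ U)).hom ▷ Y ≫ (U' ◁ (α_ ℓ.V' ℓ.V U).inv) ▷ Y = 𝟙 _ := by
    rw [inv_hom_whiskerRight_assoc, ← comp_whiskerRight, whiskerLeft_hom_inv, id_whiskerRight]
  simp only [comp_whiskerRight, Category.assoc]
  rw [reassoc_of% e1, reassoc_of% e1]
  have e2 : (U' ◁ (ℓ.t ▷ U)) ▷ Y ≫ (α_ U' ((ℓ.V' ⊗ ℓ.V) ⊗ U) Y).hom =
      (α_ U' (M ⊗ U) Y).hom ≫ (U' ◁ ((ℓ.t ▷ U) ▷ Y)) := by simp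
  have e3 : (α_ U' ((ℓ.V' ⊗ ℓ.V) ⊗ U) Y).inv ≫ (U' ◁ (ℓ.e ▷ U)) ▷ Y ≫
      (U' ◁ (λ_ U).hom) ▷ Y = (U' ◁ (((ℓ.e ▷ U) ▷ Y) ≫ ((λ_ U).hom ▷ Y))) ≫
      (α_ U' U Y).inv := by simp
  rw [reassoc_of% e2, reassoc_of% e3, ← whiskerLeft_comp_assoc, ← whiskerLeft_comp_assoc]
  simp only [Category.assoc]
  rw [hB, reassoc_of% hA]
  unfold map
  simp only [comp_whiskerRight, Category.assoc]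

end LoopData

end LP0

section LP1

variable {C : Type u} [Category.{v} C] [Abelian C] [MonoidalCategory C] [MonoidalPreadditive C]
  [BraidedCategory C]

namespace LoopData

/-- The difference of two loops. -/
noncomputable def sub {M : C} (ℓ₁ ℓ₂ : LoopData M) : LoopData M where
  V' := ℓ₁.V' ⊞ ℓ₂.V'
  V := ℓ₁.V ⊞ ℓ₂.V
  t := ℓ₁.t ≫ (biprod.inl ⊗ₘ biprod.inl) + ℓ₂.t ≫ (biprod.inr ⊗ₘ biprod.inr)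
  e := (biprod.fst ⊗ₘ biprod.fst) ≫ ℓ₁.e - (biprod.snd ⊗ₘ biprod.snd) ≫ ℓ₂.e

theorem sub_map {M : C} (ℓ₁ ℓ₂ : LoopData M) (Y : C) :
    (ℓ₁.sub ℓ₂).map Y = ℓ₁.map Y - ℓ₂.map Y := by
  let i₁ : ℓ₁.V' ⊗ ℓ₁.V ⟶ (ℓ₁.V' ⊞ ℓ₂.V') ⊗ (ℓ₁.V ⊞ ℓ₂.V) := biprod.inl ⊗ₘ biprod.inl
  let i₂ : ℓ₂.V' ⊗ ℓ₂.V ⟶ (ℓ₁.V' ⊞ ℓ₂.V') ⊗ (ℓ₁.V ⊞ ℓ₂.V) := biprod.inr ⊗ₘ biprod.inr
  let p₁ : (ℓ₁.V' ⊞ ℓ₂.V') ⊗ (ℓ₁.V ⊞ ℓ₂.V) ⟶ ℓ₁.V' ⊗ ℓ₁.V := biprod.fst ⊗ₘ biprod.fst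
  let p₂ : (ℓ₁.V' ⊞ ℓ₂.V') ⊗ (ℓ₁.V ⊞ ℓ₂.V) ⟶ ℓ₂.V' ⊗ ℓ₂.V := biprod.snd ⊗ₘ biprod.snd
  have h11 : i₁ ≫ p₁ = 𝟙 _ := by
    simp [i₁, p₁]
  have h22 : i₂ ≫ p₂ = 𝟙 _ := by
    simp [i₂, p₂]
  have h12 : i₁ ≫ p₂ = 0 := by
    simp only [i₁, p₂]
    rw [tensorHom_comp_tensorHom, biprod.inl_snd, biprod.inl_snd, MonoidalCategory.tensorHom_def,
      MonoidalPreadditive.zero_whiskerRight, zero_comp]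
  have h21 : i₂ ≫ p₁ = 0 := by
    simp only [i₂, p₁]
    rw [tensorHom_comp_tensorHom, biprod.inr_fst, biprod.inr_fst, MonoidalCategory.tensorHom_def,
      MonoidalPreadditive.zero_whiskerRight, zero_comp]
  let c := lcore (ℓ₁.V' ⊞ ℓ₂.V') (ℓ₁.V ⊞ ℓ₂.V) Y
  have n1 : (i₁ ▷ Y) ≫ c = lcore ℓ₁.V' ℓ₁.V Y ≫ (i₁ ▷ Y) := lcore_nat _ _ Y
  have n2 : (i₂ ▷ Y) ≫ c = lcore ℓ₂.V' ℓ₂.V Y ≫ (i₂ ▷ Y) := lcore_nat _ _ Y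
  change ((ℓ₁.t ≫ i₁ + ℓ₂.t ≫ i₂) ▷ Y) ≫ c ≫ ((p₁ ≫ ℓ₁.e - p₂ ≫ ℓ₂.e) ▷ Y) ≫ (λ_ Y).hom =
    (ℓ₁.t ▷ Y) ≫ lcore ℓ₁.V' ℓ₁.V Y ≫ (ℓ₁.e ▷ Y) ≫ (λ_ Y).hom -
    (ℓ₂.t ▷ Y) ≫ lcore ℓ₂.V' ℓ₂.V Y ≫ (ℓ₂.e ▷ Y) ≫ (λ_ Y).hom
  have hsub : (p₁ ≫ ℓ₁.e - p₂ ≫ ℓ₂.e) ▷ Y = (p₁ ▷ Y) ≫ (ℓ₁.e ▷ Y) - (p₂ ▷ Y) ≫ (ℓ₂.e ▷ Y) := by
    rw [← comp_whiskerRight, ← comp_whiskerRight]
    exact (tensorRight Y).map_sub (f := p₁ ≫ ℓ₁.e) (g := p₂ ≫ ℓ₂.e)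
  have e11 : (i₁ ▷ Y) ≫ (p₁ ▷ Y) = 𝟙 _ := by rw [← comp_whiskerRight, h11, id_whiskerRight]
  have e22 : (i₂ ▷ Y) ≫ (p₂ ▷ Y) = 𝟙 _ := by rw [← comp_whiskerRight, h22, id_whiskerRight]
  have e12 : (i₁ ▷ Y) ≫ (p₂ ▷ Y) = 0 := by
    rw [← comp_whiskerRight, h12, MonoidalPreadditive.zero_whiskerRight]
  have e21 : (i₂ ▷ Y) ≫ (p₁ ▷ Y) = 0 := by
    rw [← comp_whiskerRight, h21, MonoidalPreadditive.zero_whiskerRight]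
  have k11 : (i₁ ▷ Y) ≫ c ≫ (p₁ ▷ Y) = lcore ℓ₁.V' ℓ₁.V Y := by
    rw [reassoc_of% n1, e11, Category.comp_id]
  have k12 : (i₁ ▷ Y) ≫ c ≫ (p₂ ▷ Y) = 0 := by
    rw [reassoc_of% n1, e12, comp_zero]
  have k21 : (i₂ ▷ Y) ≫ c ≫ (p₁ ▷ Y) = 0 := by
    rw [reassoc_of% n2, e21, comp_zero]
  have k22 : (i₂ ▷ Y) ≫ c ≫ (p₂ ▷ Y) = lcore ℓ₂.V' ℓ₂.V Y := by
    rw [reassoc_of% n2, e22, Category.comp_id]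
  rw [MonoidalPreadditive.add_whiskerRight, comp_whiskerRight, comp_whiskerRight, hsub]
  simp only [Preadditive.add_comp, Preadditive.sub_comp, Preadditive.comp_sub, Category.assoc]
  rw [reassoc_of% k11, reassoc_of% k12, reassoc_of% k21, reassoc_of% k22]
  simp

end LoopData

end LP1

section LP2

variable {C : Type u} [Category.{v} C] [Abelian C] [MonoidalCategory C] [MonoidalPreadditive C]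
  [RigidCategory C] [BraidedCategory C]

namespace LoopData

/-- The loop whose vanishing on `Y` says that the image of `ℓ` on `Y` is transparent for `U`. -/
noncomputable def tr {M : C} (ℓ : LoopData M) (U : C) : LoopData (Uᘁ ⊗ (M ⊗ U)) :=
  (ℓ.nest (Uᘁ) U (ε_ U (Uᘁ))).sub (ℓ.pre ((Uᘁ ◁ (β_ U M).inv) ≫ (α_ (Uᘁ) U M).inv ≫
    (ε_ U (Uᘁ) ▷ M) ≫ (λ_ M).hom))

theorem tr_prop {M : C} (ℓ : LoopData M) (U : C) (D : ObjectProperty C) [hD : TensorSub D]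
    (hV' : D ℓ.V') (hV : D ℓ.V) (hU : D U) : D (ℓ.tr U).V' ∧ D (ℓ.tr U).V :=
  ⟨hD.biprod (hD.tensor (hD.rdual hU) hV') hV', hD.biprod (hD.tensor hV hU) hV⟩

/-- `ℓ.tr U` vanishes on `Y` iff the action of `ℓ` on `Y` is compatible with the double braiding
with `U`. -/
theorem tr_map_eq_zero_iff {M : C} (ℓ : LoopData M) (U Y : C) :
    (ℓ.tr U).map Y = 0 ↔ (U ◁ ℓ.map Y) ≫ c2 U Y = U ◁ ℓ.map Y := by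
  have h1 : (U ◁ ℓ.map Y) ≫ c2 U Y = (α_ U M Y).inv ≫ ((β_ U M).hom ▷ Y) ≫ (α_ M U Y).hom ≫
      (M ◁ (β_ U Y).hom) ≫ (α_ M Y U).inv ≫ (ℓ.map Y ▷ U) ≫ (β_ Y U).hom := by
    unfold c2
    rw [BraidedCategory.braiding_naturality_right_assoc]
    simp
  have h2 : (α_ M U Y).hom ≫ (M ◁ (β_ U Y).hom) ≫ (α_ M Y U).inv ≫ (ℓ.map Y ▷ U) ≫
      (β_ Y U).hom = ((β_ U M).inv ▷ Y) ≫ (α_ U M Y).hom ≫ (U ◁ ℓ.map Y) ≫ c2 U Y := by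
    rw [h1]
    simp
  have h3 : ((Uᘁ ◁ (β_ U M).inv) ≫ (α_ (Uᘁ) U M).inv ≫ (ε_ U (Uᘁ) ▷ M) ≫ (λ_ M).hom) ▷ Y ≫
      ℓ.map Y = (α_ (Uᘁ) (M ⊗ U) Y).hom ≫ (Uᘁ ◁ (((β_ U M).inv ▷ Y) ≫ (α_ U M Y).hom ≫
        (U ◁ ℓ.map Y))) ≫ (α_ (Uᘁ) U Y).inv ≫ (ε_ U (Uᘁ) ▷ Y) ≫ (λ_ Y).hom := by
    have h4 : (Uᘁ ◁ (U ◁ ℓ.map Y)) ≫ (α_ (Uᘁ) U Y).inv ≫ (ε_ U (Uᘁ) ▷ Y) ≫ (λ_ Y).hom =
        (α_ (Uᘁ) U (M ⊗ Y)).inv ≫ (ε_ U (Uᘁ) ▷ (M ⊗ Y)) ≫ (λ_ (M ⊗ Y)).hom ≫ ℓ.map Y := by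
      rw [associator_inv_naturality_right_assoc, whisker_exchange_assoc, leftUnitor_naturality]
    simp only [whiskerLeft_comp, Category.assoc]
    rw [h4]
    simp
  unfold tr
  rw [sub_map, sub_eq_zero, pre_map, nest_map, h2, h3]
  have h5 : ∀ f g : U ⊗ (M ⊗ Y) ⟶ U ⊗ Y,
      (α_ (Uᘁ) (M ⊗ U) Y).hom ≫ (Uᘁ ◁ (((β_ U M).inv ▷ Y) ≫ (α_ U M Y).hom ≫ f)) ≫
        (α_ (Uᘁ) U Y).inv ≫ (ε_ U (Uᘁ) ▷ Y) ≫ (λ_ Y).hom =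
      (α_ (Uᘁ) (M ⊗ U) Y).hom ≫ (Uᘁ ◁ (((β_ U M).inv ▷ Y) ≫ (α_ U M Y).hom ≫ g)) ≫
        (α_ (Uᘁ) U Y).inv ≫ (ε_ U (Uᘁ) ▷ Y) ≫ (λ_ Y).hom ↔ f = g := by
    intro f g
    constructor
    · intro h
      apply (tensorLeftHomEquiv (U ⊗ (M ⊗ Y)) U (Uᘁ) Y).symm.injective
      change (Uᘁ ◁ f) ≫ (α_ (Uᘁ) U Y).inv ≫ (ε_ U (Uᘁ) ▷ Y) ≫ (λ_ Y).hom =
        (Uᘁ ◁ g) ≫ (α_ (Uᘁ) U Y).inv ≫ (ε_ U (Uᘁ) ▷ Y) ≫ (λ_ Y).hom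
      simp only [whiskerLeft_comp, Category.assoc] at h
      rw [cancel_epi, cancel_epi, cancel_epi] at h
      exact h
    · intro h
      rw [h]
  exact h5 _ _

end LoopData

end LP2

end Pool.Agent.MUG
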