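import Pool.Agent.MUG.SS4
import Pool.Agent.MUG.LP

/-! Row DCF, geometric part: sliding a trace through a loop (helper27). -/

open CategoryTheory MonoidalCategory

universe v u

set_option linter.unusedSectionVars false

namespace Pool.Agent.MUG

open Pool.Agent.MUE79

section geo

variable {C : Type u} [Category.{v} C] [MonoidalCategory C] [BraidedCategory C]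

theorem kap_slide (X D W : C) [ExactPairing X D] :
    kap X D ▷ W ⊗≫ D ◁ (β_ X W).hom ⊗≫ (β_ D W).hom ▷ X =
      𝟙 (𝟙_ C ⊗ W) ⊗≫ W ◁ kap X D ⊗≫ 𝟙 ((W ⊗ D) ⊗ X) := by
  have h1 := BraidedCategory.braiding_naturality_left (kap X D) W
  calc kap X D ▷ W ⊗≫ D ◁ (β_ X W).hom ⊗≫ (β_ D W).hom ▷ X
      = (kap X D ▷ W ≫ (β_ (D ⊗ X) W).hom) ⊗≫ 𝟙 ((W ⊗ D) ⊗ X) := by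
        rw [BraidedCategory.braiding_tensor_left_hom]
        monoidal
    _ = _ := by
        rw [h1, braiding_tensorUnit_left]
        monoidal

theorem ev_slide (X D W : C) [ExactPairing X D] :
    𝟙 ((D ⊗ W) ⊗ X) ⊗≫ D ◁ (β_ X W).inv ⊗≫ ε_ X D ▷ W =
      (β_ D W).hom ▷ X ⊗≫ W ◁ ε_ X D ⊗≫ 𝟙 (𝟙_ C ⊗ W) := by
  have h1 := BraidedCategory.braiding_naturality_left (ε_ X D) W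
  have h2 : ε_ X D ▷ W = 𝟙 ((D ⊗ X) ⊗ W) ⊗≫ D ◁ (β_ X W).hom ⊗≫ (β_ D W).hom ▷ X ⊗≫
      W ◁ ε_ X D ⊗≫ 𝟙 (𝟙_ C ⊗ W) := by
    calc ε_ X D ▷ W = (ε_ X D ▷ W ≫ (β_ (𝟙_ C) W).hom) ≫ (β_ (𝟙_ C) W).inv := by simp
      _ = (β_ (D ⊗ X) W).hom ≫ W ◁ ε_ X D ≫ (β_ (𝟙_ C) W).inv := by
        rw [h1, Category.assoc]
      _ = _ := by
        rw [BraidedCategory.braiding_tensor_left_hom, braiding_inv_tensorUnit_left]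
        monoidal
  calc 𝟙 ((D ⊗ W) ⊗ X) ⊗≫ D ◁ (β_ X W).inv ⊗≫ ε_ X D ▷ W
      = 𝟙 ((D ⊗ W) ⊗ X) ⊗≫ D ◁ ((β_ X W).inv ≫ (β_ X W).hom) ⊗≫ (β_ D W).hom ▷ X ⊗≫
          W ◁ ε_ X D ⊗≫ 𝟙 (𝟙_ C ⊗ W) := by
        rw [h2]
        monoidal
    _ = _ := by
        rw [Iso.inv_hom_id]
        monoidal

/-- (P6) the trace over X of a conjugate. -/
theorem ptr_conj (X D : C) [ExactPairing X D] {Y Y' : C} (f : X ⊗ Y ⟶ X ⊗ Y') (W : C) :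
    ptr X D (𝟙 (X ⊗ (W ⊗ Y)) ⊗≫ (β_ X W).hom ▷ Y ⊗≫ W ◁ f ⊗≫ (β_ X W).inv ▷ Y' ⊗≫
      𝟙 (X ⊗ (W ⊗ Y'))) = W ◁ ptr X D f := by
  unfold ptr
  calc _ = 𝟙 (W ⊗ Y) ⊗≫ (kap X D ▷ W) ▷ Y ⊗≫ (D ◁ (β_ X W).hom) ▷ Y ⊗≫ (D ⊗ W) ◁ f ⊗≫
          (𝟙 ((D ⊗ W) ⊗ X) ⊗≫ D ◁ (β_ X W).inv ⊗≫ ε_ X D ▷ W) ▷ Y' ⊗≫ 𝟙 (W ⊗ Y') := by
        monoidal
    _ = 𝟙 (W ⊗ Y) ⊗≫ (kap X D ▷ W) ▷ Y ⊗≫ (D ◁ (β_ X W).hom) ▷ Y ⊗≫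
          ((D ⊗ W) ◁ f ≫ (β_ D W).hom ▷ (X ⊗ Y')) ⊗≫ (W ◁ ε_ X D) ▷ Y' ⊗≫ 𝟙 (W ⊗ Y') := by
        rw [ev_slide]
        monoidal
    _ = 𝟙 (W ⊗ Y) ⊗≫ (kap X D ▷ W ⊗≫ D ◁ (β_ X W).hom ⊗≫ (β_ D W).hom ▷ X) ▷ Y ⊗≫
          (W ⊗ D) ◁ f ⊗≫ (W ◁ ε_ X D) ▷ Y' ⊗≫ 𝟙 (W ⊗ Y') := by
        rw [whisker_exchange]
        monoidal
    _ = _ := by
        rw [kap_slide]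
        monoidal

theorem c2_conj (X V Y : C) :
    𝟙 (X ⊗ (V ⊗ Y)) ⊗≫ (β_ X V).hom ▷ Y ⊗≫ c2 V (X ⊗ Y) ⊗≫ (β_ X V).inv ▷ Y ⊗≫
      𝟙 (X ⊗ (V ⊗ Y)) = ((α_ X V Y).inv ≫ cc X V ▷ Y ≫ (α_ X V Y).hom) ≫ X ◁ c2 V Y := by
  rw [c2_tensor_right]
  calc _ = 𝟙 (X ⊗ (V ⊗ Y)) ⊗≫ ((β_ X V).hom ≫ (β_ V X).hom) ▷ Y ⊗≫ X ◁ c2 V Y ⊗≫
        ((β_ X V).hom ≫ (β_ X V).inv) ▷ Y ⊗≫ 𝟙 (X ⊗ (V ⊗ Y)) := by monoidal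
    _ = _ := by
        rw [Iso.hom_inv_id]
        unfold cc
        monoidal

/-- The loop with a trace on its strand. -/
theorem ptr_loop {M : C} (ℓ : LoopData M) (X D Y : C) [ExactPairing X D] :
    ptr X D ((α_ X M Y).inv ≫ (β_ X M).hom ▷ Y ≫ (α_ M X Y).hom ≫ ℓ.map (X ⊗ Y)) =
      (ℓ.t ▷ Y) ≫ ((ℓ.V' ◁ ptr X D (cc X ℓ.V)) ▷ Y) ≫ lcore ℓ.V' ℓ.V Y ≫ (ℓ.e ▷ Y) ≫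
        (λ_ Y).hom := by
  have hA : ptr X D (𝟙 (X ⊗ (ℓ.V ⊗ Y)) ⊗≫ (β_ X ℓ.V).hom ▷ Y ⊗≫ c2 ℓ.V (X ⊗ Y) ⊗≫
      (β_ X ℓ.V).inv ▷ Y ⊗≫ 𝟙 (X ⊗ (ℓ.V ⊗ Y))) = ptr X D (cc X ℓ.V) ▷ Y ≫ c2 ℓ.V Y := by
    rw [c2_conj, ptr_nat_right, ptr_whisker]
  have hB := ptr_conj X D (𝟙 (X ⊗ (ℓ.V ⊗ Y)) ⊗≫ (β_ X ℓ.V).hom ▷ Y ⊗≫ c2 ℓ.V (X ⊗ Y) ⊗≫
      (β_ X ℓ.V).inv ▷ Y ⊗≫ 𝟙 (X ⊗ (ℓ.V ⊗ Y))) ℓ.V'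
  rw [hA] at hB
  have h1 : (β_ X M).hom ≫ ℓ.t ▷ X = X ◁ ℓ.t ≫ (β_ X (ℓ.V' ⊗ ℓ.V)).hom :=
    (BraidedCategory.braiding_naturality_right X ℓ.t).symm
  have h2 : ℓ.e ▷ X ≫ (λ_ X).hom = (β_ X (ℓ.V' ⊗ ℓ.V)).inv ≫ X ◁ ℓ.e ≫ (ρ_ X).hom := by
    rw [Iso.eq_inv_comp, ← BraidedCategory.braiding_naturality_right_assoc,
      braiding_tensorUnit_right]
    simp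
  have h3 : (α_ X M Y).inv ≫ (β_ X M).hom ▷ Y ≫ (α_ M X Y).hom ≫ ℓ.map (X ⊗ Y) =
      X ◁ (ℓ.t ▷ Y ≫ (α_ ℓ.V' ℓ.V Y).hom) ≫
      (𝟙 (X ⊗ (ℓ.V' ⊗ (ℓ.V ⊗ Y))) ⊗≫ (β_ X ℓ.V').hom ▷ (ℓ.V ⊗ Y) ⊗≫
        ℓ.V' ◁ (𝟙 (X ⊗ (ℓ.V ⊗ Y)) ⊗≫ (β_ X ℓ.V).hom ▷ Y ⊗≫ c2 ℓ.V (X ⊗ Y) ⊗≫
      (β_ X ℓ.V).inv ▷ Y ⊗≫ 𝟙 (X ⊗ (ℓ.V ⊗ Y))) ⊗≫ (β_ X ℓ.V').inv ▷ (ℓ.V ⊗ Y) ⊗≫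
        𝟙 (X ⊗ (ℓ.V' ⊗ (ℓ.V ⊗ Y)))) ≫
      X ◁ ((α_ ℓ.V' ℓ.V Y).inv ≫ (ℓ.e ▷ Y) ≫ (λ_ Y).hom) := by
    have h4 : (β_ X (ℓ.V' ⊗ ℓ.V)).inv = 𝟙 _ ⊗≫ ℓ.V' ◁ (β_ X ℓ.V).inv ⊗≫
        (β_ X ℓ.V').inv ▷ ℓ.V ⊗≫ 𝟙 _ := by
      rw [BraidedCategory.braiding_tensor_right_inv]
      monoidal
    calc (α_ X M Y).inv ≫ (β_ X M).hom ▷ Y ≫ (α_ M X Y).hom ≫ ℓ.map (X ⊗ Y)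
        = 𝟙 _ ⊗≫ ((β_ X M).hom ≫ ℓ.t ▷ X) ▷ Y ⊗≫ ℓ.V' ◁ c2 ℓ.V (X ⊗ Y) ⊗≫
            (ℓ.e ▷ X ≫ (λ_ X).hom) ▷ Y ⊗≫ 𝟙 _ := by
          unfold LoopData.map lcore
          monoidal
      _ = 𝟙 _ ⊗≫ (X ◁ ℓ.t ≫ (β_ X (ℓ.V' ⊗ ℓ.V)).hom) ▷ Y ⊗≫ ℓ.V' ◁ c2 ℓ.V (X ⊗ Y) ⊗≫
            ((β_ X (ℓ.V' ⊗ ℓ.V)).inv ≫ X ◁ ℓ.e ≫ (ρ_ X).hom) ▷ Y ⊗≫ 𝟙 _ := by
          rw [h1, h2]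
      _ = _ := by
          rw [h4, BraidedCategory.braiding_tensor_right_hom]
          monoidal
  rw [h3, ptr_nat_left, ptr_nat_right, hB]
  unfold lcore
  monoidal

end geo

end Pool.Agent.MUG
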