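import Mathlib

open CategoryTheory MonoidalCategory Limits Abelian

universe w v u

namespace Pool.Agent.MUG

section Basic

variable {C : Type u} [Category.{v} C] [Abelian C] [MonoidalCategory C]
  [RigidCategory C]

/-- Tensoring with an object of a rigid abelian category is exact. -/
instance instPFLR (X : C) : PreservesFiniteLimits (tensorRight X) := by
  have : (tensorRight X).IsRightAdjoint := ⟨_, ⟨tensorRightAdjunction (ᘁX) X⟩⟩
  exact ⟨fun _ _ _ => inferInstance⟩

instance instPFCR (X : C) : PreservesFiniteColimits (tensorRight X) := by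
  have : (tensorRight X).IsLeftAdjoint := ⟨_, ⟨tensorRightAdjunction X (Xᘁ)⟩⟩
  exact ⟨fun _ _ _ => inferInstance⟩

instance instPFLL (X : C) : PreservesFiniteLimits (tensorLeft X) := by
  have : (tensorLeft X).IsRightAdjoint := ⟨_, ⟨tensorLeftAdjunction X (Xᘁ)⟩⟩
  exact ⟨fun _ _ _ => inferInstance⟩

instance instPFCL (X : C) : PreservesFiniteColimits (tensorLeft X) := by
  have : (tensorLeft X).IsLeftAdjoint := ⟨_, ⟨tensorLeftAdjunction (ᘁX) X⟩⟩
  exact ⟨fun _ _ _ => inferInstance⟩

end Basic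

section FGC

variable (k : Type*) [Field k] (C : Type u) [Category.{v} C] [Abelian C] [Linear k C]
  [MonoidalCategory C] [MonoidalPreadditive C] [RigidCategory C]

/-- The finiteness conditions of a finite tensor category over `k`: finite-dimensional Hom
spaces, every object of finite length, enough projectives, finitely many simple objects up to
isomorphism, and a simple unit object. -/
structure IsFinite : Prop where
  hom_finite : ∀ X Y : C, Module.Finite k (X ⟶ Y)
  artinian : ∀ X : C, IsArtinianObject X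
  noetherian : ∀ X : C, IsNoetherianObject X
  enough : EnoughProjectives C
  simples : ∃ (n : ℕ) (S : Fin n → C), ∀ T : C, Simple T → ∃ i, Nonempty (T ≅ S i)
  unit : Simple (𝟙_ C)

variable {C} in
/-- The action of `ζ` in `Ext(1,1)` on `X` through `- ⊗ X`, an element of `Ext(X,X)`. -/
noncomputable def act [HasExt.{w} C] (X : C) {n : ℕ} (ζ : Ext (𝟙_ C) (𝟙_ C) n) : Ext X X n :=
  (Ext.mk₀ (λ_ X).inv).comp ((ζ.mapExactFunctor (tensorRight X)).comp
    (Ext.mk₀ (λ_ X).hom) (add_zero n)) (zero_add n)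

/-- The condition FGC: `Ext(1,1)` is a finitely generated algebra, and `Ext(X,Y)` is a finitely
generated module over it, for all `X` and `Y`. -/
structure FGC [HasExt.{w} C] : Prop where
  alg : ∃ (r : ℕ) (d : Fin r → ℕ) (x : ∀ i, Ext (𝟙_ C) (𝟙_ C) (d i)),
    ∀ A : ∀ n, Submodule k (Ext (𝟙_ C) (𝟙_ C) n), Ext.mk₀ (𝟙 (𝟙_ C)) ∈ A 0 →
      (∀ i, x i ∈ A (d i)) →
      (∀ m n a b, a ∈ A m → b ∈ A n → a.comp b rfl ∈ A (m + n)) → ∀ n, A n = ⊤
  mod : ∀ X Y : C, ∃ (r : ℕ) (d : Fin r → ℕ) (y : ∀ i, Ext X Y (d i)),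
    ∀ A : ∀ n, Submodule k (Ext X Y n), (∀ i, y i ∈ A (d i)) →
      (∀ m n (ζ : Ext (𝟙_ C) (𝟙_ C) m) (b : Ext X Y n), b ∈ A n →
        (act X ζ).comp b rfl ∈ A (m + n)) → ∀ n, A n = ⊤

end FGC

section Centralizer

variable {C : Type u} [Category.{v} C] [MonoidalCategory C] [BraidedCategory C]

/-- The Müger centralizer of a class `B` of objects: all `X` whose double braiding with every
object of `B` is the identity. -/
def centralizer (B : ObjectProperty C) : ObjectProperty C := fun X =>
  ∀ Y, B Y → (β_ X Y).hom ≫ (β_ Y X).hom = 𝟙 (X ⊗ Y)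

/-- `X` is invertible. -/
def Invertible (X : C) : Prop := ∃ Y : C, Nonempty (X ⊗ Y ≅ 𝟙_ C)

/-- `S` is a subquotient of `X`. -/
def IsSubquotient (S X : C) : Prop := ∃ (K : C) (i : K ⟶ X) (p : K ⟶ S), Mono i ∧ Epi p

end Centralizer

end Pool.Agent.MUG
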