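import Pool.Agent.MUG.Leib

/-!
# Semisimple tensor subcategories of non-zero dimension
-/

open CategoryTheory MonoidalCategory Limits

universe v u

namespace Pool.Agent.MUG

/-- The simple objects of `E` are, up to isomorphism, finitely many `X j`, the composite of the
coevaluation, the braiding and the evaluation of `X j` is multiplication by `d j`, and the sum of
the squares of the `d j` is not zero in `k`. -/
def DimNeZero (k : Type*) [Field k] {Z : Type u} [Category.{v} Z] [Abelian Z] [Linear k Z]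
    [MonoidalCategory Z] [RigidCategory Z] [BraidedCategory Z] (E : ObjectProperty Z) : Prop :=
  ∃ (n : ℕ) (X : Fin n → Z) (d : Fin n → k),
    (∀ j, E (X j) ∧ Simple (X j)) ∧ (∀ i j, Nonempty (X i ≅ X j) → i = j) ∧
    (∀ S : Z, Simple S → E S → ∃ j, Nonempty (S ≅ X j)) ∧
    (∀ j, η_ (X j) ((X j)ᘁ) ≫ (β_ (X j) ((X j)ᘁ)).hom ≫ ε_ (X j) ((X j)ᘁ) =
      d j • 𝟙 (𝟙_ Z)) ∧
    ∑ j, d j * d j ≠ 0

/-- Every epimorphism between objects of `E` has a section. -/
def SplitsEpis {Z : Type u} [Category.{v} Z] (E : ObjectProperty Z) : Prop :=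
  ∀ {A B : Z}, E A → E B → ∀ p : A ⟶ B, Epi p → ∃ s : B ⟶ A, s ≫ p = 𝟙 B

end Pool.Agent.MUG
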