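import Pool.Agent.MUG.E

open CategoryTheory Limits Abelian ZeroObject

universe w w' v v' u u'

namespace Pool.Agent.MUG

namespace E4aux

variable {A : Type u} [Category.{v} A] [Abelian A]

/-- a short complex in `ShortComplex A` is short exact if its three components are -/
theorem shortExact_of_π (S : ShortComplex (ShortComplex A))
    (h₁ : (S.map ShortComplex.π₁).ShortExact) (h₂ : (S.map ShortComplex.π₂).ShortExact)
    (h₃ : (S.map ShortComplex.π₃).ShortExact) : S.ShortExact := by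
  have hk : Nonempty (IsLimit (KernelFork.ofι S.f S.zero)) := by
    obtain ⟨k₁⟩ := (S.map ShortComplex.π₁).exact_and_mono_f_iff_f_is_kernel.1 ⟨h₁.exact, h₁.mono_f⟩
    obtain ⟨k₂⟩ := (S.map ShortComplex.π₂).exact_and_mono_f_iff_f_is_kernel.1 ⟨h₂.exact, h₂.mono_f⟩
    obtain ⟨k₃⟩ := (S.map ShortComplex.π₃).exact_and_mono_f_iff_f_is_kernel.1 ⟨h₃.exact, h₃.mono_f⟩
    exact ⟨ShortComplex.isLimitOfIsLimitπ _
      ((isLimitMapConeForkEquiv' ShortComplex.π₁ S.zero).symm k₁)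
      ((isLimitMapConeForkEquiv' ShortComplex.π₂ S.zero).symm k₂)
      ((isLimitMapConeForkEquiv' ShortComplex.π₃ S.zero).symm k₃)⟩
  have hc : Nonempty (IsColimit (CokernelCofork.ofπ S.g S.zero)) := by
    obtain ⟨k₁⟩ := (S.map ShortComplex.π₁).exact_and_epi_g_iff_g_is_cokernel.1 ⟨h₁.exact, h₁.epi_g⟩
    obtain ⟨k₂⟩ := (S.map ShortComplex.π₂).exact_and_epi_g_iff_g_is_cokernel.1 ⟨h₂.exact, h₂.epi_g⟩
    obtain ⟨k₃⟩ := (S.map ShortComplex.π₃).exact_and_epi_g_iff_g_is_cokernel.1 ⟨h₃.exact, h₃.epi_g⟩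
    exact ⟨ShortComplex.isColimitOfIsColimitπ _
      ((isColimitMapCoconeCoforkEquiv' ShortComplex.π₁ S.zero).symm k₁)
      ((isColimitMapCoconeCoforkEquiv' ShortComplex.π₂ S.zero).symm k₂)
      ((isColimitMapCoconeCoforkEquiv' ShortComplex.π₃ S.zero).symm k₃)⟩
  obtain ⟨e1, m1⟩ := S.exact_and_mono_f_iff_f_is_kernel.2 hk
  obtain ⟨_, m2⟩ := S.exact_and_epi_g_iff_g_is_cokernel.2 hc
  exact { exact := e1, mono_f := m1, epi_g := m2 }

/-- an arrow of `A`, as an object of `ShortComplex A` -/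
noncomputable def Ar {X Y : A} (f : X ⟶ Y) : ShortComplex A :=
  ShortComplex.mk (0 : (0 : A) ⟶ X) f zero_comp

/-- a commutative square, as a morphism -/
noncomputable def arHom {X Y X' Y' : A} {f : X ⟶ Y} {f' : X' ⟶ Y'} (a : X ⟶ X') (b : Y ⟶ Y')
    (h : a ≫ f' = f ≫ b) : Ar f ⟶ Ar f' where
  τ₁ := 0
  τ₂ := a
  τ₃ := b
  comm₁₂ := by simp [Ar]
  comm₂₃ := by simpa [Ar] using h

@[simp] theorem arHom_τ₂ {X Y X' Y' : A} {f : X ⟶ Y} {f' : X' ⟶ Y'} (a : X ⟶ X') (b : Y ⟶ Y')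
    (h : a ≫ f' = f ≫ b) : (arHom a b h).τ₂ = a := rfl

@[simp] theorem arHom_τ₃ {X Y X' Y' : A} {f : X ⟶ Y} {f' : X' ⟶ Y'} (a : X ⟶ X') (b : Y ⟶ Y')
    (h : a ≫ f' = f ≫ b) : (arHom a b h).τ₃ = b := rfl

theorem ar_hom_ext {X Y : A} {f : X ⟶ Y} {S : ShortComplex A} (a b : Ar f ⟶ S)
    (h₂ : a.τ₂ = b.τ₂) (h₃ : a.τ₃ = b.τ₃) : a = b := by
  ext
  · exact (isZero_zero A).eq_of_src _ _
  · exact h₂
  · exact h₃

/-- the functor `Y ↦ (θ_Y : G₂ Y ⟶ G₃ Y)` -/
noncomputable def ArF {G₂ G₃ : A ⥤ A} (θ : G₂ ⟶ G₃) : A ⥤ ShortComplex A where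
  obj Y := Ar (θ.app Y)
  map f := arHom (G₂.map f) (G₃.map f) (θ.naturality f)
  map_id X := ar_hom_ext _ _ (G₂.map_id X) (G₃.map_id X)
  map_comp f g := ar_hom_ext _ _ (G₂.map_comp f g) (G₃.map_comp f g)

section ArF

variable {G₂ G₃ : A ⥤ A} (θ : G₂ ⟶ G₃)

theorem ArF_obj (Y : A) : (ArF θ).obj Y = Ar (θ.app Y) := rfl

theorem ArF_map_τ₂ {Y Y' : A} (f : Y ⟶ Y') : ((ArF θ).map f).τ₂ = G₂.map f := rfl

theorem ArF_map_τ₃ {Y Y' : A} (f : Y ⟶ Y') : ((ArF θ).map f).τ₃ = G₃.map f := rfl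

instance ArF_additive [G₂.Additive] [G₃.Additive] : (ArF θ).Additive where
  map_add {_ _ _ _} := ar_hom_ext _ _ (G₂.map_add) (G₃.map_add)

theorem ArF_shortExact [G₂.Additive] [G₃.Additive] (S : ShortComplex A)
    (h₂ : (S.map G₂).ShortExact) (h₃ : (S.map G₃).ShortExact) : (S.map (ArF θ)).ShortExact := by
  refine shortExact_of_π _ ?_ h₂ h₃
  have hz : IsZero (((S.map (ArF θ)).map ShortComplex.π₁).X₂) := isZero_zero A
  have hz1 : IsZero (((S.map (ArF θ)).map ShortComplex.π₁).X₁) := isZero_zero A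
  have hz3 : IsZero (((S.map (ArF θ)).map ShortComplex.π₁).X₃) := isZero_zero A
  exact { exact := ShortComplex.exact_of_isZero_X₂ _ hz
          mono_f := ⟨fun _ _ _ => hz1.eq_of_tgt _ _⟩
          epi_g := ⟨fun _ _ _ => hz3.eq_of_src _ _⟩ }

theorem ArF_exact [G₂.Additive] [G₃.Additive]
    (h₂ : ∀ S : ShortComplex A, S.ShortExact → (S.map G₂).ShortExact)
    (h₃ : ∀ S : ShortComplex A, S.ShortExact → (S.map G₃).ShortExact) :
    PreservesFiniteLimits (ArF θ) ∧ PreservesFiniteColimits (ArF θ) :=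
  ((Functor.exact_tfae (ArF θ)).out 0 3).1 (fun S hS => ArF_shortExact θ S (h₂ S hS) (h₃ S hS))

end ArF

/-- the zero functor -/
noncomputable def Zf : A ⥤ A := (Functor.const A).obj (0 : A)

instance Zf_additive : (Zf : A ⥤ A).Additive where
  map_add {_ _ _ _} := (isZero_zero A).eq_of_src _ _

theorem Zf_shortExact (S : ShortComplex A) : (S.map (Zf : A ⥤ A)).ShortExact := by
  have hz : IsZero ((S.map (Zf : A ⥤ A)).X₂) := isZero_zero A
  have hz1 : IsZero ((S.map (Zf : A ⥤ A)).X₁) := isZero_zero A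
  have hz3 : IsZero ((S.map (Zf : A ⥤ A)).X₃) := isZero_zero A
  exact { exact := ShortComplex.exact_of_isZero_X₂ _ hz
          mono_f := ⟨fun _ _ _ => hz1.eq_of_tgt _ _⟩
          epi_g := ⟨fun _ _ _ => hz3.eq_of_src _ _⟩ }

theorem isZero_Zf (X : A) : IsZero ((Zf : A ⥤ A).obj X) := isZero_zero A

/-- `B ↦ (0 ⟶ B)` -/
noncomputable def J0 : A ⥤ ShortComplex A := ArF ({ app := fun _ => 0 } : (Zf : A ⥤ A) ⟶ 𝟭 A)

/-- `X ↦ (X = X)` -/
noncomputable def JJ : A ⥤ ShortComplex A := ArF (𝟙 (𝟭 A))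

/-- `X ↦ (X ⟶ 0)` -/
noncomputable def J1 : A ⥤ ShortComplex A := ArF ({ app := fun _ => 0 } : 𝟭 A ⟶ (Zf : A ⥤ A))

instance : (J0 : A ⥤ ShortComplex A).Additive := inferInstanceAs (ArF _).Additive
instance : (JJ : A ⥤ ShortComplex A).Additive := inferInstanceAs (ArF _).Additive
instance : (J1 : A ⥤ ShortComplex A).Additive := inferInstanceAs (ArF _).Additive

theorem id_shortExact (S : ShortComplex A) (hS : S.ShortExact) : (S.map (𝟭 A)).ShortExact := hS

theorem J0_exact : PreservesFiniteLimits (J0 : A ⥤ ShortComplex A) ∧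
    PreservesFiniteColimits (J0 : A ⥤ ShortComplex A) :=
  ArF_exact _ (fun S _ => Zf_shortExact S) id_shortExact

theorem JJ_exact : PreservesFiniteLimits (JJ : A ⥤ ShortComplex A) ∧
    PreservesFiniteColimits (JJ : A ⥤ ShortComplex A) :=
  ArF_exact _ id_shortExact id_shortExact

theorem J1_exact : PreservesFiniteLimits (J1 : A ⥤ ShortComplex A) ∧
    PreservesFiniteColimits (J1 : A ⥤ ShortComplex A) :=
  ArF_exact _ id_shortExact (fun S _ => Zf_shortExact S)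

instance : PreservesFiniteLimits (J0 : A ⥤ ShortComplex A) := J0_exact.1
instance : PreservesFiniteColimits (J0 : A ⥤ ShortComplex A) := J0_exact.2
instance : PreservesFiniteLimits (JJ : A ⥤ ShortComplex A) := JJ_exact.1
instance : PreservesFiniteColimits (JJ : A ⥤ ShortComplex A) := JJ_exact.2
instance : PreservesFiniteLimits (J1 : A ⥤ ShortComplex A) := J1_exact.1
instance : PreservesFiniteColimits (J1 : A ⥤ ShortComplex A) := J1_exact.2

end E4aux

end Pool.Agent.MUG
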