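import Pool.Agent.MUG.Gen
import Pool.Agent.MUG.CenRig

/-! Row GEN without a braiding: the subobject of an object of the centre generated by a morphism
(helper21, after helper45's braided version). -/

open CategoryTheory MonoidalCategory Limits

universe v u

namespace Pool.Agent.MUG

set_option backward.isDefEq.respectTransparency.types false

namespace GenN

section

variable {C : Type u} [Category.{v} C] [Abelian C] [MonoidalCategory C] [MonoidalPreadditive C]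
  [RigidCategory C]

/-- Faithfulness of the left tensor adjunction. -/
theorem lk_zero {Q : C} (hQ : ∀ {V W : C} (g : V ⟶ W), (∀ f : Q ⟶ V, f ≫ g = 0) → g = 0)
    {V Y W : C} (F : Y ⊗ V ⟶ W) (h : ∀ f : Q ⟶ V, (Y ◁ f) ≫ F = 0) : F = 0 := by
  have h0 : ∀ {V : C}, (tensorLeftHomEquiv V (ᘁY : C) Y W).symm 0 = 0 := by
    intro V
    change (Y ◁ (0 : V ⟶ (ᘁY : C) ⊗ W)) ≫ _ = 0
    rw [MonoidalPreadditive.whiskerLeft_zero, zero_comp]
  have h1 : tensorLeftHomEquiv V (ᘁY : C) Y W F = 0 := by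
    refine hQ _ fun f => ?_
    apply (tensorLeftHomEquiv Q (ᘁY : C) Y W).symm.injective
    rw [tensorLeftHomEquiv_symm_naturality, Equiv.symm_apply_apply, h f, h0]
  apply (tensorLeftHomEquiv V (ᘁY : C) Y W).injective
  rw [h1]
  apply (tensorLeftHomEquiv V (ᘁY : C) Y W).symm.injective
  rw [h0, Equiv.symm_apply_apply]

/-- `h` kills the translates of `y` by `V`. -/
def Kill (N : Center C) {Y W : C} (y : Y ⟶ N.1) (h : N.1 ⟶ W) (V : C) : Prop :=
  (y ▷ V) ≫ (N.2.β V).hom ≫ (V ◁ h) = 0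

theorem kill_of_separator {Q : C}
    (hQ : ∀ {V W : C} (g : V ⟶ W), (∀ f : Q ⟶ V, f ≫ g = 0) → g = 0)
    {N : Center C} {Y W : C} {y : Y ⟶ N.1} {h : N.1 ⟶ W} (hk : Kill N y h Q) (V : C) :
    Kill N y h V := by
  refine lk_zero hQ _ fun f => ?_
  have h1 : (Y ◁ f) ≫ (y ▷ V) ≫ (N.2.β V).hom ≫ (V ◁ h) =
      ((y ▷ Q) ≫ (N.2.β Q).hom ≫ (Q ◁ h)) ≫ (f ▷ W) := by
    rw [whisker_exchange_assoc, N.2.naturality_assoc, ← whisker_exchange, Category.assoc,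
      Category.assoc]
  rw [h1, hk, zero_comp]

theorem kill_unit {N : Center C} {Y W : C} {y : Y ⟶ N.1} {h : N.1 ⟶ W}
    (hk : Kill N y h (𝟙_ C)) : y ≫ h = 0 := by
  rw [Kill, hb_unit] at hk
  have h1 : (y ▷ (𝟙_ C)) ≫ ((ρ_ N.1).hom ≫ (λ_ N.1).inv) ≫ ((𝟙_ C) ◁ h) =
      (ρ_ Y).hom ≫ (y ≫ h) ≫ (λ_ W).inv := by
    simp
  rw [h1] at hk
  calc y ≫ h = (ρ_ Y).inv ≫ ((ρ_ Y).hom ≫ (y ≫ h) ≫ (λ_ W).inv) ≫ (λ_ W).hom := by simp
    _ = 0 := by rw [hk, zero_comp, comp_zero]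

/-- Stability. -/
theorem kill_stable {N : Center C} {Y W : C} {y : Y ⟶ N.1} {q : N.1 ⟶ W}
    (hq : ∀ V, Kill N y q V) (U V : C) :
    Kill N y (tensorRightHomEquiv N.1 U (Uᘁ) (U ⊗ W) ((N.2.β U).hom ≫ (U ◁ q))) V := by
  have h1 := hq (V ⊗ U)
  rw [Kill, N.2.monoidal] at h1
  have h2 : (((y ▷ V) ≫ (N.2.β V).hom) ▷ U) ≫ (α_ V N.1 U).hom ≫
      (V ◁ ((N.2.β U).hom ≫ (U ◁ q))) = 0 := by
    have h5 : (α_ Y V U).inv ≫ ((((y ▷ V) ≫ (N.2.β V).hom) ▷ U) ≫ (α_ V N.1 U).hom ≫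
          (V ◁ ((N.2.β U).hom ≫ (U ◁ q)))) ≫ (α_ V U W).inv = 0 := by
      rw [← h1]
      simp
    rw [← cancel_epi (α_ Y V U).inv, ← cancel_mono (α_ V U W).inv, Category.assoc, h5, comp_zero,
      zero_comp]
  have h7 : ((y ▷ V) ≫ (N.2.β V).hom) ≫ ((V ◁ (tensorRightHomEquiv N.1 U (Uᘁ) (U ⊗ W)
      ((N.2.β U).hom ≫ (U ◁ q)))) ≫ (α_ V (U ⊗ W) (Uᘁ)).inv) = 0 := by
    rw [Gen.right_whisker]
    apply (tensorRightHomEquiv (Y ⊗ V) U (Uᘁ) (V ⊗ (U ⊗ W))).symm.injective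
    rw [tensorRightHomEquiv_symm_naturality, Equiv.symm_apply_apply, h2]
    change _ = ((0 : _ ⟶ _) ▷ U) ≫ _
    rw [MonoidalPreadditive.zero_whiskerRight, zero_comp]
  rw [Kill, ← cancel_mono (α_ V (U ⊗ W) (Uᘁ)).inv, zero_comp, Category.assoc, Category.assoc]
  simpa only [Category.assoc] using h7

/-- A subobject stable under the half-braiding is an object of the centre; invertibility is
automatic by rigidity. -/
theorem exists_sub (N : Center C) {K : C} (ι : K ⟶ N.1) [Mono ι]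
    (h : ∀ U, ∃ γ : K ⊗ U ⟶ U ⊗ K, γ ≫ (U ◁ ι) = (ι ▷ U) ≫ (N.2.β U).hom) :
    ∃ (b : HalfBraiding K), ∀ U, (ι ▷ U) ≫ (N.2.β U).hom = (b.β U).hom ≫ (U ◁ ι) := by
  choose γ hγ using h
  have mon : ∀ U U', γ (U ⊗ U') = (α_ _ _ _).inv ≫ (γ U ▷ U') ≫ (α_ _ _ _).hom ≫
      (U ◁ γ U') ≫ (α_ _ _ _).inv := by
    intro U U'
    rw [← cancel_mono ((U ⊗ U') ◁ ι)]
    exact (hγ (U ⊗ U')).trans (cen_mon_aux ι γ hγ U U').symm
  have nat : ∀ {U U' : C} (f : U ⟶ U'), K ◁ f ≫ γ U' = γ U ≫ f ▷ K := by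
    intro U U' f
    rw [← cancel_mono (U' ◁ ι)]
    exact cen_nat_aux ι γ hγ f
  have one : γ (𝟙_ C) = (ρ_ K).hom ≫ (λ_ K).inv := by
    rw [← cancel_mono ((𝟙_ C) ◁ ι), hγ, hb_unit]
    simp
  exact ⟨{ β := fun U => ⟨γ U, laxInv γ U, lax_hom_inv γ nat mon one U,
              lax_inv_hom γ nat mon one U⟩
           monoidal := mon
           naturality := nat }, fun U => (hγ U).symm⟩

/-- The translates of `y` by a separator. -/
noncomputable def bN (Q : C) (N : Center C) {Y : C} (y : Y ⟶ N.1) : Qᘁ ⊗ (Y ⊗ Q) ⟶ N.1 :=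
  (tensorLeftHomEquiv (Y ⊗ Q) Q (Qᘁ) N.1).symm ((y ▷ Q) ≫ (N.2.β Q).hom)

omit [Abelian C] [MonoidalPreadditive C] in
theorem left_symm_comp {X Y Z Z' : C} (f : X ⟶ Y ⊗ Z) (g : Z ⟶ Z') :
    (tensorLeftHomEquiv X Y (Yᘁ) Z).symm f ≫ g =
      (tensorLeftHomEquiv X Y (Yᘁ) Z').symm (f ≫ (Y ◁ g)) := by
  apply (tensorLeftHomEquiv X Y (Yᘁ) Z').injective
  rw [tensorLeftHomEquiv_naturality, Equiv.apply_symm_apply, Equiv.apply_symm_apply]

theorem bN_comp_eq_zero {Q : C} {N : Center C} {Y W : C} {y : Y ⟶ N.1} (h : N.1 ⟶ W) :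
    bN Q N y ≫ h = 0 ↔ Kill N y h Q := by
  rw [bN, left_symm_comp, Gen.left_symm_zero_iff, Category.assoc, Kill]

theorem bN_comp {Q : C} {N N' : Center C} {Y : C} (y : Y ⟶ N.1) (f : N ⟶ N') :
    bN Q N y ≫ f.f = bN Q N' (y ≫ f.f) := by
  rw [bN, left_symm_comp, bN, Category.assoc, ← f.comm, comp_whiskerRight, Category.assoc]

/-- Row GEN without a braiding: the subobject generated by `y`. -/
theorem exists_gen {Q : C}
    (hQ : ∀ {V W : C} (g : V ⟶ W), (∀ f : Q ⟶ V, f ≫ g = 0) → g = 0)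
    (N : Center C) {Y : C} (y : Y ⟶ N.1) :
    ∃ (G : Center C) (i : G ⟶ N) (y' : Y ⟶ G.1), Mono i.f ∧ y' ≫ i.f = y ∧
      Epi (bN Q G y') := by
  let b := bN Q N y
  let q := cokernel.π b
  let ι : Abelian.image b ⟶ N.1 := Abelian.image.ι b
  have hι : Mono ι := inferInstanceAs (Mono (kernel.ι _))
  let e : Qᘁ ⊗ (Y ⊗ Q) ⟶ Abelian.image b := Abelian.factorThruImage b
  have he : Epi e := inferInstance
  have hei : e ≫ ι = b := Abelian.image.fac b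
  have hq : ∀ V, Kill N y q V :=
    kill_of_separator hQ ((bN_comp_eq_zero (Q := Q) q).1 (cokernel.condition b))
  have hu : ∀ {W : C} (h : N.1 ⟶ W), (∀ V, Kill N y h V) → ι ≫ h = 0 := by
    intro W h hh
    rw [← cancel_epi e, reassoc_of% hei, comp_zero]
    exact (bN_comp_eq_zero h).2 (hh Q)
  have hst : ∀ U, (ι ▷ U) ≫ (N.2.β U).hom ≫ (U ◁ q) = 0 := by
    intro U
    have h1 := hu _ (fun V => kill_stable hq U V)
    have h2 : (tensorRightHomEquiv (Abelian.image b) U (Uᘁ) _).symm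
        (ι ≫ tensorRightHomEquiv N.1 U (Uᘁ) _ ((N.2.β U).hom ≫ (U ◁ q))) =
        (ι ▷ U) ≫ (N.2.β U).hom ≫ (U ◁ q) := by
      rw [tensorRightHomEquiv_symm_naturality, Equiv.symm_apply_apply]
    rw [← h2, h1]
    change ((0 : _ ⟶ _) ▷ U) ≫ _ = 0
    rw [MonoidalPreadditive.zero_whiskerRight, zero_comp]
  have hlift : ∀ U, ∃ γ : Abelian.image b ⊗ U ⟶ U ⊗ Abelian.image b,
      γ ≫ (U ◁ ι) = (ι ▷ U) ≫ (N.2.β U).hom := by
    intro U
    have h3 : (ShortComplex.mk ι q (kernel.condition _)).ShortExact :=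
      { exact := ShortComplex.exact_kernel _
        mono_f := hι
        epi_g := inferInstance }
    have h4 := h3.map_of_exact (tensorLeft U)
    exact ⟨_, (KernelFork.IsLimit.lift' h4.fIsKernel ((ι ▷ U) ≫ (N.2.β U).hom)
      ((Category.assoc _ _ _).trans (hst U))).2⟩
  obtain ⟨hb, hb'⟩ := exists_sub N ι hlift
  let G : Center C := ⟨Abelian.image b, hb⟩
  let i : G ⟶ N := { f := ι, comm := hb' }
  have hy : y ≫ q = 0 := kill_unit (hq (𝟙_ C))
  let y' : Y ⟶ Abelian.image b := kernel.lift _ y hy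
  have hy' : y' ≫ ι = y := kernel.lift_ι _ _ _
  refine ⟨G, i, y', hι, hy', ?_⟩
  have h5 : bN Q G y' = e := by
    rw [← cancel_mono ι, hei]
    exact (bN_comp (Q := Q) (N := G) (N' := N) y' i).trans (by
      change bN Q N (y' ≫ ι) = b
      rw [hy'])
  rw [h5]
  exact he

/-- Morphisms out of a generated object are determined by their value on the generator. -/
theorem gen_ext {Q : C} {G N : Center C} {Y : C} {y : Y ⟶ G.1} (hG : Epi (bN Q G y))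
    (f : G ⟶ N) (h : y ≫ f.f = 0) : f.f = 0 := by
  rw [← cancel_epi (bN Q G y), bN_comp, h, comp_zero, bN, MonoidalPreadditive.zero_whiskerRight,
    zero_comp]
  exact (Gen.left_symm_zero_iff _).2 rfl

end

end GenN

end Pool.Agent.MUG
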