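import Pool.Agent.MUG.C4
import Pool.Agent.MUG.SubExact
import Pool.Agent.MUG.Iter

/-! Row Q3, first part: projective objects of the centralizer of an invertible object. -/

open CategoryTheory MonoidalCategory Limits Abelian

universe w' w v u

namespace Pool.Agent.MUG

namespace Q3aux

section pow

variable {C : Type u} [Category.{v} C]

/-- Powers of an endomorphism. -/
def pw {Y : C} (f : Y ⟶ Y) : ℕ → (Y ⟶ Y)
  | 0 => 𝟙 Y
  | n + 1 => f ≫ pw f n

theorem pw_comm {Y : C} (f : Y ⟶ Y) (n : ℕ) : pw f n ≫ f = f ≫ pw f n := by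
  induction n with
  | zero => simp [pw]
  | succ n ih => rw [pw, Category.assoc, ih]

theorem pw_nat {X Y : C} (g : X ⟶ X) (f : Y ⟶ Y) (a : X ⟶ Y) (h : g ≫ a = a ≫ f) (n : ℕ) :
    pw g n ≫ a = a ≫ pw f n := by
  induction n with
  | zero => simp [pw]
  | succ n ih => rw [pw, pw, Category.assoc, ih, ← Category.assoc, h, Category.assoc]

theorem pw_one {Y : C} (n : ℕ) : pw (𝟙 Y) n = 𝟙 Y := by
  induction n with
  | zero => rfl
  | succ n ih => rw [pw, ih, Category.comp_id]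

end pow

section gen

variable {C : Type u} [Category.{v} C] [MonoidalCategory C] [BraidedCategory C]

theorem mono_left {X X' : C} (f : X ⟶ X') (Y : C) :
    ((β_ X Y).hom ≫ (β_ Y X).hom) ≫ (f ▷ Y) = (f ▷ Y) ≫ (β_ X' Y).hom ≫ (β_ Y X').hom := by
  rw [Category.assoc, ← BraidedCategory.braiding_naturality_right,
    ← BraidedCategory.braiding_naturality_left_assoc]

theorem mono_right (X : C) {Y Y' : C} (f : Y ⟶ Y') :
    ((β_ X Y).hom ≫ (β_ Y X).hom) ≫ (X ◁ f) = (X ◁ f) ≫ (β_ X Y').hom ≫ (β_ Y' X).hom := by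
  rw [Category.assoc, ← BraidedCategory.braiding_naturality_left,
    ← BraidedCategory.braiding_naturality_right_assoc]

theorem isEquiv {c : C} (hc : Invertible c) : (tensorLeft c).IsEquivalence := by
  obtain ⟨d, ⟨u⟩⟩ := hc
  have e1 : tensorLeft c ⋙ tensorLeft d ≅ 𝟭 C :=
    (tensorLeftTensor d c).symm ≪≫ (curriedTensor C).mapIso (β_ d c ≪≫ u) ≪≫ leftUnitorNatIso C
  have e2 : tensorLeft d ⋙ tensorLeft c ≅ 𝟭 C :=
    (tensorLeftTensor c d).symm ≪≫ (curriedTensor C).mapIso u ≪≫ leftUnitorNatIso C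
  exact (CategoryTheory.Equivalence.mk (tensorLeft c) (tensorLeft d) e1.symm e2).isEquivalence_functor

theorem whisker_inj {c : C} (hc : Invertible c) {X Y : C} {f g : X ⟶ Y}
    (h : c ◁ f = c ◁ g) : f = g := by
  have := isEquiv hc
  exact (tensorLeft c).map_injective h

/-- The automorphism of `Y` given by the double braiding with the invertible object `c`. -/
noncomputable def th {c : C} (hc : Invertible c) (Y : C) : Y ⟶ Y :=
  haveI := isEquiv hc
  (tensorLeft c).preimage ((β_ c Y).hom ≫ (β_ Y c).hom)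

theorem th_spec {c : C} (hc : Invertible c) (Y : C) :
    c ◁ th hc Y = (β_ c Y).hom ≫ (β_ Y c).hom := by
  have := isEquiv hc
  exact (tensorLeft c).map_preimage _

theorem th_nat {c : C} (hc : Invertible c) {X Y : C} (f : X ⟶ Y) :
    th hc X ≫ f = f ≫ th hc Y := by
  apply whisker_inj hc
  rw [MonoidalCategory.whiskerLeft_comp, MonoidalCategory.whiskerLeft_comp, th_spec, th_spec,
    mono_right]

theorem th_eq_one_iff {c : C} (hc : Invertible c) (Y : C) :
    th hc Y = 𝟙 Y ↔ (β_ Y c).hom ≫ (β_ c Y).hom = 𝟙 (Y ⊗ c) := by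
  constructor
  · intro h
    have h1 := th_spec hc Y
    rw [h, MonoidalCategory.whiskerLeft_id] at h1
    have h2 : (β_ Y c).hom = (β_ c Y).inv := by
      rw [← cancel_epi (β_ c Y).hom, ← h1, Iso.hom_inv_id]
    rw [h2, Iso.inv_hom_id]
  · intro h
    apply whisker_inj hc
    rw [th_spec, MonoidalCategory.whiskerLeft_id]
    have h2 : (β_ c Y).hom = (β_ Y c).inv := by
      rw [← cancel_epi (β_ Y c).hom, h, Iso.hom_inv_id]
    rw [h2, Iso.inv_hom_id]

theorem db_step (c M Y : C) (θ ψ : Y ⟶ Y) (hθ : c ◁ θ = (β_ c Y).hom ≫ (β_ Y c).hom)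
    (hψ : M ◁ ψ = (β_ M Y).hom ≫ (β_ Y M).hom) :
    (c ⊗ M) ◁ (θ ≫ ψ) = (β_ (c ⊗ M) Y).hom ≫ (β_ Y (c ⊗ M)).hom := by
  rw [BraidedCategory.braiding_tensor_left_hom, BraidedCategory.braiding_tensor_right_hom]
  have h1 : (α_ c Y M).inv ≫ ((β_ c Y).hom ▷ M) ≫ ((β_ Y c).hom ▷ M) ≫ (α_ c Y M).hom =
      c ◁ (θ ▷ M) := by
    rw [← comp_whiskerRight_assoc, ← hθ]
    simp
  have h2 : (β_ M Y).hom ≫ (θ ▷ M) ≫ (β_ Y M).hom = M ◁ (θ ≫ ψ) := by
    rw [← BraidedCategory.braiding_naturality_right_assoc, ← hψ, MonoidalCategory.whiskerLeft_comp]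
  calc (c ⊗ M) ◁ (θ ≫ ψ) = (α_ c M Y).hom ≫ (c ◁ (M ◁ (θ ≫ ψ))) ≫ (α_ c M Y).inv := by simp
    _ = (α_ c M Y).hom ≫ (c ◁ ((β_ M Y).hom ≫ (θ ▷ M) ≫ (β_ Y M).hom)) ≫ (α_ c M Y).inv := by
        rw [h2]
    _ = (α_ c M Y).hom ≫ (c ◁ (β_ M Y).hom) ≫ (c ◁ (θ ▷ M)) ≫ (c ◁ (β_ Y M).hom) ≫
          (α_ c M Y).inv := by
        simp only [MonoidalCategory.whiskerLeft_comp, Category.assoc]
    _ = _ := by
        rw [← h1]
        simp only [Category.assoc, Iso.hom_inv_id_assoc]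

theorem db_iter (c Y : C) (θ : Y ⟶ Y) (hθ : c ◁ θ = (β_ c Y).hom ≫ (β_ Y c).hom) (n : ℕ) :
    ∀ (M : C) (ψ : Y ⟶ Y), M ◁ ψ = (β_ M Y).hom ≫ (β_ Y M).hom →
      (iter (tensorLeft c) n M) ◁ (pw θ n ≫ ψ) =
        (β_ (iter (tensorLeft c) n M) Y).hom ≫ (β_ Y (iter (tensorLeft c) n M)).hom := by
  induction n with
  | zero =>
    intro M ψ h
    rw [pw, Category.id_comp]
    exact h
  | succ n ih =>
    intro M ψ h
    have h1 := ih (c ⊗ M) (θ ≫ ψ) (db_step c M Y θ ψ hθ h)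
    rw [pw, Category.assoc, ← Category.assoc, ← pw_comm, Category.assoc]
    exact h1

theorem th_pow {c : C} (hc : Invertible c) (N : ℕ)
    (e : iter (tensorLeft c) N (𝟙_ C) ≅ 𝟙_ C) (Y : C) : pw (th hc Y) N = 𝟙 Y := by
  have h0 : (𝟙_ C) ◁ (𝟙 Y) = (β_ (𝟙_ C) Y).hom ≫ (β_ Y (𝟙_ C)).hom := by
    simp [braiding_tensorUnit_left, braiding_tensorUnit_right]
  have h1 := db_iter c Y (th hc Y) (th_spec hc Y) N (𝟙_ C) (𝟙 Y) h0
  rw [Category.comp_id] at h1
  have h2 := mono_left e.hom Y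
  rw [← h0, ← h1, MonoidalCategory.whiskerLeft_id, Category.comp_id] at h2
  have h3 : (iter (tensorLeft c) N (𝟙_ C)) ◁ pw (th hc Y) N = 𝟙 _ := by
    rw [← cancel_mono (e.hom ▷ Y), h2, Category.id_comp]
  apply whisker_inj (c := iter (tensorLeft c) N (𝟙_ C)) ⟨𝟙_ C, ⟨ρ_ _ ≪≫ e⟩⟩
  rw [h3, MonoidalCategory.whiskerLeft_id]

end gen

section lin

variable {k : Type*} [Field k] {C : Type u} [Category.{v} C] [Preadditive C] [Linear k C]

/-- The average of the powers of `f`. -/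
noncomputable def av (k : Type*) [Field k] {C : Type u} [Category.{v} C] [Preadditive C]
    [Linear k C] {Y : C} (f : Y ⟶ Y) (N : ℕ) : Y ⟶ Y :=
  ((N : k)⁻¹) • ∑ i ∈ Finset.range N, pw f i

theorem av_nat {X Y : C} (g : X ⟶ X) (f : Y ⟶ Y) (a : X ⟶ Y) (h : g ≫ a = a ≫ f) (N : ℕ) :
    av k g N ≫ a = a ≫ av k f N := by
  rw [av, av, Linear.smul_comp, Linear.comp_smul, Preadditive.sum_comp, Preadditive.comp_sum]
  congr 1
  exact Finset.sum_congr rfl fun i _ => pw_nat g f a h i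

theorem av_fix {Y : C} (f : Y ⟶ Y) (N : ℕ) (h : pw f N = 𝟙 Y) :
    av k f N ≫ f = av k f N := by
  rw [av, Linear.smul_comp, Preadditive.sum_comp]
  congr 1
  have h1 : ∑ i ∈ Finset.range N, pw f i ≫ f = ∑ i ∈ Finset.range N, pw f (i + 1) :=
    Finset.sum_congr rfl fun i _ => pw_comm f i
  rw [h1]
  have h2 := Finset.sum_range_succ' (fun i => pw f i) N
  have h3 := Finset.sum_range_succ (fun i => pw f i) N
  rw [h3, h] at h2
  have h4 : pw f 0 = 𝟙 Y := rfl
  rw [h4] at h2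
  exact (add_right_cancel h2).symm

theorem av_one [CharZero k] {Y : C} (N : ℕ) (hN : 0 < N) : av k (𝟙 Y) N = 𝟙 Y := by
  rw [av]
  have h1 : ∑ i ∈ Finset.range N, pw (𝟙 Y) i = (N : k) • 𝟙 Y := by
    rw [Finset.sum_congr rfl fun i _ => pw_one i, Finset.sum_const, Finset.card_range,
      Nat.cast_smul_eq_nsmul]
  rw [h1, smul_smul, inv_mul_cancel₀ (by exact_mod_cast hN.ne'), one_smul]

end lin

section proj

variable {k : Type*} [Field k] [CharZero k] {Z : Type u} [Category.{v} Z] [Abelian Z] [Linear k Z]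
  [MonoidalCategory Z] [MonoidalPreadditive Z] [RigidCategory Z]
  [BraidedCategory Z]

include k in
/-- Projective objects of the centralizer of an invertible object in `P` are projective
in `P`. -/
theorem proj_of (P : ObjectProperty Z) [hP : TensorSub P] {c : Z} (hc : Invertible c) (N : ℕ)
    (hN : 0 < N) (hpow : ∀ Y : Z, pw (th hc Y) N = 𝟙 Y)
    [h' : TensorSub (P ⊓ centralizer (fun X => X = c))]
    (Q : (P ⊓ centralizer (fun X => X = c)).FullSubcategory) (hQ : Projective Q) :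
    Projective ((ObjectProperty.ιOfLE (inf_le_left :
      P ⊓ centralizer (fun X => X = c) ≤ P)).obj Q) := by
  have hthQ : th hc Q.obj = 𝟙 Q.obj := (th_eq_one_iff hc _).2 (Q.property.2 c rfl)
  -- the fixed part of an object
  have key : ∀ X : P.FullSubcategory, ∃ (X₁ : (P ⊓ centralizer (fun X => X = c)).FullSubcategory)
      (i : X₁.obj ⟶ X.obj) (r : X.obj ⟶ X₁.obj), i ≫ r = 𝟙 _ ∧
        r ≫ i = av k (th hc X.obj) N := by
    intro X
    let i : kernel (th hc X.obj - 𝟙 X.obj) ⟶ X.obj := kernel.ι _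
    have hi : i ≫ th hc X.obj = i := by
      have h1 : i ≫ (th hc X.obj - 𝟙 X.obj) = 0 := kernel.condition _
      rw [Preadditive.comp_sub, Category.comp_id, sub_eq_zero] at h1
      exact h1
    have hth : th hc (kernel (th hc X.obj - 𝟙 X.obj)) = 𝟙 _ := by
      rw [← cancel_mono i, th_nat, hi, Category.id_comp]
    have hr0 : av k (th hc X.obj) N ≫ (th hc X.obj - 𝟙 X.obj) = 0 := by
      rw [Preadditive.comp_sub, Category.comp_id, av_fix _ _ (hpow _), sub_self]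
    let r : X.obj ⟶ kernel (th hc X.obj - 𝟙 X.obj) := kernel.lift _ _ hr0
    have hri : r ≫ i = av k (th hc X.obj) N := kernel.lift_ι _ _ _
    refine ⟨⟨kernel (th hc X.obj - 𝟙 X.obj), hP.sub i X.property, ?_⟩, i, r, ?_, hri⟩
    · rintro _ rfl
      exact (th_eq_one_iff hc _).1 hth
    · rw [← cancel_mono i, Category.assoc, hri, Category.id_comp, ← av_nat (k := k)
        (th hc (kernel (th hc X.obj - 𝟙 X.obj))) (th hc X.obj) i (th_nat hc i), hth,
        av_one N hN, Category.id_comp]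
  refine ⟨fun {E X} f e he => ?_⟩
  have he' : Epi e.hom := sub_epi_hom P e
  obtain ⟨X₁, iX, rX, hX, hX'⟩ := key X
  obtain ⟨E₁, iE, rE, hE, hE'⟩ := key E
  have hnat : av k (th hc E.obj) N ≫ e.hom = e.hom ≫ av k (th hc X.obj) N :=
    av_nat _ _ _ (th_nat hc e.hom) N
  let e₁ : E₁ ⟶ X₁ := ObjectProperty.homMk (iE ≫ e.hom ≫ rX)
  have hre : rE ≫ e₁.hom = e.hom ≫ rX := by
    change rE ≫ iE ≫ e.hom ≫ rX = _
    rw [← Category.assoc, hE', ← Category.assoc, hnat, Category.assoc, ← hX', Category.assoc, hX,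
      Category.comp_id]
  have hepi : Epi e₁.hom := by
    have h1 : Epi rX := by
      have : Epi (iX ≫ rX) := by rw [hX]; infer_instance
      exact epi_of_epi iX rX
    have h2 : Epi (e.hom ≫ rX) := epi_comp _ _
    have h3 : Epi (rE ≫ e₁.hom) := by rw [hre]; exact h2
    exact epi_of_epi rE _
  have : Epi e₁ := sub_epi_of _ e₁ hepi
  let f' : Q.obj ⟶ X.obj := f.hom
  let g : Q ⟶ E₁ := Projective.factorThru (ObjectProperty.homMk (f' ≫ rX) : Q ⟶ X₁) e₁
  have hg : g.hom ≫ e₁.hom = f' ≫ rX :=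
    congrArg (fun t => t.hom) (Projective.factorThru_comp
      (ObjectProperty.homMk (f' ≫ rX) : Q ⟶ X₁) e₁)
  refine ⟨ObjectProperty.homMk (g.hom ≫ iE), ?_⟩
  apply ObjectProperty.hom_ext
  change (g.hom ≫ iE) ≫ e.hom = f'
  have h5 : e₁.hom ≫ iX = iE ≫ e.hom := by
    change (iE ≫ e.hom ≫ rX) ≫ iX = _
    rw [Category.assoc, Category.assoc, hX', ← hnat, ← hE', Category.assoc, ← Category.assoc, hE,
      Category.id_comp]
  have h6 : f' ≫ av k (th hc X.obj) N = f' := by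
    rw [← av_nat (k := k) (th hc Q.obj) _ f' (th_nat hc f') N, hthQ, av_one N hN,
      Category.id_comp]
  rw [Category.assoc, ← h5, ← Category.assoc, hg, Category.assoc, hX', h6]

end proj

end Q3aux

end Pool.Agent.MUG
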