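import Pool.Agent.MUG.PPa
import Pool.Agent.MUG.Q3a
import Pool.Agent.MUG.C3
import Pool.Agent.MUG.C2
import Pool.Agent.MUG.C4
import Pool.Agent.MUG.C0
import Pool.Agent.MUG.B0

/-!
# Projectives of the centralizer of a semisimple pointed subcategory (helper64)
-/

open CategoryTheory MonoidalCategory Limits Abelian

universe w v u

set_option linter.unusedSectionVars false

namespace Pool.Agent.MUG

section HDir

variable {k : Type*} [Field k] {Z : Type u} [Category.{v} Z] [Abelian Z] [Linear k Z]
  [MonoidalCategory Z] [MonoidalPreadditive Z] [MonoidalLinear k Z] [RigidCategory Z]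
  [BraidedCategory Z]

open Q3aux in
/-- Projectives of `P ⊓ c^` are projective in `P`, in terms of `ProjIn`. -/
theorem projIn_inf_centralizer [CharZero k] (hZ : IsFinite k Z) (P : ObjectProperty Z)
    [hP : TensorSub P] {c : Z} (hc : Invertible c) {X : Z}
    (hX : ProjIn (P ⊓ centralizer (fun X => X = c)) X) : ProjIn P X := by
  obtain ⟨N, hN, hiter⟩ := exists_order_of hZ (fun hb => simple_of_invertible hZ hb) hc
  obtain ⟨e⟩ := hiter 1 (𝟙_ Z)
  rw [mul_one] at e
  have hpow : ∀ Y : Z, pw (th hc Y) N = 𝟙 Y := th_pow hc N e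
  have hcent : TensorSub (centralizer (fun X : Z => X = c)) := tensorSub_centralizer _
  have h' : TensorSub (P ⊓ centralizer (fun X => X = c)) := tensorSub_inf _ _
  let X' : (P ⊓ centralizer (fun X => X = c)).FullSubcategory := ⟨X, hX.1⟩
  have h1 : Projective X' := projective_of_projIn _ X' hX
  have h2 := proj_of (k := k) P hc N hN hpow X' h1
  exact projIn_of_projective P _ h2

/-- The objects commuting with all the `S i`, `i` in `s`, that are invertible. -/
def commAll {n : ℕ} (S : Fin n → Z) (s : Finset (Fin n)) : ObjectProperty Z :=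
  fun X => ∀ i ∈ s, Invertible (S i) → (β_ X (S i)).hom ≫ (β_ (S i) X).hom = 𝟙 (X ⊗ S i)

theorem tensorSub_commAll {n : ℕ} (S : Fin n → Z) (s : Finset (Fin n)) :
    TensorSub (commAll S s) := by
  have h : commAll S s = centralizer (fun Y => ∃ i ∈ s, Invertible (S i) ∧ Y = S i) := by
    ext X
    constructor
    · rintro hX Y ⟨i, hi, hinv, rfl⟩
      exact hX i hi hinv
    · intro hX i hi hinv
      exact hX (S i) ⟨i, hi, hinv, rfl⟩
  rw [h]
  exact tensorSub_centralizer _

theorem projective_of_commAll [CharZero k] (hZ : IsFinite k Z) {n : ℕ} (S : Fin n → Z)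
    (s : Finset (Fin n)) {X : Z} (hX : ProjIn (commAll S s) X) : Projective X := by
  classical
  induction s using Finset.induction_on generalizing X with
  | empty =>
    constructor
    intro E X' f e he
    exact hX.2 e he (fun i hi => absurd hi (Finset.notMem_empty i))
      (fun i hi => absurd hi (Finset.notMem_empty i)) f
  | insert i s hi ih =>
    apply ih
    have hs := tensorSub_commAll S s
    by_cases hinv : Invertible (S i)
    · have h1 : commAll S (insert i s) = commAll S s ⊓ centralizer (fun X => X = S i) := by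
        ext Y
        constructor
        · intro hY
          refine ⟨fun j hj hinvj => hY j (Finset.mem_insert_of_mem hj) hinvj, ?_⟩
          rintro _ rfl
          exact hY i (Finset.mem_insert_self _ _) hinv
        · rintro ⟨h2, h3⟩ j hj hinvj
          rcases Finset.mem_insert.1 hj with rfl | hj
          · exact h3 _ rfl
          · exact h2 j hj hinvj
      rw [h1] at hX
      exact projIn_inf_centralizer hZ (commAll S s) hinv hX
    · have h1 : commAll S (insert i s) = commAll S s := by
        ext Y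
        constructor
        · intro hY j hj hinvj
          exact hY j (Finset.mem_insert_of_mem hj) hinvj
        · intro hY j hj hinvj
          rcases Finset.mem_insert.1 hj with rfl | hj
          · exact absurd hinvj hinv
          · exact hY j hj hinvj
      rw [h1] at hX
      exact hX

/-- The double braiding with `Y` is trivial on an extension that splits. -/
theorem comm_of_split (Y : Z) (S : ShortComplex Z) (hS : S.ShortExact)
    (h1 : (β_ Y S.X₁).hom ≫ (β_ S.X₁ Y).hom = 𝟙 (Y ⊗ S.X₁))
    (h3 : (β_ Y S.X₃).hom ≫ (β_ S.X₃ Y).hom = 𝟙 (Y ⊗ S.X₃))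
    (s : S.X₃ ⟶ S.X₂) (hs : s ≫ S.g = 𝟙 S.X₃) :
    (β_ Y S.X₂).hom ≫ (β_ S.X₂ Y).hom = 𝟙 (Y ⊗ S.X₂) := by
  have hmono := hS.mono_f
  have hz : (𝟙 S.X₂ - S.g ≫ s) ≫ S.g = 0 := by
    rw [Preadditive.sub_comp, Category.id_comp, Category.assoc, hs, Category.comp_id, sub_self]
  let r : S.X₂ ⟶ S.X₁ := hS.exact.lift (𝟙 S.X₂ - S.g ≫ s) hz
  have hr : r ≫ S.f = 𝟙 S.X₂ - S.g ≫ s := hS.exact.lift_f _ hz
  have hsum : 𝟙 S.X₂ = r ≫ S.f + S.g ≫ s := by rw [hr]; abel
  have n1 := B0.mono_right Y S.f
  have n3 := B0.mono_right Y s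
  rw [h1, Category.id_comp] at n1
  rw [h3, Category.id_comp] at n3
  have e1 : (Y ◁ 𝟙 S.X₂) ≫ (β_ Y S.X₂).hom ≫ (β_ S.X₂ Y).hom = Y ◁ 𝟙 S.X₂ := by
    have hadd : Y ◁ (r ≫ S.f + S.g ≫ s) = Y ◁ (r ≫ S.f) + Y ◁ (S.g ≫ s) :=
      (tensorLeft Y).map_add
    rw [hsum, hadd, Preadditive.add_comp, MonoidalCategory.whiskerLeft_comp,
      MonoidalCategory.whiskerLeft_comp, Category.assoc, Category.assoc, ← n1, ← n3]
  rw [MonoidalCategory.whiskerLeft_id, Category.id_comp] at e1
  exact e1

theorem comm_of_iso' (Y : Z) {V V' : Z} (e : V ≅ V')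
    (h : (β_ Y V).hom ≫ (β_ V Y).hom = 𝟙 (Y ⊗ V)) :
    (β_ Y V').hom ≫ (β_ V' Y).hom = 𝟙 (Y ⊗ V') := by
  have n := B0.mono_right Y e.hom
  rw [h, Category.id_comp] at n
  have : Epi (Y ◁ e.hom) := by infer_instance
  rw [← cancel_epi (Y ◁ e.hom), ← n, Category.comp_id]

/-- Row HDIR: if `E` is semisimple and all its simple objects are invertible, projectives of the
centralizer of `E` are projective in `Z` (characteristic zero). -/
theorem projective_of_projIn_centralizer [CharZero k] (hZ : IsFinite k Z) (E : ObjectProperty Z)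
    [hE : TensorSub E] (hinv : ∀ T, Simple T → E T → Invertible T)
    (hss : ∀ {A B : Z}, E A → E B → ∀ p : A ⟶ B, Epi p → ∃ s, s ≫ p = 𝟙 B)
    {X : Z} (hX : ProjIn (centralizer E) X) : Projective X := by
  classical
  obtain ⟨n, S, hS⟩ := hZ.simples
  let s : Finset (Fin n) := Finset.univ.filter (fun i => E (S i))
  have hcent : centralizer E = commAll S s := by
    ext Y
    constructor
    · intro hY i hi _
      exact hY (S i) (Finset.mem_filter.1 hi).2
    · intro hY V
      refine fl_induction hZ.artinian hZ.noetherian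
        (fun V => E V → (β_ Y V).hom ≫ (β_ V Y).hom = 𝟙 (Y ⊗ V)) ?_ ?_ V
      · intro V hV _
        have hz : IsZero (Y ⊗ V) := by
          have := (tensorLeft Y).map_isZero hV
          exact this
        exact hz.eq_of_src _ _
      · intro T hT h1 hsimple h2
        have hmono := hT.mono_f
        have hepi := hT.epi_g
        have hE1 : E T.X₁ := hE.sub T.f h2
        have hE3 : E T.X₃ := hE.quot T.g h2
        obtain ⟨t, ht⟩ := hss h2 hE3 T.g hepi
        refine comm_of_split Y T hT (h1 hE1) ?_ t ht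
        obtain ⟨i, ⟨e⟩⟩ := hS T.X₃ hsimple
        have hEi : E (S i) := hE.quot e.hom hE3
        have hi : i ∈ s := Finset.mem_filter.2 ⟨Finset.mem_univ _, hEi⟩
        have hinvT := hinv T.X₃ hsimple hE3
        have hinvi : Invertible (S i) := by
          obtain ⟨c, ⟨j⟩⟩ := hinvT
          exact ⟨c, ⟨whiskerRightIso e.symm c ≪≫ j⟩⟩
        exact comm_of_iso' Y e.symm (hY i hi hinvi)
  rw [hcent] at hX
  exact projective_of_commAll hZ S s hX

end HDir

end Pool.Agent.MUG
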