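import Pool.Agent.MUG.P2

/-!
# Row P2': a non-split extension of a simple object by the unit, no invertibility (helper64)
-/

open CategoryTheory MonoidalCategory Limits Abelian

universe w v u

set_option linter.unusedSectionVars false

namespace Pool.Agent.MUG

section P2b

variable {k : Type*} [Field k] {C : Type u} [Category.{v} C] [Abelian C] [Linear k C]
  [MonoidalCategory C] [MonoidalPreadditive C] [MonoidalLinear k C] [RigidCategory C]

/-- If every extension of a simple object by the unit splits, then all extensions by the unit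
split. -/
theorem ext_unit_eq_zero [HasExt.{w} C] (hC : IsFinite k C)
    (h : ∀ (V U : C) (i : 𝟙_ C ⟶ U) (p : U ⟶ V) (w : i ≫ p = 0), Simple V →
      (ShortComplex.mk i p w).ShortExact → ∃ s : V ⟶ U, s ≫ p = 𝟙 V) (X : C)
    (x : Ext X (𝟙_ C) 1) : x = 0 := by
  have := hC.enough
  revert x
  refine fl_induction hC.artinian hC.noetherian (fun X => ∀ x : Ext X (𝟙_ C) 1, x = 0) ?_ ?_ X
  · intro X hX x
    rw [← Ext.mk₀_id_comp x, hX.eq_of_src (𝟙 X) 0, Ext.mk₀_zero, Ext.zero_comp]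
  · intro S hS h2 h3 x
    obtain ⟨y, rfl⟩ := Ext.contravariant_sequence_exact₂ hS (𝟙_ C) x (h2 _)
    obtain ⟨U, i, p, w, hU, rfl⟩ := exists_ses (fun X Y x => ext_factor 0 x) y
    obtain ⟨s, hs⟩ := h _ _ i p w h3 hU
    have hm : Mono i := hU.mono_f
    let σ : (ShortComplex.mk i p w).Splitting :=
      ShortComplex.Splitting.ofExactOfSection _ hU.exact s hs hm
    rw [extClass_eq_zero_of_retraction hU σ.r σ.f_r, Ext.comp_zero]

/-- If every extension of a simple object by the unit splits, then every epimorphism splits. -/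
theorem section_of_unit (hC : IsFinite k C)
    (h : ∀ (V U : C) (i : 𝟙_ C ⟶ U) (p : U ⟶ V) (w : i ≫ p = 0), Simple V →
      (ShortComplex.mk i p w).ShortExact → ∃ s : V ⟶ U, s ≫ p = 𝟙 V)
    {A B : C} (p : A ⟶ B) (hp : Epi p) : ∃ s : B ⟶ A, s ≫ p = 𝟙 B := by
  have := hC.enough
  let : HasExt.{max u v} C := HasExt.standard _
  let K : C := kernel p
  let κ : K ⟶ A := kernel.ι p
  have hS : (ShortComplex.mk κ p (kernel.condition p)).ShortExact :=
    { exact := ShortComplex.exact_kernel p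
      mono_f := inferInstanceAs (Mono (kernel.ι p))
      epi_g := hp }
  have hS' : ((ShortComplex.mk κ p (kernel.condition p)).map (tensorLeft (Kᘁ))).ShortExact :=
    hS.map_of_exact (tensorLeft (Kᘁ))
  obtain ⟨g₀, hg₀⟩ := Ext.contravariant_sequence_exact₁ hS' (𝟙_ C)
    (Ext.mk₀ (ε_ K (Kᘁ))) (n₁ := 1) rfl (ext_unit_eq_zero hC h _ _)
  obtain ⟨g, rfl⟩ := (Ext.mk₀_bijective _ _).2 g₀
  rw [Ext.mk₀_comp_mk₀] at hg₀
  have hg : (Kᘁ ◁ κ) ≫ g = ε_ K (Kᘁ) := (Ext.mk₀_bijective _ _).1 hg₀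
  let r : A ⟶ K := (λ_ A).inv ≫ (η_ K (Kᘁ) ▷ A) ≫ (α_ K (Kᘁ) A).hom ≫ (K ◁ g) ≫ (ρ_ K).hom
  have hr : κ ≫ r = 𝟙 K := by
    calc κ ≫ (λ_ A).inv ≫ (η_ K (Kᘁ) ▷ A) ≫ (α_ K (Kᘁ) A).hom ≫ (K ◁ g) ≫ (ρ_ K).hom
        = (λ_ K).inv ≫ (η_ K (Kᘁ) ▷ K) ≫ (α_ K (Kᘁ) K).hom ≫ (K ◁ ((Kᘁ ◁ κ) ≫ g)) ≫
          (ρ_ K).hom := by
          rw [leftUnitor_inv_naturality_assoc, whisker_exchange_assoc]
          simp
      _ = (λ_ K).inv ≫ ((η_ K (Kᘁ) ▷ K) ≫ (α_ K (Kᘁ) K).hom ≫ (K ◁ ε_ K (Kᘁ))) ≫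
          (ρ_ K).hom := by
          rw [hg]; simp
      _ = 𝟙 K := by
          rw [ExactPairing.evaluation_coevaluation]; simp
  let σ : (ShortComplex.mk κ p (kernel.condition p)).Splitting :=
    ShortComplex.Splitting.ofExactOfRetraction _ hS.exact r hr hp
  exact ⟨σ.s, σ.s_g⟩

end P2b

section P2c

variable {k : Type*} [Field k] {Z : Type u} [Category.{v} Z] [Abelian Z] [Linear k Z]
  [MonoidalCategory Z] [MonoidalPreadditive Z] [MonoidalLinear k Z] [RigidCategory Z]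

/-- Row P2': a tensor subcategory which is not semisimple contains a non-split extension of a
simple object by the unit. -/
theorem exists_nonsplit' (hZ : IsFinite k Z) (E : ObjectProperty Z) [hE : TensorSub E]
    (hns : ∃ (A B : Z) (p : A ⟶ B), E A ∧ E B ∧ Epi p ∧ ¬ ∃ s : B ⟶ A, s ≫ p = 𝟙 B) :
    ∃ (V U : Z) (i : 𝟙_ Z ⟶ U) (p : U ⟶ V) (w : i ≫ p = 0),
      E V ∧ E U ∧ Simple V ∧ (ShortComplex.mk i p w).ShortExact ∧
        ¬ ∃ s : V ⟶ U, s ≫ p = 𝟙 V := by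
  by_contra hcon
  obtain ⟨A, B, p, hA, hB, hp, hnosec⟩ := hns
  apply hnosec
  have hfin := finite_sub hZ E
  let p' : (⟨A, hA⟩ : E.FullSubcategory) ⟶ ⟨B, hB⟩ := ObjectProperty.homMk p
  have hp' : Epi p' := sub_epi_of E p' hp
  obtain ⟨s, hs⟩ := section_of_unit hfin (fun V U i q w hV hU => by
    by_contra hno
    apply hcon
    have hU' := hU.map_of_exact E.ι
    have w' : i.hom ≫ q.hom = 0 := congrArg (fun t => t.hom) w
    refine ⟨V.obj, U.obj, i.hom, q.hom, w', V.property, U.property,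
      (sub_simple_iff E _).1 hV, hU', ?_⟩
    rintro ⟨s, hs⟩
    refine hno ⟨ObjectProperty.homMk s, ?_⟩
    ext
    exact hs) p' hp'
  refine ⟨s.hom, ?_⟩
  exact congrArg E.ι.map hs

end P2c

end Pool.Agent.MUG
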