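import Pool.Agent.MUG.Q3a
import Pool.Agent.MUG.Q4a
import Pool.Agent.MUG.Q4b
import Pool.Agent.MUG.C3

/-!
# Row P3 (helper79): an extension of `χ` by `1` commuting with the centralizer of `χ` splits
-/

open CategoryTheory MonoidalCategory Limits Abelian

universe w v u

set_option linter.unusedSectionVars false

attribute [local instance] CategoryTheory.Abelian.hasFiniteBiproducts

namespace Pool.Agent.MUG

namespace P3aux

open Q3aux

section gen

variable {C : Type u} [Category.{v} C] [MonoidalCategory C] [BraidedCategory C]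

theorem comm_symm {X Y : C} (h : Comm X Y) : Comm Y X := by
  unfold Comm at h ⊢
  have h2 : (β_ Y X).hom = (β_ X Y).inv := by
    rw [← cancel_epi (β_ X Y).hom, h, Iso.hom_inv_id]
  rw [h2, Iso.inv_hom_id]

theorem comm_unit_right (Y : C) : Comm Y (𝟙_ C) := by
  unfold Comm
  simp [braiding_tensorUnit_left, braiding_tensorUnit_right]

/-- the automorphism given by the double braiding is monoidal -/
theorem th_tensor {c : C} (hc : Invertible c) (X Y : C) :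
    th hc (X ⊗ Y) = (th hc X ▷ Y) ≫ (X ◁ th hc Y) := by
  apply whisker_inj hc
  rw [th_spec, BraidedCategory.braiding_tensor_left_hom, BraidedCategory.braiding_tensor_right_hom]
  have h1 : (X ◁ (β_ c Y).hom) ≫ (X ◁ (β_ Y c).hom) = X ◁ (c ◁ th hc Y) := by
    rw [th_spec, MonoidalCategory.whiskerLeft_comp]
  have h2 : (β_ c X).hom ▷ Y ≫ (β_ X c).hom ▷ Y = (c ◁ th hc X) ▷ Y := by
    rw [th_spec, comp_whiskerRight]
  calc _ = (α_ c X Y).inv ≫ (β_ c X).hom ▷ Y ≫ (α_ X c Y).hom ≫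
        ((X ◁ (β_ c Y).hom) ≫ (X ◁ (β_ Y c).hom)) ≫ (α_ X c Y).inv ≫
        (β_ X c).hom ▷ Y ≫ (α_ c X Y).hom := by
          simp only [Category.assoc, Iso.inv_hom_id_assoc]
    _ = (α_ c X Y).inv ≫ (β_ c X).hom ▷ Y ≫ ((X ⊗ c) ◁ th hc Y) ≫
        (β_ X c).hom ▷ Y ≫ (α_ c X Y).hom := by
          rw [h1]
          simp only [Category.assoc, tensor_whiskerLeft]
    _ = (α_ c X Y).inv ≫ ((β_ c X).hom ▷ Y ≫ (β_ X c).hom ▷ Y) ≫ ((c ⊗ X) ◁ th hc Y) ≫
        (α_ c X Y).hom := by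
          simp only [Category.assoc, whisker_exchange_assoc]
    _ = _ := by
          rw [h2]
          simp

theorem th_unit {c : C} (hc : Invertible c) : th hc (𝟙_ C) = 𝟙 (𝟙_ C) := by
  rw [th_eq_one_iff]
  exact comm_symm (comm_unit_right c)

theorem eq_of_coev {Y D : C} [ExactPairing Y D] {f : D ⟶ D}
    (h : η_ Y D ≫ (Y ◁ f) = η_ Y D) : f = 𝟙 D := by
  have h1 := ExactPairing.coevaluation_evaluation Y D
  have h2 : ((D ◁ η_ Y D) ≫ (α_ D Y D).inv ≫ (ε_ Y D ▷ D)) ≫ (𝟙_ C ◁ f) =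
      (D ◁ η_ Y D) ≫ (α_ D Y D).inv ≫ (ε_ Y D ▷ D) := by
    rw [Category.assoc, Category.assoc, ← whisker_exchange, tensor_whiskerLeft]
    simp only [Category.assoc, Iso.inv_hom_id_assoc]
    rw [← MonoidalCategory.whiskerLeft_comp_assoc, h]
  rw [h1, Category.assoc, ← leftUnitor_inv_naturality, cancel_epi] at h2
  calc f = (f ≫ (λ_ D).inv) ≫ (λ_ D).hom := by simp
    _ = 𝟙 D := by rw [h2, Iso.inv_hom_id]

end gen

section main

variable {k : Type*} [Field k] {C : Type u} [Category.{v} C] [Abelian C] [Linear k C]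
  [MonoidalCategory C] [MonoidalPreadditive C] [MonoidalLinear k C] [RigidCategory C]
  [BraidedCategory C]

/-- tensoring on the right with a nonzero object is faithful -/
theorem faithful_right (h1 : Simple (𝟙_ C)) {X : C} (hX : 𝟙 X ≠ 0) {Y Z : C} (g : Y ⟶ Z)
    (h : g ▷ X = 0) : g = 0 := by
  apply C2.faithful h1 hX
  have h2 : (X ◁ g) = (β_ X Y).hom ≫ (g ▷ X) ≫ (β_ X Z).inv := by
    rw [← BraidedCategory.braiding_naturality_right_assoc, Iso.hom_inv_id, Category.comp_id]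
  rw [h2, h, zero_comp, comp_zero]

/-- if `χ` is not transparent, a simple object has nontrivial monodromy with it -/
theorem exists_simple [IsAlgClosed k] [CharZero k] (hC : IsFinite k C) {χ : C}
    (hχ : Invertible χ) (Y₀ : C) (hY₀ : th hχ Y₀ ≠ 𝟙 Y₀) :
    ∃ (S : C) (_ : Simple S) (l : k), l ≠ 1 ∧ th hχ S = l • 𝟙 S := by
  obtain ⟨N, hN, hiter⟩ := exists_order hC hχ
  obtain ⟨e⟩ := hiter 1 (𝟙_ C)
  rw [Nat.mul_one] at e
  have hpow : ∀ Y : C, pw (th hχ Y) N = 𝟙 Y := fun Y => th_pow hχ N e Y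
  -- the idempotent
  let a : Y₀ ⟶ Y₀ := av k (th hχ Y₀) N
  have ha1 : a ≫ th hχ Y₀ = a := av_fix _ _ (hpow _)
  have ha2 : a ≫ a = a := by
    have h1 : ∀ j, a ≫ pw (th hχ Y₀) j = a := by
      intro j
      induction j with
      | zero => simp [pw]
      | succ j ih => rw [pw, ← Category.assoc, ha1, ih]
    change a ≫ (((N : k)⁻¹) • ∑ j ∈ Finset.range N, pw (th hχ Y₀) j) = a
    rw [Linear.comp_smul, Preadditive.comp_sum, Finset.sum_congr rfl fun j _ => h1 j,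
      Finset.sum_const, Finset.card_range, ← Nat.cast_smul_eq_nsmul k, smul_smul,
      inv_mul_cancel₀ (by exact_mod_cast hN.ne'), one_smul]
  have hm0 : 𝟙 Y₀ - a ≠ 0 := by
    intro h
    apply hY₀
    have h2 : a = 𝟙 Y₀ := (sub_eq_zero.1 h).symm
    rw [h2, Category.id_comp] at ha1
    exact ha1
  have hm1 : (𝟙 Y₀ - a) ≫ a = 0 := by
    rw [Preadditive.sub_comp, Category.id_comp, ha2, sub_self]
  let I := Limits.image (𝟙 Y₀ - a)
  have hI : ¬ IsZero I := by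
    intro hz
    apply hm0
    rw [← Limits.image.fac (𝟙 Y₀ - a), hz.eq_of_tgt (Limits.factorThruImage (𝟙 Y₀ - a)) 0,
      zero_comp]
  have hIa : Limits.image.ι (𝟙 Y₀ - a) ≫ a = 0 := by
    rw [← cancel_epi (Limits.factorThruImage (𝟙 Y₀ - a)), comp_zero, ← Category.assoc,
      Limits.image.fac, hm1]
  obtain ⟨S, -, ι, -, hι, -, hS, -⟩ := Q4a.exists_simples hC.artinian hC.noetherian hI
  let j : S ⟶ Y₀ := ι ≫ Limits.image.ι (𝟙 Y₀ - a)
  have hj : Mono j := mono_comp _ _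
  have hja : j ≫ a = 0 := by
    change (ι ≫ Limits.image.ι (𝟙 Y₀ - a)) ≫ a = 0
    rw [Category.assoc, hIa, comp_zero]
  have hSa : av k (th hχ S) N = 0 := by
    rw [← cancel_mono j, zero_comp, av_nat (k := k) (th hχ S) (th hχ Y₀) j (th_nat hχ j)]
    exact hja
  have := hC.hom_finite S S
  obtain ⟨l, hl⟩ := endomorphism_simple_eq_smul_id k (th hχ S)
  refine ⟨S, hS, l, ?_, hl.symm⟩
  rintro rfl
  rw [one_smul] at hl
  rw [← hl, av_one N hN] at hSa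
  exact id_nonzero S hSa

/-- Row P3, nontransparent case. -/
theorem split_of_simple (h1 : Simple (𝟙_ C)) {χ U : C} (hχ : Invertible χ) (i : 𝟙_ C ⟶ U)
    (p : U ⟶ χ) (w : i ≫ p = 0) (hS : (ShortComplex.mk i p w).ShortExact)
    (hU : ∀ Y : C, Comm Y χ → Comm Y U) (Y : C) (hY : 𝟙 Y ≠ 0) (l : k) (hl : l ≠ 1)
    (hYl : th hχ Y = l • 𝟙 Y) : ∃ s : χ ⟶ U, s ≫ p = 𝟙 χ := by
  let D : C := Yᘁ
  -- the dual
  have hD : l • th hχ D = 𝟙 D := by
    apply eq_of_coev (Y := Y)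
    have h2 := th_nat hχ (η_ Y D)
    rw [th_unit, Category.id_comp, th_tensor, hYl] at h2
    rw [MonoidalLinear.whiskerLeft_smul, Linear.comp_smul]
    rw [MonoidalLinear.smul_whiskerRight, id_whiskerRight, Linear.smul_comp, Category.id_comp,
      Linear.comp_smul] at h2
    exact h2.symm
  have hW : Comm (D ⊗ Y) U := by
    apply hU
    have h3 : th hχ (D ⊗ Y) = 𝟙 _ := by
      rw [th_tensor, hYl, MonoidalLinear.whiskerLeft_smul, whiskerLeft_id, Linear.comp_smul,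
        Category.comp_id, ← MonoidalLinear.smul_whiskerRight, hD, id_whiskerRight]
    exact (th_eq_one_iff hχ _).1 h3
  have hWd : dbr U (D ⊗ Y) = 0 := dbr_eq_zero.2 (comm_symm hW)
  -- the map `E`
  have eY := hS.map_of_exact (tensorRight Y)
  have z₁ : (i ▷ Y) ≫ dbr U Y = 0 := by
    rw [dbr_nat_left, dbr_eq_zero.2 (comm_symm (comm_unit_right Y)), zero_comp]
  obtain ⟨E, hE⟩ : ∃ E : χ ⊗ Y ⟶ U ⊗ Y, (p ▷ Y) ≫ E = dbr U Y :=
    ⟨_, (CokernelCofork.IsColimit.desc' eY.gIsCokernel (dbr U Y) z₁).2⟩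
  have hepi : Epi p := hS.epi_g
  have hepiY : Epi (p ▷ Y) := eY.epi_g
  have hχY : dbr χ Y = (l - 1) • 𝟙 (χ ⊗ Y) := by
    rw [dbr, ← th_spec hχ Y, hYl, MonoidalLinear.whiskerLeft_smul, whiskerLeft_id, sub_smul,
      one_smul]
  have hEp : E ≫ (p ▷ Y) = (l - 1) • 𝟙 (χ ⊗ Y) := by
    rw [← cancel_epi (p ▷ Y), ← Category.assoc, hE, ← dbr_nat_left, hχY]
  -- the coevaluation
  let a : Y ⟶ Y ⊗ (D ⊗ Y) := (λ_ Y).inv ≫ (η_ Y D ▷ Y) ≫ (α_ Y D Y).hom
  have hnat := dbr_nat_right U a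
  rw [dbr_tensor, hWd, MonoidalPreadditive.whiskerLeft_zero, zero_comp, comp_zero, comp_zero,
    comp_zero, add_zero] at hnat
  -- cancel `p ▷ Y`
  have hF : (χ ◁ a) ≫ (α_ χ Y (D ⊗ Y)).inv ≫ (E ▷ (D ⊗ Y)) ≫ (α_ U Y (D ⊗ Y)).hom =
      E ≫ (U ◁ a) := by
    rw [← cancel_epi (p ▷ Y), ← Category.assoc (p ▷ Y) E, hE, ← hnat,
      ← whisker_exchange_assoc, ← hE, comp_whiskerRight]
    simp only [Category.assoc, associator_inv_naturality_left_assoc]
  let ι : U ⟶ U ⊗ (Y ⊗ D) := (ρ_ U).inv ≫ (U ◁ η_ Y D)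
  let σ : χ ⟶ U ⊗ (Y ⊗ D) := (ρ_ χ).inv ≫ (χ ◁ η_ Y D) ≫ (α_ χ Y D).inv ≫ (E ▷ D) ≫
    (α_ U Y D).hom
  have hση : σ ▷ Y = E ≫ (ι ▷ Y) := by
    have e1 : (ι ▷ Y) = (U ◁ a) ≫ (U ◁ (α_ Y D Y).inv) ≫ (α_ U (Y ⊗ D) Y).inv := by
      simp only [ι, a]
      simp
    have e2 : σ ▷ Y = ((χ ◁ a) ≫ (α_ χ Y (D ⊗ Y)).inv ≫ (E ▷ (D ⊗ Y)) ≫
        (α_ U Y (D ⊗ Y)).hom) ≫ (U ◁ (α_ Y D Y).inv) ≫ (α_ U (Y ⊗ D) Y).inv := by
      simp only [σ, a]
      simp
    rw [e1, e2, hF, Category.assoc]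
  -- `ι` is a monomorphism
  have hηne : η_ Y D ≠ 0 := by
    intro h
    apply hY
    have h3 := ExactPairing.evaluation_coevaluation Y D
    rw [h, MonoidalPreadditive.zero_whiskerRight, zero_comp] at h3
    have h4 : (λ_ Y).hom ≫ (ρ_ Y).inv = 0 := h3.symm
    calc 𝟙 Y = (λ_ Y).inv ≫ ((λ_ Y).hom ≫ (ρ_ Y).inv) ≫ (ρ_ Y).hom := by simp
      _ = 0 := by rw [h4]; simp
  have hη : Mono (η_ Y D) := mono_of_nonzero_from_simple hηne
  have hUη : Mono (U ◁ η_ Y D) := inferInstanceAs (Mono ((tensorLeft U).map (η_ Y D)))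
  have hι : Mono ι := mono_comp _ _
  have hιY : Mono (ι ▷ Y) := inferInstanceAs (Mono ((tensorRight Y).map ι))
  have hq : σ ≫ cokernel.π ι = 0 := by
    apply faithful_right h1 hY
    rw [comp_whiskerRight, hση, Category.assoc, ← comp_whiskerRight, cokernel.condition,
      MonoidalPreadditive.zero_whiskerRight, comp_zero]
  obtain ⟨s', hs'⟩ : ∃ s' : χ ⟶ U, s' ≫ ι = σ :=
    ⟨Abelian.monoLift ι σ hq, Abelian.monoLift_comp ι σ hq⟩
  have hs'Y : s' ▷ Y = E := by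
    rw [← cancel_mono (ι ▷ Y), ← comp_whiskerRight, hs', hση]
  have hs'p : s' ≫ p = (l - 1) • 𝟙 χ := by
    rw [← sub_eq_zero]
    apply faithful_right h1 hY
    have h5 : (s' ≫ p - (l - 1) • 𝟙 χ) ▷ Y = (s' ≫ p) ▷ Y - ((l - 1) • 𝟙 χ) ▷ Y :=
      (tensorRight Y).map_sub
    rw [h5, comp_whiskerRight, hs'Y, hEp, MonoidalLinear.smul_whiskerRight, id_whiskerRight,
      sub_self]
  refine ⟨(l - 1)⁻¹ • s', ?_⟩
  rw [Linear.smul_comp, hs'p, smul_smul, inv_mul_cancel₀ (sub_ne_zero.2 hl), one_smul]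

end main

end P3aux

section P3

variable {k : Type*} [Field k] {C : Type u} [Category.{v} C] [Abelian C] [Linear k C]
  [MonoidalCategory C] [MonoidalPreadditive C] [MonoidalLinear k C] [RigidCategory C]
  [BraidedCategory C]

/-- Row P3. -/
theorem comm_split [IsAlgClosed k] [CharZero k] (hC : IsFinite k C)
    (hnd : ∀ X : C, (∀ Y, Comm X Y) → ∃ n : ℕ, Nonempty (X ≅ ⨁ (fun _ : Fin n => 𝟙_ C)))
    {χ U : C} (hχ : Invertible χ) (i : 𝟙_ C ⟶ U) (p : U ⟶ χ) (w : i ≫ p = 0)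
    (hS : (ShortComplex.mk i p w).ShortExact) (hU : ∀ Y : C, Comm Y χ → Comm Y U) :
    ∃ s : χ ⟶ U, s ≫ p = 𝟙 χ := by
  have h1 : Simple (𝟙_ C) := hC.unit
  have hχs : Simple χ := simple_of_invertible hC hχ
  by_cases htr : ∀ Y : C, Q3aux.th hχ Y = 𝟙 Y
  · obtain ⟨n, ⟨φ⟩⟩ := hnd U (fun Y => P3aux.comm_symm
      (hU Y ((Q3aux.th_eq_one_iff hχ Y).1 (htr Y))))
    have hepi : Epi p := hS.epi_g
    have hne : φ.inv ≫ p ≠ 0 := by
      intro h
      have h2 : p = 0 := by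
        rw [← cancel_epi φ.inv, h, comp_zero]
      have h3 : 𝟙 χ = 0 := by
        rw [← cancel_epi p, h2, zero_comp, zero_comp]
      exact id_nonzero χ h3
    obtain ⟨j, hj⟩ : ∃ j : Fin n, biproduct.ι (fun _ : Fin n => 𝟙_ C) j ≫ φ.inv ≫ p ≠ 0 := by
      by_contra hcon
      push Not at hcon
      apply hne
      apply biproduct.hom_ext'
      intro j
      rw [hcon j, comp_zero]
    have := isIso_of_hom_simple hj
    refine ⟨inv (biproduct.ι (fun _ : Fin n => 𝟙_ C) j ≫ φ.inv ≫ p) ≫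
      biproduct.ι (fun _ : Fin n => 𝟙_ C) j ≫ φ.inv, ?_⟩
    rw [Category.assoc, Category.assoc]
    exact IsIso.inv_hom_id _
  · push Not at htr
    obtain ⟨Y₀, hY₀⟩ := htr
    obtain ⟨S, hSS, l, hl, hSl⟩ := P3aux.exists_simple (k := k) hC hχ Y₀ hY₀
    exact P3aux.split_of_simple h1 hχ i p w hS hU S (id_nonzero S) l hl hSl

end P3

end Pool.Agent.MUG
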