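import Pool.Agent.MUG.E5
import Pool.Agent.MUG.T1
import Pool.Agent.MUG.FG
import Pool.Agent.MUG.C4
import Pool.Agent.MUG.SubExact

/-! Rows Q1 and Q2: independence of the universe, and the whole category as a tensor
subcategory. -/

open CategoryTheory MonoidalCategory Limits Abelian

universe w w' v v' u u'

namespace Pool.Agent.MUG

section Transfer

variable {k : Type*} [Field k]
  {A : Type u} [Category.{v} A] [Abelian A] [Linear k A] [MonoidalCategory A]
  [MonoidalPreadditive A] [MonoidalLinear k A] [RigidCategory A] [HasExt.{w} A]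
  {T : Type u'} [Category.{v'} T] [Abelian T] [Linear k T] [MonoidalCategory T]
  [MonoidalPreadditive T] [MonoidalLinear k T] [RigidCategory T] [HasExt.{w'} T]

/-- Transfer along an exact full embedding which preserves projective objects. -/
theorem fgc_of_full [EnoughProjectives T] [EnoughProjectives A]
    (i : T ⥤ A) [i.Additive] [i.Linear k] [PreservesFiniteLimits i]
    [PreservesFiniteColimits i] [i.Monoidal] [i.Full] [i.Faithful]
    (hP : ∀ P : T, Projective P → Projective (i.obj P))
    (hF : FGC.{w} k A) : FGC.{w'} k T := by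
  refine fgc_transfer i (𝟙_ A) (𝟙 (𝟙_ A)) ?_ hF
  let G : T ⥤ A := i ⋙ tensorLeft (𝟙_ A)
  let θ : G ⟶ i :=
    { app := fun N => (𝟙 (𝟙_ A) ▷ i.obj N) ≫ (λ_ (i.obj N)).hom
      naturality := by
        intro N N' f
        simp [G] }
  have hG : ∀ P : T, Projective P → Projective (G.obj P) := by
    intro P hPP
    have h1 : Projective (i.obj P) := hP P hPP
    exact Projective.of_iso (λ_ (i.obj P)).symm h1
  have h0 : ∀ N M : T, Function.Bijective (fun f : N ⟶ M => θ.app N ≫ i.map f) := by
    intro N M
    have hI : IsIso (θ.app N) := by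
      have : θ.app N = (λ_ (i.obj N)).hom := by
        change (𝟙 (𝟙_ A) ▷ i.obj N) ≫ (λ_ (i.obj N)).hom = _
        rw [id_whiskerRight, Category.id_comp]
      rw [this]
      infer_instance
    constructor
    · intro f g h
      exact i.map_injective ((cancel_epi (θ.app N)).1 h)
    · intro g
      refine ⟨i.preimage (inv (θ.app N) ≫ g), ?_⟩
      simp
  intro N M n
  exact ds_bijective i G hG θ h0 N M n

end Transfer

section ThmQ

variable {k : Type*} [Field k] {Z : Type u} [Category.{v} Z] [Abelian Z] [Linear k Z]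
  [MonoidalCategory Z] [MonoidalPreadditive Z] [MonoidalLinear k Z] [RigidCategory Z]

/-- Row Q1: independence of the universe. -/
theorem fgc_univ (hZ : IsFinite k Z) [h : HasExt.{w} Z] [h' : HasExt.{w'} Z] :
    FGC.{w} k Z → FGC.{w'} k Z := by
  intro hF
  have := hZ.enough
  exact fgc_of_full (𝟭 Z) (fun P hP => hP) hF

/-- Row Q2. -/
theorem fg_top (hZ : IsFinite k Z) [HasExt.{w} Z] (hF : FGC.{w} k Z)
    (h : TensorSub (⊤ : ObjectProperty Z)) : FG k (⊤ : ObjectProperty Z) h := by
  have := hZ.enough
  have h1 := (finite_sub hZ (⊤ : ObjectProperty Z)).enough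
  have : HasExt.{max u v} (⊤ : ObjectProperty Z).FullSubcategory := HasExt.standard _
  refine fgc_of_full (⊤ : ObjectProperty Z).ι ?_ hF
  intro P hP
  refine ⟨fun {E X} f e he => ?_⟩
  let X' : (⊤ : ObjectProperty Z).FullSubcategory := ⟨X, trivial⟩
  let E' : (⊤ : ObjectProperty Z).FullSubcategory := ⟨E, trivial⟩
  let e' : E' ⟶ X' := ObjectProperty.homMk e
  let f' : P ⟶ X' := ObjectProperty.homMk f
  have he' : Epi e' := sub_epi_of _ e' he
  refine ⟨(Projective.factorThru f' e').hom, ?_⟩
  exact congrArg (fun t => t.hom) (Projective.factorThru_comp f' e')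

end ThmQ

end Pool.Agent.MUG
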