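import Pool.Agent.MUG.Q3a
import Pool.Agent.MUG.C3
import Pool.Agent.MUG.C2
import Pool.Agent.MUG.E5
import Pool.Agent.MUG.FG
import Pool.Agent.MUG.T1

/-! Row Q3: peel off an invertible object. -/

open CategoryTheory MonoidalCategory Limits Abelian

universe w' w v u

namespace Pool.Agent.MUG

section ThmQ

variable {k : Type*} [Field k] {Z : Type u} [Category.{v} Z] [Abelian Z] [Linear k Z]
  [MonoidalCategory Z] [MonoidalPreadditive Z] [MonoidalLinear k Z] [RigidCategory Z]
  [BraidedCategory Z]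

open Q3aux in
/-- Row Q3: peel off an invertible object. -/
theorem fg_inv [CharZero k] [IsAlgClosed k] (hZ : IsFinite k Z) (P : ObjectProperty Z)
    (hP : TensorSub P) (hF : FG k P hP) (c : Z) (hc : Invertible c)
    (h' : TensorSub (P ⊓ centralizer (fun X => X = c))) :
    FG k (P ⊓ centralizer (fun X => X = c)) h' := by
  obtain ⟨N, hN, hiter⟩ := exists_order_of hZ (fun hb => simple_of_invertible hZ hb) hc
  obtain ⟨e⟩ := hiter 1 (𝟙_ Z)
  rw [mul_one] at e
  have hpow : ∀ Y : Z, pw (th hc Y) N = 𝟙 Y := th_pow hc N e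
  have : HasExt.{max u v} P.FullSubcategory := HasExt.standard _
  have : HasExt.{max u v} (P ⊓ centralizer (fun X => X = c)).FullSubcategory :=
    HasExt.standard _
  have := (finite_sub hZ P).enough
  have := (finite_sub hZ (P ⊓ centralizer (fun X => X = c))).enough
  let i := ObjectProperty.ιOfLE (inf_le_left : P ⊓ centralizer (fun X => X = c) ≤ P)
  have : Functor.Linear k i := { map_smul := fun _ _ => rfl }
  let G := i ⋙ tensorLeft (𝟙_ P.FullSubcategory)
  let θ : G ⟶ i :=
    { app := fun A => ((𝟙 (𝟙_ P.FullSubcategory)) ▷ i.obj A) ≫ (λ_ (i.obj A)).hom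
      naturality := fun A B f => by
        change ((𝟙_ P.FullSubcategory) ◁ i.map f) ≫ ((𝟙 (𝟙_ P.FullSubcategory)) ▷ i.obj B) ≫
          (λ_ (i.obj B)).hom = (((𝟙 (𝟙_ P.FullSubcategory)) ▷ i.obj A) ≫
            (λ_ (i.obj A)).hom) ≫ i.map f
        rw [id_whiskerRight, id_whiskerRight, Category.id_comp, Category.id_comp]
        exact leftUnitor_naturality (i.map f) }
  have : ∀ A, IsIso (θ.app A) := fun A => by
    change IsIso (((𝟙 (𝟙_ P.FullSubcategory)) ▷ i.obj A) ≫ (λ_ (i.obj A)).hom)
    infer_instance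
  have hG : ∀ Q, Projective Q → Projective (G.obj Q) := fun Q hQ => by
    have h1 : Projective (i.obj Q) := proj_of (k := k) P hc N hN hpow Q hQ
    exact Projective.of_iso (asIso (θ.app Q)).symm h1
  have h0 : ∀ A B, Function.Bijective (fun f : A ⟶ B => θ.app A ≫ i.map f) := by
    intro A B
    constructor
    · intro f g h
      exact i.map_injective ((cancel_epi (θ.app A)).1 h)
    · intro g
      refine ⟨i.preimage (inv (θ.app A) ≫ g), ?_⟩
      change θ.app A ≫ i.map (i.preimage (inv (θ.app A) ≫ g)) = g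
      rw [i.map_preimage, IsIso.hom_inv_id_assoc]
  refine fgc_transfer (k := k) i (𝟙_ _) (𝟙 _) ?_ hF
  intro A M n
  exact ds_bijective i G hG θ h0 A M n

end ThmQ

end Pool.Agent.MUG
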