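import Pool.Agent.MUG.P5
import Pool.Agent.MUG.P2b
import Pool.Agent.MUG.P3
import Pool.Agent.MUG.Conv
import Pool.Agent.MUG.Q3
import Pool.Agent.MUG.Q12
import Pool.Agent.MUG.C5
import Pool.Agent.MUG.FB
import Pool.Agent.MUG.B8c

/-!
# Row P6: the induction of Theorem P (helper64)
-/

open CategoryTheory MonoidalCategory Limits Abelian

universe w v u

set_option linter.unusedSectionVars false

attribute [local instance] CategoryTheory.Abelian.hasFiniteBiproducts

namespace Pool.Agent.MUG

section P6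

variable {k : Type*} [Field k] {Z : Type u} [Category.{v} Z] [Abelian Z] [Linear k Z]
  [MonoidalCategory Z] [MonoidalPreadditive Z] [MonoidalLinear k Z] [RigidCategory Z]
  [BraidedCategory Z]

theorem fg_congr {P P' : ObjectProperty Z} (h : P = P') (hP : TensorSub P) (hP' : TensorSub P')
    (hF : FG k P hP) : FG k P' hP' := by
  subst h
  exact hF

/-- FGC of the centralizer of an invertible object. -/
theorem fg_centralizer_inv [CharZero k] [IsAlgClosed k] [HasExt.{w} Z] (hZ : IsFinite k Z)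
    (hF : FGC.{w} k Z) (c : Z) (hc : Invertible c)
    (h : TensorSub (centralizer (fun X : Z => X = c))) :
    FG k (centralizer (fun X : Z => X = c)) h := by
  have htop : TensorSub (⊤ : ObjectProperty Z) :=
    { unit := trivial
      tensor := fun _ _ => trivial
      rdual := fun _ => trivial
      ldual := fun _ => trivial
      sub := fun _ _ _ => trivial
      quot := fun _ _ _ => trivial
      biprod := fun _ _ => trivial }
  have h2 : TensorSub ((⊤ : ObjectProperty Z) ⊓ centralizer (fun X : Z => X = c)) :=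
    tensorSub_inf _ _
  exact fg_congr (top_inf_eq _) h2 h (fg_inv hZ ⊤ htop (fg_top hZ hF htop) c hc h2)

/-- Every simple object of `E` with a non-split extension by the unit inside `E` is
invertible. -/
def ExtInvertible (E : ObjectProperty Z) : Prop :=
  ∀ (V U : Z) (i : 𝟙_ Z ⟶ U) (p : U ⟶ V) (w : i ≫ p = 0), E V → E U → Simple V →
    (ShortComplex.mk i p w).ShortExact → (¬ ∃ s : V ⟶ U, s ≫ p = 𝟙 V) → Invertible V

/-- Epimorphisms between objects of `E` split. -/
def SplitEpis (E : ObjectProperty Z) : Prop :=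
  ∀ {A B : Z}, E A → E B → ∀ p : A ⟶ B, Epi p → ∃ s : B ⟶ A, s ≫ p = 𝟙 B

theorem ExtInvertible.mono {E E' : ObjectProperty Z} (h : E' ≤ E) (hE : ExtInvertible E) :
    ExtInvertible E' :=
  fun V U i p w hV hU hs hS hn => hE V U i p w (h V hV) (h U hU) hs hS hn

theorem extInvertible_of_pointed {E : ObjectProperty Z}
    (hinv : ∀ T, Simple T → E T → Invertible T) : ExtInvertible E :=
  fun V _ _ _ _ hV _ hs _ _ => hinv V hs hV

theorem extInvertible_of_split {E : ObjectProperty Z} (h : SplitEpis E) : ExtInvertible E :=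
  fun _ _ _ p _ hV hU _ hS hn => absurd (h hU hV p hS.epi_g) hn

/-- One step of the induction: the data. -/
theorem peel_step [IsAlgClosed k] [CharZero k] [HasExt.{w} Z] (hZ : IsFinite k Z)
    (hnd : ∀ X : Z, (∀ Y, Comm X Y) → ∃ n : ℕ, Nonempty (X ≅ ⨁ (fun _ : Fin n => 𝟙_ Z)))
    (hF : FGC.{w} k Z) (D : ObjectProperty Z) [hD : TensorSub D]
    (hgood : ExtInvertible (D ⊓ centralizer D))
    (hns : ∃ (A B : Z) (p : A ⟶ B), (D ⊓ centralizer D) A ∧ (D ⊓ centralizer D) B ∧ Epi p ∧
      ¬ ∃ s : B ⟶ A, s ≫ p = 𝟙 B) :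
    ∃ (X : Z) (b : D.FullSubcategory) (L : Leib b) (U' : D.FullSubcategory) (j' : b ⟶ U')
      (e' : U' ⟶ 𝟙_ D.FullSubcategory) (w'' : j' ≫ e' = 0), Invertible b ∧ L.SqZero ∧
      L.Nonzero ∧ (ShortComplex.mk j' e' w'').ShortExact ∧
      L.d U' = (b ◁ e') ≫ (ρ_ b).hom ≫ j' ∧
      (∀ Y, L.d Y = 0 ↔ Comm X Y.obj) ∧ centralizer D U'.obj := by
  have hcD : TensorSub (centralizer D) := tensorSub_centralizer D
  have hE : TensorSub (D ⊓ centralizer D) := tensorSub_inf _ _
  obtain ⟨χ, U, ι, π, w, hEχ, hEU, hsχ, hS, hno⟩ := exists_nonsplit' hZ _ hns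
  have hχ : Invertible χ := hgood χ U ι π w hEχ hEU hsχ hS hno
  have hmι : Mono ι := hS.mono_f
  have heπ : Epi π := hS.epi_g
  -- the category `A`
  let A : ObjectProperty Z := centralizer (fun X : Z => X = χ)
  have hA : TensorSub A := tensorSub_centralizer _
  have hAf := finite_sub hZ A
  have hFA : FG k A hA := fg_centralizer_inv hZ hF χ hχ hA
  have hAχ : A χ := by
    rintro _ rfl
    exact hEχ.2 _ hEχ.1
  have hcA : centralizer A χ := fun Y hY => comm_symm (hY χ rfl)
  obtain ⟨L, hL⟩ := leib_of_ext A ι π w hS hAχ hcA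
  have hLz := leib_eq_zero_iff A ι π hmι heπ hAχ L hL
  have hne : L.Nonzero := by
    by_contra hcon
    apply hno
    refine comm_split hZ hnd hχ ι π w hS (fun Y hY => ?_)
    have hAY : A Y := by
      rintro _ rfl
      exact hY
    have h0 : L.d ⟨Y, hAY⟩ = 0 := by
      by_contra h
      exact hcon ⟨_, h⟩
    exact comm_symm ((hLz ⟨Y, hAY⟩).1 h0)
  have hb : Invertible (⟨χ, hAχ⟩ : A.FullSubcategory) := invertible_full hZ A hAχ hχ
  have ht : Transp (⟨χ, hAχ⟩ : A.FullSubcategory) := by
    intro Y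
    ext
    exact hcA Y.obj Y.property
  have hc : (β_ (⟨χ, hAχ⟩ : A.FullSubcategory) ⟨χ, hAχ⟩).hom = - 𝟙 _ := by
    rcases braiding_sign hAf hb ht with h | h
    · obtain ⟨Y, hY⟩ := hne
      exact absurd (prim hAf hb ht L h Y) hY
    · exact h
  have hsq : L.SqZero := sqZero hAf hb ht L hc
  have : HasExt.{max u v} A.FullSubcategory := HasExt.standard _
  obtain ⟨X, j, e, w', hX, hdX⟩ := exists_X hAf hFA hb L hsq hc hne
  -- back in `Z`
  have hX' := hX.map_of_exact A.ι
  have w₁ : j.hom ≫ e.hom = 0 := by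
    have := congrArg (fun f => f.hom) w'
    exact this
  have hd : dbr U X.obj = (π ▷ X.obj) ≫ ((χ ◁ e.hom) ≫ (ρ_ χ).hom ≫ j.hom) ≫
      (λ_ X.obj).inv ≫ (ι ▷ X.obj) := by
    rw [hL X, hdX]
    rfl
  obtain ⟨b, L', U', j', e', w'', h1, h2, h3, h4, h5, h6, h7, h8, h9⟩ :=
    peel_data hZ D hχ ι π w hS hEU.1 hEU.2 j.hom e.hom w₁ hX' hd
  exact ⟨X.obj, b, L', U', j', e', w'', h1, h4, h5, h6, h7, h8, h9⟩

/-- Theorem P, relative to the base case of a semisimple Mueger centre. -/
theorem theoremP_of_base [IsAlgClosed k] [CharZero k] [HasExt.{w} Z] (hZ : IsFinite k Z)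
    (hnd : ∀ X : Z, (∀ Y, Comm X Y) → ∃ n : ℕ, Nonempty (X ≅ ⨁ (fun _ : Fin n => 𝟙_ Z)))
    (hF : FGC.{w} k Z) (D : ObjectProperty Z) (hD : TensorSub D)
    (hgood : ExtInvertible (D ⊓ centralizer D))
    (hbase : ∀ (D' : ObjectProperty Z) (hD' : TensorSub D'), D' ≤ D →
      D' ⊓ centralizer D' ≤ D ⊓ centralizer D → SplitEpis (D' ⊓ centralizer D') →
      FG k D' hD') : FG k D hD := by
  have key : ∀ D' : {P : ObjectProperty Z // TensorSub P}, D'.1 ≤ D →
      D'.1 ⊓ centralizer D'.1 ≤ D ⊓ centralizer D → FG k D'.1 D'.2 := by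
    intro D'
    induction D' using (dcc_sub hZ).induction with
    | _ D' ih =>
      intro hle hE
      obtain ⟨D', hD'⟩ := D'
      by_cases hns : ∃ (A B : Z) (p : A ⟶ B), (D' ⊓ centralizer D') A ∧
        (D' ⊓ centralizer D') B ∧ Epi p ∧ ¬ ∃ s : B ⟶ A, s ≫ p = 𝟙 B
      · obtain ⟨X, b, L, U, j, e, w, hb, hsq, hne, hS, hd, hX, hU⟩ :=
          peel_step hZ hnd hF D' (hgood.mono hE) hns
        have hcX : TensorSub (centralizer (fun Y : Z => Y = X)) := tensorSub_centralizer _
        have hD₁ : TensorSub (D' ⊓ centralizer (fun Y : Z => Y = X)) := tensorSub_inf _ _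
        have hlt : D' ⊓ centralizer (fun Y : Z => Y = X) < D' := by
          refine lt_of_le_of_ne inf_le_left (fun h => ?_)
          obtain ⟨Y, hY⟩ := hne
          apply hY
          rw [hX Y]
          have h1 : (D' ⊓ centralizer (fun Y : Z => Y = X)) Y.obj := by
            rw [h]
            exact Y.property
          exact comm_symm (h1.2 X rfl)
        have hF₁ : FG k (D' ⊓ centralizer (fun Y : Z => Y = X)) hD₁ :=
          ih ⟨_, hD₁⟩ hlt (le_trans inf_le_left hle)
            (le_trans (peel_centre hZ D' L hsq j e w hS hd hU X hX) hE)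
        -- the conversion
        have hDf := finite_sub hZ D'
        have hEn := (finite_sub hZ (D' ⊓ centralizer (fun Y : Z => Y = X))).enough
        have : HasExt.{max u v} D'.FullSubcategory := HasExt.standard _
        have : HasExt.{max u v} (D' ⊓ centralizer (fun Y : Z => Y = X)).FullSubcategory :=
          HasExt.standard _
        let i := ObjectProperty.ιOfLE
          (inf_le_left : D' ⊓ centralizer (fun Y : Z => Y = X) ≤ D')
        have : Functor.Linear k i := { map_smul := fun _ _ => rfl }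
        have hess : ∀ Y : D'.FullSubcategory, L.d Y = 0 ↔ i.essImage Y := by
          intro Y
          rw [hX Y]
          constructor
          · intro h
            have h1 : (D' ⊓ centralizer (fun Y : Z => Y = X)) Y.obj := by
              refine ⟨Y.property, ?_⟩
              rintro _ rfl
              exact comm_symm h
            exact ⟨⟨Y.obj, h1⟩, ⟨D'.isoMk (Iso.refl _)⟩⟩
          · rintro ⟨T, ⟨φ⟩⟩
            have h1 : centralizer (fun Y : Z => Y = X) Y.obj := by
              have h2 : Mono (D'.ι.mapIso φ).inv := inferInstance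
              exact hcX.sub (D'.ι.mapIso φ).inv T.property.2
            exact comm_symm (h1 X rfl)
        exact fgc_conv (k := k) hDf hb L hsq j e w hS hd i hess hF₁
      · refine hbase D' hD' hle hE (fun {A B} hA hB p hp => ?_)
        by_contra hcon
        exact hns ⟨A, B, p, hA, hB, hp, hcon⟩
  exact key ⟨D, hD⟩ le_rfl le_rfl

/-- THEOREM P for a pointed Mueger centre, from Theorem J. -/
theorem theoremP_pointed_of_J [IsAlgClosed k] [CharZero k] [HasExt.{w} Z] (hZ : IsFinite k Z)
    (hnd : ∀ X : Z, (∀ Y, Comm X Y) → ∃ n : ℕ, Nonempty (X ≅ ⨁ (fun _ : Fin n => 𝟙_ Z)))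
    (hJ : ∀ D' : ObjectProperty Z, TensorSub D' → JoinProj D')
    (hF : FGC.{w} k Z) (D : ObjectProperty Z) (hD : TensorSub D)
    (hinv : ∀ T, Simple T → (D ⊓ centralizer D) T → Invertible T) : FG k D hD :=
  theoremP_of_base hZ hnd hF D hD (extInvertible_of_pointed hinv)
    (fun D' hD' _ hE hss => baseJ_charZero hZ hF D' (fun hA hB p hp => hss hA hB p hp)
      (fun T hT h => hinv T hT (hE T h)) (hJ D' hD'))

end P6

end Pool.Agent.MUG
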