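import Pool.Agent.MUG.Q4a
import Pool.Agent.MUG.Q4b

open CategoryTheory MonoidalCategory Limits Abelian

universe w v u

namespace Pool.Agent.MUG

section ThmQ

variable {k : Type*} [Field k] {Z : Type u} [Category.{v} Z] [Abelian Z] [Linear k Z]
  [MonoidalCategory Z] [MonoidalPreadditive Z] [MonoidalLinear k Z] [RigidCategory Z]

variable [BraidedCategory Z]

/-- Row Q4 (VSEL). -/
theorem vsel [IsAlgClosed k] (hZ : IsFinite k Z) (B : ObjectProperty Z)
    (hB : ∀ V, B V → ∀ S, Simple S → IsSubquotient S V → Invertible S)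
    (P : ObjectProperty Z) [hP : TensorSub P] (h1 : centralizer B ≤ P)
    (h2 : ∀ V, B V → ∀ S, Simple S → IsSubquotient S V → P ≤ centralizer (fun X => X = S))
    (hne : ∃ Y, P Y ∧ ¬ centralizer B Y) :
    ∃ (b : P.FullSubcategory) (L : Leib b), Invertible b ∧ Transp b ∧ L.Nonzero ∧
      ∀ Y : P.FullSubcategory, centralizer B Y.obj → L.d Y = 0 := by
  obtain ⟨V, c₁, c₂, i, p, hi, hp, hc₁, hc₂, hz₁, hz₂, hK, hQ, hV, hBV⟩ :=
    vsel_a hZ B hB P h2 hne
  obtain ⟨b, L, hb, ht, hnz, hL⟩ := vsel_b hZ P i p hc₁ hc₂ hz₁ hz₂ hK hQ hV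
  exact ⟨b, L, hb, ht, hnz, fun Y hY => hL Y (hBV Y.obj hY)⟩

end ThmQ

end Pool.Agent.MUG
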