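import Pool.Agent.MUG.Q12
import Pool.Agent.MUG.Q3
import Pool.Agent.MUG.Q4
import Pool.Agent.MUG.Q5
import Pool.Agent.MUG.C5
import Pool.Agent.MUG.B0

/-!
# Theorem Q

In a braided finite tensor category with FGC over an algebraically closed field of
characteristic zero, the centralizer of a class of objects whose simple subquotients are
invertible has FGC.
-/

open CategoryTheory MonoidalCategory Limits Abelian

universe w w' v v' u u'

namespace Pool.Agent.MUG

section ThmQ

variable {k : Type*} [Field k] {Z : Type u} [Category.{v} Z] [Abelian Z] [Linear k Z]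
  [MonoidalCategory Z] [MonoidalPreadditive Z] [MonoidalLinear k Z] [RigidCategory Z]
  [BraidedCategory Z]

/-- Theorem Q, in terms of `FG`. -/
theorem theoremQ [IsAlgClosed k] [CharZero k] [HasExt.{w} Z] (hZ : IsFinite k Z)
    (hF : FGC.{w} k Z) (B : ObjectProperty Z)
    (hB : ∀ V, B V → ∀ S, Simple S → IsSubquotient S V → Invertible S)
    (hT : TensorSub (centralizer B)) :
    FG k (centralizer B) hT := by
  classical
  haveI htop : TensorSub (⊤ : ObjectProperty Z) :=
    { unit := trivial, tensor := fun _ _ => trivial, rdual := fun _ => trivial,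
      ldual := fun _ => trivial, sub := fun _ _ _ => trivial, quot := fun _ _ _ => trivial,
      biprod := fun _ _ => trivial }
  -- the set of good tensor subcategories
  let good : Set {P : ObjectProperty Z // TensorSub P} :=
    {P | centralizer B ≤ P.1 ∧ FG k P.1 P.2}
  have hgood : good.Nonempty := ⟨⟨⊤, htop⟩, le_top, fg_top hZ hF htop⟩
  obtain ⟨⟨P, hP⟩, ⟨h1, hFP⟩, hmin⟩ := (dcc_sub hZ).has_min good hgood
  haveI := hP
  -- invertible factors commute with P
  have h2 : ∀ V, B V → ∀ S, Simple S → IsSubquotient S V →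
      P ≤ centralizer (fun X => X = S) := by
    intro V hV S hS hSV
    by_contra hne
    have hSi := hB V hV S hS hSV
    haveI := tensorSub_centralizer (fun X : Z => X = S)
    have h' : TensorSub (P ⊓ centralizer (fun X => X = S)) := tensorSub_inf P _
    refine hmin ⟨_, h'⟩ ⟨le_inf h1 (centralizer_le B V hV S hSV), fg_inv hZ P hP hFP S hSi h'⟩ ?_
    exact lt_of_le_of_ne inf_le_left (fun he => hne (inf_eq_left.1 he))
  by_cases hne : ∃ Y, P Y ∧ ¬ centralizer B Y
  · exfalso
    obtain ⟨b, L, hb, ht, hnz, hL⟩ := vsel hZ B hB P h1 h2 hne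
    obtain ⟨h', hF'⟩ := fg_leib hZ P hP hFP b hb ht L
    refine hmin ⟨_, h'⟩ ⟨?_, hF'⟩ ?_
    · intro Y hY
      exact ⟨h1 Y hY, hL ⟨Y, h1 Y hY⟩ hY⟩
    · refine lt_of_le_of_ne (fun Y hY => hY.1) ?_
      intro he
      obtain ⟨Y, hY⟩ := hnz
      have he' : (fun Y : Z => ∃ h : P Y, L.d ⟨Y, h⟩ = 0) = P := he
      have h3 : (fun Y : Z => ∃ h : P Y, L.d ⟨Y, h⟩ = 0) Y.obj := by
        rw [he']; exact Y.property
      obtain ⟨_, h⟩ := h3
      exact hY h
  · push Not at hne
    have : P = centralizer B := le_antisymm (fun Y hY => hne Y hY) h1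
    subst this
    exact hFP

/-- The centralizer is a tensor subcategory. -/
instance instTensorSubCentralizer (B : ObjectProperty Z) : TensorSub (centralizer B) :=
  tensorSub_centralizer B

/-- **Theorem Q.** -/
theorem theoremQ_fgc [IsAlgClosed k] [CharZero k] [HasExt.{w} Z] (hZ : IsFinite k Z)
    (hF : FGC.{w} k Z) (B : ObjectProperty Z)
    (hB : ∀ V, B V → ∀ S, Simple S → IsSubquotient S V → Invertible S)
    [hE : HasExt.{w'} (centralizer B).FullSubcategory] :
    FGC.{w'} k (centralizer B).FullSubcategory := by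
  have h := theoremQ hZ hF B hB (tensorSub_centralizer B)
  unfold FG at h
  have hfin := finite_sub hZ (centralizer B)
  have h1 : HasExt.{max u v} (centralizer B).FullSubcategory := HasExt.standard _
  exact fgc_univ (h := h1) (h' := hE) hfin h

end ThmQ

end Pool.Agent.MUG
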