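import Pool.Agent.MUG.TJ
import Pool.Agent.MUG.ThmQ

/-!
# Theorem N from Theorem J (row TN, helper45)
-/

open CategoryTheory MonoidalCategory Limits Abelian

universe w w' v u

set_option linter.unusedSectionVars false

namespace Pool.Agent.MUG

section TN

variable {k : Type*} [Field k] {Z : Type u} [Category.{v} Z] [Abelian Z] [Linear k Z]
  [MonoidalCategory Z] [MonoidalPreadditive Z] [MonoidalLinear k Z] [RigidCategory Z]

variable [BraidedCategory Z]

/-- From `FG` to `FGC` in an arbitrary universe. -/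
theorem fgc_of_fg [IsAlgClosed k] (hZ : IsFinite k Z) (D : ObjectProperty Z) [hD : TensorSub D]
    (h : FG k D hD) [hE : HasExt.{w'} D.FullSubcategory] : FGC.{w'} k D.FullSubcategory := by
  unfold FG at h
  have hfin := finite_sub hZ D
  have h1 : HasExt.{max u v} D.FullSubcategory := HasExt.standard _
  exact fgc_univ (h := h1) (h' := hE) hfin h

/-- Theorem N from Theorem J. -/
theorem theoremN_of [IsAlgClosed k] [HasExt.{w} Z] (hZ : IsFinite k Z) (hF : FGC.{w} k Z)
    (D : ObjectProperty Z) [hD : TensorSub D]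
    (hss : ∀ {A B : Z}, (D ⊓ centralizer D) A → (D ⊓ centralizer D) B → ∀ p : A ⟶ B, Epi p →
      ∃ s, s ≫ p = 𝟙 B)
    (hinv : ∀ T, Simple T → (D ⊓ centralizer D) T → Invertible T)
    (hord : ∀ T, Simple T → (D ⊓ centralizer D) T → ∃ N : ℕ, (N : k) ≠ 0 ∧
      Nonempty (iter (tensorLeft T) N (𝟙_ Z) ≅ 𝟙_ Z))
    (hJ : JoinProj D) [hE : HasExt.{w'} D.FullSubcategory] :
    FGC.{w'} k D.FullSubcategory :=
  fgc_of_fg hZ D (baseJ hZ hF D hss hinv hord hJ)

end TN

end Pool.Agent.MUG
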