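import Pool.Agent.MUG.FB
import Pool.Agent.MUG.Inj

/-!
# Row TJ: Theorem J from a loop family (helper64)
-/

open CategoryTheory MonoidalCategory Limits Abelian

universe w v u

set_option linter.unusedSectionVars false

namespace Pool.Agent.MUG

section TJ

variable {k : Type*} [Field k] {Z : Type u} [Category.{v} Z] [Abelian Z] [Linear k Z]
  [MonoidalCategory Z] [MonoidalPreadditive Z] [MonoidalLinear k Z] [RigidCategory Z]

variable [BraidedCategory Z]

omit [MonoidalPreadditive Z] [Linear k Z] [MonoidalLinear k Z] [BraidedCategory Z] in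
/-- The coevaluation of a nonzero object is a monomorphism. -/
theorem mono_coev (h1 : Simple (𝟙_ Z)) [MonoidalPreadditive Z] {X : Z} (hX : 𝟙 X ≠ 0) :
    Mono (η_ X (Xᘁ)) := by
  apply mono_of_nonzero_from_simple
  intro h
  apply hX
  have h1 := ExactPairing.evaluation_coevaluation X (Xᘁ)
  rw [h, MonoidalPreadditive.zero_whiskerRight, zero_comp] at h1
  have h2 : (λ_ X).hom ≫ (ρ_ X).inv = 0 := h1.symm
  calc 𝟙 X = (λ_ X).inv ≫ ((λ_ X).hom ≫ (ρ_ X).inv) ≫ (ρ_ X).hom := by simp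
    _ = 0 := by rw [h2]; simp

/-- Theorem J from a family `κ`: natural, compatible with tensoring by objects of `D^`, with
image in `D^` on `E^`, and nonzero on some object of `D`. -/
theorem joinProj_of_family (hZ : IsFinite k Z) (D : ObjectProperty Z) [hD : TensorSub D]
    {M X : Z} (κ : ∀ Y : Z, M ⊗ Y ⟶ Y)
    (nat : ∀ {Y Y' : Z} (f : Y ⟶ Y'), (M ◁ f) ≫ κ Y' = κ Y ≫ f)
    (hL3 : ∀ Y W, centralizer D W → κ (Y ⊗ W) = (α_ M Y W).inv ≫ (κ Y ▷ W))
    (him : ∀ Y, centralizer (D ⊓ centralizer D) Y → centralizer D (Abelian.image (κ Y)))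
    (hX : D X) (hne : κ X ≠ 0) : JoinProj D := by
  have h1 : Simple (𝟙_ Z) := hZ.unit
  have hcD : TensorSub (centralizer D) := tensorSub_centralizer D
  have hE : TensorSub (D ⊓ centralizer D) := tensorSub_inf _ _
  have hcE : TensorSub (centralizer (D ⊓ centralizer D)) := tensorSub_centralizer _
  have hDA : ∀ {Y : Z}, D Y → centralizer (D ⊓ centralizer D) Y :=
    fun hY T hT => double_symm (hT.2 _ hY)
  have hDA' : ∀ {Y : Z}, centralizer D Y → centralizer (D ⊓ centralizer D) Y :=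
    fun hY T hT => hY T hT.1
  rintro P P' ⟨hP, hPl⟩ ⟨hP', hPl'⟩
  refine ⟨hcE.tensor (hDA hP) (hDA' hP'), ?_⟩
  intro Y Y'' p hp hY hY'' f
  -- the image of `κ X`
  let I : Z := Abelian.image (κ X)
  let incl : I ⟶ X := Abelian.image.ι (κ X)
  let fac : M ⊗ X ⟶ I := Abelian.factorThruImage (κ X)
  have hfac : fac ≫ incl = κ X := Abelian.image.fac _
  have hepf : Epi fac := inferInstanceAs (Epi (Abelian.factorThruImage (κ X)))
  have hmoi : Mono incl := inferInstanceAs (Mono (Abelian.image.ι (κ X)))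
  have hDI : D I := hD.sub incl hX
  have hcI : centralizer D I := him X (hDA hX)
  have hI0 : 𝟙 I ≠ 0 := by
    intro h
    apply hne
    rw [← hfac, ← Category.id_comp incl, h, zero_comp, comp_zero]
  have hη : Mono (η_ I (Iᘁ)) := mono_coev h1 hI0
  let R : Z := X ⊗ Iᘁ
  have hDR : D R := hD.tensor hX (hD.rdual hDI)
  let j : 𝟙_ Z ⟶ R := η_ I (Iᘁ) ≫ (incl ▷ Iᘁ)
  have hj : Mono j := mono_comp _ _
  let q : M ⊗ R ⟶ I ⊗ Iᘁ := (α_ M X (Iᘁ)).inv ≫ (fac ▷ Iᘁ)
  have hq : Epi q := epi_comp _ _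
  have hκR : κ R = q ≫ (incl ▷ Iᘁ) := by
    rw [hL3 X (Iᘁ) (hcD.rdual hcI), ← hfac, comp_whiskerRight, Category.assoc]
  let O : Z := pullback (η_ I (Iᘁ)) q
  let π : O ⟶ 𝟙_ Z := pullback.fst _ _
  let l : O ⟶ M ⊗ R := pullback.snd _ _
  have hπ : Epi π := inferInstanceAs (Epi (pullback.fst (η_ I (Iᘁ)) q))
  have hπl : π ≫ j = l ≫ κ R := by
    rw [hκR, ← Category.assoc, ← Category.assoc]
    exact congrArg (fun t => t ≫ (incl ▷ Iᘁ)) (pullback.condition (f := η_ I (Iᘁ)) (g := q))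
  -- the injective object
  let Q : Z := ᘁP
  have hDQ : D Q := hD.ldual hP
  let PD : D.FullSubcategory := ⟨P, hP⟩
  let QD : D.FullSubcategory := ⟨Q, hDQ⟩
  have hPD : Projective PD := projective_of_projIn D PD ⟨hP, hPl⟩
  have hQD : Injective QD := injective_ldual (P := PD)
  let RD : D.FullSubcategory := ⟨R, hDR⟩
  let jD : 𝟙_ D.FullSubcategory ⟶ RD := ObjectProperty.homMk j
  have hjQ : Mono (jD ▷ QD) := by
    apply sub_mono_of D
    exact (inferInstance : Mono (j ▷ Q))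
  let rD : RD ⊗ QD ⟶ QD := Injective.factorThru (λ_ QD).hom (jD ▷ QD)
  have hrD : (jD ▷ QD) ≫ rD = (λ_ QD).hom := Injective.comp_factorThru _ _
  let r : R ⊗ Q ⟶ Q := rD.hom
  have hr : (j ▷ Q) ≫ r = (λ_ Q).hom := congrArg (fun t => t.hom) hrD
  -- the mate of `f`
  let f' : P' ⟶ Q ⊗ Y'' := tensorLeftHomEquiv P' Q P Y'' f
  let h : R ⊗ P' ⟶ Q ⊗ Y'' := (R ◁ f') ≫ (α_ R Q Y'').inv ≫ (r ▷ Y'')
  have hh : (j ▷ P') ≫ h = (λ_ P').hom ≫ f' := by
    simp only [h]
    rw [← whisker_exchange_assoc, associator_inv_naturality_left_assoc, ← comp_whiskerRight, hr]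
    simp
  have hmain : (π ▷ P') ≫ (λ_ P').hom ≫ f' =
      (l ▷ P') ≫ (α_ M R P').hom ≫ (M ◁ h) ≫ κ (Q ⊗ Y'') := by
    rw [← hh, ← comp_whiskerRight_assoc, hπl, comp_whiskerRight, Category.assoc, nat h,
      hL3 R P' hP', Category.assoc, Iso.hom_inv_id_assoc]
  have hep : Epi ((π ▷ P') ≫ (λ_ P').hom) := epi_comp _ _
  have hz : f' ≫ cokernel.π (κ (Q ⊗ Y'')) = 0 := by
    rw [← cancel_epi ((π ▷ P') ≫ (λ_ P').hom), comp_zero, ← Category.assoc, Category.assoc _ _ f',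
      hmain]
    simp only [Category.assoc, cokernel.condition, comp_zero]
  -- the images
  have hAQY : centralizer (D ⊓ centralizer D) (Q ⊗ Y) := hcE.tensor (hDA hDQ) hY
  have hAQY'' : centralizer (D ⊓ centralizer D) (Q ⊗ Y'') := hcE.tensor (hDA hDQ) hY''
  let g'' : P' ⟶ Abelian.image (κ (Q ⊗ Y'')) := kernel.lift _ f' hz
  have hg'' : g'' ≫ Abelian.image.ι (κ (Q ⊗ Y'')) = f' := kernel.lift_ι _ _ _
  have hzs : (Abelian.image.ι (κ (Q ⊗ Y)) ≫ (Q ◁ p)) ≫ cokernel.π (κ (Q ⊗ Y'')) = 0 := by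
    rw [← cancel_epi (Abelian.factorThruImage (κ (Q ⊗ Y))), comp_zero, ← Category.assoc,
      ← Category.assoc, Abelian.image.fac, ← nat, Category.assoc, cokernel.condition, comp_zero]
  let s : Abelian.image (κ (Q ⊗ Y)) ⟶ Abelian.image (κ (Q ⊗ Y'')) := kernel.lift _ _ hzs
  have hs : s ≫ Abelian.image.ι (κ (Q ⊗ Y'')) = Abelian.image.ι (κ (Q ⊗ Y)) ≫ (Q ◁ p) :=
    kernel.lift_ι _ _ _
  have hsu : Abelian.factorThruImage (κ (Q ⊗ Y)) ≫ s =
      (M ◁ (Q ◁ p)) ≫ Abelian.factorThruImage (κ (Q ⊗ Y'')) := by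
    rw [← cancel_mono (Abelian.image.ι (κ (Q ⊗ Y''))), Category.assoc, hs, ← Category.assoc,
      Abelian.image.fac, Category.assoc, Abelian.image.fac, nat]
  have hsepi : Epi s := by
    have : Epi (Abelian.factorThruImage (κ (Q ⊗ Y)) ≫ s) := by
      rw [hsu]
      exact epi_comp _ _
    exact epi_of_epi (Abelian.factorThruImage (κ (Q ⊗ Y))) s
  obtain ⟨g, hg⟩ := hPl' s hsepi (him _ hAQY) (him _ hAQY'') g''
  refine ⟨(tensorLeftHomEquiv P' Q P Y).symm (g ≫ Abelian.image.ι (κ (Q ⊗ Y))), ?_⟩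
  apply (tensorLeftHomEquiv P' Q P Y'').injective
  rw [tensorLeftHomEquiv_naturality, Equiv.apply_symm_apply, Category.assoc, ← hs,
    ← Category.assoc, hg, hg'']

end TJ

end Pool.Agent.MUG
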