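import Pool.Agent.MUG.TI
import Pool.Agent.MUG.TJ

/-!
# Theorem J for `D` from a loop of `D` with transparent image (helper64)
-/

open CategoryTheory MonoidalCategory Limits Abelian

universe w v u

set_option linter.unusedSectionVars false

namespace Pool.Agent.MUG

section TK

variable {k : Type*} [Field k] {Z : Type u} [Category.{v} Z] [Abelian Z] [Linear k Z]
  [MonoidalCategory Z] [MonoidalPreadditive Z] [MonoidalLinear k Z] [RigidCategory Z]
  [BraidedCategory Z]

/-- Theorem J for `D`, from a loop `ℓ` in `D`, nonzero on some object, whose images are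
transparent in `D`. -/
theorem joinProj_of_loop (hZ : IsFinite k Z) (D : ObjectProperty Z) [hD : TensorSub D]
    {M X : D.FullSubcategory} (ℓ : LoopData M) (hX : ℓ.map X ≠ 0)
    (hTR : ∀ U Y : D.FullSubcategory, (U ◁ ℓ.map Y) ≫ c2 U Y = U ◁ ℓ.map Y) : JoinProj D := by
  let ℓZ : LoopData M.obj := ⟨ℓ.V'.obj, ℓ.V.obj, ℓ.t.hom, ℓ.e.hom⟩
  have hmap : ∀ Y : D.FullSubcategory, ℓZ.map Y.obj = (ℓ.map Y).hom := fun Y => rfl
  have hV' : D ℓZ.V' := ℓ.V'.property
  have hV : D ℓZ.V := ℓ.V.property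
  -- compatibility with the double braiding for all objects commuting with the Mueger centre
  have hTR' : ∀ U, D U → ∀ Y, centralizer (D ⊓ centralizer D) Y →
      (U ◁ ℓZ.map Y) ≫ c2 U Y = U ◁ ℓZ.map Y := by
    intro U hU Y hY
    rw [← LoopData.tr_map_eq_zero_iff]
    obtain ⟨h1, h2⟩ := ℓZ.tr_prop U D hV' hV hU
    refine loop_zero hZ D (ℓZ.tr U) (hD.tensor (hD.rdual hU) (hD.tensor M.property hU)) h1 h2
      ?_ Y hY
    intro T hT
    rw [LoopData.tr_map_eq_zero_iff]
    exact congrArg (fun f => f.hom) (hTR ⟨U, hU⟩ ⟨T, hT⟩)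
  refine joinProj_of_family hZ D (fun Y => ℓZ.map Y) (fun f => ℓZ.nat f) ?_ ?_ X.property ?_
  · intro Y W hW
    exact ℓZ.map_tensor Y W (comm_symm (hW _ hV))
  · intro Y hY U hU
    have hi : Mono (Abelian.image.ι (ℓZ.map Y)) := inferInstance
    have hf : Epi (Abelian.factorThruImage (ℓZ.map Y)) := inferInstance
    have h1 := hTR' U hU Y hY
    have h2 : c2 U (Abelian.image (ℓZ.map Y)) = 𝟙 _ := by
      have hm : Mono (U ◁ Abelian.image.ι (ℓZ.map Y)) :=
        inferInstanceAs (Mono ((tensorLeft U).map (Abelian.image.ι (ℓZ.map Y))))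
      have he : Epi (U ◁ Abelian.factorThruImage (ℓZ.map Y)) :=
        inferInstanceAs (Epi ((tensorLeft U).map (Abelian.factorThruImage (ℓZ.map Y))))
      have h3 : (U ◁ Abelian.factorThruImage (ℓZ.map Y)) ≫ (U ◁ Abelian.image.ι (ℓZ.map Y)) =
          U ◁ ℓZ.map Y := by
        rw [← whiskerLeft_comp, Abelian.image.fac]
      rw [← h3, Category.assoc, c2_nat_right, cancel_epi] at h1
      rw [← cancel_mono (U ◁ Abelian.image.ι (ℓZ.map Y)), Category.id_comp]
      exact h1
    have h4 : Comm U (Abelian.image (ℓZ.map Y)) := h2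
    exact comm_symm h4
  · intro h
    apply hX
    ext
    exact h

end TK

end Pool.Agent.MUG
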