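import Pool.Agent.MUG.PI
import Pool.Agent.MUG.TK

/-!
# Theorem J (helper31, from the rows of helper27, helper64 and helper85)
-/

open CategoryTheory MonoidalCategory Limits Abelian

universe w v u

set_option linter.unusedSectionVars false

namespace Pool.Agent.MUG

section ThmJ

variable {k : Type*} [Field k] {Z : Type u} [Category.{v} Z] [Abelian Z] [Linear k Z]
  [MonoidalCategory Z] [MonoidalPreadditive Z] [MonoidalLinear k Z] [RigidCategory Z]
  [BraidedCategory Z]

/-- **Theorem J.** For every tensor subcategory `D` of a braided finite tensor category, with
`E` its Müger center and `A` any tensor subcategory between `D` and the centralizer of `E`, the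
products of a projective object of `D` and a projective object of the centralizer of `D` in `A`
are projective in `A`. -/
theorem joinProj (hZ : IsFinite k Z) (D : ObjectProperty Z) [hD : TensorSub D] : JoinProj D := by
  obtain ⟨M, X, ℓ, h1, h2⟩ := PI.exists_loop (C := D.FullSubcategory) (finite_sub hZ D)
  exact joinProj_of_loop hZ D ℓ h1 h2

end ThmJ

end Pool.Agent.MUG
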