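import Pool.Agent.MUG.SS5
import Pool.Agent.MUG.P6
import Pool.Agent.MUG.TNh
import Pool.Agent.MUG.ThmJ
import Pool.Agent.MUG.DimDef

/-!
# Base cases from Theorem J and the averaging idempotent; Theorems N and P (helper85)
-/

open CategoryTheory MonoidalCategory Limits Abelian

universe w w' v u

set_option linter.unusedSectionVars false

attribute [local instance] CategoryTheory.Abelian.hasFiniteBiproducts

namespace Pool.Agent.MUG

open Pool.Agent.MUE79

section JB

variable {k : Type*} [Field k] {Z : Type u} [Category.{v} Z] [Abelian Z] [Linear k Z]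
  [MonoidalCategory Z] [MonoidalPreadditive Z] [MonoidalLinear k Z] [RigidCategory Z]
  [BraidedCategory Z]

theorem comm_centre (D : ObjectProperty Z) (A B : Z) (hA : (D ⊓ centralizer D) A)
    (hB : (D ⊓ centralizer D) B) : Comm A B :=
  hA.2 B hB.1

/-- Base case, any characteristic: `D ⊓ D^` semisimple of non-zero dimension. -/
theorem baseJ_dim [IsAlgClosed k] [HasExt.{w} Z] (hZ : IsFinite k Z) (hF : FGC.{w} k Z)
    (D : ObjectProperty Z) [hD : TensorSub D] (hss : SplitsEpis (D ⊓ centralizer D))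
    (hdim : CharZero k ∨ DimNeZero k (D ⊓ centralizer D)) : FG k D hD := by
  have hD' := tensorSub_centralizer D
  have hE : TensorSub (D ⊓ centralizer D) := tensorSub_inf _ _
  have hunit := hZ.unit
  refine fg_base' hZ hF D (centralizer D) (fun h1 h2 h3 h4 p hp => hss ⟨h1, h2⟩ ⟨h3, h4⟩ p hp) ?_
  intro P P' hP hP'
  have h := joinProj hZ D P P' hP hP'
  rcases hdim with h0 | ⟨n, X, d, hX1, hX2, hX3, hd, hne⟩
  · exact projective_of_projIn_centralizer_ss hZ (D ⊓ centralizer D)
      (fun hA hB p hp => hss hA hB p hp) (comm_centre D) h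
  · have hX : SFam (D ⊓ centralizer D) (Fin n) X :=
      ⟨fun j => (hX1 j).1, fun j => (hX1 j).2, hX2, hX3⟩
    have hd' : IsDim X d := by
      intro j
      rw [tr_eq, whiskerLeft_id, Category.id_comp]
      unfold kap
      rw [Category.assoc]
      exact hd j
    exact projective_of_dim hZ.hom_finite hZ.artinian (fun hA hB p hp => hss hA hB p hp)
      (id_nonzero (𝟙_ Z)) (comm_centre D) hX hd' hne h

/-- THEOREM N. -/
theorem theoremN_dim [IsAlgClosed k] [HasExt.{w} Z] (hZ : IsFinite k Z) (hF : FGC.{w} k Z)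
    (D : ObjectProperty Z) [hD : TensorSub D] (hss : SplitsEpis (D ⊓ centralizer D))
    (hdim : CharZero k ∨ DimNeZero k (D ⊓ centralizer D))
    [hE : HasExt.{w'} D.FullSubcategory] : FGC.{w'} k D.FullSubcategory :=
  fgc_of_fg hZ D (baseJ_dim hZ hF D hss hdim)

/-- THEOREM P. -/
theorem theoremP_ext [IsAlgClosed k] [CharZero k] [HasExt.{w} Z] (hZ : IsFinite k Z)
    (hnd : ∀ X : Z, (∀ Y, Comm X Y) → ∃ n : ℕ, Nonempty (X ≅ ⨁ (fun _ : Fin n => 𝟙_ Z)))
    (hF : FGC.{w} k Z) (D : ObjectProperty Z) [hD : TensorSub D]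
    (hgood : ExtInvertible (D ⊓ centralizer D))
    [hE : HasExt.{w'} D.FullSubcategory] : FGC.{w'} k D.FullSubcategory :=
  fgc_of_fg hZ D (theoremP_of_base hZ hnd hF D hD hgood
    (fun D' _ _ _ hss => baseJ_dim hZ hF D' (fun hA hB p hp => hss hA hB p hp)
      (Or.inl inferInstance)))

end JB

end Pool.Agent.MUG
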