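import Mathlib

/-!
# NOETH: a module which is finitely generated over a finite set of operators that commute up to
sign is Noetherian (MP_388894, row NOETH, helper79)
-/

set_option autoImplicit false

namespace Pool.Agent.MUG

open MvPolynomial
open scoped IsMulCommutative

section core

variable {k V : Type*} [Field k] [AddCommGroup V] [Module k V] {r : ℕ}

theorem noeth_core (x : Fin r → Module.End k V)
    (hx : ∀ i j, x i * x j = x j * x i ∨ x i * x j = -(x j * x i)) {s : ℕ} (y : Fin s → V)
    (hy : ∀ W : Submodule k V, (∀ i, ∀ v ∈ W, x i v ∈ W) → (∀ j, y j ∈ W) → W = ⊤)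
    (N : Submodule k V) (hN : ∀ i, ∀ v ∈ N, x i v ∈ N) :
    ∃ (t : ℕ) (n : Fin t → V), (∀ j, n j ∈ N) ∧
      ∀ W : Submodule k V, (∀ i, ∀ v ∈ W, x i v ∈ W) → (∀ j, n j ∈ W) → N ≤ W := by
  classical
  let z : Fin r → Module.End k V := fun i => x i * x i
  have hzx : ∀ i j, z i * x j = x j * z i := by
    intro i j
    show x i * x i * x j = x j * (x i * x i)
    rcases hx i j with h | h
    · rw [mul_assoc, h, ← mul_assoc, h, mul_assoc]
    · rw [mul_assoc, h, mul_neg, ← mul_assoc, h, neg_mul, neg_neg, mul_assoc]
  have hzz : ∀ i j, z i * z j = z j * z i := by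
    intro i j
    show z i * (x j * x j) = x j * x j * z i
    rw [← mul_assoc, hzx, mul_assoc, hzx, mul_assoc]
  have hcomm : IsMulCommutative (Algebra.adjoin k (Set.range z)) :=
    Algebra.isMulCommutative_adjoin k (by
      rintro _ ⟨i, rfl⟩ _ ⟨j, rfl⟩
      exact hzz i j)
  let S := MvPolynomial (Fin r) k
  let ψ : S →ₐ[k] Algebra.adjoin k (Set.range z) :=
    MvPolynomial.aeval fun i => ⟨z i, Algebra.subset_adjoin ⟨i, rfl⟩⟩
  let φ : S →+* Module.End k V := ((Algebra.adjoin k (Set.range z)).val.comp ψ).toRingHom
  have hφX : ∀ i, φ (X i) = z i := by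
    intro i
    show ((ψ (X i) : Algebra.adjoin k (Set.range z)) : Module.End k V) = z i
    rw [show ψ (X i) = ⟨z i, Algebra.subset_adjoin ⟨i, rfl⟩⟩ from aeval_X _ i]
  have hφC : ∀ (c : k) (v : V), φ (C c) v = c • v := by
    intro c v
    have h : φ (C c) = algebraMap k (Module.End k V) c :=
      ((Algebra.adjoin k (Set.range z)).val.comp ψ).commutes c
    rw [h]
    rfl
  letI : Module S V := Module.compHom V φ
  have hsmul : ∀ (p : S) (v : V), p • v = φ p v := fun p v => rfl
  -- the operators commute with the action of `S`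
  have hφx : ∀ (p : S) (i : Fin r), φ p * x i = x i * φ p := by
    intro p i
    induction p using MvPolynomial.induction_on with
    | C c =>
      ext v
      rw [Module.End.mul_apply, Module.End.mul_apply, hφC, hφC, map_smul]
    | add p q hp hq => rw [map_add, add_mul, mul_add, hp, hq]
    | mul_X p j hp => rw [map_mul, hφX, mul_assoc, hzx, ← mul_assoc, hp, mul_assoc]
  let L : Fin r → V →ₗ[S] V := fun i =>
    { toFun := x i
      map_add' := map_add (x i)
      map_smul' := fun p v => by
        rw [hsmul, hsmul, RingHom.id_apply, ← Module.End.mul_apply, ← hφx, Module.End.mul_apply] }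
  have hL : ∀ i v, L i v = x i v := fun i v => rfl
  -- stable subspaces are `S`-submodules
  have hstab : ∀ (W : Submodule k V), (∀ i, ∀ v ∈ W, x i v ∈ W) → ∀ (p : S) (v : V), v ∈ W →
      p • v ∈ W := by
    intro W hW p
    induction p using MvPolynomial.induction_on with
    | C c =>
      intro v hv
      rw [hsmul, hφC]
      exact W.smul_mem c hv
    | add p q hp hq =>
      intro v hv
      rw [add_smul]
      exact W.add_mem (hp v hv) (hq v hv)
    | mul_X p j hp =>
      intro v hv
      rw [mul_smul]
      refine hp _ ?_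
      rw [hsmul, hφX]
      exact hW j _ (hW j _ hv)
  have hksub : ∀ (W : Submodule S V) (c : k) (v : V), v ∈ W → c • v ∈ W := by
    intro W c v hv
    rw [← hφC, ← hsmul]
    exact W.smul_mem _ hv
  -- a finitely generated stable submodule
  have hind : ∀ m ≤ r, ∃ W : Submodule S V, W.FG ∧ (∀ j, y j ∈ W) ∧
      ∀ l : Fin r, l.val < m → ∀ v ∈ W, x l v ∈ W := by
    intro m
    induction m with
    | zero =>
      intro _
      refine ⟨Submodule.span S (Set.range y), Submodule.fg_span (Set.finite_range y),
        fun j => Submodule.subset_span ⟨j, rfl⟩, fun l hl => absurd hl (Nat.not_lt_zero _)⟩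
    | succ m ih =>
      intro hm
      obtain ⟨W, hW1, hW2, hW3⟩ := ih (by omega)
      let i₀ : Fin r := ⟨m, by omega⟩
      refine ⟨W ⊔ W.map (L i₀), hW1.sup (hW1.map _), fun j => Submodule.mem_sup_left (hW2 j), ?_⟩
      intro l hl v hv
      obtain ⟨w, hw, u, hu, rfl⟩ := Submodule.mem_sup.1 hv
      obtain ⟨w', hw', rfl⟩ := Submodule.mem_map.1 hu
      rw [map_add, hL]
      rcases Nat.lt_succ_iff_lt_or_eq.1 hl with h | h
      · refine Submodule.add_mem _ (Submodule.mem_sup_left (hW3 l h w hw))
          (Submodule.mem_sup_right ?_)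
        rw [← Module.End.mul_apply]
        have h1 : x i₀ (x l w') ∈ W.map (L i₀) :=
          Submodule.mem_map.2 ⟨x l w', hW3 l h w' hw', rfl⟩
        rcases hx l i₀ with h2 | h2
        · rw [h2]
          exact h1
        · rw [h2, LinearMap.neg_apply]
          exact Submodule.neg_mem _ h1
      · have hl' : l = i₀ := Fin.ext h
        rw [hl']
        refine Submodule.add_mem _ (Submodule.mem_sup_right
          (Submodule.mem_map.2 ⟨w, hw, rfl⟩)) (Submodule.mem_sup_left ?_)
        have h3 : x i₀ (x i₀ w') = (X i₀ : S) • w' := by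
          rw [hsmul, hφX]
          rfl
        rw [h3]
        exact W.smul_mem _ hw'
  obtain ⟨W, hW1, hW2, hW3⟩ := hind r le_rfl
  have htop : W = ⊤ := by
    let W' : Submodule k V :=
      { carrier := W
        add_mem' := fun ha hb => W.add_mem ha hb
        zero_mem' := W.zero_mem
        smul_mem' := fun c v hv => hksub W c v hv }
    have h := hy W' (fun i v hv => hW3 i i.2 v hv) hW2
    rw [eq_top_iff]
    intro v _
    have : v ∈ W' := by
      rw [h]
      exact Submodule.mem_top
    exact this
  have hfin : Module.Finite S V := ⟨by rw [← htop]; exact hW1⟩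
  have hnoe : IsNoetherian S V := isNoetherian_of_isNoetherianRing_of_finite S V
  let N' : Submodule S V :=
    { carrier := N
      add_mem' := fun ha hb => N.add_mem ha hb
      zero_mem' := N.zero_mem
      smul_mem' := fun p v hv => hstab N hN p v hv }
  obtain ⟨t, n, hn⟩ := Submodule.fg_iff_exists_fin_generating_family.1 (hnoe.noetherian N')
  refine ⟨t, n, fun j => ?_, ?_⟩
  · have : n j ∈ N' := by
      rw [← hn]
      exact Submodule.subset_span ⟨j, rfl⟩
    exact this
  · intro U hU hUn
    let U' : Submodule S V :=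
      { carrier := U
        add_mem' := fun ha hb => U.add_mem ha hb
        zero_mem' := U.zero_mem
        smul_mem' := fun p v hv => hstab U hU p v hv }
    have h1 : N' ≤ U' := by
      rw [← hn, Submodule.span_le]
      rintro _ ⟨j, rfl⟩
      exact hUn j
    exact h1

end core

end Pool.Agent.MUG
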