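import Pool.Agent.MUG.N0

/-!
# Graded modules over a set of homogeneous operators (MP_388894, row NOETH, helper79)
-/

set_option autoImplicit false

namespace Pool.Agent.MUG

open DirectSum

section graded

variable {k : Type*} [Field k] {Ω : Type*} (deg : Ω → ℕ) {M : ℕ → Type*}
  [∀ n, AddCommGroup (M n)] [∀ n, Module k (M n)]
  (op : ∀ (ω : Ω) (n : ℕ), M n →ₗ[k] M (deg ω + n))

/-- a graded family of subspaces is stable under the operators -/
def GStable (A : ∀ n, Submodule k (M n)) : Prop :=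
  ∀ (ω : Ω) (n : ℕ) (m : M n), m ∈ A n → op ω n m ∈ A (deg ω + n)

/-- the graded family `N` is generated by finitely many homogeneous elements -/
def GFG (N : ∀ n, Submodule k (M n)) : Prop :=
  ∃ (r : ℕ) (d : Fin r → ℕ) (y : ∀ i, M (d i)), (∀ i, y i ∈ N (d i)) ∧
    ∀ A : ∀ n, Submodule k (M n), GStable deg op A → (∀ i, y i ∈ A (d i)) → ∀ n, N n ≤ A n

/-- every stable graded family of subspaces is generated by finitely many homogeneous elements -/
def GNoeth : Prop := ∀ N : ∀ n, Submodule k (M n), GStable deg op N → GFG deg op N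

/-- finite generation with an arbitrary finite index type -/
theorem gfg_of_fintype {ι : Type*} [Finite ι] (N : ∀ n, Submodule k (M n)) (d : ι → ℕ)
    (y : ∀ i, M (d i)) (hy : ∀ i, y i ∈ N (d i))
    (h : ∀ A : ∀ n, Submodule k (M n), GStable deg op A → (∀ i, y i ∈ A (d i)) → ∀ n, N n ≤ A n) :
    GFG deg op N := by
  obtain ⟨r, ⟨e⟩⟩ := Finite.exists_equiv_fin ι
  refine ⟨r, fun i => d (e.symm i), fun i => y (e.symm i), fun i => hy _, ?_⟩
  intro A hA hyA
  refine h A hA fun i => ?_
  have key : ∀ j, j = i → y j ∈ A (d j) → y i ∈ A (d i) := by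
    rintro j rfl h
    exact h
  exact key _ (e.symm_apply_apply i) (hyA (e i))

end graded

section ses

variable {k : Type*} [Field k] {Ω : Type*} (deg : Ω → ℕ) {M M' M'' : ℕ → Type*}
  [∀ n, AddCommGroup (M n)] [∀ n, Module k (M n)]
  [∀ n, AddCommGroup (M' n)] [∀ n, Module k (M' n)]
  [∀ n, AddCommGroup (M'' n)] [∀ n, Module k (M'' n)]
  (op : ∀ (ω : Ω) (n : ℕ), M n →ₗ[k] M (deg ω + n))
  (op' : ∀ (ω : Ω) (n : ℕ), M' n →ₗ[k] M' (deg ω + n))
  (op'' : ∀ (ω : Ω) (n : ℕ), M'' n →ₗ[k] M'' (deg ω + n))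

/-- an extension of Noetherian graded modules is Noetherian -/
theorem gnoeth_ext (f : ∀ n, M' n →ₗ[k] M n) (g : ∀ n, M n →ₗ[k] M'' n)
    (hf : ∀ ω n m, f (deg ω + n) (op' ω n m) = op ω n (f n m))
    (hg : ∀ ω n m, g (deg ω + n) (op ω n m) = op'' ω n (g n m))
    (hfg : ∀ n m, g n m = 0 → ∃ m', f n m' = m)
    (h' : GNoeth deg op') (h'' : GNoeth deg op'') : GNoeth deg op := by
  intro N hN
  obtain ⟨r', d', y', hy', H'⟩ := h' (fun n => (N n).comap (f n)) (by
    intro ω n m hm
    rw [Submodule.mem_comap] at hm ⊢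
    rw [hf]
    exact hN ω n _ hm)
  obtain ⟨r'', d'', y'', hy'', H''⟩ := h'' (fun n => (N n).map (g n)) (by
    intro ω n m hm
    obtain ⟨x, hx, rfl⟩ := Submodule.mem_map.1 hm
    exact Submodule.mem_map.2 ⟨op ω n x, hN ω n x hx, hg ω n x⟩)
  have hc : ∀ i, ∃ x ∈ N (d'' i), g (d'' i) x = y'' i := fun i => by
    obtain ⟨x, hx, h⟩ := Submodule.mem_map.1 (hy'' i)
    exact ⟨x, hx, h⟩
  choose x hx hxy using hc
  refine gfg_of_fintype deg op N (ι := Fin r' ⊕ Fin r'') (Sum.elim d' d'')
    (fun i => match i with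
      | Sum.inl i => f (d' i) (y' i)
      | Sum.inr i => x i) ?_ ?_
  · rintro (i | i)
    · exact hy' i
    · exact hx i
  · intro A hA hyA n m hm
    -- the stable family `A ⊓ N`
    have hB : GStable deg op (fun n => A n ⊓ N n) := fun ω n m hm =>
      ⟨hA ω n m hm.1, hN ω n m hm.2⟩
    have h1 : ∀ n, (N n).map (g n) ≤ ((A n ⊓ N n).map (g n)) := by
      refine H'' (fun n => (A n ⊓ N n).map (g n)) ?_ ?_
      · intro ω n m hm
        obtain ⟨z, hz, rfl⟩ := Submodule.mem_map.1 hm
        exact Submodule.mem_map.2 ⟨op ω n z, hB ω n z hz, hg ω n z⟩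
      · intro i
        exact Submodule.mem_map.2 ⟨x i, ⟨hyA (Sum.inr i), hx i⟩, hxy i⟩
    have h2 : ∀ n, (N n).comap (f n) ≤ (A n).comap (f n) := by
      refine H' (fun n => (A n).comap (f n)) ?_ ?_
      · intro ω n m hm
        rw [Submodule.mem_comap] at hm ⊢
        rw [hf]
        exact hA ω n _ hm
      · intro i
        exact hyA (Sum.inl i)
    obtain ⟨a, ha, hga⟩ := Submodule.mem_map.1 (h1 n (Submodule.mem_map.2 ⟨m, hm, rfl⟩))
    obtain ⟨m', hm'⟩ := hfg n (m - a) (by rw [map_sub, hga, sub_self])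
    have h3 : m' ∈ (N n).comap (f n) := by
      rw [Submodule.mem_comap, hm']
      exact (N n).sub_mem hm ha.2
    have h4 := h2 n h3
    rw [Submodule.mem_comap, hm'] at h4
    have h5 := (A n).add_mem h4 ha.1
    rwa [sub_add_cancel] at h5

/-- a graded module that embeds in a Noetherian graded module is Noetherian -/
theorem gnoeth_of_injective (g : ∀ n, M n →ₗ[k] M'' n)
    (hg : ∀ ω n m, g (deg ω + n) (op ω n m) = op'' ω n (g n m))
    (hinj : ∀ n m, g n m = 0 → m = 0) (h'' : GNoeth deg op'') : GNoeth deg op := by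
  refine gnoeth_ext (M' := fun _ => PUnit.{1}) deg op (fun _ _ => 0) op'' (fun _ => 0) g
    (fun ω n m => by simp) hg (fun n m h => ⟨0, by simp [hinj n m h]⟩) ?_ h''
  intro N _
  exact ⟨0, Fin.elim0, fun i => i.elim0, fun i => i.elim0, fun A _ _ n m _ => by
    rw [Subsingleton.elim m 0]
    exact (A n).zero_mem⟩

/-- a quotient of a Noetherian graded module is Noetherian -/
theorem gnoeth_of_surjective (f : ∀ n, M' n →ₗ[k] M n)
    (hf : ∀ ω n m, f (deg ω + n) (op' ω n m) = op ω n (f n m))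
    (hsurj : ∀ n m, ∃ m', f n m' = m) (h' : GNoeth deg op') : GNoeth deg op := by
  refine gnoeth_ext (M'' := fun _ => PUnit.{1}) deg op op' (fun _ _ => 0) f (fun _ => 0)
    hf (fun ω n m => by simp) (fun n m _ => hsurj n m) h' ?_
  intro N _
  exact ⟨0, Fin.elim0, fun i => i.elim0, fun i => i.elim0, fun A _ _ n m _ => by
    rw [Subsingleton.elim m 0]
    exact (A n).zero_mem⟩

end ses

section noeth

variable {k : Type*} [Field k] {r : ℕ} (deg : Fin r → ℕ) {M : ℕ → Type*}
  [∀ n, AddCommGroup (M n)] [∀ n, Module k (M n)]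
  (op : ∀ (i : Fin r) (n : ℕ), M n →ₗ[k] M (deg i + n))

/-- **NOETH**, graded form -/
theorem gnoeth_of_comm
    (hs : ∀ i j, (∀ n (m : M n), lof k ℕ M _ (op i _ (op j n m)) =
        lof k ℕ M _ (op j _ (op i n m))) ∨
      (∀ n (m : M n), lof k ℕ M _ (op i _ (op j n m)) = - lof k ℕ M _ (op j _ (op i n m))))
    (hfg : GFG deg op (fun _ => ⊤)) : GNoeth deg op := by
  classical
  let x : Fin r → Module.End k (⨁ n, M n) := fun i =>
    toModule k ℕ _ (fun n => (lof k ℕ M (deg i + n)).comp (op i n))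
  have hx : ∀ i n (m : M n), x i (lof k ℕ M n m) = lof k ℕ M _ (op i n m) := fun i n m =>
    toModule_lof k n m
  have hcomm : ∀ i j, x i * x j = x j * x i ∨ x i * x j = -(x j * x i) := by
    intro i j
    rcases hs i j with h | h
    · left
      refine DirectSum.linearMap_ext k fun n => ?_
      ext m
      simp only [LinearMap.comp_apply, Module.End.mul_apply]
      rw [hx, hx, hx, hx, h]
    · right
      refine DirectSum.linearMap_ext k fun n => ?_
      ext m
      simp only [LinearMap.comp_apply, Module.End.mul_apply, LinearMap.neg_apply]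
      rw [hx, hx, hx, hx, h]
  -- the total subspace of a graded family
  let T : (∀ n, Submodule k (M n)) → Submodule k (⨁ n, M n) := fun A =>
    { carrier := {v | ∀ n, v n ∈ A n}
      add_mem' := fun ha hb n => (A n).add_mem (ha n) (hb n)
      zero_mem' := fun n => (A n).zero_mem
      smul_mem' := fun c v hv n => (A n).smul_mem c (hv n) }
  have hTlof : ∀ (A : ∀ n, Submodule k (M n)) n (m : M n), lof k ℕ M n m ∈ T A ↔ m ∈ A n := by
    intro A n m
    constructor
    · intro h
      have := h n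
      rwa [lof_apply] at this
    · intro h j
      by_cases hj : n = j
      · subst hj
        rw [lof_apply]
        exact h
      · have : (lof k ℕ M n m) j = 0 := by
          rw [lof_eq_of]
          exact of_eq_of_ne n j m (Ne.symm hj)
        rw [this]
        exact (A j).zero_mem
  have hTstab : ∀ A : ∀ n, Submodule k (M n), GStable deg op A → ∀ i, ∀ v ∈ T A, x i v ∈ T A := by
    intro A hA i v hv
    rw [← DirectSum.sum_support_of v, map_sum]
    refine Submodule.sum_mem _ fun n _ => ?_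
    rw [← lof_eq_of k, hx, hTlof]
    exact hA i n _ (hv n)
  have hWst : ∀ W : Submodule k (⨁ n, M n), (∀ i, ∀ v ∈ W, x i v ∈ W) →
      GStable deg op (fun n => W.comap (lof k ℕ M n)) := by
    intro W hW i n m hm
    rw [Submodule.mem_comap] at hm ⊢
    rw [← hx]
    exact hW i _ hm
  intro N hN
  obtain ⟨s, d, y, _, hgen⟩ := hfg
  obtain ⟨t, w, hw, H⟩ := noeth_core x hcomm (fun j => lof k ℕ M (d j) (y j)) (by
    intro W hW hWy
    have h1 := hgen _ (hWst W hW) hWy
    rw [eq_top_iff]
    intro v _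
    rw [← DirectSum.sum_support_of v]
    refine Submodule.sum_mem _ fun n _ => ?_
    rw [← lof_eq_of k]
    exact h1 n Submodule.mem_top) (T N) (hTstab N hN)
  refine gfg_of_fintype deg op N (ι := Σ j : Fin t, {n // n ∈ DFinsupp.support (w j)})
    (fun p => p.2.1) (fun p => w p.1 p.2.1) (fun p => hw p.1 p.2.1) ?_
  intro A hA hyA n m hm
  rw [← hTlof] at hm ⊢
  refine H (T A) (hTstab A hA) (fun j => ?_) hm
  intro n'
  by_cases h : n' ∈ DFinsupp.support (w j)
  · exact hyA ⟨j, n', h⟩
  · rw [DFinsupp.notMem_support_iff] at h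
    rw [h]
    exact (A n').zero_mem

end noeth

end Pool.Agent.MUG
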