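import Pool.Agent.MUG.Leib
import Pool.Agent.MUE79.Rigid
import Pool.Agent.MUG.N1

/-!
# The action of `Ext(1,1)`; `Ext(X,Y)` is a Noetherian graded module if FGC holds
(MP_388894, row NOETH, helper79)
-/

open CategoryTheory MonoidalCategory Limits Abelian

universe w w' v v' u u'

set_option linter.unusedSectionVars false

namespace Pool.Agent.MUG

open Pool.Agent.MUE79 (ext_ind map_nat map_id map_comp comp_zsmul zsmul_comp lw rw' inter lw_unit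
  rw_unit)

section conj

variable {A : Type u} [Category.{v} A] [Abelian A] [HasExt.{w} A]

/-- conjugation of a class by an isomorphism -/
noncomputable def cj {X X' : A} (e : X ≅ X') {n : ℕ} (x : Ext.{w} X X n) : Ext.{w} X' X' n :=
  (Ext.mk₀ e.inv).comp (x.comp (Ext.mk₀ e.hom) (add_zero n)) (zero_add n)

theorem cj_comp {X X' : A} (e : X ≅ X') {a b c : ℕ} (x : Ext.{w} X X a) (y : Ext.{w} X X b)
    (h : a + b = c) : cj e (x.comp y h) = (cj e x).comp (cj e y) h := by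
  unfold cj
  rw [Ext.comp_assoc (a₁₂ := a) (a₂₃ := c) _ _ _ (zero_add a) h (by omega),
    Ext.comp_assoc_of_second_deg_zero, Ext.mk₀_comp_mk₀_assoc, e.hom_inv_id, Ext.mk₀_id_comp,
    Ext.comp_assoc_of_third_deg_zero]

theorem cj_one {X X' : A} (e : X ≅ X') : cj e (Ext.mk₀ (𝟙 X) : Ext.{w} X X 0) = Ext.mk₀ (𝟙 X') := by
  unfold cj
  rw [Ext.mk₀_comp_mk₀, Ext.mk₀_comp_mk₀, Category.id_comp, e.inv_hom_id]

theorem cj_add {X X' : A} (e : X ≅ X') {n : ℕ} (x y : Ext.{w} X X n) :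
    cj e (x + y) = cj e x + cj e y := by
  unfold cj
  rw [Ext.add_comp, Ext.comp_add]

theorem cj_zero {X X' : A} (e : X ≅ X') {n : ℕ} : cj e (0 : Ext.{w} X X n) = 0 := by
  unfold cj
  rw [Ext.zero_comp, Ext.comp_zero]

theorem cj_smul {k : Type*} [Field k] [Linear k A] {X X' : A} (e : X ≅ X') {n : ℕ} (c : k)
    (x : Ext.{w} X X n) : cj e (c • x) = c • cj e x := by
  unfold cj
  rw [Ext.smul_comp, Ext.comp_smul]

theorem cj_zsmul {X X' : A} (e : X ≅ X') {n : ℕ} (c : ℤ)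
    (x : Ext.{w} X X n) : cj e (c • x) = c • cj e x := by
  unfold cj
  rw [zsmul_comp, comp_zsmul]

end conj

section act

variable {k : Type*} [Field k] {C : Type u} [Category.{v} C] [Abelian C] [Linear k C]
  [MonoidalCategory C] [MonoidalPreadditive C] [MonoidalLinear k C] [RigidCategory C]
  [HasExt.{w} C]

theorem act_eq (X : C) {n : ℕ} (ζ : Ext.{w} (𝟙_ C) (𝟙_ C) n) :
    act X ζ = cj (λ_ X) (ζ.mapExactFunctor (tensorRight X)) := rfl

theorem act_comp (X : C) {a b c : ℕ} (ζ : Ext.{w} (𝟙_ C) (𝟙_ C) a)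
    (ξ : Ext.{w} (𝟙_ C) (𝟙_ C) b) (h : a + b = c) :
    act X (ζ.comp ξ h) = (act X ζ).comp (act X ξ) h := by
  rw [act_eq, act_eq, act_eq, Ext.mapExactFunctor_comp, cj_comp]

theorem act_one (X : C) : act X (Ext.mk₀ (𝟙 (𝟙_ C)) : Ext.{w} _ _ 0) = Ext.mk₀ (𝟙 X) := by
  rw [act_eq, Ext.mapExactFunctor_mk₀, CategoryTheory.Functor.map_id]
  exact cj_one (λ_ X)

theorem act_add (X : C) {n : ℕ} (ζ ξ : Ext.{w} (𝟙_ C) (𝟙_ C) n) :
    act X (ζ + ξ) = act X ζ + act X ξ := by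
  rw [act_eq, act_eq, act_eq, Ext.mapExactFunctor_add, cj_add]

theorem act_zero (X : C) {n : ℕ} : act X (0 : Ext.{w} (𝟙_ C) (𝟙_ C) n) = 0 := by
  rw [act_eq, Ext.mapExactFunctor_zero, cj_zero]

theorem act_smul (X : C) {n : ℕ} (c : k) (ζ : Ext.{w} (𝟙_ C) (𝟙_ C) n) :
    act X (c • ζ) = c • act X ζ := by
  rw [act_eq, act_eq, Functor.mapExactFunctor_smul, cj_smul]

variable [EnoughProjectives C]

/-- the action of `Ext(1,1)` is central up to sign -/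
theorem act_central {M M' : C} {p q n : ℕ} (β : Ext.{w} M M' p) (ζ : Ext.{w} (𝟙_ C) (𝟙_ C) q)
    (h : q + p = n) (h' : p + q = n) :
    (act M ζ).comp β h = ((-1 : ℤ) ^ (p * q)) • β.comp (act M' ζ) h' := by
  have key := inter (X := 𝟙_ C) (A := 𝟙_ C) ζ β h' h
  have hl := lw_unit (C := C) β
  -- `(-1)^(pq)` on both sides
  have h2 : (rw' ζ M).comp (lw (𝟙_ C) β) h =
      ((-1 : ℤ) ^ (p * q)) • (lw (𝟙_ C) β).comp (rw' ζ M') h' := by
    rw [key, smul_smul, mul_comm q p, ← pow_add, ← two_mul, pow_mul, neg_one_sq, one_pow, one_smul]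
  unfold act
  rw [Ext.comp_assoc (a₁₂ := q) (a₂₃ := n) _ _ _ (zero_add q) h (by omega),
    Ext.comp_assoc (a₁₂ := q) (a₂₃ := p) _ _ _ (add_zero q) (zero_add p) (by omega), ← hl,
    ← Ext.comp_assoc (a₁₂ := n) (a₂₃ := p) _ _ _ h (add_zero p) (by omega)]
  have h3 : (ζ.mapExactFunctor (tensorRight M) : Ext.{w} _ _ q).comp (lw (𝟙_ C) β) h =
      ((-1 : ℤ) ^ (p * q)) • (lw (𝟙_ C) β).comp (rw' ζ M') h' := h2
  rw [h3, zsmul_comp, comp_zsmul]
  congr 1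
  have h4 : β = (Ext.mk₀ (λ_ M).inv).comp ((lw (𝟙_ C) β).comp (Ext.mk₀ (λ_ M').hom)
      (add_zero p)) (zero_add p) := by
    rw [hl, Ext.mk₀_comp_mk₀_assoc, Iso.inv_hom_id, Ext.mk₀_id_comp]
  conv_rhs => rw [h4]
  rw [Ext.comp_assoc (a₁₂ := p) (a₂₃ := n) _ _ _ (zero_add p) h' (by omega),
    Ext.comp_assoc (a₁₂ := p) (a₂₃ := q) _ _ _ (add_zero p) (zero_add q) (by omega),
    Ext.mk₀_comp_mk₀_assoc, Iso.hom_inv_id, Ext.mk₀_id_comp,
    ← Ext.comp_assoc (a₁₂ := n) (a₂₃ := q) _ _ _ h' (add_zero q) (by omega)]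

theorem act_unit {n : ℕ} (ζ : Ext.{w} (𝟙_ C) (𝟙_ C) n) : act (𝟙_ C) ζ = ζ := by
  have h := rw_unit (C := C) ζ
  unfold act
  have h1 : (ζ.mapExactFunctor (tensorRight (𝟙_ C)) : Ext.{w} _ _ n).comp
      (Ext.mk₀ (λ_ (𝟙_ C)).hom) (add_zero n) = (Ext.mk₀ (λ_ (𝟙_ C)).hom).comp ζ (zero_add n) := by
    rw [unitors_equal]
    exact h
  rw [h1, Ext.mk₀_comp_mk₀_assoc, Iso.inv_hom_id, Ext.mk₀_id_comp]

/-- `Ext(1,1)` is graded commutative -/
theorem unit_comm {p q n : ℕ} (β : Ext.{w} (𝟙_ C) (𝟙_ C) p) (ζ : Ext.{w} (𝟙_ C) (𝟙_ C) q)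
    (h : q + p = n) (h' : p + q = n) :
    ζ.comp β h = ((-1 : ℤ) ^ (p * q)) • β.comp ζ h' := by
  have := act_central β ζ h h'
  rw [act_unit] at this
  exact this

end act

end Pool.Agent.MUG
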