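import Pool.Agent.MUG.N2

/-!
# `Ext(X,Y)` is a Noetherian graded module if FGC holds (MP_388894, row NOETH, helper79)
-/

open CategoryTheory MonoidalCategory Limits Abelian

universe w w' v v' u u'

set_option linter.unusedSectionVars false

namespace Pool.Agent.MUG

open Pool.Agent.MUE79 (zsmul_comp comp_zsmul)

section fgc

variable {k : Type*} [Field k] {C : Type u} [Category.{v} C] [Abelian C] [Linear k C]
  [MonoidalCategory C] [MonoidalPreadditive C] [MonoidalLinear k C] [RigidCategory C]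
  [HasExt.{w} C]

/-- all homogeneous elements of `Ext(1,1)` -/
abbrev Om (C : Type u) [Category.{v} C] [Abelian C] [MonoidalCategory C] [HasExt.{w} C] :
    Type w := Σ m, Ext.{w} (𝟙_ C) (𝟙_ C) m

/-- the operators on `Ext(X,Y)` -/
noncomputable def opE (k : Type*) [Field k] [Linear k C] (X Y : C) (ω : Om.{w} C) (n : ℕ) :
    Ext.{w} X Y n →ₗ[k] Ext.{w} X Y (ω.1 + n) :=
  Ext.precompOfLinear (act X ω.2) k Y rfl

theorem opE_apply (X Y : C) (ω : Om.{w} C) (n : ℕ) (β : Ext.{w} X Y n) :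
    opE k X Y ω n β = (act X ω.2).comp β rfl := rfl

/-- the elements of `Ext(1,1)` whose action preserves a graded family -/
noncomputable def algOf (X Y : C) (A : ∀ n, Submodule k (Ext.{w} X Y n)) (m : ℕ) :
    Submodule k (Ext.{w} (𝟙_ C) (𝟙_ C) m) where
  carrier := {ζ | ∀ (n c : ℕ) (h : m + n = c) (β : Ext.{w} X Y n), β ∈ A n →
    (act X ζ).comp β h ∈ A c}
  add_mem' := by
    intro ζ ξ hζ hξ n c h β hβ
    rw [act_add, Ext.add_comp]
    exact (A c).add_mem (hζ n c h β hβ) (hξ n c h β hβ)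
  zero_mem' := by
    intro n c h β hβ
    rw [act_zero, Ext.zero_comp]
    exact (A c).zero_mem
  smul_mem' := by
    intro t ζ hζ n c h β hβ
    rw [act_smul, Ext.smul_comp]
    exact (A c).smul_mem t (hζ n c h β hβ)

theorem mem_algOf {X Y : C} {A : ∀ n, Submodule k (Ext.{w} X Y n)} {m : ℕ}
    {ζ : Ext.{w} (𝟙_ C) (𝟙_ C) m} :
    ζ ∈ algOf X Y A m ↔ ∀ (n c : ℕ) (h : m + n = c) (β : Ext.{w} X Y n), β ∈ A n →
      (act X ζ).comp β h ∈ A c := Iff.rfl

theorem one_mem_algOf {X Y : C} (A : ∀ n, Submodule k (Ext.{w} X Y n)) :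
    Ext.mk₀ (𝟙 (𝟙_ C)) ∈ algOf X Y A 0 := by
  intro n c h β hβ
  rw [act_one]
  obtain rfl : n = c := by omega
  rwa [Ext.mk₀_id_comp]

theorem mul_mem_algOf {X Y : C} (A : ∀ n, Submodule k (Ext.{w} X Y n)) {m n : ℕ}
    {a : Ext.{w} (𝟙_ C) (𝟙_ C) m} {b : Ext.{w} (𝟙_ C) (𝟙_ C) n} (ha : a ∈ algOf X Y A m)
    (hb : b ∈ algOf X Y A n) : a.comp b rfl ∈ algOf X Y A (m + n) := by
  intro l c h β hβ
  rw [act_comp, Ext.comp_assoc (a₁₂ := m + n) (a₂₃ := n + l) _ _ _ rfl rfl (by omega)]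
  exact ha _ c (by omega) _ (hb l _ rfl β hβ)

open DirectSum in
theorem lof_comp (X Y Z : C) {p q c c' : ℕ} (α : Ext.{w} X Y p) (β : Ext.{w} Y Z q)
    (h : p + q = c) (h' : p + q = c') :
    lof k ℕ (fun n => Ext.{w} X Z n) c (α.comp β h) =
      lof k ℕ (fun n => Ext.{w} X Z n) c' (α.comp β h') := by
  obtain rfl : c = c' := h.symm.trans h'
  rfl

/-- **FGC implies Noetherian.** -/
theorem ext_gnoeth [EnoughProjectives C] (hF : FGC.{w} k C) (X Y : C) :
    GNoeth (fun ω : Om.{w} C => ω.1) (M := fun n => Ext.{w} X Y n) (opE k X Y) := by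
  obtain ⟨r, d, x, hx⟩ := hF.alg
  let op' : ∀ (i : Fin r) (n : ℕ), Ext.{w} X Y n →ₗ[k] Ext.{w} X Y (d i + n) :=
    fun i n => opE k X Y ⟨d i, x i⟩ n
  -- stability under the generators is stability
  have key : ∀ A : ∀ n, Submodule k (Ext.{w} X Y n),
      GStable d (M := fun n => Ext.{w} X Y n) op' A →
      GStable (fun ω : Om.{w} C => ω.1) (M := fun n => Ext.{w} X Y n) (opE k X Y) A := by
    intro A hA
    have h1 := hx (algOf X Y A) (one_mem_algOf A) (by
      intro i n c h β hβ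
      obtain rfl : d i + n = c := h
      exact hA i n β hβ) (fun m n a b ha hb => mul_mem_algOf A ha hb)
    intro ω n β hβ
    have h2 : ω.2 ∈ algOf X Y A ω.1 := by
      rw [h1]
      trivial
    exact h2 n _ rfl β hβ
  have h3 : GNoeth d (M := fun n => Ext.{w} X Y n) op' := by
    refine gnoeth_of_comm d op' ?_ ?_
    · intro i j
      have hc : ∀ (n : ℕ) (β : Ext.{w} X Y n),
          DirectSum.lof k ℕ (fun n => Ext.{w} X Y n) _ (op' i _ (op' j n β)) =
          ((-1 : ℤ) ^ (d j * d i)) •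
            DirectSum.lof k ℕ (fun n => Ext.{w} X Y n) _ (op' j _ (op' i n β)) := by
        intro n β
        have e1 : op' i _ (op' j n β) = ((-1 : ℤ) ^ (d j * d i)) •
            (act X (x j)).comp ((act X (x i)).comp β rfl) (by omega) := by
          change (act X (x i)).comp ((act X (x j)).comp β rfl) rfl = _
          rw [← Ext.comp_assoc (a₁₂ := d i + d j) (a₂₃ := d j + n) _ _ _ rfl rfl (by omega),
            act_central (act X (x j)) (x i) rfl (by omega), zsmul_comp,
            Ext.comp_assoc (a₁₂ := d i + d j) (a₂₃ := d i + n) _ _ _ (by omega) rfl (by omega)]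
        rw [e1, map_zsmul]
        congr 1
        exact lof_comp X X Y _ _ _ rfl
      rcases Nat.even_or_odd (d j * d i) with he | ho
      · left
        intro n β
        rw [hc, he.neg_one_pow, one_smul]
      · right
        intro n β
        rw [hc, ho.neg_one_pow, neg_smul, one_smul]
    · obtain ⟨s, e, y, hy⟩ := hF.mod X Y
      refine ⟨s, e, y, fun _ => trivial, ?_⟩
      intro A hA hyA n
      have h4 := hy A hyA (fun m n ζ b hb => key A hA ⟨m, ζ⟩ n b hb) n
      rw [h4]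
  intro N hN
  obtain ⟨s, e, y, hy, hgen⟩ := h3 N (fun i n β hβ => hN ⟨d i, x i⟩ n β hβ)
  exact ⟨s, e, y, hy, fun A hA hyA n => hgen A (fun i n β hβ => hA ⟨d i, x i⟩ n β hβ) hyA n⟩

end fgc

end Pool.Agent.MUG
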