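import Pool.Agent.MUG.N3
import Pool.Agent.MUG.T1
import Pool.Agent.MUG.E5
import Pool.Agent.MUG.B2
import Pool.Agent.MUG.B9
import Pool.Agent.MUG.C0

/-!
# The finiteness step for the converse of Theorem A (MP_388894, row Conv, helper79)
-/

open CategoryTheory MonoidalCategory Limits Abelian

universe w w' v v' u u'

set_option linter.unusedSectionVars false

namespace Pool.Agent.MUG

open Tr

section hat

variable {k : Type*} [Field k]
  {A : Type u} [Category.{v} A] [Abelian A] [Linear k A] [MonoidalCategory A]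
  [MonoidalPreadditive A] [MonoidalLinear k A] [RigidCategory A] [HasExt.{w} A]
  {T : Type u'} [Category.{v'} T] [Abelian T] [Linear k T] [MonoidalCategory T]
  [MonoidalPreadditive T] [MonoidalLinear k T] [RigidCategory T] [HasExt.{w'} T]
  (i : T ⥤ A) [i.Additive] [PreservesFiniteLimits i]
  [PreservesFiniteColimits i] [i.Monoidal]

/-- the image in `Ext(1,1)` of a class in `Ext(1,1)` -/
noncomputable def hat {n : ℕ} (z : Ext.{w'} (𝟙_ T) (𝟙_ T) n) : Ext.{w} (𝟙_ A) (𝟙_ A) n :=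
  pre (Functor.LaxMonoidal.ε i) (post (z.mapExactFunctor i) (Functor.OplaxMonoidal.η i))

theorem hat_eq {n : ℕ} (z : Ext.{w'} (𝟙_ T) (𝟙_ T) n) :
    (hat i z : Ext.{w} (𝟙_ A) (𝟙_ A) n) =
      cj (Functor.Monoidal.εIso i).symm (z.mapExactFunctor i) := rfl

theorem hat_comp {a b c : ℕ} (z : Ext.{w'} (𝟙_ T) (𝟙_ T) a) (y : Ext.{w'} (𝟙_ T) (𝟙_ T) b)
    (h : a + b = c) : (hat i (z.comp y h) : Ext.{w} (𝟙_ A) (𝟙_ A) c) =
      (hat i z : Ext.{w} (𝟙_ A) (𝟙_ A) a).comp (hat i y) h := by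
  rw [hat_eq, hat_eq, hat_eq, Ext.mapExactFunctor_comp, cj_comp]

theorem hat_one : (hat i (Ext.mk₀ (𝟙 (𝟙_ T)) : Ext.{w'} _ _ 0) : Ext.{w} (𝟙_ A) (𝟙_ A) 0) =
    Ext.mk₀ (𝟙 _) := by
  rw [hat_eq, Ext.mapExactFunctor_mk₀, CategoryTheory.Functor.map_id]
  exact cj_one _

theorem hat_add {n : ℕ} (z y : Ext.{w'} (𝟙_ T) (𝟙_ T) n) :
    (hat i (z + y) : Ext.{w} (𝟙_ A) (𝟙_ A) n) = hat i z + hat i y := by
  rw [hat_eq, hat_eq, hat_eq, Ext.mapExactFunctor_add, cj_add]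

theorem hat_zero {n : ℕ} :
    (hat i (0 : Ext.{w'} (𝟙_ T) (𝟙_ T) n) : Ext.{w} (𝟙_ A) (𝟙_ A) n) = 0 := by
  rw [hat_eq, Ext.mapExactFunctor_zero, cj_zero]

theorem hat_smul [i.Linear k] {n : ℕ} (c : k) (z : Ext.{w'} (𝟙_ T) (𝟙_ T) n) :
    (hat i (c • z) : Ext.{w} (𝟙_ A) (𝟙_ A) n) = c • hat i z := by
  rw [hat_eq, hat_eq, Functor.mapExactFunctor_smul, cj_smul]

theorem map_act' [EnoughProjectives T] (X : T) {n : ℕ} (z : Ext.{w'} (𝟙_ T) (𝟙_ T) n) :
    ((act X z).mapExactFunctor i : Ext.{w} (i.obj X) (i.obj X) n) = act (i.obj X) (hat i z) :=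
  map_act i X z

end hat

section opU

variable (k : Type*) [Field k]
  {A : Type u} [Category.{v} A] [Abelian A] [Linear k A] [MonoidalCategory A]
  [MonoidalPreadditive A] [MonoidalLinear k A] [RigidCategory A] [HasExt.{w} A]
  {T : Type u'} [Category.{v'} T] [Abelian T] [Linear k T] [MonoidalCategory T]
  [MonoidalPreadditive T] [MonoidalLinear k T] [RigidCategory T] [HasExt.{w'} T]
  (i : T ⥤ A) [i.Additive] [PreservesFiniteLimits i]
  [PreservesFiniteColimits i]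

/-- the operators on `Ext(U ⊗ iN, Y)` -/
noncomputable def opU (U : A) (N : T) (Y : A) (ω : Om.{w'} T) (n : ℕ) :
    Ext.{w} (U ⊗ i.obj N) Y n →ₗ[k] Ext.{w} (U ⊗ i.obj N) Y (ω.1 + n) :=
  Ext.precompOfLinear (X := U ⊗ i.obj N) (Y := U ⊗ i.obj N)
    (((act N ω.2).mapExactFunctor i : Ext.{w} (i.obj N) (i.obj N) ω.1).mapExactFunctor
      (tensorLeft U)) k Y rfl

variable {k i}

theorem opU_apply {U : A} {N : T} {Y : A} (ω : Om.{w'} T) (n : ℕ)
    (β : Ext.{w} (U ⊗ i.obj N) Y n) : opU k i U N Y ω n β =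
      Ext.comp (X := U ⊗ i.obj N) (Y := U ⊗ i.obj N)
      (((act N ω.2).mapExactFunctor i : Ext.{w} (i.obj N) (i.obj N) ω.1).mapExactFunctor
      (tensorLeft U)) β rfl := rfl

/-- precomposition with `U ⊗ iN ⟶ iN` is compatible with the operators -/
theorem pre_op [EnoughProjectives A] {U : A} (e : U ⟶ 𝟙_ A) {N : T} {Y : A} (ω : Om.{w'} T)
    (n : ℕ) (β : Ext.{w} (i.obj N) Y n) :
    pre ((th e).app (i.obj N)) ((((act N ω.2).mapExactFunctor i :
      Ext.{w} (i.obj N) (i.obj N) ω.1)).comp β rfl) =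
      opU k i U N Y ω n (pre ((th e).app (i.obj N)) β) := by
  rw [opU_apply]
  have h1 := th_nat e ((act N ω.2).mapExactFunctor i : Ext.{w} (i.obj N) (i.obj N) ω.1)
  refine (pre_comp _ _ _ rfl).trans ?_
  rw [← h1]
  exact post_comp _ _ _ rfl

/-- the case of an object of `T` -/
theorem gnoeth_T [i.Linear k] [i.Monoidal] [EnoughProjectives A] [EnoughProjectives T] (hF : FGC.{w'} k T)
    {U : A} (e : U ⟶ 𝟙_ A)
    (hbij : ∀ (N M : T) (n : ℕ), Function.Bijective (EE.{w, w'} i k e N M n)) (N M : T) :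
    GNoeth (fun ω : Om.{w'} T => ω.1) (M := fun n => Ext.{w} (U ⊗ i.obj N) (i.obj M) n)
      (opU k i U N (i.obj M)) := by
  refine gnoeth_of_surjective (fun ω : Om.{w'} T => ω.1)
    (M' := fun n => Ext.{w'} N M n) (M := fun n => Ext.{w} (U ⊗ i.obj N) (i.obj M) n)
    (opU k i U N (i.obj M)) (opE k N M) (fun n => EE.{w, w'} i k e N M n) ?_
    (fun n m => (hbij N M n).2 m) (ext_gnoeth hF N M)
  intro ω n β
  rw [EE_apply, EE_apply, opE_apply, Ext.mapExactFunctor_comp]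
  exact pre_op e ω n _

theorem ext_zero_tgt {X Y : A} (hY : IsZero Y) {n : ℕ} (x : Ext.{w} X Y n) : x = 0 := by
  have h : x = x.comp (Ext.mk₀ (𝟙 Y)) (add_zero n) := (Ext.comp_mk₀_id x).symm
  rw [h, (IsZero.iff_id_eq_zero Y).1 hY, Ext.mk₀_zero, Ext.comp_zero]

/-- all objects -/
theorem gnoeth_all [i.Linear k] [i.Monoidal] (hA : IsFinite k A) [EnoughProjectives T] (hF : FGC.{w'} k T)
    {U : A} (e : U ⟶ 𝟙_ A)
    (hbij : ∀ (N M : T) (n : ℕ), Function.Bijective (EE.{w, w'} i k e N M n))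
    (hsim : ∀ S : A, Simple S → i.essImage S) (N : T) (Y : A) :
    GNoeth (fun ω : Om.{w'} T => ω.1) (M := fun n => Ext.{w} (U ⊗ i.obj N) Y n)
      (opU k i U N Y) := by
  have := hA.enough
  refine fl_induction hA.artinian hA.noetherian (fun Y =>
    GNoeth (fun ω : Om.{w'} T => ω.1) (M := fun n => Ext.{w} (U ⊗ i.obj N) Y n)
      (opU k i U N Y)) ?_ ?_ Y
  · intro X hX B _
    exact ⟨0, Fin.elim0, fun i => i.elim0, fun i => i.elim0, fun A _ _ n m _ => by
      rw [ext_zero_tgt hX m]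
      exact (A n).zero_mem⟩
  · intro S hS h1 h3
    obtain ⟨M, ⟨φ⟩⟩ := hsim _ h3
    have h3' : GNoeth (fun ω : Om.{w'} T => ω.1) (M := fun n => Ext.{w} (U ⊗ i.obj N) S.X₃ n)
        (opU k i U N S.X₃) := by
      refine gnoeth_of_surjective (fun ω : Om.{w'} T => ω.1)
        (M' := fun n => Ext.{w} (U ⊗ i.obj N) (i.obj M) n)
        (M := fun n => Ext.{w} (U ⊗ i.obj N) S.X₃ n)
        (opU k i U N S.X₃) (opU k i U N (i.obj M))
        (fun n => Ext.postcompOfLinear (Ext.mk₀ φ.hom) k (U ⊗ i.obj N) (add_zero n)) ?_ ?_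
        (gnoeth_T hF e hbij N M)
      · intro ω n β
        rw [opU_apply, opU_apply]
        exact comp_post _ _ _ rfl
      · intro n m
        refine ⟨post m φ.inv, ?_⟩
        change post (post m φ.inv) φ.hom = m
        rw [post_post, φ.inv_hom_id, post_id]
    refine gnoeth_ext (fun ω : Om.{w'} T => ω.1)
      (M' := fun n => Ext.{w} (U ⊗ i.obj N) S.X₁ n)
      (M := fun n => Ext.{w} (U ⊗ i.obj N) S.X₂ n)
      (M'' := fun n => Ext.{w} (U ⊗ i.obj N) S.X₃ n)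
      (opU k i U N S.X₂) (opU k i U N S.X₁) (opU k i U N S.X₃)
      (fun n => Ext.postcompOfLinear (Ext.mk₀ S.f) k (U ⊗ i.obj N) (add_zero n))
      (fun n => Ext.postcompOfLinear (Ext.mk₀ S.g) k (U ⊗ i.obj N) (add_zero n)) ?_ ?_ ?_ h1 h3'
    · intro ω n β
      rw [opU_apply, opU_apply]
      exact comp_post _ _ _ rfl
    · intro ω n β
      rw [opU_apply, opU_apply]
      exact comp_post _ _ _ rfl
    · intro n m hm
      exact Ext.covariant_sequence_exact₂ (U ⊗ i.obj N) hS m hm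

end opU

end Pool.Agent.MUG
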