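import Pool.Agent.MUG.N4

/-!
# Dimension shift and the key lemma (MP_388894, row Conv, helper79)
-/

open CategoryTheory MonoidalCategory Limits Abelian

universe w w' v v' u u'

set_option linter.unusedSectionVars false

namespace Pool.Agent.MUG

open Tr

section ds

variable {k : Type*} [Field k]
  {A : Type u} [Category.{v} A] [Abelian A] [Linear k A] [MonoidalCategory A]
  [MonoidalPreadditive A] [MonoidalLinear k A] [RigidCategory A] [BraidedCategory A]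
  [HasExt.{w} A]
  {T : Type u'} [Category.{v'} T] [Abelian T] [Linear k T] [MonoidalCategory T]
  [MonoidalPreadditive T] [MonoidalLinear k T] [RigidCategory T] [HasExt.{w'} T]

/-- `U ⊗ iQ` is projective if `Q` is -/
theorem proj_U [EnoughProjectives A] {b : A} (L : Leib b) (hsq : L.SqZero) {U : A} (j : b ⟶ U)
    (e : U ⟶ 𝟙_ A) (w : j ≫ e = 0) (hS : (ShortComplex.mk j e w).ShortExact)
    (hd : L.d U = (b ◁ e) ≫ (ρ_ b).hom ≫ j) (i : T ⥤ A) [i.Additive]
    [PreservesFiniteLimits i] [PreservesFiniteColimits i] [i.Full] [i.Faithful]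
    (hess : ∀ Y : A, L.d Y = 0 ↔ i.essImage Y) (Q : T) (hQ : Projective Q) :
    Projective (U ⊗ i.obj Q) := by
  let P' := Projective.over (i.obj Q)
  let π : P' ⟶ i.obj Q := Projective.π (i.obj Q)
  have h0 : L.d (i.obj Q) = 0 := (hess _).2 ⟨Q, ⟨Iso.refl _⟩⟩
  have h1 : L.d P' ≫ π = 0 := by
    rw [← L.nat, h0, comp_zero]
  let q : cokernel (L.d P') ⟶ i.obj Q := cokernel.desc (L.d P') π h1
  have hq : Epi q := by
    have h2 : Epi (cokernel.π (L.d P') ≫ q) := by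
      rw [cokernel.π_desc]
      infer_instance
    exact epi_of_epi (cokernel.π (L.d P')) q
  obtain ⟨Q', ⟨φ⟩⟩ := (hess _).1 (b6_coker L P')
  let q' : Q' ⟶ Q := i.preimage (φ.hom ≫ q)
  have hq' : Epi q' := by
    have h3 : Epi (i.map q') := by
      rw [i.map_preimage]
      exact epi_comp _ _
    exact i.epi_of_epi_map h3
  let s : Q ⟶ Q' := Projective.factorThru (𝟙 Q) q'
  have hs : s ≫ q' = 𝟙 Q := Projective.factorThru_comp _ _
  have h4 : i.map s ≫ φ.hom ≫ q = 𝟙 (i.obj Q) := by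
    rw [← i.map_preimage (φ.hom ≫ q), ← i.map_comp]
    change i.map (s ≫ q') = _
    rw [hs, i.map_id]
  have h5 := projective_tensor L hsq j e w hS hd P'
  let R : Retract (U ⊗ i.obj Q) (U ⊗ cokernel (L.d P')) :=
    { i := U ◁ (i.map s ≫ φ.hom)
      r := U ◁ q
      retract := by
        rw [← whiskerLeft_comp, Category.assoc, h4, whiskerLeft_id] }
  exact R.projective

/-- the natural transformation `U ⊗ i(-) ⟶ i(-)` -/
def thI {U : A} (e : U ⟶ 𝟙_ A) (i : T ⥤ A) : (i ⋙ tensorLeft U) ⟶ i where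
  app N := (th e).app (i.obj N)
  naturality _ _ f := (th e).naturality (i.map f)

theorem hbij_U [EnoughProjectives A] [EnoughProjectives T] {b : A} (L : Leib b)
    (hsq : L.SqZero) {U : A} (j : b ⟶ U)
    (e : U ⟶ 𝟙_ A) (w : j ≫ e = 0) (hS : (ShortComplex.mk j e w).ShortExact)
    (hd : L.d U = (b ◁ e) ≫ (ρ_ b).hom ≫ j) (i : T ⥤ A) [i.Additive] [i.Linear k]
    [PreservesFiniteLimits i] [PreservesFiniteColimits i] [i.Monoidal] [i.Full] [i.Faithful]
    (hess : ∀ Y : A, L.d Y = 0 ↔ i.essImage Y) (N M : T) (n : ℕ) :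
    Function.Bijective (EE.{w, w'} i k e N M n) := by
  refine ds_bijective.{w', w} i (i ⋙ tensorLeft U)
    (fun P hP => proj_U L hsq j e w hS hd i hess P hP) (thI e i) ?_ N M n
  intro N M
  have h0 : ∀ X : T, L.d (i.obj X) = 0 := fun X => (hess _).2 ⟨X, ⟨Iso.refl _⟩⟩
  have h1 := hom_bijective L j e w hS hd (i.obj N) (i.obj M) (h0 N) (h0 M)
  have h2 : Function.Bijective (fun f : N ⟶ M => i.map f) := ⟨i.map_injective, i.map_surjective⟩
  have h3 := h1.comp h2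
  have h4 : (fun f : N ⟶ M => (thI e i).app N ≫ i.map f) =
      (fun f : i.obj N ⟶ i.obj M => (e ▷ i.obj N) ≫ (λ_ (i.obj N)).hom ≫ f) ∘
        (fun f : N ⟶ M => i.map f) := by
    funext f
    change ((e ▷ i.obj N) ≫ (λ_ (i.obj N)).hom) ≫ i.map f = _
    rw [Category.assoc]
    rfl
  rw [h4]
  exact h3

/-- the class of `b ⊗ X → U ⊗ X → X` -/
theorem exists_v {b U : A} (j : b ⟶ U) (e : U ⟶ 𝟙_ A) (w : j ≫ e = 0)
    (hS : (ShortComplex.mk j e w).ShortExact) (X : A) :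
    ∃ v : Ext.{w} X (b ⊗ X) 1, ∀ (Y : A) (n : ℕ) (x : Ext.{w} X Y (n + 1)),
      pre ((th e).app X) x = 0 → ∃ γ : Ext.{w} (b ⊗ X) Y n, x = v.comp γ (add_comm 1 n) := by
  have hSX : ((ShortComplex.mk j e w).map (tensorRight X)).ShortExact :=
    hS.map_of_exact (tensorRight X)
  refine ⟨pre (λ_ X).inv hSX.extClass, ?_⟩
  intro Y n x hx
  have h1 : pre (e ▷ X) (pre (λ_ X).hom x) = 0 := by
    rw [pre_pre]
    exact hx
  obtain ⟨γ, hγ⟩ := Ext.contravariant_sequence_exact₃ hSX Y (pre (λ_ X).hom x) h1 (add_comm 1 n)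
  refine ⟨γ, ?_⟩
  have h2 : x = pre (λ_ X).inv (pre (λ_ X).hom x) := by
    rw [pre_pre, (λ_ X).inv_hom_id, pre_id]
  refine h2.trans ?_
  exact (congrArg (fun t => pre (λ_ X).inv t) hγ.symm).trans (pre_comp _ _ _ (add_comm 1 n))

theorem pre_epi_inj {X X' Y : A} (f : X' ⟶ X) [Epi f] (x : Ext.{w} X Y 0) (h : pre f x = 0) :
    x = 0 := by
  obtain ⟨g, rfl⟩ := (Ext.mk₀_bijective _ _).2 x
  have h1 : Ext.mk₀ (f ≫ g) = (Ext.mk₀ (0 : X' ⟶ Y) : Ext.{w} X' Y 0) := by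
    rw [Ext.mk₀_zero, ← Ext.mk₀_comp_mk₀]
    exact h
  have h2 := (Ext.mk₀_bijective _ _).1 h1
  have h3 : g = 0 := by
    rw [← cancel_epi f, h2, comp_zero]
  rw [h3, Ext.mk₀_zero]

/-- **The key lemma.** -/
theorem key_lemma (hA : IsFinite k A) {U : A} (e : U ⟶ 𝟙_ A) [Epi e]
    (i : T ⥤ A) [i.Additive] [i.Linear k]
    [PreservesFiniteLimits i] [PreservesFiniteColimits i] [i.Monoidal] [EnoughProjectives T]
    (hF : FGC.{w'} k T)
    (hbij : ∀ (N M : T) (n : ℕ), Function.Bijective (EE.{w, w'} i k e N M n))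
    (hsim : ∀ S : A, Simple S → i.essImage S) (N : T) (Y : A) {Z : A}
    (v : Ext.{w} (i.obj N) Z 1)
    (hv : ∀ (n : ℕ) (x : Ext.{w} (i.obj N) Y (n + 1)), pre ((th e).app (i.obj N)) x = 0 →
      ∃ γ : Ext.{w} Z Y n, x = v.comp γ (add_comm 1 n)) :
    ∃ (r : ℕ) (d : Fin r → ℕ) (h : ∀ a, Ext.{w} (i.obj N) Y (d a)),
      ∀ A' : ∀ n, Submodule k (Ext.{w} (i.obj N) Y n),
        (∀ (m : ℕ) (z : Ext.{w'} (𝟙_ T) (𝟙_ T) m) (n : ℕ) (β : Ext.{w} (i.obj N) Y n), β ∈ A' n →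
          (act (i.obj N) (hat i z : Ext.{w} (𝟙_ A) (𝟙_ A) m)).comp β rfl ∈ A' (m + n)) →
        (∀ a, h a ∈ A' (d a)) → ∀ B : ℕ,
        (∀ n, n < B → ∀ γ : Ext.{w} Z Y n, v.comp γ (add_comm 1 n) ∈ A' (n + 1)) →
        ∀ n, n ≤ B → A' n = ⊤ := by
  classical
  have := hA.enough
  let pl : ∀ n, Ext.{w} (i.obj N) Y n →ₗ[k] Ext.{w} (U ⊗ i.obj N) Y n := fun n =>
    Ext.precompOfLinear (X := U ⊗ i.obj N) (Y := i.obj N) (Ext.mk₀ ((th e).app (i.obj N))) k Y
      (zero_add n)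
  have hpl : ∀ n β, pl n β = pre ((th e).app (i.obj N)) β := fun _ _ => rfl
  have hst : ∀ (ω : Om.{w'} T) (n : ℕ) (β : Ext.{w} (i.obj N) Y n),
      pl (ω.1 + n) ((act (i.obj N) (hat i ω.2 : Ext.{w} (𝟙_ A) (𝟙_ A) ω.1)).comp β rfl) =
        opU k i U N Y ω n (pl n β) := by
    intro ω n β
    rw [hpl, hpl, ← pre_op, ← map_act']
  obtain ⟨r, d, y, hy, hgen⟩ := gnoeth_all hA hF e hbij hsim N Y
    (fun n => (⊤ : Submodule k (Ext.{w} (i.obj N) Y n)).map (pl n)) (by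
      intro ω n m hm
      obtain ⟨β, -, rfl⟩ := Submodule.mem_map.1 hm
      exact Submodule.mem_map.2 ⟨_, trivial, hst ω n β⟩)
  have hc : ∀ a, ∃ h : Ext.{w} (i.obj N) Y (d a), pl (d a) h = y a := fun a => by
    obtain ⟨x, -, hx⟩ := Submodule.mem_map.1 (hy a)
    exact ⟨x, hx⟩
  choose h hh using hc
  refine ⟨r, d, h, ?_⟩
  intro A' hA' hhA B hB n hn
  have h1 := hgen (fun n => if n ≤ B then (A' n).map (pl n) else ⊤) (by
    intro ω n m hm
    change _ ∈ (if ω.1 + n ≤ B then _ else _ : Submodule k _)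
    by_cases hc : ω.1 + n ≤ B
    · rw [if_pos hc]
      have hm' : m ∈ (if n ≤ B then (A' n).map (pl n) else ⊤ : Submodule k _) := hm
      rw [if_pos (by omega)] at hm'
      obtain ⟨β, hβ, rfl⟩ := Submodule.mem_map.1 hm'
      exact Submodule.mem_map.2 ⟨_, hA' ω.1 ω.2 n β hβ, hst ω n β⟩
    · rw [if_neg hc]
      trivial) (by
    intro a
    by_cases hc : d a ≤ B
    · rw [if_pos hc]
      exact Submodule.mem_map.2 ⟨h a, hhA a, hh a⟩
    · rw [if_neg hc]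
      trivial) n
  have h1' : (⊤ : Submodule k (Ext.{w} (i.obj N) Y n)).map (pl n) ≤
      (if n ≤ B then (A' n).map (pl n) else ⊤ : Submodule k _) := h1
  rw [if_pos hn] at h1'
  rw [eq_top_iff]
  intro β _
  obtain ⟨β', hβ', he⟩ := Submodule.mem_map.1 (h1' (Submodule.mem_map.2 ⟨β, trivial, rfl⟩))
  have h2 : pre ((th e).app (i.obj N)) (β - β') = 0 := by
    rw [← hpl, map_sub, he, sub_self]
  have h3 : β - β' ∈ A' n := by
    cases n with
    | zero =>
      have he1 : Epi ((th e).app (i.obj N)) := by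
        have : Epi (e ▷ i.obj N) := inferInstanceAs (Epi ((tensorRight (i.obj N)).map e))
        exact epi_comp (e ▷ i.obj N) (λ_ (i.obj N)).hom
      rw [pre_epi_inj (X' := (tensorLeft U).obj (i.obj N)) (X := i.obj N)
        ((th e).app (i.obj N)) _ h2]
      exact (A' 0).zero_mem
    | succ n =>
      obtain ⟨γ, hγ⟩ := hv n _ h2
      rw [hγ]
      exact hB n (by omega) γ
  have h4 := (A' n).add_mem h3 hβ'
  rwa [sub_add_cancel] at h4

end ds

end Pool.Agent.MUG
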