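import Pool.Agent.MUG.N5
import Pool.Agent.MUG.C3

/-!
# `Ext(1,Y)` is finitely generated over `Ext_T(1,1)` and one class `V` (MP_388894, row Conv,
helper79)
-/

open CategoryTheory MonoidalCategory Limits Abelian

universe w w' v v' u u'

set_option linter.unusedSectionVars false

namespace Pool.Agent.MUG

open Tr
open Pool.Agent.MUE79 (zsmul_comp comp_zsmul)

/-- change the index type to `Fin r` -/
theorem exists_fin {ι : Type*} [Finite ι] {M : ℕ → Type*} (d : ι → ℕ) (y : ∀ i, M (d i)) :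
    ∃ (r : ℕ) (d' : Fin r → ℕ) (y' : ∀ a, M (d' a)), ∀ P : (∀ n, M n → Prop),
      (∀ a, P _ (y' a)) → ∀ i, P _ (y i) := by
  obtain ⟨r, ⟨e⟩⟩ := Finite.exists_equiv_fin ι
  refine ⟨r, fun a => d (e.symm a), fun a => y (e.symm a), ?_⟩
  intro P hP i
  have key : ∀ j, j = i → P _ (y j) → P _ (y i) := by
    rintro j rfl h
    exact h
  exact key _ (e.symm_apply_apply i) (hP (e i))

section basic

variable {k : Type*} [Field k]
  {A : Type u} [Category.{v} A] [Abelian A] [Linear k A] [HasExt.{w} A]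

theorem mem_cast {X Y Z : A} (A' : ∀ n, Submodule k (Ext.{w} X Z n)) {p q c c' : ℕ}
    (α : Ext.{w} X Y p) (β : Ext.{w} Y Z q) (h : p + q = c) (h' : p + q = c')
    (hm : α.comp β h ∈ A' c) : α.comp β h' ∈ A' c' := by
  obtain rfl : c = c' := h.symm.trans h'
  exact hm

/-- the pullback of a graded family along composition with a class -/
noncomputable def Bf {X Y Z : A} (A' : ∀ n, Submodule k (Ext.{w} X Z n)) {p : ℕ}
    (α : Ext.{w} X Y p) (n : ℕ) : Submodule k (Ext.{w} Y Z n) :=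
  (A' (p + n)).comap (Ext.precompOfLinear α k Z rfl)

theorem mem_Bf {X Y Z : A} (A' : ∀ n, Submodule k (Ext.{w} X Z n)) {p : ℕ}
    (α : Ext.{w} X Y p) {n : ℕ} (β : Ext.{w} Y Z n) :
    β ∈ Bf A' α n ↔ α.comp β rfl ∈ A' (p + n) := Iff.rfl

end basic

section star

variable {k : Type*} [Field k]
  {A : Type u} [Category.{v} A] [Abelian A] [Linear k A] [MonoidalCategory A]
  [MonoidalPreadditive A] [MonoidalLinear k A] [RigidCategory A]
  [HasExt.{w} A]

/-- moving the action to the front -/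
theorem comp_act [EnoughProjectives A] {M Y : A} {p m n c : ℕ} (β : Ext.{w} (𝟙_ A) M p)
    (ζ : Ext.{w} (𝟙_ A) (𝟙_ A) m) (x : Ext.{w} M Y n) (hc : p + (m + n) = c) :
    β.comp ((act M ζ).comp x rfl) hc =
      ((-1 : ℤ) ^ (p * m)) • ζ.comp (β.comp x rfl) (show m + (p + n) = c by omega) := by
  have h1 := act_central β ζ (add_comm m p) rfl
  rw [act_unit] at h1
  have h2 : β.comp (act M ζ) (rfl : p + m = p + m) =
      ((-1 : ℤ) ^ (p * m)) • ζ.comp β (add_comm m p) := by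
    rw [h1, smul_smul, ← pow_add, ← two_mul, pow_mul, neg_one_sq, one_pow, one_smul]
  rw [← Ext.comp_assoc (a₁₂ := p + m) (a₂₃ := m + n) _ _ _ rfl rfl (by omega), h2, zsmul_comp,
    Ext.comp_assoc (a₁₂ := p + m) (a₂₃ := p + n) _ _ _ (add_comm m p) rfl (by omega)]

variable [BraidedCategory A]
  {T : Type u'} [Category.{v'} T] [Abelian T] [Linear k T] [MonoidalCategory T]
  [MonoidalPreadditive T] [MonoidalLinear k T] [RigidCategory T] [HasExt.{w'} T]

/-- the powers of `b` in `T` -/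
theorem exists_seq (hA : IsFinite k A) {b : A} (hb : Invertible b) (L : Leib b)
    (hsq : L.SqZero) (i : T ⥤ A) (hess : ∀ Y : A, L.d Y = 0 ↔ i.essImage Y) :
    ∃ (Nn : ℕ → T) (_ : ∀ j, b ⊗ i.obj (Nn j) ≅ i.obj (Nn (j + 1))) (_ : i.obj (Nn 0) ≅ 𝟙_ A)
      (o : ℕ), 0 < o ∧ Nonempty (i.obj (Nn o) ≅ 𝟙_ A) := by
  have hsb : Simple b := simple_of_invertible hA hb
  have hLb : L.d b = 0 := leib_simple hA hb L hsq b
  have hT := tensorSub_T hb L
  have hnext : ∀ N : T, ∃ N' : T, Nonempty (b ⊗ i.obj N ≅ i.obj N') := by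
    intro N
    have h1 : L.d (i.obj N) = 0 := (hess _).2 ⟨N, ⟨Iso.refl _⟩⟩
    have h2 : L.d (b ⊗ i.obj N) = 0 := hT.tensor hLb h1
    obtain ⟨N', ⟨φ⟩⟩ := (hess _).1 h2
    exact ⟨N', ⟨φ.symm⟩⟩
  choose nx hnx using hnext
  obtain ⟨N0, ⟨κ₀⟩⟩ := (hess _).1 hT.unit
  let Nn : ℕ → T := fun j => Nat.rec N0 (fun _ N => nx N) j
  have hNn : ∀ j, Nn (j + 1) = nx (Nn j) := fun _ => rfl
  obtain ⟨o, ho, hiter⟩ := exists_order hA hb
  have hpow : ∀ j, Nonempty (i.obj (Nn j) ≅ iter (tensorLeft b) j (𝟙_ A)) := by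
    intro j
    induction j with
    | zero => exact ⟨κ₀⟩
    | succ j ih =>
      obtain ⟨ψ⟩ := ih
      obtain ⟨φ⟩ := hnx (Nn j)
      have h1 : iter (tensorLeft b) (j + 1) (𝟙_ A) = b ⊗ iter (tensorLeft b) j (𝟙_ A) := by
        rw [Nat.add_comm j 1, C3aux.iter_add]
        rfl
      rw [h1]
      exact ⟨φ.symm ≪≫ whiskerLeftIso b ψ⟩
  refine ⟨Nn, fun j => (hnx (Nn j)).some, κ₀, o, ho, ?_⟩
  obtain ⟨ψ⟩ := hpow o
  obtain ⟨χ⟩ := hiter 1 (𝟙_ A)
  rw [Nat.mul_one] at χ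
  exact ⟨ψ ≪≫ χ⟩

/-- **Star**: `Ext(1,Y)` is finitely generated over the classes coming from `T` and one class
`V`. -/
theorem star_lemma (hA : IsFinite k A) {b U : A} (jj : b ⟶ U) (e : U ⟶ 𝟙_ A) (w : jj ≫ e = 0)
    (hS : (ShortComplex.mk jj e w).ShortExact)
    (i : T ⥤ A) [i.Additive] [i.Linear k]
    [PreservesFiniteLimits i] [PreservesFiniteColimits i] [i.Monoidal] [EnoughProjectives T]
    (hF : FGC.{w'} k T)
    (hbij : ∀ (N M : T) (n : ℕ), Function.Bijective (EE.{w, w'} i k e N M n))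
    (hsim : ∀ S : A, Simple S → i.essImage S)
    (Nn : ℕ → T) (φ : ∀ j, b ⊗ i.obj (Nn j) ≅ i.obj (Nn (j + 1))) (κ₀ : i.obj (Nn 0) ≅ 𝟙_ A)
    (o : ℕ) (ho : 0 < o) (κ : i.obj (Nn o) ≅ 𝟙_ A) (Y : A) :
    ∃ (V : Ext.{w} (𝟙_ A) (𝟙_ A) o) (r : ℕ) (d : Fin r → ℕ) (g : ∀ a, Ext.{w} (𝟙_ A) Y (d a)),
      ∀ A' : ∀ n, Submodule k (Ext.{w} (𝟙_ A) Y n),
        (∀ (m : ℕ) (z : Ext.{w'} (𝟙_ T) (𝟙_ T) m) (n c : ℕ) (h : m + n = c)
          (β : Ext.{w} (𝟙_ A) Y n), β ∈ A' n →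
            (hat i z : Ext.{w} (𝟙_ A) (𝟙_ A) m).comp β h ∈ A' c) →
        (∀ (n c : ℕ) (h : o + n = c) (β : Ext.{w} (𝟙_ A) Y n), β ∈ A' n → V.comp β h ∈ A' c) →
        (∀ a, g a ∈ A' (d a)) → ∀ n, A' n = ⊤ := by
  classical
  have := hA.enough
  have hepi : Epi e := hS.epi_g
  choose v hv using fun j => exists_v.{w} jj e w hS (i.obj (Nn j))
  let vj : ∀ j, Ext.{w} (i.obj (Nn j)) (i.obj (Nn (j + 1))) 1 := fun j => post (v j) (φ j).hom
  have hvj : ∀ (j : ℕ) (n : ℕ) (x : Ext.{w} (i.obj (Nn j)) Y (n + 1)),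
      pre ((th e).app (i.obj (Nn j))) x = 0 →
      ∃ γ : Ext.{w} (i.obj (Nn (j + 1))) Y n, x = (vj j).comp γ (add_comm 1 n) := by
    intro j n x hx
    obtain ⟨γ, hγ⟩ := hv j Y n x hx
    refine ⟨pre (φ j).inv γ, ?_⟩
    rw [hγ]
    change _ = (post (v j) (φ j).hom).comp (pre (φ j).inv γ) _
    rw [post_comp, pre_pre, (φ j).hom_inv_id, pre_id]
  choose r d h hkey using fun j =>
    key_lemma hA e i hF hbij hsim (Nn j) Y (vj j) (hvj j)
  let vp : ∀ j, Ext.{w} (𝟙_ A) (i.obj (Nn j)) j := fun j =>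
    Nat.rec (motive := fun j => Ext.{w} (𝟙_ A) (i.obj (Nn j)) j) (Ext.mk₀ κ₀.inv)
      (fun j x => x.comp (vj j) rfl) j
  have hvp0 : vp 0 = Ext.mk₀ κ₀.inv := rfl
  have hvps : ∀ j, vp (j + 1) = (vp j).comp (vj j) rfl := fun _ => rfl
  obtain ⟨R, D, G, hG⟩ := exists_fin (ι := Σ j : Fin o, Fin (r j))
    (M := fun n => Ext.{w} (𝟙_ A) Y n) (fun p => (p.1 : ℕ) + d p.1 p.2)
    (fun p => (vp p.1).comp (h p.1 p.2) rfl)
  refine ⟨post (vp o) κ.hom, R, D, G, ?_⟩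
  intro A' hz hV hg
  have hgen : ∀ j, j < o → ∀ a, h j a ∈ Bf A' (vp j) (d j a) := by
    intro j hj a
    exact hG (fun n x => x ∈ A' n) hg ⟨⟨j, hj⟩, a⟩
  have hstab : ∀ j, ∀ (m : ℕ) (z : Ext.{w'} (𝟙_ T) (𝟙_ T) m) (n : ℕ)
      (β : Ext.{w} (i.obj (Nn j)) Y n), β ∈ Bf A' (vp j) n →
        (act (i.obj (Nn j)) (hat i z : Ext.{w} (𝟙_ A) (𝟙_ A) m)).comp β rfl ∈
          Bf A' (vp j) (m + n) := by
    intro j m z n β hβ
    rw [mem_Bf] at hβ ⊢
    rw [comp_act]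
    exact zsmul_mem (hz m z _ _ _ _ hβ) _
  -- one step down
  have hstep : ∀ n j, j < o → (∀ m, m < n → Bf A' (vp (j + 1)) m = ⊤) →
      ∀ m, m ≤ n → Bf A' (vp j) m = ⊤ := by
    intro n j hj hB
    refine hkey j (Bf A' (vp j)) (hstab j) (hgen j hj) n ?_
    intro m hm γ
    have h1 : γ ∈ Bf A' (vp (j + 1)) m := by
      rw [hB m hm]
      trivial
    rw [mem_Bf, hvps] at h1
    rw [mem_Bf, ← Ext.comp_assoc (a₁₂ := j + 1) (a₂₃ := m + 1) _ _ _ rfl (add_comm 1 m)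
      (by omega)]
    exact mem_cast A' _ _ _ _ h1
  -- elements of `Ext(1,Y)`
  have helt : ∀ n, Bf A' (vp 0) n = ⊤ → ∀ x : Ext.{w} (𝟙_ A) Y n, x ∈ A' n := by
    intro n hn x
    have h1 : pre κ₀.hom x ∈ Bf A' (vp 0) n := by
      rw [hn]
      trivial
    rw [mem_Bf] at h1
    have h2 := mem_cast A' _ _ _ (zero_add n) h1
    have h3 : (vp 0).comp (pre κ₀.hom x) (zero_add n) = x := by
      change pre κ₀.inv (pre κ₀.hom x) = x
      rw [pre_pre, κ₀.inv_hom_id, pre_id]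
    rwa [h3] at h2
  have main : ∀ n, ∀ m, m < n → Bf A' (vp 0) m = ⊤ := by
    intro n
    induction n with
    | zero => intro m hm; omega
    | succ n ih =>
      -- at `o`
      have htop : ∀ m, m < n → Bf A' (vp o) m = ⊤ := by
        intro m hm
        rw [eq_top_iff]
        intro x _
        rw [mem_Bf]
        have h1 : pre κ.inv x ∈ A' m := helt m (ih m hm) _
        have h2 := hV m _ rfl _ h1
        rw [post_comp, pre_pre, κ.hom_inv_id, pre_id] at h2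
        exact h2
      have hdown : ∀ t j, j + t = o → ∀ m, m < n → Bf A' (vp j) m = ⊤ := by
        intro t
        induction t with
        | zero =>
          intro j hj
          obtain rfl : j = o := hj
          exact htop
        | succ t iht =>
          intro j hj m hm
          exact hstep n j (by omega) (iht (j + 1) (by omega)) m hm.le
      intro m hm
      exact hstep n 0 ho (hdown (o - 1) 1 (by omega)) m (by omega)
  intro n
  rw [eq_top_iff]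
  intro x _
  exact helt n (main (n + 1) n (by omega)) x

end star

end Pool.Agent.MUG
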