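import Pool.Agent.MUG.C0
import Pool.Agent.MUG.C2
import Pool.Agent.MUG.C4
import Pool.Agent.MUG.E
import Pool.Agent.MUG.ExtSes
import Pool.Agent.MUG.SubExact

/-!
# Row P2: a non-split extension of an invertible object by the unit (helper1)
-/

open CategoryTheory MonoidalCategory Limits Abelian

universe w v u

set_option linter.unusedSectionVars false

namespace Pool.Agent.MUG

section Gen

variable {A : Type u} [Category.{v} A] [Abelian A] [HasExt.{w} A]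

theorem extClass_eq_zero_of_retraction {S : ShortComplex A} (hS : S.ShortExact)
    (r : S.X₂ ⟶ S.X₁) (hr : S.f ≫ r = 𝟙 S.X₁) : hS.extClass = 0 := by
  have h1 : hS.extClass.comp (Ext.mk₀ (𝟙 S.X₁)) (add_zero 1) = hS.extClass := Ext.comp_mk₀_id _
  rw [← h1, ← hr, ← Ext.mk₀_comp_mk₀, ← Ext.comp_assoc_of_third_deg_zero]
  rw [hS.extClass_comp, Ext.zero_comp]

theorem exists_section_of_ext {A₁ B₁ : A} (p : A₁ ⟶ B₁) (hp : Epi p)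
    (h : ∀ x : Ext B₁ (kernel p) 1, x = 0) : ∃ s : B₁ ⟶ A₁, s ≫ p = 𝟙 B₁ := by
  have hS : (ShortComplex.mk (kernel.ι p) p (kernel.condition p)).ShortExact :=
    { exact := ShortComplex.exact_kernel p
      mono_f := inferInstanceAs (Mono (kernel.ι p))
      epi_g := hp }
  obtain ⟨x, hx⟩ := Ext.covariant_sequence_exact₃ B₁ hS (Ext.mk₀ (𝟙 B₁)) (n₁ := 1) rfl (h _)
  obtain ⟨s, rfl⟩ := (Ext.mk₀_bijective _ _).2 x
  refine ⟨s, ?_⟩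
  rw [Ext.mk₀_comp_mk₀] at hx
  exact (Ext.mk₀_bijective _ _).1 hx

/-- If every extension of a simple object by a simple object splits, all `Ext¹` vanish. -/
theorem ext_one_eq_zero [EnoughProjectives A]
    (hA : ∀ X : A, IsArtinianObject X) (hN : ∀ X : A, IsNoetherianObject X)
    (hss : ∀ S : ShortComplex A, S.ShortExact → Simple S.X₁ → Simple S.X₃ →
      ∃ r : S.X₂ ⟶ S.X₁, S.f ≫ r = 𝟙 S.X₁) (X Y : A) (x : Ext X Y 1) : x = 0 := by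
  have h1 : ∀ T : A, Simple T → ∀ Y : A, ∀ x : Ext T Y 1, x = 0 := by
    intro T hT
    refine fl_induction hA hN _ ?_ ?_
    · intro Y hY x
      rw [← Ext.comp_mk₀_id x, hY.eq_of_src (𝟙 Y) 0, Ext.mk₀_zero, Ext.comp_zero]
    · intro S hS h1 h3 x
      have h4 : ∀ y : Ext T S.X₃ 1, y = 0 := by
        intro y
        obtain ⟨V, j, q, w, hV, rfl⟩ := exists_ses (fun X Y x => ext_factor 0 x) y
        obtain ⟨r, hr⟩ := hss _ hV h3 hT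
        exact extClass_eq_zero_of_retraction hV r hr
      obtain ⟨y, rfl⟩ := Ext.covariant_sequence_exact₂ T hS x (h4 _)
      rw [h1 y, Ext.zero_comp]
  revert x Y
  refine fl_induction hA hN (fun X => ∀ Y, ∀ x : Ext X Y 1, x = 0) ?_ ?_ X
  · intro X hX Y x
    rw [← Ext.mk₀_id_comp x, hX.eq_of_src (𝟙 X) 0, Ext.mk₀_zero, Ext.zero_comp]
  · intro S hS h2 h3 Y x
    obtain ⟨y, rfl⟩ := Ext.contravariant_sequence_exact₂ hS Y x (h2 Y _)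
    rw [h1 _ h3 Y y, Ext.comp_zero]

end Gen

section P2

variable {k : Type*} [Field k] {Z : Type u} [Category.{v} Z] [Abelian Z] [Linear k Z]
  [MonoidalCategory Z] [MonoidalPreadditive Z] [MonoidalLinear k Z] [RigidCategory Z]

/-- A retraction of `Sᘁ ◁ i` gives a retraction of `i : S ⟶ V`. -/
theorem retraction_of_dual {S V : Z} (i : S ⟶ V) (r : Sᘁ ⊗ V ⟶ Sᘁ ⊗ S)
    (hr : (Sᘁ ◁ i) ≫ r = 𝟙 _) : ∃ r' : V ⟶ S, i ≫ r' = 𝟙 S := by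
  refine ⟨(λ_ V).inv ≫ (η_ S (Sᘁ) ▷ V) ≫ (α_ S (Sᘁ) V).hom ≫ (S ◁ r) ≫ (S ◁ ε_ S (Sᘁ)) ≫
    (ρ_ S).hom, ?_⟩
  have h1 : (S ◁ (Sᘁ ◁ i)) ≫ (S ◁ r) = 𝟙 _ := by
    rw [← whiskerLeft_comp, hr, whiskerLeft_id]
  calc i ≫ (λ_ V).inv ≫ (η_ S (Sᘁ) ▷ V) ≫ (α_ S (Sᘁ) V).hom ≫ (S ◁ r) ≫ (S ◁ ε_ S (Sᘁ)) ≫
        (ρ_ S).hom
      = (λ_ S).inv ≫ (η_ S (Sᘁ) ▷ S) ≫ (α_ S (Sᘁ) S).hom ≫ ((S ◁ (Sᘁ ◁ i)) ≫ (S ◁ r)) ≫
        (S ◁ ε_ S (Sᘁ)) ≫ (ρ_ S).hom := by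
        simp only [Category.assoc]
        rw [leftUnitor_inv_naturality_assoc, whisker_exchange_assoc]
        simp
    _ = (λ_ S).inv ≫ ((η_ S (Sᘁ) ▷ S) ≫ (α_ S (Sᘁ) S).hom ≫ (S ◁ ε_ S (Sᘁ))) ≫
        (ρ_ S).hom := by
        rw [h1]; simp
    _ = 𝟙 S := by
        rw [ExactPairing.evaluation_coevaluation]; simp

/-- Row P2. -/
theorem exists_nonsplit (hZ : IsFinite k Z) (E : ObjectProperty Z) [hE : TensorSub E]
    (hinv : ∀ T, Simple T → E T → Invertible T)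
    (hns : ∃ (A B : Z) (p : A ⟶ B), E A ∧ E B ∧ Epi p ∧ ¬ ∃ s : B ⟶ A, s ≫ p = 𝟙 B) :
    ∃ (χ U : Z) (i : 𝟙_ Z ⟶ U) (p : U ⟶ χ) (w : i ≫ p = 0),
      E χ ∧ E U ∧ Invertible χ ∧ (ShortComplex.mk i p w).ShortExact ∧
        ¬ ∃ s : χ ⟶ U, s ≫ p = 𝟙 χ := by
  by_contra hcon
  have h1 : Simple (𝟙_ Z) := hZ.unit
  obtain ⟨A, B, p, hA, hB, hp, hnosec⟩ := hns
  apply hnosec
  have hfin := finite_sub hZ E
  have : EnoughProjectives E.FullSubcategory := hfin.enough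
  let : HasExt.{max u v} E.FullSubcategory := HasExt.standard _
  let p' : (⟨A, hA⟩ : E.FullSubcategory) ⟶ ⟨B, hB⟩ := ObjectProperty.homMk p
  have hp' : Epi p' := sub_epi_of E p' hp
  obtain ⟨s, hs⟩ := exists_section_of_ext p' hp' (fun x => by
    refine ext_one_eq_zero hfin.artinian hfin.noetherian ?_ _ _ x
    intro S hS hS1 hS3
    have hS' : (S.map E.ι).ShortExact := hS.map_of_exact E.ι
    have hs1 : Simple S.X₁.obj := (sub_simple_iff E _).1 hS1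
    have hs3 : Simple S.X₃.obj := (sub_simple_iff E _).1 hS3
    obtain ⟨Y, ⟨e⟩⟩ := hinv _ hs1 S.X₁.property
    have hev : IsIso (ε_ S.X₁.obj (S.X₁.objᘁ)) := C2.ev_iso e h1
    have hS'' : ((S.map E.ι).map (tensorLeft (S.X₁.objᘁ))).ShortExact :=
      hS'.map_of_exact (tensorLeft (S.X₁.objᘁ))
    let i₀ : S.X₁.objᘁ ⊗ S.X₁.obj ⟶ S.X₁.objᘁ ⊗ S.X₂.obj := S.X₁.objᘁ ◁ S.f.hom
    let p₀ : S.X₁.objᘁ ⊗ S.X₂.obj ⟶ S.X₁.objᘁ ⊗ S.X₃.obj := S.X₁.objᘁ ◁ S.g.hom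
    have w₀ : i₀ ≫ p₀ = 0 := ((S.map E.ι).map (tensorLeft (S.X₁.objᘁ))).zero
    have hS0 : (ShortComplex.mk i₀ p₀ w₀).ShortExact := hS''
    have w1 : (inv (ε_ S.X₁.obj (S.X₁.objᘁ)) ≫ i₀) ≫ p₀ = 0 := by
      rw [Category.assoc, w₀, comp_zero]
    have hS1' : (ShortComplex.mk (inv (ε_ S.X₁.obj (S.X₁.objᘁ)) ≫ i₀) p₀ w1).ShortExact := by
      refine ShortComplex.shortExact_of_iso ?_ hS0
      exact ShortComplex.isoMk (asIso (ε_ S.X₁.obj (S.X₁.objᘁ))) (Iso.refl _) (Iso.refl _)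
        (by simp) (by simp)
    have hsimp : Simple (S.X₁.objᘁ ⊗ S.X₃.obj) := by
      have e' : S.X₁.objᘁ ⊗ S.X₁.obj ≅ 𝟙_ Z := asIso (ε_ S.X₁.obj (S.X₁.objᘁ))
      exact C2.simple_tensor e' h1 S.X₃.obj
    have hEχ : E (S.X₁.objᘁ ⊗ S.X₃.obj) := hE.tensor (hE.rdual S.X₁.property) S.X₃.property
    have hEU : E (S.X₁.objᘁ ⊗ S.X₂.obj) := hE.tensor (hE.rdual S.X₁.property) S.X₂.property
    have hsec : ∃ s : S.X₁.objᘁ ⊗ S.X₃.obj ⟶ S.X₁.objᘁ ⊗ S.X₂.obj, s ≫ p₀ = 𝟙 _ := by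
      by_contra hno
      exact hcon ⟨_, _, _, p₀, w1, hEχ, hEU, hinv _ hsimp hEχ, hS1', hno⟩
    obtain ⟨s, hs⟩ := hsec
    have hm : Mono i₀ := hS0.mono_f
    let σ : (ShortComplex.mk i₀ p₀ w₀).Splitting :=
      ShortComplex.Splitting.ofExactOfSection _ hS0.exact s hs hm
    obtain ⟨r', hr'⟩ := retraction_of_dual S.f.hom σ.r σ.f_r
    refine ⟨ObjectProperty.homMk r', ?_⟩
    ext
    exact hr')
  refine ⟨s.hom, ?_⟩
  exact congrArg E.ι.map hs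

end P2

end Pool.Agent.MUG
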