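import Pool.Agent.MUG.P1
import Pool.Agent.MUG.B2
import Pool.Agent.MUG.B3
import Pool.Agent.MUG.B5
import Pool.Agent.MUG.SubExact

/-!
# Row P4: the Leibniz family on `D` produced by an extension in the centre (helper64)
-/

open CategoryTheory MonoidalCategory Limits Abelian

universe w v u

set_option linter.unusedSectionVars false

namespace Pool.Agent.MUG

section P4

variable {Z : Type u} [Category.{v} Z] [Abelian Z]
  [MonoidalCategory Z] [MonoidalPreadditive Z] [RigidCategory Z] [BraidedCategory Z]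

/-- `dbr` of a tensor product whose first factor commutes with the object. -/
theorem dbr_tensor_left {B X Y : Z} (h : Comm B Y) :
    dbr (B ⊗ X) Y = (α_ B X Y).hom ≫ (B ◁ dbr X Y) ≫ (α_ B X Y).inv := by
  have h' : (β_ B Y).hom ≫ (β_ Y B).hom = 𝟙 (B ⊗ Y) := h
  rw [dbr, B0.double_tensor, h', id_whiskerRight, Category.id_comp, Iso.inv_hom_id_assoc, dbr]
  have h1 : (B ◁ ((β_ X Y).hom ≫ (β_ Y X).hom - 𝟙 (X ⊗ Y))) =
      (B ◁ (β_ X Y).hom) ≫ (B ◁ (β_ Y X).hom) - 𝟙 (B ⊗ (X ⊗ Y)) := by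
    have := (tensorLeft B).map_sub (f := (β_ X Y).hom ≫ (β_ Y X).hom) (g := 𝟙 (X ⊗ Y))
    simpa using this
  rw [h1]
  simp only [Preadditive.comp_sub, Preadditive.sub_comp, Category.id_comp, Category.assoc,
    Iso.hom_inv_id]

/-- `dbr X U` from `dbr U X`. -/
theorem dbr_swap (X U : Z) : dbr X U = (β_ X U).hom ≫ dbr U X ≫ (β_ X U).inv := by
  simp [dbr]

/-- The double braiding of `X` with `U`. -/
theorem dbr_XU {χ U X : Z} (ι : 𝟙_ Z ⟶ U) (π : U ⟶ χ) (j : χ ⟶ X) (e : X ⟶ 𝟙_ Z)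
    (hd : dbr U X = (π ▷ X) ≫ ((χ ◁ e) ≫ (ρ_ χ).hom ≫ j) ≫ (λ_ X).inv ≫ (ι ▷ X)) :
    dbr X U = (e ▷ U) ≫ (λ_ U).hom ≫ π ≫ (ρ_ χ).inv ≫ (χ ◁ ι) ≫ (j ▷ U) := by
  rw [dbr_swap, hd]
  have e1 : (β_ X U).hom ≫ (π ▷ X) = (X ◁ π) ≫ (β_ X χ).hom :=
    (BraidedCategory.braiding_naturality_right X π).symm
  have e2 : (β_ X χ).hom ≫ (χ ◁ e) = (e ▷ χ) ≫ (β_ (𝟙_ Z) χ).hom :=
    (BraidedCategory.braiding_naturality_left e χ).symm
  have e3 : (ι ▷ X) ≫ (β_ X U).inv = (β_ X (𝟙_ Z)).inv ≫ (X ◁ ι) := by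
    rw [← cancel_epi (β_ X (𝟙_ Z)).hom, Iso.hom_inv_id_assoc, ← Category.assoc,
      ← BraidedCategory.braiding_naturality_right, Category.assoc, Iso.hom_inv_id,
      Category.comp_id]
  simp only [Category.assoc]
  rw [reassoc_of% e1, reassoc_of% e2, e3]
  have e4 : (β_ (𝟙_ Z) χ).hom ≫ (ρ_ χ).hom = (λ_ χ).hom := by simp
  have e5 : (λ_ X).inv ≫ (β_ X (𝟙_ Z)).inv = (ρ_ X).inv := by
    simp
  rw [reassoc_of% e4, reassoc_of% e5]
  have e6 : j ≫ (ρ_ X).inv ≫ (X ◁ ι) = (ρ_ χ).inv ≫ (χ ◁ ι) ≫ (j ▷ U) := by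
    rw [rightUnitor_inv_naturality_assoc, whisker_exchange]
  rw [e6]
  have e7 : (X ◁ π) ≫ (e ▷ χ) ≫ (λ_ χ).hom = (e ▷ U) ≫ (λ_ U).hom ≫ π := by
    rw [whisker_exchange_assoc, leftUnitor_naturality]
  rw [reassoc_of% e7]

/-- The double braiding of `β ⊗ X` with `U`. -/
theorem dbr_WU {χ U X B : Z} (ι : 𝟙_ Z ⟶ U) (π : U ⟶ χ) (j : χ ⟶ X) (e : X ⟶ 𝟙_ Z)
    (ψ : B ⊗ χ ≅ 𝟙_ Z) (hB : Comm B U)
    (hd : dbr U X = (π ▷ X) ≫ ((χ ◁ e) ≫ (ρ_ χ).hom ≫ j) ≫ (λ_ X).inv ≫ (ι ▷ X)) :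
    dbr (B ⊗ X) U = (((B ◁ e) ≫ (ρ_ B).hom) ▷ U) ≫ ((B ◁ π) ≫ ψ.hom ≫ ι) ≫ (λ_ U).inv ≫
      ((ψ.inv ≫ (B ◁ j)) ▷ U) := by
  rw [dbr_tensor_left hB, dbr_XU ι π j e hd]
  simp only [whiskerLeft_comp, comp_whiskerRight, Category.assoc]
  have e1 : (B ◁ (j ▷ U)) ≫ (α_ B X U).inv = (α_ B χ U).inv ≫ ((B ◁ j) ▷ U) :=
    associator_inv_naturality_middle B j U
  have e2 : (α_ B X U).hom ≫ (B ◁ (e ▷ U)) ≫ (B ◁ (λ_ U).hom) =
      ((B ◁ e) ▷ U) ≫ ((ρ_ B).hom ▷ U) := by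
    simp
  have e3 : (B ◁ (ρ_ χ).inv) ≫ (B ◁ (χ ◁ ι)) ≫ (α_ B χ U).inv =
      (ρ_ (B ⊗ χ)).inv ≫ ((B ⊗ χ) ◁ ι) := by
    simp
  have e4 : (ρ_ (B ⊗ χ)).inv ≫ ((B ⊗ χ) ◁ ι) = ψ.hom ≫ ι ≫ (λ_ U).inv ≫ (ψ.inv ▷ U) := by
    have e5 : ψ.hom ≫ ι ≫ (λ_ U).inv = (ρ_ (B ⊗ χ)).inv ≫ ((B ⊗ χ) ◁ ι) ≫ (ψ.hom ▷ U) := by
      rw [whisker_exchange, ← rightUnitor_inv_naturality_assoc, leftUnitor_inv_naturality,
        unitors_inv_equal]
    rw [reassoc_of% e5]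
    simp
  rw [e1, reassoc_of% e3, reassoc_of% e4, reassoc_of% e2]

end P4

section P4b

variable {k : Type*} [Field k] {Z : Type u} [Category.{v} Z] [Abelian Z] [Linear k Z]
  [MonoidalCategory Z] [MonoidalPreadditive Z] [MonoidalLinear k Z] [RigidCategory Z]
  [BraidedCategory Z]

/-- A short complex in a tensor subcategory is short exact if it is so in the category. -/
theorem shortExact_sub (D : ObjectProperty Z) [hD : TensorSub D] {A B E : D.FullSubcategory}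
    (f : A ⟶ B) (g : B ⟶ E) (w : f ≫ g = 0) (w' : f.hom ≫ g.hom = 0)
    (h : (ShortComplex.mk f.hom g.hom w').ShortExact) : (ShortComplex.mk f g w).ShortExact := by
  have hm : Mono f := sub_mono_of D f h.mono_f
  have he : Epi g := sub_epi_of D g h.epi_g
  have hex : ((ShortComplex.mk f g w).map D.ι).Exact := h.exact
  exact { exact := (ShortComplex.exact_map_iff_of_faithful (ShortComplex.mk f g w) D.ι).1 hex
          mono_f := hm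
          epi_g := he }

/-- Row P4: the data for one step of the induction. -/
theorem peel_data [IsAlgClosed k] [CharZero k] (hZ : IsFinite k Z) (D : ObjectProperty Z)
    [hD : TensorSub D] {χ U X : Z} (hχ : Invertible χ) (ι : 𝟙_ Z ⟶ U) (π : U ⟶ χ)
    (w : ι ≫ π = 0) (hU : (ShortComplex.mk ι π w).ShortExact) (hDU : D U)
    (hcU : centralizer D U) (j : χ ⟶ X) (e : X ⟶ 𝟙_ Z) (w' : j ≫ e = 0)
    (hX : (ShortComplex.mk j e w').ShortExact)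
    (hd : dbr U X = (π ▷ X) ≫ ((χ ◁ e) ≫ (ρ_ χ).hom ≫ j) ≫ (λ_ X).inv ≫ (ι ▷ X)) :
    ∃ (b : D.FullSubcategory) (L : Leib b) (U' : D.FullSubcategory) (j' : b ⟶ U')
      (e' : U' ⟶ 𝟙_ D.FullSubcategory) (w'' : j' ≫ e' = 0), Invertible b ∧ Transp b ∧
      (β_ b b).hom = - 𝟙 (b ⊗ b) ∧ L.SqZero ∧ L.Nonzero ∧
      (ShortComplex.mk j' e' w'').ShortExact ∧ L.d U' = (b ◁ e') ≫ (ρ_ b).hom ≫ j' ∧
      (∀ Y, L.d Y = 0 ↔ Comm X Y.obj) ∧ centralizer D U'.obj := by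
  have h1 : Simple (𝟙_ Z) := hZ.unit
  have hmι : Mono ι := hU.mono_f
  have heπ : Epi π := hU.epi_g
  have hmj : Mono j := hX.mono_f
  have hee : Epi e := hX.epi_g
  have hcD : TensorSub (centralizer D) := tensorSub_centralizer D
  have hDχ : D χ := hD.quot π hDU
  have hcχ : centralizer D χ := hcD.quot π hcU
  obtain ⟨χ', ⟨ε⟩⟩ := hχ
  let B : Z := χᘁ
  have hDB : D B := hD.rdual hDχ
  have hcB : centralizer D B := hcD.rdual hcχ
  let φ : χ ⊗ B ≅ 𝟙_ Z := C2.dualIso ε h1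
  let ψ : B ⊗ χ ≅ 𝟙_ Z := β_ B χ ≪≫ φ
  have hBinv : Invertible B := ⟨χ, ⟨ψ⟩⟩
  -- the extension `W`
  let i : 𝟙_ Z ⟶ B ⊗ X := ψ.inv ≫ (B ◁ j)
  let p : B ⊗ X ⟶ B := (B ◁ e) ≫ (ρ_ B).hom
  have wW : i ≫ p = 0 := by
    simp only [i, p, Category.assoc]
    rw [← whiskerLeft_comp_assoc, w', MonoidalPreadditive.whiskerLeft_zero, zero_comp, comp_zero]
  have hW : (ShortComplex.mk i p wW).ShortExact := by
    have h2 := hX.map_of_exact (tensorLeft B)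
    let i₀ : (ShortComplex.mk j e w').map (tensorLeft B) ≅ ShortComplex.mk i p wW :=
      ShortComplex.isoMk ψ (Iso.refl _) (ρ_ B) (by
        change ψ.hom ≫ ψ.inv ≫ (B ◁ j) = (B ◁ j) ≫ 𝟙 _
        simp) (by
        change 𝟙 _ ≫ (B ◁ e) ≫ (ρ_ B).hom = (B ◁ e) ≫ (ρ_ B).hom
        simp)
    exact ShortComplex.shortExact_of_iso i₀ h2
  have hmi : Mono i := hW.mono_f
  have hep : Epi p := hW.epi_g
  obtain ⟨L, hL⟩ := leib_of_ext D i p wW hW hDB hcB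
  -- the value on `U`
  have hLU : (L.d ⟨U, hDU⟩).hom = (B ◁ π) ≫ ψ.hom ≫ ι := by
    apply core_cancel i p
    rw [← hL ⟨U, hDU⟩]
    exact dbr_WU ι π j e ψ (hcB U hDU) hd
  have hZf := finite_sub hZ D
  have hb : Invertible (⟨B, hDB⟩ : D.FullSubcategory) := invertible_full hZ D hDB hBinv
  have ht : Transp (⟨B, hDB⟩ : D.FullSubcategory) := by
    intro Y
    ext
    exact hcB Y.obj Y.property
  have hne : L.Nonzero := by
    refine ⟨⟨U, hDU⟩, fun h => ?_⟩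
    have h2 : (B ◁ π) ≫ ψ.hom ≫ ι = 0 := by
      rw [← hLU, h]
      rfl
    have h3 : Epi ((B ◁ π) ≫ ψ.hom) := epi_comp _ _
    have h4 : ι = 0 := by
      rw [← cancel_epi ((B ◁ π) ≫ ψ.hom), Category.assoc, h2, comp_zero]
    exact id_nonzero (𝟙_ Z) (by rw [← cancel_mono ι, h4, comp_zero, comp_zero])
  have hc : (β_ (⟨B, hDB⟩ : D.FullSubcategory) ⟨B, hDB⟩).hom = - 𝟙 _ := by
    rcases braiding_sign hZf hb ht with h | h
    · obtain ⟨Y, hY⟩ := hne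
      exact absurd (prim hZf hb ht L h Y) hY
    · exact h
  have hsq : L.SqZero := sqZero hZf hb ht L hc
  have hlb := leib_b hZf hb L hsq hc
  -- the object `U'`
  let U' : D.FullSubcategory := (⟨B, hDB⟩ : D.FullSubcategory) ⊗ ⟨U, hDU⟩
  let e₀ : B ⊗ U ⟶ 𝟙_ Z := (B ◁ π) ≫ ψ.hom
  let j₀ : B ⟶ B ⊗ U := - ((ρ_ B).inv ≫ (B ◁ ι))
  have w₀ : j₀ ≫ e₀ = 0 := by
    simp only [j₀, e₀, Preadditive.neg_comp, Category.assoc]
    rw [← whiskerLeft_comp_assoc, w, MonoidalPreadditive.whiskerLeft_zero, zero_comp, comp_zero,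
      neg_zero]
  have hS₀ : (ShortComplex.mk j₀ e₀ w₀).ShortExact := by
    have h2 := hU.map_of_exact (tensorLeft B)
    let ng : B ≅ B := { hom := - 𝟙 B, inv := - 𝟙 B, hom_inv_id := by simp, inv_hom_id := by simp }
    let i₀ : (ShortComplex.mk ι π w).map (tensorLeft B) ≅ ShortComplex.mk j₀ e₀ w₀ :=
      ShortComplex.isoMk (ρ_ B ≪≫ ng) (Iso.refl _) ψ (by
        change ((ρ_ B).hom ≫ (- 𝟙 B)) ≫ (- ((ρ_ B).inv ≫ (B ◁ ι))) = (B ◁ ι) ≫ 𝟙 _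
        simp) (by
        change 𝟙 _ ≫ (B ◁ π) ≫ ψ.hom = (B ◁ π) ≫ ψ.hom
        simp)
    exact ShortComplex.shortExact_of_iso i₀ h2
  let j' : (⟨B, hDB⟩ : D.FullSubcategory) ⟶ U' := ObjectProperty.homMk j₀
  let e' : U' ⟶ 𝟙_ D.FullSubcategory := ObjectProperty.homMk e₀
  have w'' : j' ≫ e' = 0 := by
    ext
    exact w₀
  refine ⟨⟨B, hDB⟩, L, U', j', e', w'', hb, ht, hc, hsq, hne, ?_, ?_, ?_, ?_⟩
  · exact shortExact_sub D j' e' w'' w₀ hS₀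
  · rw [hlb]
    ext
    change - (B ◁ (L.d ⟨U, hDU⟩).hom) = (B ◁ e₀) ≫ (ρ_ B).hom ≫ j₀
    rw [hLU]
    simp [e₀, j₀]
  · intro Y
    rw [leib_eq_zero_iff D i p hmi hep hDB L hL Y]
    constructor
    · intro h
      have S := tensorSub_centralizer (fun X : Z => X = Y.obj)
      have h3 : centralizer (fun X : Z => X = Y.obj) (χ ⊗ (B ⊗ X)) := by
        rintro _ rfl
        exact B0.comm_tensor (hcχ Y.obj Y.property) h
      have e5 : X ≅ χ ⊗ (B ⊗ X) :=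
        (λ_ X).symm ≪≫ whiskerRightIso φ.symm X ≪≫ α_ _ _ _
      exact S.sub e5.hom h3 Y.obj rfl
    · intro h
      exact B0.comm_tensor (hcB Y.obj Y.property) h
  · exact hcD.tensor hcB hcU

end P4b

end Pool.Agent.MUG
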