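import Pool.Agent.MUG.P4
import Pool.Agent.MUG.B9
import Pool.Agent.MUG.Q4a

/-!
# Row P5: the centre of the degenerate part (helper64)
-/

open CategoryTheory MonoidalCategory Limits Abelian

universe w v u

set_option linter.unusedSectionVars false

namespace Pool.Agent.MUG

section P5

variable {k : Type*} [Field k] {C : Type u} [Category.{v} C] [Abelian C] [Linear k C]
  [MonoidalCategory C] [MonoidalPreadditive C] [MonoidalLinear k C] [RigidCategory C]
  [BraidedCategory C]

/-- Nakayama: a morphism whose image together with the image of `d` is everything is an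
epimorphism. -/
theorem epi_of_nakayama {b : C} (L : Leib b) (hsq : L.SqZero) {Q P : C} (f : Q ⟶ P)
    (h : Epi (f ≫ cokernel.π (L.d P))) : Epi f := by
  -- `b ⊗ P ⟶ P ⟶ coker f` is an epimorphism
  have h1 : Epi (L.d P ≫ cokernel.π f) := by
    refine Preadditive.epi_of_cancel_zero _ (fun {T} g hg => ?_)
    rw [Category.assoc] at hg
    -- `cokernel.π f ≫ g` factors through the cokernel of `d`
    have h2 : cokernel.π (L.d P) ≫ cokernel.desc (L.d P) (cokernel.π f ≫ g) hg =
        cokernel.π f ≫ g := cokernel.π_desc _ _ _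
    have h3 : cokernel.desc (L.d P) (cokernel.π f ≫ g) hg = 0 := by
      rw [← cancel_epi (f ≫ cokernel.π (L.d P)), comp_zero, Category.assoc, h2,
        cokernel.condition_assoc, zero_comp]
    rw [h3, comp_zero] at h2
    rw [← cancel_epi (cokernel.π f), ← h2, comp_zero]
  have h4 : (b ◁ cokernel.π f) ≫ L.d (cokernel f) = L.d P ≫ cokernel.π f := L.nat _
  have h5 : Epi (L.d (cokernel f)) := by
    have : Epi ((b ◁ cokernel.π f) ≫ L.d (cokernel f)) := by rw [h4]; exact h1
    exact epi_of_epi (b ◁ cokernel.π f) _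
  have h6 : Epi (b ◁ L.d (cokernel f)) := b6_epi_left b _
  have h7 : L.d (cokernel f) = 0 := by
    rw [← cancel_epi (b ◁ L.d (cokernel f)), hsq, comp_zero]
  have h8 : cokernel.π f = 0 := by
    have h9 : L.d P ≫ cokernel.π f = 0 := by rw [← h4, h7, comp_zero]
    have h10 : (𝟙 (cokernel f)) = 0 := by
      rw [← cancel_epi (L.d P ≫ cokernel.π f), h9, zero_comp, zero_comp]
    rw [← Category.comp_id (cokernel.π f), h10, comp_zero]
  exact Abelian.epi_of_cokernel_π_eq_zero f h8

/-- Every projective object `P` is a quotient of `U ⊗ P/dP`. -/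
theorem exists_epi_tensor {b : C} (L : Leib b) (hsq : L.SqZero) {U : C} (j : b ⟶ U)
    (e : U ⟶ 𝟙_ C) (w : j ≫ e = 0) (hS : (ShortComplex.mk j e w).ShortExact)
    (hd : L.d U = (b ◁ e) ≫ (ρ_ b).hom ≫ j) (P : C) [Projective P] :
    ∃ f : U ⊗ cokernel (L.d P) ⟶ P, Epi f := by
  have he : Epi e := hS.epi_g
  have hproj : Projective (U ⊗ cokernel (L.d P)) := projective_tensor L hsq j e w hS hd P
  have h1 : Epi ((e ▷ cokernel (L.d P)) ≫ (λ_ (cokernel (L.d P))).hom) := epi_comp _ _
  let f : U ⊗ cokernel (L.d P) ⟶ P := Projective.factorThru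
    ((e ▷ cokernel (L.d P)) ≫ (λ_ (cokernel (L.d P))).hom) (cokernel.π (L.d P))
  have hf : f ≫ cokernel.π (L.d P) = (e ▷ cokernel (L.d P)) ≫ (λ_ (cokernel (L.d P))).hom :=
    Projective.factorThru_comp _ _
  refine ⟨f, epi_of_nakayama L hsq f ?_⟩
  rw [hf]
  exact h1

end P5

section P5b

variable {k : Type*} [Field k] {Z : Type u} [Category.{v} Z] [Abelian Z] [Linear k Z]
  [MonoidalCategory Z] [MonoidalPreadditive Z] [MonoidalLinear k Z] [RigidCategory Z]
  [BraidedCategory Z]

/-- Row P5: the Mueger centre of the degenerate part lies in the Mueger centre of `D`. -/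
theorem peel_centre (hZ : IsFinite k Z) (D : ObjectProperty Z) [hD : TensorSub D]
    {b : D.FullSubcategory} (L : Leib b) (hsq : L.SqZero) {U : D.FullSubcategory} (j : b ⟶ U)
    (e : U ⟶ 𝟙_ D.FullSubcategory) (w : j ≫ e = 0) (hS : (ShortComplex.mk j e w).ShortExact)
    (hd : L.d U = (b ◁ e) ≫ (ρ_ b).hom ≫ j) (hU : centralizer D U.obj) (X : Z)
    (hX : ∀ Y : D.FullSubcategory, L.d Y = 0 ↔ Comm X Y.obj) :
    (D ⊓ centralizer (fun Y => Y = X)) ⊓ centralizer (D ⊓ centralizer (fun Y => Y = X)) ≤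
      D ⊓ centralizer D := by
  rintro Y ⟨⟨hDY, -⟩, hY⟩
  refine ⟨hDY, fun V hV => ?_⟩
  have hen := sub_enough hZ D
  let V' : D.FullSubcategory := ⟨V, hV⟩
  let P : D.FullSubcategory := Projective.over V'
  obtain ⟨f, hf⟩ := exists_epi_tensor L hsq j e w hS hd P
  have hg : Epi (f ≫ Projective.π V') := epi_comp _ _
  have hg' : Epi (f ≫ Projective.π V').hom := sub_epi_hom D _
  have hC := tensorSub_centralizer (fun T : Z => T = Y)
  have h1 : centralizer (fun T : Z => T = Y) U.obj := by
    rintro _ rfl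
    exact hU _ hDY
  have h2 : centralizer (fun T : Z => T = Y) (cokernel (L.d P)).obj := by
    rintro _ rfl
    have h3 : (D ⊓ centralizer (fun Y => Y = X)) (cokernel (L.d P)).obj := by
      refine ⟨(cokernel (L.d P)).property, ?_⟩
      rintro _ rfl
      exact comm_symm ((hX _).1 (b6_coker L P))
    exact comm_symm (hY _ h3)
  have h4 : centralizer (fun T : Z => T = Y) V := hC.quot (f ≫ Projective.π V').hom (hC.tensor h1 h2)
  exact comm_symm (h4 Y rfl)

end P5b

end Pool.Agent.MUG
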