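import Pool.Agent.MUG.TT
import Pool.Agent.MUG.EE
import Pool.Agent.MUG.CF

/-!
# Row PI: a loop with transparent image (helper31)

In every braided finite tensor category there are an object `M`, a loop `ℓ` on `M` and an object
`X` with `ℓ.map X ≠ 0`, such that all `ℓ.map Y` are compatible with the double braidings.
-/

open CategoryTheory MonoidalCategory Limits Abelian

universe w v u

namespace Pool.Agent.MUG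

set_option linter.unusedSectionVars false
set_option backward.isDefEq.respectTransparency.types false

namespace PI

section Monoidal

variable {C : Type u} [Category.{v} C] [Abelian C] [MonoidalCategory C] [MonoidalPreadditive C]
  [RigidCategory C] [BraidedCategory C]

/-- The loop of `Q` around `J X ⊗ K W` is the double braiding of `Q` with `X`. -/
theorem mC_jk (Q X W : C) :
    Gen.mC Q (jObj X ⊗ kObj W) = (α_ Q X W).inv ≫ (c2 Q X ▷ W) ≫ (α_ Q X W).hom := by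
  have h1 : ((jObj X ⊗ kObj W).2.β Q).hom = (α_ X W Q).hom ≫ X ◁ (β_ Q W).inv ≫
      (α_ X Q W).inv ≫ (β_ X Q).hom ▷ W ≫ (α_ Q X W).hom := by
    change ((Center.tensorObj (jObj X) (kObj W)).2.β Q).hom = _
    simp [Center.tensorObj, kObj_beta, jObj_beta]
    rfl
  unfold Gen.mC
  rw [h1]
  change (β_ Q (X ⊗ W)).hom ≫ _ = _
  unfold c2
  simp
  rfl

/-- The mate of a morphism to `X ⊗ X*`. -/
def un {M X : C} (f : M ⟶ X ⊗ Xᘁ) : M ⊗ X ⟶ X :=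
  (f ▷ X) ≫ (α_ X (Xᘁ) X).hom ≫ (X ◁ ε_ X (Xᘁ)) ≫ (ρ_ X).hom

theorem un_comp {M M' X : C} (g : M' ⟶ M) (f : M ⟶ X ⊗ Xᘁ) : un (g ≫ f) = (g ▷ X) ≫ un f := by
  unfold un
  rw [comp_whiskerRight, Category.assoc]

theorem un_eq {M X : C} (f : M ⟶ X ⊗ Xᘁ) :
    un f = (tensorRightHomEquiv M X (Xᘁ) X).symm f := rfl

theorem un_inj {M X : C} {f g : M ⟶ X ⊗ Xᘁ} (h : un f = un g) : f = g := by
  rw [un_eq, un_eq] at h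
  exact (tensorRightHomEquiv M X (Xᘁ) X).symm.injective h

theorem un_zero {M X : C} : un (0 : M ⟶ X ⊗ Xᘁ) = 0 := by
  unfold un
  rw [MonoidalPreadditive.zero_whiskerRight, zero_comp]

/-- The universal translate of `η_X`. -/
noncomputable def bX (Q X : C) : Qᘁ ⊗ (Q ⊗ 𝟙_ C) ⟶ X ⊗ Xᘁ :=
  Gen.bC Q (jObj X ⊗ kObj (Xᘁ)) (Y := 𝟙_ C) (η_ X (Xᘁ))

/-- The loop of `Q` with `ε` on `X` is the mate of the universal translate of `η_X`. -/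
theorem un_bX (Q X : C) : un ((Qᘁ ◁ (ρ_ Q).inv) ≫ bX Q X) =
      lcore (Qᘁ) Q X ≫ (ε_ Q (Qᘁ) ▷ X) ≫ (λ_ X).hom := by
  rw [un_eq, Equiv.symm_apply_eq]
  unfold bX Gen.bC
  rw [mC_jk]
  unfold lcore
  change (Qᘁ ◁ (ρ_ Q).inv) ≫ (Qᘁ ◁ ((Q ◁ η_ X (Xᘁ)) ≫
    ((α_ Q X (Xᘁ)).inv ≫ (c2 Q X ▷ Xᘁ) ≫ (α_ Q X (Xᘁ)).hom))) ≫
    (α_ (Qᘁ) Q (X ⊗ Xᘁ)).inv ≫ (ε_ Q (Qᘁ) ▷ (X ⊗ Xᘁ)) ≫ (λ_ (X ⊗ Xᘁ)).hom =
    (ρ_ (Qᘁ ⊗ Q)).inv ≫ ((Qᘁ ⊗ Q) ◁ η_ X (Xᘁ)) ≫ (α_ (Qᘁ ⊗ Q) X (Xᘁ)).inv ≫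
      ((((α_ (Qᘁ) Q X).hom ≫ (Qᘁ ◁ c2 Q X) ≫ (α_ (Qᘁ) Q X).inv) ≫ (ε_ Q (Qᘁ) ▷ X) ≫
        (λ_ X).hom) ▷ Xᘁ)
  generalize c2 Q X = c
  monoidal

end Monoidal

section Loop

variable {k : Type*} [Field k] {C : Type u} [Category.{v} C] [Abelian C] [Linear k C]
  [MonoidalCategory C] [MonoidalPreadditive C] [MonoidalLinear k C] [RigidCategory C]
  [BraidedCategory C]

/-- A morphism `K M₀ ⟶ G`, `G` generated by `η_X` inside `J X ⊗ K X*`, gives a loop. -/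
theorem loop_of_hom {Q X M₀ : C} {G : Center C} (i : G ⟶ jObj X ⊗ kObj (Xᘁ)) (hi : Mono i.f)
    (y : 𝟙_ C ⟶ G.1) (hy : y ≫ i.f = η_ X (Xᘁ)) (hG : Epi (Gen.bC Q G y))
    (κ : kObj M₀ ⟶ G) (hκ : κ.f ≠ 0) :
    ∃ (M : C) (ℓ : LoopData M), ℓ.map X ≠ 0 ∧ ∀ U : C, (U ◁ ℓ.map X) ≫ c2 U X = U ◁ ℓ.map X := by
  let b : Qᘁ ⊗ (Q ⊗ 𝟙_ C) ⟶ G.1 := Gen.bC Q G y
  have hb : Epi b := hG
  let κ₀ : M₀ ⟶ G.1 := κ.f
  let M : C := pullback κ₀ b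
  let p : M ⟶ M₀ := pullback.fst κ₀ b
  let t₀ : M ⟶ Qᘁ ⊗ (Q ⊗ 𝟙_ C) := pullback.snd κ₀ b
  have hp : Epi p := inferInstance
  have hpt : p ≫ κ₀ = t₀ ≫ b := pullback.condition
  let ℓ : LoopData M := ⟨Qᘁ, Q, t₀ ≫ (Qᘁ ◁ (ρ_ Q).hom), ε_ Q (Qᘁ)⟩
  let i₀ : G.1 ⟶ X ⊗ Xᘁ := i.f
  have hi₀ : Mono i₀ := hi
  have hbi : b ≫ i₀ = bX Q X := by
    have h1 := Gen.bC_comp (Q := Q) y i
    rw [hy] at h1
    exact h1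
  have hmap : ℓ.map X = (p ▷ X) ≫ un (κ₀ ≫ i₀) := by
    have h1 : ℓ.map X = ((t₀ ≫ (Qᘁ ◁ (ρ_ Q).hom)) ▷ X) ≫
        (lcore (Qᘁ) Q X ≫ (ε_ Q (Qᘁ) ▷ X) ≫ (λ_ X).hom) := rfl
    have h2 : (t₀ ≫ (Qᘁ ◁ (ρ_ Q).hom)) ≫ (Qᘁ ◁ (ρ_ Q).inv) ≫ bX Q X = p ≫ (κ₀ ≫ i₀) := by
      rw [← hbi, Category.assoc, ← Category.assoc (Qᘁ ◁ (ρ_ Q).hom), ← whiskerLeft_comp,
        Iso.hom_inv_id, whiskerLeft_id, Category.id_comp]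
      exact ((Category.assoc _ _ _).symm.trans (congrArg (fun g => g ≫ i₀) hpt.symm)).trans
        (Category.assoc _ _ _)
    rw [h1, ← un_bX]
    exact (un_comp _ _).symm.trans ((congrArg (fun g => un g) h2).trans (un_comp _ _))
  -- `un (κ₀ ≫ i₀)` is a morphism of the centre
  let f : kObj (M₀ ⊗ X) ⟶ jObj X := (kTensor M₀ X).inv ≫ ((κ ≫ i) ▷ kObj X) ≫
    (α_ _ _ _).hom ≫ (jObj X ◁ ((kTensor (Xᘁ) X).hom ≫ kMap (ε_ X (Xᘁ)) ≫ kUnit.inv)) ≫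
      (ρ_ _).hom
  have hf : f.f = un (κ₀ ≫ i₀) := by
    change 𝟙 _ ≫ ((κ₀ ≫ i₀) ▷ X) ≫ (α_ X (Xᘁ) X).hom ≫ (X ◁ (𝟙 _ ≫ ε_ X (Xᘁ) ≫ 𝟙 _)) ≫
      (ρ_ X).hom = _
    rw [Category.id_comp, Category.id_comp, Category.comp_id]
    rfl
  refine ⟨M, ℓ, ?_, ?_⟩
  · intro h0
    rw [hmap] at h0
    have : Epi (p ▷ X) := inferInstanceAs (Epi ((tensorRight X).map p))
    have h1 : un (κ₀ ≫ i₀) = 0 := by
      rw [← cancel_epi (p ▷ X), h0, comp_zero]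
    have h2 : κ₀ ≫ i₀ = 0 := by
      apply un_inj
      rw [h1, un_zero]
    apply hκ
    change κ₀ = 0
    rw [← cancel_mono i₀, h2, zero_comp]
  · intro U
    have h1 := kj_hom_comm f U
    rw [hf] at h1
    rw [hmap]
    have h2 : ∀ g : M₀ ⊗ X ⟶ X, g ▷ U ≫ (β_ X U).hom = (β_ U (M₀ ⊗ X)).inv ≫ U ◁ g →
        (U ◁ ((p ▷ X) ≫ g)) ≫ c2 U X = U ◁ ((p ▷ X) ≫ g) := by
      intro g hg
      unfold c2
      rw [whiskerLeft_comp, Category.assoc, BraidedCategory.braiding_naturality_right_assoc, hg,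
        Iso.hom_inv_id_assoc]
    exact h2 _ h1

/-- Morphisms out of an object generated by `y` factor through a subobject containing the image
of `y`. -/
theorem exists_lift {Q : C} {G N S : Center C} {y : 𝟙_ C ⟶ G.1} (hG : Epi (Gen.bC Q G y))
    (g : G ⟶ N) (s : S ⟶ N) (hs : Mono s) (z : 𝟙_ C ⟶ S.1) (h : y ≫ g.f = z ≫ s.f) :
    ∃ ψ : G ⟶ S, ψ ≫ s = g := by
  have h1 : (g ≫ cokernel.π s).f = 0 := by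
    apply Gen.gen_ext hG
    have h2 : s.f ≫ (cokernel.π s).f = 0 := congrArg (fun f => f.f) (cokernel.condition s)
    calc y ≫ (g ≫ cokernel.π s).f = (y ≫ g.f) ≫ (cokernel.π s).f :=
          (Category.assoc _ _ _).symm
      _ = z ≫ (s.f ≫ (cokernel.π s).f) := by rw [h, Category.assoc]
      _ = 0 := by rw [h2, comp_zero]
  have h3 : g ≫ cokernel.π s = 0 := Center.ext _ _ h1
  let F := monoIsKernelOfCokernel (CokernelCofork.ofπ (cokernel.π s) (cokernel.condition s))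
    (cokernelIsCokernel s)
  exact ⟨F.lift (KernelFork.ofι g h3), F.fac (KernelFork.ofι g h3) WalkingParallelPair.zero⟩

theorem lk_zero {X : C} (hX : ∀ {V W : C} (g : V ⟶ W), (∀ f : X ⟶ V, f ≫ g = 0) → g = 0)
    {V Y W : C} (F : V ⊗ Y ⟶ W) (h : ∀ f : X ⟶ Y, (V ◁ f) ≫ F = 0) : F = 0 := by
  have h0 : ∀ {Y : C}, (tensorLeftHomEquiv Y (ᘁV) V W).symm 0 = 0 := by
    intro Y
    change (V ◁ (0 : Y ⟶ (ᘁV) ⊗ W)) ≫ _ = 0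
    rw [MonoidalPreadditive.whiskerLeft_zero, zero_comp]
  have h1 : tensorLeftHomEquiv Y (ᘁV) V W F = 0 := by
    refine hX _ fun f => ?_
    apply (tensorLeftHomEquiv X (ᘁV) V W).symm.injective
    rw [tensorLeftHomEquiv_symm_naturality, Equiv.symm_apply_apply, h f, h0]
  apply (tensorLeftHomEquiv Y (ᘁV) V W).injective
  rw [h1]
  apply (tensorLeftHomEquiv Y (ᘁV) V W).symm.injective
  rw [h0, Equiv.symm_apply_apply]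

theorem mate_ne_zero {A T : C} {m : 𝟙_ C ⟶ A ⊗ T} (hm : m ≠ 0) :
    (λ_ (ᘁT)).inv ≫ (m ▷ (ᘁT)) ≫ (α_ A T (ᘁT)).hom ≫ (A ◁ ε_ (ᘁT) T) ≫ (ρ_ A).hom ≠ 0 := by
  intro h0
  apply hm
  apply (tensorRightHomEquiv (𝟙_ C) (ᘁT) T A).symm.injective
  have h2 : (tensorRightHomEquiv (𝟙_ C) (ᘁT) T A).symm 0 = 0 := by
    change ((0 : 𝟙_ C ⟶ A ⊗ T) ▷ (ᘁT)) ≫ _ = 0
    rw [MonoidalPreadditive.zero_whiskerRight, zero_comp]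
  rw [h2, ← cancel_epi (λ_ (ᘁT)).inv, comp_zero]
  exact h0

/-- Transparency of the action on a separator gives transparency on all objects. -/
theorem tr_all {X : C} (hX : ∀ {V W : C} (g : V ⟶ W), (∀ f : X ⟶ V, f ≫ g = 0) → g = 0)
    {M : C} (ℓ : LoopData M) (U : C) (h : (U ◁ ℓ.map X) ≫ c2 U X = U ◁ ℓ.map X) (Y : C) :
    (U ◁ ℓ.map Y) ≫ c2 U Y = U ◁ ℓ.map Y := by
  rw [← LoopData.tr_map_eq_zero_iff] at h ⊢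
  refine lk_zero hX _ fun f => ?_
  rw [(ℓ.tr U).nat f, h, zero_comp]

/-- **Proposition (I).** Every braided finite tensor category has a loop which acts nontrivially
on some object, and all whose actions are compatible with the double braidings. -/
theorem exists_loop (hC : IsFinite k C) :
    ∃ (M X : C) (ℓ : LoopData M), ℓ.map X ≠ 0 ∧
      ∀ U Y : C, (U ◁ ℓ.map Y) ≫ c2 U Y = U ◁ ℓ.map Y := by
  obtain ⟨I, j, hI, hj⟩ := ee_unit hC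
  obtain ⟨P, P', g, -, -, hg⟩ := ee_sub hC hI.1
  obtain ⟨Q, -, hQ⟩ := Gen.exists_separator hC.finCat
  let X : C := P' ⊞ Q
  have hX : ∀ {V W : C} (g : V ⟶ W), (∀ f : X ⟶ V, f ≫ g = 0) → g = 0 := by
    intro V W g hg
    refine hQ g fun f => ?_
    rw [← cancel_epi (biprod.snd : P' ⊞ Q ⟶ Q), ← Category.assoc, hg, comp_zero]
  let T : C := I.1
  let i₁ : I ⟶ jObj X ⊗ kObj P :=
    g ≫ (β_ (kObj P) (jObj P')).hom ≫ (jMap (biprod.inl : P' ⟶ P' ⊞ Q) ▷ kObj P)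
  have hi₁ : Mono i₁ := mono_comp _ _
  let S : Center C := I ⊗ kObj (Tᘁ)
  let s : S ⟶ jObj X ⊗ kObj (P ⊗ Tᘁ) :=
    (i₁ ▷ kObj (Tᘁ)) ≫ (α_ _ _ _).hom ≫ (jObj X ◁ (kTensor P (Tᘁ)).hom)
  have hs : Mono s := mono_comp _ _
  have hsf : Mono s.f := cen_mono_f s
  let z : 𝟙_ C ⟶ T ⊗ Tᘁ := η_ T (Tᘁ)
  let v : 𝟙_ C ⟶ X ⊗ (P ⊗ Tᘁ) := z ≫ s.f
  let w : Xᘁ ⟶ P ⊗ Tᘁ :=
    (ρ_ (Xᘁ)).inv ≫ (tensorLeftHomEquiv (𝟙_ C) X (Xᘁ) (P ⊗ Tᘁ)).symm v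
  have hw : η_ X (Xᘁ) ≫ (X ◁ w) = v := by
    have h1 := (tensorLeftHomEquiv (𝟙_ C) X (Xᘁ) (P ⊗ Tᘁ)).apply_symm_apply v
    have h2 : ∀ f : Xᘁ ⊗ 𝟙_ C ⟶ P ⊗ Tᘁ, tensorLeftHomEquiv (𝟙_ C) X (Xᘁ) (P ⊗ Tᘁ) f =
        η_ X (Xᘁ) ≫ (X ◁ ((ρ_ (Xᘁ)).inv ≫ f)) := by
      intro f
      change (λ_ (𝟙_ C)).inv ≫ (η_ X (Xᘁ) ▷ 𝟙_ C) ≫ (α_ _ _ _).hom ≫ (X ◁ f) = _
      monoidal
    rw [h2] at h1
    exact h1
  let φ : jObj X ⊗ kObj (Xᘁ) ⟶ jObj X ⊗ kObj (P ⊗ Tᘁ) := jObj X ◁ kMap w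
  obtain ⟨G, i, y, hi, hy, hG⟩ := Gen.exists_gen hC.finCat hQ (jObj X ⊗ kObj (Xᘁ))
    (Y := 𝟙_ C) (η_ X (Xᘁ))
  have hφ : y ≫ (i ≫ φ).f = z ≫ s.f := by
    have h1 : y ≫ (i ≫ φ).f = (y ≫ i.f) ≫ φ.f := (Category.assoc _ _ _).symm
    rw [h1, hy]
    exact hw
  obtain ⟨ψ, hψ⟩ := exists_lift hG (i ≫ φ) s hs z hφ
  have hyψ : y ≫ ψ.f = z := by
    rw [← cancel_mono s.f]
    have h1 : ψ.f ≫ s.f = (i ≫ φ).f := congrArg (fun f => f.f) hψ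
    calc (y ≫ ψ.f) ≫ s.f = y ≫ (ψ.f ≫ s.f) := Category.assoc _ _ _
      _ = z ≫ s.f := by rw [h1, hφ]
  let evT : kObj (Tᘁ) ⊗ kObj T ⟶ 𝟙_ (Center C) :=
    (kTensor (Tᘁ) T).hom ≫ kMap (ε_ T (Tᘁ)) ≫ kUnit.inv
  let ψ' : G ⊗ kObj T ⟶ I := (ψ ▷ kObj T) ≫ (α_ _ _ _).hom ≫ (I ◁ evT) ≫ (ρ_ I).hom
  have hψ' : (y ▷ T) ≫ ψ'.f = (λ_ T).hom := by
    have h1 : ψ'.f = (ψ.f ▷ T) ≫ (α_ T (Tᘁ) T).hom ≫ (T ◁ ε_ T (Tᘁ)) ≫ (ρ_ T).hom := by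
      change (ψ.f ▷ T) ≫ (α_ T (Tᘁ) T).hom ≫ (T ◁ (𝟙 _ ≫ ε_ T (Tᘁ) ≫ 𝟙 _)) ≫ (ρ_ T).hom = _
      rw [Category.id_comp, Category.comp_id]
    have h2 : ∀ (A : C) (y : 𝟙_ C ⟶ A) (q : A ⟶ T ⊗ Tᘁ), y ≫ q = η_ T (Tᘁ) →
        (y ▷ T) ≫ (q ▷ T) ≫ (α_ T (Tᘁ) T).hom ≫ (T ◁ ε_ T (Tᘁ)) ≫ (ρ_ T).hom =
          (λ_ T).hom := by
      intro A y q h
      rw [← comp_whiskerRight_assoc, h, ExactPairing.evaluation_coevaluation_assoc,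
        Iso.inv_hom_id, Category.comp_id]
    rw [h1]
    exact h2 _ _ _ hyψ
  have hψ'f : Epi ψ'.f := by
    have : Epi ((y ▷ T) ≫ ψ'.f) := by
      rw [hψ']
      infer_instance
    exact epi_of_epi (y ▷ T) ψ'.f
  have hψ'e : Epi ψ' := cen_epi_of ψ' hψ'f
  have hGm : Mono i := cen_mono_of i hi
  have hGG : gProp G := (tensorSub_gProp (C := C)).sub i
    ((tensorSub_gProp (C := C)).tensor (gProp_jObj X) (gProp_kObj (Xᘁ)))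
  obtain ⟨σ, hσ⟩ := hI.2 ψ' hψ'e ((tensorSub_gProp (C := C)).tensor hGG (gProp_kObj T)) hI.1
    (𝟙 I)
  let m : 𝟙_ (Center C) ⟶ G ⊗ kObj T := j ≫ σ
  have hm : m.f ≠ 0 := by
    intro h0
    have h1 : m = 0 := Center.ext _ _ h0
    have h2 : j = 0 := by
      have h3 : m ≫ ψ' = j := by
        change (j ≫ σ) ≫ ψ' = j
        rw [Category.assoc, hσ, Category.comp_id]
      rw [← h3, h1, zero_comp]
    have h4 : 𝟙 (𝟙_ (Center C)) = 0 := by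
      rw [← cancel_mono j, h2, comp_zero, comp_zero]
    have := (center_isFinite hC).unit
    exact id_nonzero (𝟙_ (Center C)) h4
  let κ : kObj (ᘁT) ⟶ G := (λ_ _).inv ≫ (m ▷ kObj (ᘁT)) ≫ (α_ _ _ _).hom ≫
    (G ◁ ((kTensor T (ᘁT)).hom ≫ kMap (ε_ (ᘁT) T) ≫ kUnit.inv)) ≫ (ρ_ G).hom
  have hκ : κ.f ≠ 0 := by
    have h1 : κ.f = (λ_ (ᘁT)).inv ≫ (m.f ▷ (ᘁT)) ≫ (α_ G.1 T (ᘁT)).hom ≫
        (G.1 ◁ ε_ (ᘁT) T) ≫ (ρ_ G.1).hom := by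
      change ((λ_ (kObj (ᘁT))).inv).f ≫ (m.f ▷ (ᘁT)) ≫ (α_ G.1 T (ᘁT)).hom ≫
        (G.1 ◁ (𝟙 _ ≫ ε_ (ᘁT) T ≫ 𝟙 _)) ≫ (ρ_ G.1).hom = _
      rw [Center.leftUnitor_inv_f, Category.id_comp, Category.comp_id]
      rfl
    rw [h1]
    exact mate_ne_zero hm
  obtain ⟨M, ℓ, hne, hTR⟩ := loop_of_hom i hi y hy hG κ hκ
  exact ⟨M, X, ℓ, hne, fun U Y => tr_all hX ℓ U (hTR U) Y⟩

end Loop

end PI

end Pool.Agent.MUG
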