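import Pool.Agent.MUG.PPa
import Pool.Agent.MUG.C1
import Pool.Agent.MUG.C4
import Pool.Agent.MUG.E5
import Pool.Agent.MUG.T1
import Pool.Agent.MUG.FG

open CategoryTheory MonoidalCategory Limits Abelian

universe w v u

set_option linter.unusedSectionVars false

namespace Pool.Agent.MUG

section PPfinal

variable {k : Type*} [Field k] {Z : Type u} [Category.{v} Z] [Abelian Z] [Linear k Z]
  [MonoidalCategory Z] [MonoidalPreadditive Z] [MonoidalLinear k Z] [RigidCategory Z]

variable [BraidedCategory Z]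

/-- BASE CASE (Row PP, (6.4)): `D ⊓ D'` semisimple and the projectives of the join projective in
`Z`; then FGC passes from `Z` to `D`. -/
theorem fg_base [HasExt.{w} Z] (hZ : IsFinite k Z) (hF : FGC.{w} k Z)
    (D D' : ObjectProperty Z) [hD : TensorSub D] [hD' : TensorSub D']
    (hE : ∀ {A B : Z}, D A → D' A → D B → D' B → ∀ p : A ⟶ B, Epi p → ∃ s, s ≫ p = 𝟙 B)
    (hdir : ∀ X, ProjIn (join D D') X → Projective X) : FG k D hD := by
  have finD := finite_sub hZ D
  have finD' := finite_sub hZ D'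
  have hJ : TensorSub (join D D') := tensorSub_join D D'
  have finJ := finite_sub hZ (join D D')
  have enD := finD.enough
  have enD' := finD'.enough
  have enJ := finJ.enough
  have enZ := hZ.enough
  have hiD' : D'.ι.PreservesEpimorphisms := D'.preservesEpimorphisms_ι_of_isNormalMonoCategory
  obtain ⟨W', e', hcov⟩ := exists_cover finD'
  let W : Z := W'.obj
  let ε : W ⟶ 𝟙_ Z := e'.hom
  have he' : Epi e' := hcov.epi
  have hε : Epi ε := (inferInstance : Epi (D'.ι.map e'))
  have hone : Simple (𝟙_ Z) := hZ.unit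
  have hε0 : ε ≠ 0 := by
    intro h0
    have h1 : (𝟙 (𝟙_ Z)) = 0 := by
      rw [← cancel_epi ε, h0, zero_comp, zero_comp]
    exact id_nonzero (𝟙_ Z) h1
  have hcov' : ∀ {M : Z} (m : M ⟶ W), Mono m → m ≫ ε ≠ 0 → Epi m := by
    intro M m hm hne
    have hM : D' M := hD'.sub m W'.property
    let m' : (⟨M, hM⟩ : D'.FullSubcategory) ⟶ W' := ObjectProperty.homMk m
    have hm' : Mono m' := D'.ι.mono_of_mono_map (by exact hm)
    have hiso := cover_sub finD' hcov m' (by
      intro h0
      exact hne (congrArg (fun t => t.hom) h0))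
    exact (inferInstance : Epi (D'.ι.map m'))
  have hfac : ∀ {Y : Z}, D Y → ∀ h : W ⟶ Y, ∃ g, ε ≫ g = h := fun hY h =>
    MUE64.fac_of_cover (tsub D) (tsub D') hE W'.property ε hε0 hε hcov' hY h
  have hproj : ∀ P, ProjIn D P → Projective (W ⊗ P) := by
    intro P hP
    have h1 : ProjIn (join D D') (P ⊗ W) := by
      refine projIn_join D D' ?_ hE hP (projIn_of_projective D' W' hcov.proj)
      exact enough_projIn (join D D') (𝟙_ Z) hJ.unit
    exact Projective.of_iso (β_ P W) (hdir _ h1)
  have hι1 := exact_ι_lim D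
  have hι2 := exact_ι_colim D
  let θ : D.ι ⋙ tensorLeft W ⟶ D.ι :=
    { app := fun N => (ε ▷ N.obj) ≫ (λ_ N.obj).hom
      naturality := by
        intro N M f
        change (W ◁ f.hom) ≫ (ε ▷ M.obj) ≫ (λ_ M.obj).hom = ((ε ▷ N.obj) ≫ (λ_ N.obj).hom) ≫ f.hom
        rw [whisker_exchange_assoc, leftUnitor_naturality, Category.assoc] }
  have h0 : ∀ N M : D.FullSubcategory,
      Function.Bijective (fun f : N ⟶ M => θ.app N ≫ D.ι.map f) := by
    intro N M
    have hepi : Epi (θ.app N) := by
      change Epi ((ε ▷ N.obj) ≫ (λ_ N.obj).hom)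
      exact epi_comp _ _
    constructor
    · intro f g hfg
      have h1 := (cancel_epi (θ.app N)).1 hfg
      exact D.ι.map_injective h1
    · intro h
      obtain ⟨l, hl⟩ := hfac (hD.tensor M.property (hD.rdual N.property))
        (tensorRightHomEquiv W N.obj (N.objᘁ) M.obj h)
      let l' : 𝟙_ Z ⊗ N.obj ⟶ M.obj := (tensorRightHomEquiv (𝟙_ Z) N.obj (N.objᘁ) M.obj).symm l
      have hl' : ε ▷ N.obj ≫ l' = h := by
        rw [← tensorRightHomEquiv_symm_naturality, hl, Equiv.symm_apply_apply]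
      refine ⟨ObjectProperty.homMk ((λ_ N.obj).inv ≫ l'), ?_⟩
      change ((ε ▷ N.obj) ≫ (λ_ N.obj).hom) ≫ (λ_ N.obj).inv ≫ l' = h
      rw [Category.assoc, Iso.hom_inv_id_assoc, hl']
  have hG : ∀ P : D.FullSubcategory, Projective P → Projective ((D.ι ⋙ tensorLeft W).obj P) :=
    fun P hP => hproj P.obj (projIn_of_projective D P hP)
  have hExt : HasExt.{max u v} D.FullSubcategory := HasExt.standard _
  change FGC.{max u v} k D.FullSubcategory
  refine fgc_transfer D.ι W ε ?_ hF
  intro N M n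
  exact ds_bijective D.ι (D.ι ⋙ tensorLeft W) hG θ h0 N M n

end PPfinal

end Pool.Agent.MUG
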