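import Pool.Agent.MUG.Join
import Pool.Agent.MUE64.Retract

open CategoryTheory MonoidalCategory Limits Abelian

universe w v u

set_option linter.unusedSectionVars false

namespace Pool.Agent.MUG

section PP

variable {C : Type u} [Category.{v} C] [Abelian C] [MonoidalCategory C] [MonoidalPreadditive C]
  [RigidCategory C]

/-- The inclusion of a tensor subcategory is left exact. -/
theorem exact_ι_lim (D : ObjectProperty C) [TensorSub D] : PreservesFiniteLimits D.ι := by
  have : D.ι.Additive := inferInstance
  exact ((Functor.preservesFiniteLimits_tfae D.ι).out 2 3).1 (fun _ _ f => D.preservesKernels_ι f)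

/-- The inclusion of a tensor subcategory is right exact. -/
theorem exact_ι_colim (D : ObjectProperty C) [TensorSub D] : PreservesFiniteColimits D.ι := by
  have : D.ι.Additive := inferInstance
  exact ((Functor.preservesFiniteColimits_tfae D.ι).out 2 3).1
    (fun _ _ f => D.preservesCokernels_ι f)

/-- Projective objects of the full subcategory are the objects projective in `P`. -/
theorem projIn_of_projective (P : ObjectProperty C) [TensorSub P] (X : P.FullSubcategory)
    (hX : Projective X) : ProjIn P X.obj := by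
  refine ⟨X.property, fun {Y Y'} f hf hY hY' g => ?_⟩
  let f' : (⟨Y, hY⟩ : P.FullSubcategory) ⟶ ⟨Y', hY'⟩ := ObjectProperty.homMk f
  let g' : X ⟶ (⟨Y', hY'⟩ : P.FullSubcategory) := ObjectProperty.homMk g
  have hf' : Epi f' := P.ι.epi_of_epi_map (by exact hf)
  refine ⟨(Projective.factorThru g' f').hom, ?_⟩
  have h := Projective.factorThru_comp g' f'
  exact congrArg (fun t => t.hom) h

theorem projective_of_projIn (P : ObjectProperty C) [hP : TensorSub P] (X : P.FullSubcategory)
    (hX : ProjIn P X.obj) : Projective X := by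
  constructor
  intro Y Y' g f hf
  have : P.ι.PreservesEpimorphisms := P.preservesEpimorphisms_ι_of_isNormalMonoCategory
  have hf' : Epi f.hom := (inferInstance : Epi (P.ι.map f))
  obtain ⟨h, hh⟩ := hX.2 f.hom hf' Y.property Y'.property g.hom
  exact ⟨ObjectProperty.homMk h, P.hom_ext hh⟩

/-- Enough projectives of the full subcategory, in terms of `ProjIn`. -/
theorem enough_projIn (P : ObjectProperty C) [hP : TensorSub P]
    [h : EnoughProjectives P.FullSubcategory] (X : C) (hX : P X) :
    ∃ (Q : C) (q : Q ⟶ X), ProjIn P Q ∧ Epi q := by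
  have : P.ι.PreservesEpimorphisms := P.preservesEpimorphisms_ι_of_isNormalMonoCategory
  let X' : P.FullSubcategory := ⟨X, hX⟩
  refine ⟨(Projective.over X').obj, (Projective.π X').hom,
    projIn_of_projective P _ inferInstance, ?_⟩
  exact (inferInstance : Epi (P.ι.map (Projective.π X')))

variable [BraidedCategory C]

/-- Row PP: the product of a projective of `D` and a projective of `D'` is projective in the join,
if `D ⊓ D'` is semisimple. -/
theorem projIn_join (D D' : ObjectProperty C) [hD : TensorSub D] [hD' : TensorSub D']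
    [EnoughProjectives D.FullSubcategory] [EnoughProjectives D'.FullSubcategory]
    (hQ : ∃ (Q : C) (e : Q ⟶ 𝟙_ C), ProjIn (join D D') Q ∧ Epi e)
    (hE : ∀ {A B : C}, D A → D' A → D B → D' B → ∀ p : A ⟶ B, Epi p → ∃ s, s ≫ p = 𝟙 B)
    {P P' : C} (hP : ProjIn D P) (hP' : ProjIn D' P') : ProjIn (join D D') (P ⊗ P') := by
  have hJ := tensorSub_join D D'
  rw [projIn_iff]
  refine MUE64.projIn_tensor (tsub D) (tsub D') (tsub (join D D')) (le_join_left D D')
    (le_join_right D D') ?_ ?_ ?_ ?_ hE ((projIn_iff _ _).1 hP) ((projIn_iff _ _).1 hP')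
  · rintro Y ⟨X, X', hX, hX', N, i, p, hi, hp⟩
    exact ⟨X, X', N, i, p, hX, hX', hi, hp⟩
  · intro X hX
    obtain ⟨Q, q, h1, h2⟩ := enough_projIn D X hX
    exact ⟨Q, q, (projIn_iff _ _).1 h1, h2⟩
  · intro X hX
    obtain ⟨Q, q, h1, h2⟩ := enough_projIn D' X hX
    exact ⟨Q, q, (projIn_iff _ _).1 h1, h2⟩
  · obtain ⟨Q, e, h1, h2⟩ := hQ
    exact ⟨Q, e, (projIn_iff _ _).1 h1, h2⟩

end PP

end Pool.Agent.MUG
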