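import Mathlib

/-! Perron vector of a positive matrix (row A1). -/

open Matrix Finset

namespace Pool.Agent.MUG

section Perron

variable {n : Type*} [Fintype n]

theorem mulVec_pos (M : Matrix n n ℝ) (hM : ∀ i j, 0 < M i j) {w : n → ℝ} (hw : ∀ i, 0 ≤ w i)
    (hne : w ≠ 0) (i : n) : 0 < (M *ᵥ w) i := by
  obtain ⟨j, hj⟩ : ∃ j, w j ≠ 0 := by
    by_contra h
    push Not at h
    exact hne (funext h)
  rw [Matrix.mulVec, dotProduct]
  refine sum_pos' (fun j _ => mul_nonneg (hM i j).le (hw j)) ⟨j, mem_univ j, ?_⟩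
  exact mul_pos (hM i j) (lt_of_le_of_ne (hw j) (Ne.symm hj))

theorem perron_exists [Nonempty n] (M : Matrix n n ℝ) (hM : ∀ i j, 0 < M i j) :
    ∃ (v : n → ℝ) (l : ℝ), (∀ i, 0 < v i) ∧ 0 < l ∧ M *ᵥ v = l • v := by
  classical
  set C : ℝ := ∑ i, ∑ j, M i j with hC
  let K : Set ((n → ℝ) × ℝ) := {x | x.1 ∈ stdSimplex ℝ n ∧ x.2 ∈ Set.Icc (0 : ℝ) C ∧
    ∀ i, x.2 * x.1 i ≤ (M *ᵥ x.1) i}
  have hcont : ∀ i, Continuous (fun x : (n → ℝ) × ℝ => (M *ᵥ x.1) i) := by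
    intro i
    simp only [Matrix.mulVec, dotProduct]
    fun_prop
  have hKc : IsCompact K := by
    have h1 : K = (stdSimplex ℝ n ×ˢ Set.Icc (0 : ℝ) C) ∩
        ⋂ i, {x : (n → ℝ) × ℝ | x.2 * x.1 i ≤ (M *ᵥ x.1) i} := by
      ext x
      simp only [K, Set.mem_ofPred_eq, Set.mem_inter_iff, Set.mem_prod, Set.mem_iInter, and_assoc]
    rw [h1]
    refine ((isCompact_stdSimplex ℝ n).prod isCompact_Icc).inter_right (isClosed_iInter fun i => ?_)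
    exact isClosed_le (by fun_prop) (hcont i)
  have hKn : K.Nonempty := by
    obtain ⟨i₀⟩ := ‹Nonempty n›
    refine ⟨(Pi.single i₀ 1, 0), ?_, ⟨le_rfl, sum_nonneg fun i _ => sum_nonneg fun j _ =>
      (hM i j).le⟩, fun i => ?_⟩
    · exact single_mem_stdSimplex ℝ i₀
    · rw [zero_mul]
      exact sum_nonneg fun j _ => mul_nonneg (hM i j).le
        ((single_mem_stdSimplex ℝ i₀ : Pi.single i₀ (1 : ℝ) ∈ stdSimplex ℝ n).1 j)
  obtain ⟨⟨v, l⟩, ⟨hv, hl, hvl⟩, hmax⟩ := hKc.exists_isMaxOn hKn continuous_snd.continuousOn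
  simp only at hv hl hvl
  have hv0 : v ≠ 0 := by
    intro h
    have := hv.2
    rw [h] at this
    simp at this
  have hMv : ∀ i, 0 < (M *ᵥ v) i := mulVec_pos M hM hv.1 hv0
  have hle : ∀ (u : n → ℝ) (i : n), u ∈ stdSimplex ℝ n → (M *ᵥ u) i ≤ ∑ j, M i j := by
    intro u i hu
    refine sum_le_sum fun j _ => ?_
    have h1 : u j ≤ 1 := by
      rw [← hu.2]
      exact single_le_sum (fun k _ => hu.1 k) (mem_univ j)
    calc M i j * u j ≤ M i j * 1 := mul_le_mul_of_nonneg_left h1 (hM i j).le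
      _ = M i j := mul_one _
  have heq : M *ᵥ v = l • v := by
    by_contra hne
    have hw0 : M *ᵥ v - l • v ≠ 0 := fun h => hne (sub_eq_zero.1 h)
    have hw : ∀ i, 0 ≤ (M *ᵥ v - l • v) i := fun i => by
      simp only [Pi.sub_apply, Pi.smul_apply, smul_eq_mul, sub_nonneg]
      exact hvl i
    have hpos := mulVec_pos M hM hw hw0
    set u : n → ℝ := M *ᵥ v with hu
    have hlt : ∀ i, l * u i < (M *ᵥ u) i := fun i => by
      have := hpos i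
      rw [Matrix.mulVec_sub, Matrix.mulVec_smul, Pi.sub_apply, Pi.smul_apply, smul_eq_mul] at this
      linarith
    set s : ℝ := ∑ i, u i with hs
    have hs0 : 0 < s := sum_pos (fun i _ => hMv i) univ_nonempty
    obtain ⟨i₀, hi₀⟩ := Finite.exists_min (fun i => (M *ᵥ u) i / u i)
    set l' : ℝ := (M *ᵥ u) i₀ / u i₀ with hl'
    have hll : l < l' := by
      rw [hl', lt_div_iff₀ (hMv i₀)]
      exact hlt i₀
    have hmem : (s⁻¹ • u) ∈ stdSimplex ℝ n := by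
      refine ⟨fun i => ?_, ?_⟩
      · exact mul_nonneg (inv_nonneg.2 hs0.le) (hMv i).le
      · simp only [Pi.smul_apply, smul_eq_mul]
        rw [← mul_sum, ← hs, inv_mul_cancel₀ hs0.ne']
    have hineq : ∀ i, l' * (s⁻¹ • u) i ≤ (M *ᵥ (s⁻¹ • u)) i := fun i => by
      rw [Matrix.mulVec_smul, Pi.smul_apply, Pi.smul_apply, smul_eq_mul, smul_eq_mul]
      have := (le_div_iff₀ (hMv i)).1 (hi₀ i)
      calc l' * (s⁻¹ * u i) = s⁻¹ * (l' * u i) := by ring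
        _ ≤ s⁻¹ * (M *ᵥ u) i := mul_le_mul_of_nonneg_left this (inv_nonneg.2 hs0.le)
    have hC' : l' ≤ C := by
      calc l' = ∑ i, l' * (s⁻¹ • u) i := by rw [← mul_sum, hmem.2, mul_one]
        _ ≤ ∑ i, (M *ᵥ (s⁻¹ • u)) i := sum_le_sum fun i _ => hineq i
        _ ≤ C := sum_le_sum fun i _ => hle _ i hmem
    have := hmax (show (s⁻¹ • u, l') ∈ K from ⟨hmem, ⟨hl.1.trans hll.le, hC'⟩, hineq⟩)
    exact absurd this (not_le.2 hll)
  have hl0 : 0 < l := by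
    obtain ⟨i₀⟩ := ‹Nonempty n›
    have h1 := hMv i₀
    rw [heq, Pi.smul_apply, smul_eq_mul] at h1
    rcases hl.1.eq_or_lt with h | h
    · rw [← h, zero_mul] at h1
      exact absurd h1 (lt_irrefl _)
    · exact h
  refine ⟨v, l, fun i => ?_, hl0, heq⟩
  have h1 := hMv i
  rw [heq, Pi.smul_apply, smul_eq_mul] at h1
  exact (pos_iff_pos_of_mul_pos h1).1 hl0

theorem perron_lt [Nonempty n] (M : Matrix n n ℝ) (hM : ∀ i j, 0 < M i j) {v w : n → ℝ} {l l' : ℝ}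
    (hv : ∀ i, 0 < v i) (hw : ∀ i, 0 < w i) (hvl : M *ᵥ v = l • v) (hwl : M *ᵥ w = l' • w)
    (hne : ¬ ∃ c : ℝ, 0 < c ∧ w = c • v) : l < l' := by
  obtain ⟨i₀, hi₀⟩ := Finite.exists_min (fun i => w i / v i)
  set t : ℝ := w i₀ / v i₀ with ht
  have ht0 : 0 < t := div_pos (hw i₀) (hv i₀)
  have h1 : ∀ i, 0 ≤ (w - t • v) i := fun i => by
    rw [Pi.sub_apply, Pi.smul_apply, smul_eq_mul, sub_nonneg]
    exact (le_div_iff₀ (hv i)).1 (hi₀ i)
  have h2 : w - t • v ≠ 0 := fun h => hne ⟨t, ht0, sub_eq_zero.1 h⟩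
  have h3 := mulVec_pos M hM h1 h2 i₀
  rw [Matrix.mulVec_sub, Matrix.mulVec_smul, hvl, hwl, Pi.sub_apply, Pi.smul_apply,
    Pi.smul_apply, Pi.smul_apply, smul_eq_mul, smul_eq_mul, smul_eq_mul] at h3
  have h4 : t * v i₀ = w i₀ := div_mul_cancel₀ _ (hv i₀).ne'
  have h5 : 0 < (l' - l) * w i₀ := by
    have : (l' - l) * w i₀ = l' * w i₀ - t * (l * v i₀) := by rw [← h4]; ring
    rw [this]; exact h3
  have := (pos_iff_pos_of_mul_pos h5).2 (hw i₀)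
  linarith

theorem perron_unique [Nonempty n] (M : Matrix n n ℝ) (hM : ∀ i j, 0 < M i j) {v w : n → ℝ}
    {l l' : ℝ} (hv : ∀ i, 0 < v i) (hw : ∀ i, 0 < w i) (hvl : M *ᵥ v = l • v)
    (hwl : M *ᵥ w = l' • w) : ∃ c : ℝ, 0 < c ∧ w = c • v := by
  by_contra hne
  have h1 := perron_lt M hM hv hw hvl hwl hne
  have hne' : ¬ ∃ c : ℝ, 0 < c ∧ v = c • w := by
    rintro ⟨c, hc, h⟩
    refine hne ⟨c⁻¹, inv_pos.2 hc, ?_⟩
    rw [h, smul_smul, inv_mul_cancel₀ hc.ne', one_smul]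
  have h2 := perron_lt M hM hw hv hwl hvl hne'
  exact lt_asymm h1 h2

/-- Row A1. -/
theorem perron [Nonempty n] (M : Matrix n n ℝ) (hM : ∀ i j, 0 < M i j) :
    ∃ (v : n → ℝ) (l : ℝ), (∀ i, 0 < v i) ∧ 0 < l ∧ M *ᵥ v = l • v ∧
      (∀ (w : n → ℝ) (l' : ℝ), (∀ i, 0 < w i) → M *ᵥ w = l' • w →
        ∃ c : ℝ, 0 < c ∧ w = c • v) ∧
      (∀ N : Matrix n n ℝ, (∀ i, 0 < (N *ᵥ v) i) → N * M = M * N →
        ∃ d : ℝ, 0 < d ∧ N *ᵥ v = d • v) := by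
  obtain ⟨v, l, hv, hl, hvl⟩ := perron_exists M hM
  refine ⟨v, l, hv, hl, hvl, fun w l' hw hwl => perron_unique M hM hv hw hvl hwl, ?_⟩
  intro N hN hNM
  have h1 : M *ᵥ (N *ᵥ v) = l • (N *ᵥ v) := by
    rw [Matrix.mulVec_mulVec, ← hNM, ← Matrix.mulVec_mulVec, hvl, Matrix.mulVec_smul]
  exact perron_unique M hM hv hN hvl h1

end Perron

end Pool.Agent.MUG
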