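import Pool.Agent.MUE79.Kap

/-!
# Partial traces in a braided category (MP_388894, row SS)
-/

open CategoryTheory MonoidalCategory

universe v u

set_option linter.unusedSectionVars false

namespace Pool.Agent.MUG

open Pool.Agent.MUE79

section ptr

variable {C : Type u} [Category.{v} C] [MonoidalCategory C] [BraidedCategory C]

/-- the partial trace over `X` -/
def ptr (X D : C) [ExactPairing X D] {Y Y' : C} (f : X ⊗ Y ⟶ X ⊗ Y') : Y ⟶ Y' :=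
  𝟙 Y ⊗≫ kap X D ▷ Y ⊗≫ D ◁ f ⊗≫ ε_ X D ▷ Y' ⊗≫ 𝟙 Y'

theorem ptr_nat_left (X D : C) [ExactPairing X D] {Y Y' Y'' : C} (g : Y ⟶ Y')
    (f : X ⊗ Y' ⟶ X ⊗ Y'') : ptr X D (X ◁ g ≫ f) = g ≫ ptr X D f := by
  unfold ptr
  calc 𝟙 Y ⊗≫ kap X D ▷ Y ⊗≫ D ◁ (X ◁ g ≫ f) ⊗≫ ε_ X D ▷ Y'' ⊗≫ 𝟙 Y''
      = 𝟙 Y ⊗≫ (kap X D ▷ Y ≫ (D ⊗ X) ◁ g) ⊗≫ D ◁ f ⊗≫ ε_ X D ▷ Y'' ⊗≫ 𝟙 Y'' := by monoidal
    _ = _ := by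
        rw [← whisker_exchange]
        monoidal

theorem ptr_nat_right (X D : C) [ExactPairing X D] {Y Y' Y'' : C} (g : Y' ⟶ Y'')
    (f : X ⊗ Y ⟶ X ⊗ Y') : ptr X D (f ≫ X ◁ g) = ptr X D f ≫ g := by
  unfold ptr
  calc 𝟙 Y ⊗≫ kap X D ▷ Y ⊗≫ D ◁ (f ≫ X ◁ g) ⊗≫ ε_ X D ▷ Y'' ⊗≫ 𝟙 Y''
      = 𝟙 Y ⊗≫ kap X D ▷ Y ⊗≫ D ◁ f ⊗≫ ((D ⊗ X) ◁ g ≫ ε_ X D ▷ Y'') ⊗≫ 𝟙 Y'' := by monoidal
    _ = _ := by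
        rw [whisker_exchange]
        monoidal

/-- the mate of a morphism, for two exact pairings -/
theorem exists_mate {X D X' D' : C} [ExactPairing X D] [ExactPairing X' D'] (h : X ⟶ X') :
    ∃ hm : D' ⟶ D, hm ▷ X ≫ ε_ X D = D' ◁ h ≫ ε_ X' D' ∧
      kap X D ≫ D ◁ h = kap X' D' ≫ hm ▷ X' := by
  let _ : HasRightDual X := ⟨D⟩
  let _ : HasRightDual X' := ⟨D'⟩
  refine ⟨(rightAdjointMate h : (D' : C) ⟶ D), ?_, ?_⟩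
  · exact rightAdjointMate_comp_evaluation h
  · have h1 : η_ X D ≫ h ▷ D = η_ X' D' ≫ X' ◁ (rightAdjointMate h : (D' : C) ⟶ D) :=
      (coevaluation_comp_rightAdjointMate h).symm
    unfold kap
    rw [Category.assoc, Category.assoc, ← BraidedCategory.braiding_naturality_left,
      ← BraidedCategory.braiding_naturality_right, reassoc_of% h1]

/-- **P2**, cyclicity -/
theorem ptr_cyc {X D X' D' : C} [ExactPairing X D] [ExactPairing X' D'] {Y Y' : C} (h : X ⟶ X')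
    (f : X' ⊗ Y ⟶ X ⊗ Y') : ptr X D (h ▷ Y ≫ f) = ptr X' D' (f ≫ h ▷ Y') := by
  obtain ⟨hm, h1, h2⟩ := exists_mate (D := D) (D' := D') h
  unfold ptr
  calc 𝟙 Y ⊗≫ kap X D ▷ Y ⊗≫ D ◁ (h ▷ Y ≫ f) ⊗≫ ε_ X D ▷ Y' ⊗≫ 𝟙 Y'
      = 𝟙 Y ⊗≫ (kap X D ≫ D ◁ h) ▷ Y ⊗≫ D ◁ f ⊗≫ ε_ X D ▷ Y' ⊗≫ 𝟙 Y' := by monoidal
    _ = 𝟙 Y ⊗≫ kap X' D' ▷ Y ⊗≫ (hm ▷ (X' ⊗ Y) ≫ D ◁ f) ⊗≫ ε_ X D ▷ Y' ⊗≫ 𝟙 Y' := by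
        rw [h2]
        monoidal
    _ = 𝟙 Y ⊗≫ kap X' D' ▷ Y ⊗≫ D' ◁ f ⊗≫ (hm ▷ X ≫ ε_ X D) ▷ Y' ⊗≫ 𝟙 Y' := by
        rw [← whisker_exchange]
        monoidal
    _ = _ := by
        rw [h1]
        monoidal

/-- **P4** -/
theorem ptr_whisker (X D : C) [ExactPairing X D] {Y Y' : C} (f : X ⊗ Y ⟶ X ⊗ Y') (V : C) :
    ptr X D ((α_ X Y V).inv ≫ f ▷ V ≫ (α_ X Y' V).hom) = ptr X D f ▷ V := by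
  unfold ptr
  monoidal

/-- **P3**, nested partial traces -/
theorem ptr_tensor {A DA B DB : C} [ExactPairing A DA] [ExactPairing B DB]
    (h : (β_ B A).hom ≫ (β_ A B).hom = 𝟙 (B ⊗ A)) {Y Y' : C}
    (f : (A ⊗ B) ⊗ Y ⟶ (A ⊗ B) ⊗ Y') :
    ptr (A ⊗ B) (DB ⊗ DA) f =
      ptr B DB (ptr A DA ((α_ A B Y).inv ≫ f ≫ (α_ A B Y').hom)) := by
  unfold ptr
  rw [kap_tensor h, ExactPairing.tensor_evaluation]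
  monoidal

/-- the sandwich of `f` for the bending argument -/
def sand {L V DV Y Y' : C} [ExactPairing V DV] (f : L ⊗ Y ⟶ L ⊗ Y') :
    (L ⊗ DV) ⊗ (V ⊗ Y) ⟶ (L ⊗ DV) ⊗ (V ⊗ Y') :=
  𝟙 ((L ⊗ DV) ⊗ (V ⊗ Y)) ⊗≫ L ◁ (ε_ V DV ▷ Y) ⊗≫ f ⊗≫ L ◁ (kap V DV ▷ Y') ⊗≫
    𝟙 ((L ⊗ DV) ⊗ (V ⊗ Y'))

/-- bending a strand (source) -/
def bendL {X L V : C} (DV : C) [ExactPairing V DV] (p : X ⊗ V ⟶ L) : X ⟶ L ⊗ DV :=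
  𝟙 X ⊗≫ X ◁ η_ V DV ⊗≫ p ▷ DV

/-- bending a strand (target) -/
def bendR {X L V : C} (DV : C) [ExactPairing V DV] (i : L ⟶ X ⊗ V) : L ⊗ DV ⟶ X :=
  i ▷ DV ⊗≫ X ◁ ((β_ V DV).hom ≫ ε_ V DV) ⊗≫ 𝟙 X

/-- the first zigzag, in the form used here -/
theorem zig1 (V DV : C) [ExactPairing V DV] :
    𝟙 V ⊗≫ η_ V DV ▷ V ⊗≫ V ◁ ε_ V DV ⊗≫ 𝟙 V = 𝟙 V := by
  have h := ExactPairing.evaluation_coevaluation V DV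
  calc 𝟙 V ⊗≫ η_ V DV ▷ V ⊗≫ V ◁ ε_ V DV ⊗≫ 𝟙 V
      = (λ_ V).inv ≫ (η_ V DV ▷ V ≫ (α_ V DV V).hom ≫ V ◁ ε_ V DV) ≫ (ρ_ V).hom := by
        monoidal
    _ = 𝟙 V := by
        rw [h]
        monoidal

/-- the zigzag for the swapped pairing -/
theorem zig2 (V DV : C) [ExactPairing V DV]
    (hs : (β_ V DV).hom ≫ (β_ DV V).hom = 𝟙 (V ⊗ DV)) :
    𝟙 V ⊗≫ V ◁ kap V DV ⊗≫ ((β_ V DV).hom ≫ ε_ V DV) ▷ V ⊗≫ 𝟙 V = 𝟙 V := by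
  let _ : ExactPairing DV V := BraidedCategory.exactPairing_swap V DV
  have h := ExactPairing.coevaluation_evaluation DV V
  have h1 : η_ DV V = kap V DV := by
    unfold kap
    have h3 : (β_ V DV).hom = (β_ DV V).inv := by
      rw [← cancel_mono (β_ DV V).hom, hs, Iso.inv_hom_id]
    rw [h3]
    rfl
  have h2 : ε_ DV V = (β_ V DV).hom ≫ ε_ V DV := rfl
  rw [h1, h2] at h
  calc 𝟙 V ⊗≫ V ◁ kap V DV ⊗≫ ((β_ V DV).hom ≫ ε_ V DV) ▷ V ⊗≫ 𝟙 V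
      = (ρ_ V).inv ≫ (V ◁ kap V DV ≫ (α_ V DV V).inv ≫ ((β_ V DV).hom ≫ ε_ V DV) ▷ V) ≫
          (λ_ V).hom := by monoidal
    _ = 𝟙 V := by
        rw [h]
        monoidal

/-- unbending -/
theorem bendL_unbend {X L V : C} (DV : C) [ExactPairing V DV] (p : X ⊗ V ⟶ L) :
    bendL DV p ▷ V ⊗≫ L ◁ ε_ V DV ⊗≫ 𝟙 L = p := by
  unfold bendL
  calc (𝟙 X ⊗≫ X ◁ η_ V DV ⊗≫ p ▷ DV) ▷ V ⊗≫ L ◁ ε_ V DV ⊗≫ 𝟙 L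
      = 𝟙 (X ⊗ V) ⊗≫ X ◁ (η_ V DV ▷ V) ⊗≫ (p ▷ (DV ⊗ V) ≫ L ◁ ε_ V DV) ⊗≫ 𝟙 L := by
        monoidal
    _ = 𝟙 (X ⊗ V) ⊗≫ X ◁ (𝟙 V ⊗≫ η_ V DV ▷ V ⊗≫ V ◁ ε_ V DV ⊗≫ 𝟙 V) ⊗≫ p ⊗≫ 𝟙 L := by
        rw [← whisker_exchange]
        monoidal
    _ = p := by
        rw [zig1]
        monoidal

/-- bending is surjective -/
theorem bendL_surj {X L V : C} (DV : C) [ExactPairing V DV] (t : X ⟶ L ⊗ DV) :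
    bendL DV (t ▷ V ⊗≫ L ◁ ε_ V DV ⊗≫ 𝟙 L) = t := by
  unfold bendL
  have h := ExactPairing.coevaluation_evaluation V DV
  calc 𝟙 X ⊗≫ X ◁ η_ V DV ⊗≫ (t ▷ V ⊗≫ L ◁ ε_ V DV ⊗≫ 𝟙 L) ▷ DV
      = 𝟙 X ⊗≫ (X ◁ η_ V DV ≫ t ▷ (V ⊗ DV)) ⊗≫ L ◁ ε_ V DV ▷ DV ⊗≫ 𝟙 (L ⊗ DV) := by monoidal
    _ = t ⊗≫ L ◁ (DV ◁ η_ V DV ≫ (α_ DV V DV).inv ≫ ε_ V DV ▷ DV) ⊗≫ 𝟙 (L ⊗ DV) := by
        rw [whisker_exchange]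
        monoidal
    _ = t := by
        rw [h]
        monoidal

theorem bendR_bendL {X L V : C} (DV : C) [ExactPairing V DV] (p : X ⊗ V ⟶ L) (i : L ⟶ X ⊗ V) :
    bendL DV p ≫ bendR DV i =
      𝟙 X ⊗≫ X ◁ η_ V DV ⊗≫ (p ≫ i) ▷ DV ⊗≫ X ◁ ((β_ V DV).hom ≫ ε_ V DV) ⊗≫ 𝟙 X := by
  unfold bendL bendR
  monoidal

/-- `ι` from its bent form -/
theorem bendR_unbend {X L V : C} (DV : C) [ExactPairing V DV]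
    (hs : (β_ V DV).hom ≫ (β_ DV V).hom = 𝟙 (V ⊗ DV)) (i : L ⟶ X ⊗ V) :
    𝟙 L ⊗≫ L ◁ kap V DV ⊗≫ bendR DV i ▷ V = i := by
  unfold bendR
  calc 𝟙 L ⊗≫ L ◁ kap V DV ⊗≫ (i ▷ DV ⊗≫ X ◁ ((β_ V DV).hom ≫ ε_ V DV) ⊗≫ 𝟙 X) ▷ V
      = 𝟙 L ⊗≫ (L ◁ kap V DV ≫ i ▷ (DV ⊗ V)) ⊗≫
          X ◁ (((β_ V DV).hom ≫ ε_ V DV) ▷ V) ⊗≫ 𝟙 (X ⊗ V) := by
        monoidal
    _ = i ⊗≫ X ◁ (𝟙 V ⊗≫ V ◁ kap V DV ⊗≫ ((β_ V DV).hom ≫ ε_ V DV) ▷ V ⊗≫ 𝟙 V) ⊗≫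
          𝟙 (X ⊗ V) := by
        rw [whisker_exchange]
        monoidal
    _ = i := by
        rw [zig2 V DV hs]
        monoidal

/-- the bending identity -/
theorem bend_sand {X L V DV : C} [ExactPairing V DV]
    (hs : (β_ V DV).hom ≫ (β_ DV V).hom = 𝟙 (V ⊗ DV)) (p : X ⊗ V ⟶ L) (i : L ⟶ X ⊗ V)
    {Y Y' : C} (f : L ⊗ Y ⟶ L ⊗ Y') :
    (α_ X V Y).inv ≫ (p ▷ Y ≫ f ≫ i ▷ Y') ≫ (α_ X V Y').hom =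
      bendL DV p ▷ (V ⊗ Y) ≫ sand (V := V) (DV := DV) f ≫ bendR DV i ▷ (V ⊗ Y') := by
  unfold sand
  calc (α_ X V Y).inv ≫ (p ▷ Y ≫ f ≫ i ▷ Y') ≫ (α_ X V Y').hom
      = 𝟙 (X ⊗ (V ⊗ Y)) ⊗≫ (bendL DV p ▷ V ⊗≫ L ◁ ε_ V DV ⊗≫ 𝟙 L) ▷ Y ⊗≫ f ⊗≫
          (𝟙 L ⊗≫ L ◁ kap V DV ⊗≫ bendR DV i ▷ V) ▷ Y' ⊗≫ 𝟙 (X ⊗ (V ⊗ Y')) := by
        rw [bendL_unbend, bendR_unbend DV hs]
        monoidal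
    _ = _ := by monoidal

/-- the geometric step -/
theorem ptr_bend {X D L DL V DV : C} [ExactPairing X D] [ExactPairing L DL] [ExactPairing V DV]
    [ExactPairing DV V]
    (hs : (β_ V DV).hom ≫ (β_ DV V).hom = 𝟙 (V ⊗ DV)) (p : X ⊗ V ⟶ L) (i : L ⟶ X ⊗ V)
    {Y Y' : C} (f : L ⊗ Y ⟶ L ⊗ Y') :
    ptr X D ((α_ X V Y).inv ≫ (p ▷ Y ≫ f ≫ i ▷ Y') ≫ (α_ X V Y').hom) =
      ptr (L ⊗ DV) (V ⊗ DL) (sand (V := V) (DV := DV) f ≫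
        (bendR DV i ≫ bendL DV p) ▷ (V ⊗ Y')) := by
  rw [bend_sand (DV := DV) hs, ptr_cyc (D' := V ⊗ DL), Category.assoc, comp_whiskerRight]

/-- the second geometric step -/
theorem ptr_sand {L DL V DV : C} [ExactPairing L DL] [ExactPairing V DV] [ExactPairing DV V]
    (h1 : η_ DV V = kap V DV) (h2 : ε_ DV V = (β_ V DV).hom ≫ ε_ V DV)
    (hs : (β_ V DV).hom ≫ (β_ DV V).hom = 𝟙 (V ⊗ DV))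
    (hL : (β_ DV L).hom ≫ (β_ L DV).hom = 𝟙 (DV ⊗ L)) {Y Y' : C} (f : L ⊗ Y ⟶ L ⊗ Y') :
    ptr (L ⊗ DV) (V ⊗ DL) (sand (V := V) (DV := DV) f) = V ◁ ptr L DL f := by
  rw [ptr_tensor hL]
  have h3 : (α_ L DV (V ⊗ Y)).inv ≫ sand (V := V) (DV := DV) f ≫ (α_ L DV (V ⊗ Y')).hom =
      L ◁ (𝟙 (DV ⊗ (V ⊗ Y)) ⊗≫ ε_ V DV ▷ Y ⊗≫ 𝟙 Y) ≫ f ≫
        L ◁ (𝟙 Y' ⊗≫ kap V DV ▷ Y' ⊗≫ 𝟙 (DV ⊗ (V ⊗ Y'))) := by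
    unfold sand
    monoidal
  rw [h3, ptr_nat_left, ptr_nat_right]
  have h4 : kap DV V = η_ V DV := by
    unfold kap
    rw [h1]
    unfold kap
    rw [Category.assoc, hs, Category.comp_id]
  have h5 : ptr DV V ((𝟙 (DV ⊗ (V ⊗ Y)) ⊗≫ ε_ V DV ▷ Y ⊗≫ 𝟙 Y) ≫ ptr L DL f ≫
      (𝟙 Y' ⊗≫ kap V DV ▷ Y' ⊗≫ 𝟙 (DV ⊗ (V ⊗ Y')))) =
      𝟙 (V ⊗ Y) ⊗≫ (𝟙 V ⊗≫ η_ V DV ▷ V ⊗≫ V ◁ ε_ V DV ⊗≫ 𝟙 V) ▷ Y ⊗≫ V ◁ ptr L DL f ⊗≫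
        V ◁ kap V DV ▷ Y' ⊗≫ (((β_ V DV).hom ≫ ε_ V DV) ▷ V) ▷ Y' ⊗≫ 𝟙 (V ⊗ Y') := by
    generalize ptr L DL f = g
    unfold ptr
    rw [h4, h2]
    monoidal
  rw [h5, zig1]
  calc 𝟙 (V ⊗ Y) ⊗≫ (𝟙 V) ▷ Y ⊗≫ V ◁ ptr L DL f ⊗≫
        V ◁ kap V DV ▷ Y' ⊗≫ (((β_ V DV).hom ≫ ε_ V DV) ▷ V) ▷ Y' ⊗≫ 𝟙 (V ⊗ Y')
      = V ◁ ptr L DL f ⊗≫
          (𝟙 V ⊗≫ V ◁ kap V DV ⊗≫ ((β_ V DV).hom ≫ ε_ V DV) ▷ V ⊗≫ 𝟙 V) ▷ Y' ⊗≫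
            𝟙 (V ⊗ Y') := by
        monoidal
    _ = _ := by
        rw [zig2 V DV hs]
        monoidal

/-- the trace of an endomorphism -/
def tr (X D : C) [ExactPairing X D] (f : X ⟶ X) : 𝟙_ C ⟶ 𝟙_ C := ptr X D (f ▷ 𝟙_ C)

theorem tr_eq (X D : C) [ExactPairing X D] (f : X ⟶ X) :
    tr X D f = kap X D ≫ D ◁ f ≫ ε_ X D := by
  unfold tr ptr
  have h : (ρ_ (𝟙_ C)).hom = (λ_ (𝟙_ C)).hom := unitors_equal.symm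
  calc 𝟙 (𝟙_ C) ⊗≫ kap X D ▷ (𝟙_ C) ⊗≫ D ◁ f ▷ 𝟙_ C ⊗≫ ε_ X D ▷ (𝟙_ C) ⊗≫ 𝟙 (𝟙_ C)
      = kap X D ⊗≫ D ◁ f ⊗≫ ε_ X D ⊗≫ 𝟙 (𝟙_ C) := by monoidal
    _ = _ := by monoidal

theorem tr_cyc {X D X' D' : C} [ExactPairing X D] [ExactPairing X' D'] (h : X ⟶ X')
    (f : X' ⟶ X) : tr X D (h ≫ f) = tr X' D' (f ≫ h) := by
  unfold tr
  rw [comp_whiskerRight, comp_whiskerRight, ptr_cyc (D' := D')]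

theorem tr_tensor {A DA B DB : C} [ExactPairing A DA] [ExactPairing B DB]
    (h : (β_ B A).hom ≫ (β_ A B).hom = 𝟙 (B ⊗ A)) (f : A ⊗ B ⟶ A ⊗ B) :
    tr (A ⊗ B) (DB ⊗ DA) f = tr B DB (ptr A DA f) := by
  unfold tr
  rw [ptr_tensor h, ptr_whisker]

theorem ptr_tensor_id (X D : C) [ExactPairing X D] (Y : C) (f : X ⟶ X) :
    ptr X D (f ▷ Y) = 𝟙 Y ⊗≫ tr X D f ▷ Y ⊗≫ 𝟙 Y := by
  rw [tr_eq]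
  unfold ptr
  monoidal

/-- the trace of a right partial trace -/
theorem tr_bend {X D L V DV : C} [ExactPairing X D] [ExactPairing V DV] (p : X ⊗ V ⟶ L)
    (i : L ⟶ X ⊗ V) :
    tr X D (bendL DV p ≫ bendR DV i) = tr V DV (ptr X D (p ≫ i)) := by
  rw [bendR_bendL]
  generalize p ≫ i = h
  rw [tr_eq, tr_eq]
  have h1 : kap V DV ≫ DV ◁ ptr X D h =
      η_ V DV ≫ ptr X D h ▷ DV ≫ (β_ V DV).hom := by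
    unfold kap
    rw [Category.assoc, ← BraidedCategory.braiding_naturality_left]
  rw [reassoc_of% h1]
  calc kap X D ≫ D ◁ (𝟙 X ⊗≫ X ◁ η_ V DV ⊗≫ h ▷ DV ⊗≫ X ◁ ((β_ V DV).hom ≫ ε_ V DV) ⊗≫ 𝟙 X)
        ≫ ε_ X D
      = 𝟙 (𝟙_ C) ⊗≫ (kap X D ▷ 𝟙_ C ≫ (D ⊗ X) ◁ η_ V DV) ⊗≫ D ◁ h ▷ DV ⊗≫
          ((D ⊗ X) ◁ ((β_ V DV).hom ≫ ε_ V DV) ≫ ε_ X D ▷ 𝟙_ C) ⊗≫ 𝟙 (𝟙_ C) := by monoidal
    _ = 𝟙 (𝟙_ C) ⊗≫ (𝟙_ C ◁ η_ V DV ≫ kap X D ▷ (V ⊗ DV)) ⊗≫ D ◁ h ▷ DV ⊗≫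
          (ε_ X D ▷ (V ⊗ DV) ≫ 𝟙_ C ◁ ((β_ V DV).hom ≫ ε_ V DV)) ⊗≫ 𝟙 (𝟙_ C) := by
        rw [whisker_exchange, whisker_exchange]
    _ = η_ V DV ≫ (𝟙 V ⊗≫ kap X D ▷ V ⊗≫ D ◁ h ⊗≫ ε_ X D ▷ V ⊗≫ 𝟙 V) ▷ DV ≫
          (β_ V DV).hom ≫ ε_ V DV := by monoidal
    _ = _ := by rfl

/-- the double braiding -/
def cc (X Y : C) : X ⊗ Y ⟶ X ⊗ Y := (β_ X Y).hom ≫ (β_ Y X).hom

theorem cc_nat_left {X X' : C} (f : X ⟶ X') (Y : C) : f ▷ Y ≫ cc X' Y = cc X Y ≫ f ▷ Y := by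
  simp only [cc, Category.assoc, BraidedCategory.braiding_naturality_left_assoc,
    BraidedCategory.braiding_naturality_right]

theorem cc_nat_right (X : C) {Y Y' : C} (f : Y ⟶ Y') : X ◁ f ≫ cc X Y' = cc X Y ≫ X ◁ f := by
  simp only [cc, Category.assoc, BraidedCategory.braiding_naturality_right_assoc,
    BraidedCategory.braiding_naturality_left]

/-- the relation for the double braiding of a tensor product -/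
theorem ptr_cc (X D V Y : C) [ExactPairing X D] :
    ptr X D ((α_ X V Y).inv ≫ cc (X ⊗ V) Y ≫ (α_ X V Y).hom) =
      V ◁ ptr X D (cc X Y) ≫ cc V Y := by
  have h1 : (α_ X V Y).inv ≫ cc (X ⊗ V) Y ≫ (α_ X V Y).hom =
      X ◁ (β_ V Y).hom ≫ ((α_ X Y V).inv ≫ cc X Y ▷ V ≫ (α_ X Y V).hom) ≫
        X ◁ (β_ Y V).hom := by
    unfold cc
    rw [BraidedCategory.braiding_tensor_left_hom, BraidedCategory.braiding_tensor_right_hom]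
    monoidal
  rw [h1, ptr_nat_left, ptr_nat_right, ptr_whisker]
  unfold cc
  rw [← BraidedCategory.braiding_naturality_right_assoc]

end ptr

end Pool.Agent.MUG
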