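import Pool.Agent.MUG.SS1
import Pool.Agent.MUG.Join

/-!
# Dual families of morphisms, and the integral formula (MP_388894, row SS)
-/

open CategoryTheory MonoidalCategory Limits

universe v u

set_option linter.unusedSectionVars false

namespace Pool.Agent.MUG

open Pool.Agent.MUE79

section dual

variable {k : Type*} [Field k] {C : Type u} [Category.{v} C] [Abelian C] [Linear k C]

/-- A family of simple objects exhausting the simple objects of `E`. -/
structure SFam (E : ObjectProperty C) (J : Type) (X : J → C) : Prop where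
  mem : ∀ j, E (X j)
  simple : ∀ j, Simple (X j)
  inj : ∀ i j, Nonempty (X i ≅ X j) → i = j
  all : ∀ S : C, Simple S → E S → ∃ i, Nonempty (S ≅ X i)

variable {E : ObjectProperty C} {J : Type} {X : J → C}

theorem SFam.hom_zero (hX : SFam E J X) {i j : J} (h : i ≠ j) (f : X i ⟶ X j) : f = 0 := by
  by_contra hne
  have := hX.simple i
  have := hX.simple j
  have : IsIso f := isIso_of_hom_simple hne
  exact h (hX.inj i j ⟨asIso f⟩)

theorem SFam.exists_smul [IsAlgClosed k] (hfin : ∀ X Y : C, Module.Finite k (X ⟶ Y))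
    (hX : SFam E J X) {j : J} (f : X j ⟶ X j) : ∃ c : k, f = c • 𝟙 (X j) := by
  have := hX.simple j
  have := hfin (X j) (X j)
  obtain ⟨c, hc⟩ := endomorphism_simple_eq_smul_id k f
  exact ⟨c, hc.symm⟩

theorem id_ne (j : J) (hX : SFam E J X) : 𝟙 (X j) ≠ 0 := by
  have := hX.simple j
  exact id_nonzero (X j)

/-- A morphism from an object of `E` killed by all morphisms from the simple objects is zero. -/
theorem SFam.kill (hart : ∀ X : C, IsArtinianObject X)
    (hquot : ∀ {X Y : C} (f : X ⟶ Y), Epi f → E X → E Y)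
    (hsub : ∀ {X Y : C} (f : X ⟶ Y), Mono f → E Y → E X)
    (hss : ∀ {A B : C}, E A → E B → ∀ p : A ⟶ B, Epi p → ∃ s, s ≫ p = 𝟙 B)
    (hX : SFam E J X) {M N : C} (hM : E M) (ψ : M ⟶ N)
    (h : ∀ j (t : X j ⟶ M), t ≫ ψ = 0) : ψ = 0 := by
  by_contra hne
  have hI : ¬ IsZero (image ψ) := by
    intro h0
    apply hne
    rw [← image.fac ψ, h0.eq_of_src (image.ι ψ) 0, comp_zero]
  have := hart (image ψ)
  obtain ⟨S, hS⟩ : ∃ S : Subobject (image ψ), Simple (S : C) := by
    obtain ⟨S, hS⟩ := exists_simple_subobject hI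
    exact ⟨S, hS⟩
  have hEI : E (image ψ) := hquot (factorThruImage ψ) inferInstance hM
  have hES : E (S : C) := hsub S.arrow inferInstance hEI
  obtain ⟨s, hs⟩ := hss hM hEI (factorThruImage ψ) inferInstance
  obtain ⟨j, ⟨e⟩⟩ := hX.all (S : C) hS hES
  have h1 := h j (e.inv ≫ S.arrow ≫ s)
  have h2 : e.inv ≫ S.arrow ≫ image.ι ψ = 0 := by
    have h6 : s ≫ ψ = image.ι ψ := by
      have h7 : s ≫ factorThruImage ψ ≫ image.ι ψ = image.ι ψ := by
        rw [reassoc_of% hs]
      rwa [image.fac ψ] at h7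
    rw [← h6, ← h1]
    simp only [Category.assoc]
  have h3 : S.arrow ≫ image.ι ψ = 0 := by
    rw [← cancel_epi e.inv, h2, comp_zero]
  have h4 : S.arrow = 0 := by
    rw [← cancel_mono (image.ι ψ), h3, zero_comp]
  have h5 : 𝟙 (S : C) = 0 := by
    rw [← cancel_mono S.arrow, h4, comp_zero, comp_zero]
  exact id_nonzero (S : C) h5

/-- dual bases of `Hom(X l, M)` and `Hom(M, X l)` -/
theorem SFam.exists_dual [IsAlgClosed k] (hfin : ∀ X Y : C, Module.Finite k (X ⟶ Y))
    (hquot : ∀ {X Y : C} (f : X ⟶ Y), Epi f → E X → E Y)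
    (hss : ∀ {A B : C}, E A → E B → ∀ p : A ⟶ B, Epi p → ∃ s, s ≫ p = 𝟙 B)
    (hX : SFam E J X) {M : C} (hM : E M) (l : J) :
    ∃ (s : Fin (Module.finrank k (X l ⟶ M)) → (X l ⟶ M))
      (r : Fin (Module.finrank k (X l ⟶ M)) → (M ⟶ X l)),
      (∀ a b, s a ≫ r b = if a = b then 𝟙 (X l) else 0) ∧
      (∀ t : X l ⟶ M, ∃ c : Fin (Module.finrank k (X l ⟶ M)) → k, t = ∑ a, c a • s a) ∧
      Module.finrank k (M ⟶ X l) = Module.finrank k (X l ⟶ M) := by
  classical
  have hsl := hX.simple l
  have := hfin (X l) M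
  have := hfin M (X l)
  have hne : 𝟙 (X l) ≠ 0 := id_nonzero (X l)
  have hbij : Function.Bijective (LinearMap.toSpanSingleton k (X l ⟶ X l) (𝟙 (X l))) := by
    constructor
    · intro a b hab
      have h1 : (a - b) • 𝟙 (X l) = 0 := by
        rw [sub_smul, sub_eq_zero]
        exact hab
      rcases smul_eq_zero.1 h1 with h2 | h2
      · exact sub_eq_zero.1 h2
      · exact absurd h2 hne
    · intro f
      obtain ⟨c, hc⟩ := hX.exists_smul hfin f
      exact ⟨c, hc.symm⟩
  let sce := LinearEquiv.ofBijective _ hbij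
  let sc : (X l ⟶ X l) →ₗ[k] k := sce.symm.toLinearMap
  have hsc : ∀ f : X l ⟶ X l, f = sc f • 𝟙 (X l) := fun f => (sce.apply_symm_apply f).symm
  let B : (X l ⟶ M) →ₗ[k] (M ⟶ X l) →ₗ[k] k := (Linear.comp (X l) M (X l)).compr₂ sc
  have hB : ∀ s r, B s r = sc (s ≫ r) := fun s r => rfl
  have hB1 : ∀ (s : X l ⟶ M) (r : M ⟶ X l), s ≫ r = 𝟙 (X l) → B s r ≠ 0 := by
    intro s r h1 h0
    rw [hB, h1] at h0
    have h2 := hsc (𝟙 (X l))
    rw [h0, zero_smul] at h2
    exact hne h2
  -- nondegenerate on the left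
  have hl : Function.Injective B := by
    rw [← LinearMap.ker_eq_bot, LinearMap.ker_eq_bot']
    intro s hs
    by_contra hs0
    have hmono : Mono s := mono_of_nonzero_from_simple hs0
    have hE3 : E (cokernel s) := hquot (cokernel.π s) inferInstance hM
    obtain ⟨σ, hσ⟩ := hss hM hE3 (cokernel.π s) inferInstance
    have h1 : (𝟙 M - cokernel.π s ≫ σ) ≫ cokernel.π s = 0 := by
      rw [Preadditive.sub_comp, Category.assoc, hσ, Category.comp_id, Category.id_comp, sub_self]
    have h2 : (Abelian.monoLift s (𝟙 M - cokernel.π s ≫ σ) h1) ≫ s =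
        𝟙 M - cokernel.π s ≫ σ := Abelian.monoLift_comp _ _ _
    have h3 : s ≫ (Abelian.monoLift s (𝟙 M - cokernel.π s ≫ σ) h1) = 𝟙 (X l) := by
      rw [← cancel_mono s, Category.assoc, h2, Preadditive.comp_sub, cokernel.condition_assoc,
        zero_comp, sub_zero, Category.comp_id, Category.id_comp]
    exact hB1 s _ h3 (by rw [hs]; rfl)
  have hr : Function.Injective B.flip := by
    rw [← LinearMap.ker_eq_bot, LinearMap.ker_eq_bot']
    intro r hr
    by_contra hr0
    have hepi : Epi r := epi_of_nonzero_to_simple hr0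
    obtain ⟨s, hs⟩ := hss hM (hX.mem l) r hepi
    exact hB1 s r hs (by
      have := congrArg (fun φ => φ s) hr
      exact this)
  have e1 : Module.finrank k (X l ⟶ M) ≤ Module.finrank k (M ⟶ X l) := by
    have := LinearMap.finrank_le_finrank_of_injective hl
    rwa [Subspace.dual_finrank_eq] at this
  have e2 : Module.finrank k (M ⟶ X l) ≤ Module.finrank k (X l ⟶ M) := by
    have := LinearMap.finrank_le_finrank_of_injective hr
    rwa [Subspace.dual_finrank_eq] at this
  have hsurj : Function.Surjective B.flip := by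
    refine (LinearMap.injective_iff_surjective_of_finrank_eq_finrank ?_).1 hr
    rw [Subspace.dual_finrank_eq]
    exact le_antisymm e2 e1
  let b := Module.finBasis k (X l ⟶ M)
  choose r hr' using fun i => hsurj (b.coord i)
  refine ⟨b, r, ?_, fun t => ⟨fun a => b.repr t a, (b.sum_repr t).symm⟩, le_antisymm e2 e1⟩
  intro i j
  have h1 : sc (b i ≫ r j) = b.coord j (b i) := by
    have := congrArg (fun φ => φ (b i)) (hr' j)
    exact this
  rw [hsc (b i ≫ r j), h1, Module.Basis.coord_apply, Module.Basis.repr_self,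
    Finsupp.single_apply]
  by_cases h : i = j
  · rw [if_pos h, if_pos h, one_smul]
  · rw [if_neg h, if_neg h, zero_smul]

variable (k) in
/-- dual families of morphisms between the simple objects and `M` -/
structure Dec (X : J → C) [Fintype J] (M : C) where
  s : ∀ l, Fin (Module.finrank k (X l ⟶ M)) → (X l ⟶ M)
  r : ∀ l, Fin (Module.finrank k (X l ⟶ M)) → (M ⟶ X l)
  dual : ∀ l a b, s l a ≫ r l b = if a = b then 𝟙 (X l) else 0
  complete : ∑ l, ∑ a, r l a ≫ s l a = 𝟙 M

/-- Every object of `E` has dual families. -/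
theorem SFam.exists_dec [IsAlgClosed k] [Fintype J]
    (hfin : ∀ X Y : C, Module.Finite k (X ⟶ Y)) (hart : ∀ X : C, IsArtinianObject X)
    (hquot : ∀ {X Y : C} (f : X ⟶ Y), Epi f → E X → E Y)
    (hsub : ∀ {X Y : C} (f : X ⟶ Y), Mono f → E Y → E X)
    (hss : ∀ {A B : C}, E A → E B → ∀ p : A ⟶ B, Epi p → ∃ s, s ≫ p = 𝟙 B)
    (hX : SFam E J X) {M : C} (hM : E M) : Nonempty (Dec k X M) := by
  classical
  choose s r h1 h2 using fun l => hX.exists_dual (k := k) hfin hquot hss hM l
  refine ⟨⟨s, r, h1, ?_⟩⟩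
  rw [← sub_eq_zero]
  refine hX.kill hart hquot hsub hss hM _ (fun j t => ?_)
  have h3 : ∀ a, s j a ≫ (∑ l, ∑ b, r l b ≫ s l b) = s j a := by
    intro a
    rw [Preadditive.comp_sum, Finset.sum_eq_single j]
    · rw [Preadditive.comp_sum, Finset.sum_eq_single a]
      · rw [← Category.assoc, h1, if_pos rfl, Category.id_comp]
      · intro b _ hb
        rw [← Category.assoc, h1, if_neg (Ne.symm hb), zero_comp]
      · intro h; exact absurd (Finset.mem_univ _) h
    · intro l _ hl
      rw [Preadditive.comp_sum]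
      refine Finset.sum_eq_zero fun b _ => ?_
      rw [← Category.assoc, hX.hom_zero (Ne.symm hl) (s j a ≫ r l b), zero_comp]
    · intro h; exact absurd (Finset.mem_univ _) h
  obtain ⟨c, hc⟩ := (h2 j).1 t
  rw [Preadditive.comp_sub, Category.comp_id, hc, Preadditive.sum_comp, ← Finset.sum_sub_distrib]
  refine Finset.sum_eq_zero fun a _ => ?_
  rw [Linear.smul_comp, h3, sub_self]

theorem Dec.expand_src [IsAlgClosed k] [Fintype J] (hfin : ∀ X Y : C, Module.Finite k (X ⟶ Y))
    (hX : SFam E J X) {M : C} (d : Dec k X M) {l : J} (t : M ⟶ X l) :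
    ∃ c : Fin (Module.finrank k (X l ⟶ M)) → k, t = ∑ a, c a • d.r l a := by
  classical
  choose c hc using fun a => hX.exists_smul (k := k) hfin (d.s l a ≫ t)
  refine ⟨c, ?_⟩
  calc t = (∑ l', ∑ a, d.r l' a ≫ d.s l' a) ≫ t := by rw [d.complete, Category.id_comp]
    _ = ∑ a, c a • d.r l a := by
        rw [Preadditive.sum_comp, Finset.sum_eq_single l]
        · rw [Preadditive.sum_comp]
          refine Finset.sum_congr rfl fun a _ => ?_
          rw [Category.assoc, hc, Linear.comp_smul, Category.comp_id]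
        · intro l' _ hl'
          rw [Preadditive.sum_comp]
          refine Finset.sum_eq_zero fun a _ => ?_
          rw [Category.assoc, hX.hom_zero hl' (d.s l' a ≫ t), comp_zero]
        · intro h; exact absurd (Finset.mem_univ _) h

end dual

section braided

variable {k : Type*} [Field k] {Z : Type u} [Category.{v} Z] [Abelian Z] [Linear k Z]
  [MonoidalCategory Z] [MonoidalPreadditive Z] [MonoidalLinear k Z] [BraidedCategory Z]

variable (k) in
/-- the partial trace as a linear map -/
def ptrL (X D : Z) [ExactPairing X D] (Y Y' : Z) : (X ⊗ Y ⟶ X ⊗ Y') →ₗ[k] (Y ⟶ Y') where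
  toFun f := ptr X D f
  map_add' f g := by
    simp only [ptr, monoidalComp, MonoidalPreadditive.whiskerLeft_add, Preadditive.add_comp,
      Preadditive.comp_add]
  map_smul' c f := by
    simp only [ptr, monoidalComp, MonoidalLinear.whiskerLeft_smul, Linear.smul_comp,
      Linear.comp_smul, RingHom.id_apply]

variable (k) in
theorem ptrL_apply (X D : Z) [ExactPairing X D] {Y Y' : Z} (f : X ⊗ Y ⟶ X ⊗ Y') :
    ptrL k X D Y Y' f = ptr X D f := rfl

end braided

end Pool.Agent.MUG
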