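import Pool.Agent.MUG.SS2

/-!
# The integral formula (MP_388894, row SS)
-/

open CategoryTheory MonoidalCategory Limits

universe v u

set_option linter.unusedSectionVars false

namespace Pool.Agent.MUG

open Pool.Agent.MUE79

section braided

variable {k : Type*} [Field k] {Z : Type u} [Category.{v} Z] [Abelian Z] [Linear k Z]
  [MonoidalCategory Z] [MonoidalPreadditive Z] [MonoidalLinear k Z] [BraidedCategory Z]

variable (k) in
/-- bending as a linear map -/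
def bendLL {V DV : Z} [ExactPairing V DV] (X L : Z) : (X ⊗ V ⟶ L) →ₗ[k] (X ⟶ L ⊗ DV) where
  toFun f := bendL DV f
  map_add' f g := by
    simp only [bendL, monoidalComp, MonoidalPreadditive.add_whiskerRight,
      Preadditive.comp_add]
  map_smul' c f := by
    simp only [bendL, monoidalComp, MonoidalLinear.smul_whiskerRight,
      Linear.comp_smul, RingHom.id_apply]

theorem bendLL_apply {V DV : Z} [ExactPairing V DV] {X L : Z} (f : X ⊗ V ⟶ L) :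
    bendLL k (DV := DV) X L f = bendL DV f := rfl

theorem tr_smul (X D : Z) [ExactPairing X D] (c : k) (f : X ⟶ X) :
    tr X D (c • f) = c • tr X D f := by
  unfold tr
  rw [MonoidalLinear.smul_whiskerRight, ← ptrL_apply k, map_smul]
  rfl

variable (k) in
include k in
theorem tr_zero (X D : Z) [ExactPairing X D] : tr X D 0 = 0 := by
  unfold tr
  rw [MonoidalPreadditive.zero_whiskerRight, ← ptrL_apply k, map_zero]

variable (k) in
include k in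
theorem tr_sum (X D : Z) [ExactPairing X D] {ι : Type*} (s : Finset ι) (f : ι → (X ⟶ X)) :
    tr X D (∑ i ∈ s, f i) = ∑ i ∈ s, tr X D (f i) := by
  classical
  unfold tr
  rw [sum_whiskerRight, ← ptrL_apply k, map_sum]
  rfl

theorem smul_id_inj {A : Z} (hA : 𝟙 A ≠ 0) {a b : k} (h : a • 𝟙 A = b • 𝟙 A) : a = b := by
  have h1 : (a - b) • 𝟙 A = 0 := by rw [sub_smul, sub_eq_zero]; exact h
  rcases smul_eq_zero.1 h1 with h2 | h2
  · exact sub_eq_zero.1 h2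
  · exact absurd h2 hA

variable {E : ObjectProperty Z} {J : Type} {X : J → Z} [Fintype J]
variable [RigidCategory Z]

/-- `d j` is the dimension of `X j`. -/
def IsDim (X : J → Z) (d : J → k) : Prop :=
  ∀ j, tr (X j) ((X j)ᘁ) (𝟙 (X j)) = d j • 𝟙 (𝟙_ Z)

theorem bend_dual [IsAlgClosed k] (hfin : ∀ X Y : Z, Module.Finite k (X ⟶ Y))
    (h1 : 𝟙 (𝟙_ Z) ≠ 0) (hcom : ∀ A B, E A → E B → Comm A B) (hX : SFam E J X) {d : J → k}
    (hd : IsDim X d) {V : Z} (hV : E V) (j l : J) (D : Dec k X (X j ⊗ V))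
    (a b : Fin (Module.finrank k (X l ⟶ X j ⊗ V))) :
    d j • (bendL (Vᘁ : Z) (D.r l b) ≫ bendR (Vᘁ : Z) (D.s l a)) =
      (if a = b then d l else 0) • 𝟙 (X j) := by
  obtain ⟨c, hc⟩ := hX.exists_smul (k := k) hfin
    (bendL (Vᘁ : Z) (D.r l b) ≫ bendR (Vᘁ : Z) (D.s l a))
  have h2 : tr (X j) ((X j)ᘁ) (bendL (Vᘁ : Z) (D.r l b) ≫ bendR (Vᘁ : Z) (D.s l a)) =
      (c * d j) • 𝟙 (𝟙_ Z) := by
    rw [hc, tr_smul, hd j, smul_smul]
  have h3 : tr (X j) ((X j)ᘁ) (bendL (Vᘁ : Z) (D.r l b) ≫ bendR (Vᘁ : Z) (D.s l a)) =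
      (if a = b then d l else 0) • 𝟙 (𝟙_ Z) := by
    rw [tr_bend, ← tr_tensor (hcom V (X j) hV (hX.mem j)),
      tr_cyc (D' := (X l)ᘁ), D.dual]
    by_cases h : a = b
    · rw [if_pos h, if_pos h, hd l]
    · rw [if_neg h, if_neg h, tr_zero k, zero_smul]
  have h4 : c * d j = if a = b then d l else 0 := by
    apply smul_id_inj h1
    rw [← h2, h3]
  rw [hc, smul_smul, mul_comm, h4]

/-- The completeness formula. -/
theorem bend_complete [IsAlgClosed k] [hE : TensorSub E]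
    (hfin : ∀ X Y : Z, Module.Finite k (X ⟶ Y))
    (hart : ∀ X : Z, IsArtinianObject X)
    (hss : ∀ {A B : Z}, E A → E B → ∀ p : A ⟶ B, Epi p → ∃ s, s ≫ p = 𝟙 B)
    (h1 : 𝟙 (𝟙_ Z) ≠ 0) (hcom : ∀ A B, E A → E B → Comm A B) (hX : SFam E J X) {d : J → k}
    (hd : IsDim X d) {V : Z} (hV : E V) (D : ∀ j, Dec k X (X j ⊗ V)) (l : J) :
    ∑ j, d j • ∑ a, bendR (Vᘁ : Z) ((D j).s l a) ≫ bendL (Vᘁ : Z) ((D j).r l a) =
      d l • 𝟙 (X l ⊗ (Vᘁ : Z)) := by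
  classical
  rw [← sub_eq_zero]
  refine hX.kill hart (fun f hf h => hE.quot f h) (fun f hf h => hE.sub f h) hss
    (hE.tensor (hX.mem l) (hE.rdual hV)) _ (fun j t => ?_)
  have h3 : ∀ b, bendL (Vᘁ : Z) ((D j).r l b) ≫
      (∑ j, d j • ∑ a, bendR (Vᘁ : Z) ((D j).s l a) ≫ bendL (Vᘁ : Z) ((D j).r l a)) =
        d l • bendL (Vᘁ : Z) ((D j).r l b) := by
    intro b
    rw [Preadditive.comp_sum, Finset.sum_eq_single j]
    · rw [Linear.comp_smul, Preadditive.comp_sum, Finset.smul_sum, Finset.sum_eq_single b]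
      · rw [← Category.assoc, ← Linear.smul_comp,
          bend_dual hfin h1 hcom hX hd hV, if_pos rfl, Linear.smul_comp, Category.id_comp]
      · intro a _ ha
        rw [← Category.assoc, ← Linear.smul_comp,
          bend_dual hfin h1 hcom hX hd hV, if_neg ha, zero_smul, zero_comp]
      · intro h; exact absurd (Finset.mem_univ _) h
    · intro j' _ hj'
      rw [Linear.comp_smul, Preadditive.comp_sum]
      rw [Finset.sum_eq_zero, smul_zero]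
      intro a _
      rw [← Category.assoc, hX.hom_zero (Ne.symm hj')
        (bendL (Vᘁ : Z) ((D j).r l b) ≫ bendR (Vᘁ : Z) ((D j').s l a)), zero_comp]
    · intro h; exact absurd (Finset.mem_univ _) h
  obtain ⟨c, hc⟩ := (D j).expand_src hfin hX (t ▷ V ⊗≫ X l ◁ ε_ V (Vᘁ) ⊗≫ 𝟙 (X l))
  have h4 : t = ∑ a, c a • bendL (Vᘁ : Z) ((D j).r l a) := by
    have h5 : bendL (Vᘁ : Z) (t ▷ V ⊗≫ X l ◁ ε_ V (Vᘁ) ⊗≫ 𝟙 (X l)) = t :=
      bendL_surj (V := V) (Vᘁ : Z) t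
    rw [← h5, hc, ← bendLL_apply (k := k), map_sum]
    refine Finset.sum_congr rfl fun a _ => ?_
    rw [map_smul]
    rfl
  rw [Preadditive.comp_sub, Linear.comp_smul, Category.comp_id, h4, Preadditive.sum_comp,
    Finset.smul_sum, ← Finset.sum_sub_distrib]
  refine Finset.sum_eq_zero fun a _ => ?_
  rw [Linear.smul_comp, h3, smul_comm, sub_self]

/-- **The integral formula.** -/
theorem integral_formula [IsAlgClosed k] [hE : TensorSub E]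
    (hfin : ∀ X Y : Z, Module.Finite k (X ⟶ Y))
    (hart : ∀ X : Z, IsArtinianObject X)
    (hss : ∀ {A B : Z}, E A → E B → ∀ p : A ⟶ B, Epi p → ∃ s, s ≫ p = 𝟙 B)
    (h1 : 𝟙 (𝟙_ Z) ≠ 0) (hcom : ∀ A B, E A → E B → Comm A B) (hX : SFam E J X) {d : J → k}
    (hd : IsDim X d) {V : Z} (hV : E V) (Y : Z) (ν : ∀ W : Z, W ⊗ Y ⟶ W ⊗ Y)
    (hν : ∀ {W W' : Z} (f : W ⟶ W'), f ▷ Y ≫ ν W' = ν W ≫ f ▷ Y) :
    ∑ j, d j • ptr (X j) ((X j)ᘁ) ((α_ (X j) V Y).inv ≫ ν (X j ⊗ V) ≫ (α_ (X j) V Y).hom) =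
      V ◁ ∑ j, d j • ptr (X j) ((X j)ᘁ) (ν (X j)) := by
  classical
  let _ : ExactPairing (Vᘁ) V := BraidedCategory.exactPairing_swap V (Vᘁ)
  have hs : (β_ V (Vᘁ)).hom ≫ (β_ (Vᘁ) V).hom = 𝟙 (V ⊗ (Vᘁ)) :=
    hcom V (Vᘁ) hV (hE.rdual hV)
  have e1 : η_ (Vᘁ) V = kap V (Vᘁ) := by
    unfold kap
    have h3 : (β_ V (Vᘁ)).hom = (β_ (Vᘁ) V).inv := by
      rw [← cancel_mono (β_ (Vᘁ) V).hom, hs, Iso.inv_hom_id]
    rw [h3]
    rfl
  have e2 : ε_ (Vᘁ) V = (β_ V (Vᘁ)).hom ≫ ε_ V (Vᘁ) := rfl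
  have hD : ∀ j, Nonempty (Dec k X (X j ⊗ V)) := fun j =>
    hX.exists_dec hfin hart (fun f hf h => hE.quot f h) (fun f hf h => hE.sub f h) hss
      (hE.tensor (hX.mem j) hV)
  have D : ∀ j, Dec k X (X j ⊗ V) := fun j => (hD j).some
  -- expand `ν (X j ⊗ V)`
  have s1 : ∀ j, ptr (X j) ((X j)ᘁ)
      ((α_ (X j) V Y).inv ≫ ν (X j ⊗ V) ≫ (α_ (X j) V Y).hom) =
      ∑ l, ∑ a, ptr (X l ⊗ (Vᘁ : Z)) (V ⊗ ((X l)ᘁ : Z)) (sand (V := V) (DV := Vᘁ) (ν (X l)) ≫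
        (bendR (Vᘁ : Z) ((D j).s l a) ≫ bendL (Vᘁ : Z) ((D j).r l a)) ▷ (V ⊗ Y)) := by
    intro j
    have h2 : (α_ (X j) V Y).inv ≫ ν (X j ⊗ V) ≫ (α_ (X j) V Y).hom =
        ∑ l, ∑ a, (α_ (X j) V Y).inv ≫ ((D j).r l a ▷ Y ≫ ν (X l) ≫ (D j).s l a ▷ Y) ≫
          (α_ (X j) V Y).hom := by
      have h3 : ν (X j ⊗ V) = ∑ l, ∑ a, (D j).r l a ▷ Y ≫ ν (X l) ≫ (D j).s l a ▷ Y := by
        have h4 : ν (X j ⊗ V) = ν (X j ⊗ V) ≫ (𝟙 (X j ⊗ V)) ▷ Y := by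
          rw [id_whiskerRight, Category.comp_id]
        rw [h4, ← (D j).complete, sum_whiskerRight, Preadditive.comp_sum]
        refine Finset.sum_congr rfl fun l _ => ?_
        rw [sum_whiskerRight, Preadditive.comp_sum]
        refine Finset.sum_congr rfl fun a _ => ?_
        rw [comp_whiskerRight, ← Category.assoc, ← hν, Category.assoc]
      rw [h3]
      simp only [Preadditive.comp_sum, Preadditive.sum_comp]
    rw [h2, ← ptrL_apply k, map_sum]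
    refine Finset.sum_congr rfl fun l _ => ?_
    rw [map_sum]
    refine Finset.sum_congr rfl fun a _ => ?_
    rw [ptrL_apply, ptr_bend (DL := (X l)ᘁ) hs]
  have s2 : ∑ j, d j • ptr (X j) ((X j)ᘁ)
      ((α_ (X j) V Y).inv ≫ ν (X j ⊗ V) ≫ (α_ (X j) V Y).hom) =
      ∑ l, ptr (X l ⊗ (Vᘁ : Z)) (V ⊗ ((X l)ᘁ : Z)) (sand (V := V) (DV := Vᘁ) (ν (X l)) ≫
        (∑ j, d j • ∑ a, bendR (Vᘁ : Z) ((D j).s l a) ≫ bendL (Vᘁ : Z) ((D j).r l a)) ▷ (V ⊗ Y)) := by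
    have h5 : ∀ l, ptr (X l ⊗ (Vᘁ : Z)) (V ⊗ ((X l)ᘁ : Z)) (sand (V := V) (DV := Vᘁ) (ν (X l)) ≫
        (∑ j, d j • ∑ a, bendR (Vᘁ : Z) ((D j).s l a) ≫ bendL (Vᘁ : Z) ((D j).r l a)) ▷ (V ⊗ Y)) =
        ∑ j, d j • ∑ a, ptr (X l ⊗ (Vᘁ : Z)) (V ⊗ ((X l)ᘁ : Z)) (sand (V := V) (DV := Vᘁ) (ν (X l)) ≫
        (bendR (Vᘁ : Z) ((D j).s l a) ≫ bendL (Vᘁ : Z) ((D j).r l a)) ▷ (V ⊗ Y)) := by
      intro l
      rw [sum_whiskerRight, Preadditive.comp_sum, ← ptrL_apply k, map_sum]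
      refine Finset.sum_congr rfl fun j _ => ?_
      rw [MonoidalLinear.smul_whiskerRight, Linear.comp_smul, map_smul, sum_whiskerRight,
        Preadditive.comp_sum, map_sum]
      rfl
    simp only [h5]
    rw [Finset.sum_comm]
    refine Finset.sum_congr rfl fun j _ => ?_
    rw [s1 j, Finset.smul_sum]
  rw [s2]
  have s3 : ∀ l, ptr (X l ⊗ (Vᘁ : Z)) (V ⊗ ((X l)ᘁ : Z)) (sand (V := V) (DV := Vᘁ) (ν (X l)) ≫
        (∑ j, d j • ∑ a, bendR (Vᘁ : Z) ((D j).s l a) ≫ bendL (Vᘁ : Z) ((D j).r l a)) ▷ (V ⊗ Y)) =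
      V ◁ (d l • ptr (X l) ((X l)ᘁ) (ν (X l))) := by
    intro l
    rw [bend_complete hfin hart hss h1 hcom hX hd hV D l, MonoidalLinear.smul_whiskerRight,
      id_whiskerRight, Linear.comp_smul, Category.comp_id, ← ptrL_apply k, map_smul, ptrL_apply,
      ptr_sand e1 e2 hs (hcom _ _ (hE.rdual hV) (hX.mem l)), MonoidalLinear.whiskerLeft_smul]
  simp only [s3]
  rw [whiskerLeft_sum]

end braided

end Pool.Agent.MUG
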