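import Pool.Agent.MUG.SS3

/-!
# The projection onto the centralizer (MP_388894, row SS)
-/

open CategoryTheory MonoidalCategory Limits

universe v u

set_option linter.unusedSectionVars false

namespace Pool.Agent.MUG

open Pool.Agent.MUE79

section braided

variable {k : Type*} [Field k] {Z : Type u} [Category.{v} Z] [Abelian Z] [Linear k Z]
  [MonoidalCategory Z] [MonoidalPreadditive Z] [MonoidalLinear k Z] [BraidedCategory Z]

variable {E : ObjectProperty Z} {J : Type} {X : J → Z} [Fintype J]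
variable [RigidCategory Z]

/-- the weighted sum of the traces of the double braiding -/
noncomputable def av0 (X : J → Z) (d : J → k) (Y : Z) : Y ⟶ Y :=
  ∑ j, d j • ptr (X j) ((X j)ᘁ) (cc (X j) Y)

theorem av0_nat (d : J → k) {Y Y' : Z} (f : Y ⟶ Y') :
    av0 X d Y ≫ f = f ≫ av0 X d Y' := by
  unfold av0
  rw [Preadditive.sum_comp, Preadditive.comp_sum]
  refine Finset.sum_congr rfl fun j _ => ?_
  rw [Linear.smul_comp, Linear.comp_smul, ← ptr_nat_left, ← ptr_nat_right, cc_nat_right]

theorem av0_cc [IsAlgClosed k] [hE : TensorSub E]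
    (hfin : ∀ X Y : Z, Module.Finite k (X ⟶ Y))
    (hart : ∀ X : Z, IsArtinianObject X)
    (hss : ∀ {A B : Z}, E A → E B → ∀ p : A ⟶ B, Epi p → ∃ s, s ≫ p = 𝟙 B)
    (h1 : 𝟙 (𝟙_ Z) ≠ 0) (hcom : ∀ A B, E A → E B → Comm A B) (hX : SFam E J X) {d : J → k}
    (hd : IsDim X d) {V : Z} (hV : E V) (Y : Z) :
    (V ◁ av0 X d Y) ≫ cc V Y = V ◁ av0 X d Y := by
  have h := integral_formula hfin hart hss h1 hcom hX hd hV Y (fun W => cc W Y)
    (fun f => cc_nat_left f Y)
  have h2 : ∀ j, ptr (X j) ((X j)ᘁ)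
      ((α_ (X j) V Y).inv ≫ cc (X j ⊗ V) Y ≫ (α_ (X j) V Y).hom) =
      V ◁ ptr (X j) ((X j)ᘁ) (cc (X j) Y) ≫ cc V Y := fun j => ptr_cc _ _ _ _
  simp only [h2] at h
  unfold av0
  refine Eq.trans ?_ h
  rw [whiskerLeft_sum, Preadditive.sum_comp]
  refine Finset.sum_congr rfl fun j _ => ?_
  rw [MonoidalLinear.whiskerLeft_smul, Linear.smul_comp]

theorem av0_of_centralizer (hX : SFam E J X) {d : J → k} (hd : IsDim X d) {Y : Z}
    (hY : centralizer E Y) : av0 X d Y = (∑ j, d j * d j) • 𝟙 Y := by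
  unfold av0
  rw [Finset.sum_smul]
  refine Finset.sum_congr rfl fun j _ => ?_
  have h1 : cc (X j) Y = 𝟙 (X j) ▷ Y := by
    rw [id_whiskerRight]
    have h2 := hY (X j) (hX.mem j)
    have h3 : (β_ (X j) Y).hom = (β_ Y (X j)).inv := by
      rw [← cancel_epi (β_ Y (X j)).hom, h2, Iso.hom_inv_id]
    unfold cc
    rw [h3, Iso.inv_hom_id]
  rw [h1, ptr_tensor_id, hd j, mul_smul]
  congr 1
  rw [MonoidalLinear.smul_whiskerRight, id_whiskerRight]
  simp only [monoidalComp, Linear.comp_smul, Linear.smul_comp, Category.comp_id,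
    Category.id_comp]
  congr 1
  monoidal

/-- Row SS relative to the non-vanishing of the dimension. -/
theorem projective_of_dim [IsAlgClosed k] [hE : TensorSub E]
    (hfin : ∀ X Y : Z, Module.Finite k (X ⟶ Y))
    (hart : ∀ X : Z, IsArtinianObject X)
    (hss : ∀ {A B : Z}, E A → E B → ∀ p : A ⟶ B, Epi p → ∃ s, s ≫ p = 𝟙 B)
    (h1 : 𝟙 (𝟙_ Z) ≠ 0) (hcom : ∀ A B, E A → E B → Comm A B) (hX : SFam E J X) {d : J → k}
    (hd : IsDim X d) (hD : ∑ j, d j * d j ≠ 0) {P : Z} (hP : ProjIn (centralizer E) P) :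
    Projective P := by
  -- the normalized projection
  let e : ∀ Y : Z, Y ⟶ Y := fun Y => (∑ j, d j * d j)⁻¹ • av0 X d Y
  have enat : ∀ {Y Y' : Z} (f : Y ⟶ Y'), e Y ≫ f = f ≫ e Y' := by
    intro Y Y' f
    simp only [e, Linear.smul_comp, Linear.comp_smul, av0_nat]
  have ecc : ∀ (V Y : Z), E V → (V ◁ e Y) ≫ cc V Y = V ◁ e Y := by
    intro V Y hV
    simp only [e, MonoidalLinear.whiskerLeft_smul, Linear.smul_comp]
    rw [av0_cc hfin hart hss h1 hcom hX hd hV]
  have eone : ∀ Y, centralizer E Y → e Y = 𝟙 Y := by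
    intro Y hY
    simp only [e]
    rw [av0_of_centralizer hX hd hY, smul_smul, inv_mul_cancel₀ hD, one_smul]
  have him : ∀ Y, centralizer E (image (e Y)) := by
    intro Y V hV
    have h2 : cc V (image (e Y)) = 𝟙 _ := by
      have h3 : (V ◁ factorThruImage (e Y)) ≫ cc V (image (e Y)) ≫ (V ◁ image.ι (e Y)) =
          (V ◁ factorThruImage (e Y)) ≫ 𝟙 _ ≫ (V ◁ image.ι (e Y)) := by
        rw [← cc_nat_right, ← MonoidalCategory.whiskerLeft_comp_assoc, image.fac, ecc V Y hV,
          Category.id_comp, ← MonoidalCategory.whiskerLeft_comp, image.fac]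
      have he : Epi (V ◁ factorThruImage (e Y)) := by
        have : Epi ((tensorLeft V).map (factorThruImage (e Y))) := inferInstance
        exact this
      have hm : Mono (V ◁ image.ι (e Y)) := by
        have : Mono ((tensorLeft V).map (image.ι (e Y))) := inferInstance
        exact this
      rw [cancel_epi, cancel_mono] at h3
      exact h3
    unfold cc at h2
    have h4 : (β_ V (image (e Y))).hom = (β_ (image (e Y)) V).inv := by
      rw [← cancel_mono (β_ (image (e Y)) V).hom, h2, Iso.inv_hom_id]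
    rw [h4, Iso.hom_inv_id]
  refine ⟨fun {Y' Y} g f hf => ?_⟩
  -- the map between the images
  let q : Y' ⟶ image (e Y) := f ≫ factorThruImage (e Y)
  have hq : Epi q := epi_comp _ _
  have h5 : e Y ≫ factorThruImage (e Y) = factorThruImage (e Y) := by
    rw [enat, eone _ (him Y), Category.comp_id]
  have hq1 : q = factorThruImage (e Y') ≫ image.ι (e Y') ≫ f ≫ factorThruImage (e Y) := by
    have h8 : e Y' ≫ f ≫ factorThruImage (e Y) = f ≫ factorThruImage (e Y) := by
      rw [← Category.assoc, enat, Category.assoc, h5]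
    rw [image.fac_assoc, h8]
  let m : image (e Y') ⟶ image (e Y) := image.ι (e Y') ≫ f ≫ factorThruImage (e Y)
  have hm : Epi m := by
    have : Epi (factorThruImage (e Y') ≫ m) := by
      have h6 : factorThruImage (e Y') ≫ m = q := hq1.symm
      rw [h6]
      exact hq
    exact epi_of_epi (factorThruImage (e Y')) m
  have hm1 : m ≫ image.ι (e Y) = image.ι (e Y') ≫ f := by
    have h7 : image.ι (e Y') ≫ e Y' = image.ι (e Y') := by
      rw [← enat, eone _ (him Y'), Category.id_comp]
    calc m ≫ image.ι (e Y) = image.ι (e Y') ≫ f ≫ e Y := by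
          simp only [m, Category.assoc, image.fac]
      _ = image.ι (e Y') ≫ f := by
          rw [← enat, reassoc_of% h7]
  obtain ⟨h, hh⟩ := hP.2 m hm (him Y') (him Y) (g ≫ factorThruImage (e Y))
  refine ⟨h ≫ image.ι (e Y'), ?_⟩
  rw [Category.assoc, ← hm1, reassoc_of% hh, image.fac, ← enat, eone _ hP.1, Category.id_comp]

end braided

end Pool.Agent.MUG
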