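import Pool.Agent.MUG.SS5
import Pool.Agent.MUG.Q12
import Pool.Agent.MUG.PPa
import Pool.Agent.MUG.B0

/-!
# Averaging over a symmetric fusion subcategory: consequences (MP_388894, row U5)
-/

open CategoryTheory MonoidalCategory Limits

universe w v u

set_option linter.unusedSectionVars false

namespace Pool.Agent.MUG

open Pool.Agent.MUE79

section avg

variable {k : Type*} [Field k] {Z : Type u} [Category.{v} Z] [Abelian Z] [Linear k Z]
  [MonoidalCategory Z] [MonoidalPreadditive Z] [MonoidalLinear k Z] [BraidedCategory Z]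
  [RigidCategory Z]

theorem comm_swap {X Y : Z} (h : Comm X Y) : Comm Y X := by
  unfold Comm at h ⊢
  have h2 : (β_ Y X).hom = (β_ X Y).inv := by
    rw [← cancel_epi (β_ X Y).hom, h, Iso.hom_inv_id]
  rw [h2, Iso.inv_hom_id]

/-- **The averaging idempotent** of a symmetric semisimple tensor subcategory. -/
theorem exists_averaging [IsAlgClosed k] [CharZero k] (hZ : IsFinite k Z)
    (E : ObjectProperty Z) [hE : TensorSub E]
    (hss : ∀ {A B : Z}, E A → E B → ∀ p : A ⟶ B, Epi p → ∃ s, s ≫ p = 𝟙 B)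
    (hcom : ∀ A B, E A → E B → Comm A B) :
    ∃ e : ∀ Y : Z, Y ⟶ Y,
      (∀ {Y Y' : Z} (f : Y ⟶ Y'), e Y ≫ f = f ≫ e Y') ∧
      (∀ V Y, E V → (V ◁ e Y) ≫ (β_ V Y).hom ≫ (β_ Y V).hom = V ◁ e Y) ∧
      (∀ Y, centralizer E Y → e Y = 𝟙 Y) ∧
      (∀ Y, centralizer E (image (e Y))) ∧
      (∀ Y, e Y ≫ e Y = e Y) := by
  obtain ⟨J, hJ, X, hX⟩ := exists_sfam (k := k) hZ E
  have hunit := hZ.unit
  obtain ⟨d, hd⟩ := exists_dims (k := k) hZ.hom_finite hunit X
  have hD := dim_ne_zero hZ hss hcom hX hd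
  let e : ∀ Y : Z, Y ⟶ Y := fun Y => (∑ j, d j * d j)⁻¹ • av0 X d Y
  have enat : ∀ {Y Y' : Z} (f : Y ⟶ Y'), e Y ≫ f = f ≫ e Y' := by
    intro Y Y' f
    simp only [e, Linear.smul_comp, Linear.comp_smul, av0_nat]
  have ecc : ∀ (V Y : Z), E V → (V ◁ e Y) ≫ cc V Y = V ◁ e Y := by
    intro V Y hV
    simp only [e, MonoidalLinear.whiskerLeft_smul, Linear.smul_comp]
    rw [av0_cc hZ.hom_finite hZ.artinian hss (id_nonzero (𝟙_ Z)) hcom hX hd hV]
  have eone : ∀ Y, centralizer E Y → e Y = 𝟙 Y := by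
    intro Y hY
    simp only [e]
    rw [av0_of_centralizer hX hd hY, smul_smul, inv_mul_cancel₀ hD, one_smul]
  have him : ∀ Y, centralizer E (image (e Y)) := by
    intro Y V hV
    have h2 : cc V (image (e Y)) = 𝟙 _ := by
      have h3 : (V ◁ factorThruImage (e Y)) ≫ cc V (image (e Y)) ≫ (V ◁ image.ι (e Y)) =
          (V ◁ factorThruImage (e Y)) ≫ 𝟙 _ ≫ (V ◁ image.ι (e Y)) := by
        rw [← cc_nat_right, ← MonoidalCategory.whiskerLeft_comp_assoc, image.fac, ecc V Y hV,
          Category.id_comp, ← MonoidalCategory.whiskerLeft_comp, image.fac]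
      have he : Epi (V ◁ factorThruImage (e Y)) := by
        have : Epi ((tensorLeft V).map (factorThruImage (e Y))) := inferInstance
        exact this
      have hm : Mono (V ◁ image.ι (e Y)) := by
        have : Mono ((tensorLeft V).map (image.ι (e Y))) := inferInstance
        exact this
      rw [cancel_epi, cancel_mono] at h3
      exact h3
    exact comm_swap h2
  refine ⟨e, enat, fun V Y hV => ecc V Y hV, eone, him, fun Y => ?_⟩
  have h6 : image.ι (e Y) ≫ e Y = image.ι (e Y) := by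
    rw [← enat, eone _ (him Y), Category.id_comp]
  calc e Y ≫ e Y = factorThruImage (e Y) ≫ image.ι (e Y) ≫ e Y := by
        rw [image.fac_assoc]
    _ = e Y := by rw [h6, image.fac]

/-- The centralizer of a symmetric semisimple tensor subcategory is closed under extensions. -/
theorem centralizer_of_ses [IsAlgClosed k] [CharZero k] (hZ : IsFinite k Z)
    (E : ObjectProperty Z) [hE : TensorSub E]
    (hss : ∀ {A B : Z}, E A → E B → ∀ p : A ⟶ B, Epi p → ∃ s, s ≫ p = 𝟙 B)
    (hcom : ∀ A B, E A → E B → Comm A B) (S : ShortComplex Z) (hS : S.ShortExact)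
    (h1 : centralizer E S.X₁) (h3 : centralizer E S.X₃) : centralizer E S.X₂ := by
  obtain ⟨e, enat, ecc, eone, him, eidem⟩ := exists_averaging hZ E hss hcom
  have hmono := hS.mono_f
  have hepi := hS.epi_g
  -- `e` is `1` on the ends, so `1 - e` factors through `X₃ ⟶ X₁` and is idempotent
  have ha : S.f ≫ (𝟙 S.X₂ - e S.X₂) = 0 := by
    rw [Preadditive.comp_sub, Category.comp_id, ← enat, eone _ h1, Category.id_comp, sub_self]
  have hb : (𝟙 S.X₂ - e S.X₂) ≫ S.g = 0 := by
    rw [Preadditive.sub_comp, Category.id_comp, enat, eone _ h3, Category.comp_id, sub_self]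
  have hc : (𝟙 S.X₂ - e S.X₂) ≫ (𝟙 S.X₂ - e S.X₂) = 0 := by
    have h5 : hS.exact.lift (𝟙 S.X₂ - e S.X₂) hb ≫ S.f = 𝟙 S.X₂ - e S.X₂ :=
      hS.exact.lift_f _ _
    conv_lhs => rw [← h5]
    rw [Category.assoc, h5, ha, comp_zero]
  have hd : (𝟙 S.X₂ - e S.X₂) ≫ (𝟙 S.X₂ - e S.X₂) = 𝟙 S.X₂ - e S.X₂ := by
    rw [Preadditive.sub_comp, Category.id_comp, Preadditive.comp_sub, Category.comp_id, eidem,
      sub_self, sub_zero]
  have he : e S.X₂ = 𝟙 S.X₂ := by
    rw [hd, sub_eq_zero] at hc
    exact hc.symm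
  -- so `X₂` is the image
  have hT : TensorSub (centralizer E) := tensorSub_centralizer E
  have hi : Mono (factorThruImage (e S.X₂)) := by
    have : Mono (factorThruImage (e S.X₂) ≫ image.ι (e S.X₂)) := by
      rw [image.fac, he]
      infer_instance
    exact mono_of_mono (factorThruImage (e S.X₂)) (image.ι (e S.X₂))
  exact hT.sub (factorThruImage (e S.X₂)) (him S.X₂)

/-- FGC passes from `Z` to the centralizer of a symmetric semisimple tensor subcategory. -/
theorem fg_centralizer_ss [IsAlgClosed k] [CharZero k] [HasExt.{w} Z] (hZ : IsFinite k Z)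
    (hF : FGC.{w} k Z) (E : ObjectProperty Z) [hE : TensorSub E]
    (hss : ∀ {A B : Z}, E A → E B → ∀ p : A ⟶ B, Epi p → ∃ s, s ≫ p = 𝟙 B)
    (hcom : ∀ A B, E A → E B → Comm A B) (h : TensorSub (centralizer E)) :
    FG k (centralizer E) h := by
  have := hZ.enough
  have h1 := (finite_sub hZ (centralizer E)).enough
  have : HasExt.{max u v} (centralizer E).FullSubcategory := HasExt.standard _
  have h2 := exact_ι_lim (centralizer E)
  have h3 := exact_ι_colim (centralizer E)
  refine fgc_of_full (centralizer E).ι ?_ hF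
  intro P hP
  exact projective_of_projIn_centralizer_ss hZ E hss hcom (projIn_of_projective _ P hP)

end avg

end Pool.Agent.MUG
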