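import Pool.Agent.MUG.TNh
import Pool.Agent.MUG.ThmJ
import Pool.Agent.MUG.SS5

/-!
# Theorem N (row TN, helper45): FGC for tensor subcategories with a separable Mueger center
-/

open CategoryTheory MonoidalCategory Limits Abelian

universe w w' v u

set_option linter.unusedSectionVars false

namespace Pool.Agent.MUG

section TN

variable {k : Type*} [Field k] {Z : Type u} [Category.{v} Z] [Abelian Z] [Linear k Z]
  [MonoidalCategory Z] [MonoidalPreadditive Z] [MonoidalLinear k Z] [RigidCategory Z]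

variable [BraidedCategory Z]

/-- Theorem N, in terms of `FG`, any characteristic. -/
theorem theoremN [IsAlgClosed k] [HasExt.{w} Z] (hZ : IsFinite k Z) (hF : FGC.{w} k Z)
    (D : ObjectProperty Z) [hD : TensorSub D]
    (hss : ∀ {A B : Z}, (D ⊓ centralizer D) A → (D ⊓ centralizer D) B → ∀ p : A ⟶ B, Epi p →
      ∃ s, s ≫ p = 𝟙 B)
    {J : Type} [Fintype J] {X : J → Z} (hX : SFam (D ⊓ centralizer D) J X) {d : J → k}
    (hd : IsDim X d) (hdim : ∑ j, d j * d j ≠ 0) : FG k D hD := by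
  have h1 := hZ.unit
  have hD' := tensorSub_centralizer D
  have hE : TensorSub (D ⊓ centralizer D) := tensorSub_inf _ _
  refine fg_base' hZ hF D (centralizer D) (fun h1 h2 h3 h4 p hp => hss ⟨h1, h2⟩ ⟨h3, h4⟩ p hp) ?_
  intro P P' hP hP'
  exact projective_of_dim hZ.hom_finite hZ.artinian hss (id_nonzero (𝟙_ Z))
    (fun A B hA hB => hA.2 B hB.1) hX hd hdim (joinProj hZ D P P' hP hP')

/-- Theorem N in characteristic zero: the Mueger center of `D` is semisimple. -/
theorem theoremN_charZero [IsAlgClosed k] [CharZero k] [HasExt.{w} Z] (hZ : IsFinite k Z)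
    (hF : FGC.{w} k Z) (D : ObjectProperty Z) [hD : TensorSub D]
    (hss : ∀ {A B : Z}, (D ⊓ centralizer D) A → (D ⊓ centralizer D) B → ∀ p : A ⟶ B, Epi p →
      ∃ s, s ≫ p = 𝟙 B) : FG k D hD := by
  have h1 := hZ.unit
  have hD' := tensorSub_centralizer D
  have hE : TensorSub (D ⊓ centralizer D) := tensorSub_inf _ _
  obtain ⟨J, hJ, X, hX⟩ := exists_sfam (k := k) hZ (D ⊓ centralizer D)
  obtain ⟨d, hd⟩ := exists_dims (k := k) hZ.hom_finite h1 X
  exact theoremN hZ hF D hss hX hd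
    (dim_ne_zero hZ hss (fun A B hA hB => hA.2 B hB.1) hX hd)

/-- **Theorem N.** -/
theorem theoremN_fgc [IsAlgClosed k] [HasExt.{w} Z] (hZ : IsFinite k Z) (hF : FGC.{w} k Z)
    (D : ObjectProperty Z) [hD : TensorSub D]
    (hss : ∀ {A B : Z}, (D ⊓ centralizer D) A → (D ⊓ centralizer D) B → ∀ p : A ⟶ B, Epi p →
      ∃ s, s ≫ p = 𝟙 B)
    (hdim : CharZero k ∨ ∃ (J : Type) (_ : Fintype J) (X : J → Z) (d : J → k),
      SFam (D ⊓ centralizer D) J X ∧ IsDim X d ∧ ∑ j, d j * d j ≠ 0)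
    [hE : HasExt.{w'} D.FullSubcategory] : FGC.{w'} k D.FullSubcategory := by
  refine fgc_of_fg hZ D ?_
  rcases hdim with h0 | ⟨J, _, X, d, hX, hd, hne⟩
  · exact theoremN_charZero hZ hF D hss
  · exact theoremN hZ hF D hss hX hd hne

end TN

end Pool.Agent.MUG
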