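import Pool.Agent.MUG.P6
import Pool.Agent.MUG.TNh
import Pool.Agent.MUG.ThmJ
import Pool.Agent.MUG.SS5

/-!
# Theorem P (row TP, helper64)
-/

open CategoryTheory MonoidalCategory Limits Abelian

universe w w' v u

set_option linter.unusedSectionVars false

attribute [local instance] CategoryTheory.Abelian.hasFiniteBiproducts

namespace Pool.Agent.MUG

section TP

variable {k : Type*} [Field k] {Z : Type u} [Category.{v} Z] [Abelian Z] [Linear k Z]
  [MonoidalCategory Z] [MonoidalPreadditive Z] [MonoidalLinear k Z] [RigidCategory Z]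
  [BraidedCategory Z]

/-- BASE CASE in characteristic zero for every semisimple Mueger centre. -/
theorem base_semisimple [IsAlgClosed k] [CharZero k] [HasExt.{w} Z] (hZ : IsFinite k Z)
    (hF : FGC.{w} k Z) (D : ObjectProperty Z) (hD : TensorSub D)
    (hss : SplitEpis (D ⊓ centralizer D)) : FG k D hD := by
  have hD' := tensorSub_centralizer D
  have hE : TensorSub (D ⊓ centralizer D) := tensorSub_inf _ _
  refine fg_base' hZ hF D (centralizer D) (fun h1 h2 h3 h4 p hp => hss ⟨h1, h2⟩ ⟨h3, h4⟩ p hp) ?_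
  intro P P' hP hP'
  exact projective_of_projIn_centralizer_ss hZ (D ⊓ centralizer D)
    (fun hA hB p hp => hss hA hB p hp) (fun X Y hX hY => hX.2 Y hY.1)
    (joinProj hZ D P P' hP hP')

/-- THEOREM P. `k` algebraically closed of characteristic zero, `Z` a braided finite tensor
category with trivial Mueger centre satisfying FGC, `D` a tensor subcategory such that every
simple object `V` of `D ⊓ D^` with a non-split extension `0 ⟶ 𝟙 ⟶ U ⟶ V ⟶ 0` in `D ⊓ D^` is
invertible. Then `D` satisfies FGC. -/
theorem theoremP [IsAlgClosed k] [CharZero k] [HasExt.{w} Z] (hZ : IsFinite k Z)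
    (hnd : ∀ X : Z, (∀ Y, Comm X Y) → ∃ n : ℕ, Nonempty (X ≅ ⨁ (fun _ : Fin n => 𝟙_ Z)))
    (hF : FGC.{w} k Z) (D : ObjectProperty Z) [hD : TensorSub D]
    (hgood : ExtInvertible (D ⊓ centralizer D)) [hE : HasExt.{w'} D.FullSubcategory] :
    FGC.{w'} k D.FullSubcategory :=
  fgc_of_fg hZ D (theoremP_of_base hZ hnd hF D hD hgood
    (fun D' hD' _ _ hss => base_semisimple hZ hF D' hD' (fun hA hB p hp => hss hA hB p hp)))

end TP

end Pool.Agent.MUG
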