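import Pool.Agent.MUG.LP
import Pool.Agent.MUG.JK

/-!
# Row TT: transfer of compatibility with half braidings (helper64)
-/

open CategoryTheory MonoidalCategory Limits Abelian

universe w v u

set_option linter.unusedSectionVars false

namespace Pool.Agent.MUG

section TT0

variable {C : Type u} [Category.{v} C] [MonoidalCategory C]

/-- `f` is compatible with the half braidings `b`, `b'` at `Y`. -/
def CompB {Y N N' : C} (b : N ⊗ Y ⟶ Y ⊗ N) (b' : N' ⊗ Y ⟶ Y ⊗ N') (f : N ⟶ N') : Prop :=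
  (f ▷ Y) ≫ b' = b ≫ (Y ◁ f)

/-- The half braiding of a tensor product. -/
def tb {Y N N' : C} (b : N ⊗ Y ⟶ Y ⊗ N) (b' : N' ⊗ Y ⟶ Y ⊗ N') :
    (N ⊗ N') ⊗ Y ⟶ Y ⊗ (N ⊗ N') :=
  (α_ N N' Y).hom ≫ (N ◁ b') ≫ (α_ N Y N').inv ≫ (b ▷ N') ≫ (α_ Y N N').hom

/-- The half braiding of the unit. -/
def ub (Y : C) : 𝟙_ C ⊗ Y ⟶ Y ⊗ 𝟙_ C := (λ_ Y).hom ≫ (ρ_ Y).inv

namespace CompB

variable {Y N N' N'' : C} {b : N ⊗ Y ⟶ Y ⊗ N} {b' : N' ⊗ Y ⟶ Y ⊗ N'} {b'' : N'' ⊗ Y ⟶ Y ⊗ N''}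

theorem comp {f : N ⟶ N'} {g : N' ⟶ N''} (hf : CompB b b' f) (hg : CompB b' b'' g) :
    CompB b b'' (f ≫ g) := by
  unfold CompB at *
  rw [comp_whiskerRight, Category.assoc, hg, ← Category.assoc, hf, Category.assoc,
    ← whiskerLeft_comp]

theorem symm {e : N ≅ N'} (h : CompB b b' e.hom) : CompB b' b e.inv := by
  unfold CompB at *
  rw [← cancel_epi (e.hom ▷ Y), ← Category.assoc, ← comp_whiskerRight, e.hom_inv_id,
    id_whiskerRight, Category.id_comp, ← Category.assoc, h, Category.assoc, ← whiskerLeft_comp,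
    e.hom_inv_id, whiskerLeft_id, Category.comp_id]

theorem left {f : N ⟶ N'} (h : CompB b b' f) {M : C} (m : M ⊗ Y ⟶ Y ⊗ M) :
    CompB (tb m b) (tb m b') (M ◁ f) := by
  unfold CompB tb at *
  have e1 : ((M ◁ f) ▷ Y) ≫ (α_ M N' Y).hom = (α_ M N Y).hom ≫ (M ◁ (f ▷ Y)) := by simp
  have e2 : (M ◁ (f ▷ Y)) ≫ (M ◁ b') = (M ◁ b) ≫ (M ◁ (Y ◁ f)) := by
    rw [← whiskerLeft_comp, h, whiskerLeft_comp]
  have e3 : (M ◁ (Y ◁ f)) ≫ (α_ M Y N').inv ≫ (m ▷ N') ≫ (α_ Y M N').hom =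
      (α_ M Y N).inv ≫ (m ▷ N) ≫ (α_ Y M N).hom ≫ (Y ◁ (M ◁ f)) := by
    rw [associator_inv_naturality_right_assoc, whisker_exchange_assoc,
      associator_naturality_right]
  rw [reassoc_of% e1, reassoc_of% e2, e3]
  simp only [Category.assoc]

theorem right {f : N ⟶ N'} (h : CompB b b' f) {M : C} (m : M ⊗ Y ⟶ Y ⊗ M) :
    CompB (tb b m) (tb b' m) (f ▷ M) := by
  unfold CompB tb at *
  have e1 : ((f ▷ M) ▷ Y) ≫ (α_ N' M Y).hom ≫ (N' ◁ m) ≫ (α_ N' Y M).inv =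
      (α_ N M Y).hom ≫ (N ◁ m) ≫ (α_ N Y M).inv ≫ ((f ▷ Y) ▷ M) := by
    rw [associator_naturality_left_assoc, ← whisker_exchange_assoc,
      associator_inv_naturality_left]
  have e2 : ((f ▷ Y) ▷ M) ≫ (b' ▷ M) ≫ (α_ Y N' M).hom =
      (b ▷ M) ≫ (α_ Y N M).hom ≫ (Y ◁ (f ▷ M)) := by
    rw [← comp_whiskerRight_assoc, h, comp_whiskerRight, Category.assoc,
      associator_naturality_middle]
  rw [reassoc_of% e1, e2]
  simp only [Category.assoc]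

end CompB

theorem compB_assoc {Y N₁ N₂ N₃ : C} (b₁ : N₁ ⊗ Y ⟶ Y ⊗ N₁) (b₂ : N₂ ⊗ Y ⟶ Y ⊗ N₂)
    (b₃ : N₃ ⊗ Y ⟶ Y ⊗ N₃) : CompB (tb (tb b₁ b₂) b₃) (tb b₁ (tb b₂ b₃)) (α_ N₁ N₂ N₃).hom := by
  unfold CompB tb
  monoidal

theorem compB_leftUnitor {Y N : C} (b : N ⊗ Y ⟶ Y ⊗ N) :
    CompB (tb (ub Y) b) b (λ_ N).hom := by
  unfold CompB tb ub
  monoidal

theorem compB_rightUnitor {Y N : C} (b : N ⊗ Y ⟶ Y ⊗ N) :
    CompB (tb b (ub Y)) b (ρ_ N).hom := by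
  unfold CompB tb ub
  monoidal

end TT0

section TT1

variable {C : Type u} [Category.{v} C] [MonoidalCategory C] [BraidedCategory C]

/-- The braiding as half braiding. -/
def jb (Y X : C) : X ⊗ Y ⟶ Y ⊗ X := (β_ X Y).hom

/-- The inverse braiding as half braiding. -/
def kb (Y X : C) : X ⊗ Y ⟶ Y ⊗ X := (β_ Y X).inv

theorem jb_nat (Y : C) {X X' : C} (f : X ⟶ X') : CompB (jb Y X) (jb Y X') f :=
  BraidedCategory.braiding_naturality_left f Y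

theorem kb_nat (Y : C) {X X' : C} (f : X ⟶ X') : CompB (kb Y X) (kb Y X') f := by
  unfold CompB kb
  rw [← cancel_epi (β_ Y X).hom, Iso.hom_inv_id_assoc, ← Category.assoc,
    ← BraidedCategory.braiding_naturality_right, Category.assoc, Iso.hom_inv_id,
    Category.comp_id]

theorem jb_unit (Y : C) : jb Y (𝟙_ C) = ub Y := by
  unfold jb ub
  rw [braiding_tensorUnit_left]

theorem kb_unit (Y : C) : kb Y (𝟙_ C) = ub Y := by
  unfold kb ub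
  rw [braiding_inv_tensorUnit_right]

theorem jb_tensor (Y X X' : C) : tb (jb Y X) (jb Y X') = jb Y (X ⊗ X') := by
  unfold tb jb
  rw [BraidedCategory.braiding_tensor_left_hom]

theorem kb_tensor (Y X X' : C) : tb (kb Y X) (kb Y X') = kb Y (X ⊗ X') := by
  unfold tb kb
  rw [BraidedCategory.braiding_tensor_right_inv]

/-- A morphism compatible with `K` and `J` for all objects of `D`, with target in `D`, is
compatible for all objects commuting with `D ⊓ D^`. -/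
theorem kj_mate {C : Type u} [Category.{v} C] [Abelian C] [MonoidalCategory C]
    [MonoidalPreadditive C] [RigidCategory C] [BraidedCategory C]
    (D : ObjectProperty C) [hD : TensorSub D] {S T : C} (hT : D T) (g : S ⟶ T)
    (hg : ∀ U, D U → CompB (kb U S) (jb U T) g) (Y : C)
    (hY : centralizer (D ⊓ centralizer D) Y) : CompB (kb Y S) (jb Y T) g := by
  let I : C := Abelian.image g
  let i : I ⟶ T := Abelian.image.ι g
  let f : S ⟶ I := Abelian.factorThruImage g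
  have hfi : f ≫ i = g := Abelian.image.fac g
  have hi : Mono i := inferInstanceAs (Mono (Abelian.image.ι g))
  have hf : Epi f := inferInstanceAs (Epi (Abelian.factorThruImage g))
  have key : ∀ U, CompB (kb U S) (jb U T) g ↔ kb U I = jb U I := by
    intro U
    have h1 : (g ▷ U) ≫ jb U T = (f ▷ U) ≫ jb U I ≫ (U ◁ i) := by
      rw [← hfi, comp_whiskerRight, Category.assoc, jb_nat U i]
    have h2 : kb U S ≫ (U ◁ g) = (f ▷ U) ≫ kb U I ≫ (U ◁ i) := by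
      rw [← hfi, whiskerLeft_comp, ← Category.assoc, ← kb_nat U f, Category.assoc]
    have hm : Mono (U ◁ i) := inferInstanceAs (Mono ((tensorLeft U).map i))
    have he : Epi (f ▷ U) := inferInstanceAs (Epi ((tensorRight U).map f))
    unfold CompB
    rw [h1, h2, cancel_epi, cancel_mono]
    exact eq_comm
  have hcomm : ∀ U, kb U I = jb U I ↔ Comm I U := by
    intro U
    unfold kb jb Comm
    constructor
    · intro h
      rw [← h, Iso.inv_hom_id]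
    · intro h
      rw [← cancel_mono (β_ U I).hom, h, Iso.inv_hom_id]
  have hE : (D ⊓ centralizer D) I :=
    ⟨hD.sub i hT, fun U hU => (hcomm U).1 ((key U).1 (hg U hU))⟩
  exact (key Y).2 ((hcomm Y).2 (comm_symm (hY I hE)))

end TT1

section TT2

variable {C : Type u} [Category.{v} C] [Abelian C] [MonoidalCategory C]
    [MonoidalPreadditive C] [RigidCategory C] [BraidedCategory C]

/-- The mate of `g : P ⊗ P' ⟶ A ⊗ B`. -/
def mate₂ {P P' A B : C} (g : P ⊗ P' ⟶ A ⊗ B) : Aᘁ ⊗ P ⟶ B ⊗ P'ᘁ :=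
  tensorRightHomEquiv (Aᘁ ⊗ P) P' (P'ᘁ) B
    ((α_ (Aᘁ) P P').hom ≫ (tensorLeftHomEquiv (P ⊗ P') A (Aᘁ) B).symm g)

theorem compB_mate₂ (Y : C) {P P' A B : C} (g : P ⊗ P' ⟶ A ⊗ B)
    (hg : CompB (tb (kb Y P) (jb Y P')) (tb (kb Y A) (jb Y B)) g) :
    CompB (kb Y (Aᘁ ⊗ P)) (jb Y (B ⊗ P'ᘁ)) (mate₂ g) := by
  have hε : CompB (tb (kb Y (Aᘁ)) (kb Y A)) (ub Y) (ε_ A (Aᘁ)) := by
    rw [kb_tensor, ← kb_unit]
    exact kb_nat Y _
  have hη : CompB (ub Y) (tb (jb Y P') (jb Y (P'ᘁ))) (η_ P' (P'ᘁ)) := by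
    rw [jb_tensor, ← jb_unit]
    exact jb_nat Y _
  have h1 : CompB (tb (kb Y (Aᘁ)) (tb (kb Y P) (jb Y P'))) (jb Y B)
      ((Aᘁ ◁ g) ≫ (α_ (Aᘁ) A B).inv ≫ (ε_ A (Aᘁ) ▷ B) ≫ (λ_ B).hom) :=
    ((hg.left _).comp ((compB_assoc _ _ _).symm.comp ((hε.right _).comp
      (compB_leftUnitor _))))
  have h2 : CompB (tb (tb (kb Y (Aᘁ)) (kb Y P)) (jb Y P')) (jb Y B)
      ((α_ (Aᘁ) P P').hom ≫ (Aᘁ ◁ g) ≫ (α_ (Aᘁ) A B).inv ≫ (ε_ A (Aᘁ) ▷ B) ≫ (λ_ B).hom) :=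
    (compB_assoc _ _ _).comp h1
  have h3 : CompB (tb (kb Y (Aᘁ)) (kb Y P)) (tb (jb Y B) (jb Y (P'ᘁ)))
      ((ρ_ (Aᘁ ⊗ P)).inv ≫ ((Aᘁ ⊗ P) ◁ η_ P' (P'ᘁ)) ≫ (α_ (Aᘁ ⊗ P) P' (P'ᘁ)).inv ≫
        (((α_ (Aᘁ) P P').hom ≫ (Aᘁ ◁ g) ≫ (α_ (Aᘁ) A B).inv ≫ (ε_ A (Aᘁ) ▷ B) ≫
          (λ_ B).hom) ▷ P'ᘁ)) :=
    (compB_rightUnitor _).symm.comp ((hη.left _).comp ((compB_assoc _ _ _).symm.comp
      (h2.right _)))
  rw [kb_tensor, jb_tensor] at h3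
  exact h3

theorem compB_of_mate₂ (Y : C) {P P' A B : C} (g : P ⊗ P' ⟶ A ⊗ B)
    (hg : CompB (kb Y (Aᘁ ⊗ P)) (jb Y (B ⊗ P'ᘁ)) (mate₂ g)) :
    CompB (tb (kb Y P) (jb Y P')) (tb (kb Y A) (jb Y B)) g := by
  have hη : CompB (ub Y) (tb (kb Y A) (kb Y (Aᘁ))) (η_ A (Aᘁ)) := by
    rw [kb_tensor, ← kb_unit]
    exact kb_nat Y _
  have hε : CompB (tb (jb Y (P'ᘁ)) (jb Y P')) (ub Y) (ε_ P' (P'ᘁ)) := by
    rw [jb_tensor, ← jb_unit]
    exact jb_nat Y _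
  have h0 : CompB (tb (kb Y (Aᘁ)) (kb Y P)) (tb (jb Y B) (jb Y (P'ᘁ))) (mate₂ g) := by
    rw [kb_tensor, jb_tensor]
    exact hg
  have h1 : CompB (tb (tb (kb Y (Aᘁ)) (kb Y P)) (jb Y P')) (jb Y B)
      ((mate₂ g ▷ P') ≫ (α_ B (P'ᘁ) P').hom ≫ (B ◁ ε_ P' (P'ᘁ)) ≫ (ρ_ B).hom) :=
    (h0.right _).comp ((compB_assoc _ _ _).comp ((hε.left _).comp (compB_rightUnitor _)))
  have e1 : (mate₂ g ▷ P') ≫ (α_ B (P'ᘁ) P').hom ≫ (B ◁ ε_ P' (P'ᘁ)) ≫ (ρ_ B).hom =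
      (α_ (Aᘁ) P P').hom ≫ (tensorLeftHomEquiv (P ⊗ P') A (Aᘁ) B).symm g :=
    (tensorRightHomEquiv (Aᘁ ⊗ P) P' (P'ᘁ) B).symm_apply_apply _
  rw [e1] at h1
  have h2 : CompB (tb (kb Y (Aᘁ)) (tb (kb Y P) (jb Y P'))) (jb Y B)
      ((tensorLeftHomEquiv (P ⊗ P') A (Aᘁ) B).symm g) := by
    have := (compB_assoc (kb Y (Aᘁ)) (kb Y P) (jb Y P')).symm.comp h1
    rwa [Iso.inv_hom_id_assoc] at this
  have h3 : CompB (tb (kb Y P) (jb Y P')) (tb (kb Y A) (jb Y B))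
      ((λ_ (P ⊗ P')).inv ≫ (η_ A (Aᘁ) ▷ (P ⊗ P')) ≫ (α_ A (Aᘁ) (P ⊗ P')).hom ≫
        (A ◁ (tensorLeftHomEquiv (P ⊗ P') A (Aᘁ) B).symm g)) :=
    (compB_leftUnitor _).symm.comp ((hη.right _).comp ((compB_assoc _ _ _).comp (h2.left _)))
  have e2 : (λ_ (P ⊗ P')).inv ≫ (η_ A (Aᘁ) ▷ (P ⊗ P')) ≫ (α_ A (Aᘁ) (P ⊗ P')).hom ≫
      (A ◁ (tensorLeftHomEquiv (P ⊗ P') A (Aᘁ) B).symm g) = g :=
    (tensorLeftHomEquiv (P ⊗ P') A (Aᘁ) B).apply_symm_apply g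
  rw [e2] at h3
  exact h3

/-- Row TT: a morphism `P ⊗ P' ⟶ A ⊗ B` in `D` compatible with the half braidings of `K P ⊗ J P'`
and `K A ⊗ J B` at all objects of `D` is compatible at all objects commuting with `D ⊓ D^`. -/
theorem compB_transfer (D : ObjectProperty C) [hD : TensorSub D] {P P' A B : C} (hP' : D P')
    (hB : D B) (g : P ⊗ P' ⟶ A ⊗ B)
    (hg : ∀ U, D U → CompB (tb (kb U P) (jb U P')) (tb (kb U A) (jb U B)) g) (Y : C)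
    (hY : centralizer (D ⊓ centralizer D) Y) :
    CompB (tb (kb Y P) (jb Y P')) (tb (kb Y A) (jb Y B)) g :=
  compB_of_mate₂ Y g (kj_mate D (hD.tensor hB (hD.rdual hP')) (mate₂ g)
    (fun U hU => compB_mate₂ U g (hg U hU)) Y hY)

end TT2

section TT3

variable {C : Type u} [Category.{v} C] [MonoidalCategory C] [BraidedCategory C]

theorem lcore_e (V' V Y : C) (e : V' ⊗ V ⟶ 𝟙_ C) : lcore V' V Y ≫ (e ▷ Y) ≫ (λ_ Y).hom =
    tb (kb Y V') (jb Y V) ≫ (Y ◁ e) ≫ (ρ_ Y).hom := by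
  have h1 : (e ▷ Y) ≫ (λ_ Y).hom = (β_ Y (V' ⊗ V)).inv ≫ (Y ◁ e) ≫ (ρ_ Y).hom := by
    have h2 := kb_nat Y e
    unfold CompB at h2
    rw [kb_unit] at h2
    unfold kb ub at h2
    rw [← Category.assoc (β_ Y (V' ⊗ V)).inv, ← h2]
    simp
  rw [h1]
  unfold lcore tb kb jb c2
  simp

/-- (L4): the action of a loop through the half braiding of `K V' ⊗ J V`. -/
theorem LoopData.map_eq {M : C} (ℓ : LoopData M) (Y : C) :
    ℓ.map Y = (ℓ.t ▷ Y) ≫ tb (kb Y ℓ.V') (jb Y ℓ.V) ≫ (Y ◁ ℓ.e) ≫ (ρ_ Y).hom := by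
  unfold LoopData.map
  rw [lcore_e]

set_option backward.isDefEq.respectTransparency.types false in
theorem kj_beta_eq (X X' U : C) : ((kObj X ⊗ jObj X').2.β U).hom = tb (kb U X) (jb U X') :=
  kj_beta X X' U

end TT3

end Pool.Agent.MUG
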