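import Pool.Agent.MUG.Leib

open CategoryTheory MonoidalCategory Limits Abelian

universe w v u

namespace Pool.Agent.MUG

namespace U3

section Nine

variable {A : Type u} [Category.{v} A] [Abelian A]

/-- An additive functor which is a natural self-extension of the identity functor is exact. -/
lemma shortExact_map_of_ext (Φ : A ⥤ A) [Φ.Additive] (i : ∀ Y, Y ⟶ Φ.obj Y)
    (p : ∀ Y, Φ.obj Y ⟶ Y)
    (nati : ∀ {Y Y' : A} (f : Y ⟶ Y'), i Y ≫ Φ.map f = f ≫ i Y')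
    (natp : ∀ {Y Y' : A} (f : Y ⟶ Y'), Φ.map f ≫ p Y' = p Y ≫ f)
    (ip : ∀ Y, i Y ≫ p Y = 0)
    (ex : ∀ Y, (ShortComplex.mk (i Y) (p Y) (ip Y)).ShortExact)
    (S : ShortComplex A) (hS : S.ShortExact) : (S.map Φ).ShortExact := by
  have hm : ∀ Y, Mono (i Y) := fun Y => (ex Y).mono_f
  have he : ∀ Y, Epi (p Y) := fun Y => (ex Y).epi_g
  have hmf : Mono S.f := hS.mono_f
  have heg : Epi S.g := hS.epi_g
  have key : ∀ {T : A} (x₂ : T ⟶ Φ.obj S.X₂), x₂ ≫ Φ.map S.g = 0 →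
      ∃ (T' : A) (π : T' ⟶ T) (_ : Epi π) (x₁ : T' ⟶ Φ.obj S.X₁),
        π ≫ x₂ = x₁ ≫ Φ.map S.f := by
    intro T x₂ hx₂
    obtain ⟨a, ha⟩ : ∃ a : T ⟶ S.X₁, a ≫ S.f = x₂ ≫ p S.X₂ := by
      refine ⟨hS.exact.lift (x₂ ≫ p S.X₂) ?_, hS.exact.lift_f _ _⟩
      rw [Category.assoc, ← natp, ← Category.assoc, hx₂, zero_comp]
    obtain ⟨T', π, hπ, b, hb⟩ := surjective_up_to_refinements_of_epi (p S.X₁) a
    obtain ⟨c, hc⟩ : ∃ c : T' ⟶ S.X₂, c ≫ i S.X₂ = π ≫ x₂ - b ≫ Φ.map S.f := by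
      refine ⟨(ex S.X₂).exact.lift (π ≫ x₂ - b ≫ Φ.map S.f) ?_,
        (ex S.X₂).exact.lift_f _ _⟩
      change (π ≫ x₂ - b ≫ Φ.map S.f) ≫ p S.X₂ = 0
      rw [Preadditive.sub_comp, Category.assoc, Category.assoc, natp, ← ha, ← Category.assoc,
        hb, Category.assoc, sub_self]
    have hc0 : c ≫ S.g = 0 := by
      rw [← cancel_mono (i S.X₃), zero_comp, Category.assoc, ← nati, ← Category.assoc, hc,
        Preadditive.sub_comp, Category.assoc, Category.assoc, hx₂, ← Φ.map_comp, S.zero,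
        Φ.map_zero, comp_zero, comp_zero, sub_zero]
    refine ⟨T', π, hπ, b + hS.exact.lift c hc0 ≫ i S.X₁, ?_⟩
    rw [Preadditive.add_comp, Category.assoc, nati, ← Category.assoc, hS.exact.lift_f, hc]
    abel
  refine ShortComplex.ShortExact.mk' ?_ ?_ ?_
  · rw [ShortComplex.exact_iff_exact_up_to_refinements]
    intro T x₂ hx₂
    exact key x₂ hx₂
  · change Mono (Φ.map S.f)
    refine Preadditive.mono_of_cancel_zero _ fun {T} x hx => ?_
    have h1 : x ≫ p S.X₁ = 0 := by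
      rw [← cancel_mono S.f, zero_comp, Category.assoc, ← natp, ← Category.assoc, hx, zero_comp]
    obtain ⟨y, hy⟩ : ∃ y : T ⟶ S.X₁, y ≫ i S.X₁ = x :=
      ⟨(ex S.X₁).exact.lift x h1, (ex S.X₁).exact.lift_f x h1⟩
    have h3 : y = 0 := by
      rw [← cancel_mono S.f, zero_comp, ← cancel_mono (i S.X₂), zero_comp, Category.assoc,
        ← nati, ← Category.assoc, hy, hx]
    rw [← hy, h3, zero_comp]
  · change Epi (Φ.map S.g)
    refine Preadditive.epi_of_cancel_zero _ fun {T} x hx => ?_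
    have h1 : i S.X₃ ≫ x = 0 := by
      rw [← cancel_epi S.g, comp_zero, ← Category.assoc, ← nati, Category.assoc, hx, comp_zero]
    obtain ⟨y, hy⟩ : ∃ y : S.X₃ ⟶ T, p S.X₃ ≫ y = x :=
      ⟨(ex S.X₃).exact.desc x h1, (ex S.X₃).exact.g_desc x h1⟩
    have h3 : y = 0 := by
      rw [← cancel_epi S.g, comp_zero, ← cancel_epi (p S.X₂), comp_zero, ← Category.assoc,
        ← natp, Category.assoc, hy, hx]
    rw [← hy, h3, comp_zero]

lemma exact_of_ext (Φ : A ⥤ A) [Φ.Additive] (i : ∀ Y, Y ⟶ Φ.obj Y)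
    (p : ∀ Y, Φ.obj Y ⟶ Y)
    (nati : ∀ {Y Y' : A} (f : Y ⟶ Y'), i Y ≫ Φ.map f = f ≫ i Y')
    (natp : ∀ {Y Y' : A} (f : Y ⟶ Y'), Φ.map f ≫ p Y' = p Y ≫ f)
    (ip : ∀ Y, i Y ≫ p Y = 0)
    (ex : ∀ Y, (ShortComplex.mk (i Y) (p Y) (ip Y)).ShortExact) :
    PreservesFiniteLimits Φ ∧ PreservesFiniteColimits Φ :=
  ((Functor.exact_tfae Φ).out 0 3).1 (shortExact_map_of_ext Φ i p nati natp ip ex)

end Nine

section Gen

/-- An extension `0 ⟶ F ⟶ G ⟶ id ⟶ 0` of functors together with `n : F ⟶ id`. -/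
structure PhiIn (A : Type u) [Category.{v} A] [Abelian A] where
  F : A ⥤ A
  G : A ⥤ A
  j : ∀ Y, F.obj Y ⟶ G.obj Y
  e : ∀ Y, G.obj Y ⟶ Y
  n : ∀ Y, F.obj Y ⟶ Y
  natj : ∀ {Y Y' : A} (f : Y ⟶ Y'), F.map f ≫ j Y' = j Y ≫ G.map f
  nate : ∀ {Y Y' : A} (f : Y ⟶ Y'), G.map f ≫ e Y' = e Y ≫ f
  natn : ∀ {Y Y' : A} (f : Y ⟶ Y'), F.map f ≫ n Y' = n Y ≫ f
  je : ∀ Y, j Y ≫ e Y = 0
  ex : ∀ Y, (ShortComplex.mk (j Y) (e Y) (je Y)).ShortExact

variable {A : Type u} [Category.{v} A] [Abelian A] (D : PhiIn A)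

namespace PhiIn

lemma mono_j (Y : A) : Mono (D.j Y) := (D.ex Y).mono_f

lemma epi_e (Y : A) : Epi (D.e Y) := (D.ex Y).epi_g

/-- `Φ`, the pushout of `F Y ⟶ G Y` along `n : F Y ⟶ Y`. -/
noncomputable def phi : A ⥤ A where
  obj Y := pushout (D.j Y) (D.n Y)
  map {Y Y'} f := pushout.desc (D.G.map f ≫ pushout.inl (D.j Y') (D.n Y'))
    (f ≫ pushout.inr (D.j Y') (D.n Y')) (by
      rw [← Category.assoc, ← D.natj, Category.assoc, pushout.condition, ← Category.assoc,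
        D.natn, Category.assoc])
  map_id Y := by
    refine pushout.hom_ext ?_ ?_
    · rw [pushout.inl_desc]; simp
    · rw [pushout.inr_desc]; simp
  map_comp f g := by
    refine pushout.hom_ext ?_ ?_
    · rw [pushout.inl_desc, pushout.inl_desc_assoc, Category.assoc, pushout.inl_desc]; simp
    · rw [pushout.inr_desc, pushout.inr_desc_assoc, Category.assoc, Category.assoc,
        pushout.inr_desc]

/-- `q : G Y ⟶ Φ Y`. -/
noncomputable def q (Y : A) : D.G.obj Y ⟶ D.phi.obj Y := pushout.inl (D.j Y) (D.n Y)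

/-- `i : Y ⟶ Φ Y`. -/
noncomputable def i (Y : A) : Y ⟶ D.phi.obj Y := pushout.inr (D.j Y) (D.n Y)

@[reassoc]
lemma jq (Y : A) : D.j Y ≫ D.q Y = D.n Y ≫ D.i Y :=
  pushout.condition (f := D.j Y) (g := D.n Y)

variable {D} in
/-- The map out of `Φ Y` given by `h : G Y ⟶ T` and `g : Y ⟶ T`. -/
noncomputable def desc {Y T : A} (h : D.G.obj Y ⟶ T) (g : Y ⟶ T)
    (w : D.j Y ≫ h = D.n Y ≫ g) : D.phi.obj Y ⟶ T :=
  pushout.desc (f := D.j Y) (g := D.n Y) h g w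

@[reassoc (attr := simp)]
lemma q_desc {Y T : A} (h : D.G.obj Y ⟶ T) (g : Y ⟶ T)
    (w : D.j Y ≫ h = D.n Y ≫ g) : D.q Y ≫ desc h g w = h :=
  pushout.inl_desc (f := D.j Y) (g := D.n Y) h g w

@[reassoc (attr := simp)]
lemma i_desc {Y T : A} (h : D.G.obj Y ⟶ T) (g : Y ⟶ T)
    (w : D.j Y ≫ h = D.n Y ≫ g) : D.i Y ≫ desc h g w = g :=
  pushout.inr_desc (f := D.j Y) (g := D.n Y) h g w

variable {D} in
lemma hom_ext {Y T : A} {a b : D.phi.obj Y ⟶ T} (hq : D.q Y ≫ a = D.q Y ≫ b)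
    (hi : D.i Y ≫ a = D.i Y ≫ b) : a = b :=
  pushout.hom_ext (f := D.j Y) (g := D.n Y) hq hi

@[reassoc]
lemma q_map {Y Y' : A} (f : Y ⟶ Y') : D.q Y ≫ D.phi.map f = D.G.map f ≫ D.q Y' :=
  pushout.inl_desc (f := D.j Y) (g := D.n Y) _ _ _

@[reassoc]
lemma i_map {Y Y' : A} (f : Y ⟶ Y') : D.i Y ≫ D.phi.map f = f ≫ D.i Y' :=
  pushout.inr_desc (f := D.j Y) (g := D.n Y) _ _ _

/-- `p : Φ Y ⟶ Y`. -/
noncomputable def p (Y : A) : D.phi.obj Y ⟶ Y :=
  desc (D.e Y) 0 (by rw [D.je, comp_zero])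

@[reassoc (attr := simp)]
lemma qp (Y : A) : D.q Y ≫ D.p Y = D.e Y := q_desc D _ _ _

@[reassoc (attr := simp)]
lemma ip (Y : A) : D.i Y ≫ D.p Y = 0 := i_desc D _ _ _

@[reassoc]
lemma map_p {Y Y' : A} (f : Y ⟶ Y') : D.phi.map f ≫ D.p Y' = D.p Y ≫ f := by
  refine hom_ext ?_ ?_
  · rw [q_map_assoc, qp, qp_assoc, D.nate]
  · rw [i_map_assoc, ip, ip_assoc, zero_comp, comp_zero]

lemma mono_i (Y : A) : Mono (D.i Y) := by
  have := D.mono_j Y
  exact Abelian.mono_pushout_of_mono_f (D.j Y) (D.n Y)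

lemma epi_p (Y : A) : Epi (D.p Y) := by
  have := D.epi_e Y
  exact epi_of_epi_fac (D.qp Y)

/-- `0 ⟶ Y ⟶ Φ Y ⟶ Y ⟶ 0` is exact. -/
lemma shortExact (Y : A) : (ShortComplex.mk (D.i Y) (D.p Y) (D.ip Y)).ShortExact := by
  have := D.mono_i Y
  have := D.epi_p Y
  have he := D.epi_e Y
  have h := D.ex Y
  have key : ∀ {T : A} (t : D.phi.obj Y ⟶ T), D.i Y ≫ t = 0 → ∃ l : Y ⟶ T, D.p Y ≫ l = t := by
    intro T t ht
    have h0 : D.j Y ≫ D.q Y ≫ t = 0 := by rw [jq_assoc, ht, comp_zero]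
    obtain ⟨l, hl⟩ : ∃ l : Y ⟶ T, D.e Y ≫ l = D.q Y ≫ t := by
      have hh : Epi (ShortComplex.mk (D.j Y) (D.e Y) (D.je Y)).g := he
      exact ⟨h.exact.desc (D.q Y ≫ t) h0, h.exact.g_desc (D.q Y ≫ t) h0⟩
    refine ⟨l, hom_ext ?_ ?_⟩
    · rw [qp_assoc, hl]
    · rw [ip_assoc, zero_comp, ht]
  have hm : Mono (ShortComplex.mk (D.i Y) (D.p Y) (D.ip Y)).f := D.mono_i Y
  have hE : Epi (ShortComplex.mk (D.i Y) (D.p Y) (D.ip Y)).g := D.epi_p Y
  refine ShortComplex.ShortExact.mk' ?_ hm hE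
  refine ShortComplex.exact_of_g_is_cokernel _ ?_
  refine CokernelCofork.IsColimit.ofπ _ _ (fun {T} t ht => (key t ht).choose)
    (fun {T} t ht => (key t ht).choose_spec) ?_
  intro T t ht m hm
  have h1 := (key t ht).choose_spec
  rw [← cancel_epi (D.p Y), h1]
  exact hm

instance additive [D.G.Additive] : D.phi.Additive where
  map_add {Y Y' f g} := by
    refine hom_ext ?_ ?_
    · rw [q_map, Functor.map_add, Preadditive.add_comp, Preadditive.comp_add, q_map, q_map]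
    · rw [i_map, Preadditive.add_comp, Preadditive.comp_add, i_map, i_map]

instance linear (k : Type*) [Ring k] [Linear k A] [D.G.Linear k] :
    D.phi.Linear k where
  map_smul {Y Y'} f a := by
    refine hom_ext ?_ ?_
    · rw [q_map, Functor.map_smul, Linear.smul_comp, Linear.comp_smul, q_map]
    · rw [i_map, Linear.smul_comp, Linear.comp_smul, i_map]

instance pfl [D.G.Additive] : PreservesFiniteLimits D.phi :=
  (exact_of_ext D.phi D.i D.p D.i_map D.map_p D.ip D.shortExact).1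

instance pfc [D.G.Additive] : PreservesFiniteColimits D.phi :=
  (exact_of_ext D.phi D.i D.p D.i_map D.map_p D.ip D.shortExact).2

/-- `i` as a natural transformation. -/
@[simps]
noncomputable def iNat : 𝟭 A ⟶ D.phi where
  app Y := D.i Y
  naturality _ _ f := (D.i_map f).symm

/-- `p` as a natural transformation. -/
@[simps]
noncomputable def pNat : D.phi ⟶ 𝟭 A where
  app Y := D.p Y
  naturality _ _ f := D.map_p f

/-- `q` as a natural transformation. -/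
@[simps]
noncomputable def qNat : D.G ⟶ D.phi where
  app Y := D.q Y
  naturality _ _ f := (D.q_map f).symm

/-- The short complex `Y ⟶ Φ Y ⟶ Y`. -/
noncomputable abbrev sc (Y : A) : ShortComplex A := ShortComplex.mk (D.i Y) (D.p Y) (D.ip Y)

/-- The retraction `r : Φ Y ⟶ Y` attached to `h : G Y ⟶ Y` with `j h = n`. -/
noncomputable def retr {Y : A} (h : D.G.obj Y ⟶ Y) (w : D.j Y ≫ h = D.n Y) :
    D.phi.obj Y ⟶ Y :=
  desc h (𝟙 Y) (by rw [w, Category.comp_id])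

@[reassoc (attr := simp)]
lemma q_retr {Y : A} (h : D.G.obj Y ⟶ Y) (w : D.j Y ≫ h = D.n Y) :
    D.q Y ≫ D.retr h w = h := q_desc D _ _ _

@[reassoc (attr := simp)]
lemma i_retr {Y : A} (h : D.G.obj Y ⟶ Y) (w : D.j Y ≫ h = D.n Y) :
    D.i Y ≫ D.retr h w = 𝟙 Y := i_desc D _ _ _

/-- Every retraction comes from some `h`. -/
lemma j_q_retr {Y : A} (r : D.phi.obj Y ⟶ Y) (hr : D.i Y ≫ r = 𝟙 Y) :
    D.j Y ≫ D.q Y ≫ r = D.n Y := by
  rw [jq_assoc, hr, Category.comp_id]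

lemma retr_q {Y : A} (r : D.phi.obj Y ⟶ Y) (hr : D.i Y ≫ r = 𝟙 Y) :
    D.retr (D.q Y ≫ r) (D.j_q_retr r hr) = r :=
  hom_ext (by rw [q_retr]) (by rw [i_retr, hr])

/-- The splitting of `Y ⟶ Φ Y ⟶ Y` attached to `h`. -/
noncomputable def conn {Y : A} (h : D.G.obj Y ⟶ Y) (w : D.j Y ≫ h = D.n Y) :
    (D.sc Y).Splitting :=
  ShortComplex.Splitting.ofExactOfRetraction (D.sc Y) (D.shortExact Y).exact (D.retr h w)
    (D.i_retr h w) (D.epi_p Y)

@[simp]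
lemma conn_r {Y : A} (h : D.G.obj Y ⟶ Y) (w : D.j Y ≫ h = D.n Y) :
    (D.conn h w).r = D.retr h w := rfl

/-- Compatible maps. -/
lemma map_retr {Y Y' : A} (f : Y ⟶ Y') (h : D.G.obj Y ⟶ Y) (w : D.j Y ≫ h = D.n Y)
    (h' : D.G.obj Y' ⟶ Y') (w' : D.j Y' ≫ h' = D.n Y') (hf : D.G.map f ≫ h' = h ≫ f) :
    D.phi.map f ≫ D.retr h' w' = D.retr h w ≫ f := by
  refine hom_ext ?_ ?_
  · rw [q_map_assoc, q_retr, q_retr_assoc, hf]
  · rw [i_map_assoc, i_retr, i_retr_assoc, Category.comp_id]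

/-- Conversely. -/
lemma map_of_retr {Y Y' : A} (f : Y ⟶ Y') (r : D.phi.obj Y ⟶ Y) (r' : D.phi.obj Y' ⟶ Y')
    (hf : D.phi.map f ≫ r' = r ≫ f) : D.G.map f ≫ D.q Y' ≫ r' = (D.q Y ≫ r) ≫ f := by
  rw [← q_map_assoc, hf, Category.assoc]

/-- Shifting `h` by a multiple of `e`. -/
lemma retr_add {Y : A} (h : D.G.obj Y ⟶ Y) (w : D.j Y ≫ h = D.n Y) (g : Y ⟶ Y)
    (w' : D.j Y ≫ (h + D.e Y ≫ g) = D.n Y) :
    D.retr (h + D.e Y ≫ g) w' = D.retr h w + D.p Y ≫ g := by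
  refine hom_ext ?_ ?_
  · rw [q_retr, Preadditive.comp_add, q_retr, qp_assoc]
  · rw [i_retr, Preadditive.comp_add, i_retr, ip_assoc, zero_comp, add_zero]

lemma j_add {Y : A} (h : D.G.obj Y ⟶ Y) (w : D.j Y ≫ h = D.n Y) (g : Y ⟶ Y) :
    D.j Y ≫ (h + D.e Y ≫ g) = D.n Y := by
  rw [Preadditive.comp_add, w, ← Category.assoc, D.je, zero_comp, add_zero]

/-- Two retractions differ by `p ≫ g`. -/
lemma exists_retr_add {Y : A} (h h' : D.G.obj Y ⟶ Y) (w : D.j Y ≫ h = D.n Y)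
    (w' : D.j Y ≫ h' = D.n Y) : ∃ g : Y ⟶ Y, h' = h + D.e Y ≫ g := by
  have hE : Epi (ShortComplex.mk (D.j Y) (D.e Y) (D.je Y)).g := D.epi_e Y
  have h0 : D.j Y ≫ (h' - h) = 0 := by rw [Preadditive.comp_sub, w, w', sub_self]
  refine ⟨(D.ex Y).exact.desc (h' - h) h0, ?_⟩
  have h1 : D.e Y ≫ (D.ex Y).exact.desc (h' - h) h0 = h' - h := (D.ex Y).exact.g_desc (h' - h) h0
  rw [h1]
  abel

/-- A projective object has a retraction. -/
lemma exists_h {Y : A} [Projective Y] : ∃ h : D.G.obj Y ⟶ Y, D.j Y ≫ h = D.n Y := by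
  have := D.epi_p Y
  have s := ShortComplex.Splitting.ofExactOfSection (D.sc Y) (D.shortExact Y).exact
    (Projective.factorThru (𝟙 Y) (D.p Y)) (Projective.factorThru_comp _ _) (D.mono_i Y)
  exact ⟨D.q Y ≫ s.r, D.j_q_retr s.r s.f_r⟩

end PhiIn

end Gen

section Leib

variable {C : Type u} [Category.{v} C] [Abelian C] [MonoidalCategory C] [BraidedCategory C]
  [MonoidalPreadditive C] [RigidCategory C]

/-- The input for `Φ` attached to `0 ⟶ W ⟶ U ⟶ 1 ⟶ 0` and a Leibniz family for `W`. -/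
@[simps]
def phiIn {W U : C} (L : Leib W) (j : W ⟶ U) (e : U ⟶ 𝟙_ C) (je : j ≫ e = 0)
    (hS : (ShortComplex.mk j e je).ShortExact) : PhiIn C where
  F := tensorLeft W
  G := tensorLeft U
  j Y := j ▷ Y
  e Y := e ▷ Y ≫ (λ_ Y).hom
  n Y := L.d Y
  natj f := whisker_exchange j f
  nate {Y Y'} f := by
    change U ◁ f ≫ e ▷ Y' ≫ (λ_ Y').hom = (e ▷ Y ≫ (λ_ Y).hom) ≫ f
    rw [whisker_exchange_assoc, leftUnitor_naturality, Category.assoc]
  natn f := L.nat f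
  je Y := by
    rw [← comp_whiskerRight_assoc, je]
    simp
  ex Y := by
    have h1 := hS.map_of_exact (tensorRight Y)
    exact (ShortComplex.shortExact_iff_of_iso (S₁ := (ShortComplex.mk j e je).map (tensorRight Y))
      (S₂ := ShortComplex.mk (j ▷ Y) (e ▷ Y ≫ (λ_ Y).hom)
        (by rw [← comp_whiskerRight_assoc, je]; simp))
      (ShortComplex.isoMk (Iso.refl (W ⊗ Y)) (Iso.refl (U ⊗ Y)) (λ_ Y)
        ((Category.id_comp (j ▷ Y)).trans (Category.comp_id (j ▷ Y)).symm)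
        (Category.id_comp (e ▷ Y ≫ (λ_ Y).hom)))).1 h1

variable {W U : C} (L : Leib W) (j : W ⟶ U) (e : U ⟶ 𝟙_ C) (je : j ≫ e = 0)
  (hS : (ShortComplex.mk j e je).ShortExact)

instance phiIn_additive : (phiIn L j e je hS).G.Additive :=
  inferInstanceAs (tensorLeft U).Additive

instance phiIn_linear (k : Type*) [Field k] [Linear k C] [MonoidalLinear k C] :
    (phiIn L j e je hS).G.Linear k :=
  inferInstanceAs ((tensorLeft U).Linear k)

end Leib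

end U3

end Pool.Agent.MUG
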